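import Pool.Agent.Mg.Fe4cac8.G43e91a

set_option linter.all false

section

/-! The Euler-Lagrange equation where the potential is positive. -/

open Set MeasureTheory Filter Topology
open scoped ENNReal NNReal SchwartzMap
open Pool.Agent.MP_0b7119_mp.G

namespace Pool.Agent.MP_e4cac8_mp

set_option linter.unusedSectionVars false

variable {E S : Type} [NormedAddCommGroup E] [InnerProductSpace ℝ E] [FiniteDimensional ℝ E]
  [MeasurableSpace E] [BorelSpace E] [NormedAddCommGroup S] [InnerProductSpace ℂ S]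
  [CompleteSpace S] [FiniteDimensional ℂ S] {d : ℕ}

namespace EL1

theorem ev_lt {a u v : ℝ} (h : a * u + (1 - a) * v < 0) :
    ∀ᶠ s in 𝓝[>] (0 : ℝ), a * Real.exp (u * s) + (1 - a) * Real.exp (v * s) < 1 := by
  have h1 : HasDerivAt (fun s : ℝ => a * Real.exp (u * s) + (1 - a) * Real.exp (v * s))
      (a * u + (1 - a) * v) 0 :=
    ((((hasDerivAt_id' (0 : ℝ)).const_mul u).exp.const_mul a).fun_add
      (((hasDerivAt_id' (0 : ℝ)).const_mul v).exp.const_mul (1 - a))).congr_deriv (by simp)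
  filter_upwards [h1.tendsto_slope_zero_right.eventually_lt_const h, self_mem_nhdsWithin]
    with s hs (h0 : 0 < s)
  simp only [zero_add, mul_zero, Real.exp_zero, mul_one, add_sub_cancel, smul_eq_mul] at hs
  exact sub_neg.1 (neg_of_mul_neg_right hs (inv_pos.2 h0).le)

theorem ev_exp {κ : ℝ} (h : 1 < κ) (u : ℝ) : ∀ᶠ s in 𝓝[>] (0 : ℝ), Real.exp (u * s) < κ := by
  have : Continuous fun s : ℝ => Real.exp (u * s) := by fun_prop
  exact nhdsWithin_le_nhds ((this.tendsto' 0 1 (by simp)).eventually_lt_const h)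

theorem two {f g : E → ℝ} (hf : Integrable f volume) {B : Set E} (hB : MeasurableSet B)
    {c₁ c₀ : ℝ} (e₁ : ∀ x ∈ B, g x = c₁ * f x) (e₀ : ∀ x ∉ B, g x = c₀ * f x) :
    Integrable g volume ∧ ∫ x, g x = c₁ * (∫ x in B, f x) + c₀ * ((∫ x, f x) - ∫ x in B, f x) := by
  have e : g = fun x => c₀ * f x + (c₁ - c₀) * B.indicator f x := funext fun x => by
    by_cases h : x ∈ B
    · rw [e₁ x h, indicator_of_mem h]; ring
    · rw [e₀ x h, indicator_of_notMem h]; ring
  have h1 := hf.const_mul c₀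
  have h2 := (hf.indicator hB).const_mul (c₁ - c₀)
  rw [e, integral_add h1 h2, integral_const_mul, integral_const_mul, integral_indicator hB]
  exact ⟨h1.add h2, by ring⟩

/-- Multiplicative variations of the potential are subcritical. -/
theorem var {r : E → S →L[ℂ] S} (hr : Ks r) {p A θ : ℝ} {V : E → ℝ} (hp : 0 < p)
    (hV : PotR p A V) (hA : Adm V (fun z => ‖r z‖) θ)
    (h : (∀ M, HP r p A M) ∨ ∃ M₀ M, M₀ < M ∧ (∀ x, V x ≤ M₀) ∧ HP r p A M) :
    ∃ κ : ℝ, 1 < κ ∧ ∀ w : E → ℝ, (∀ x, w x ≤ κ) → PotR p A (fun x => V x * w x) →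
      BS r (fun x => V x * w x) 1 := by
  rcases h with h | ⟨M₀, M, h0, h1, h⟩
  · refine ⟨2, one_lt_two, fun w hw hW => ?_⟩
    have hb : ∀ x y, V y * w y * ‖r (x - y)‖ ≤ 2 * (V y * ‖r (x - y)‖) := fun x y => by
      rw [← mul_assoc, mul_comm 2]
      exact mul_le_mul_of_nonneg_right (mul_le_mul_of_nonneg_left (hw y) (hV.nonneg y))
        (norm_nonneg _)
    have hi : ∀ x, Integrable (fun y => V y * w y * ‖r (x - y)‖) volume := fun x =>
      ((hA.int x).const_mul 2).mono'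
        (hW.meas.mul (hr.mnorm.comp (measurable_const.sub measurable_id))).aestronglyMeasurable
        (Eventually.of_forall fun y => by
          rw [Real.norm_of_nonneg (mul_nonneg (hW.nonneg y) (norm_nonneg _))]
          exact hb x y)
    have hm : ∀ n : ℕ, MeasurableSet {x | V x * w x ≤ n} := fun n =>
      measurableSet_le hW.meas measurable_const
    refine bs_of_trunc (θ := 2 * θ) hr hW.meas hW.nonneg ⟨hi, fun x => ?_⟩ _ hm
      (fun x => tendsto_natCast_atTop_atTop.eventually_ge_atTop (V x * w x)) fun n => h n _ ?_ fun x => ?_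
    · refine (integral_mono (hi x) ((hA.int x).const_mul 2) (hb x)).trans ?_
      rw [integral_const_mul]
      exact mul_le_mul_of_nonneg_left (hA.le x) zero_le_two
    · have e : (fun x => {x | V x * w x ≤ n}.indicator (fun x => V x * w x) x ^ p) =
          {x | V x * w x ≤ n}.indicator fun x => (V x * w x) ^ p := funext fun x => by
        simp only [indicator]
        split_ifs
        exacts [rfl, Real.zero_rpow hp.ne']
      refine ⟨hW.meas.indicator (hm n), indicator_nonneg fun x _ => hW.nonneg x,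
        e ▸ hW.int.indicator (hm n), ?_⟩
      rw [e, integral_indicator (hm n)]
      exact (setIntegral_le_integral hW.int
        (Eventually.of_forall fun x => Real.rpow_nonneg (hW.nonneg x) p)).trans hW.le
    · exact indicator_apply_le' (fun e => e) fun _ => n.cast_nonneg
  · have h2 : 0 ≤ M₀ := (hV.nonneg 0).trans (h1 0)
    refine ⟨(M + 1) / (M₀ + 1), (one_lt_div (by linarith)).2 (by linarith), fun w hw hW =>
      h _ hW fun x => (mul_le_mul_of_nonneg_left (hw x) (hV.nonneg x)).trans ?_⟩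
    rw [← mul_div_assoc, div_le_iff₀ (by linarith)]
    nlinarith [mul_le_mul_of_nonneg_right (h1 x) (by linarith : 0 ≤ M + 1)]

/-- The variational inequality. -/
theorem key {r : E → S →L[ℂ] S} (hr : Ks r) {θ K : ℝ} {V w : E → ℝ} (hV : Measurable V)
    (hV0 : ∀ x, 0 ≤ V x) (hA : Adm V (fun z => ‖r z‖) θ) {ψ : E → S} (h : Fix r V ψ)
    (hw : Measurable w) (h0 : ∀ x, 0 < w x) (hK : ∀ x, (w x)⁻¹ ≤ K)
    (hB : BS r (fun x => V x * w x) 1) :
    ∫ x, V x * ‖ψ x‖ ^ 2 ≤ ∫ x, (w x)⁻¹ * (V x * ‖ψ x‖ ^ 2) := by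
  have h1 := hB _ (memLp_sv hw.inv hK (memLp_sv_of_int hV hV0 h.l2.1 h.intV))
  have e : sv (fun x => V x * w x) (sv w⁻¹ (sv V ψ)) = sv V (sv V ψ) := funext fun x => by
    rw [sv, sv, smul_smul, ← Complex.ofReal_mul, ← Real.sqrt_mul (mul_nonneg (hV0 x) (h0 x).le),
      Pi.inv_apply, mul_inv_cancel_right₀ (h0 x).ne']
    rfl
  rw [e, (h.form hr hV hV0 hA).1, one_mul, I2_sv (V := w⁻¹) fun x => (inv_pos.2 (h0 x)).le] at h1
  simpa only [norm_sv, mul_pow, Real.sq_sqrt (hV0 _), Pi.inv_apply] using h1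

end EL1

variable (e : OrthonormalBasis (Fin d) ℝ E) (α : Fin d → S →L[ℂ] S) (β : S →L[ℂ] S) (m : ℝ)

theorem stEL1 (hc : Ctx α β m) : StEL1 e α β m := by
  intro l _ p A θ V ψ hp hA hV hθ hψ h
  have hr := ks_rk hc.rep e m l
  have hp0 : 0 < p := by linarith
  obtain ⟨κ, hκ, h⟩ := EL1.var hr hp0 hV hθ h
  have hI := (hψ.fix.form hr hV.meas hV.nonneg hθ).2
  have hi := hψ.fix.intV
  have hP : 0 < A ^ p := Real.rpow_pos_of_pos hA p
  set I := ∫ x, V x * ‖ψ x‖ ^ 2 with hId
  have hD := hV.int.sub (hi.const_mul (A ^ p / I))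
  have h1 : 0 ≤ᵐ[volume] fun x => V x ^ p - A ^ p / I * (V x * ‖ψ x‖ ^ 2) := by
    refine ae_nonneg_of_forall_setIntegral_nonneg hD fun B hB _ => ?_
    rw [integral_sub hV.int.integrableOn (hi.const_mul _).integrableOn, integral_const_mul,
      sub_nonneg]
    obtain ⟨a, ha⟩ : ∃ a, ∫ x in B, V x ^ p = a * A ^ p := ⟨_, (div_mul_cancel₀ _ hP.ne').symm⟩
    obtain ⟨b, hb⟩ : ∃ b, ∫ x in B, V x * ‖ψ x‖ ^ 2 = b * I := ⟨_, (div_mul_cancel₀ _ hI.ne').symm⟩
    rw [ha, hb, mul_comm b, ← mul_assoc, div_mul_cancel₀ _ hI.ne', mul_comm]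
    refine mul_le_mul_of_nonneg_right (not_lt.1 fun hab => ?_) hP.le
    obtain ⟨t, h1, h2⟩ := exists_between hab
    obtain ⟨s, ⟨k1, k2⟩, k3, k4⟩ :=
      (((EL1.ev_lt (a := a) (u := (1 - t) * p) (v := -t * p) (by nlinarith)).and
        (EL1.ev_lt (a := b) (u := -(1 - t)) (v := t) (by linarith))).and
          ((EL1.ev_exp hκ (1 - t)).and (EL1.ev_exp hκ (-t)))).exists
    classical
    set w : E → ℝ := B.piecewise (fun _ => Real.exp ((1 - t) * s)) fun _ => Real.exp (-t * s)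
    have w1 : ∀ x ∈ B, w x = Real.exp ((1 - t) * s) := fun x => B.piecewise_eq_of_mem _ _
    have w0 : ∀ x ∉ B, w x = Real.exp (-t * s) := fun x => B.piecewise_eq_of_notMem _ _
    have wc : ∀ x, w x = Real.exp ((1 - t) * s) ∨ w x = Real.exp (-t * s) := fun x =>
      (em (x ∈ B)).imp (w1 x) (w0 x)
    have wp : ∀ x, 0 < w x := fun x => by rcases wc x with e | e <;> rw [e] <;> positivity
    have wm : Measurable w := measurable_const.piecewise hB measurable_const
    obtain ⟨i1, i2⟩ := EL1.two (g := fun x => (V x * w x) ^ p) hV.int hB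
      (c₁ := Real.exp ((1 - t) * p * s)) (c₀ := Real.exp (-t * p * s))
      (fun x hx => by rw [Real.mul_rpow (hV.nonneg x) (wp x).le, w1 x hx, ← Real.exp_mul,
        mul_right_comm, mul_comm])
      fun x hx => by rw [Real.mul_rpow (hV.nonneg x) (wp x).le, w0 x hx, ← Real.exp_mul,
        mul_right_comm, mul_comm]
    obtain ⟨-, i3⟩ := EL1.two (g := fun x => (w x)⁻¹ * (V x * ‖ψ x‖ ^ 2)) hi hB
      (c₁ := Real.exp (-(1 - t) * s)) (c₀ := Real.exp (t * s))
      (fun x hx => by rw [w1 x hx, ← Real.exp_neg, neg_mul])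
      fun x hx => by rw [w0 x hx, ← Real.exp_neg, neg_mul, neg_neg]
    have k5 := EL1.key hr hV.meas hV.nonneg hθ hψ.fix wm wp
      (K := max (Real.exp ((1 - t) * s))⁻¹ (Real.exp (-t * s))⁻¹)
      (fun x => by rcases wc x with e | e <;> simp only [e, le_max_left, le_max_right])
      (h w (fun x => by rcases wc x with e | e <;> rw [e] <;> linarith)
        ⟨hV.meas.mul wm, fun x => mul_nonneg (hV.nonneg x) (wp x).le, i1, by
          rw [i2, ha]
          nlinarith [mul_le_mul_of_nonneg_left hV.le (Real.exp_pos (-t * p * s)).le,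
            mul_lt_mul_of_pos_right k1 hP]⟩)
    rw [i3, hb, ← hId] at k5
    nlinarith [mul_lt_mul_of_pos_right k2 hI]
  have h2 : ∫ x, (V x ^ p - A ^ p / I * (V x * ‖ψ x‖ ^ 2)) = 0 := by
    refine le_antisymm ?_ (integral_nonneg_of_ae h1)
    rw [integral_sub hV.int (hi.const_mul _), integral_const_mul, div_mul_cancel₀ _ hI.ne']
    exact sub_nonpos.2 hV.le
  exact ⟨_, div_pos hP hI, ((integral_eq_zero_iff_of_nonneg_ae h1 hD).1 h2).mono
    fun x hx => sub_eq_zero.1 hx⟩

end Pool.Agent.MP_e4cac8_mp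

end

section

/-! Existence of the decreasing rearrangement. -/

open Set MeasureTheory Filter Topology
open scoped ENNReal NNReal

namespace Pool.Agent.MP_e4cac8_mp

set_option linter.unusedSectionVars false

namespace Re

/-- Properties of a distribution radius. -/
structure Dist (L : ℝ≥0) (g : ℝ → ℝ) : Prop where
  nn : ∀ t, 0 ≤ g t
  anti : ∀ s t, 0 < s → s ≤ t → g t ≤ g s
  rc : ∀ t r, 0 < t → 0 ≤ r → r < g t → ∃ s, t < s ∧ r < g s
  zero : ∃ M, 0 < M ∧ g M = 0
  lip : ∀ t δ : ℝ, 0 < δ → 0 < t - L * δ → 0 < g t → g t + δ ≤ g (t - L * δ)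

/-- The generalised inverse. -/
noncomputable def inv (g : ℝ → ℝ) (r : ℝ) : ℝ := sInf {t | 0 < t ∧ g t ≤ max r 0}

variable {L : ℝ≥0} {g : ℝ → ℝ}

theorem bb (g : ℝ → ℝ) (r : ℝ) : BddBelow {t | 0 < t ∧ g t ≤ max r 0} :=
  ⟨0, fun _ h => h.1.le⟩

theorem Dist.ne (h : Dist L g) (r : ℝ) : {t | 0 < t ∧ g t ≤ max r 0}.Nonempty := by
  obtain ⟨M, hM, h0⟩ := h.zero
  exact ⟨M, hM, h0.trans_le (le_max_right _ _)⟩

theorem inv_nonneg (g : ℝ → ℝ) (r : ℝ) : 0 ≤ inv g r := Real.sInf_nonneg fun _ h => h.1.le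

theorem Dist.inv_anti (h : Dist L g) : Antitone (inv g) := fun a _ hab =>
  csInf_le_csInf (bb g _) (h.ne a) fun _ ht => ⟨ht.1, ht.2.trans (max_le_max_right 0 hab)⟩

theorem Dist.key (h : Dist L g) {t r : ℝ} (ht : 0 < t) (hr : 0 ≤ r) : t < inv g r ↔ r < g t := by
  constructor
  · intro hlt
    by_contra hc
    exact absurd (csInf_le (bb g r) ⟨ht, (not_lt.mp hc).trans (le_max_left _ _)⟩) (not_le.mpr hlt)
  · intro hlt
    obtain ⟨s, hs, hrs⟩ := h.rc t r ht hr hlt
    refine hs.trans_le (le_csInf (h.ne r) fun u hu => ?_)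
    by_contra hc
    have h1 := h.anti u s hu.1 (not_le.mp hc).le
    have h2 := hu.2
    rw [max_eq_left hr] at h2
    linarith

theorem Dist.step (h : Dist L g) {r δ : ℝ} (hr : 0 ≤ r) (hδ : 0 ≤ δ) :
    inv g r ≤ inv g (r + δ) + L * δ := by
  rcases hδ.eq_or_lt with rfl | hδ
  · simp
  by_contra hc
  obtain ⟨t, h1, h2⟩ := exists_between (not_le.mp hc)
  have h0 := inv_nonneg g (r + δ)
  have hL : 0 ≤ (L : ℝ) * δ := by positivity
  have h3 := (h.key (by linarith) hr).mp h2
  have h4 := h.lip t δ hδ (by linarith) (hr.trans_lt h3)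
  have h5 := (h.key (t := t - L * δ) (r := r + δ) (by linarith) (by linarith)).mpr (by linarith)
  linarith

theorem inv_max (g : ℝ → ℝ) (r : ℝ) : inv g (max r 0) = inv g r := by
  simp only [inv, max_assoc, max_self]

theorem Dist.inv_lip (h : Dist L g) : LipschitzWith L (inv g) := by
  refine LipschitzWith.of_le_add_mul L fun a b => ?_
  have hd : 0 ≤ (L : ℝ) * dist a b := by positivity
  rcases le_total a b with hab | hab
  · have h1 : max a 0 ≤ max b 0 := max_le_max_right 0 hab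
    have h2 := h.step (le_max_right a 0) (sub_nonneg.mpr h1)
    rw [add_sub_cancel, inv_max, inv_max] at h2
    have h3 : max b 0 - max a 0 ≤ dist a b := by
      rw [dist_comm, Real.dist_eq]
      exact (le_abs_self _).trans (abs_max_sub_max_le_abs _ _ _)
    have h4 := mul_le_mul_of_nonneg_left h3 L.2
    exact h2.trans (by simpa using h4)
  · have := h.inv_anti hab
    linarith

theorem inj {φ : ℝ → ℝ} (hφ : Antitone φ) {r s : ℝ} (hs : deriv φ s < 0) (he : φ r = φ s) :
    r = s := by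
  have hd : HasDerivAt φ (deriv φ s) s :=
    (differentiableAt_of_deriv_ne_zero hs.ne).hasDerivAt
  have hev : ∀ᶠ u in 𝓝[≠] s, slope φ s u < 0 :=
    (hasDerivAt_iff_tendsto_slope.mp hd).eventually (gt_mem_nhds hs)
  have hz : ∀ u, φ u = φ s → ¬ slope φ s u < 0 := fun u hu => by simp [slope, hu]
  rcases lt_trichotomy r s with hlt | heq | hlt
  · obtain ⟨u, h1, h2⟩ :=
      ((hev.filter_mono (nhdsLT_le_nhdsNE s)).and (Ioo_mem_nhdsLT hlt)).exists
    exact absurd h1 (hz u (le_antisymm (he ▸ hφ h2.1.le) (hφ h2.2.le)))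
  · exact heq
  · obtain ⟨u, h1, h2⟩ :=
      ((hev.filter_mono (nhdsGT_le_nhdsNE s)).and (Ioo_mem_nhdsGT hlt)).exists
    exact absurd h1 (hz u (le_antisymm (hφ h2.1.le) (he ▸ hφ h2.2.le)))

/-- Radii where the profile decreases strictly. -/
def T (φ : ℝ → ℝ) : Set ℝ := {r | 0 < r ∧ 0 < φ r ∧ deriv φ r < 0}

theorem meas_T {φ : ℝ → ℝ} (hφ : Measurable φ) : MeasurableSet (T φ) :=
  (measurableSet_lt measurable_const measurable_id).inter
    ((measurableSet_lt measurable_const hφ).inter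
      (measurableSet_lt (measurable_deriv φ) measurable_const))

theorem Dist.g_inv (h : Dist L g) {r : ℝ} (hr : r ∈ T (inv g)) : g (inv g r) = r := by
  have h1 : g (inv g r) ≤ r := not_lt.mp fun hc => lt_irrefl _ ((h.key hr.2.1 hr.1.le).mpr hc)
  have h2 : inv g (g (inv g r)) ≤ inv g r :=
    not_lt.mp fun hc => lt_irrefl _ ((h.key hr.2.1 (h.nn _)).mp hc)
  exact inj h.inv_anti hr.2.2 (le_antisymm h2 (h.inv_anti h1))

/-- The slope at a level. -/
noncomputable def sl (g : ℝ → ℝ) : ℝ → ℝ :=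
  {t | g t ∈ T (inv g) ∧ inv g (g t) = t}.indicator fun t => -deriv (inv g) (g t)

theorem Dist.sl_mem (h : Dist L g) {r : ℝ} (hr : r ∈ T (inv g)) :
    sl g (inv g r) = -deriv (inv g) r := by
  have h1 := h.g_inv hr
  rw [sl, indicator_of_mem, h1]
  exact ⟨h1.symm ▸ hr, by rw [h1]⟩

theorem Dist.sl_not (h : Dist L g) {r : ℝ} (hr : r ∉ T (inv g)) : sl g (inv g r) = 0 := by
  rw [sl, indicator_of_notMem]
  rintro ⟨h1, h2⟩
  exact hr (inj h.inv_anti h1.2.2 h2.symm ▸ h1)

theorem Dist.sl_der (h : Dist L g) {r : ℝ} (hr : 0 < r) : sl g (inv g r) = -deriv (inv g) r := by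
  by_cases hT : r ∈ T (inv g)
  · exact h.sl_mem hT
  rw [h.sl_not hT]
  rcases (h.inv_anti.deriv_nonpos (x := r)).eq_or_lt with h1 | h1
  · rw [h1, neg_zero]
  · have h2 : inv g r ≤ 0 := not_lt.mp fun hc => hT ⟨hr, hc, h1⟩
    have h3 : IsLocalMin (inv g) r :=
      Eventually.of_forall fun u => h2.trans (inv_nonneg g u)
    rw [h3.deriv_eq_zero, neg_zero]

theorem Dist.sl_bd (h : Dist L g) (t : ℝ) : 0 ≤ sl g t ∧ sl g t ≤ L := by
  by_cases ht : t ∈ {t | g t ∈ T (inv g) ∧ inv g (g t) = t}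
  · rw [sl, indicator_of_mem ht]
    exact ⟨neg_nonneg.mpr h.inv_anti.deriv_nonpos,
      (neg_le_abs _).trans (norm_deriv_le_of_lipschitz h.inv_lip)⟩
  · rw [sl, indicator_of_notMem ht]
    exact ⟨le_rfl, L.2⟩

theorem Dist.sl_meas (h : Dist L g) (hg : Measurable g) : Measurable (sl g) := by
  have hφ := h.inv_lip.continuous.measurable
  exact ((measurable_deriv _).comp hg).neg.indicator
    ((hg (meas_T hφ)).inter (measurableSet_eq_fun (hφ.comp hg) measurable_id))

theorem ext_pos {μ ν : Measure ℝ} (h : ∀ t, 0 < t → μ (Ioi t) = ν (Ioi t))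
    (hf : ∀ t, 0 < t → μ (Ioi t) ≠ ∞) : μ.restrict (Ioi 0) = ν.restrict (Ioi 0) := by
  have hU : Ioi (0 : ℝ) = ⋃ k : ℕ, Ioi (1 / ((k : ℝ) + 1)) := by
    ext t
    simp only [mem_Ioi, mem_iUnion]
    exact ⟨fun ht => exists_nat_one_div_lt ht, fun ⟨k, hk⟩ => Nat.one_div_pos_of_nat.trans hk⟩
  rw [hU, Measure.restrict_iUnion_congr]
  intro k
  have hk : (0 : ℝ) < 1 / ((k : ℝ) + 1) := Nat.one_div_pos_of_nat
  have : IsFiniteMeasure (μ.restrict (Ioi (1 / ((k : ℝ) + 1)))) :=
    ⟨by rw [Measure.restrict_apply_univ]; exact (hf _ hk).lt_top⟩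
  refine ext_of_generate_finite (range Ioi)
    (BorelSpace.measurable_eq.trans (borel_eq_generateFrom_Ioi ℝ)) isPiSystem_Ioi ?_ ?_
  · rintro _ ⟨a, rfl⟩
    rw [Measure.restrict_apply measurableSet_Ioi, Measure.restrict_apply measurableSet_Ioi,
      Ioi_inter_Ioi]
    exact h _ (hk.trans_le le_sup_right)
  · rw [Measure.restrict_apply_univ, Measure.restrict_apply_univ]
    exact h _ hk

theorem shell {n : ℕ} (hn : 1 ≤ n) {c R : ℝ} (hc : 0 ≤ c) (hR : 0 ≤ R) :
    ∫⁻ r in Ioo 0 R, ENNReal.ofReal (n * c * r ^ (n - 1)) = ENNReal.ofReal (c * R ^ n) := by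
  have hcont : Continuous fun r : ℝ => n * c * r ^ (n - 1) := by fun_prop
  rw [← ofReal_integral_eq_lintegral_ofReal
    ((hcont.integrableOn_Icc (a := 0) (b := R)).mono_set Ioo_subset_Icc_self)
    ((ae_restrict_mem measurableSet_Ioo).mono fun r hr => by
      have := hr.1.le
      positivity),
    ← integral_Ioc_eq_integral_Ioo, ← intervalIntegral.integral_of_le hR,
    intervalIntegral.integral_const_mul, integral_pow]
  obtain ⟨m, rfl⟩ := Nat.exists_eq_add_of_le' hn
  congr 1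
  simp only [Nat.add_sub_cancel]
  push_cast
  field_simp
  ring

variable {E : Type} [NormedAddCommGroup E] [InnerProductSpace ℝ E] [FiniteDimensional ℝ E]
  [MeasurableSpace E] [BorelSpace E] {ρ : E → ℝ}

theorem fin_lev (h : Lev L ρ) {t : ℝ} (ht : 0 < t) : volume {x | t < ρ x} ≠ ∞ :=
  ((h.bdd t ht).subset (s := {x | t < ρ x}) fun x hx =>
    (le_of_lt hx : t ≤ ρ x)).measure_lt_top.ne

theorem rad_nn (ρ : E → ℝ) (t : ℝ) : 0 ≤ rad ρ t :=
  Real.rpow_nonneg (div_nonneg measureReal_nonneg om_pos.le) _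

theorem vol_lev (hn : 2 ≤ Module.finrank ℝ E) (h : Lev L ρ) {t : ℝ} (ht : 0 < t) :
    ENNReal.ofReal (om E * rad ρ t ^ Module.finrank ℝ E) = volume {x | t < ρ x} := by
  have ho := om_pos (E := E)
  rw [rad, Real.rpow_inv_natCast_pow (div_nonneg measureReal_nonneg ho.le) (by omega),
    mul_div_cancel₀ _ ho.ne', ofReal_measureReal (fin_lev h ht)]

theorem le_rad (hn : 2 ≤ Module.finrank ℝ E) (h : Lev L ρ) {t r : ℝ} (ht : 0 < t) (hr : 0 ≤ r) :
    r ≤ rad ρ t ↔ ENNReal.ofReal (om E * r ^ Module.finrank ℝ E) ≤ volume {x | t < ρ x} := by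
  have ho := om_pos (E := E)
  have h0 := rad_nn ρ t
  rw [← vol_lev hn h ht, ENNReal.ofReal_le_ofReal_iff (by positivity), mul_le_mul_iff_right₀ ho,
    pow_le_pow_iff_left₀ hr h0 (by omega)]

theorem rad_le (hn : 2 ≤ Module.finrank ℝ E) (h : Lev L ρ) {t r : ℝ} (ht : 0 < t) (hr : 0 ≤ r) :
    rad ρ t ≤ r ↔ volume {x | t < ρ x} ≤ ENNReal.ofReal (om E * r ^ Module.finrank ℝ E) := by
  have ho := om_pos (E := E)
  have h0 := rad_nn ρ t
  rw [← vol_lev hn h ht, ENNReal.ofReal_le_ofReal_iff (by positivity), mul_le_mul_iff_right₀ ho,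
    pow_le_pow_iff_left₀ h0 hr (by omega)]

theorem rad_meas (ρ : E → ℝ) : Measurable (rad ρ) := by
  have h1 : Antitone fun t : ℝ => (volume : Measure E) {x | t < ρ x} :=
    fun _ _ hst => measure_mono fun _ hx => lt_of_le_of_lt hst hx
  exact (h1.measurable.ennreal_toReal.div_const _).pow_const _

theorem dist_rad (hn : 2 ≤ Module.finrank ℝ E) (hB : StBM E) (h : Lev L ρ) :
    Dist L (rad ρ) where
  nn := rad_nn ρ
  anti s t hs hst := by
    rw [le_rad hn h hs (rad_nn ρ t), vol_lev hn h (hs.trans_le hst)]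
    exact measure_mono fun _ hx => lt_of_le_of_lt hst hx
  rc t r ht hr hlt := by
    have h1 := not_le.mp (mt (rad_le hn h ht hr).mpr (not_le.mpr hlt))
    have hU : {x | t < ρ x} = ⋃ k : ℕ, {x | t + 1 / ((k : ℝ) + 1) < ρ x} := by
      ext x
      simp only [mem_ofPred_eq, mem_iUnion]
      constructor
      · intro hx
        obtain ⟨k, hk⟩ := exists_nat_one_div_lt (sub_pos.mpr hx)
        exact ⟨k, by linarith⟩
      · rintro ⟨k, hk⟩
        have : (0 : ℝ) < 1 / ((k : ℝ) + 1) := Nat.one_div_pos_of_nat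
        linarith
    have hm : Monotone fun k : ℕ => {x | t + 1 / ((k : ℝ) + 1) < ρ x} := fun a b hab x hx => by
      have := Nat.one_div_le_one_div (α := ℝ) hab
      simp only [mem_ofPred_eq] at hx ⊢
      linarith
    rw [hU, hm.measure_iUnion, lt_iSup_iff] at h1
    obtain ⟨k, hk⟩ := h1
    have hp : (0 : ℝ) < 1 / ((k : ℝ) + 1) := Nat.one_div_pos_of_nat
    exact ⟨_, lt_add_of_pos_right t hp,
      not_le.mp (mt (rad_le hn h (by linarith) hr).mp (not_le.mpr hk))⟩
  zero := by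
    have hc : IsCompact {x | 1 ≤ ρ x} := Metric.isCompact_of_isClosed_isBounded
      (isClosed_le continuous_const h.lip.continuous) (h.bdd 1 one_pos)
    obtain ⟨M, hM⟩ := hc.bddAbove_image h.lip.continuous.continuousOn
    have hp : 0 < max M 1 := one_pos.trans_le (le_max_right _ _)
    refine ⟨max M 1, hp, le_antisymm ?_ (rad_nn _ _)⟩
    have he : {x | max M 1 < ρ x} = ∅ := eq_empty_of_forall_notMem fun x hx => by
      have h1 : M < ρ x ∧ 1 < ρ x := max_lt_iff.mp hx
      exact absurd (hM ⟨x, h1.2.le, rfl⟩) (not_le.mpr h1.1)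
    rw [rad_le hn h hp le_rfl, he, measure_empty]
    exact zero_le
  lip t δ hδ ht h0 := by
    have hL : 0 ≤ (L : ℝ) * δ := by positivity
    rw [le_rad hn h ht (by linarith)]
    refine (hB {x | t < ρ x} _ δ (isOpen_lt continuous_const h.lip.continuous) h0 hδ
      (vol_lev hn h (by linarith)).le).trans (measure_mono fun x hx => ?_)
    obtain ⟨z, hz, hd⟩ := Metric.mem_thickening_iff.mp hx
    have h1 := h.lip.le_add_mul z x
    have h2 := mul_le_mul_of_nonneg_left ((dist_comm z x).trans_le hd.le) L.2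
    simp only [mem_ofPred_eq, NNReal.val_eq_coe] at hz h2 ⊢
    linarith

theorem eqm (hn : 2 ≤ Module.finrank ℝ E) (h : Lev L ρ) (hD : Dist L (rad ρ)) (F : ℝ → ℝ≥0∞)
    (hF : Measurable F) : ∫⁻ x in {x | 0 < ρ x}, F (ρ x) =
      ∫⁻ r in {r | 0 < r ∧ 0 < inv (rad ρ) r},
        ENNReal.ofReal (Module.finrank ℝ E * om E * r ^ (Module.finrank ℝ E - 1)) *
          F (inv (rad ρ) r) := by
  have hρ := h.lip.continuous.measurable
  have hφ := hD.inv_lip.continuous.measurable
  have hw : Measurable fun r : ℝ =>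
      ENNReal.ofReal (Module.finrank ℝ E * om E * r ^ (Module.finrank ℝ E - 1)) := by fun_prop
  have key := ext_pos (μ := Measure.map ρ volume) (ν := Measure.map (inv (rad ρ))
    ((volume.restrict (Ioi 0)).withDensity fun r : ℝ =>
      ENNReal.ofReal (Module.finrank ℝ E * om E * r ^ (Module.finrank ℝ E - 1))))
    (fun t ht => by
      have hs : inv (rad ρ) ⁻¹' Ioi t ∩ Ioi 0 = Ioo 0 (rad ρ t) := by
        ext r
        exact ⟨fun hr => ⟨hr.2, (hD.key ht (le_of_lt hr.2)).mp hr.1⟩,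
          fun hr => ⟨(hD.key ht hr.1.le).mpr hr.2, hr.1⟩⟩
      rw [Measure.map_apply hρ measurableSet_Ioi, Measure.map_apply hφ measurableSet_Ioi,
        withDensity_apply _ (hφ measurableSet_Ioi),
        Measure.restrict_restrict (hφ measurableSet_Ioi), hs,
        shell (by omega) om_pos.le (rad_nn ρ t), vol_lev hn h ht]
      rfl)
    (fun t ht => by
      rw [Measure.map_apply hρ measurableSet_Ioi]
      exact fin_lev h ht)
  have h1 := congrArg (fun μ => ∫⁻ t, F t ∂μ) key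
  rw [setLIntegral_map measurableSet_Ioi hF hρ, setLIntegral_map measurableSet_Ioi hF hφ,
    setLIntegral_withDensity_eq_setLIntegral_mul _ hw (g := fun r => F (inv (rad ρ) r))
      (hF.comp hφ) (hφ measurableSet_Ioi),
    Measure.restrict_restrict (hφ measurableSet_Ioi), inter_comm] at h1
  exact h1

end Re

variable (E : Type) [NormedAddCommGroup E] [InnerProductSpace ℝ E] [FiniteDimensional ℝ E]
  [MeasurableSpace E] [BorelSpace E]

open Re in
theorem stRe (hn : 2 ≤ Module.finrank ℝ E) (hB : StBM E) (hI : StIso E) : StRe E := by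
  intro L ρ h
  have hD := dist_rad hn hB h
  have hy := hD.sl_meas (rad_meas ρ)
  have hφ := hD.inv_lip.continuous.measurable
  refine ⟨inv (rad ρ), sl (rad ρ), hD.inv_anti, hD.inv_lip, inv_nonneg _, hy, hD.sl_bd,
    eqm hn h hD, fun r hr _ => hD.sl_der hr, fun C hC => ?_⟩
  refine le_trans ?_ (hI L ρ h C hC)
  have hsub : inv (rad ρ) '' T (inv (rad ρ)) ⊆ Ioi 0 := by
    rintro _ ⟨r, hr, rfl⟩
    exact hr.2.1
  refine le_trans ?_ (lintegral_mono_set hsub)
  rw [eqm hn h hD (fun t => C t * ENNReal.ofReal (sl (rad ρ) t)) (hC.mul hy.ennreal_ofReal),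
    lintegral_image_eq_lintegral_abs_deriv_mul (meas_T hφ) (f' := deriv (inv (rad ρ)))
      (fun r hr => (differentiableAt_of_deriv_ne_zero hr.2.2.ne).hasDerivAt.hasDerivWithinAt)
      (fun r _ s hs he => inj hD.inv_anti hs.2.2 he), ← lintegral_indicator (meas_T hφ)]
  refine le_trans (lintegral_mono fun r => ?_) (lintegral_mono' Measure.restrict_le_self le_rfl)
  by_cases hr : r ∈ T (inv (rad ρ))
  · rw [indicator_of_mem hr, hD.sl_mem hr, hD.g_inv hr, abs_of_neg hr.2.2]
    exact le_of_eq (by ring)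
  · simp [hD.sl_not hr]

end Pool.Agent.MP_e4cac8_mp

end
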