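import Pool.Agent.Mg.Fe4cac8.G43e91a

set_option linter.all false

section

/-! Pointwise algebra for the upper spinor, and its modulus as a level function. -/

open Set MeasureTheory Filter Topology
open scoped ENNReal NNReal SchwartzMap
open Pool.Agent.MP_0b7119_mp.G

namespace Pool.Agent.MP_e4cac8_mp

set_option linter.unusedSectionVars false

variable {E S : Type} [NormedAddCommGroup E] [InnerProductSpace ℝ E] [FiniteDimensional ℝ E]
  [MeasurableSpace E] [BorelSpace E] [NormedAddCommGroup S] [InnerProductSpace ℂ S]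
  [CompleteSpace S] [FiniteDimensional ℂ S] {d : ℕ}
  {e : OrthonormalBasis (Fin d) ℝ E} {α : Fin d → S →L[ℂ] S} {β : S →L[ℂ] S} {m : ℝ}

namespace Alg

theorem norm_al (h : IsDiracRep α β) (e : OrthonormalBasis (Fin d) ℝ E) (j : Fin d) (ξ : S) :
    ‖α j ξ‖ = ‖ξ‖ := by
  rw [← cl_basis e α j, norm_cl_apply h e, e.orthonormal.1 j, one_mul]

theorem cs (h : IsDiracRep α β) (e : OrthonormalBasis (Fin d) ℝ E) (η : Fin d → S) :
    ‖∑ j, α j (η j)‖ ^ 2 ≤ d * ∑ j, ‖η j‖ ^ 2 := by
  have h1 : ‖∑ j, α j (η j)‖ ≤ ∑ j, ‖η j‖ :=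
    (norm_sum_le _ _).trans (Finset.sum_congr rfl fun j _ => norm_al h e j _).le
  have h2 := sq_sum_le_card_mul_sum_sq (s := Finset.univ) (f := fun j => ‖η j‖)
  rw [Finset.card_univ, Fintype.card_fin] at h2
  exact (pow_le_pow_left₀ (norm_nonneg _) h1 2).trans h2

theorem dnorm {u : E → S} {x : E} (hu : DifferentiableAt ℝ u x) (h0 : u x ≠ 0) (v : E) :
    fderiv ℝ (fun y => ‖u y‖) x v * ‖u x‖ = (inner ℂ (u x) (fderiv ℝ u x v)).re := by
  have h1 : DifferentiableAt ℝ (fun y => ‖u y‖) x := hu.norm ℂ h0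
  have h2 : (fun y => ‖u y‖ * ‖u y‖) = Complex.reCLM ∘ fun y => inner ℂ (u y) (u y) := by
    ext y
    exact (inner_self_eq_norm_mul_norm (𝕜 := ℂ) (u y)).symm
  have h3 : fderiv ℝ (fun y => ‖u y‖ * ‖u y‖) x v =
      2 * (fderiv ℝ (fun y => ‖u y‖) x v * ‖u x‖) := by
    rw [fderiv_fun_mul h1 h1]
    simp only [add_apply, smul_apply, smul_eq_mul]
    ring
  rw [h2, fderiv_comp x Complex.reCLM.differentiableAt (hu.inner ℂ hu), ContinuousLinearMap.fderiv,
    ContinuousLinearMap.comp_apply, fderiv_inner_apply ℂ hu hu v, Complex.reCLM_apply,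
    Complex.add_re] at h3
  have h4 : (inner ℂ (fderiv ℝ u x v) (u x)).re = (inner ℂ (u x) (fderiv ℝ u x v)).re :=
    inner_re_symm (𝕜 := ℂ) _ _
  linarith

theorem gf_sq (e : OrthonormalBasis (Fin d) ℝ E) (u : E → S) (x : E) :
    gf u x ^ 2 = ∑ j, fderiv ℝ (fun y => ‖u y‖) x (e j) ^ 2 :=
  e.norm_dual _

theorem norm_Nv (h : IsDiracRep α β) (e : OrthonormalBasis (Fin d) ℝ E) {u : E → S} {x : E}
    (h0 : u x ≠ 0) : ‖Nv e α u x‖ = gf u x := by
  have h1 : Nv e α u x = cl e α (‖u x‖⁻¹ •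
      (InnerProductSpace.toDual ℝ E).symm (fderiv ℝ (fun y => ‖u y‖) x)) (u x) := by
    unfold Nv cl
    rw [sum_apply]
    refine Finset.sum_congr rfl fun j _ => ?_
    rw [smul_apply, real_inner_smul_right, real_inner_comm,
      InnerProductSpace.toDual_symm_apply, div_eq_inv_mul]
  have h2 : 0 < ‖u x‖ := norm_pos_iff.mpr h0
  rw [h1, norm_cl_apply h, norm_smul, LinearIsometryEquiv.norm_map, norm_inv, norm_norm, gf]
  field_simp

theorem quad (h : IsDiracRep α β) (e : OrthonormalBasis (Fin d) ℝ E) {u : E → S} {x : E}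
    (h0 : u x ≠ 0) (t : ℝ) : ‖(t : ℂ) • Nv e α u x + (Zf e α u x - Nv e α u x)‖ ^ 2 =
      t ^ 2 * gf u x ^ 2 + 2 * (t * Pf e α u x) + nf e α u x := by
  rw [@norm_add_sq ℂ, norm_smul, norm_Nv h e h0, inner_smul_left, Complex.conj_ofReal,
    Complex.norm_real, mul_pow, Real.norm_eq_abs, sq_abs]
  simp only [RCLike.re_to_complex, Complex.re_ofReal_mul]
  rfl

theorem key (h : IsDiracRep α β) (e : OrthonormalBasis (Fin d) ℝ E) {u : E → S} {x : E}
    (hu : DifferentiableAt ℝ u x) (h0 : u x ≠ 0) (t : ℝ) :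
    t ^ 2 * gf u x ^ 2 + 2 * (t * Pf e α u x) + nf e α u x ≤
      d * (qf e u x + t ^ 2 * gf u x ^ 2) := by
  have h2 : 0 < ‖u x‖ := norm_pos_iff.mpr h0
  have h1 : (t : ℂ) • Nv e α u x + (Zf e α u x - Nv e α u x) = ∑ j, α j (fderiv ℝ u x (e j) -
      (((1 - t) * (fderiv ℝ (fun y => ‖u y‖) x (e j) / ‖u x‖) : ℝ) : ℂ) • u x) := by
    unfold Zf Nv
    rw [Finset.smul_sum, ← Finset.sum_sub_distrib, ← Finset.sum_add_distrib]
    refine Finset.sum_congr rfl fun j _ => ?_
    rw [map_sub, map_smul]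
    push_cast
    module
  rw [← quad h e h0, h1]
  refine (cs h e _).trans (mul_le_mul_of_nonneg_left (le_of_eq ?_) (Nat.cast_nonneg _))
  rw [qf, G2, gf_sq e, Finset.mul_sum, ← Finset.sum_sub_distrib, ← Finset.sum_add_distrib]
  refine Finset.sum_congr rfl fun j _ => ?_
  have h4 : (inner ℂ (fderiv ℝ u x (e j)) (u x)).re = (inner ℂ (u x) (fderiv ℝ u x (e j))).re :=
    inner_re_symm (𝕜 := ℂ) _ _
  rw [@norm_sub_sq ℂ, inner_smul_right, norm_smul, Complex.norm_real, mul_pow, Real.norm_eq_abs,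
    sq_abs]
  simp only [RCLike.re_to_complex, Complex.re_ofReal_mul]
  rw [h4, ← dnorm hu h0]
  field_simp
  ring

theorem bdd {u : E → S} {L : ℝ≥0} (hL : LipschitzWith L u) (h2 : MemLp u 2 volume) {t : ℝ}
    (ht : 0 < t) : Bornology.IsBounded {x | t ≤ ‖u x‖} := by
  set A : Set E := {x | t / 2 ≤ ‖u x‖} with hA
  have hm : MeasurableSet A := (isClosed_le continuous_const hL.continuous.norm).measurableSet
  have hf : volume A < ∞ :=
    h2.meas_ge_lt_top two_ne_zero ENNReal.ofNat_ne_top (ε := ⟨t / 2, by positivity⟩)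
      (fun h => by
        have : t / 2 = 0 := congrArg NNReal.toReal h
        linarith)
  have hT := tendsto_measure_iInter_atTop (μ := volume)
    (s := fun n : ℕ => A \ Metric.ball (0 : E) n)
    (fun n => (hm.diff measurableSet_ball).nullMeasurableSet)
    (fun a b hab => sdiff_subset_sdiff_right (Metric.ball_subset_ball (Nat.cast_le.mpr hab)))
    ⟨0, ((measure_mono sdiff_subset).trans_lt hf).ne⟩
  have h0 : ⋂ n : ℕ, A \ Metric.ball (0 : E) n = ∅ := by
    rw [← sdiff_iUnion, Metric.iUnion_ball_nat, sdiff_univ]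
  rw [h0, measure_empty] at hT
  set δ : ℝ := t / (2 * (L + 1)) with hδ
  have hδ0 : 0 < δ := by positivity
  obtain ⟨n, hn⟩ := (hT.eventually (gt_mem_nhds
    (Metric.measure_ball_pos (volume : Measure E) 0 hδ0))).exists
  refine (Metric.isBounded_ball (x := (0 : E)) (r := n + δ)).subset fun x hx => ?_
  by_contra hc
  rw [mem_ball_zero_iff, not_lt] at hc
  refine hn.not_ge ?_
  rw [← Measure.addHaar_ball_center volume x]
  refine measure_mono fun y hy => ⟨?_, ?_⟩
  · have h3 := hL.dist_le_mul y x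
    have h4 : ‖u x‖ - ‖u y‖ ≤ dist (u y) (u x) := by
      rw [dist_comm, dist_eq_norm]
      exact norm_sub_norm_le _ _
    have h5 : (L : ℝ) * dist y x ≤ (L + 1) * δ :=
      mul_le_mul (by linarith) (Metric.mem_ball.mp hy).le dist_nonneg (by positivity)
    have h6 : ((L : ℝ) + 1) * δ = t / 2 := by
      rw [hδ]
      field_simp
    have h7 : t ≤ ‖u x‖ := hx
    change t / 2 ≤ ‖u y‖
    linarith
  · rw [mem_ball_zero_iff, not_lt]
    have h3 := norm_sub_norm_le x y
    rw [Metric.mem_ball, dist_comm, dist_eq_norm] at hy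
    linarith

end Alg

open Alg in
theorem stAlg (hc : Ctx α β m) : StAlg e α := by
  intro u hu
  have hd : Differentiable ℝ u := hu.c1.differentiable one_ne_zero
  have hD : ∀ j, Continuous fun x => fderiv ℝ u x (e j) := fun j =>
    (hu.c1.continuous_fderiv one_ne_zero).clm_apply continuous_const
  have hZ : Continuous (Zf e α u) :=
    continuous_finsetSum _ fun j _ => (α j).continuous.comp (hD j)
  have hG : Continuous (G2 e u) := continuous_finsetSum _ fun j _ => (hD j).norm.pow 2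
  have hg : Measurable (gf u) := (measurable_fderiv ℝ _).norm
  have hN : StronglyMeasurable (Nv e α u) :=
    Finset.stronglyMeasurable_fun_sum _ fun j _ =>
      (Complex.measurable_ofReal.comp ((measurable_fderiv_apply_const ℝ _ (e j)).div
        hd.continuous.norm.measurable)).stronglyMeasurable.smul
        ((α j).continuous.comp hd.continuous).stronglyMeasurable
  have hP := hZ.stronglyMeasurable.sub hN
  refine ⟨⟨hg, Complex.measurable_re.comp (hN.inner hP).measurable,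
    hP.norm.measurable.pow_const 2, hG.measurable.sub (hg.pow_const 2), hZ, hG⟩,
    fun x => cs hc.rep e _, fun x h0 => ⟨?_, ?_, ?_, fun j => dnorm (hd x) h0 _, gf_sq e u x⟩, ?_⟩
  · have := quad hc.rep e h0 1
    simpa using this
  · rw [← norm_Nv hc.rep e h0, nf, ← mul_pow, sq_le_sq]
    exact ((Complex.abs_re_le_norm _).trans (norm_inner_le_norm _ _)).trans (le_abs_self _)
  · simpa using key hc.rep e (hd x) h0 0
  · obtain ⟨L, hL⟩ := hu.lip
    refine ⟨1 * L, lipschitzWith_one_norm.comp hL, fun x => norm_nonneg _,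
      fun t ht => bdd hL hu.l2 ht, fun x hx => ?_⟩
    exact (hu.c1.contDiffAt.norm ℂ (norm_pos_iff.mp hx)).contDiffWithinAt

theorem stAlg2b (hc : Ctx α β m) : StAlg2 e α := by
  intro u hu x h0
  have := discrim_le_zero (a := ((d : ℝ) - 1) * gf u x ^ 2) (b := -2 * Pf e α u x)
    (c := d * qf e u x - nf e α u x) fun t => by
      have := Alg.key hc.rep e (hu.c1.differentiable one_ne_zero x) h0 t
      linarith
  rw [discrim] at this
  linarith

end Pool.Agent.MP_e4cac8_mp

end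

section

/-! Regularity of bounded solutions, integration by parts and the Caccioppoli inequality. -/

open Set MeasureTheory Filter Topology
open scoped ENNReal NNReal SchwartzMap ContDiff
open Pool.Agent.MP_0b7119_mp.G

namespace Pool.Agent.MP_e4cac8_mp.Str

set_option linter.unusedSectionVars false

variable {E S : Type} [NormedAddCommGroup E] [InnerProductSpace ℝ E] [FiniteDimensional ℝ E]
  [MeasurableSpace E] [BorelSpace E] [NormedAddCommGroup S] [InnerProductSpace ℂ S]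
  [CompleteSpace S] [FiniteDimensional ℂ S] {d : ℕ}
  {e : OrthonormalBasis (Fin d) ℝ E} {α : Fin d → S →L[ℂ] S} {β : S →L[ℂ] S} {m : ℝ}

/-- The nonlinearity. -/
noncomputable def Nl (c γ : ℝ) (ξ : S) : S := (((c * ‖ξ‖ ^ 2) ^ γ : ℝ) : ℂ) • ξ

theorem Nl_lip {c γ : ℝ} (hc : 0 ≤ c) (hγ : 0 ≤ γ) (K : ℝ) : ∃ C, 0 ≤ C ∧ ∀ ξ ζ : S,
    ‖ξ‖ ≤ K → ‖ζ‖ ≤ K → ‖Nl c γ ξ - Nl c γ ζ‖ ≤ C * ‖ξ - ζ‖ := by
  obtain ⟨L, hL⟩ := (Real.contDiff_rpow_const_of_le (p := 2 * γ + 1) (n := 1)
    (by push_cast; linarith)).contDiffOn.exists_lipschitzOnWith one_ne_zero (convex_Icc 0 K)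
    isCompact_Icc
  have hg : ∀ s : ℝ, 0 ≤ s → (c * s ^ 2) ^ γ * s = c ^ γ * s ^ (2 * γ + 1) := fun s hs => by
    rw [Real.mul_rpow hc (sq_nonneg _), Real.rpow_add_one' hs (by positivity), Real.rpow_mul hs,
      Real.rpow_two, mul_assoc]
  have key : ∀ ξ ζ : S, ‖ξ‖ ≤ K → ‖ζ‖ ≤ ‖ξ‖ →
      ‖Nl c γ ξ - Nl c γ ζ‖ ≤ ((c * K ^ 2) ^ γ + c ^ γ * L) * ‖ξ - ζ‖ := by
    intro ξ ζ h1 h2
    have e1 : Nl c γ ξ - Nl c γ ζ = (((c * ‖ξ‖ ^ 2) ^ γ : ℝ) : ℂ) • (ξ - ζ) +
        (((c * ‖ξ‖ ^ 2) ^ γ - (c * ‖ζ‖ ^ 2) ^ γ : ℝ) : ℂ) • ζ := by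
      unfold Nl
      push_cast
      module
    have a1 : (c * ‖ζ‖ ^ 2) ^ γ ≤ (c * ‖ξ‖ ^ 2) ^ γ := by gcongr
    have a2 : (c * ‖ξ‖ ^ 2) ^ γ ≤ (c * K ^ 2) ^ γ := by gcongr
    have a3 := hL.dist_le_mul _ ⟨norm_nonneg ξ, h1⟩ _ ⟨norm_nonneg ζ, h2.trans h1⟩
    rw [Real.dist_eq, Real.dist_eq] at a3
    have a4 : ‖ξ‖ ^ (2 * γ + 1) - ‖ζ‖ ^ (2 * γ + 1) ≤ L * ‖ξ - ζ‖ :=
      (le_abs_self _).trans (a3.trans
        (mul_le_mul_of_nonneg_left (abs_norm_sub_norm_le _ _) L.coe_nonneg))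
    have a5 := mul_le_mul_of_nonneg_left a4 (Real.rpow_nonneg hc γ)
    have a6 : 0 ≤ (c * ‖ξ‖ ^ 2) ^ γ := by positivity
    have a7 := mul_le_mul_of_nonneg_left h2 a6
    have a8 := mul_le_mul_of_nonneg_right a2 (norm_nonneg (ξ - ζ))
    rw [e1]
    refine (norm_add_le _ _).trans ?_
    rw [norm_smul, norm_smul, Complex.norm_real, Complex.norm_real, Real.norm_of_nonneg a6,
      Real.norm_of_nonneg (sub_nonneg.mpr a1)]
    have b1 := hg _ (norm_nonneg ξ)
    have b2 := hg _ (norm_nonneg ζ)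
    linarith
  refine ⟨(c * K ^ 2) ^ γ + c ^ γ * L, by positivity, fun ξ ζ h1 h2 => ?_⟩
  rcases le_total ‖ζ‖ ‖ξ‖ with h | h
  · exact key ξ ζ h1 h
  · rw [norm_sub_rev, norm_sub_rev ξ]
    exact key ζ ξ h2 h

theorem reg (h1 : StReg1 e α β m) (h2 : StReg2 e α β m) {l p M c : ℝ} (hl : l ∈ Ioo (-m) m)
    {V : E → ℝ} {ψ : E → S} (hp : 2 ≤ p) (hc : 0 < c) (hV : Measurable V)
    (hM : ∀ x, 0 ≤ V x ∧ V x ≤ M) (h : FixB (rk e α β m l) V ψ)
    (hE : ∀ᵐ x, V x ^ (p - 1) = c * ‖ψ x‖ ^ 2) :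
    ContDiff ℝ 1 ψ ∧ ∃ L, ∀ x, ‖fderiv ℝ ψ x‖ ≤ L := by
  obtain ⟨K, hK⟩ := h.bdd
  have e1 : ψ = JK.cv (rk e α β m l) fun y => (V y : ℂ) • ψ y := by
    rw [← Rop_eq_cv]
    exact funext h.eq
  obtain ⟨C, hC⟩ := h1 l hl (fun y => (V y : ℂ) • ψ y) (M * K)
    ((Complex.measurable_ofReal.comp hV).stronglyMeasurable.smul h.meas) fun x => by
      rw [norm_smul, Complex.norm_real, Real.norm_of_nonneg (hM x).1]
      exact mul_le_mul (hM x).2 (hK x) (norm_nonneg _) ((hM x).1.trans (hM x).2)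
  rw [← e1] at hC
  have hp1 : 0 < p - 1 := by linarith
  obtain ⟨C₁, h0, hN⟩ := Nl_lip (S := S) hc.le (inv_pos.mpr hp1).le K
  have e2 : ψ = JK.cv (rk e α β m l) fun y => Nl c (p - 1)⁻¹ (ψ y) := by
    refine e1.trans (funext fun x => integral_congr_ae ?_)
    filter_upwards [hE] with y hy
    rw [Nl, ← hy, Real.rpow_rpow_inv (hM y).1 hp1.ne']
  have := h2 l hl (fun y => Nl c (p - 1)⁻¹ (ψ y)) (max (C₁ * K) (C₁ * C)) (fun x => by
    have := hN (ψ x) 0 (hK x) (norm_zero.le.trans ((norm_nonneg _).trans (hK x)))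
    rw [show Nl c (p - 1)⁻¹ (0 : S) = 0 from smul_zero _, sub_zero, sub_zero] at this
    exact this.trans ((mul_le_mul_of_nonneg_left (hK x) h0).trans (le_max_left _ _))) fun x y => by
    refine (hN _ _ (hK x) (hK y)).trans ((mul_le_mul_of_nonneg_left (hC x y) h0).trans ?_)
    rw [← mul_assoc]
    exact mul_le_mul_of_nonneg_right (le_max_right _ _) (Real.sqrt_nonneg _)
  rwa [← e2] at this

theorem fd_clm (T : S →L[ℂ] S) {g : E → S} {x : E} (hg : DifferentiableAt ℝ g x) (v : E) :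
    fderiv ℝ (fun y => T (g y)) x v = T (fderiv ℝ g x v) :=
  DFunLike.congr_fun ((T.restrictScalars ℝ).hasFDerivAt.comp x hg.hasFDerivAt).fderiv v

theorem cd_clm (T : S →L[ℂ] S) {g : E → S} (hg : ContDiff ℝ 1 g) : ContDiff ℝ 1 fun y => T (g y) :=
  (T.restrictScalars ℝ).contDiff.comp hg

theorem cont_d {F : Type} [NormedAddCommGroup F] [NormedSpace ℝ F] {g : E → F}
    (hg : ContDiff ℝ 1 g) (v : E) : Continuous fun x => fderiv ℝ g x v :=
  (hg.continuous_fderiv one_ne_zero).clm_apply continuous_const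

theorem cont_Z {g : E → S} (hg : ContDiff ℝ 1 g) : Continuous (Zf e α g) :=
  continuous_finsetSum _ fun j _ => (α j).continuous.comp (cont_d hg _)

theorem int_inner (h : IsDiracRep α β) (e : OrthonormalBasis (Fin d) ℝ E) (j : Fin d)
    {f g : E → S} (hf : Continuous f) (hg : Continuous g)
    (h0 : Integrable (fun x => ‖f x‖ * ‖g x‖) volume) :
    Integrable (fun x => inner ℂ (f x) (α j (g x))) volume :=
  h0.mono' (hf.inner ((α j).continuous.comp hg)).aestronglyMeasurable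
    (Eventually.of_forall fun x => (norm_inner_le_norm _ _).trans (by rw [Alg.norm_al h e]))

theorem inner_al (h : IsDiracRep α β) (j : Fin d) (x y : S) :
    inner ℂ (α j x) y = inner ℂ x (α j y) := by
  rw [← inner_star_left, (h.sa_α j).star_eq]

theorem ibp (h : IsDiracRep α β) {f g : E → S} (hf : ContDiff ℝ 1 f) (hg : ContDiff ℝ 1 g)
    (h0 : Integrable (fun x => ‖f x‖ * ‖g x‖) volume)
    (h1 : ∀ j, Integrable (fun x => ‖fderiv ℝ f x (e j)‖ * ‖g x‖) volume)
    (h2 : ∀ j, Integrable (fun x => ‖f x‖ * ‖fderiv ℝ g x (e j)‖) volume) :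
    Integrable (fun x => inner ℂ (f x) (Zf e α g x) + inner ℂ (Zf e α f x) (g x)) volume ∧
      ∫ x, (inner ℂ (f x) (Zf e α g x) + inner ℂ (Zf e α f x) (g x)) = 0 := by
  have df := hf.differentiable one_ne_zero
  have dg := hg.differentiable one_ne_zero
  have da := fun j => (cd_clm (α j) hg).differentiable one_ne_zero
  have e1 : ∀ j x, fderiv ℝ (fun y => inner ℂ (f y) (α j (g y))) x (e j) =
      inner ℂ (f x) (α j (fderiv ℝ g x (e j))) + inner ℂ (fderiv ℝ f x (e j)) (α j (g x)) :=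
    fun j x => by rw [fderiv_inner_apply ℂ (df x) (da j x), fd_clm _ (dg x)]
  have i1 : ∀ j, Integrable
      (fun x => fderiv ℝ (fun y => inner ℂ (f y) (α j (g y))) x (e j)) volume := fun j => by
    simp only [e1]
    exact (int_inner h e j hf.continuous (cont_d hg _) (h2 j)).add
      (int_inner h e j (cont_d hf _) hg.continuous (h1 j))
  have e2 : (fun x => inner ℂ (f x) (Zf e α g x) + inner ℂ (Zf e α f x) (g x)) =
      fun x => ∑ j, fderiv ℝ (fun y => inner ℂ (f y) (α j (g y))) x (e j) := by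
    ext x
    simp only [e1, Zf, inner_sum, sum_inner, inner_al h, Finset.sum_add_distrib]
  rw [e2, integral_finsetSum _ fun j _ => i1 j]
  refine ⟨integrable_finsetSum _ fun j _ => i1 j, Finset.sum_eq_zero fun j _ => ?_⟩
  have := integral_mul_fderiv_eq_neg_fderiv_mul_of_integrable (μ := volume)
    (f := fun _ : E => (1 : ℂ)) (g := fun y => inner ℂ (f y) (α j (g y))) (v := e j)
    (by simp) (by simpa using i1 j)
    (by simpa using int_inner h e j hf.continuous hg.continuous h0)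
    (fun x _ => differentiableAt_const _) fun x _ => (df x).inner ℂ (da j x)
  simpa using this

theorem strong_eq (h : IsDiracRep α β) {l : ℝ} {V : E → ℝ} {ψ : E → S} (hψ : ContDiff ℝ 1 ψ)
    (hV : LocallyIntegrable (fun x => ((V x + l : ℝ) : ℂ) • ψ x) volume)
    (hw : ∀ φ : 𝓢(E, S),
      ∫ x, inner ℂ (dirac e α β m φ x - ((V x + l : ℝ) : ℂ) • φ x) (ψ x) = 0) :
    ∀ᵐ x, Zf e α ψ x = Complex.I • (((V x + l : ℝ) : ℂ) • ψ x - (m : ℂ) • β (ψ x)) := by
  set G : E → S := fun x =>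
    (-Complex.I) • Zf e α ψ x + (m : ℂ) • β (ψ x) - ((V x + l : ℝ) : ℂ) • ψ x with hG
  have hl : LocallyIntegrable G volume :=
    (((cont_Z hψ).const_smul _).add
      ((β.continuous.comp hψ.continuous).const_smul _)).locallyIntegrable.sub hV
  have := ae_eq_zero_of_integral_contDiff_smul_eq_zero hl fun g g1 g2 => by
    refine ext_inner_left ℂ fun ξ => ?_
    have s1 : ContDiff ℝ ∞ fun x => g x • ξ := g1.smul contDiff_const
    have s2 : HasCompactSupport fun x => g x • ξ := g2.smul_right (f' := fun _ => ξ)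
    have s3 : ContDiff ℝ 1 fun x => g x • ξ := s1.of_le (by exact_mod_cast le_top)
    have i0 := hl.integrable_smul_left_of_hasCompactSupport g1.continuous g2
    obtain ⟨i1, i2⟩ := ibp (e := e) h s3 hψ
      ((s3.continuous.norm.mul hψ.continuous.norm).integrable_of_hasCompactSupport
        s2.norm.mul_right)
      (fun j => ((cont_d s3 _).norm.mul hψ.continuous.norm).integrable_of_hasCompactSupport
        (s2.fderiv_apply ℝ _).norm.mul_right)
      fun j => (s3.continuous.norm.mul (cont_d hψ _).norm).integrable_of_hasCompactSupport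
        s2.norm.mul_right
    have h1 := hw (s2.toSchwartzMap s1)
    have e1 : ∀ x, inner ℂ (dirac e α β m (s2.toSchwartzMap s1) x -
        ((V x + l : ℝ) : ℂ) • (s2.toSchwartzMap s1) x) (ψ x) =
        Complex.I * (inner ℂ (g x • ξ) (Zf e α ψ x) +
          inner ℂ (Zf e α (fun x => g x • ξ) x) (ψ x)) + inner ℂ ξ (g x • G x) := fun x => by
      have e2 : dirac e α β m (s2.toSchwartzMap s1) x =
          (-Complex.I) • Zf e α (fun x => g x • ξ) x + (m : ℂ) • β (g x • ξ) := by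
        unfold dirac Zf
        rw [Finset.smul_sum]
        simp only [map_smul]
        rfl
      have e3 : inner ℂ ξ (g x • G x) = inner ℂ (g x • ξ) (G x) := by
        rw [← Complex.coe_smul, ← Complex.coe_smul, inner_smul_left, inner_smul_right,
          Complex.conj_ofReal]
      have e4 : (s2.toSchwartzMap s1) x = g x • ξ := rfl
      rw [e2, e3, e4, hG]
      generalize g x • ξ = φ
      simp only [inner_sub_left, inner_add_left, inner_sub_right, inner_add_right, inner_smul_left,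
        inner_smul_right, inner_β h, Complex.conj_ofReal, map_neg, Complex.conj_I]
      ring
    simp only [e1] at h1
    rw [integral_add (i1.const_mul _) (i0.const_inner ξ), integral_const_mul, i2, mul_zero,
      zero_add, integral_inner i0] at h1
    rw [h1, inner_zero_right]
  filter_upwards [this] with x hx
  have h2 : ((V x + l : ℝ) : ℂ) • ψ x - (m : ℂ) • β (ψ x) = (-Complex.I) • Zf e α ψ x := by
    rw [sub_eq_zero.mp hx |>.symm, add_sub_cancel_right]
  rw [h2, smul_smul]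
  simp

end Pool.Agent.MP_e4cac8_mp.Str

end

section

/-! The upper spinor of a bounded solution of the nonlinear equation. -/

open Set MeasureTheory Filter Topology
open scoped ENNReal NNReal SchwartzMap ContDiff
open Pool.Agent.MP_0b7119_mp.G

namespace Pool.Agent.MP_e4cac8_mp

set_option linter.unusedSectionVars false

variable {E S : Type} [NormedAddCommGroup E] [InnerProductSpace ℝ E] [FiniteDimensional ℝ E]
  [MeasurableSpace E] [BorelSpace E] [NormedAddCommGroup S] [InnerProductSpace ℂ S]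
  [CompleteSpace S] [FiniteDimensional ℂ S] {d : ℕ}
  {e : OrthonormalBasis (Fin d) ℝ E} {α : Fin d → S →L[ℂ] S} {β : S →L[ℂ] S} {m : ℝ}

namespace Str

theorem cut (e : OrthonormalBasis (Fin d) ℝ E) : ∃ (χ : ℕ → E → ℝ) (C : ℝ), (∀ n,
    ContDiff ℝ 1 (χ n) ∧ HasCompactSupport (χ n) ∧ (∀ x, |χ n x| ≤ 1) ∧
      ∀ x j, |fderiv ℝ (χ n) x (e j)| ≤ C) ∧ ∀ x, Tendsto (fun n => χ n x) atTop (𝓝 1) := by
  let b : ContDiffBump (0 : E) := ⟨1, 2, one_pos, one_lt_two⟩
  have hb : ContDiff ℝ 1 b := b.contDiff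
  obtain ⟨C, hC⟩ := hb.lipschitzWith_of_hasCompactSupport b.hasCompactSupport one_ne_zero
  refine ⟨fun n x => b ((1 / ((n : ℝ) + 1)) • x), C, fun n => ⟨hb.comp (contDiff_const_smul _),
    b.hasCompactSupport.comp_smul (by positivity),
    fun x => abs_le.mpr ⟨neg_one_lt_zero.le.trans b.nonneg, b.le_one⟩, fun x j => ?_⟩, fun x => ?_⟩
  · have h1 : LipschitzWith 1 fun x : E => (1 / ((n : ℝ) + 1)) • x :=
      LipschitzWith.of_dist_le_mul fun x y => by
        rw [dist_smul₀, Real.norm_of_nonneg (by positivity), NNReal.coe_one]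
        exact mul_le_mul_of_nonneg_right
          ((div_le_one (by positivity)).mpr (by linarith [n.cast_nonneg (α := ℝ)])) dist_nonneg
    have h2 := norm_fderiv_le_of_lipschitz ℝ (x₀ := x) (hC.comp h1)
    rw [mul_one] at h2
    have h3 := (fderiv ℝ (fun x => b ((1 / ((n : ℝ) + 1)) • x)) x).le_opNorm (e j)
    rw [e.orthonormal.1 j, mul_one] at h3
    exact h3.trans h2
  · have h1 := (tendsto_one_div_add_atTop_nhds_zero_nat (𝕜 := ℝ)).smul_const x
    rw [zero_smul] at h1
    have h2 := (hb.continuous.tendsto 0).comp h1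
    rwa [b.one_of_mem_closedBall (Metric.mem_closedBall_self zero_le_one)] at h2

theorem pt {c s C U Z D X Y : ℝ} (hc : |c| ≤ 1) (hs : |s| ≤ C)
    (hX : |X| ≤ U * Z) (hY : |Y| ≤ U * D) :
    c * (2 * s * (X - Y)) ≤ Z ^ 2 + 3 * C ^ 2 * U ^ 2 + c ^ 2 * D ^ 2 / 2 := by
  have hC : 0 ≤ C := (abs_nonneg _).trans hs
  have h1 : c * s * X ≤ 1 * C * (U * Z) := by
    refine (le_abs_self _).trans ?_
    rw [abs_mul, abs_mul]
    gcongr
  have h2 : -(c * s * Y) ≤ |c| * C * (U * D) := by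
    refine (neg_le_abs _).trans ?_
    rw [abs_mul, abs_mul]
    gcongr
  rw [← sq_abs c]
  nlinarith [sq_nonneg (Z - C * U), sq_nonneg (|c| * D - 2 * C * U)]

theorem cacc (h : IsDiracRep α β) (h0 : StNL0 e α) {u : E → S} (hu : ContDiff ℝ 1 u)
    (h2 : Integrable (fun x => ‖u x‖ ^ 2) volume)
    (hZ : Integrable (fun x => ‖Zf e α u x‖ ^ 2) volume) : Integrable (G2 e u) volume := by
  obtain ⟨χ, C, hχ, hT⟩ := cut e
  have hG : Continuous (G2 e u) := continuous_finsetSum _ fun j _ => (cont_d hu _).norm.pow 2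
  have hG0 : ∀ x, 0 ≤ G2 e u x := fun x => Finset.sum_nonneg fun j _ => sq_nonneg _
  set B : E → ℝ := fun x => (d + 1) * ‖Zf e α u x‖ ^ 2 + d * (3 * C ^ 2) * ‖u x‖ ^ 2 with hB
  have iB : Integrable B volume := (hZ.const_mul _).add (h2.const_mul _)
  have iG : ∀ n, Integrable (fun x => χ n x * (χ n x * G2 e u x)) volume := fun n =>
    ((hχ n).1.continuous.mul ((hχ n).1.continuous.mul hG)).integrable_of_hasCompactSupport
      (hχ n).2.1.mul_right
  have key : ∀ n, ∫ x, χ n x * (χ n x * G2 e u x) ≤ 2 * ∫ x, B x := fun n => by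
    obtain ⟨c1, c2, c3, c4⟩ := hχ n
    have dc := c1.differentiable one_ne_zero
    set R : E → ℝ := fun x => χ n x * (‖Zf e α u x‖ ^ 2 - G2 e u x) +
      ∑ j, 2 * fderiv ℝ (χ n) x (e j) * ((inner ℂ (α j (u x)) (Zf e α u x)).re -
        (inner ℂ (u x) (fderiv ℝ u x (e j))).re) with hR
    have cR : Continuous R :=
      (c1.continuous.mul (((cont_Z hu).norm.pow 2).sub hG)).add
        (continuous_finsetSum _ fun j _ => (continuous_const.mul (cont_d c1 _)).mul
          ((Complex.continuous_re.comp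
            (((α j).continuous.comp hu.continuous).inner (cont_Z hu))).sub
            (Complex.continuous_re.comp (hu.continuous.inner (cont_d hu _)))))
    have iR : Integrable (fun x => χ n x * R x) volume :=
      (c1.continuous.mul cR).integrable_of_hasCompactSupport c2.mul_right
    have h1 : ∫ x, χ n x * R x = 0 := by
      rw [← h0 u (fun x => χ n x * χ n x) hu (c1.mul c1) c2.mul_right]
      congr 1
      ext x
      rw [fderiv_fun_mul (dc x) (dc x), hR]
      simp only [add_apply, smul_apply, smul_eq_mul, sum_inner, inner_smul_left,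
        Complex.conj_ofReal, Complex.re_sum, Complex.re_ofReal_mul, mul_add, Finset.mul_sum,
        ← Finset.sum_sub_distrib]
      congr 1
      · ring
      · exact Finset.sum_congr rfl fun j _ => by ring
    have h3 : ∀ x, χ n x * R x + 2⁻¹ * (χ n x * (χ n x * G2 e u x)) ≤ B x := fun x => by
      have a1 := Finset.sum_le_sum (s := Finset.univ) fun j _ =>
        pt (c3 x) (c4 x j) (U := ‖u x‖) (Z := ‖Zf e α u x‖) (D := ‖fderiv ℝ u x (e j)‖)
          (X := (inner ℂ (α j (u x)) (Zf e α u x)).re) (Y := (inner ℂ (u x) (fderiv ℝ u x (e j))).re)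
          ((Complex.abs_re_le_norm _).trans
            ((norm_inner_le_norm _ _).trans (by rw [Alg.norm_al h e])))
          ((Complex.abs_re_le_norm _).trans (norm_inner_le_norm _ _))
      rw [← Finset.mul_sum, Finset.sum_add_distrib, Finset.sum_const, Finset.card_univ,
        Fintype.card_fin, nsmul_eq_mul, ← Finset.sum_div, ← Finset.mul_sum] at a1
      have a2 : χ n x ^ 2 * ‖Zf e α u x‖ ^ 2 ≤ 1 * ‖Zf e α u x‖ ^ 2 :=
        mul_le_mul_of_nonneg_right ((sq_le_one_iff_abs_le_one _).mpr (c3 x)) (sq_nonneg _)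
      simp only [hR, hB, G2]
      linarith
    have h4 := integral_mono (iR.add ((iG n).const_mul 2⁻¹)) iB h3
    simp only [Pi.add_apply] at h4
    rw [integral_add iR ((iG n).const_mul _), h1, integral_const_mul] at h4
    linarith
  refine ⟨hG.aestronglyMeasurable, (hasFiniteIntegral_iff_ofReal (Eventually.of_forall hG0)).mpr ?_⟩
  have h5 := lintegral_liminf_le (μ := volume) (u := atTop)
    (f := fun n x => ENNReal.ofReal (χ n x * (χ n x * G2 e u x)))
    fun n => ((hχ n).1.continuous.mul ((hχ n).1.continuous.mul hG)).measurable.ennreal_ofReal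
  have h6 : ∀ x, liminf (fun n => ENNReal.ofReal (χ n x * (χ n x * G2 e u x))) atTop =
      ENNReal.ofReal (G2 e u x) := fun x => by
    have := ENNReal.tendsto_ofReal ((hT x).mul ((hT x).mul_const (G2 e u x)))
    rw [one_mul, one_mul] at this
    exact this.liminf_eq
  simp only [h6] at h5
  refine (h5.trans (liminf_le_of_frequently_le' (Frequently.of_forall fun n => ?_))).trans_lt
    (ENNReal.ofReal_lt_top (r := 2 * ∫ x, B x))
  rw [← ofReal_integral_eq_lintegral_ofReal (iG n) (Eventually.of_forall fun x => by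
    have := mul_nonneg (mul_self_nonneg (χ n x)) (hG0 x)
    rwa [mul_assoc] at this)]
  exact ENNReal.ofReal_le_ofReal (key n)

/-- `C¹` functions in `H¹`. -/
structure H1 (e : Fin d → E) (f : E → S) : Prop where
  c1 : ContDiff ℝ 1 f
  l2 : MemLp f 2 volume
  dl2 : ∀ j, MemLp (fun x => fderiv ℝ f x (e j)) 2 volume

theorem H1.map {f : E → S} (h : H1 e f) (T : S →L[ℂ] S) : H1 e fun x => T (f x) :=
  ⟨cd_clm T h.c1, T.comp_memLp' h.l2, fun j => by
    simp only [fd_clm T (h.c1.differentiable one_ne_zero _)]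
    exact T.comp_memLp' (h.dl2 j)⟩

theorem Z_map {f : E → S} (h : H1 e f) {T T' : S →L[ℂ] S} (hT : ∀ j ξ, α j (T ξ) = T' (α j ξ))
    (x : E) : Zf e α (fun x => T (f x)) x = T' (Zf e α f x) := by
  simp only [Zf, fd_clm T (h.c1.differentiable one_ne_zero _), hT, map_sum]

end Str

open Str in
theorem stStr (hc : Ctx α β m) (h0 : StNL0 e α) (_hA : StAlg e α) (h1 : StReg1 e α β m)
    (h2 : StReg2 e α β m) (hK : StK e α β m) : StStr e α β m := by
  intro l hl p M c V ψ hp hc0 hV hM hF hE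
  have h := hc.rep
  obtain ⟨c1, L, hL⟩ := reg h1 h2 hl hp hc0 hV hM hF hE
  have hw := (hK l hl V _ ψ hV (fun x => (hM x).1) (adm_of_bdd hV (fun x => (hM x).1)
    (fun x => (hM x).2) (integrable_rk h e hl).norm fun _ => norm_nonneg _) hF.fix.l2
    hF.fix.intV).mpr hF.fix.eq
  have m1 : MemLp (fun x => ((V x + l : ℝ) : ℂ) • ψ x) 2 volume :=
    MemLp.of_le_mul (c := M + |l|) hF.fix.l2
      ((Complex.measurable_ofReal.comp (hV.add_const l)).aestronglyMeasurable.smul hF.fix.l2.1)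
      (Eventually.of_forall fun x => by
        rw [norm_smul, Complex.norm_real]
        refine mul_le_mul_of_nonneg_right ((abs_add_le _ _).trans ?_) (norm_nonneg _)
        rw [abs_of_nonneg (hM x).1]
        linarith [(hM x).2])
  have hs := strong_eq h c1 (m1.locallyIntegrable one_le_two) hw
  have m2 : MemLp (Zf e α ψ) 2 volume :=
    (memLp_congr_ae hs).mpr
      ((m1.sub ((β.comp_memLp' hF.fix.l2).const_smul (m : ℂ))).const_smul Complex.I)
  have hG := cacc h h0 c1 (JD.int_sq hF.fix.l2) (JD.int_sq m2)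
  have hψ : H1 e ψ := ⟨c1, hF.fix.l2, fun j => by
    rw [memLp_two_iff_integrable_sq_norm (cont_d c1 _).aestronglyMeasurable]
    refine hG.mono' ((cont_d c1 _).norm.pow 2).aestronglyMeasurable
      (Eventually.of_forall fun x => ?_)
    rw [Real.norm_of_nonneg (sq_nonneg _)]
    exact Finset.single_le_sum (f := fun j => ‖fderiv ℝ ψ x (e j)‖ ^ 2) (fun j _ => sq_nonneg _)
      (Finset.mem_univ j)⟩
  have ab : ∀ j ξ, α j (β ξ) = -β (α j ξ) := fun j ξ => by
    simpa only [cl_basis] using cl_β_apply h e (e j) ξ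
  set P : S →L[ℂ] S := (2⁻¹ : ℂ) • (1 + β) with hP
  set Q : S →L[ℂ] S := (2⁻¹ : ℂ) • (1 - β) with hQ
  have pP : ∀ ξ, P ξ = (2⁻¹ : ℂ) • (ξ + β ξ) := fun ξ => rfl
  have pQ : ∀ ξ, Q ξ = (2⁻¹ : ℂ) • (ξ - β ξ) := fun ξ => rfl
  have hu := hψ.map P
  have hv := hψ.map Q
  have ha : ∀ x, 0 < m + l + V x := fun x => by linarith [(hM x).1, hl.1]
  have zu : ∀ᵐ x, Zf e α (fun x => P (ψ x)) x =
      Complex.I • ((m + l + V x : ℝ) : ℂ) • Q (ψ x) := by
    filter_upwards [hs] with x hx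
    rw [Z_map hψ (T' := Q) (fun j ξ => by rw [pP, pQ, map_smul, map_add, ab, sub_eq_add_neg]), hx]
    simp only [pQ, map_smul, map_sub, β_β h]
    push_cast
    module
  have zv : ∀ᵐ x, Zf e α (fun x => Q (ψ x)) x =
      Complex.I • ((V x - (m - l) : ℝ) : ℂ) • P (ψ x) := by
    filter_upwards [hs] with x hx
    rw [Z_map hψ (T' := P) (fun j ξ => by rw [pP, pQ, map_smul, map_sub, ab, sub_neg_eq_add]), hx]
    simp only [pP, map_smul, map_sub, β_β h]
    push_cast
    module
  have z0 : ∀ᵐ x, P (ψ x) = 0 → Zf e α (fun x => P (ψ x)) x = 0 → ψ x = 0 := by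
    filter_upwards [zu] with x hx a1 a2
    rw [hx, smul_eq_zero, or_iff_right Complex.I_ne_zero, smul_eq_zero,
      or_iff_right (Complex.ofReal_ne_zero.mpr (ha x).ne')] at a2
    have : ψ x = P (ψ x) + Q (ψ x) := by
      rw [pP, pQ]
      module
    rw [this, a1, a2, add_zero]
  have hL0 : 0 ≤ L := (norm_nonneg _).trans (hL 0)
  refine ⟨fun x => P (ψ x), ⟨hu.c1, ⟨_, P.lipschitz.comp (lipschitzWith_of_nnnorm_fderiv_le
    (C := ⟨L, hL0⟩) (c1.differentiable one_ne_zero) hL)⟩, hu.l2,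
    integrable_finsetSum _ fun j _ => JD.int_sq (hu.dl2 j)⟩, ?_, ?_, ?_⟩
  · by_contra hn
    push Not at hn
    refine hF.fix.ne ?_
    filter_upwards [z0] with x hx
    refine hx (hn x) ?_
    simp [Zf, hn]
  · obtain ⟨i1, i2⟩ := ibp (e := e) h hv.c1 hu.c1 (hv.l2.norm.integrable_mul hu.l2.norm)
      (fun j => (hv.dl2 j).norm.integrable_mul hu.l2.norm)
      fun j => hv.l2.norm.integrable_mul (hu.dl2 j).norm
    have i3 := integral_im (𝕜 := ℂ) i1
    rw [i2, map_zero] at i3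
    refine (Eq.trans (integral_congr_ae ?_) i3).le
    filter_upwards [zu, zv] with x a1 a2
    rw [a1, a2]
    have n1 : ∀ ξ : S, inner ℂ ξ ξ = ((‖ξ‖ ^ 2 : ℝ) : ℂ) := fun ξ => by
      rw [inner_self_eq_norm_sq_to_K]
      simp
    simp only [inner_smul_left, inner_smul_right, n1, norm_smul, Complex.norm_I, one_mul,
      Complex.norm_real, Real.norm_of_nonneg (ha x).le, Complex.conj_I, Complex.conj_ofReal,
      RCLike.im_to_complex, Complex.add_im, neg_mul, Complex.neg_im, Complex.I_mul_im,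
      Complex.re_ofReal_mul, Complex.ofReal_re]
    have := (ha x).ne'
    field_simp
    ring
  · filter_upwards [z0, hE] with x a1 a2 b1 b2
    rw [a1 b1 b2, norm_zero, zero_pow two_ne_zero, mul_zero,
      Real.rpow_eq_zero_iff_of_nonneg (hM x).1] at a2
    exact a2.1

end Pool.Agent.MP_e4cac8_mp

end
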