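import Pool.Agent.Mg.Fe4cac8.G43e91a

set_option linter.all false

section

/-! Assembly of the symmetry theorems from the interface statements. -/

open Set MeasureTheory Filter Topology
open scoped ENNReal NNReal SchwartzMap
open Pool.Agent.MP_0b7119_mp.G

namespace Pool.Agent.MP_e4cac8_mp

set_option linter.unusedSectionVars false

variable {E S : Type} [NormedAddCommGroup E] [InnerProductSpace ℝ E] [FiniteDimensional ℝ E]
  [MeasurableSpace E] [BorelSpace E] [NormedAddCommGroup S] [InnerProductSpace ℂ S]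
  [CompleteSpace S] [FiniteDimensional ℂ S] {d : ℕ}

/-- The statements used in the assembly. -/
structure All (e : OrthonormalBasis (Fin d) ℝ E) (α : Fin d → S →L[ℂ] S) (β : S →L[ℂ] S)
    (m : ℝ) : Prop where
  vm : StVm
  ode : StODE
  re : StRe E
  geo : StGeo E
  tr : StTR E
  tent : StTent E
  alg : StAlg e α
  cmp : StCmp e α
  hb : StHB e α β m
  str : StStr e α β m
  f2 : StF2 e α β m
  p1 : StP1 e α β m
  no : StNo e α β m
  p0 : StP0 e α β m
  att : StAtt e α β m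
  bdd : StBdd e α β m
  el1 : StEL1 e α β m
  el2 : StEL2 e α β m
  apr : StApr e α β m

/-- Radial and nonincreasing about a point. -/
def Radial (V : E → ℝ) : Prop :=
  ∃ (x₀ : E) (φ : ℝ → ℝ), Antitone φ ∧ V =ᵐ[volume] fun x => φ ‖x - x₀‖

variable {e : OrthonormalBasis (Fin d) ℝ E} {α : Fin d → S →L[ℂ] S} {β : S →L[ℂ] S} {m : ℝ}

theorem core (hc : Ctx α β m) (H : All e α β m) {a b p A M₀ M : ℝ} {V : E → ℝ} {u : E → S}
    (hb : 0 < b) (hp : 2 ≤ p) (h0 : 0 ≤ M₀) (hM : M₀ < M) (ha : 3 * d * M < a) (hV : PotR p A V)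
    (hVM : ∀ x, V x ≤ M₀) (hu : Strong e α a b V u) (hT : TP E a b p A M) : Radial V := by
  have hM0 : 0 < M := h0.trans_lt hM
  have ha0 : 0 < a := lt_of_le_of_lt (by positivity) ha
  have hR := H.tr a b p A M ha0 (by linarith) hT
  obtain ⟨-, -, -, L, hL⟩ := H.alg u hu.reg
  obtain ⟨φ, y, hre⟩ := H.re L _ hL
  obtain ⟨s, hs, hprof, h1, h2⟩ := H.cmp a b p A M₀ M V u L φ y hb hp h0 hM ha hV hVM hu hR hre
  have hk : 1 ≤ Module.finrank ℝ E - 1 := by
    rw [finrank_eq e]
    have := hc.two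
    omega
  obtain ⟨o1, o2, o3, o4⟩ := H.ode _ _ a b p A M s φ hk hp ha0 hb hM0 hs hR hre.anti
    ⟨L, hre.lip⟩ hre.nonneg hprof
  obtain ⟨x₁, hx₁⟩ := hu.ne
  obtain ⟨x₀, hx₀⟩ := H.geo L _ φ y hL hre ⟨x₁, norm_pos_iff.mpr hx₁⟩ o1 o2 o3 (by
    filter_upwards [h1] with x hx hpos
    exact (hx (norm_pos_iff.mp hpos)).2)
  obtain ⟨-, hvm⟩ := H.vm p a M hp ha0 hM0
  refine ⟨x₀, fun r => if 0 < r then Vm p a M (s * deriv φ r) (s * φ r) else M, ?_, ?_⟩
  · intro r r' hrr
    by_cases h : 0 < r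
    · have h' : 0 < r' := h.trans_le hrr
      simp only [h, h', if_true]
      exact o4 h h' hrr
    · by_cases h' : 0 < r'
      · simp only [h, h', if_true, if_false]
        exact (hvm _ _).2.1
      · simp only [h, h', if_false, le_refl]
  · have hn : 2 ≤ Module.finrank ℝ E := by
      rw [finrank_eq e]
      exact hc.two
    have : Nontrivial E := Module.nontrivial_of_finrank_pos (R := ℝ) (by omega)
    have hne : ∀ᵐ x : E, x ≠ x₀ := by
      rw [ae_iff]
      simp
    filter_upwards [h1, h2, hne] with x hx1 hx2 hx3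
    have hr : 0 < ‖x - x₀‖ := norm_pos_iff.mpr (sub_ne_zero.mpr hx3)
    simp only [hr, if_true]
    by_cases hux : u x = 0
    · have e1 : φ ‖x - x₀‖ = 0 := by rw [← hx₀ x, hux, norm_zero]
      have e2 : deriv φ ‖x - x₀‖ = 0 :=
        IsLocalMin.deriv_eq_zero (Eventually.of_forall fun r => by rw [e1]; exact hre.nonneg r)
      rw [hx2 hux, e1, e2, mul_zero]
      have h3 := (hvm 0 0).2.2.1
      have h4 := (hvm 0 0).1
      by_contra hne0
      have h5 : 0 < Vm p a M 0 0 := h4.lt_of_ne hne0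
      have := Real.rpow_pos_of_pos h5 (p - 1)
      simp at h3
      linarith
    · rw [(hx1 hux).1, hx₀ x, hre.der _ hr (o1 _ hr)]
      unfold Vm
      simp only [mul_neg, even_two, Even.neg_pow]

theorem lamD_le (hm : 0 < m) (V : E → ℝ) : lamD e α β m V ≤ m :=
  csInf_le ⟨-m, by
    rintro l (hl | hl)
    · exact hl.1.1.le
    · rw [mem_singleton_iff.mp hl]; linarith⟩ (Or.inr rfl)

theorem lamD_nonneg (hm : 0 < m) {V : E → ℝ} (h : ∀ l ∈ Ioc (-m) 0, ¬ IsEig e α β m V l) :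
    0 ≤ lamD e α β m V := by
  refine le_csInf ⟨m, Or.inr rfl⟩ ?_
  rintro l (hl | hl)
  · by_contra hn
    exact h l ⟨hl.1.1, (not_le.mp hn).le⟩ hl.2
  · rw [mem_singleton_iff.mp hl]; exact hm.le

theorem PotR.up {p q A M : ℝ} {V : E → ℝ} (h : PotR p A V) (hp : 0 < p) (hq : p ≤ q)
    (hM : ∀ x, V x ≤ M) : ∃ N, 0 ≤ N ∧ PotR q N V := by
  have hb : ∀ x, V x ^ q ≤ M ^ (q - p) * V x ^ p := fun x => by
    have e1 : V x ^ q = V x ^ (q - p) * V x ^ p := by
      rw [← Real.rpow_add' (h.nonneg x) (by linarith)]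
      congr 1
      ring
    rw [e1]
    exact mul_le_mul_of_nonneg_right (Real.rpow_le_rpow (h.nonneg x) (hM x) (by linarith))
      (Real.rpow_nonneg (h.nonneg x) _)
  have hi : Integrable (fun x => V x ^ q) volume :=
    (h.int.const_mul (M ^ (q - p))).mono' (h.meas.pow_const q).aestronglyMeasurable
      (Eventually.of_forall fun x => by
        rw [Real.norm_of_nonneg (Real.rpow_nonneg (h.nonneg x) _)]
        exact hb x)
  have h0 : 0 ≤ ∫ x, V x ^ q := integral_nonneg fun x => Real.rpow_nonneg (h.nonneg x) _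
  refine ⟨(∫ x, V x ^ q) ^ q⁻¹, Real.rpow_nonneg h0 _, h.meas, h.nonneg, hi, ?_⟩
  rw [Real.rpow_inv_rpow h0 (by linarith)]

/-- The lowest eigenvalue at positive norm lies below the upper edge of the gap. -/
theorem lam_lt (hc : Ctx α β m) (H : All e α β m) {p A M lam : ℝ} (hp : (d : ℝ) ≤ p) (hA : 0 < A)
    (hM : 0 < M) (hle : lam ≤ m) (h : ∀ l ∈ Ico 0 m, l ≤ lam → HP (rk e α β m l) p A M) :
    lam < m := by
  refine hle.lt_of_ne fun hl => ?_
  have hm := hc.pos
  have hd : (2 : ℝ) ≤ d := by exact_mod_cast hc.two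
  have hp0 : 0 < p := by linarith
  have hom : 0 < om E := om_pos
  set w : ℝ := A * om E ^ (-p⁻¹) with hw
  have hw0 : 0 < w := by positivity
  have key : ∀ L : ℝ, 1 ≤ L → w * L ^ (-(d / p)) ≤ M → w / L ≤ 2 ^ (d + 2) / (m * L ^ 2) := by
    intro L hL hLM
    have hL0 : 0 < L := by linarith
    have h1 : (w * L ^ (-(d / p))) ^ p * (om E * L ^ Module.finrank ℝ E) ≤ A ^ p := by
      rw [finrank_eq e, hw, Real.mul_rpow (by positivity) (by positivity),
        Real.mul_rpow (by positivity) (by positivity), ← Real.rpow_mul hom.le,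
        ← Real.rpow_mul hL0.le, neg_mul, neg_mul, inv_mul_cancel₀ hp0.ne',
        div_mul_cancel₀ _ hp0.ne', Real.rpow_neg_one, Real.rpow_neg hL0.le, Real.rpow_natCast]
      refine le_of_eq ?_
      field_simp
    have h2 : w / L ≤ w * L ^ (-(d / p)) := by
      rw [div_eq_mul_inv, ← Real.rpow_neg_one]
      refine mul_le_mul_of_nonneg_left (Real.rpow_le_rpow_of_exponent_le hL ?_) hw0.le
      have : (d : ℝ) / p ≤ 1 := (div_le_one hp0).mpr hp
      linarith
    refine h2.trans (le_of_forall_pos_le_add fun ε hε => ?_)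
    have hl0 : max 0 (m - ε) ∈ Ico 0 m := ⟨le_max_left _ _, max_lt hm (by linarith)⟩
    have h3 := H.tent _ _ p A M L _ (by linarith [hl0.1]) (by linarith [hl0.2]) hp0
      (H.p1 _ ⟨by linarith [hl0.1], hl0.2⟩ p A M (h _ hl0 (hl ▸ hl0.2.le))) hL0 (by positivity)
      hLM h1
    rw [finrank_eq e] at h3
    have h4 : (2 : ℝ) ^ (d + 2) / ((m + max 0 (m - ε)) * L ^ 2) ≤ 2 ^ (d + 2) / (m * L ^ 2) := by
      gcongr
      linarith [hl0.1]
    linarith [le_max_right 0 (m - ε)]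
  have t1 : Tendsto (fun L : ℝ => w * L ^ (-(d / p))) atTop (𝓝 (w * 0)) :=
    (tendsto_rpow_neg_atTop (by positivity)).const_mul w
  rw [mul_zero] at t1
  obtain ⟨L, hL1, hL2, hL3⟩ := ((eventually_ge_atTop (1 : ℝ)).and
    ((t1.eventually (ge_mem_nhds hM)).and
      (eventually_gt_atTop (2 ^ (d + 2) / (m * w))))).exists
  have h5 := key L hL1 hL2
  have hL0 : 0 < L := by linarith
  rw [div_le_div_iff₀ hL0 (by positivity)] at h5
  rw [div_lt_iff₀ (by positivity)] at hL3
  nlinarith [mul_lt_mul_of_pos_right hL3 hL0]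

theorem mainA (hc : Ctx α β m) (H : All e α β m) {p A M₀ : ℝ} {V : E → ℝ} (hp : (d : ℝ) ≤ p)
    (hA : 0 < A) (hV : PotR p A V) (hVM : ∀ x, V x ≤ M₀)
    (hopt : Opt e α β m p A (lamD e α β m V)) (hM : 3 * d * M₀ < m + lamD e α β m V) :
    Radial V := by
  have hm := hc.pos
  have hd : (2 : ℝ) ≤ d := by exact_mod_cast hc.two
  have h0 : 0 ≤ M₀ := (hV.nonneg 0).trans (hVM 0)
  set lam := lamD e α β m V with hlam
  have hle : lam ≤ m := lamD_le hm V
  obtain ⟨M, hM1, hM2⟩ : ∃ M, M₀ < M ∧ 3 * d * M < m + lam := by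
    have : M₀ < (m + lam) / (3 * d) := by
      rw [lt_div_iff₀ (by positivity)]
      linarith
    obtain ⟨M, a1, a2⟩ := exists_between this
    rw [lt_div_iff₀ (by positivity)] at a2
    exact ⟨M, a1, by linarith⟩
  have hM0 : 0 < M := h0.trans_lt hM1
  have hMm : M < m := by nlinarith
  have hθ : M / m < 1 := (div_lt_one hm).mpr hMm
  have hSM : ∀ W : E → ℝ, PotR p A W → (∀ x, W x ≤ M) → BS (rk e α β m 0) W (M / m) := by
    intro W hW hWM g hg
    refine (H.f2 _ (memLp_sv hW.meas hWM hg)).2.trans ?_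
    rw [I2_sv hW.nonneg, div_mul_eq_mul_div]
    refine div_le_div_of_nonneg_right ?_ hm.le
    unfold JD.I2
    rw [← integral_const_mul]
    exact integral_mono_of_nonneg (Eventually.of_forall fun x =>
      mul_nonneg (hW.nonneg x) (sq_nonneg _)) ((JD.int_sq hg).const_mul M)
      (Eventually.of_forall fun x => mul_le_mul_of_nonneg_right (hWM x) (sq_nonneg _))
  have hVM' : ∀ x, V x ≤ M := fun x => (hVM x).trans hM1.le
  have hadm : ∀ l ∈ Ioo (-m) m, Adm V (fun z => ‖rk e α β m l z‖) (M * ∫ z, ‖rk e α β m l z‖) :=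
    fun l hl => adm_of_bdd hV.meas hV.nonneg hVM' (integrable_rk hc.rep e hl).norm
      fun _ => norm_nonneg _
  have hl0 : 0 ≤ lam := lamD_nonneg hm fun l hl =>
    H.no l hl V _ _ _ hV.meas hV.nonneg (hadm l ⟨hl.1, hl.2.trans_lt hm⟩)
      (hadm 0 ⟨by linarith, hm⟩) (hSM V hV hVM') hθ
  have hHP := H.p0 p A M _ lam (by linarith) hA hM0 hθ hSM hopt
  have hlt : lam < m := lam_lt hc H hp hA hM0 hle hHP
  have hlI : lam ∈ Ioo (-m) m := ⟨by linarith, hlt⟩
  have hP := hHP lam ⟨hl0, hlt⟩ le_rfl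
  obtain ⟨N, hN0, hN⟩ := hV.up (q := p + 1) (by linarith) (by linarith) hVM
  obtain ⟨ψ, hψ⟩ := H.att (p + 1) N V (by linarith) hN0 hN ⟨hl0, hlt⟩ (hP V hV hVM')
  obtain ⟨Ψ, hΨ⟩ := H.bdd lam hlI (p + 1) N V ψ (by linarith) hN0 hN hψ
  obtain ⟨c, hc0, hel⟩ := H.el1 lam hlI p A _ V Ψ (by linarith) hA hV (hadm lam hlI) hΨ
    (Or.inr ⟨M₀, M, hM1, hVM, hP⟩)
  have hel2 := H.el2 lam hlI p A M V Ψ (by linarith) hA hM0 hV hVM' hP hΨ
  obtain ⟨u, hu⟩ := H.str lam hlI p M c V Ψ (by linarith) hc0 hV.meas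
    (fun x => ⟨hV.nonneg x, hVM' x⟩) hΨ (by
      filter_upwards [hel, hel2] with x h1 h2
      rcases (hV.nonneg x).eq_or_lt with h3 | h3
      · rw [h2 h3.symm, ← h3, Real.zero_rpow (by linarith)]
        simp
      · rw [Real.rpow_sub_one h3.ne', h1]
        field_simp)
  exact core hc H (by linarith) (by linarith) h0 hM1 hM2 hV hVM hu (H.p1 lam hlI p A M hP)

theorem isEig_congr {V W : E → ℝ} (h : V =ᵐ[volume] W) {l : ℝ} (hl : IsEig e α β m V l) :
    IsEig e α β m W l := by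
  obtain ⟨ψ, h1, h2, h3, h4⟩ := hl
  refine ⟨ψ, h1, h2, h3.congr ?_, fun φ => ?_⟩
  · filter_upwards [h] with x hx
    rw [hx]
  · rw [← h4 φ]
    refine integral_congr_ae ?_
    filter_upwards [h] with x hx
    rw [hx]

theorem lamD_congr {V W : E → ℝ} (h : V =ᵐ[volume] W) : lamD e α β m V = lamD e α β m W := by
  unfold lamD
  congr 2
  ext l
  exact ⟨fun hl => ⟨hl.1, isEig_congr h hl.2⟩, fun hl => ⟨hl.1, isEig_congr h.symm hl.2⟩⟩

theorem PotR.of_le {p A : ℝ} {V W : E → ℝ} (h : PotR p A V) (hp : 0 ≤ p) (hW : Measurable W)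
    (h0 : ∀ x, 0 ≤ W x) (hle : ∀ x, W x ≤ V x) : PotR p A W := by
  have hb : ∀ x, W x ^ p ≤ V x ^ p := fun x => Real.rpow_le_rpow (h0 x) (hle x) hp
  have hi : Integrable (fun x => W x ^ p) volume :=
    h.int.mono' (hW.pow_const p).aestronglyMeasurable (Eventually.of_forall fun x => by
      rw [Real.norm_of_nonneg (Real.rpow_nonneg (h0 x) _)]
      exact hb x)
  exact ⟨hW, h0, hi, (integral_mono hi h.int hb).trans h.le⟩

theorem mainA' (hc : Ctx α β m) (H : All e α β m) {p A M₀ : ℝ} {V : E → ℝ} (hp : (d : ℝ) ≤ p)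
    (hA : 0 < A) (hV : PotR p A V) (hVM : ∀ᵐ x, V x ≤ M₀)
    (hopt : Opt e α β m p A (lamD e α β m V)) (hM : 3 * d * M₀ < m + lamD e α β m V) :
    Radial V := by
  have hd : (2 : ℝ) ≤ d := by exact_mod_cast hc.two
  have h0 : 0 ≤ M₀ := by
    obtain ⟨x, hx⟩ := hVM.exists
    exact (hV.nonneg x).trans hx
  have he : V =ᵐ[volume] fun x => min (V x) M₀ := by
    filter_upwards [hVM] with x hx
    rw [min_eq_left hx]
  rw [lamD_congr he] at hopt hM
  obtain ⟨x₀, φ, h1, h2⟩ := mainA hc H hp hA (hV.of_le (by linarith) (hV.meas.min measurable_const)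
    (fun x => le_min (hV.nonneg x) h0) fun x => min_le_left _ _) (fun x => min_le_right _ _) hopt hM
  exact ⟨x₀, φ, h1, he.trans h2⟩

theorem mainB (hc : Ctx α β m) (H : All e α β m) {p₀ : ℝ} (hp₀ : (d : ℝ) < p₀) :
    ∃ c : ℝ, 0 < c ∧ ∀ p, p₀ ≤ p → ∀ A ∈ Ioc 0 c, ∀ V : E → ℝ, PotR p A V →
      Opt e α β m p A (lamD e α β m V) → Radial V := by
  have hm := hc.pos
  have hd : (2 : ℝ) ≤ d := by exact_mod_cast hc.two
  obtain ⟨C, hC, hb⟩ := H.hb p₀ hp₀
  obtain ⟨c₀, hc₀, hapr⟩ := H.apr p₀ hp₀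
  set K : ℝ := C * max 1 (m ^ 2)⁻¹ with hK
  have hK0 : 0 < K := by positivity
  refine ⟨min c₀ (1 / (2 * K)), by positivity, fun p hp A hA V hV hopt => ?_⟩
  have hA0 : 0 < A := hA.1
  have hp0 : 0 < p := by linarith
  set lam := lamD e α β m V with hlam
  have hle : lam ≤ m := lamD_le hm V
  have h0I : (0 : ℝ) ∈ Ioo (-m) m := ⟨by linarith, hm⟩
  have hSM : ∀ W : E → ℝ, PotR p A W → BS (rk e α β m 0) W (1 / 2) := by
    intro W hW
    refine bs_of_adm (ks_rk hc.rep e m 0) hW.meas hW.nonneg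
      ((hb 0 h0I p hp A W hA0.le hW).mono ?_)
    have h1 : (m ^ 2 - 0 ^ 2) ^ ((d : ℝ) / (2 * p) - 1) ≤ max 1 (m ^ 2)⁻¹ := by
      have e1 : (m ^ 2 - 0 ^ 2 : ℝ) = m ^ 2 := by ring
      have s1 : 0 ≤ (d : ℝ) / (2 * p) := by positivity
      have s2 : (d : ℝ) / (2 * p) ≤ 1 := by
        rw [div_le_one (by positivity)]
        linarith
      rw [e1]
      rcases le_total 1 (m ^ 2) with h | h
      · exact (Real.rpow_le_one_of_one_le_of_nonpos h (by linarith)).trans (le_max_left _ _)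
      · refine le_trans ?_ (le_max_right _ _)
        rw [← Real.rpow_neg_one]
        exact Real.rpow_le_rpow_of_exponent_ge (by positivity) h (by linarith)
    have h2 : A ≤ 1 / (2 * K) := hA.2.trans (min_le_right _ _)
    calc C * (m ^ 2 - 0 ^ 2) ^ ((d : ℝ) / (2 * p) - 1) * A ≤ K * (1 / (2 * K)) := by
          refine mul_le_mul ?_ h2 hA0.le hK0.le
          exact mul_le_mul_of_nonneg_left h1 hC.le
      _ = 1 / 2 := by field_simp
  have hadm := fun l hl => hb l hl p hp A V hA0.le hV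
  have hl0 : 0 ≤ lam := lamD_nonneg hm fun l hl =>
    H.no l hl V _ _ _ hV.meas hV.nonneg (hadm l ⟨hl.1, hl.2.trans_lt hm⟩) (hadm 0 h0I) (hSM V hV)
      (by norm_num)
  have hHP : ∀ M, ∀ l ∈ Ico 0 m, l ≤ lam → HP (rk e α β m l) p A M := by
    intro M l hl hll W hW hWM
    exact H.p0 p A (max M 1) _ lam (by linarith) hA0 (by positivity) (by norm_num)
      (fun W hW _ => hSM W hW) hopt l hl hll W hW fun x => (hWM x).trans (le_max_left _ _)
  have hlt : lam < m := lam_lt hc H (by linarith) hA0 one_pos hle (hHP 1)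
  have hlI : lam ∈ Ioo (-m) m := ⟨by linarith, hlt⟩
  have hP := fun M => hHP M lam ⟨hl0, hlt⟩ le_rfl
  have hBS : BS (rk e α β m lam) V 1 := by
    refine bs_of_trunc (ks_rk hc.rep e m lam) hV.meas hV.nonneg (hadm lam hlI)
      (fun n => {x | V x ≤ n}) (fun n => measurableSet_le hV.meas measurable_const)
      (fun x => tendsto_natCast_atTop_atTop.eventually (eventually_ge_atTop (V x))) fun n => ?_
    refine hP n _ (hV.of_le hp0.le
      (hV.meas.indicator (measurableSet_le hV.meas measurable_const))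
      (fun x => indicator_nonneg (fun y _ => hV.nonneg y) x)
      fun x => indicator_le_self' (fun y _ => hV.nonneg y) x) fun x => ?_
    by_cases hx : x ∈ {x | V x ≤ n}
    · rw [indicator_of_mem hx]
      exact hx
    · rw [indicator_of_notMem hx]
      positivity
  obtain ⟨ψ, hψ⟩ := H.att p A V (by linarith) hA0.le hV ⟨hl0, hlt⟩ hBS
  obtain ⟨Ψ, hΨ⟩ := H.bdd lam hlI p A V ψ (by linarith) hA0.le hV hψ
  obtain ⟨c, hc0, hel⟩ := H.el1 lam hlI p A _ V Ψ (by linarith) hA0 hV (hadm lam hlI) hΨ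
    (Or.inl hP)
  have hbd := hapr p hp A ⟨hA0, hA.2.trans (min_le_left _ _)⟩ lam ⟨hl0, hlt⟩ c V Ψ hV hΨ hc0 hel
    fun L v hL hv hvA => by
      have := H.tent _ _ p A v L v (by linarith) (by linarith) hp0 (H.p1 lam hlI p A v (hP v)) hL hv
        le_rfl (by rw [finrank_eq e]; exact hvA)
      rwa [finrank_eq e] at this
  refine mainA' hc H (by linarith) hA0 hV hbd hopt ?_
  have : 3 * (d : ℝ) * (m / (4 * d)) = 3 / 4 * m := by field_simp
  linarith

/-- Passage from the norm to the integral of the power. -/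
theorem eLp_iff {p A : ℝ} (hp : 0 < p) (hA : 0 ≤ A) {V : E → ℝ} (h0 : ∀ x, 0 ≤ V x)
    (hV : MemLp V (ENNReal.ofReal p) volume) :
    Integrable (fun x => V x ^ p) volume ∧
      (eLpNorm V (ENNReal.ofReal p) volume = ENNReal.ofReal A ↔ ∫ x, V x ^ p = A ^ p) := by
  have hp1 : ENNReal.ofReal p ≠ 0 := by simpa using hp
  have e1 : ∀ x, ‖V x‖ = V x := fun x => Real.norm_of_nonneg (h0 x)
  have hi := hV.integrable_norm_rpow hp1 ENNReal.ofReal_ne_top
  have he := hV.eLpNorm_eq_integral_rpow_norm hp1 ENNReal.ofReal_ne_top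
  simp only [e1, ENNReal.toReal_ofReal hp.le] at hi he
  have hI : 0 ≤ ∫ x, V x ^ p := integral_nonneg fun x => Real.rpow_nonneg (h0 x) _
  refine ⟨hi, ?_⟩
  rw [he, ENNReal.ofReal_eq_ofReal_iff (Real.rpow_nonneg hI _) hA]
  constructor
  · intro h
    rw [← h, Real.rpow_inv_rpow hI hp.ne']
  · intro h
    rw [h, Real.rpow_rpow_inv hA hp.ne']

theorem memLp_of_potR {p A : ℝ} (hp : 0 < p) {W : E → ℝ} (h : PotR p A W) :
    MemLp W (ENNReal.ofReal p) volume := by
  have hp1 : ENNReal.ofReal p ≠ 0 := by simpa using hp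
  rw [← integrable_norm_rpow_iff h.meas.aestronglyMeasurable hp1 ENNReal.ofReal_ne_top]
  simpa only [Real.norm_of_nonneg (h.nonneg _), ENNReal.toReal_ofReal hp.le] using h.int

/-- A measurable version of an optimal potential. -/
theorem reduce {p A : ℝ} (hp : 0 < p) (hA : 0 < A) {V : E → ℝ} (hV : V ∈ Pot E p)
    (hn : eLpNorm V (ENNReal.ofReal p) volume = ENNReal.ofReal A)
    (hopt : ∀ W ∈ Pot E p, eLpNorm W (ENNReal.ofReal p) volume = ENNReal.ofReal A →
      lamD e α β m V ≤ lamD e α β m W) :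
    ∃ V' : E → ℝ, V =ᵐ[volume] V' ∧ PotR p A V' ∧ Opt e α β m p A (lamD e α β m V') := by
  have he : V =ᵐ[volume] fun x => max (hV.2.1.mk V x) 0 := by
    filter_upwards [hV.2.1.ae_eq_mk] with x hx
    rw [← hx, max_eq_left (hV.1 x)]
  have hl := hV.2.ae_eq he
  obtain ⟨h1, h2⟩ := eLp_iff hp hA.le (fun x => le_max_right _ _) hl
  refine ⟨_, he, ⟨hV.2.1.stronglyMeasurable_mk.measurable.max measurable_const,
    fun x => le_max_right _ _, h1, (h2.mp (by rw [← eLpNorm_congr_ae he, hn])).le⟩, ?_⟩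
  intro W hW hWA
  rw [← lamD_congr he]
  exact hopt W ⟨hW.nonneg, memLp_of_potR hp hW⟩
    ((eLp_iff hp hA.le hW.nonneg (memLp_of_potR hp hW)).2.mpr hWA)

theorem finalA (hc : Ctx α β m) (H : All e α β m) {p A M : ℝ} (hp : (d : ℝ) ≤ p) (hA : 0 < A)
    {V : E → ℝ} (hV : V ∈ Pot E p) (hn : eLpNorm V (ENNReal.ofReal p) volume = ENNReal.ofReal A)
    (hopt : ∀ W ∈ Pot E p, eLpNorm W (ENNReal.ofReal p) volume = ENNReal.ofReal A →
      lamD e α β m V ≤ lamD e α β m W)
    (hVM : ∀ᵐ x, V x ≤ M) (hM : 3 * d * M < m + lamD e α β m V) : Radial V := by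
  have hd : (2 : ℝ) ≤ d := by exact_mod_cast hc.two
  obtain ⟨V', he, h1, h2⟩ := reduce (by linarith) hA hV hn hopt
  rw [lamD_congr he] at hM
  obtain ⟨x₀, φ, h3, h4⟩ := mainA' hc H hp hA h1 (by
    filter_upwards [hVM, he] with x hx hx'
    rwa [← hx']) h2 hM
  exact ⟨x₀, φ, h3, he.trans h4⟩

theorem finalB (hc : Ctx α β m) (H : All e α β m) {p₀ : ℝ} (hp₀ : (d : ℝ) < p₀) :
    ∃ c : ℝ, 0 < c ∧ ∀ p, p₀ ≤ p → ∀ A, 0 < A → A ≤ c → ∀ V ∈ Pot E p,
      eLpNorm V (ENNReal.ofReal p) volume = ENNReal.ofReal A →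
      (∀ W ∈ Pot E p, eLpNorm W (ENNReal.ofReal p) volume = ENNReal.ofReal A →
        lamD e α β m V ≤ lamD e α β m W) → Radial V := by
  have hd : (2 : ℝ) ≤ d := by exact_mod_cast hc.two
  obtain ⟨c, hc0, h⟩ := mainB hc H hp₀
  refine ⟨c, hc0, fun p hp A hA hAc V hV hn hopt => ?_⟩
  obtain ⟨V', he, h1, h2⟩ := reduce (by linarith) hA hV hn hopt
  obtain ⟨x₀, φ, h3, h4⟩ := h p hp A ⟨hA, hAc⟩ V' h1 h2
  exact ⟨x₀, φ, h3, he.trans h4⟩

end Pool.Agent.MP_e4cac8_mp

end

section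

/-! The tent function as a test function of the scalar form. -/

open Set MeasureTheory Filter Topology Metric
open scoped ENNReal NNReal

namespace Pool.Agent.MP_e4cac8_mp

variable {E : Type} [NormedAddCommGroup E] [InnerProductSpace ℝ E] [FiniteDimensional ℝ E]
  [MeasurableSpace E] [BorelSpace E]

theorem Tent.vol {r : ℝ} (hr : 0 ≤ r) :
    (volume : Measure E).real (closedBall 0 r) = om E * r ^ Module.finrank ℝ E := by
  rw [om, Measure.real, Measure.real, Measure.addHaar_closedBall _ _ hr, ENNReal.toReal_mul,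
    ENNReal.toReal_ofReal (by positivity), mul_comm]

theorem Tent.int (r c : ℝ) : Integrable ((closedBall (0 : E) r).indicator fun _ => c) volume :=
  (integrableOn_const measure_closedBall_lt_top.ne).integrable_indicator measurableSet_closedBall

theorem Tent.integ {r : ℝ} (hr : 0 ≤ r) (c : ℝ) :
    ∫ x, (closedBall (0 : E) r).indicator (fun _ => c) x = om E * r ^ Module.finrank ℝ E * c := by
  rw [integral_indicator_const _ measurableSet_closedBall, Tent.vol hr, smul_eq_mul]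

theorem stTent (_hn : 2 ≤ Module.finrank ℝ E) : StTent E := by
  intro a b p A M L v ha hb hp hT hL hv hM hA
  rcases le_or_gt (v - b) 0 with h0 | h0
  · exact h0.trans (by positivity)
  have hom : 0 < om E :=
    ENNReal.toReal_pos (measure_ball_pos _ _ one_pos).ne' measure_ball_lt_top.ne
  set W : E → ℝ := (closedBall (0 : E) L).indicator fun _ => v with hW
  set f : E → ℝ := fun x => max (L - ‖x‖) 0 with hf
  have hWp : (fun x => W x ^ p) = (closedBall (0 : E) L).indicator fun _ => v ^ p := by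
    ext x
    by_cases h : x ∈ closedBall (0 : E) L
    · simp [hW, h]
    · simp [hW, h, hp.ne']
  have hWm : Measurable W := measurable_const.indicator measurableSet_closedBall
  have hP : PotR p A W := ⟨hWm, fun x => indicator_nonneg (fun _ _ => hv) x,
    hWp ▸ Tent.int L _, by rw [hWp, Tent.integ hL.le, mul_comm]; exact hA⟩
  have hlip : LipschitzWith 1 f := by
    refine LipschitzWith.max_const (LipschitzWith.mk_one fun x y => ?_) 0
    rw [dist_sub_left]
    exact dist_norm_norm_le x y |>.trans (dist_eq_norm x y).ge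
  have hz : ∀ x, x ∉ closedBall (0 : E) L → f x = 0 := fun x hx =>
    max_eq_right (by rw [mem_closedBall_zero_iff, not_le] at hx; linarith)
  have hd : ∀ x, x ∉ closedBall (0 : E) L → fderiv ℝ f x = 0 := fun x hx => by
    have : f =ᶠ[𝓝 x] fun _ => 0 :=
      Filter.mem_of_superset (isClosed_closedBall.isOpen_compl.mem_nhds hx) hz
    rw [this.fderiv_eq, fderiv_fun_const]
    rfl
  have h1 : ∀ x, 0 ≤ ‖fderiv ℝ f x‖ ^ 2 / (a + v) ∧ ‖fderiv ℝ f x‖ ^ 2 / (a + v) ≤ 1 / a :=
    fun x => ⟨by positivity, by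
      have : ‖fderiv ℝ f x‖ ≤ 1 := norm_fderiv_le_of_lipschitz ℝ hlip
      exact div_le_div₀ zero_le_one (pow_le_one₀ (norm_nonneg _) this) ha (by linarith)⟩
  have h2 : ∀ x, 0 ≤ f x ∧ f x ≤ L := fun x =>
    ⟨le_max_right _ _, max_le (by linarith [norm_nonneg x]) hL.le⟩
  have key := hT W f hP (fun x => indicator_apply_le' (fun _ => hM) fun _ => hv.trans hM) ⟨1, hlip⟩
    (HasCompactSupport.intro (isCompact_closedBall 0 L) hz)
  have hi : Integrable (fun x => ‖fderiv ℝ f x‖ ^ 2 / (a + W x) - (W x - b) * f x ^ 2) volume := by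
    refine (Tent.int L (1 / a + (v - b) * L ^ 2)).mono' ?_ (.of_forall fun x => ?_)
    · exact ((((measurable_fderiv ℝ f).norm.pow_const 2).div (hWm.const_add a)).sub
        ((hWm.sub_const b).mul (hlip.continuous.measurable.pow_const 2))).aestronglyMeasurable
    · by_cases h : x ∈ closedBall (0 : E) L
      · rw [hW, indicator_of_mem h, indicator_of_mem h, Real.norm_eq_abs, abs_le]
        have e1 := mul_le_mul_of_nonneg_left (pow_le_pow_left₀ (h2 x).1 (h2 x).2 2) h0.le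
        have e2 : 0 ≤ (v - b) * f x ^ 2 := by positivity
        have e3 : 0 ≤ 1 / a := by positivity
        constructor <;> linarith [(h1 x).1, (h1 x).2]
      · simp [hz x h, hd x h, h]
  have hle := key.trans (integral_mono hi
    ((Tent.int L (1 / a)).sub (Tent.int (L / 2) ((v - b) * (L / 2) ^ 2))) fun x => by
      by_cases h : x ∈ closedBall (0 : E) L
      · simp only [hW, indicator_of_mem h, Pi.sub_apply]
        refine sub_le_sub (h1 x).2 (indicator_apply_le' (fun h' => ?_) fun _ => by positivity)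
        rw [mem_closedBall_zero_iff] at h'
        exact mul_le_mul_of_nonneg_left
          (pow_le_pow_left₀ (by positivity) (le_max_of_le_left (by linarith)) 2) h0.le
      · have h' : x ∉ closedBall (0 : E) (L / 2) := fun h' =>
          h (closedBall_subset_closedBall (by linarith) h')
        simp [hz x h, hd x h, h, h'])
  simp only [Pi.sub_apply] at hle
  rw [integral_sub (Tent.int _ _) (Tent.int _ _), Tent.integ hL.le, Tent.integ (half_pos hL).le,
    div_pow, div_pow] at hle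
  have e : om E * L ^ Module.finrank ℝ E * (1 / a) -
      om E * (L ^ Module.finrank ℝ E / 2 ^ Module.finrank ℝ E) * ((v - b) * (L ^ 2 / 2 ^ 2)) =
      (om E * L ^ Module.finrank ℝ E * L ^ 2 / 2 ^ (Module.finrank ℝ E + 2)) *
        (2 ^ (Module.finrank ℝ E + 2) / (a * L ^ 2) - (v - b)) := by
    rw [pow_add]
    field_simp
  rw [e] at hle
  exact sub_nonneg.1 (nonneg_of_mul_nonneg_right hle (by positivity))

end Pool.Agent.MP_e4cac8_mp

end
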