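import Pool.Agent.Mg.Fe4cac8.G97a2a0
import Pool.Agent.Mg.Fe4cac8.G3c6d1e
import Pool.Agent.Mg.Fe4cac8.G6cf094

set_option linter.all false

section

/-! Interfaces for the symmetry theorem at large exponents. -/

open Set MeasureTheory Filter Topology
open scoped ENNReal NNReal
open Pool.Agent.MP_0b7119_mp.G

namespace Pool.Agent.MP_e4cac8_mp

/-- The comparison potential with capped slope. -/
noncomputable def Vc (p a M Λ y t : ℝ) : ℝ :=
  min (Vm p a M y t) (min M (((1 + Λ ^ 2) * t ^ 2) ^ (p - 1)⁻¹))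

/-- The capped lower component. -/
noncomputable def wc (p a M Λ y t : ℝ) : ℝ := min (|y| / (a + Vc p a M Λ y t)) (Λ * |t|)

/-- The pointwise defect for a comparison pair `U`, `w`. -/
noncomputable def Xc (p a t V U w A g P n q : ℝ) : ℝ :=
  (g ^ 2 + 2 * P + n) / (a + V) - V * t ^ 2 + V ^ p / p -
    (-(w ^ 2 * (a + U)) - U * t ^ 2 + U ^ p / p) - A * (n - q) - 2 * P / (a + U) - 2 * w * g

/-- The radial form with capped slope is nonnegative, and vanishes only if the cap is not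
active. -/
def StCap : Prop :=
  ∀ (k : ℕ) (c a b p A M μ Λ : ℝ) (v φ : ℝ → ℝ), 1 ≤ k → 0 < a → 0 ≤ b → 1 ≤ μ → a + M ≤ μ * a →
    b ≤ μ * a → 4 * μ ≤ Λ → TR k c a b p A M → Measurable v → (∀ r, 0 ≤ v r ∧ v r ≤ M) →
    IntegrableOn (fun r => v r ^ p * r ^ k) (Ioi 0) volume →
    c * ∫ r in Ioi (0 : ℝ), v r ^ p * r ^ k ≤ A ^ p → Antitone φ → (∃ L, LipschitzWith L φ) →
    (∀ r, 0 ≤ φ r) → IntegrableOn (fun r => φ r ^ 2 * r ^ k) (Ioi 0) volume →
    IntegrableOn (fun r => deriv φ r ^ 2 * r ^ k) (Ioi 0) volume →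
    ∀ w : ℝ → ℝ, (∀ r, w r = min (|deriv φ r| / (a + v r)) (Λ * φ r)) →
    0 ≤ ∫ r in Ioi (0 : ℝ),
        (2 * w r * |deriv φ r| - (a + v r) * w r ^ 2 - (v r - b) * φ r ^ 2) * r ^ k ∧
      (∫ r in Ioi (0 : ℝ),
        (2 * w r * |deriv φ r| - (a + v r) * w r ^ 2 - (v r - b) * φ r ^ 2) * r ^ k ≤ 0 →
        ∀ᵐ r : ℝ, 0 < r → |deriv φ r| ≤ Λ * φ r * (a + v r))

/-- The tent function supported where the potential is. -/
def StTent2 (E : Type) [NormedAddCommGroup E] [InnerProductSpace ℝ E] [FiniteDimensional ℝ E]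
    [MeasurableSpace E] [BorelSpace E] : Prop :=
  ∀ a b p A M L v : ℝ, 0 < a → 0 < p → TP E a b p A M → 0 < L → 0 ≤ v → v ≤ M →
    v ^ p * (om E * L ^ Module.finrank ℝ E) ≤ A ^ p →
    (v - b) * (a + v) * L ^ 2 ≤ 2 ^ (Module.finrank ℝ E + 2)

section spinor

variable {E S : Type} [NormedAddCommGroup E] [InnerProductSpace ℝ E] [FiniteDimensional ℝ E]
  [MeasurableSpace E] [BorelSpace E] [NormedAddCommGroup S] [InnerProductSpace ℂ S]
  [CompleteSpace S] [FiniteDimensional ℂ S] {d : ℕ}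

/-- Upper and lower spinor of a normalised solution of the nonlinear equation. -/
structure Pair (e : Fin d → E) (α : Fin d → S →L[ℂ] S) (a b p : ℝ) (V : E → ℝ) (u w : E → S) :
    Prop where
  ru : Reg e u
  rw : Reg e w
  zu : ∀ᵐ x, Zf e α u x = Complex.I • ((a + V x : ℝ) : ℂ) • w x
  zw : ∀ᵐ x, Zf e α w x = Complex.I • ((V x - b : ℝ) : ℂ) • u x
  el : ∀ᵐ x, V x ^ (p - 1) = ‖u x‖ ^ 2 + ‖w x‖ ^ 2

/-- The regularised share of the upper spinor. -/
noncomputable def zr (σ : ℝ) (u w : E → S) (x : E) : ℝ :=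
  (‖u x‖ ^ 2 + σ) / (‖u x‖ ^ 2 + ‖w x‖ ^ 2 + σ)

/-- The set where the upper spinor is small but not zero. -/
def Low (c : ℝ) (u w : E → S) : Set E :=
  {x | 0 < ‖u x‖ ∧ ‖u x‖ ^ 2 ≤ c * (‖u x‖ ^ 2 + ‖w x‖ ^ 2)}

variable (e : OrthonormalBasis (Fin d) ℝ E) (α : Fin d → S →L[ℂ] S) (β : S →L[ℂ] S) (m : ℝ)

/-- Both spinors of a bounded solution of the nonlinear equation. -/
def StStr3 : Prop :=
  ∀ l ∈ Ioo (-m) m, ∀ (p M c : ℝ) (V : E → ℝ) (ψ : E → S), 2 ≤ p → 0 < c → Measurable V →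
    (∀ x, 0 ≤ V x ∧ V x ≤ M) → FixB (rk e α β m l) V ψ →
    (∀ᵐ x, V x ^ (p - 1) = c * ‖ψ x‖ ^ 2) →
    ∃ u w : E → S, Strong e α (m + l) (m - l) V u ∧ Pair e α (m + l) (m - l) p V u w

/-- Caccioppoli inequality for the lower spinor where the upper spinor is small. -/
def StNBw : Prop :=
  ∃ C : ℝ, 1 ≤ C ∧ ∀ (a b p M μ c σ : ℝ) (V : E → ℝ) (u w : E → S), 0 < a → 0 ≤ b → 1 ≤ μ →
    a + M ≤ μ * a → b ≤ μ * a → Measurable V → (∀ x, 0 ≤ V x ∧ V x ≤ M) → Pair e α a b p V u w →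
    0 < c → 2 * c ≤ 1 → 0 < σ →
    ∫ x, max (1 - zr σ u w x / c) 0 ^ 2 * G2 e w x ≤
      C * (1 / c + μ ^ 2) * ∫ x in Low c u w, G2 e u x

/-- The set where the upper spinor is very small carries a small share of the energy. -/
def StNB : Prop :=
  ∃ C : ℝ, 1 ≤ C ∧ ∀ (a b p M μ c ε : ℝ) (V : E → ℝ) (u w : E → S), 2 ≤ p → 0 < a → 0 ≤ b → 1 ≤ μ →
    a + M ≤ μ * a → b ≤ μ * a → Measurable V → (∀ x, 0 ≤ V x ∧ V x ≤ M) → Pair e α a b p V u w →
    0 < ε → 2 * ε ≤ c → 2 * c ≤ 1 →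
    ∫ x in Low ε u w, qf e u x ≤ C * √ε * (1 / c + μ ^ 2) * ∫ x in Low c u w, G2 e u x

/-- The exponent is large with respect to the ratio `μ`. -/
def Big (D p μ C : ℝ) : Prop :=
  16 * D + 1 ≤ p ∧ (1 + 16 * μ ^ 2) ^ (p - 1)⁻¹ * ((p - 1) / (p - 2)) ≤ 1 + 1 / (8 * D) ∧
    C * μ ^ 14 ≤ (1 + 1 / (2 * D)) ^ (p - 1)

/-- The comparison with the rearrangement at large exponents. -/
def StCmp3 : Prop :=
  ∃ C : ℝ, 0 < C ∧ ∀ (a b p A M₀ M μ : ℝ) (V : E → ℝ) (u w : E → S) (L : ℝ≥0) (φ y : ℝ → ℝ),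
    0 < a → 0 < b → 0 ≤ M₀ → M₀ < M → 1 ≤ μ → a + M ≤ μ * a → b ≤ μ * a → Big d p μ C →
    PotR p A V → (∀ x, V x ≤ M₀) → Strong e α a b V u → Pair e α a b p V u w →
    TR (Module.finrank ℝ E - 1) (Module.finrank ℝ E * om E) a b p A M →
    Rearr L (fun x => ‖u x‖) φ y →
    ∃ s : ℝ, 0 < s ∧ Prof (Module.finrank ℝ E - 1) (Module.finrank ℝ E * om E) a b p A M s φ ∧
      (∀ᵐ x, u x ≠ 0 → V x = Vm p a M (s * y ‖u x‖) (s * ‖u x‖) ∧ gf u x = y ‖u x‖) ∧
      ∀ᵐ x, u x = 0 → V x = 0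

end spinor

end Pool.Agent.MP_e4cac8_mp

end

section

/-! Calculus for the share of the upper spinor and the weights built from it. -/

open Set MeasureTheory Filter Topology
open scoped ENNReal NNReal
open Pool.Agent.MP_0b7119_mp.G

namespace Pool.Agent.MP_e4cac8_mp.NB

set_option linter.unusedSectionVars false

variable {E S : Type} [NormedAddCommGroup E] [InnerProductSpace ℝ E] [FiniteDimensional ℝ E]
  [MeasurableSpace E] [BorelSpace E] [NormedAddCommGroup S] [InnerProductSpace ℂ S]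
  [CompleteSpace S] [FiniteDimensional ℂ S] {d : ℕ}
  {e : OrthonormalBasis (Fin d) ℝ E} {α : Fin d → S →L[ℂ] S} {β : S →L[ℂ] S} {m : ℝ}
  {u w : E → S} {σ c ε : ℝ}

theorem d_max (t : ℝ) : HasDerivAt (fun s : ℝ => max s 0 ^ 2) (2 * max t 0) t := by
  refine hasDerivAt_of_hasDerivAt_of_ne' (x := 0) (g := fun t => 2 * max t 0) (fun y hy => ?_)
    (by fun_prop) (by fun_prop) t
  rcases hy.lt_or_gt with h | h
  · rw [max_eq_right h.le, mul_zero]
    refine (hasDerivAt_const y (0 : ℝ)).congr_of_eventuallyEq ?_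
    filter_upwards [gt_mem_nhds h] with s hs
    rw [max_eq_right hs.le, zero_pow two_ne_zero]
  · rw [max_eq_left h.le]
    refine ((hasDerivAt_pow 2 y).congr_deriv (by simp)).congr_of_eventuallyEq ?_
    filter_upwards [lt_mem_nhds h] with s hs
    rw [max_eq_left hs.le]

theorem c_max : ContDiff ℝ 1 fun s : ℝ => max s 0 ^ 2 :=
  contDiff_one_iff_deriv.mpr ⟨fun t => (d_max t).differentiableAt, by
    rw [show deriv (fun s : ℝ => max s 0 ^ 2) = fun t => 2 * max t 0 from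
      funext fun t => (d_max t).deriv]
    fun_prop⟩

theorem dsq {x : E} (hu : DifferentiableAt ℝ u x) (v : E) :
    fderiv ℝ (fun y => ‖u y‖ ^ 2) x v = 2 * (inner ℂ (u x) (fderiv ℝ u x v)).re := by
  have h2 : (fun y => ‖u y‖ ^ 2) = Complex.reCLM ∘ fun y => inner ℂ (u y) (u y) := by
    ext y
    exact (inner_self_eq_norm_sq (𝕜 := ℂ) (u y)).symm
  have h4 : (inner ℂ (fderiv ℝ u x v) (u x)).re = (inner ℂ (u x) (fderiv ℝ u x v)).re :=
    inner_re_symm (𝕜 := ℂ) _ _
  rw [h2, fderiv_comp x Complex.reCLM.differentiableAt (hu.inner ℂ hu), ContinuousLinearMap.fderiv,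
    ContinuousLinearMap.comp_apply, fderiv_inner_apply ℂ hu hu v, Complex.reCLM_apply,
    Complex.add_re, h4, two_mul]

theorem zr_pos (hσ : 0 < σ) (x : E) : 0 < zr σ u w x := by
  unfold zr
  positivity

theorem c_zr (hσ : 0 < σ) (hu : ContDiff ℝ 1 u) (hw : ContDiff ℝ 1 w) :
    ContDiff ℝ 1 (zr σ u w) :=
  ((hu.norm_sq ℂ).add contDiff_const).div (((hu.norm_sq ℂ).add (hw.norm_sq ℂ)).add contDiff_const)
    fun x => by positivity

theorem d_zr (hσ : 0 < σ) {x : E} (hu : DifferentiableAt ℝ u x) (hw : DifferentiableAt ℝ w x)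
    (v : E) : fderiv ℝ (zr σ u w) x v =
      2 * (‖w x‖ ^ 2 * (inner ℂ (u x) (fderiv ℝ u x v)).re -
        (‖u x‖ ^ 2 + σ) * (inner ℂ (w x) (fderiv ℝ w x v)).re) / (‖u x‖ ^ 2 + ‖w x‖ ^ 2 + σ) ^ 2 := by
  have h1 := (hu.norm_sq ℂ).hasFDerivAt
  have h2 := (hw.norm_sq ℂ).hasFDerivAt
  have hn : ‖u x‖ ^ 2 + ‖w x‖ ^ 2 + σ ≠ 0 := by positivity
  have h3 : HasFDerivAt (zr σ u w) _ x := (h1.add_const σ).fun_mul
    ((hasDerivAt_inv hn).comp_hasFDerivAt x ((h1.fun_add h2).add_const σ))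
  rw [h3.fderiv]
  simp only [add_apply, smul_apply, smul_eq_mul, dsq hu, dsq hw]
  field_simp
  ring

/-- A compact set outside which the share is large. -/
theorem far (hσ : 0 < σ) (hu : Reg e u) (hw : Reg e w) :
    ∃ K : Set E, IsCompact K ∧ ∀ x ∉ K, 1 / 2 ≤ zr σ u w x := by
  obtain ⟨L, hL⟩ := hu.lip
  obtain ⟨L', hL'⟩ := hw.lip
  have ht : 0 < √σ / 2 := by positivity
  refine ⟨_, ((Alg.bdd hL hu.l2 ht).union (Alg.bdd hL' hw.l2 ht)).isCompact_closure,
    fun x hx => ?_⟩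
  have h1 : ‖w x‖ < √σ / 2 := not_le.mp fun h => hx (subset_closure (Or.inr h))
  have h2 := pow_le_pow_left₀ (norm_nonneg _) h1.le 2
  rw [div_pow, Real.sq_sqrt hσ.le] at h2
  rw [zr, le_div_iff₀ (by positivity)]
  nlinarith [sq_nonneg ‖u x‖]

theorem nl_int {η : E → ℝ} (hu : ContDiff ℝ 1 u) (hη : ContDiff ℝ 1 η) (hc : HasCompactSupport η) :
    Integrable (fun x => η x * (‖Zf e α u x‖ ^ 2 - G2 e u x) +
      ((inner ℂ (∑ j, ((fderiv ℝ η x (e j) : ℝ) : ℂ) • α j (u x)) (Zf e α u x)).re -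
        ∑ j, fderiv ℝ η x (e j) * (inner ℂ (u x) (fderiv ℝ u x (e j))).re)) volume := by
  have hG : Continuous (G2 e u) := continuous_finsetSum _ fun j _ => (Str.cont_d hu _).norm.pow 2
  refine Continuous.integrable_of_hasCompactSupport
    ((hη.continuous.mul (((Str.cont_Z hu).norm.pow 2).sub hG)).add
      ((Complex.continuous_re.comp ((continuous_finsetSum _ fun j _ =>
        (Complex.continuous_ofReal.comp (Str.cont_d hη _)).smul
          ((α j).continuous.comp hu.continuous)).inner (Str.cont_Z hu))).sub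
        (continuous_finsetSum _ fun j _ => (Str.cont_d hη _).mul
          (Complex.continuous_re.comp (hu.continuous.inner (Str.cont_d hu _))))))
    (HasCompactSupport.intro hc fun x hx => ?_)
  have h1 : fderiv ℝ η x = 0 := by
    by_contra h
    exact hx (support_fderiv_subset ℝ h)
  simp [h1, image_eq_zero_of_notMem_tsupport hx]

/-- The weight as a function of the share. -/
noncomputable def th (ε c s : ℝ) : ℝ := √ε / √(s + ε) * max (1 - s / c) 0 ^ 2

/-- Minus the derivative of the weight. -/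
noncomputable def ka (ε c s : ℝ) : ℝ :=
  √ε / √(s + ε) * (max (1 - s / c) 0 ^ 2 / (2 * (s + ε)) + 2 * max (1 - s / c) 0 / c)

theorem d_th {s : ℝ} (h : 0 < s + ε) : HasDerivAt (th ε c) (-ka ε c s) s := by
  have h0 : 0 < √(s + ε) := Real.sqrt_pos.mpr h
  have h1 := (hasDerivAt_const s √ε).fun_div (((hasDerivAt_id' s).add_const ε).sqrt h.ne') h0.ne'
  have h2 := (d_max (1 - s / c)).comp s (((hasDerivAt_id' s).div_const c).const_sub 1)
  refine (h1.fun_mul h2).congr_deriv ?_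
  simp only [ka, Function.comp_apply, Real.sq_sqrt h.le]
  field_simp
  ring

theorem c_th (hε : 0 < ε) (hσ : 0 < σ) (hu : ContDiff ℝ 1 u) (hw : ContDiff ℝ 1 w) :
    ContDiff ℝ 1 fun x => th ε c (zr σ u w x) := by
  have hz := c_zr hσ hu hw
  have h0 : ∀ x, 0 < zr σ u w x + ε := fun x => add_pos (zr_pos hσ x) hε
  exact (contDiff_const.div ((hz.add contDiff_const).sqrt fun x => (h0 x).ne')
    fun x => (Real.sqrt_pos.mpr (h0 x)).ne').mul
    (c_max.comp (contDiff_const.sub (hz.div_const c)))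

theorem th_zero (hc : 0 < c) {s : ℝ} (h : c ≤ s) : th ε c s = 0 ∧ ka ε c s = 0 := by
  have : max (1 - s / c) 0 = 0 := max_eq_right (sub_nonpos.mpr ((one_le_div hc).mpr h))
  simp [th, ka, this]

/-- The three bounds for the weight. -/
theorem th_bd (hε : 0 < ε) (hc : 0 < c) (hc2 : 2 * c ≤ 1) {t o n z : ℝ} (ht : 0 ≤ t) (ho : 0 ≤ o)
    (hn : 0 < n) (hz : 0 < z) (hzc : z < c) (h1 : t ^ 2 ≤ z * n) (h2 : o ^ 2 ≤ n)
    (h3 : n ≤ 2 * o ^ 2) :
    -(4 * √ε / c) ≤ th ε c z - 2 * z * ka ε c z ∧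
      ka ε c z * z * (o * t / n) ≤ 5 / 2 * √ε * max (1 - z / c) 0 ∧
      th ε c z * t ≤ 2 * √ε * max (1 - z / c) 0 ^ 2 * o := by
  unfold th ka
  have x0 : 0 ≤ max (1 - z / c) 0 := le_max_right _ _
  have x1 : max (1 - z / c) 0 ≤ 1 := max_le (sub_le_self _ (by positivity)) zero_le_one
  generalize max (1 - z / c) 0 = χ at x0 x1
  have d0 : 0 < √ε := Real.sqrt_pos.mpr hε
  have k0 : 0 < √(z + ε) := Real.sqrt_pos.mpr (by positivity)
  have k1 : √(z + ε) ^ 2 = z + ε := Real.sq_sqrt (by positivity)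
  generalize √(z + ε) = k at k0 k1
  generalize √ε = δ at d0
  have a1 : z ≤ k := by
    refine le_of_pow_le_pow_left₀ two_ne_zero k0.le ?_
    nlinarith
  have a2 : o * t / n ≤ k := by
    rw [div_le_iff₀ hn]
    refine le_of_pow_le_pow_left₀ two_ne_zero (by positivity) ?_
    have := mul_le_mul h2 h1 (sq_nonneg _) hn.le
    nlinarith [mul_pos hε (mul_pos hn hn)]
  have a3 : t ≤ 2 * o * k := by
    refine le_of_pow_le_pow_left₀ two_ne_zero (by positivity) ?_
    have := mul_le_mul_of_nonneg_left h3 hz.le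
    nlinarith [mul_nonneg hε.le (sq_nonneg o), mul_nonneg hz.le (sq_nonneg o)]
  have b1 : z / (z + ε) ≤ 1 := (div_le_one (by positivity)).mpr (by linarith)
  have b2 : z / k ≤ 1 := (div_le_one k0).mpr a1
  have b3 : z / c ≤ 1 := (div_le_one hc).mpr hzc.le
  refine ⟨?_, ?_, ?_⟩
  · have e1 : δ / k * χ ^ 2 - 2 * z * (δ / k * (χ ^ 2 / (2 * (z + ε)) + 2 * χ / c)) =
        δ / k * χ ^ 2 * (1 - z / (z + ε)) - 4 * δ / c * (z / k * χ) := by
      field_simp
      ring
    have c1 : 0 ≤ δ / k * χ ^ 2 * (1 - z / (z + ε)) := mul_nonneg (by positivity) (by linarith)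
    have c2 : 4 * δ / c * (z / k * χ) ≤ 4 * δ / c :=
      mul_le_of_le_one_right (by positivity) (mul_le_one₀ b2 x0 x1)
    linarith
  · have e1 : δ / k * (χ ^ 2 / (2 * (z + ε)) + 2 * χ / c) * z * k =
        δ * χ * (χ * (z / (z + ε)) / 2 + 2 * (z / c)) := by
      field_simp
    have c1 : χ * (z / (z + ε)) ≤ 1 := mul_le_one₀ x1 (by positivity) b1
    refine (mul_le_mul_of_nonneg_left a2 (by positivity)).trans ?_
    rw [e1]
    nlinarith [mul_nonneg d0.le x0]
  · refine (mul_le_mul_of_nonneg_left a3 (by positivity)).trans (le_of_eq ?_)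
    field_simp

end Pool.Agent.MP_e4cac8_mp.NB

end

section

/-! Both spinors of a bounded solution of the nonlinear equation. -/

open Set MeasureTheory Filter Topology
open scoped ENNReal NNReal SchwartzMap ContDiff
open Pool.Agent.MP_0b7119_mp.G

namespace Pool.Agent.MP_e4cac8_mp

set_option linter.unusedSectionVars false

variable {E S : Type} [NormedAddCommGroup E] [InnerProductSpace ℝ E] [FiniteDimensional ℝ E]
  [MeasurableSpace E] [BorelSpace E] [NormedAddCommGroup S] [InnerProductSpace ℂ S]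
  [CompleteSpace S] [FiniteDimensional ℂ S] {d : ℕ}
  {e : OrthonormalBasis (Fin d) ℝ E} {α : Fin d → S →L[ℂ] S} {β : S →L[ℂ] S} {m : ℝ}

open Str in
theorem Str3.one (hc : Ctx α β m) (h0 : StNL0 e α) (h1 : StReg1 e α β m)
    (h2 : StReg2 e α β m) (hK : StK e α β m) {l p M : ℝ} (hl : l ∈ Ioo (-m) m) {V : E → ℝ}
    {ψ : E → S} (hp : 2 ≤ p) (hV : Measurable V) (hM : ∀ x, 0 ≤ V x ∧ V x ≤ M)
    (hF : FixB (rk e α β m l) V ψ) (hE : ∀ᵐ x, V x ^ (p - 1) = 1 * ‖ψ x‖ ^ 2) :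
    ∃ u w : E → S, Strong e α (m + l) (m - l) V u ∧ Pair e α (m + l) (m - l) p V u w := by
  have h := hc.rep
  obtain ⟨c1, L, hL⟩ := reg h1 h2 hl hp one_pos hV hM hF hE
  have hw := (hK l hl V _ ψ hV (fun x => (hM x).1) (adm_of_bdd hV (fun x => (hM x).1)
    (fun x => (hM x).2) (integrable_rk h e hl).norm fun _ => norm_nonneg _) hF.fix.l2
    hF.fix.intV).mpr hF.fix.eq
  have m1 : MemLp (fun x => ((V x + l : ℝ) : ℂ) • ψ x) 2 volume :=
    MemLp.of_le_mul (c := M + |l|) hF.fix.l2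
      ((Complex.measurable_ofReal.comp (hV.add_const l)).aestronglyMeasurable.smul hF.fix.l2.1)
      (Eventually.of_forall fun x => by
        rw [norm_smul, Complex.norm_real]
        refine mul_le_mul_of_nonneg_right ((abs_add_le _ _).trans ?_) (norm_nonneg _)
        rw [abs_of_nonneg (hM x).1]
        linarith [(hM x).2])
  have hs := strong_eq h c1 (m1.locallyIntegrable one_le_two) hw
  have m2 : MemLp (Zf e α ψ) 2 volume :=
    (memLp_congr_ae hs).mpr
      ((m1.sub ((β.comp_memLp' hF.fix.l2).const_smul (m : ℂ))).const_smul Complex.I)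
  have hG := cacc h h0 c1 (JD.int_sq hF.fix.l2) (JD.int_sq m2)
  have hψ : H1 e ψ := ⟨c1, hF.fix.l2, fun j => by
    rw [memLp_two_iff_integrable_sq_norm (cont_d c1 _).aestronglyMeasurable]
    refine hG.mono' ((cont_d c1 _).norm.pow 2).aestronglyMeasurable
      (Eventually.of_forall fun x => ?_)
    rw [Real.norm_of_nonneg (sq_nonneg _)]
    exact Finset.single_le_sum (f := fun j => ‖fderiv ℝ ψ x (e j)‖ ^ 2) (fun j _ => sq_nonneg _)
      (Finset.mem_univ j)⟩
  have ab : ∀ j ξ, α j (β ξ) = -β (α j ξ) := fun j ξ => by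
    simpa only [cl_basis] using cl_β_apply h e (e j) ξ
  set P : S →L[ℂ] S := (2⁻¹ : ℂ) • (1 + β) with hP
  set Q : S →L[ℂ] S := (2⁻¹ : ℂ) • (1 - β) with hQ
  have pP : ∀ ξ, P ξ = (2⁻¹ : ℂ) • (ξ + β ξ) := fun ξ => rfl
  have pQ : ∀ ξ, Q ξ = (2⁻¹ : ℂ) • (ξ - β ξ) := fun ξ => rfl
  have hu := hψ.map P
  have hv := hψ.map Q
  have ha : ∀ x, 0 < m + l + V x := fun x => by linarith [(hM x).1, hl.1]
  have zu : ∀ᵐ x, Zf e α (fun x => P (ψ x)) x =
      Complex.I • ((m + l + V x : ℝ) : ℂ) • Q (ψ x) := by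
    filter_upwards [hs] with x hx
    rw [Z_map hψ (T' := Q) (fun j ξ => by rw [pP, pQ, map_smul, map_add, ab, sub_eq_add_neg]), hx]
    simp only [pQ, map_smul, map_sub, β_β h]
    push_cast
    module
  have zv : ∀ᵐ x, Zf e α (fun x => Q (ψ x)) x =
      Complex.I • ((V x - (m - l) : ℝ) : ℂ) • P (ψ x) := by
    filter_upwards [hs] with x hx
    rw [Z_map hψ (T' := P) (fun j ξ => by rw [pP, pQ, map_smul, map_sub, ab, sub_neg_eq_add]), hx]
    simp only [pP, map_smul, map_sub, β_β h]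
    push_cast
    module
  have z0 : ∀ᵐ x, P (ψ x) = 0 → Zf e α (fun x => P (ψ x)) x = 0 → ψ x = 0 := by
    filter_upwards [zu] with x hx a1 a2
    rw [hx, smul_eq_zero, or_iff_right Complex.I_ne_zero, smul_eq_zero,
      or_iff_right (Complex.ofReal_ne_zero.mpr (ha x).ne')] at a2
    have : ψ x = P (ψ x) + Q (ψ x) := by
      rw [pP, pQ]
      module
    rw [this, a1, a2, add_zero]
  have hL0 : 0 ≤ L := (norm_nonneg _).trans (hL 0)
  have rg : ∀ T : S →L[ℂ] S, Reg e fun x => T (ψ x) := fun T =>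
    ⟨(hψ.map T).c1, ⟨_, T.lipschitz.comp (lipschitzWith_of_nnnorm_fderiv_le
      (C := ⟨L, hL0⟩) (c1.differentiable one_ne_zero) hL)⟩, (hψ.map T).l2,
      integrable_finsetSum _ fun j _ => JD.int_sq ((hψ.map T).dl2 j)⟩
  refine ⟨fun x => P (ψ x), fun x => Q (ψ x), ⟨rg P, ?_, ?_, ?_⟩, rg P, rg Q, zu, zv, ?_⟩
  · by_contra hn
    push Not at hn
    refine hF.fix.ne ?_
    filter_upwards [z0] with x hx
    refine hx (hn x) ?_
    simp [Zf, hn]
  · obtain ⟨i1, i2⟩ := ibp (e := e) h hv.c1 hu.c1 (hv.l2.norm.integrable_mul hu.l2.norm)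
      (fun j => (hv.dl2 j).norm.integrable_mul hu.l2.norm)
      fun j => hv.l2.norm.integrable_mul (hu.dl2 j).norm
    have i3 := integral_im (𝕜 := ℂ) i1
    rw [i2, map_zero] at i3
    refine (Eq.trans (integral_congr_ae ?_) i3).le
    filter_upwards [zu, zv] with x a1 a2
    rw [a1, a2]
    have n1 : ∀ ξ : S, inner ℂ ξ ξ = ((‖ξ‖ ^ 2 : ℝ) : ℂ) := fun ξ => by
      rw [inner_self_eq_norm_sq_to_K]
      simp
    simp only [inner_smul_left, inner_smul_right, n1, norm_smul, Complex.norm_I, one_mul,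
      Complex.norm_real, Real.norm_of_nonneg (ha x).le, Complex.conj_I, Complex.conj_ofReal,
      RCLike.im_to_complex, Complex.add_im, neg_mul, Complex.neg_im, Complex.I_mul_im,
      Complex.re_ofReal_mul, Complex.ofReal_re]
    have := (ha x).ne'
    field_simp
    ring
  · filter_upwards [z0, hE] with x a1 a2 b1 b2
    rw [a1 b1 b2, norm_zero, zero_pow two_ne_zero, mul_zero,
      Real.rpow_eq_zero_iff_of_nonneg (hM x).1] at a2
    exact a2.1
  · filter_upwards [hE] with x hx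
    have h3 := parallelogram_law_with_norm ℂ (ψ x) (β (ψ x))
    rw [norm_β_apply h] at h3
    rw [hx, pP, pQ, norm_smul, norm_smul, norm_inv, Complex.norm_ofNat]
    linarith

theorem stStr3 (hc : Ctx α β m) (h0 : StNL0 e α) (h1 : StReg1 e α β m)
    (h2 : StReg2 e α β m) (hK : StK e α β m) : StStr3 e α β m := by
  intro l hl p M c V ψ hp hc0 hV hM hF hE
  have hs : ((√c : ℝ) : ℂ) ≠ 0 := Complex.ofReal_ne_zero.mpr (Real.sqrt_pos.mpr hc0).ne'
  have e1 : ∀ x, ‖((√c : ℝ) : ℂ) • ψ x‖ ^ 2 = c * ‖ψ x‖ ^ 2 := fun x => by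
    rw [norm_smul, mul_pow, Complex.norm_real, Real.norm_eq_abs, sq_abs, Real.sq_sqrt hc0.le]
  have e2 : ∀ x, ((√c : ℝ) : ℂ) • ψ x =
      Rop (rk e α β m l) V (fun x => ((√c : ℝ) : ℂ) • ψ x) x := fun x => by
    rw [hF.eq x, Rop, Rop, ← integral_smul]
    simp only [map_smul, smul_comm ((√c : ℝ) : ℂ)]
  obtain ⟨K, hK'⟩ := hF.bdd
  refine Str3.one hc h0 h1 h2 hK hl (ψ := fun x => ((√c : ℝ) : ℂ) • ψ x) hp hV hM
    ⟨⟨hF.fix.l2.const_smul _, ?_, fun h => hF.fix.ne ?_, Eventually.of_forall e2⟩,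
      hF.meas.const_smul _, ⟨‖((√c : ℝ) : ℂ)‖ * K, fun x => ?_⟩, e2⟩ ?_
  · simp only [e1, mul_left_comm _ c]
    exact hF.fix.intV.const_mul c
  · filter_upwards [h] with x hx
    exact (smul_eq_zero.mp hx).resolve_left hs
  · rw [norm_smul]
    exact mul_le_mul_of_nonneg_left (hK' x) (norm_nonneg _)
  · filter_upwards [hE] with x hx
    rw [e1, hx, one_mul]

end Pool.Agent.MP_e4cac8_mp

end

section

/-! The tent function supported where the potential is. -/

open Set MeasureTheory Filter Topology Metric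
open scoped ENNReal NNReal

namespace Pool.Agent.MP_e4cac8_mp

variable {E : Type} [NormedAddCommGroup E] [InnerProductSpace ℝ E] [FiniteDimensional ℝ E]
  [MeasurableSpace E] [BorelSpace E]

theorem stTent2 : StTent2 E := by
  intro a b p A M L v ha hp hT hL hv hM hA
  have hav : 0 < a + v := by linarith
  rcases le_or_gt (v - b) 0 with h0 | h0
  · exact (mul_nonpos_of_nonpos_of_nonneg (mul_nonpos_of_nonpos_of_nonneg h0 hav.le)
      (sq_nonneg L)).trans (by positivity)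
  have hom : 0 < om E :=
    ENNReal.toReal_pos (measure_ball_pos _ _ one_pos).ne' measure_ball_lt_top.ne
  set W : E → ℝ := (closedBall (0 : E) L).indicator fun _ => v with hW
  set f : E → ℝ := fun x => max (L - ‖x‖) 0 with hf
  have hWp : (fun x => W x ^ p) = (closedBall (0 : E) L).indicator fun _ => v ^ p := by
    ext x
    by_cases h : x ∈ closedBall (0 : E) L
    · simp [hW, h]
    · simp [hW, h, hp.ne']
  have hWm : Measurable W := measurable_const.indicator measurableSet_closedBall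
  have hP : PotR p A W := ⟨hWm, fun x => indicator_nonneg (fun _ _ => hv) x,
    hWp ▸ Tent.int L _, by rw [hWp, Tent.integ hL.le, mul_comm]; exact hA⟩
  have hlip : LipschitzWith 1 f := by
    refine LipschitzWith.max_const (LipschitzWith.mk_one fun x y => ?_) 0
    rw [dist_sub_left]
    exact dist_norm_norm_le x y |>.trans (dist_eq_norm x y).ge
  have hz : ∀ x, x ∉ closedBall (0 : E) L → f x = 0 := fun x hx =>
    max_eq_right (by rw [mem_closedBall_zero_iff, not_le] at hx; linarith)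
  have hd : ∀ x, x ∉ closedBall (0 : E) L → fderiv ℝ f x = 0 := fun x hx => by
    have : f =ᶠ[𝓝 x] fun _ => 0 :=
      Filter.mem_of_superset (isClosed_closedBall.isOpen_compl.mem_nhds hx) hz
    rw [this.fderiv_eq, fderiv_fun_const]
    rfl
  have h1 : ∀ x, 0 ≤ ‖fderiv ℝ f x‖ ^ 2 / (a + v) ∧ ‖fderiv ℝ f x‖ ^ 2 / (a + v) ≤ 1 / (a + v) :=
    fun x => ⟨by positivity, by
      have : ‖fderiv ℝ f x‖ ≤ 1 := norm_fderiv_le_of_lipschitz ℝ hlip
      exact div_le_div_of_nonneg_right (pow_le_one₀ (norm_nonneg _) this) hav.le⟩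
  have h2 : ∀ x, 0 ≤ f x ∧ f x ≤ L := fun x =>
    ⟨le_max_right _ _, max_le (by linarith [norm_nonneg x]) hL.le⟩
  have key := hT W f hP (fun x => indicator_apply_le' (fun _ => hM) fun _ => hv.trans hM) ⟨1, hlip⟩
    (HasCompactSupport.intro (isCompact_closedBall 0 L) hz)
  have hi : Integrable (fun x => ‖fderiv ℝ f x‖ ^ 2 / (a + W x) - (W x - b) * f x ^ 2) volume := by
    refine (Tent.int L (1 / (a + v) + (v - b) * L ^ 2)).mono' ?_ (.of_forall fun x => ?_)
    · exact ((((measurable_fderiv ℝ f).norm.pow_const 2).div (hWm.const_add a)).sub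
        ((hWm.sub_const b).mul (hlip.continuous.measurable.pow_const 2))).aestronglyMeasurable
    · by_cases h : x ∈ closedBall (0 : E) L
      · rw [hW, indicator_of_mem h, indicator_of_mem h, Real.norm_eq_abs, abs_le]
        have e1 := mul_le_mul_of_nonneg_left (pow_le_pow_left₀ (h2 x).1 (h2 x).2 2) h0.le
        have e2 : 0 ≤ (v - b) * f x ^ 2 := by positivity
        have e3 : 0 ≤ 1 / (a + v) := by positivity
        constructor <;> linarith [(h1 x).1, (h1 x).2]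
      · simp [hz x h, hd x h, h]
  have hle := key.trans (integral_mono hi
    ((Tent.int L (1 / (a + v))).sub (Tent.int (L / 2) ((v - b) * (L / 2) ^ 2))) fun x => by
      by_cases h : x ∈ closedBall (0 : E) L
      · simp only [hW, indicator_of_mem h, Pi.sub_apply]
        refine sub_le_sub (h1 x).2 (indicator_apply_le' (fun h' => ?_) fun _ => by positivity)
        rw [mem_closedBall_zero_iff] at h'
        exact mul_le_mul_of_nonneg_left
          (pow_le_pow_left₀ (by positivity) (le_max_of_le_left (by linarith)) 2) h0.le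
      · have h' : x ∉ closedBall (0 : E) (L / 2) := fun h' =>
          h (closedBall_subset_closedBall (by linarith) h')
        simp [hz x h, hd x h, h, h'])
  simp only [Pi.sub_apply] at hle
  rw [integral_sub (Tent.int _ _) (Tent.int _ _), Tent.integ hL.le, Tent.integ (half_pos hL).le,
    div_pow, div_pow] at hle
  have e : om E * L ^ Module.finrank ℝ E * (1 / (a + v)) -
      om E * (L ^ Module.finrank ℝ E / 2 ^ Module.finrank ℝ E) * ((v - b) * (L ^ 2 / 2 ^ 2)) =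
      (om E * L ^ Module.finrank ℝ E * L ^ 2 / 2 ^ (Module.finrank ℝ E + 2)) *
        (2 ^ (Module.finrank ℝ E + 2) / ((a + v) * L ^ 2) - (v - b)) := by
    rw [pow_add]
    field_simp
  rw [e] at hle
  have hfin := sub_nonneg.1 (nonneg_of_mul_nonneg_right hle (by positivity))
  rw [le_div_iff₀ (by positivity), ← mul_assoc] at hfin
  exact hfin

end Pool.Agent.MP_e4cac8_mp

end
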