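import Pool.Agent.Mg.Fe4cac8.G23b726

set_option linter.all false

/-! The set where the upper spinor is very small carries a small share of the energy. -/

open Set MeasureTheory Filter Topology
open scoped ENNReal NNReal
open Pool.Agent.MP_0b7119_mp.G

namespace Pool.Agent.MP_e4cac8_mp

set_option linter.unusedSectionVars false

variable {E S : Type} [NormedAddCommGroup E] [InnerProductSpace ℝ E] [FiniteDimensional ℝ E]
  [MeasurableSpace E] [BorelSpace E] [NormedAddCommGroup S] [InnerProductSpace ℂ S]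
  [CompleteSpace S] [FiniteDimensional ℂ S] {d : ℕ}
  {e : OrthonormalBasis (Fin d) ℝ E} {α : Fin d → S →L[ℂ] S} {β : S →L[ℂ] S} {m : ℝ}

namespace NB

variable {u w : E → S} {σ c ε : ℝ}

theorem pj {θ κ z δ c χ t o n V γ D D' g B Y X : ℝ} (H1 : -(4 * δ / c) ≤ θ - 2 * z * κ)
    (H2 : κ * z * (o * t / n) ≤ 5 / 2 * δ * χ) (H3 : θ * t ≤ 2 * δ * χ ^ 2 * o) (hκ : 0 ≤ κ)
    (hθ : 0 ≤ θ) (hδ : 0 ≤ δ) (hc : 0 < c) (x0 : 0 ≤ χ) (x1 : χ ≤ 1) (ht : 0 < t) (ho : 0 ≤ o)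
    (hn : 0 < n) (hz : 0 ≤ z) (h1 : t ^ 2 ≤ z * n) (h2 : o ^ 2 ≤ n) (hg : |g| ≤ D)
    (hD : 0 ≤ D') (hB : |B| ≤ o * D') (hY : |Y| ≤ t * o) (g0 : 0 ≤ γ) (g1 : γ ≤ 1) (hV : 0 ≤ V)
    (hX : V * o ≤ X) :
    -(θ * g ^ 2) ≤ θ * (γ * V / (t ^ 2 + o ^ 2) * (2 * (g * t) + 2 * B)) * Y +
      -κ * (2 * (o ^ 2 * (g * t) - z * n * B) / n ^ 2) * (g * t) +
      δ * ((4 / c + 33 / 4) * D ^ 2 + 2 * (χ ^ 2 * D' ^ 2) + 6 * X ^ 2) := by
  have hD0 : 0 ≤ D := (abs_nonneg _).trans hg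
  have e1 : -κ * (2 * (o ^ 2 * (g * t) - z * n * B) / n ^ 2) * (g * t) =
      -(2 * κ * g ^ 2 * (o ^ 2 * t ^ 2 / n ^ 2)) + 2 * (κ * z * (t / n)) * (B * g) := by
    field_simp
    ring
  have a1 : o ^ 2 * t ^ 2 / n ^ 2 ≤ z := by
    rw [div_le_iff₀ (by positivity)]
    nlinarith [mul_le_mul h2 h1 (sq_nonneg _) hn.le]
  have a2 := mul_le_mul_of_nonneg_left a1 (by positivity : 0 ≤ 2 * κ * g ^ 2)
  have a3 := mul_le_mul_of_nonneg_right H1 (sq_nonneg g)
  have a4 : 4 * δ / c * g ^ 2 ≤ 4 * δ / c * D ^ 2 :=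
    mul_le_mul_of_nonneg_left (sq_le_sq' (abs_le.mp hg).1 (abs_le.mp hg).2) (by positivity)
  have b1 : -(o * D' * D) ≤ B * g := by
    refine neg_le_of_abs_le ?_
    rw [abs_mul]
    gcongr
  have b2 := mul_le_mul_of_nonneg_left b1 (by positivity : 0 ≤ 2 * (κ * z * (t / n)))
  have b3 := mul_le_mul_of_nonneg_right H2 (by positivity : 0 ≤ 2 * (D' * D))
  have b4 := mul_nonneg hδ (sq_nonneg (5 / 2 * D - χ * D'))
  have e2 : κ * z * (o * t / n) * (2 * (D' * D)) = 2 * (κ * z * (t / n)) * (o * D' * D) := by ring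
  have c1 : |θ * (γ * V / (t ^ 2 + o ^ 2) * (2 * (g * t) + 2 * B)) * Y| ≤
      θ * (1 * V / (t ^ 2 + o ^ 2) * (2 * (D * t) + 2 * (o * D'))) * (t * o) := by
    rw [abs_mul, abs_mul, abs_mul, abs_of_nonneg hθ,
      abs_of_nonneg (by positivity : 0 ≤ γ * V / (t ^ 2 + o ^ 2))]
    gcongr
    refine (abs_add_le _ _).trans ?_
    rw [abs_mul, abs_mul, abs_mul, abs_two, abs_of_pos ht]
    gcongr
  have c2 : (D * t + o * D') * o / (t ^ 2 + o ^ 2) ≤ D + D' := by
    rw [div_le_iff₀ (by positivity)]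
    nlinarith [mul_nonneg hD0 (sq_nonneg (t - o)), mul_nonneg hD (sq_nonneg t),
      mul_nonneg hD0 (mul_nonneg ht.le ho)]
  have e3 : θ * (1 * V / (t ^ 2 + o ^ 2) * (2 * (D * t) + 2 * (o * D'))) * (t * o) =
      θ * t * (2 * V) * ((D * t + o * D') * o / (t ^ 2 + o ^ 2)) := by ring
  have c3 : θ * t * (2 * V) * ((D * t + o * D') * o / (t ^ 2 + o ^ 2)) ≤
      2 * δ * χ ^ 2 * o * (2 * V) * (D + D') := by gcongr
  have hX0 : 0 ≤ X := (mul_nonneg hV ho).trans hX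
  have c4 : χ ^ 2 * (V * o) * D ≤ 1 ^ 2 * X * D := by gcongr
  have c5 : χ * (V * o) * (χ * D') ≤ 1 * X * (χ * D') := by gcongr
  have c6 := mul_le_mul_of_nonneg_left c4 hδ
  have c7 := mul_le_mul_of_nonneg_left c5 hδ
  have c8 := mul_nonneg hδ (sq_nonneg (X - D))
  have c9 := mul_nonneg hδ (sq_nonneg (2 * X - χ * D'))
  have e4 : δ * (4 / c * D ^ 2) = 4 * δ / c * D ^ 2 := by ring
  rw [e1]
  linarith [neg_le_of_abs_le c1]

/-- The integrand of the null Lagrangian identity. -/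
noncomputable def I1 (e : Fin d → E) (α : Fin d → S →L[ℂ] S) (u : E → S) (η : E → ℝ) (x : E) : ℝ :=
  η x * (‖Zf e α u x‖ ^ 2 - G2 e u x) +
    ((inner ℂ (∑ j, ((fderiv ℝ η x (e j) : ℝ) : ℂ) • α j (u x)) (Zf e α u x)).re -
      ∑ j, fderiv ℝ η x (e j) * (inner ℂ (u x) (fderiv ℝ u x (e j))).re)

/-- The integrand of the integration by parts. -/
noncomputable def I2 (e : Fin d → E) (α : Fin d → S →L[ℂ] S) (f w : E → S) (x : E) : ℝ :=
  (Complex.I * (inner ℂ (f x) (Zf e α w x) + inner ℂ (Zf e α f x) (w x))).re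

theorem ident {η F : E → ℝ} {x : E} {W U : ℝ} (hu : DifferentiableAt ℝ u x)
    (hF : DifferentiableAt ℝ F x) (zu : Zf e α u x = Complex.I • (W : ℂ) • w x)
    (zw : Zf e α w x = Complex.I • (U : ℂ) • u x) (h : F x = η x * W) :
    I2 e α (fun y => F y • u y) w x - I1 e α u η x = η x * G2 e u x - η x * W * U * ‖u x‖ ^ 2 +
      ∑ j, ((fderiv ℝ F x (e j) - W * fderiv ℝ η x (e j)) *
        (Complex.I * inner ℂ (α j (u x)) (w x)).re +
        fderiv ℝ η x (e j) * (inner ℂ (u x) (fderiv ℝ u x (e j))).re) := by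
  have e1 : Zf e α (fun y => F y • u y) x =
      (F x : ℂ) • Zf e α u x + ∑ j, ((fderiv ℝ F x (e j) : ℝ) : ℂ) • α j (u x) := by
    unfold Zf
    rw [fderiv_fun_smul hF hu, Finset.smul_sum, ← Finset.sum_add_distrib]
    simp only [add_apply, smul_apply, ContinuousLinearMap.smulRight_apply, map_add,
      ← Complex.coe_smul, map_smul]
  have n1 : ∀ ξ : S, inner ℂ ξ ξ = ((‖ξ‖ ^ 2 : ℝ) : ℂ) := fun ξ => by
    rw [inner_self_eq_norm_sq_to_K]
    simp
  unfold I1 I2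
  beta_reduce
  rw [e1, zu, zw, ← Complex.coe_smul, h]
  simp only [inner_add_left, sum_inner, inner_smul_left, inner_smul_right, n1, norm_smul,
    Complex.norm_I, one_mul, Complex.norm_real, mul_pow, Real.norm_eq_abs, sq_abs, Complex.conj_I,
    Complex.conj_ofReal, Complex.I_mul_re, Complex.add_im, Complex.im_sum,
    Complex.im_ofReal_mul, Complex.re_ofReal_mul, neg_mul, Complex.neg_im, Complex.I_mul_im,
    Complex.ofReal_re, sub_mul, Finset.sum_add_distrib, Finset.sum_sub_distrib, mul_neg,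
    Finset.sum_neg_distrib]
  have e2 : ∑ j, W * fderiv ℝ η x (e j) * (inner ℂ (α j (u x)) (w x)).im =
      ∑ j, W * (fderiv ℝ η x (e j) * (inner ℂ (α j (u x)) (w x)).im) :=
    Finset.sum_congr rfl fun j _ => by ring
  rw [e2, ← Finset.mul_sum]
  ring

/-- The test weight. -/
noncomputable def Fw (ε c σ a p : ℝ) (u w : E → S) (x : E) : ℝ :=
  th ε c (zr σ u w x) * (a + (‖u x‖ ^ 2 + ‖w x‖ ^ 2) ^ (p - 1)⁻¹)

theorem c_Fw (hε : 0 < ε) (hc : 0 < c) (hc2 : 2 * c ≤ 1) (hσ : 0 < σ) (hu : ContDiff ℝ 1 u)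
    (hw : ContDiff ℝ 1 w) (a p : ℝ) : ContDiff ℝ 1 (Fw ε c σ a p u w) := by
  refine contDiff_iff_contDiffAt.mpr fun x => ?_
  by_cases h : ‖u x‖ ^ 2 + ‖w x‖ ^ 2 = 0
  · have h1 : c < zr σ u w x := by
      have : ‖u x‖ ^ 2 = 0 := by nlinarith [sq_nonneg ‖u x‖, sq_nonneg ‖w x‖]
      rw [zr, h, this, div_self (by positivity)]
      linarith
    refine (contDiffAt_const (c := (0 : ℝ))).congr_of_eventuallyEq ?_
    filter_upwards [(c_zr hσ hu hw).continuous.continuousAt.eventually (lt_mem_nhds h1)] with y hy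
    rw [Fw, (th_zero hc hy.le).1, zero_mul]
  · exact (c_th hε hσ hu hw).contDiffAt.mul (contDiffAt_const.add
      (((hu.norm_sq ℂ).add (hw.norm_sq ℂ)).contDiffAt.rpow_const_of_ne h))

theorem th_nonneg (ε c s : ℝ) : 0 ≤ th ε c s := by
  unfold th
  positivity

theorem ptw (hc : Ctx α β m) (hA : StAlg e α) {a b p M μ V : ℝ} (ru : Reg e u) (rw' : Reg e w)
    (hp : 2 ≤ p) (ha : 0 < a) (hb : 0 ≤ b) (h1 : a + M ≤ μ * a) (h2 : b ≤ μ * a) (V0 : 0 ≤ V)
    (VM : V ≤ M) (hε : 0 < ε) (hc0 : 0 < c) (hc2 : 2 * c ≤ 1) (hσ : 0 < σ) {x : E}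
    (zu : Zf e α u x = Complex.I • ((a + V : ℝ) : ℂ) • w x)
    (zw : Zf e α w x = Complex.I • ((V - b : ℝ) : ℂ) • u x)
    (el : V ^ (p - 1) = ‖u x‖ ^ 2 + ‖w x‖ ^ 2) :
    {x | u x ≠ 0}.indicator (fun x => th ε c (zr σ u w x) * qf e u x) x ≤
      I2 e α (fun y => Fw ε c σ a p u w y • u y) w x - I1 e α u (fun y => th ε c (zr σ u w y)) x +
      √ε * ((9 + (6 * d + 2) * d) * (1 / c + μ ^ 2) * (Low c u w).indicator (G2 e u) x +
        2 * (max (1 - zr σ u w x / c) 0 ^ 2 * G2 e w x)) := by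
  have du := ru.c1.differentiable one_ne_zero x
  have dw := rw'.c1.differentiable one_ne_zero x
  have hp1 : 0 < p - 1 := by linarith
  have hV : (‖u x‖ ^ 2 + ‖w x‖ ^ 2) ^ (p - 1)⁻¹ = V := by rw [← el, Real.rpow_rpow_inv V0 hp1.ne']
  have G0 : ∀ (f : E → S) x, 0 ≤ G2 e f x := fun f x => Finset.sum_nonneg fun j _ => sq_nonneg _
  have p0 : 0 ≤ √ε * ((9 + (6 * d + 2) * d) * (1 / c + μ ^ 2) * (Low c u w).indicator (G2 e u) x +
      2 * (max (1 - zr σ u w x / c) 0 ^ 2 * G2 e w x)) := by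
    have := G0 w x
    have := indicator_nonneg (s := Low c u w) (fun y _ => G0 u y) x
    positivity
  rw [ident du ((c_Fw hε hc0 hc2 hσ ru.c1 rw'.c1 a p).differentiable one_ne_zero x) zu zw
    (by rw [Fw, hV])]
  by_cases h0 : u x = 0
  · rw [indicator_of_notMem (not_not.mpr h0)]
    have := mul_nonneg (th_nonneg ε c (zr σ u w x)) (G0 u x)
    simp only [h0, norm_zero, map_zero, inner_zero_left, mul_zero, Complex.zero_re, add_zero,
      Finset.sum_const_zero, zero_pow two_ne_zero, sub_zero]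
    linarith
  rw [indicator_of_mem (show x ∈ {x | u x ≠ 0} from h0)]
  have ht : 0 < ‖u x‖ := norm_pos_iff.mpr h0
  have z0 := zr_pos (u := u) (w := w) hσ x
  have d1 := (d_th (c := c) (add_pos z0 hε)).comp_hasFDerivAt x
    ((c_zr hσ ru.c1 rw'.c1).differentiable one_ne_zero x).hasFDerivAt
  have d2 : HasFDerivAt (Fw ε c σ a p u w) _ x := HasFDerivAt.fun_mul d1
    ((((du.norm_sq ℂ).hasFDerivAt.fun_add (dw.norm_sq ℂ).hasFDerivAt).rpow_const
      (p := (p - 1)⁻¹) (Or.inl (by positivity))).const_add a)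
  obtain ⟨-, a2, a3, -⟩ := hA u ru
  obtain ⟨-, -, -, a4, a5⟩ := a3 x h0
  have hn : 0 < ‖u x‖ ^ 2 + ‖w x‖ ^ 2 + σ := by positivity
  have zn : zr σ u w x * (‖u x‖ ^ 2 + ‖w x‖ ^ 2 + σ) = ‖u x‖ ^ 2 + σ := div_mul_cancel₀ _ hn.ne'
  have e1 : ∀ j, fderiv ℝ (fun y => th ε c (zr σ u w y)) x (e j) = -ka ε c (zr σ u w x) *
      (2 * (‖w x‖ ^ 2 * (fderiv ℝ (fun y => ‖u y‖) x (e j) * ‖u x‖) -
        zr σ u w x * (‖u x‖ ^ 2 + ‖w x‖ ^ 2 + σ) * (inner ℂ (w x) (fderiv ℝ w x (e j))).re) /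
        (‖u x‖ ^ 2 + ‖w x‖ ^ 2 + σ) ^ 2) := fun j => by
    rw [zn, a4, ← d_zr hσ du dw]
    exact DFunLike.congr_fun d1.fderiv _
  have e2 : ∀ j, fderiv ℝ (Fw ε c σ a p u w) x (e j) -
      (a + V) * fderiv ℝ (fun y => th ε c (zr σ u w y)) x (e j) =
      th ε c (zr σ u w x) * ((p - 1)⁻¹ * V / (‖u x‖ ^ 2 + ‖w x‖ ^ 2) *
        (2 * (fderiv ℝ (fun y => ‖u y‖) x (e j) * ‖u x‖) +
          2 * (inner ℂ (w x) (fderiv ℝ w x (e j))).re)) := fun j => by
    rw [d2.fderiv, show fderiv ℝ (fun y => th ε c (zr σ u w y)) x = _ from d1.fderiv, a4]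
    simp only [add_apply, smul_apply, smul_eq_mul, dsq du, dsq dw,
      Real.rpow_sub_one (by positivity : ‖u x‖ ^ 2 + ‖w x‖ ^ 2 ≠ 0), hV]
    ring
  simp only [e2]
  simp only [e1, ← a4]
  rcases le_or_gt c (zr σ u w x) with hz | hz
  · simp only [(th_zero hc0 hz).1, (th_zero hc0 hz).2, zero_mul, neg_zero, add_zero, sub_zero,
      Finset.sum_const_zero]
    linarith
  have b1 : ‖u x‖ ^ 2 + σ ≤ c * (‖u x‖ ^ 2 + ‖w x‖ ^ 2 + σ) :=
    zn ▸ mul_le_mul_of_nonneg_right hz.le hn.le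
  have b2 : ‖u x‖ ^ 2 + σ ≤ ‖w x‖ ^ 2 := by nlinarith
  have b3 : ‖u x‖ ^ 2 ≤ zr σ u w x * (‖u x‖ ^ 2 + ‖w x‖ ^ 2 + σ) := by linarith
  have b4 : ‖w x‖ ^ 2 ≤ ‖u x‖ ^ 2 + ‖w x‖ ^ 2 + σ := by linarith [sq_nonneg ‖u x‖]
  obtain ⟨H1, H2, H3⟩ := th_bd hε hc0 hc2 ht.le (norm_nonneg (w x)) hn z0 hz b3 b4 (by linarith)
  have x0 : 0 ≤ max (1 - zr σ u w x / c) 0 := le_max_right _ _
  have x1 : max (1 - zr σ u w x / c) 0 ≤ 1 := max_le (sub_le_self _ (by positivity)) zero_le_one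
  have key := Finset.sum_le_sum (s := Finset.univ) fun j _ => pj (γ := (p - 1)⁻¹) (V := V)
    (g := fderiv ℝ (fun y => ‖u y‖) x (e j)) (D := ‖fderiv ℝ u x (e j)‖)
    (D' := ‖fderiv ℝ w x (e j)‖) (B := (inner ℂ (w x) (fderiv ℝ w x (e j))).re)
    (Y := (Complex.I * inner ℂ (α j (u x)) (w x)).re) (X := μ * a * ‖w x‖) H1 H2 H3
    (by unfold ka; positivity) (th_nonneg _ _ _) (Real.sqrt_nonneg _) hc0 x0 x1 ht (norm_nonneg _)
    hn z0.le b3 b4
    (le_of_mul_le_mul_right (by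
      rw [← abs_of_pos ht, ← abs_mul, a4, abs_of_pos ht, mul_comm]
      exact (Complex.abs_re_le_norm _).trans (norm_inner_le_norm _ _)) ht)
    (norm_nonneg _) ((Complex.abs_re_le_norm _).trans (norm_inner_le_norm _ _))
    ((Complex.abs_re_le_norm _).trans (by
      rw [norm_mul, Complex.norm_I, one_mul, ← Alg.norm_al hc.rep e j (u x)]
      exact norm_inner_le_norm _ _))
    (inv_pos.mpr hp1).le (inv_le_one_of_one_le₀ (by linarith)) V0
    (mul_le_mul_of_nonneg_right (by linarith) (norm_nonneg _))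
  rw [Finset.sum_neg_distrib, ← Finset.mul_sum, ← a5, Finset.sum_add_distrib, ← Finset.mul_sum,
    Finset.sum_add_distrib (g := fun _ => 6 * (μ * a * ‖w x‖) ^ 2), Finset.sum_const,
    Finset.card_univ, Fintype.card_fin, nsmul_eq_mul,
    Finset.sum_add_distrib (g := fun j => 2 * (max (1 - zr σ u w x / c) 0 ^ 2 *
      ‖fderiv ℝ w x (e j)‖ ^ 2)), ← Finset.mul_sum, ← Finset.mul_sum, ← Finset.mul_sum] at key
  change _ ≤ _ + √ε * (_ * G2 e u x + 2 * (_ * G2 e w x) + _) at key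
  rw [indicator_of_mem (show x ∈ Low c u w from ⟨ht, by nlinarith⟩), qf]
  have c1 : (μ * a * ‖w x‖) ^ 2 ≤ μ ^ 2 * (d * G2 e u x) := by
    have := a2 x
    rw [zu, norm_smul, norm_smul, Complex.norm_I, one_mul, Complex.norm_real,
      Real.norm_of_nonneg (by linarith)] at this
    rw [mul_assoc, mul_pow]
    refine mul_le_mul_of_nonneg_left (le_trans ?_ this) (sq_nonneg _)
    gcongr
    linarith
  have c2 : th ε c (zr σ u w x) * (a + V) * (V - b) * ‖u x‖ ^ 2 ≤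
      √ε * (2 * (μ * a * ‖w x‖) ^ 2) := by
    have f1 : ‖u x‖ ≤ ‖w x‖ := le_of_pow_le_pow_left₀ two_ne_zero (norm_nonneg _) (by linarith)
    have f2 : (a + V) * (V - b) ≤ μ * a * (μ * a) := by nlinarith
    have f3 : max (1 - zr σ u w x / c) 0 ^ 2 ≤ 1 := pow_le_one₀ x0 x1
    have f4 : th ε c (zr σ u w x) * ‖u x‖ ≤ 2 * √ε * 1 * ‖w x‖ := H3.trans (by gcongr)
    have f5 := mul_le_mul f4 f1 ht.le (by positivity)
    have f6 := mul_le_mul_of_nonneg_left f2
      (mul_nonneg (mul_nonneg (th_nonneg ε c (zr σ u w x)) ht.le) ht.le)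
    have f7 := mul_le_mul_of_nonneg_right f5 (mul_self_nonneg (μ * a))
    linarith
  have c3 : (4 / c + 33 / 4) * G2 e u x + (6 * d + 2) * (μ * a * ‖w x‖) ^ 2 ≤
      (9 + (6 * d + 2) * d) * (1 / c + μ ^ 2) * G2 e u x := by
    have f1 : 2 ≤ 1 / c := by rwa [le_div_iff₀ hc0]
    have f2 := mul_le_mul_of_nonneg_left c1 (by positivity : (0 : ℝ) ≤ 6 * d + 2)
    have f3 := mul_le_mul_of_nonneg_right f1 (G0 u x)
    have f4 : 0 ≤ (6 * d + 2) * d * (1 / c) * G2 e u x := by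
      have := G0 u x
      positivity
    have f5 := mul_nonneg (sq_nonneg μ) (G0 u x)
    have f6 : 4 / c = 4 * (1 / c) := by ring
    rw [f6]
    linarith [G0 u x]
  have c4 := mul_le_mul_of_nonneg_left c3 (Real.sqrt_nonneg ε)
  linarith

theorem th_ge (hε : 0 < ε) (h : 2 * ε ≤ c) {s : ℝ} (hs : 0 < s) (h1 : 2 * s ≤ 3 * ε) :
    1 / 32 ≤ th ε c s := by
  have h2 : 1 / 4 ≤ max (1 - s / c) 0 := by
    refine le_max_of_le_left ?_
    have : s / c ≤ 3 / 4 := by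
      rw [div_le_iff₀ (by linarith)]
      linarith
    linarith
  have h3 : 1 / 2 ≤ √ε / √(s + ε) := by
    rw [le_div_iff₀ (Real.sqrt_pos.mpr (by linarith))]
    have : √(s + ε) ≤ 2 * √ε := by
      rw [Real.sqrt_le_left (by positivity), mul_pow, Real.sq_sqrt hε.le]
      linarith
    linarith
  calc (1 : ℝ) / 32 = 1 / 2 * (1 / 4) ^ 2 := by norm_num
    _ ≤ _ := by
      unfold th
      gcongr

end NB

open NB in
theorem stNB (hc : Ctx α β m) (h0 : StNL0 e α) (hA : StAlg e α) (hw : StNBw e α) :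
    StNB e α := by
  obtain ⟨C, hC, hw⟩ := hw
  refine ⟨32 * (9 + (6 * d + 2) * d + 2 * C), by
    have : (0 : ℝ) ≤ (6 * d + 2) * d := by positivity
    linarith, ?_⟩
  intro a b p M μ c ε V u w hp ha hb hμ h1 h2 hV hM hP hε h3 h4
  have hc0 : 0 < c := by linarith
  have cu := hP.ru.c1
  have cw := hP.rw.c1
  have mL : ∀ s, MeasurableSet (Low s u w) := fun s =>
    (measurableSet_lt measurable_const cu.continuous.norm.measurable).inter
      (measurableSet_le (cu.continuous.norm.pow 2).measurable (continuous_const.mul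
        ((cu.continuous.norm.pow 2).add (cw.continuous.norm.pow 2))).measurable)
  obtain ⟨⟨-, -, -, mq, -, -⟩, -, a3, -⟩ := hA u hP.ru
  have hd : (0 : ℝ) < d := by exact_mod_cast two_pos.trans_le hc.two
  have q0 : ∀ x, u x ≠ 0 → 0 ≤ qf e u x := fun x hx =>
    nonneg_of_mul_nonneg_right ((sq_nonneg _).trans (a3 x hx).2.2.1) hd
  have iq : IntegrableOn (qf e u) (Low ε u w) volume :=
    hP.ru.dl2.integrableOn.mono' mq.aestronglyMeasurable
      ((ae_restrict_iff' (mL ε)).mpr (Eventually.of_forall fun x hx => by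
        rw [Real.norm_of_nonneg (q0 x (norm_pos_iff.mp hx.1))]
        exact sub_le_self _ (sq_nonneg _)))
  set T : ℕ → Set E := fun k => Low ε u w ∩ {x | 2 * (1 / ((k : ℝ) + 1)) ≤ ‖u x‖ ^ 2} with hT
  have mT : ∀ k, MeasurableSet (T k) := fun k =>
    (mL ε).inter (measurableSet_le measurable_const (cu.continuous.norm.pow 2).measurable)
  have hU : ⋃ k, T k = Low ε u w := by
    refine (iUnion_subset fun k => inter_subset_left).antisymm fun x hx => ?_
    obtain ⟨k, hk⟩ := exists_nat_one_div_lt (half_pos (pow_pos hx.1 2))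
    exact mem_iUnion.mpr ⟨k, hx, by
      change 2 * (1 / ((k : ℝ) + 1)) ≤ ‖u x‖ ^ 2
      linarith⟩
  have hlim := tendsto_setIntegral_of_monotone (μ := volume) (f := qf e u) mT
    (fun k k' hk => inter_subset_inter_right _ fun x hx => le_trans (α := ℝ)
      (mul_le_mul_of_nonneg_left (Nat.one_div_le_one_div hk) two_pos.le) (mem_ofPred_eq ▸ hx :))
    (hU ▸ iq)
  rw [hU] at hlim
  refine le_of_tendsto' hlim fun k => ?_
  set σ : ℝ := 1 / ((k : ℝ) + 1) with hσ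
  have s0 : 0 < σ := Nat.one_div_pos_of_nat
  obtain ⟨K, hK, hfar⟩ := far s0 hP.ru hP.rw
  have c1 := c_th (c := c) hε s0 cu cw
  have c2 := (c_Fw hε hc0 h4 s0 cu cw a p).smul cu
  have s1 : HasCompactSupport fun x => th ε c (zr σ u w x) :=
    HasCompactSupport.intro hK fun x hx => (th_zero hc0 (by linarith [hfar x hx])).1
  have s2 : HasCompactSupport fun x => Fw ε c σ a p u w x • u x :=
    HasCompactSupport.intro hK fun x hx => by
      rw [Fw, (th_zero hc0 (by linarith [hfar x hx])).1, zero_mul, zero_smul]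
  obtain ⟨i1, i2⟩ := Str.ibp (e := e) hc.rep c2 cw
    ((c2.continuous.norm.mul cw.continuous.norm).integrable_of_hasCompactSupport s2.norm.mul_right)
    (fun j => ((Str.cont_d c2 _).norm.mul cw.continuous.norm).integrable_of_hasCompactSupport
      (s2.fderiv_apply ℝ _).norm.mul_right)
    fun j => (c2.continuous.norm.mul (Str.cont_d cw _).norm).integrable_of_hasCompactSupport
      s2.norm.mul_right
  have j2 : Integrable (I2 e α (fun y => Fw ε c σ a p u w y • u y) w) volume :=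
    (i1.const_mul Complex.I).re
  have k2 : ∫ x, I2 e α (fun y => Fw ε c σ a p u w y • u y) w x = 0 := by
    refine (integral_re (𝕜 := ℂ) (i1.const_mul Complex.I)).trans ?_
    rw [integral_const_mul, i2, mul_zero, map_zero]
  have j1 : Integrable (I1 e α u fun y => th ε c (zr σ u w y)) volume := nl_int cu c1 s1
  have k1 : ∫ x, I1 e α u (fun y => th ε c (zr σ u w y)) x = 0 := h0 u _ cu c1 s1
  have j3 := (hP.ru.dl2.indicator (mL c)).const_mul ((9 + (6 * d + 2) * d) * (1 / c + μ ^ 2))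
  have j4 : Integrable (fun x => max (1 - zr σ u w x / c) 0 ^ 2 * G2 e w x) volume :=
    hP.rw.dl2.bdd_mul (c := 1) (c_max.comp (contDiff_const.sub
      ((c_zr s0 cu cw).div_const c))).continuous.aestronglyMeasurable
      (Eventually.of_forall fun x => by
        rw [Real.norm_of_nonneg (sq_nonneg _)]
        exact pow_le_one₀ (le_max_right _ _)
          (max_le (sub_le_self _ (div_pos (zr_pos s0 x) hc0).le) zero_le_one))
  have j5 := (j3.add (j4.const_mul 2)).const_mul √ε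
  have key := integral_mono_ae ((((iq.mono_set inter_subset_left).integrable_indicator
    (mT k))).const_mul (1 / 32)) ((j2.sub j1).add j5) (by
      filter_upwards [hP.zu, hP.zw, hP.el] with x zu zw el
      refine le_trans ?_ (ptw hc hA hP.ru hP.rw hp ha hb h1 h2 (hM x).1 (hM x).2 hε hc0 h4 s0
        zu zw el)
      by_cases hx : x ∈ T k
      · have hx0 : u x ≠ 0 := norm_pos_iff.mp hx.1.1
        rw [indicator_of_mem hx, indicator_of_mem (show x ∈ {x | u x ≠ 0} from hx0)]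
        refine mul_le_mul_of_nonneg_right (th_ge hε h3 (zr_pos s0 x) ?_) (q0 x hx0)
        have b1 : 2 * σ ≤ ‖u x‖ ^ 2 := hx.2
        have b2 := hx.1.2
        rw [zr, ← mul_div_assoc, div_le_iff₀ (by positivity)]
        nlinarith [mul_pos hε s0]
      · rw [indicator_of_notMem hx, mul_zero]
        exact indicator_nonneg (fun y hy => mul_nonneg (th_nonneg _ _ _) (q0 y hy)) x)
  simp only [Pi.add_apply, Pi.sub_apply] at key j5
  have j6 := j2.sub j1
  rw [Pi.sub_def] at j6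
  rw [integral_const_mul, integral_indicator (mT k), integral_add j6 j5,
    integral_sub j2 j1, k1, k2, integral_const_mul, integral_add j3 (j4.const_mul 2),
    integral_const_mul, integral_const_mul, integral_indicator (mL c)] at key
  have b := mul_le_mul_of_nonneg_left
    (hw a b p M μ c σ V u w ha hb hμ h1 h2 hV hM hP hc0 h4 s0) (Real.sqrt_nonneg ε)
  linarith

end Pool.Agent.MP_e4cac8_mp
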