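import Pool.Agent.Mg.Fe4cac8.G7be784
import Pool.Agent.Mg.Fe4cac8.Gf4e562

set_option linter.all false

/-! Calculus for the weighted share of the upper spinor. -/

open Set MeasureTheory Filter Topology
open scoped ENNReal NNReal
open Pool.Agent.MP_0b7119_mp.G

namespace Pool.Agent.MP_e4cac8_mp.NB4

set_option linter.unusedSectionVars false

variable {E S : Type} [NormedAddCommGroup E] [InnerProductSpace ℝ E] [FiniteDimensional ℝ E]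
  [MeasurableSpace E] [BorelSpace E] [NormedAddCommGroup S] [InnerProductSpace ℂ S]
  [CompleteSpace S] [FiniteDimensional ℂ S] {d : ℕ}
  {e : OrthonormalBasis (Fin d) ℝ E} {α : Fin d → S →L[ℂ] S} {β : S →L[ℂ] S} {m : ℝ}
  {u w : E → S} {σ c p a : ℝ}

/-- The weight as a function of the share. -/
noncomputable def th (c s : ℝ) : ℝ := max (1 - s / c) 0 ^ 2 / √s

/-- Minus the derivative of the weight. -/
noncomputable def ka (c s : ℝ) : ℝ :=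
  (max (1 - s / c) 0 ^ 2 / (2 * s) + 2 * max (1 - s / c) 0 / c) / √s

theorem pj {W T z χ θ κ t o n V γ D D' g B Y : ℝ} (hθ : θ = χ ^ 2 / √z)
    (hκ : κ = (χ ^ 2 / (2 * z) + 2 * χ / c) / √z) (hz : 0 < z) (zc : z ≤ c) (hc2 : 2 * c ≤ 1)
    (hW : 0 < W) (WT : W ≤ T) (x0 : 0 ≤ χ) (x1 : χ ≤ 1) (ht : 0 < t) (ho : 0 ≤ o) (hn : 0 < n)
    (h1 : T * t ^ 2 ≤ z * n) (h2 : W * o ^ 2 ≤ n) (h3 : n ≤ 2 * (W * o ^ 2)) (hg : |g| ≤ D)
    (hD : 0 ≤ D') (hB : |B| ≤ o * D') (hY : |Y| ≤ t * o) (g0 : 0 ≤ γ) (g1 : γ ≤ 1) (hV : 0 ≤ V)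
    (VW : V ≤ W) :
    -(θ / W * g ^ 2) ≤ θ * (γ * V / (t ^ 2 + o ^ 2) * (2 * (g * t) + 2 * B)) / W * Y +
      (-κ * ((2 * T * (g * t) - z * (W + γ * V) * (2 * (g * t) + 2 * B)) / n) / W -
        θ * (γ * V / (t ^ 2 + o ^ 2) * (2 * (g * t) + 2 * B)) / W ^ 2) * (g * t) +
      ((4 / c + 11) / W * D ^ 2 + 8 / T * (χ ^ 2 * D' ^ 2) + 3 * (W * o ^ 2)) := by
  have hD0 : 0 ≤ D := (abs_nonneg _).trans hg
  have hc : 0 < c := hz.trans_le zc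
  obtain ⟨r, hr, rfl⟩ : ∃ r, 0 < r ∧ z = r ^ 2 :=
    ⟨√z, Real.sqrt_pos.mpr hz, (Real.sq_sqrt hz.le).symm⟩
  obtain ⟨s, hs, rfl⟩ : ∃ s, 0 < s ∧ W = s ^ 2 :=
    ⟨√W, Real.sqrt_pos.mpr hW, (Real.sq_sqrt hW.le).symm⟩
  obtain ⟨S, hS, rfl⟩ : ∃ S, 0 < S ∧ T = S ^ 2 :=
    ⟨√T, Real.sqrt_pos.mpr (hW.trans_le WT), (Real.sq_sqrt (hW.trans_le WT).le).symm⟩
  rw [Real.sqrt_sq hr.le] at hθ hκ
  have sS : s ≤ S := le_of_pow_le_pow_left₀ two_ne_zero hS.le WT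
  have r1 : r ≤ 1 := le_of_pow_le_pow_left₀ two_ne_zero zero_le_one (by linarith)
  have θ0 : 0 ≤ θ := by rw [hθ]; positivity
  have κ0 : 0 ≤ κ := by rw [hκ]; positivity
  have K1 : S * t ≤ 3 / 2 * (r * s * o) := by
    refine le_of_pow_le_pow_left₀ two_ne_zero (by positivity) ?_
    have := mul_le_mul_of_nonneg_left h3 hz.le
    nlinarith [sq_nonneg (r * s * o)]
  have K2 : t * o * (S * s) ≤ r * n := by
    refine le_of_pow_le_pow_left₀ two_ne_zero (by positivity) ?_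
    have := mul_le_mul h1 h2 (by positivity) (by positivity)
    nlinarith
  have a1 : θ * t ≤ 3 / 2 * (χ ^ 2 * (s * o) / S) := by
    have : θ * t = χ ^ 2 / (r * S) * (S * t) := by rw [hθ]; field_simp
    rw [this]
    refine (mul_le_mul_of_nonneg_left K1 (by positivity)).trans (le_of_eq ?_)
    field_simp
  generalize hω : γ * V / (t ^ 2 + o ^ 2) * (2 * (g * t) + 2 * B) = ω
  have a2 : |ω| * o ≤ 2 * s ^ 2 * (D + D') := by
    have c1 : |ω| ≤ 1 * s ^ 2 / (t ^ 2 + o ^ 2) * (2 * (D * t) + 2 * (o * D')) := by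
      rw [← hω, abs_mul, abs_of_nonneg (by positivity : 0 ≤ γ * V / (t ^ 2 + o ^ 2))]
      gcongr
      refine (abs_add_le _ _).trans ?_
      rw [abs_mul, abs_mul, abs_mul, abs_two, abs_of_pos ht]
      gcongr
    have c2 : (D * t + o * D') * o / (t ^ 2 + o ^ 2) ≤ D + D' := by
      rw [div_le_iff₀ (by positivity)]
      nlinarith [mul_nonneg hD0 (sq_nonneg (t - o)), mul_nonneg hD (sq_nonneg t),
        mul_nonneg hD0 (mul_nonneg ht.le ho)]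
    refine (mul_le_mul_of_nonneg_right c1 ho).trans (le_trans (le_of_eq ?_)
      (mul_le_mul_of_nonneg_left c2 (by positivity : 0 ≤ 2 * s ^ 2)))
    ring
  obtain ⟨G, hG⟩ : ∃ G, G = D / s := ⟨_, rfl⟩
  obtain ⟨H, hH⟩ : ∃ H, H = χ * D' / S := ⟨_, rfl⟩
  have G0 : 0 ≤ G := by rw [hG]; positivity
  have a3 : χ ^ 2 * (D + D') / S ≤ G + H := by
    have c1 : χ ^ 2 * D / S ≤ 1 ^ 2 * D / s := by gcongr
    have c2 : χ * (χ * D' / S) ≤ 1 * (χ * D' / S) := by gcongr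
    have c3 : χ ^ 2 * (D + D') / S = χ ^ 2 * D / S + χ * (χ * D' / S) := by ring
    rw [one_pow, one_mul] at c1
    rw [c3, hG, hH]
    linarith
  have b1 : |θ * ω / s ^ 2 * Y| ≤ 3 * (s * o) * (G + H) := by
    calc |θ * ω / s ^ 2 * Y| = θ * |ω| / s ^ 2 * |Y| := by
          rw [abs_mul, abs_div, abs_mul, abs_of_nonneg θ0, abs_of_pos hW]
      _ ≤ θ * |ω| / s ^ 2 * (t * o) := by gcongr
      _ = θ * t * (|ω| * o) / s ^ 2 := by ring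
      _ ≤ 3 / 2 * (χ ^ 2 * (s * o) / S) * (2 * s ^ 2 * (D + D')) / s ^ 2 := by gcongr
      _ = 3 * (s * o) * (χ ^ 2 * (D + D') / S) := by field_simp
      _ ≤ _ := by gcongr
  have b3 : |θ * ω / (s ^ 2) ^ 2 * (g * t)| ≤ 3 * G * (G + H) := by
    calc |θ * ω / (s ^ 2) ^ 2 * (g * t)| = θ * t * |ω| * |g| / (s ^ 2) ^ 2 := by
          rw [abs_mul, abs_div, abs_mul, abs_mul, abs_of_nonneg θ0, abs_of_pos ht,
            abs_of_pos (by positivity : 0 < (s ^ 2) ^ 2)]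
          ring
      _ ≤ 3 / 2 * (χ ^ 2 * (s * o) / S) * |ω| * D / (s ^ 2) ^ 2 := by gcongr
      _ = 3 / 2 * (χ ^ 2 * s / S) * (|ω| * o) * D / (s ^ 2) ^ 2 := by ring
      _ ≤ 3 / 2 * (χ ^ 2 * s / S) * (2 * s ^ 2 * (D + D')) * D / (s ^ 2) ^ 2 := by gcongr
      _ = 3 * (D / s) * (χ ^ 2 * (D + D') / S) := by field_simp
      _ ≤ _ := by rw [← hG]; gcongr
  have e1 : -κ * ((2 * S ^ 2 * (g * t) - r ^ 2 * (s ^ 2 + γ * V) * (2 * (g * t) + 2 * B)) / n) /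
      s ^ 2 * (g * t) = -(2 * κ * (g ^ 2 / s ^ 2) * (S ^ 2 * t ^ 2 / n)) +
        2 * κ * r ^ 2 * (s ^ 2 + γ * V) * (g * t) ^ 2 / (n * s ^ 2) +
        2 * κ * r ^ 2 * (s ^ 2 + γ * V) * t / (n * s ^ 2) * (B * g) := by
    field_simp
    ring
  have f1 : 2 * κ * (g ^ 2 / s ^ 2) * (S ^ 2 * t ^ 2 / n) ≤ 2 * κ * (g ^ 2 / s ^ 2) * r ^ 2 :=
    mul_le_mul_of_nonneg_left ((div_le_iff₀ hn).mpr h1) (by positivity)
  have f2 : 0 ≤ 2 * κ * r ^ 2 * (s ^ 2 + γ * V) * (g * t) ^ 2 / (n * s ^ 2) := by positivity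
  have f3 : 2 * κ * r ^ 2 - θ ≤ 4 / c := by
    have : 2 * κ * r ^ 2 - θ = 4 / c * (χ * r) := by rw [hκ, hθ]; field_simp; ring
    rw [this]
    exact mul_le_of_le_one_right (by positivity) (mul_le_one₀ x1 hr.le r1)
  have f4 : g ^ 2 / s ^ 2 ≤ G ^ 2 := by
    rw [hG, div_pow]
    exact div_le_div_of_nonneg_right (sq_le_sq' (abs_le.mp hg).1 (abs_le.mp hg).2) hW.le
  have f5 := mul_le_mul f3 f4 (by positivity) (by positivity)
  have f6 : κ * r ^ 3 ≤ 5 / 2 * χ := by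
    have : κ * r ^ 3 = χ * (χ / 2 + 2 * (r ^ 2 / c)) := by rw [hκ]; field_simp
    have c1 : r ^ 2 / c ≤ 1 := (div_le_one hc).mpr zc
    rw [this]
    nlinarith
  have f7 : |2 * κ * r ^ 2 * (s ^ 2 + γ * V) * t / (n * s ^ 2) * (B * g)| ≤ 10 * G * H := by
    have c1 : γ * V ≤ 1 * s ^ 2 := by gcongr
    calc _ = 2 * κ * r ^ 2 * (s ^ 2 + γ * V) * t / (n * s ^ 2) * (|B| * |g|) := by
          rw [abs_mul, abs_mul B, abs_of_nonneg (by positivity)]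
      _ ≤ 2 * κ * r ^ 2 * (s ^ 2 + 1 * s ^ 2) * t / (n * s ^ 2) * (o * D' * D) := by gcongr
      _ = 4 * κ * r ^ 2 * (D' * D) / (n * (S * s)) * (t * o * (S * s)) := by
          field_simp
          ring
      _ ≤ 4 * κ * r ^ 2 * (D' * D) / (n * (S * s)) * (r * n) := by gcongr
      _ = 4 * (D' * D) / (S * s) * (κ * r ^ 3) := by field_simp
      _ ≤ 4 * (D' * D) / (S * s) * (5 / 2 * χ) := by gcongr
      _ = _ := by
          rw [hG, hH]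
          field_simp
          ring
  have e2 : (4 / c + 11) / s ^ 2 * D ^ 2 = 4 / c * G ^ 2 + 11 * G ^ 2 := by rw [hG]; ring
  have e3 : 8 / S ^ 2 * (χ ^ 2 * D' ^ 2) = 8 * H ^ 2 := by rw [hH]; ring
  have e4 : θ / s ^ 2 * g ^ 2 = θ * (g ^ 2 / s ^ 2) := by ring
  rw [sub_mul, e1, e2, e3, e4]
  linarith [neg_le_of_abs_le b1, le_of_abs_le b3, neg_le_of_abs_le f7, sq_nonneg (G - H),
    sq_nonneg (s * o - G), sq_nonneg (s * o - H)]

theorem d_th {s : ℝ} (h : 0 < s) : HasDerivAt (th c) (-ka c s) s := by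
  have h0 : 0 < √s := Real.sqrt_pos.mpr h
  have h2 := (NB.d_max (1 - s / c)).comp s (((hasDerivAt_id' s).div_const c).const_sub 1)
  refine (h2.fun_div ((hasDerivAt_id' s).sqrt h.ne') h0.ne').congr_deriv ?_
  simp only [ka, Function.comp_apply, Real.sq_sqrt h.le]
  obtain ⟨r, hr, rfl⟩ : ∃ r, 0 < r ∧ s = r ^ 2 := ⟨√s, h0, (Real.sq_sqrt h.le).symm⟩
  rw [Real.sqrt_sq hr.le]
  field_simp
  ring

theorem th_zero (hc : 0 < c) {s : ℝ} (h : c ≤ s) : th c s = 0 ∧ ka c s = 0 := by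
  have : max (1 - s / c) 0 = 0 := max_eq_right (sub_nonpos.mpr ((one_le_div hc).mpr h))
  simp [th, ka, this]

theorem th_nonneg (c s : ℝ) : 0 ≤ th c s := by
  unfold th
  positivity

theorem th_ge {s q : ℝ} (hc : 0 < c) (hs : 0 < s) (h1 : 4 * s ≤ 3 * c) (h2 : q * s ≤ 4) :
    1 / 32 * √q ≤ th c s := by
  have h3 : 1 / 4 ≤ max (1 - s / c) 0 := by
    refine le_max_of_le_left ?_
    have : s / c ≤ 3 / 4 := by
      rw [div_le_iff₀ hc]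
      linarith
    linarith
  have h4 : √q * √s ≤ 2 := by
    rw [mul_comm, ← Real.sqrt_mul hs.le, Real.sqrt_le_left zero_le_two]
    linarith
  have h5 := pow_le_pow_left₀ (by norm_num) h3 2
  rw [th, le_div_iff₀ (Real.sqrt_pos.mpr hs)]
  linarith

variable {T : ℝ}

theorem z_pos (ha : 0 < a) (hT : 0 < T) (hσ : 0 < σ) (x : E) : 0 < z4 p a T σ u w x := by
  unfold z4
  positivity

theorem one_le_q (hp : 2 ≤ p) : 1 ≤ p / (p - 1) := (one_le_div (by linarith)).mpr (by linarith)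

theorem c_z (hp : 2 ≤ p) (ha : 0 < a) (hσ : 0 < σ) (hu : ContDiff ℝ 1 u) (hw : ContDiff ℝ 1 w) :
    ContDiff ℝ 1 (z4 p a T σ u w) :=
  have h := (hu.norm_sq ℂ).add (hw.norm_sq ℂ)
  ((contDiff_const.mul (hu.norm_sq ℂ)).add contDiff_const).div
    (((contDiff_const.mul h).add (h.rpow_const_of_le (by simpa using one_le_q hp))).add
      contDiff_const) fun x => by positivity

theorem hq (hp : 2 ≤ p) {V N : ℝ} (V0 : 0 ≤ V) (el : V ^ (p - 1) = N) :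
    N ^ (p - 1)⁻¹ = V ∧ N ^ (p / (p - 1) - 1) = V ∧ N ^ (p / (p - 1)) = V * N := by
  have hp1 : 0 < p - 1 := by linarith
  have h1 : N ^ (p - 1)⁻¹ = V := by rw [← el, Real.rpow_rpow_inv V0 hp1.ne']
  have h2 : p / (p - 1) = (p - 1)⁻¹ + 1 := by field_simp; ring
  refine ⟨h1, by rw [h2, add_sub_cancel_right, h1], ?_⟩
  rw [h2, Real.rpow_add_one' (el ▸ Real.rpow_nonneg V0 _) (by positivity), h1]

theorem z_eq (hp : 2 ≤ p) {V : ℝ} {x : E} (V0 : 0 ≤ V)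
    (el : V ^ (p - 1) = ‖u x‖ ^ 2 + ‖w x‖ ^ 2) :
    z4 p a T σ u w x = (T * ‖u x‖ ^ 2 + σ) / ((a + V) * (‖u x‖ ^ 2 + ‖w x‖ ^ 2) + σ) := by
  rw [z4, (hq hp V0 el).2.2, add_mul]

theorem d_z (hp : 2 ≤ p) (ha : 0 < a) (hσ : 0 < σ) {V : ℝ} {x : E} (V0 : 0 ≤ V)
    (el : V ^ (p - 1) = ‖u x‖ ^ 2 + ‖w x‖ ^ 2) (hu : DifferentiableAt ℝ u x)
    (hw : DifferentiableAt ℝ w x) (v : E) : fderiv ℝ (z4 p a T σ u w) x v =
      (2 * T * (inner ℂ (u x) (fderiv ℝ u x v)).re - z4 p a T σ u w x * (a + V + (p - 1)⁻¹ * V) *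
        (2 * (inner ℂ (u x) (fderiv ℝ u x v)).re + 2 * (inner ℂ (w x) (fderiv ℝ w x v)).re)) /
        ((a + V) * (‖u x‖ ^ 2 + ‖w x‖ ^ 2) + σ) := by
  have h1 := (hu.norm_sq ℂ).hasFDerivAt
  have h2 := h1.fun_add (hw.norm_sq ℂ).hasFDerivAt
  have hp1 : p - 1 ≠ 0 := by linarith
  have hn : a * (‖u x‖ ^ 2 + ‖w x‖ ^ 2) + (‖u x‖ ^ 2 + ‖w x‖ ^ 2) ^ (p / (p - 1)) + σ ≠ 0 := by
    positivity
  have h3 : HasFDerivAt (z4 p a T σ u w) _ x := ((h1.const_mul T).add_const σ).fun_mul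
    ((hasDerivAt_inv hn).comp_hasFDerivAt x (((h2.const_mul a).fun_add
      (h2.rpow_const (p := p / (p - 1)) (Or.inr (one_le_q hp)))).add_const σ))
  rw [h3.fderiv, z_eq hp V0 el]
  simp only [add_apply, smul_apply, smul_eq_mul, NB.dsq hu, NB.dsq hw,
    (hq hp V0 el).2.1, (hq hp V0 el).2.2, ← add_mul]
  have hn' : (a + V) * (‖u x‖ ^ 2 + ‖w x‖ ^ 2) + σ ≠ 0 := by positivity
  field_simp
  ring

/-- A compact set outside which the share is large. -/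
theorem far (hp : 2 ≤ p) (ha : 0 < a) (hT : 0 < T) (hσ : 0 < σ) (hu : Reg e u) (hw : Reg e w) :
    ∃ K : Set E, IsCompact K ∧ ∀ x ∉ K, 1 / 2 ≤ z4 p a T σ u w x := by
  obtain ⟨L, hL⟩ := hu.lip
  obtain ⟨L', hL'⟩ := hw.lip
  obtain ⟨δ, δ0, δ1, δ2⟩ : ∃ δ : ℝ, 0 < δ ∧ δ ≤ 1 ∧ δ ≤ σ / (a + 1) :=
    ⟨min 1 (σ / (a + 1)), by positivity, min_le_left _ _, min_le_right _ _⟩
  have ht : 0 < √δ / 2 := by positivity
  refine ⟨_, ((Alg.bdd hL hu.l2 ht).union (Alg.bdd hL' hw.l2 ht)).isCompact_closure,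
    fun x hx => ?_⟩
  have h1 : ‖w x‖ < √δ / 2 := not_le.mp fun h => hx (subset_closure (Or.inr h))
  have h1' : ‖u x‖ < √δ / 2 := not_le.mp fun h => hx (subset_closure (Or.inl h))
  have h2 := pow_le_pow_left₀ (norm_nonneg _) h1.le 2
  have h2' := pow_le_pow_left₀ (norm_nonneg _) h1'.le 2
  rw [div_pow, Real.sq_sqrt δ0.le] at h2 h2'
  have h3 : (‖u x‖ ^ 2 + ‖w x‖ ^ 2) ^ (p / (p - 1)) ≤ ‖u x‖ ^ 2 + ‖w x‖ ^ 2 :=
    Real.rpow_le_self_of_le_one (by positivity) (by linarith) (one_le_q hp)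
  rw [le_div_iff₀ (by positivity)] at δ2
  have h4 := mul_le_mul_of_nonneg_left (show ‖u x‖ ^ 2 + ‖w x‖ ^ 2 ≤ δ by linarith) ha.le
  rw [z4, le_div_iff₀ (by positivity)]
  linarith [mul_nonneg hT.le (sq_nonneg ‖u x‖)]

theorem c_th (hp : 2 ≤ p) (ha : 0 < a) (hT : 0 < T) (hσ : 0 < σ) (hu : ContDiff ℝ 1 u)
    (hw : ContDiff ℝ 1 w) : ContDiff ℝ 1 fun x => th c (z4 p a T σ u w x) :=
  have hz := c_z (T := T) hp ha hσ hu hw
  (NB.c_max.comp (contDiff_const.sub (hz.div_const c))).div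
    (hz.sqrt fun x => (z_pos ha hT hσ x).ne') fun x => (Real.sqrt_pos.mpr (z_pos ha hT hσ x)).ne'

/-- The test weight. -/
noncomputable def et (c σ a p T : ℝ) (u w : E → S) (x : E) : ℝ :=
  th c (z4 p a T σ u w x) / (a + (‖u x‖ ^ 2 + ‖w x‖ ^ 2) ^ (p - 1)⁻¹)

theorem c_et (hp : 2 ≤ p) (ha : 0 < a) (hT : 0 < T) (hc : 0 < c) (hc2 : 2 * c ≤ 1) (hσ : 0 < σ)
    (hu : ContDiff ℝ 1 u) (hw : ContDiff ℝ 1 w) : ContDiff ℝ 1 (et c σ a p T u w) := by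
  refine contDiff_iff_contDiffAt.mpr fun x => ?_
  by_cases h : ‖u x‖ ^ 2 + ‖w x‖ ^ 2 = 0
  · have h1 : c < z4 p a T σ u w x := by
      have : ‖u x‖ ^ 2 = 0 := by nlinarith [sq_nonneg ‖u x‖, sq_nonneg ‖w x‖]
      rw [z4, h, this, Real.zero_rpow (by linarith [one_le_q hp])]
      simp only [mul_zero, zero_add, div_self hσ.ne']
      linarith
    refine (contDiffAt_const (c := (0 : ℝ))).congr_of_eventuallyEq ?_
    filter_upwards [(c_z hp ha hσ hu hw).continuous.continuousAt.eventually (lt_mem_nhds h1)]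
      with y hy
    rw [et, (th_zero hc hy.le).1, zero_div]
  · exact (c_th hp ha hT hσ hu hw).contDiffAt.div (contDiffAt_const.add
      (((hu.norm_sq ℂ).add (hw.norm_sq ℂ)).contDiffAt.rpow_const_of_ne h)) (by positivity)

end Pool.Agent.MP_e4cac8_mp.NB4
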