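import Pool.Agent.Mg.Fe4cac8.G7be784

set_option linter.all false

/-! The size of the comparison potential in the window of slopes. -/

open Set

namespace Pool.Agent.MP_e4cac8_mp

namespace Win4

theorem big {P : Par} (h : P.Ok) {β : ℝ} (hβ : 3 / 2 ≤ β) :
    10 ^ 7 * P.Λ ^ 4 ≤ β ^ (P.p - 1) := by
  have hD := h.hD
  have h1 : 1 / (32 * P.D) ≤ 1 / 2 := one_div_le_one_div_of_le two_pos (by linarith)
  have h0 : 0 < 1 / (32 * P.D) := by positivity
  have hp := h.hp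
  exact h.big.trans ((Real.rpow_le_rpow (by positivity) (by linarith) (by linarith)).trans
    (Real.rpow_le_rpow_of_exponent_le (by linarith) (by linarith)))

theorem base {P : Par} (h : P.Ok) {t : ℝ} (ht : P.Lv t) :
    ∃ x : ℝ, 0 ≤ x ∧ x ^ (P.p - 1) * x = P.T * t ^ 2 ∧ P.a + x ≤ P.jf t ^ 2 ∧
      P.jf t ^ 2 ≤ 2 * P.a + 2 * x ∧ x ≤ P.T ∧ (tl P.p P.b ≤ t → P.T ≤ 40 * x) ∧ 0 ≤ P.bt t ∧
      P.bt t ^ 2 = P.T * t ^ 2 * P.jf t ^ 2 := by
  have hD := h.hD
  have hp := h.hp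
  have ha := h.ha
  have hb := h.hb
  have hT : 0 < P.T := hb.trans_le h.bT
  have p0 : 0 < P.p := by linarith
  have pw : ∀ x : ℝ, 0 ≤ x → x ^ (P.p - 1) * x = x ^ P.p := fun x hx => by
    rw [← Real.rpow_add_one' hx (by linarith), sub_add_cancel]
  have h0 : 0 ≤ P.T * t ^ 2 := by positivity
  obtain ⟨z, hz⟩ : ∃ z, z = (P.T * t ^ 2) ^ (2 * P.p)⁻¹ := ⟨_, rfl⟩
  have z0 : 0 ≤ z := by rw [hz]; positivity
  have zp : (z ^ 2) ^ P.p = P.T * t ^ 2 := by
    rw [← Real.rpow_two, ← Real.rpow_mul z0, hz, Real.rpow_inv_rpow h0 (by positivity)]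
  have hj : P.jf t = √P.a + z := by rw [hz]; rfl
  have sa := Real.sq_sqrt ha.le
  have s0 := Real.sqrt_nonneg P.a
  refine ⟨z ^ 2, sq_nonneg _, by rw [pw _ (sq_nonneg _), zp], ?_, ?_, ?_, fun hl => ?_, ?_, ?_⟩
  · rw [hj]; nlinarith [mul_nonneg s0 z0]
  · rw [hj]; nlinarith [sq_nonneg (√P.a - z)]
  · rw [← Real.rpow_le_rpow_iff (sq_nonneg _) hT.le p0, zp, ← pw _ hT.le, mul_comm]
    exact mul_le_mul_of_nonneg_right ht.2 hT.le
  · have h1 : (P.b / 2) ^ (P.p - 1) / 8 ≤ t ^ 2 := by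
      rw [← Real.sq_sqrt (by positivity : 0 ≤ (P.b / 2) ^ (P.p - 1) / 8)]
      exact pow_le_pow_left₀ (Real.sqrt_nonneg _) hl 2
    have h2 : P.b / 4 ≤ z ^ 2 := by
      rw [← Real.rpow_le_rpow_iff (by positivity) (sq_nonneg _) p0, zp, ← pw _ (by positivity)]
      have h3 : (P.b / 2) ^ (P.p - 1) = 2 ^ (P.p - 1) * (P.b / 4) ^ (P.p - 1) := by
        rw [← Real.mul_rpow (by positivity) (by positivity)]
        congr 1
        ring
      have h4 : (2 : ℝ) ≤ 2 ^ (P.p - 1) := Real.self_le_rpow_of_one_le one_le_two (by linarith)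
      have h5 : 0 ≤ (P.b / 4) ^ (P.p - 1) := by positivity
      have h6 := mul_le_mul_of_nonneg_right h4 h5
      have h7 := mul_le_mul h.bT (by linarith : (P.b / 4) ^ (P.p - 1) / 4 ≤ t ^ 2) (by positivity)
        hT.le
      linarith
    linarith [h.Tb]
  · have := ht.1
    unfold Par.bt
    rw [hj]
    positivity
  · unfold Par.bt
    rw [mul_pow, mul_pow, Real.sq_sqrt hT.le]

theorem kkt (hV : StVm) {P : Par} (h : P.Ok) (s y t : ℝ) :
    0 ≤ P.U s y t ∧ P.U s y t ≤ P.M ∧ P.U s y t ^ (P.p - 1) * (P.a + P.U s y t) ^ 2 ≤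
      s ^ 2 * t ^ 2 * (P.a + P.U s y t) ^ 2 + s ^ 2 * y ^ 2 ∧
    (P.U s y t < P.M → P.U s y t ^ (P.p - 1) * (P.a + P.U s y t) ^ 2 =
      s ^ 2 * t ^ 2 * (P.a + P.U s y t) ^ 2 + s ^ 2 * y ^ 2) := by
  have ha := h.ha
  obtain ⟨v0, v1, v2, v3, -⟩ := (hV P.p P.a P.M (by linarith [h.hD, h.hp]) ha
    (by linarith [h.hb, h.bT, h.TM])).2 (s * y) (s * t)
  unfold Par.U
  generalize Vm P.p P.a P.M (s * y) (s * t) = U at *
  have hW : 0 < P.a + U := by positivity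
  have e : ((s * t) ^ 2 + (s * y) ^ 2 / (P.a + U) ^ 2) * (P.a + U) ^ 2 =
      s ^ 2 * t ^ 2 * (P.a + U) ^ 2 + s ^ 2 * y ^ 2 := by field_simp
  exact ⟨v0, v1, e ▸ mul_le_mul_of_nonneg_right v2 (sq_nonneg _), fun h => by rw [v3 h, e]⟩

theorem win (hV : StVm) {P : Par} (h : P.Ok) {s y t : ℝ} (hs : P.Sc s) (ht : P.Lv t)
    (hw : P.Win y t) :
    P.a + P.U s y t ≤ 3 * P.jf t ^ 2 ∧ P.jf t ^ 2 ≤ 8 * (P.a + P.U s y t) ∧
      (P.U s y t < P.M → s ^ 2 * (P.T * t ^ 2) ≤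
        4800 * (P.U s y t ^ (P.p - 1) * (P.a + P.U s y t))) := by
  obtain ⟨x, x0, xp, j1, j2, xT, xl, b0, b2⟩ := base h ht
  obtain ⟨v0, v1, v2, v3⟩ := kkt hV h s y t
  have hH := big h (by norm_num : (3 : ℝ) / 2 ≤ 3)
  have ha := h.ha
  have hΛ := h.hΛ
  have hT : 0 < P.T := h.hb.trans_le h.bT
  have p1 : 0 < P.p - 1 := by linarith [h.hD, h.hp]
  obtain ⟨s0, s1, s2⟩ := hs
  have y0 : 0 ≤ y := by
    refine le_trans ?_ hw.1
    unfold Par.lo
    split_ifs <;> positivity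
  have y1 : y ^ 2 ≤ P.Λ ^ 2 * (P.T * t ^ 2 * P.jf t ^ 2) := by
    rw [← b2, ← mul_pow]
    exact pow_le_pow_left₀ y0 hw.2 2
  have y2 : t < tl P.p P.b → P.T * t ^ 2 * P.jf t ^ 2 ≤ 1600 * y ^ 2 := fun hl => by
    have := hw.1
    rw [Par.lo, if_pos hl] at this
    have := pow_le_pow_left₀ (by positivity) this 2
    rw [mul_pow, b2] at this
    linarith
  have aM := h.aM
  have TM := h.TM
  generalize P.U s y t = U at *
  generalize P.jf t ^ 2 = J at *
  have m1 : 3 * x < U → 3 ^ (P.p - 1) * x ^ (P.p - 1) < U ^ (P.p - 1) := fun h => by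
    rw [← Real.mul_rpow (by norm_num) x0]
    exact Real.rpow_lt_rpow (by positivity) h p1
  have m2 : 3 * U ≤ x → 3 ^ (P.p - 1) * U ^ (P.p - 1) ≤ x ^ (P.p - 1) := fun h => by
    rw [← Real.mul_rpow (by norm_num) v0]
    exact Real.rpow_le_rpow (by positivity) h p1.le
  have m3 : 0 < x → 0 < x ^ (P.p - 1) := fun h => Real.rpow_pos_of_pos h _
  have m4 : 0 ≤ x ^ (P.p - 1) := by positivity
  have m5 : 0 ≤ U ^ (P.p - 1) := by positivity
  generalize x ^ (P.p - 1) = ξ at *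
  generalize U ^ (P.p - 1) = μ at *
  generalize (3 : ℝ) ^ (P.p - 1) = H at *
  have L2 : 25 ≤ P.Λ ^ 2 := by nlinarith
  have L4 : 25 * P.Λ ^ 2 ≤ P.Λ ^ 4 := by nlinarith
  have hs2 : s ^ 2 ≤ 1024 := by nlinarith
  have Hs : 1000 ≤ H * s ^ 2 := by
    have := mul_le_mul_of_nonneg_right (by linarith : 10 ^ 7 * (25 * P.Λ ^ 2) ≤ H) (sq_nonneg s)
    linarith
  obtain ⟨W, hW⟩ : ∃ W, W = P.a + U := ⟨_, rfl⟩
  rw [← hW] at v2 v3 ⊢
  have W0 : 0 < W := by linarith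
  have t2 := sq_nonneg t
  obtain ⟨τ, hτ⟩ : ∃ τ, τ = P.T * t ^ 2 := ⟨_, rfl⟩
  have τ0 : 0 ≤ τ := by rw [hτ]; positivity
  have tW : t ^ 2 * W ≤ τ := by
    rw [hτ, mul_comm]
    exact mul_le_mul_of_nonneg_right (by linarith) t2
  rw [← hτ] at xp y1 y2 ⊢
  have A : W ≤ 3 * J := by
    by_contra hc
    rw [not_le] at hc
    have h1 := mul_lt_mul'' (m1 (by linarith)) (by linarith : 3 * x < W)
      (mul_nonneg (by linarith) m4) (by positivity)
    have h2 : μ * W * W ≤ 1024 * (τ + P.Λ ^ 2 * τ) * W := by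
      have a1 : t ^ 2 * W * W ≤ τ * W := mul_le_mul_of_nonneg_right tW W0.le
      have a2 : P.Λ ^ 2 * τ * J ≤ P.Λ ^ 2 * τ * W :=
        mul_le_mul_of_nonneg_left (by linarith) (by positivity)
      have a3 := mul_le_mul hs2 (by linarith : t ^ 2 * W ^ 2 + y ^ 2 ≤ (τ + P.Λ ^ 2 * τ) * W)
        (by positivity) (by norm_num)
      linarith
    have h3 := le_of_mul_le_mul_right h2 W0
    have h4 := mul_le_mul_of_nonneg_right (by linarith : 1024 * (1 + P.Λ ^ 2) ≤ 3 * H) τ0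
    have h5 : H * ξ * (3 * x) = 3 * H * τ := by rw [← xp]; ring
    linarith
  have k1 : U < P.M → s ^ 2 * t ^ 2 ≤ μ := fun hU =>
    le_of_mul_le_mul_right (by rw [v3 hU]; exact le_add_of_nonneg_right (by positivity))
      (by positivity : 0 < W ^ 2)
  have k2 : U < P.M → t < tl P.p P.b → s ^ 2 * (τ * J) ≤ 1600 * (μ * W ^ 2) := fun hU hl => by
    have a1 := mul_le_mul_of_nonneg_left (y2 hl) (sq_nonneg s)
    have a2 : 0 ≤ s ^ 2 * t ^ 2 * W ^ 2 := by positivity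
    linarith [v3 hU]
  have B : J ≤ 8 * W := by
    rcases v1.eq_or_lt with hU | hU
    · linarith
    by_contra hc
    rw [not_le] at hc
    have x1 : 3 * W < x := by linarith
    have x2 := m2 (by linarith)
    have x3 := m3 (by linarith)
    have H0 : 0 ≤ H := by linarith
    rcases lt_or_ge t (tl P.p P.b) with hl | hl
    · have a1 := mul_le_mul_of_nonneg_left (k2 hU hl) H0
      have a2 := mul_le_mul_of_nonneg_right x2 (sq_nonneg W)
      have a3 : 3 * W * (8 * W) ≤ x * J := mul_le_mul x1.le hc.le (by positivity) x0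
      have a4 := mul_le_mul Hs (mul_le_mul_of_nonneg_left a3 x3.le) (by positivity) (by linarith)
      have a5 : 0 < ξ * W ^ 2 := by positivity
      rw [← xp] at a1
      linarith
    · have a1 := mul_le_mul (xl hl) ((mul_le_mul_of_nonneg_left (k1 hU) H0).trans x2)
        (by positivity) (by positivity)
      have a2 : 0 < τ := by rw [← xp]; exact mul_pos x3 (by linarith)
      have a3 := mul_le_mul_of_nonneg_right Hs τ0
      have a4 : P.T * (H * (s ^ 2 * t ^ 2)) = H * s ^ 2 * τ := by rw [hτ]; ring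
      linarith
  refine ⟨A, B, fun hU => ?_⟩
  rcases lt_or_ge t (tl P.p P.b) with hl | hl
  · refine le_of_mul_le_mul_right ?_ W0
    have a1 := mul_le_mul_of_nonneg_left A (by positivity : 0 ≤ s ^ 2 * τ)
    linarith [k2 hU hl]
  · have a1 := mul_le_mul (by linarith [xl hl] : P.T ≤ 4800 * W) (k1 hU) (by positivity)
      (by positivity)
    rw [hτ]
    linarith

end Win4

open Win4 in
theorem stWin (hV : StVm) (hP : StVp) : StWin := by
  intro P h s hs y t ht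
  obtain ⟨x, x0, -, j1, j2, xT, xl, b0, b2⟩ := base h ht
  have ha := h.ha
  have hb := h.hb
  have hΛ := h.hΛ
  have aM := h.aM
  have TM := h.TM
  have hT : 0 < P.T := h.hb.trans_le h.bT
  have p2 : 2 ≤ P.p := by linarith [h.hD, h.hp]
  have lo : P.lo t ≤ 1 / 40 * P.bt t := by
    unfold Par.lo
    split_ifs
    · exact le_rfl
    · positivity
  have hi : 1 / 40 * P.bt t ≤ P.Λ * P.bt t := mul_le_mul_of_nonneg_right (by linarith) b0
  refine ⟨win hV h hs ht, fun hy => ?_, fun hl => by linarith [xl hl], fun hl => ?_, by linarith⟩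
  · have m : P.U s y t ≤ P.U s (P.Λ * P.bt t) t :=
      (hP.1 P.p P.a P.M p2 ha (by linarith)).1 _ _ _ _ (by
        rw [abs_mul, abs_mul s]
        exact mul_le_mul_of_nonneg_left (hy.trans (le_abs_self _)) (abs_nonneg _)) le_rfl
    obtain ⟨-, B, -⟩ := win hV h hs ht ⟨lo.trans hi, le_rfl⟩
    obtain ⟨v0, v1, v2, -⟩ := kkt hV h s (P.Λ * P.bt t) t
    refine (Real.rpow_le_rpow (kkt hV h s y t).1 m (by linarith)).trans ?_
    rw [mul_pow P.Λ, b2] at v2
    generalize P.U s (P.Λ * P.bt t) t = U at *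
    have e : U ^ P.p = U ^ (P.p - 1) * U := by
      rw [← Real.rpow_add_one' v0 (by linarith), sub_add_cancel]
    have m5 : 0 ≤ U ^ (P.p - 1) := by positivity
    rw [e]
    refine (mul_le_mul_of_nonneg_left (by linarith : U ≤ P.a + U) m5).trans
      (le_of_mul_le_mul_right ?_ (by positivity : 0 < P.a + U))
    have a1 := mul_le_mul_of_nonneg_left B (by positivity : 0 ≤ s ^ 2 * P.Λ ^ 2 * P.T * t ^ 2)
    have a0 := mul_le_mul_of_nonneg_right (one_le_pow₀ (by linarith : 1 ≤ P.Λ) (n := 2)) hT.le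
    have a2 := mul_le_mul_of_nonneg_left (by linarith : P.a + U ≤ P.Λ ^ 2 * P.T)
      (by positivity : 0 ≤ s ^ 2 * t ^ 2 * (P.a + U))
    linarith
  · obtain ⟨-, B, -⟩ := win hV h hs ht ⟨lo, hi⟩
    obtain ⟨v0, v1, v2, -⟩ := kkt hV h s (1 / 40 * P.bt t) t
    have hH := big h le_rfl
    rw [mul_pow (1 / 40), b2] at v2
    generalize P.U s (1 / 40 * P.bt t) t = U at *
    by_contra hc
    rw [not_le] at hc
    have h1 : t ^ 2 ≤ (P.b / 2) ^ (P.p - 1) / 8 := by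
      rw [← Real.sq_sqrt (by positivity : 0 ≤ (P.b / 2) ^ (P.p - 1) / 8)]
      exact pow_le_pow_left₀ ht.1 hl.le 2
    have h2 : (3 / 2) ^ (P.p - 1) * (P.b / 2) ^ (P.p - 1) ≤ U ^ (P.p - 1) := by
      rw [← Real.mul_rpow (by norm_num) (by positivity)]
      exact Real.rpow_le_rpow (by positivity) (by linarith) (by linarith)
    have h3 : U ^ (P.p - 1) ≤ 2 * (s ^ 2 * t ^ 2) := by
      refine le_of_mul_le_mul_right ?_ (by positivity : 0 < (P.a + U) ^ 2)
      have a1 := mul_le_mul (by linarith [h.Tb] : P.T ≤ 200 * (P.a + U)) B (sq_nonneg _)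
        (by positivity)
      have a2 := mul_le_mul_of_nonneg_left a1 (by positivity : 0 ≤ s ^ 2 * t ^ 2)
      linarith
    have hs2 : s ^ 2 ≤ 1024 := by nlinarith [hs.1, hs.2.1]
    have h4 := mul_le_mul hs2 h1 (sq_nonneg _) (by norm_num)
    have h5 : 0 < (P.b / 2) ^ (P.p - 1) := by positivity
    have h6 : 1 ≤ P.Λ ^ 4 := one_le_pow₀ (by linarith)
    have h7 := mul_le_mul_of_nonneg_right (by linarith : 1000 ≤ (3 / 2 : ℝ) ^ (P.p - 1)) h5.le
    linarith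

end Pool.Agent.MP_e4cac8_mp
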