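import Pool.Agent.Mg.Fe4cac8.G43e91a

set_option linter.all false

section

/-! Real forms of the properties of the rearrangement. -/

open Set MeasureTheory Filter Topology
open scoped ENNReal NNReal
open Pool.Agent.MP_0b7119_mp.G

namespace Pool.Agent.MP_e4cac8_mp.Cmp

set_option linter.unusedSectionVars false

variable {E : Type} [NormedAddCommGroup E] [InnerProductSpace ℝ E] [FiniteDimensional ℝ E]
  [MeasurableSpace E] [BorelSpace E] {L : ℝ≥0} {ρ : E → ℝ} {φ y : ℝ → ℝ}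

theorem transfer (hρ : Measurable ρ) (h : Rearr L ρ φ y) {F : ℝ → ℝ} (hF : Measurable F)
    (hc : (0 : ℝ) < Module.finrank ℝ E * om E)
    (hi : IntegrableOn (fun x => F (ρ x)) {x | 0 < ρ x} volume) :
    IntegrableOn (fun r => F (φ r) * r ^ (Module.finrank ℝ E - 1)) {r | 0 < r ∧ 0 < φ r} volume ∧
      ∫ x in {x | 0 < ρ x}, F (ρ x) = Module.finrank ℝ E * om E *
        ∫ r in {r | 0 < r ∧ 0 < φ r}, F (φ r) * r ^ (Module.finrank ℝ E - 1) := by
  set c : ℝ := Module.finrank ℝ E * om E with hcd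
  set k := Module.finrank ℝ E - 1
  set I : Set ℝ := {r | 0 < r ∧ 0 < φ r}
  have hφ : Measurable φ := h.lip.continuous.measurable
  have hI : MeasurableSet I :=
    (measurableSet_lt measurable_const measurable_id).inter (measurableSet_lt measurable_const hφ)
  set w : ℝ → ℝ≥0∞ := fun r => ENNReal.ofReal (c * r ^ k) with hw
  have hwm : Measurable w := by fun_prop
  have hμ : Measure.map ρ (volume.restrict {x | 0 < ρ x}) =
      Measure.map φ ((volume.restrict I).withDensity w) := by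
    ext s hs
    rw [← lintegral_indicator_one hs, ← lintegral_indicator_one hs,
      lintegral_map (measurable_one.indicator hs) hρ,
      lintegral_map (measurable_one.indicator hs) hφ]
    exact (h.eqm _ (measurable_one.indicator hs)).trans
      (lintegral_withDensity_eq_lintegral_mul _ hwm ((measurable_one.indicator hs).comp hφ)).symm
  have hlt : ∀ᵐ r ∂(volume.restrict I), w r < ∞ := Eventually.of_forall fun _ => ENNReal.ofReal_lt_top
  have he : ∀ᵐ r ∂(volume.restrict I), (w r).toReal • F (φ r) = c * (F (φ r) * r ^ k) := by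
    filter_upwards [ae_restrict_mem hI] with r hr
    have := hr.1
    rw [hw, ENNReal.toReal_ofReal (by positivity), smul_eq_mul]
    ring
  have h1 : Integrable F (Measure.map ρ (volume.restrict {x | 0 < ρ x})) :=
    (integrable_map_measure hF.aestronglyMeasurable hρ.aemeasurable).mpr hi
  rw [hμ, integrable_map_measure hF.aestronglyMeasurable hφ.aemeasurable,
    integrable_withDensity_iff_integrable_smul' hwm hlt] at h1
  constructor
  · have := (h1.congr he).const_mul c⁻¹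
    simpa only [IntegrableOn, ← mul_assoc, inv_mul_cancel₀ hc.ne', one_mul] using this
  · rw [← integral_map hρ.aemeasurable hF.aestronglyMeasurable, hμ,
      integral_map hφ.aemeasurable hF.aestronglyMeasurable,
      integral_withDensity_eq_integral_toReal_smul hwm hlt, integral_congr_ae he,
      integral_const_mul]

theorem transfer2 (hρ : Measurable ρ) (h : Rearr L ρ φ y) {G : ℝ → ℝ → ℝ}
    (hG : Measurable fun t => G (y t) t) (hev : ∀ s t, G (-s) t = G s t) (h0 : G 0 0 = 0)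
    (hc : (0 : ℝ) < Module.finrank ℝ E * om E)
    (hi : IntegrableOn (fun x => G (y (ρ x)) (ρ x)) {x | 0 < ρ x} volume) :
    IntegrableOn (fun r => G (deriv φ r) (φ r) * r ^ (Module.finrank ℝ E - 1)) (Ioi 0) volume ∧
      ∫ x in {x | 0 < ρ x}, G (y (ρ x)) (ρ x) = Module.finrank ℝ E * om E *
        ∫ r in Ioi (0 : ℝ), G (deriv φ r) (φ r) * r ^ (Module.finrank ℝ E - 1) := by
  obtain ⟨h1, h2⟩ := transfer hρ h hG hc hi
  set k := Module.finrank ℝ E - 1
  set I : Set ℝ := {r | 0 < r ∧ 0 < φ r}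
  have hφ : Measurable φ := h.lip.continuous.measurable
  have hI : MeasurableSet I :=
    (measurableSet_lt measurable_const measurable_id).inter (measurableSet_lt measurable_const hφ)
  have he : ∀ᵐ r ∂(volume.restrict I), G (y (φ r)) (φ r) * r ^ k = G (deriv φ r) (φ r) * r ^ k := by
    filter_upwards [ae_restrict_mem hI, ae_restrict_of_ae h.lip.ae_differentiableAt] with r hr hd
    rw [h.der r hr.1 hd, hev]
  have hz : ∀ r ∈ Ioi (0 : ℝ) \ I, G (deriv φ r) (φ r) * r ^ k = 0 := by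
    intro r hr
    have e1 : φ r = 0 := le_antisymm (not_lt.mp fun hp => hr.2 ⟨hr.1, hp⟩) (h.nonneg r)
    have e2 : deriv φ r = 0 :=
      IsLocalMin.deriv_eq_zero (Eventually.of_forall fun s => by rw [e1]; exact h.nonneg s)
    rw [e1, e2, h0, zero_mul]
  refine ⟨IntegrableOn.of_forall_sdiff_eq_zero (h1.congr he) measurableSet_Ioi hz, ?_⟩
  rw [h2, integral_congr_ae he,
    setIntegral_eq_of_subset_of_forall_sdiff_eq_zero measurableSet_Ioi (fun r hr => hr.1) hz]

theorem iso_real (h : Rearr L ρ φ y) {C : ℝ → ℝ} (hC : Measurable C) (hC0 : ∀ t, 0 ≤ C t)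
    (h1 : IntegrableOn (fun x => C (ρ x) * y (ρ x)) {x | 0 < ρ x} volume)
    (h2 : IntegrableOn (fun x => C (ρ x) * ‖fderiv ℝ ρ x‖) {x | 0 < ρ x} volume) :
    ∫ x in {x | 0 < ρ x}, C (ρ x) * y (ρ x) ≤ ∫ x in {x | 0 < ρ x}, C (ρ x) * ‖fderiv ℝ ρ x‖ := by
  have := h.iso (fun t => ENNReal.ofReal (C t)) hC.ennreal_ofReal
  simp only [← ENNReal.ofReal_mul (hC0 _)] at this
  have n2 : ∀ x, 0 ≤ C (ρ x) * ‖fderiv ℝ ρ x‖ := fun x => mul_nonneg (hC0 _) (norm_nonneg _)
  rwa [← ofReal_integral_eq_lintegral_ofReal h1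
    (Eventually.of_forall fun x => mul_nonneg (hC0 _) (h.ynn _).1),
    ← ofReal_integral_eq_lintegral_ofReal h2 (Eventually.of_forall n2),
    ENNReal.ofReal_le_ofReal_iff (integral_nonneg n2)] at this

theorem int_y (hρ : Measurable ρ) (h : Rearr L ρ φ y) (hρi : Integrable (fun x => ρ x ^ 2) volume)
    (hg : IntegrableOn (fun x => ‖fderiv ℝ ρ x‖ ^ 2) {x | 0 < ρ x} volume) :
    IntegrableOn (fun x => y (ρ x) ^ 2) {x | 0 < ρ x} volume := by
  set Ω := {x | 0 < ρ x}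
  have hΩ : MeasurableSet Ω := measurableSet_lt measurable_const hρ
  set C : ℕ → ℝ → ℝ := fun n => (Ioi (1 / ((n : ℝ) + 1))).indicator y with hCd
  have hC : ∀ n, Measurable (C n) := fun n => h.meas.indicator measurableSet_Ioi
  have hC0 : ∀ n t, 0 ≤ C n t := fun n t => indicator_nonneg (fun s _ => (h.ynn s).1) t
  have hsq : ∀ n t, C n t * y t = C n t ^ 2 := fun n t => by
    by_cases ht : t ∈ Ioi (1 / ((n : ℝ) + 1))
    · simp only [hCd, indicator_of_mem ht, sq]
    · simp only [hCd, indicator_of_notMem ht, zero_mul, sq]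
  have hi : ∀ n, IntegrableOn (fun x => C n (ρ x) ^ 2) Ω volume := fun n => by
    refine Integrable.integrableOn ?_
    refine (hρi.const_mul (((L : ℝ) * (n + 1)) ^ 2)).mono'
      (((hC n).comp hρ).pow_const 2).aestronglyMeasurable (Eventually.of_forall fun x => ?_)
    rw [Real.norm_of_nonneg (sq_nonneg _), ← mul_pow]
    by_cases ht : ρ x ∈ Ioi (1 / ((n : ℝ) + 1))
    · simp only [hCd, indicator_of_mem ht]
      refine pow_le_pow_left₀ (h.ynn _).1 ((h.ynn _).2.trans ?_) 2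
      have h1 : 1 ≤ ((n : ℝ) + 1) * ρ x := by
        have := (div_lt_iff₀ (by positivity)).mp (mem_Ioi.mp ht)
        linarith
      nlinarith [L.coe_nonneg]
    · simp only [hCd, indicator_of_notMem ht]
      simpa using sq_nonneg _
  have hb : ∀ n, ∫ x in Ω, C n (ρ x) ^ 2 ≤ ∫ x in Ω, ‖fderiv ℝ ρ x‖ ^ 2 := fun n => by
    have hle : ∀ x, C n (ρ x) * ‖fderiv ℝ ρ x‖ ≤ (C n (ρ x) ^ 2 + ‖fderiv ℝ ρ x‖ ^ 2) / 2 :=
      fun x => by nlinarith [sq_nonneg (C n (ρ x) - ‖fderiv ℝ ρ x‖)]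
    have h3 := ((hi n).add hg).div_const 2
    have h2 : IntegrableOn (fun x => C n (ρ x) * ‖fderiv ℝ ρ x‖) Ω volume :=
      h3.mono' (((hC n).comp hρ).mul (measurable_fderiv ℝ ρ).norm).aestronglyMeasurable
        (Eventually.of_forall fun x => by
          rw [Real.norm_of_nonneg (mul_nonneg (hC0 _ _) (norm_nonneg _))]
          exact hle x)
    have h4 := iso_real h (hC n) (hC0 n) (by simpa only [hsq] using hi n) h2
    have h5 := integral_mono h2 h3 hle
    simp only [hsq] at h4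
    simp only [Pi.add_apply] at h5
    rw [integral_div, integral_add (hi n) hg] at h5
    linarith
  refine ⟨((h.meas.comp hρ).pow_const 2).aestronglyMeasurable, ?_⟩
  rw [hasFiniteIntegral_iff_ofReal (Eventually.of_forall fun x => sq_nonneg _)]
  have hl := lintegral_liminf_le (μ := volume.restrict Ω) (u := atTop)
    (f := fun n x => ENNReal.ofReal (C n (ρ x) ^ 2))
    fun n => (((hC n).comp hρ).pow_const 2).ennreal_ofReal
  have he : ∀ᵐ x ∂(volume.restrict Ω), ENNReal.ofReal (y (ρ x) ^ 2) =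
      liminf (fun n => ENNReal.ofReal (C n (ρ x) ^ 2)) atTop := by
    filter_upwards [ae_restrict_mem hΩ] with x hx
    refine (Tendsto.liminf_eq (tendsto_const_nhds.congr' ?_)).symm
    filter_upwards [tendsto_one_div_add_atTop_nhds_zero_nat.eventually
      (gt_mem_nhds (show 0 < ρ x from hx))] with n hn
    simp only [hCd, indicator_of_mem (mem_Ioi.mpr hn)]
  rw [lintegral_congr_ae he]
  refine hl.trans_lt (lt_of_le_of_lt (liminf_le_of_frequently_le' (Frequently.of_forall fun n => ?_))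
    (ENNReal.ofReal_lt_top (r := ∫ x in Ω, ‖fderiv ℝ ρ x‖ ^ 2)))
  rw [← ofReal_integral_eq_lintegral_ofReal (hi n) (Eventually.of_forall fun x => sq_nonneg _)]
  exact ENNReal.ofReal_le_ofReal (hb n)

end Pool.Agent.MP_e4cac8_mp.Cmp

end

section

/-! Choice of the scale of the comparison potential. -/

open Set MeasureTheory Filter Topology
open scoped ENNReal NNReal
open Pool.Agent.MP_0b7119_mp.G

namespace Pool.Agent.MP_e4cac8_mp.Cmp

variable {p a M : ℝ}

theorem Vm_zero (hV : StVm) (hp : 2 ≤ p) (ha : 0 < a) (hM : 0 < M) : Vm p a M 0 0 = 0 := by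
  obtain ⟨-, hvm⟩ := hV p a M hp ha hM
  have h3 := (hvm 0 0).2.2.1
  by_contra hne0
  have h5 : 0 < Vm p a M 0 0 := (hvm 0 0).1.lt_of_ne (Ne.symm hne0)
  have := Real.rpow_pos_of_pos h5 (p - 1)
  simp at h3
  linarith

theorem Vm_neg (p a M y t : ℝ) : Vm p a M (-y) t = Vm p a M y t := by
  unfold Vm
  simp only [even_two, Even.neg_pow]

theorem Vm_pow_le (hV : StVm) (hp : 2 ≤ p) (ha : 0 < a) (hM : 0 < M) (y t : ℝ) :
    Vm p a M y t ^ p ≤ M * (t ^ 2 + y ^ 2 / a ^ 2) := by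
  obtain ⟨h0, h1, h2, -⟩ := (hV p a M hp ha hM).2 y t
  have e1 : Vm p a M y t ^ p = Vm p a M y t * Vm p a M y t ^ (p - 1) := by
    rw [mul_comm, ← Real.rpow_add_one' h0 (by linarith)]
    congr 1
    ring
  rw [e1]
  refine mul_le_mul h1 (h2.trans ?_) (Real.rpow_nonneg h0 _) hM.le
  gcongr
  linarith

theorem meas_Vm (hV : StVm) (hp : 2 ≤ p) (ha : 0 < a) (hM : 0 < M) {X : Type} [MeasurableSpace X]
    {y t : X → ℝ} (hy : Measurable y) (ht : Measurable t) :
    Measurable fun x => Vm p a M (y x) (t x) :=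
  (hV p a M hp ha hM).1.measurable.comp (hy.prodMk ht)

theorem int_Vm (hV : StVm) (hp : 2 ≤ p) (ha : 0 < a) (hM : 0 < M) {X : Type} [MeasurableSpace X]
    {μ : Measure X} {y t : X → ℝ} (hy : Measurable y) (ht : Measurable t)
    (hyi : Integrable (fun x => y x ^ 2) μ) (hti : Integrable (fun x => t x ^ 2) μ) (s : ℝ) :
    Integrable (fun x => Vm p a M (s * y x) (s * t x) ^ p) μ := by
  refine (((hti.const_mul (s ^ 2)).add ((hyi.const_mul (s ^ 2)).div_const (a ^ 2))).const_mul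
    M).mono' ((meas_Vm hV hp ha hM (hy.const_mul s) (ht.const_mul s)).pow_const
    p).aestronglyMeasurable (Eventually.of_forall fun x => ?_)
  rw [Real.norm_of_nonneg (Real.rpow_nonneg ((hV p a M hp ha hM).2 _ _).1 _)]
  simpa only [mul_pow, Pi.add_apply] using Vm_pow_le hV hp ha hM (s * y x) (s * t x)

theorem exists_scale (hV : StVm) (hp : 2 ≤ p) (ha : 0 < a) {M₀ : ℝ} (h0 : 0 ≤ M₀) (hM : M₀ < M)
    {X : Type} [MeasurableSpace X] {μ : Measure X} {y t V : X → ℝ} (hy : Measurable y)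
    (ht : Measurable t) (hyi : Integrable (fun x => y x ^ 2) μ)
    (hti : Integrable (fun x => t x ^ 2) μ) (htp : ∀ᵐ x ∂μ, 0 < t x) (hV0 : ∀ x, 0 ≤ V x)
    (hVM : ∀ x, V x ≤ M₀) (hVi : Integrable (fun x => V x ^ p) μ) (hpos : 0 < ∫ x, V x ^ p ∂μ) :
    ∃ s : ℝ, 0 < s ∧ ∫ x, Vm p a M (s * y x) (s * t x) ^ p ∂μ = ∫ x, V x ^ p ∂μ := by
  have hM0 : 0 < M := h0.trans_lt hM
  obtain ⟨hc, hvm⟩ := hV p a M hp ha hM0
  set J : ℝ → ℝ := fun s => ∫ x, Vm p a M (s * y x) (s * t x) ^ p ∂μ with hJ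
  have hm := fun s : ℝ => (meas_Vm hV hp ha hM0 (hy.const_mul s) (ht.const_mul s)).pow_const p
  have hJ0 : J 0 = 0 := by
    simp only [hJ, zero_mul, Vm_zero hV hp ha hM0, Real.zero_rpow (by linarith : p ≠ 0),
      integral_zero]
  have hcont : ∀ T : ℝ, ContinuousOn J (Icc 0 T) := fun T => by
    refine continuousOn_of_dominated (fun s _ => (hm s).aestronglyMeasurable)
      (fun s hs => Eventually.of_forall fun x => ?_)
      (((hti.const_mul (T ^ 2)).add ((hyi.const_mul (T ^ 2)).div_const (a ^ 2))).const_mul M)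
      (Eventually.of_forall fun x => Continuous.continuousOn ?_)
    · rw [Real.norm_of_nonneg (Real.rpow_nonneg (hvm _ _).1 _)]
      refine (Vm_pow_le hV hp ha hM0 _ _).trans ?_
      have : s ^ 2 ≤ T ^ 2 := pow_le_pow_left₀ hs.1 hs.2 2
      simp only [mul_pow, Pi.add_apply]
      gcongr
    · exact (hc.comp (f := fun s : ℝ => (s * y x, s * t x)) (by fun_prop)).rpow_const
        fun _ => Or.inr (by linarith)
  have hbig : ∃ n : ℕ, ∫ x, V x ^ p ∂μ ≤ J n := by
    by_contra hn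
    simp only [not_exists, not_le] at hn
    have hl := lintegral_liminf_le (μ := μ) (u := atTop)
      (f := fun (n : ℕ) x => ENNReal.ofReal (Vm p a M (n * y x) (n * t x) ^ p))
      fun n => (hm n).ennreal_ofReal
    have he : ∀ᵐ x ∂μ, liminf (fun n : ℕ => ENNReal.ofReal (Vm p a M (n * y x) (n * t x) ^ p))
        atTop = ENNReal.ofReal (M ^ p) := by
      filter_upwards [htp] with x hx
      refine Tendsto.liminf_eq (tendsto_const_nhds.congr' ?_)
      have t1 : Tendsto (fun n : ℕ => ((n : ℝ) * t x) ^ 2) atTop atTop :=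
        (tendsto_pow_atTop two_ne_zero).comp (tendsto_natCast_atTop_atTop.atTop_mul_const hx)
      filter_upwards [t1.eventually_gt_atTop (M ^ (p - 1))] with n hn
      obtain ⟨a0, a1, -, a3, -⟩ := hvm (n * y x) (n * t x)
      rcases a1.eq_or_lt with h | h
      · rw [h]
      · have h1 := Real.rpow_le_rpow a0 a1 (by linarith : 0 ≤ p - 1)
        rw [a3 h] at h1
        have : 0 ≤ ((n : ℝ) * y x) ^ 2 / (a + Vm p a M (n * y x) (n * t x)) ^ 2 := by positivity
        linarith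
    rw [lintegral_congr_ae he, lintegral_const] at hl
    have h1 : ENNReal.ofReal (M ^ p) * μ univ ≤ ENNReal.ofReal (∫ x, V x ^ p ∂μ) := by
      refine hl.trans (liminf_le_of_frequently_le' (Frequently.of_forall fun n => ?_))
      rw [← ofReal_integral_eq_lintegral_ofReal (int_Vm hV hp ha hM0 hy ht hyi hti n)
        (Eventually.of_forall fun x => Real.rpow_nonneg (hvm _ _).1 _)]
      exact ENNReal.ofReal_le_ofReal (hn n).le
    have hMp : 0 < M ^ p := Real.rpow_pos_of_pos hM0 p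
    have hfin : μ univ ≠ ∞ := by
      intro h
      rw [h, ENNReal.mul_top (by simpa using hMp)] at h1
      exact absurd h1 (by simp)
    have : IsFiniteMeasure μ := ⟨hfin.lt_top⟩
    have h2 : ∫ x, V x ^ p ∂μ ≤ μ.real univ * M₀ ^ p := by
      have := integral_mono hVi (integrable_const (M₀ ^ p))
        fun x => Real.rpow_le_rpow (hV0 x) (hVM x) (by linarith)
      rwa [integral_const, smul_eq_mul] at this
    have h3 : M ^ p * μ.real univ ≤ ∫ x, V x ^ p ∂μ := by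
      have := ENNReal.toReal_mono ENNReal.ofReal_ne_top h1
      rwa [ENNReal.toReal_mul, ENNReal.toReal_ofReal hMp.le, ENNReal.toReal_ofReal hpos.le] at this
    have h4 : M₀ ^ p < M ^ p := Real.rpow_lt_rpow h0 hM (by linarith)
    have h5 : 0 ≤ μ.real univ := measureReal_nonneg
    rcases h5.eq_or_lt with h6 | h6
    · rw [← h6, zero_mul] at h2
      linarith
    · nlinarith
  obtain ⟨n, hn⟩ := hbig
  obtain ⟨s, hs, hs'⟩ := intermediate_value_Icc (Nat.cast_nonneg n) (hcont n)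
    ⟨hJ0.le.trans hpos.le, hn⟩
  refine ⟨s, hs.1.lt_of_ne fun h => ?_, hs'⟩
  rw [← h, hJ0] at hs'
  linarith

theorem avg_mem {κ : ℝ → ℝ} {K τ : ℝ} (h0 : ∀ s, 0 ≤ κ s) (hK : ∀ s, κ s ≤ K) (hτ : 0 < τ) :
    0 ≤ avg κ τ ∧ avg κ τ ≤ K := by
  refine ⟨div_nonneg (intervalIntegral.integral_nonneg hτ.le fun s _ => h0 s) hτ.le, ?_⟩
  have := intervalIntegral.norm_integral_le_of_norm_le_const (a := 0) (b := τ) (f := κ) (C := K)
    fun s _ => by rw [Real.norm_of_nonneg (h0 s)]; exact hK s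
  rw [sub_zero, abs_of_pos hτ] at this
  rw [avg, div_le_iff₀ hτ]
  exact (le_abs_self _).trans this

theorem meas_avg {κ : ℝ → ℝ} {K : ℝ} (hm : Measurable κ) (hK : ∀ s, |κ s| ≤ K) :
    Measurable (avg κ) := by
  refine Measurable.div (Continuous.measurable ?_) measurable_id
  refine intervalIntegral.continuous_primitive (fun a b => ?_) 0
  exact (intervalIntegrable_const (c := K)).mono_fun' hm.aestronglyMeasurable
    (Eventually.of_forall hK)

end Pool.Agent.MP_e4cac8_mp.Cmp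

end

section

/-! The comparison with the rearrangement. -/

open Set MeasureTheory Filter Topology
open scoped ENNReal NNReal
open Pool.Agent.MP_0b7119_mp.G

namespace Pool.Agent.MP_e4cac8_mp

set_option linter.unusedSectionVars false

variable {E S : Type} [NormedAddCommGroup E] [InnerProductSpace ℝ E] [FiniteDimensional ℝ E]
  [MeasurableSpace E] [BorelSpace E] [NormedAddCommGroup S] [InnerProductSpace ℂ S]
  [CompleteSpace S] [FiniteDimensional ℂ S] {d : ℕ}
  {e : OrthonormalBasis (Fin d) ℝ E} {α : Fin d → S →L[ℂ] S} {β : S →L[ℂ] S} {m : ℝ}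

theorem Cmp.lin {X : Type} [MeasurableSpace X] {μ : Measure X} {f₁ f₂ g₁ g₂ f₃ h₁ h₂ : X → ℝ}
    (c₁ c₂ c₃ : ℝ) (i₁ : Integrable f₁ μ) (i₂ : Integrable f₂ μ) (j₁ : Integrable g₁ μ)
    (j₂ : Integrable g₂ μ) (i₃ : Integrable f₃ μ) (k₁ : Integrable h₁ μ) (k₂ : Integrable h₂ μ) :
    Integrable (fun x => c₁ * f₁ x - c₁ * f₂ x + c₂ * (g₁ x - g₂ x) - c₁ * f₃ x -
      c₃ * (h₁ x - h₂ x)) μ ∧
    ∫ x, (c₁ * f₁ x - c₁ * f₂ x + c₂ * (g₁ x - g₂ x) - c₁ * f₃ x - c₃ * (h₁ x - h₂ x)) ∂μ =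
      c₁ * ∫ x, f₁ x ∂μ - c₁ * ∫ x, f₂ x ∂μ + c₂ * (∫ x, g₁ x ∂μ - ∫ x, g₂ x ∂μ) -
        c₁ * ∫ x, f₃ x ∂μ - c₃ * (∫ x, h₁ x ∂μ - ∫ x, h₂ x ∂μ) := by
  have a1 : Integrable (fun x => c₁ * f₁ x - c₁ * f₂ x) μ := (i₁.const_mul _).sub (i₂.const_mul _)
  have a2 : Integrable (fun x => c₂ * (g₁ x - g₂ x)) μ := (j₁.sub j₂).const_mul _
  have a3 : Integrable (fun x => c₁ * f₁ x - c₁ * f₂ x + c₂ * (g₁ x - g₂ x)) μ := a1.add a2
  have a4 : Integrable (fun x => c₁ * f₁ x - c₁ * f₂ x + c₂ * (g₁ x - g₂ x) - c₁ * f₃ x) μ :=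
    a3.sub (i₃.const_mul _)
  have a5 : Integrable (fun x => c₃ * (h₁ x - h₂ x)) μ := (k₁.sub k₂).const_mul _
  refine ⟨a4.sub a5, ?_⟩
  rw [integral_sub a4 a5, integral_sub a3 (i₃.const_mul _), integral_add a1 a2,
    integral_sub (i₁.const_mul _) (i₂.const_mul _)]
  simp only [integral_const_mul, integral_sub j₁ j₂, integral_sub k₁ k₂]

open Cmp in
theorem stCmp2 (hc : Ctx α β m) (hV : StVm) (hN : StNL e α) (hA : StAlg e α) (hA2 : StAlg2 e α) :
    StCmp2 e α := by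
  intro a b p A M₀ M V u L φ y ha hb hp h0 hM hPt hVp hVM hu hR hre
  have hM0 : 0 < M := h0.trans_lt hM
  have hd : (2 : ℝ) ≤ d := by exact_mod_cast hc.two
  obtain ⟨⟨mg, mP, mn, mq, cZ, cG⟩, hZ, hpt, -⟩ := hA u hu.reg
  have hvm := (hV p a M hp ha hM0).2
  have hcp : (0 : ℝ) < Module.finrank ℝ E * om E := by
    rw [finrank_eq e]
    exact mul_pos (by linarith) om_pos
  have cu : Continuous u := hu.reg.c1.continuous
  have mρ : Measurable fun x => ‖u x‖ := cu.norm.measurable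
  have my : Measurable fun x => y ‖u x‖ := hre.meas.comp mρ
  have hΩ : MeasurableSet {x | 0 < ‖u x‖} := measurableSet_lt measurable_const mρ
  have hΩ' : {x | u x ≠ 0} = {x | 0 < ‖u x‖} := by
    ext x
    exact norm_pos_iff.symm
  have iρ : Integrable (fun x => ‖u x‖ ^ 2) volume := JD.int_sq hu.reg.l2
  have hG0 : ∀ x, 0 ≤ G2 e u x := fun x => Finset.sum_nonneg fun _ _ => sq_nonneg _
  have hn0 : ∀ x, 0 ≤ nf e α u x := fun x => sq_nonneg _
  have hg0 : ∀ x, 0 ≤ gf u x := fun x => norm_nonneg _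
  have hq : ∀ x, 0 < ‖u x‖ → 0 ≤ qf e u x ∧ qf e u x ≤ G2 e u x ∧ gf u x ^ 2 ≤ G2 e u x := by
    intro x hx
    have h1 := (hn0 x).trans (hpt x (norm_pos_iff.mp hx)).2.2.1
    have h2 : 0 ≤ qf e u x := nonneg_of_mul_nonneg_right h1 (by linarith)
    have h3 : qf e u x = G2 e u x - gf u x ^ 2 := rfl
    exact ⟨h2, by nlinarith, by linarith⟩
  have iG := hu.reg.dl2.integrableOn (s := {x | 0 < ‖u x‖})
  have ig : IntegrableOn (fun x => gf u x ^ 2) {x | 0 < ‖u x‖} volume :=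
    iG.mono' (mg.pow_const 2).aestronglyMeasurable (by
      filter_upwards [ae_restrict_mem hΩ] with x hx
      rw [Real.norm_of_nonneg (sq_nonneg _)]
      exact (hq x hx).2.2)
  have iy := int_y mρ hre iρ ig
  have hW : ∀ x, 0 < a + V x := fun x => by linarith [hVp.nonneg x]
  have bdd : ∀ {μ : Measure E} {f w : E → ℝ} (K : ℝ), Integrable f μ → Measurable w →
      (∀ x, |w x| ≤ K) → Integrable (fun x => w x * f x) μ := fun K hf hw hK =>
    hf.bdd_mul hw.aestronglyMeasurable (Eventually.of_forall hK)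
  have binv : ∀ v : ℝ, 0 ≤ v → |1 / (a + v)| ≤ 1 / a := fun v hv => by
    rw [abs_of_pos (by positivity)]
    exact one_div_le_one_div_of_le ha (by linarith)
  have bsub : ∀ v : ℝ, 0 ≤ v → v ≤ M → |v - b| ≤ M + b := fun v h1 h2 => by
    rw [abs_le]
    constructor <;> linarith
  have iZ : Integrable (fun x => ‖Zf e α u x‖ ^ 2) volume :=
    (hu.reg.dl2.const_mul d).mono' (cZ.norm.pow 2).aestronglyMeasurable
      (Eventually.of_forall fun x => by rw [Real.norm_of_nonneg (sq_nonneg _)]; exact hZ x)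
  have iZW : Integrable (fun x => ‖Zf e α u x‖ ^ 2 / (a + V x)) volume := by
    simpa only [one_div_mul_eq_div] using bdd (w := fun x => 1 / (a + V x)) (1 / a) iZ
      ((hVp.meas.const_add a).const_div 1) fun x => binv _ (hVp.nonneg x)
  have iU : Integrable (fun x => (V x - b) * ‖u x‖ ^ 2) volume :=
    bdd (M + b) iρ (hVp.meas.sub_const b) fun x => bsub _ (hVp.nonneg x) ((hVM x).trans hM.le)
  have hpos : 0 < ∫ x in {x | 0 < ‖u x‖}, V x ^ p := by
    refine (integral_nonneg fun x => Real.rpow_nonneg (hVp.nonneg x) p).lt_of_ne fun h => ?_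
    have h1 := (integral_eq_zero_iff_of_nonneg (fun x => Real.rpow_nonneg (hVp.nonneg x) p)
      hVp.int.integrableOn).mp h.symm
    rw [EventuallyEq, ae_restrict_iff' hΩ] at h1
    have h2 : ∫ x, b * ‖u x‖ ^ 2 ≤ 0 := by
      refine le_trans (integral_mono_ae (iρ.const_mul b) (iZW.sub iU) ?_) hu.en
      filter_upwards [h1] with x hx
      have h3 : 0 ≤ ‖Zf e α u x‖ ^ 2 / (a + V x) := div_nonneg (sq_nonneg _) (hW x).le
      rcases (norm_nonneg (u x)).eq_or_lt with h4 | h4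
      · simp only [Pi.sub_apply, ← h4]
        simpa using h3
      · have h5 : V x = 0 := (Real.rpow_eq_zero (hVp.nonneg x) (by linarith)).mp (hx h4)
        simp only [Pi.sub_apply, h5] at h3 ⊢
        linarith
    obtain ⟨x, hx⟩ := hu.ne
    have h6 : 0 < ∫ x, b * ‖u x‖ ^ 2 := integral_pos_of_integrable_nonneg_nonzero (x := x)
      (by fun_prop) (iρ.const_mul b) (fun x => by positivity)
      (mul_pos hb (pow_pos (norm_pos_iff.mpr hx) 2)).ne'
    linarith
  obtain ⟨s, hs, hJ⟩ := exists_scale hV hp ha h0 hM my mρ iy iρ.integrableOn (ae_restrict_mem hΩ)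
    hVp.nonneg hVM hVp.int.integrableOn hpos
  have mv : Measurable fun t => Vm p a M (s * y t) (s * t) :=
    meas_Vm hV hp ha hM0 (hre.meas.const_mul s) (measurable_id.const_mul s)
  have mvρ := mv.comp mρ
  have iv := int_Vm hV hp ha hM0 my mρ iy iρ.integrableOn s
  have i5 : IntegrableOn (fun x => y ‖u x‖ ^ 2 / (a + Vm p a M (s * y ‖u x‖) (s * ‖u x‖)))
      {x | 0 < ‖u x‖} volume := by
    simpa only [IntegrableOn, one_div_mul_eq_div] using
      bdd (w := fun x => 1 / (a + Vm p a M (s * y ‖u x‖) (s * ‖u x‖))) (1 / a) iy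
        ((mvρ.const_add a).const_div 1) fun x => binv _ (hvm _ _).1
  have i2 := i5.sub (bdd (w := fun x => Vm p a M (s * y ‖u x‖) (s * ‖u x‖) - b) (M + b)
    iρ.integrableOn (mvρ.sub_const b) fun x => bsub _ (hvm _ _).1 (hvm _ _).2.1)
  have i4 : IntegrableOn (fun x => y ‖u x‖ / (a + Vm p a M (s * y ‖u x‖) (s * ‖u x‖)) * gf u x)
      {x | 0 < ‖u x‖} volume := by
    have h1 : IntegrableOn (fun x => y ‖u x‖ * gf u x) {x | 0 < ‖u x‖} volume :=
      (iy.add ig).mono' (my.mul mg).aestronglyMeasurable (Eventually.of_forall fun x => by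
        rw [Real.norm_of_nonneg (mul_nonneg (hre.ynn _).1 (hg0 x))]
        simp only [Pi.add_apply]
        nlinarith [sq_nonneg (y ‖u x‖ - gf u x), mul_nonneg (hre.ynn ‖u x‖).1 (hg0 x)])
    simpa only [IntegrableOn, one_div_mul_eq_div, mul_div_right_comm] using
      bdd (w := fun x => 1 / (a + Vm p a M (s * y ‖u x‖) (s * ‖u x‖))) (1 / a) h1
        ((mvρ.const_add a).const_div 1) fun x => binv _ (hvm _ _).1
  have i5' : IntegrableOn (fun x => y ‖u x‖ / (a + Vm p a M (s * y ‖u x‖) (s * ‖u x‖)) * y ‖u x‖)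
      {x | 0 < ‖u x‖} volume := by
    simpa only [sq, mul_div_right_comm] using i5
  have hiso := iso_real hre (C := fun t => y t / (a + Vm p a M (s * y t) (s * t)))
    (hre.meas.div (mv.const_add a))
    (fun t => div_nonneg (hre.ynn t).1 (by linarith [(hvm (s * y t) (s * t)).1])) i5' i4
  set κ : ℝ → ℝ := fun τ => 1 / (a + Vm p a M (s * y √τ) (s * √τ)) with hκ
  have mκ : Measurable κ := ((mv.comp measurable_id.sqrt).const_add a).const_div 1
  have bκ : ∀ τ, |κ τ| ≤ 1 / a := fun τ => binv _ (hvm _ _).1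
  have κ0 : ∀ τ, 0 ≤ κ τ := fun τ =>
    div_nonneg zero_le_one (by linarith [(hvm (s * y √τ) (s * √τ)).1])
  have hav : ∀ x, 0 < ‖u x‖ → 0 ≤ avg κ (‖u x‖ ^ 2) ∧ avg κ (‖u x‖ ^ 2) ≤ 1 / a := fun x hx =>
    avg_mem κ0 (fun τ => (le_abs_self _).trans (bκ τ)) (pow_pos hx 2)
  have hnl := hN u hu.reg κ mκ ⟨_, bκ⟩
  rw [hΩ'] at hnl
  have i3 : IntegrableOn (fun x => avg κ (‖u x‖ ^ 2) * (nf e α u x - qf e u x) +
      κ (‖u x‖ ^ 2) * (2 * Pf e α u x)) {x | 0 < ‖u x‖} volume := by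
    refine (iG.const_mul (1 / a * (2 * d + 2))).mono'
      (((((meas_avg mκ bκ).comp (mρ.pow_const 2)).mul (mn.sub mq)).add
        ((mκ.comp (mρ.pow_const 2)).mul (mP.const_mul 2))).aestronglyMeasurable) ?_
    filter_upwards [ae_restrict_mem hΩ] with x hx
    obtain ⟨q1, q2, q3⟩ := hq x hx
    obtain ⟨-, p2, p3, -⟩ := hpt x (norm_pos_iff.mp hx)
    have p4 : nf e α u x ≤ d * G2 e u x := p3.trans (by gcongr)
    have p5 : |2 * Pf e α u x| ≤ gf u x ^ 2 + nf e α u x :=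
      abs_le_of_sq_le_sq (by nlinarith [sq_nonneg (gf u x ^ 2 - nf e α u x)])
        (add_nonneg (sq_nonneg _) (hn0 x))
    have p6 : |nf e α u x - qf e u x| ≤ (d + 1) * G2 e u x := by
      rw [abs_le]
      constructor <;> nlinarith [hn0 x, hG0 x]
    refine (norm_add_le _ _).trans ?_
    rw [norm_mul, norm_mul, Real.norm_of_nonneg (hav x hx).1]
    calc _ ≤ 1 / a * ((d + 1) * G2 e u x) + 1 / a * ((d + 1) * G2 e u x) :=
          add_le_add (mul_le_mul (hav x hx).2 p6 (abs_nonneg _) (by positivity))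
            (mul_le_mul (bκ _) (p5.trans (by linarith)) (abs_nonneg _) (by positivity))
      _ = _ := by ring
  obtain ⟨t0, -⟩ := transfer2 mρ hre (G := fun _ t => t ^ 2) (by fun_prop) (fun _ _ => rfl)
    (by simp) hcp iρ.integrableOn
  obtain ⟨t1, -⟩ := transfer2 mρ hre (G := fun s _ => s ^ 2) (hre.meas.pow_const 2)
    (fun _ _ => neg_sq _) (by simp) hcp iy
  obtain ⟨t2, t2'⟩ := transfer2 mρ hre (G := fun σ t => Vm p a M (s * σ) (s * t) ^ p)
    (mv.pow_const p) (fun _ _ => by simp only [mul_neg, Vm_neg])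
    (by simp only [mul_zero, Vm_zero hV hp ha hM0, Real.zero_rpow (by linarith : p ≠ 0)]) hcp iv
  obtain ⟨-, t3⟩ := transfer2 mρ hre (G := fun σ t => σ ^ 2 / (a + Vm p a M (s * σ) (s * t)) -
      (Vm p a M (s * σ) (s * t) - b) * t ^ 2)
    (((hre.meas.pow_const 2).div (mv.const_add a)).sub
      ((mv.sub_const b).mul (measurable_id.pow_const 2)))
    (fun _ _ => by simp only [mul_neg, Vm_neg, neg_sq]) (by simp) hcp i2
  have hnrm : Module.finrank ℝ E * om E * ∫ r in Ioi (0 : ℝ),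
      Vm p a M (s * deriv φ r) (s * φ r) ^ p * r ^ (Module.finrank ℝ E - 1) ≤ A ^ p := by
    rw [← t2', hJ]
    exact (setIntegral_le_integral hVp.int (Eventually.of_forall fun x =>
      Real.rpow_nonneg (hVp.nonneg x) p)).trans hVp.le
  have hT := hR (fun r => Vm p a M (s * deriv φ r) (s * φ r)) φ
    (meas_Vm hV hp ha hM0 ((measurable_deriv φ).const_mul s)
      (hre.lip.continuous.measurable.const_mul s))
    (fun r => ⟨(hvm _ _).1, (hvm _ _).2.1⟩) t2 hnrm ⟨L, hre.lip⟩ t0 t1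
  have hT' := mul_nonneg hcp.le hT
  rw [← t3] at hT'
  have hsplit := integral_add_compl hΩ (iZW.sub iU)
  have hcompl : ∫ x in {x | 0 < ‖u x‖}ᶜ, (‖Zf e α u x‖ ^ 2 / (a + V x) - (V x - b) * ‖u x‖ ^ 2) =
      ∫ x in {x | 0 < ‖u x‖}ᶜ, ‖Zf e α u x‖ ^ 2 / (a + V x) :=
    setIntegral_congr_fun hΩ.compl fun x hx => by
      have : ‖u x‖ = 0 := le_antisymm (not_lt.mp hx) (norm_nonneg _)
      simp [this]
  have hZ0 : ∀ x, 0 ≤ ‖Zf e α u x‖ ^ 2 / (a + V x) := fun x => div_nonneg (sq_nonneg _) (hW x).le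
  have hc0 : 0 ≤ ∫ x in {x | 0 < ‖u x‖}ᶜ, ‖Zf e α u x‖ ^ 2 / (a + V x) := integral_nonneg hZ0
  simp only [Pi.sub_apply] at hsplit
  rw [hcompl] at hsplit
  set X : E → ℝ := fun x => Xi p a M (s * ‖u x‖) (s * y ‖u x‖) (V x) (avg κ (‖u x‖ ^ 2))
    (s * gf u x) (s ^ 2 * Pf e α u x) (s ^ 2 * nf e α u x) (s ^ 2 * qf e u x) with hX
  have hXp : ∀ x, 0 < ‖u x‖ → 0 ≤ X x ∧ (X x = 0 → V x = Vm p a M (s * y ‖u x‖) (s * ‖u x‖) ∧
      s * gf u x = s * y ‖u x‖) := by
    intro x hx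
    obtain ⟨-, p2, p3, -⟩ := hpt x (norm_pos_iff.mp hx)
    have p4 := hA2 u hu.reg x (norm_pos_iff.mp hx)
    have s4 : 0 ≤ s ^ 4 := by positivity
    refine hPt _ _ _ _ _ _ _ _ (mul_pos hs hx) (mul_nonneg hs.le (hre.ynn _).1) (hVp.nonneg x)
      ((hVM x).trans hM.le) (hav x hx).1 (hav x hx).2 (mul_nonneg hs.le (hg0 x))
      (mul_nonneg (sq_nonneg _) (hn0 x)) ?_ ?_ ?_
    · linarith [mul_le_mul_of_nonneg_left p2 s4]
    · linarith [mul_le_mul_of_nonneg_left p3 (sq_nonneg s)]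
    · linarith [mul_le_mul_of_nonneg_left p4 s4]
  have hXe : X =ᵐ[volume.restrict {x | 0 < ‖u x‖}] fun x =>
      s ^ 2 * (‖Zf e α u x‖ ^ 2 / (a + V x) - (V x - b) * ‖u x‖ ^ 2) -
      s ^ 2 * (y ‖u x‖ ^ 2 / (a + Vm p a M (s * y ‖u x‖) (s * ‖u x‖)) -
        (Vm p a M (s * y ‖u x‖) (s * ‖u x‖) - b) * ‖u x‖ ^ 2) +
      p⁻¹ * (V x ^ p - Vm p a M (s * y ‖u x‖) (s * ‖u x‖) ^ p) -
      s ^ 2 * (avg κ (‖u x‖ ^ 2) * (nf e α u x - qf e u x) + κ (‖u x‖ ^ 2) * (2 * Pf e α u x)) -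
      2 * s ^ 2 * (y ‖u x‖ / (a + Vm p a M (s * y ‖u x‖) (s * ‖u x‖)) * gf u x -
        y ‖u x‖ / (a + Vm p a M (s * y ‖u x‖) (s * ‖u x‖)) * y ‖u x‖) := by
    filter_upwards [ae_restrict_mem hΩ] with x hx
    simp only [hX, Xi, hκ, Real.sqrt_sq (norm_nonneg _), (hpt x (norm_pos_iff.mp hx)).1]
    ring
  obtain ⟨k4, k5⟩ := lin (μ := volume.restrict {x | 0 < ‖u x‖})
    (f₁ := fun x => ‖Zf e α u x‖ ^ 2 / (a + V x) - (V x - b) * ‖u x‖ ^ 2)
    (f₂ := fun x => y ‖u x‖ ^ 2 / (a + Vm p a M (s * y ‖u x‖) (s * ‖u x‖)) -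
        (Vm p a M (s * y ‖u x‖) (s * ‖u x‖) - b) * ‖u x‖ ^ 2) (s ^ 2) p⁻¹ (2 * s ^ 2)
    (iZW.sub iU).restrict i2.integrable hVp.int.restrict iv i3.integrable i4.integrable
    i5'.integrable
  rw [← integral_congr_ae hXe, hnl, hJ] at k5
  have hX0 : 0 ≤ᵐ[volume.restrict {x | 0 < ‖u x‖}] X := by
    filter_upwards [ae_restrict_mem hΩ] with x hx
    exact (hXp x hx).1
  have hI0 := integral_nonneg_of_ae hX0
  have s2 : 0 < s ^ 2 := by positivity
  have m1 := mul_nonneg s2.le hT'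
  have m2 := mul_nonneg s2.le hc0
  have m3 := mul_nonneg s2.le (sub_nonneg.mpr hiso)
  have m4 := mul_le_mul_of_nonneg_left (hsplit.le.trans hu.en) s2.le
  have hiso' : ∫ x in {x | 0 < ‖u x‖}, y ‖u x‖ / (a + Vm p a M (s * y ‖u x‖) (s * ‖u x‖)) * gf u x =
      ∫ x in {x | 0 < ‖u x‖}, y ‖u x‖ / (a + Vm p a M (s * y ‖u x‖) (s * ‖u x‖)) *
        ‖fderiv ℝ (fun x => ‖u x‖) x‖ := rfl
  rw [hiso'] at k5
  refine ⟨s, hs, ⟨t0, t1, t2, hnrm, ?_⟩, ?_, ?_⟩
  · refine nonpos_of_mul_nonpos_right (a := s ^ 2 * (Module.finrank ℝ E * om E)) ?_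
      (mul_pos s2 hcp)
    rw [mul_assoc, ← t3]
    linarith
  · have h1 := (integral_eq_zero_iff_of_nonneg_ae hX0 (k4.congr hXe.symm)).mp
      (le_antisymm (by linarith) hI0)
    rw [EventuallyEq, ae_restrict_iff' hΩ] at h1
    filter_upwards [h1] with x hx hx0
    obtain ⟨h2, h3⟩ := (hXp x (norm_pos_iff.mpr hx0)).2 (hx (norm_pos_iff.mpr hx0))
    exact ⟨h2, mul_left_cancel₀ hs.ne' h3⟩
  · have h1 := (integral_eq_zero_iff_of_nonneg hZ0 (iZW.integrableOn (s := {x | 0 < ‖u x‖}ᶜ))).mp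
      (le_antisymm (nonpos_of_mul_nonpos_right (a := s ^ 2) (by linarith) s2) hc0)
    rw [EventuallyEq, ae_restrict_iff' hΩ.compl] at h1
    filter_upwards [h1, hu.zero] with x hx hz hx0
    have h2 := hx (by simp [hx0])
    refine hz hx0 ?_
    simpa [(hW x).ne'] using h2

end Pool.Agent.MP_e4cac8_mp

end
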