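import Pool.Agent.Mg.Fe4cac8.G43e91a

set_option linter.all false

/-! The resolvent maps Hoelder data to `C¹` functions with bounded gradient. -/

open Set MeasureTheory Filter Topology Real
open scoped ENNReal NNReal
open Pool.Agent.MP_0b7119_mp.G

namespace Pool.Agent.MP_e4cac8_mp

set_option linter.unusedSectionVars false

namespace Reg2

variable {E S T : Type} [NormedAddCommGroup E] [InnerProductSpace ℝ E] [FiniteDimensional ℝ E]
  [MeasurableSpace E] [BorelSpace E] [NormedAddCommGroup S] [NormedSpace ℝ S] [CompleteSpace S]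
  [NormedAddCommGroup T] [NormedSpace ℝ T]

/-- Profiles with Gaussian bounds. -/
structure Gk (h : E → T) (C : ℝ) : Prop where
  c1 : ContDiff ℝ 1 h
  b0 : ∀ w, ‖h w‖ ≤ C * rexp (-(1 / 8) * ‖w‖ ^ 2)
  b1 : ∀ w, ‖fderiv ℝ h w‖ ≤ C * rexp (-(1 / 8) * ‖w‖ ^ 2)

theorem Gk.nonneg {h : E → T} {C : ℝ} (hh : Gk h C) : 0 ≤ C := by
  simpa using (norm_nonneg _).trans (hh.b0 0)

theorem poly_le {c u : ℝ} (hc : 1 ≤ c) : 1 + u ^ 2 ≤ c * rexp (1 / c * u ^ 2) := by
  have h := Real.add_one_le_exp (1 / c * u ^ 2)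
  have hc0 : 0 < c := by linarith
  calc 1 + u ^ 2 ≤ c * (1 / c * u ^ 2 + 1) := by field_simp; linarith
    _ ≤ _ := by gcongr

theorem gk_aff (A : T) (B : E →L[ℝ] T) :
    Gk (fun w : E => rexp (-(1 / 4) * ‖w‖ ^ 2) • (A + B w)) (8 * (‖A‖ + ‖B‖)) := by
  have h8 : ∀ w : E, rexp (-(1 / 4) * ‖w‖ ^ 2) * ((‖A‖ + ‖B‖) * (1 + ‖w‖ ^ 2)) ≤
      8 * (‖A‖ + ‖B‖) * rexp (-(1 / 8) * ‖w‖ ^ 2) := fun w => by
    have e1 : rexp (-(1 / 8) * ‖w‖ ^ 2) =
        rexp (-(1 / 4) * ‖w‖ ^ 2) * rexp (1 / 8 * ‖w‖ ^ 2) := by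
      rw [← Real.exp_add]; congr 1; ring
    calc _ ≤ rexp (-(1 / 4) * ‖w‖ ^ 2) * ((‖A‖ + ‖B‖) * (8 * rexp (1 / 8 * ‖w‖ ^ 2))) := by
          gcongr
          exact poly_le (by norm_num)
      _ = _ := by rw [e1]; ring
  have hn : ∀ w : E, ‖A + B w‖ ≤ ‖A‖ + ‖B‖ * ‖w‖ := fun w =>
    (norm_add_le _ _).trans (by gcongr; exact B.le_opNorm w)
  refine ⟨((contDiff_const.mul (contDiff_norm_sq ℝ)).exp).smul (contDiff_const.add B.contDiff),
    fun w => le_trans ?_ (h8 w), fun w => le_trans ?_ (h8 w)⟩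
  · rw [norm_smul, Real.norm_of_nonneg (Real.exp_pos _).le]
    gcongr
    refine (hn w).trans ?_
    have := norm_nonneg A
    have := norm_nonneg B
    have : ‖w‖ ≤ 1 + ‖w‖ ^ 2 := by nlinarith [sq_nonneg (‖w‖ - 1)]
    nlinarith [sq_nonneg ‖w‖]
  · have h1 := (((hasStrictFDerivAt_norm_sq w).hasFDerivAt.const_mul (-(1 / 4))).exp).smul
      (B.hasFDerivAt.const_add A)
    rw [show (fun w : E => rexp (-(1 / 4) * ‖w‖ ^ 2) • (A + B w)) =
      (fun w : E => rexp (-(1 / 4) * ‖w‖ ^ 2)) • fun w => A + B w from rfl, h1.fderiv]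
    refine (norm_add_le _ _).trans ?_
    rw [ContinuousLinearMap.norm_smulRight_apply, norm_smul, norm_smul, norm_smul, two_smul,
      Real.norm_of_nonneg (Real.exp_pos _).le, mul_assoc, ← mul_add]
    gcongr
    have h2 : ‖innerSL ℝ w + innerSL ℝ w‖ ≤ 2 * ‖w‖ :=
      (norm_add_le _ _).trans (by rw [innerSL_apply_norm]; linarith)
    have h3 : ‖(-(1 / 4) : ℝ)‖ * ‖innerSL ℝ w + innerSL ℝ w‖ * ‖A + B w‖ ≤
        1 / 4 * (2 * ‖w‖) * (‖A‖ + ‖B‖ * ‖w‖) := by
      rw [norm_neg, Real.norm_of_nonneg (by norm_num)]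
      gcongr
      exact hn w
    have := norm_nonneg A
    have := norm_nonneg B
    have : ‖w‖ ≤ 1 + ‖w‖ ^ 2 := by nlinarith [sq_nonneg (‖w‖ - 1)]
    nlinarith [sq_nonneg ‖w‖, norm_nonneg w]

variable (ev : S →L[ℝ] T →L[ℝ] S) {h : E → T} {C K : ℝ}

theorem norm_ev (ξ : S) (τ : T) : ‖ev ξ τ‖ ≤ ‖ev‖ * ‖ξ‖ * ‖τ‖ := ev.le_opNorm₂ ξ τ

theorem norm_evc (ξ : S) (τ : E →L[ℝ] T) : ‖(ev ξ).comp τ‖ ≤ ‖ev‖ * ‖ξ‖ * ‖τ‖ :=
  ((ev ξ).opNorm_comp_le τ).trans (by gcongr; exact ev.le_opNorm ξ)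

theorem int_conv (hh : Gk h C) {G : E → S} (hG : Continuous G) (hK : ∀ x, ‖G x‖ ≤ K) (x : E) :
    Integrable fun y => ev (G y) (h (x - y)) := by
  have hc := hh.c1.continuous
  refine (((integrable_gauss (E := E) (b := 1 / 8) (by norm_num)).comp_sub_left x).const_mul
    (‖ev‖ * K * C)).mono' (Continuous.aestronglyMeasurable (by fun_prop))
    (Eventually.of_forall fun y => (norm_ev ev _ _).trans ?_)
  have := (norm_nonneg _).trans (hK 0)
  rw [mul_assoc (‖ev‖ * K)]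
  gcongr
  · exact hK y
  · exact hh.b0 _

theorem derA (hh : Gk h C) {G : E → S} (hG : Continuous G) (hK : ∀ x, ‖G x‖ ≤ K) (x₀ : E) :
    HasFDerivAt (fun x => ∫ w, ev (G (x - w)) (h w))
      (∫ w, (ev (G (x₀ - w) - G x₀)).comp (fderiv ℝ h w)) x₀ := by
  have hc := hh.c1.continuous
  have hd := hh.c1.continuous_fderiv one_ne_zero
  have hC := hh.nonneg
  have hK0 := (norm_nonneg _).trans (hK 0)
  have hH : ∀ y, ‖G y - G x₀‖ ≤ K + K := fun y => (norm_sub_le _ _).trans (add_le_add (hK _) (hK _))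
  have hHc : Continuous fun y => G y - G x₀ := hG.sub continuous_const
  have e1 : (fun x => ∫ w, ev (G (x - w)) (h w)) =
      fun x => (∫ y, ev (G y - G x₀) (h (x - y))) + ∫ w, ev (G x₀) (h w) := by
    ext x
    rw [← integral_sub_left_eq_self (fun w => ev (G x₀) (h w)) volume x,
      ← integral_add (int_conv ev hh hHc hH x)
        (int_conv ev hh continuous_const (fun _ => hK x₀) x),
      ← integral_sub_left_eq_self (fun w => ev (G (x - w)) (h w)) volume x]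
    simp
  have e2 : ∫ w, (ev (G (x₀ - w) - G x₀)).comp (fderiv ℝ h w) =
      ∫ y, (ev (G y - G x₀)).comp (fderiv ℝ h (x₀ - y)) := by
    rw [← integral_sub_left_eq_self _ volume x₀]
    simp
  rw [e1, e2]
  refine HasFDerivAt.add_const _ ?_
  refine hasFDerivAt_integral_of_dominated_of_fderiv_le (s := Metric.ball x₀ 1)
    (F' := fun x y => (ev (G y - G x₀)).comp (fderiv ℝ h (x - y)))
    (bound := fun y => ‖ev‖ * (K + K) * (C * rexp (1 / 8)) * rexp (-(1 / 16) * ‖x₀ - y‖ ^ 2))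
    (Metric.ball_mem_nhds x₀ one_pos)
    (Eventually.of_forall fun x => (int_conv ev hh hHc hH x).1) (int_conv ev hh hHc hH x₀)
    (Continuous.aestronglyMeasurable (by fun_prop))
    (Eventually.of_forall fun y x hx => (norm_evc ev _ _).trans ?_)
    (((integrable_gauss (E := E) (b := 1 / 16) (by norm_num)).comp_sub_left x₀).const_mul _)
    (Eventually.of_forall fun y x _ => ?_)
  · rw [mul_assoc (‖ev‖ * (K + K)), mul_assoc C, ← Real.exp_add]
    gcongr
    · exact hH y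
    · refine (hh.b1 _).trans ?_
      gcongr
      have h1 : ‖x₀ - y‖ ≤ ‖x - y‖ + 1 := by
        have h2 := dist_triangle x₀ x y
        rw [Metric.mem_ball, dist_comm] at hx
        rw [dist_eq_norm x₀ y, dist_eq_norm x y] at h2
        linarith
      have h3 := pow_le_pow_left₀ (norm_nonneg _) h1 2
      nlinarith [sq_nonneg (‖x - y‖ - 1)]
  · exact (ev (G y - G x₀)).hasFDerivAt.comp x ((hh.c1.differentiable one_ne_zero
      (x - y)).hasFDerivAt.comp x ((hasFDerivAt_id x).sub_const y))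

/-- The rescaled convolution. -/
noncomputable def P (h : E → T) (F : E → S) (p : ℝ × E) : S := ∫ w, ev (F (p.2 - p.1 • w)) (h w)

/-- Its rescaled derivative. -/
noncomputable def R (h : E → T) (F : E → S) (p : ℝ × E) : E →L[ℝ] S :=
  ∫ w, (ev (F (p.2 - p.1 • w) - F p.2)).comp (fderiv ℝ h w)

variable {F : E → S}

theorem derP (hh : Gk h C) (hF : Continuous F) (hK : ∀ x, ‖F x‖ ≤ K) {s : ℝ} (hs : s ≠ 0)
    (x : E) : HasFDerivAt (fun x => P ev h F (s, x)) (s⁻¹ • R ev h F (s, x)) x := by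
  have h1 := (derA ev hh (G := fun y => F (s • y)) (by fun_prop) (fun _ => hK _) (s⁻¹ • x)).comp x
    ((hasFDerivAt_id x).const_smul s⁻¹)
  convert h1 using 1
  · ext y
    simp [P, smul_sub, smul_smul, hs]
  · simp [R, smul_sub, smul_smul, hs]

theorem contP (hh : Gk h C) (hF : Continuous F) (hK : ∀ x, ‖F x‖ ≤ K) :
    Continuous (P ev h F) ∧ ∃ L, ∀ p, ‖P ev h F p‖ ≤ L := by
  have hc := hh.c1.continuous
  have hK0 := (norm_nonneg _).trans (hK 0)
  have hi := (integrable_gauss (E := E) (b := 1 / 8) (by norm_num)).const_mul (‖ev‖ * K * C)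
  have hb : ∀ p : ℝ × E, ∀ᵐ w : E, ‖ev (F (p.2 - p.1 • w)) (h w)‖ ≤
      ‖ev‖ * K * C * rexp (-(1 / 8) * ‖w‖ ^ 2) := fun p => Eventually.of_forall fun w => by
    refine (norm_ev ev _ _).trans ?_
    rw [mul_assoc (‖ev‖ * K)]
    gcongr
    · exact hK _
    · exact hh.b0 _
  exact ⟨continuous_of_dominated (fun p => Continuous.aestronglyMeasurable (by fun_prop)) hb hi
    (Eventually.of_forall fun w => by fun_prop), _, fun p => norm_integral_le_of_norm_le hi (hb p)⟩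

theorem contR (hh : Gk h C) (hF : Continuous F) (hK : ∀ x, ‖F x‖ ≤ K) :
    Continuous (R ev h F) := by
  have hd := hh.c1.continuous_fderiv one_ne_zero
  have hK0 := (norm_nonneg _).trans (hK 0)
  refine continuous_of_dominated (fun p => Continuous.aestronglyMeasurable (by fun_prop))
    (fun p => Eventually.of_forall fun w => (norm_evc ev _ _).trans ?_)
    ((integrable_gauss (E := E) (b := 1 / 8) (by norm_num)).const_mul (‖ev‖ * (K + K) * C))
    (Eventually.of_forall fun w => by fun_prop)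
  rw [mul_assoc (‖ev‖ * (K + K))]
  gcongr
  · exact (norm_sub_le _ _).trans (add_le_add (hK _) (hK _))
  · exact hh.b1 _

theorem bdR (hh : Gk h C) (hK0 : 0 ≤ K) (hH : ∀ x y, ‖F x - F y‖ ≤ K * √‖x - y‖) :
    ∃ L, ∀ s x, 0 ≤ s → ‖R ev h F (s, x)‖ ≤ √s * L := by
  have hC := hh.nonneg
  have hi := (integrable_gauss (E := E) (b := 1 / 16) (by norm_num)).const_mul (‖ev‖ * K * C * 16)
  refine ⟨∫ w : E, ‖ev‖ * K * C * 16 * rexp (-(1 / 16) * ‖w‖ ^ 2), fun s x hs => ?_⟩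
  rw [← integral_const_mul]
  refine norm_integral_le_of_norm_le (hi.const_mul _)
    (Eventually.of_forall fun w => (norm_evc ev _ _).trans ?_)
  have h1 := hH (x - s • w) x
  rw [sub_sub_cancel_left, norm_neg, norm_smul, Real.norm_of_nonneg hs, Real.sqrt_mul hs] at h1
  have h2 : √‖w‖ ≤ 16 * rexp (1 / 16 * ‖w‖ ^ 2) := by
    refine le_trans ?_ (poly_le (by norm_num))
    nlinarith [Real.sq_sqrt (norm_nonneg w), sq_nonneg (√‖w‖ - 1), sq_nonneg (‖w‖ - 1)]
  have e1 : rexp (-(1 / 16) * ‖w‖ ^ 2) =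
      rexp (1 / 16 * ‖w‖ ^ 2) * rexp (-(1 / 8) * ‖w‖ ^ 2) := by
    rw [← Real.exp_add]; congr 1; ring
  calc _ ≤ ‖ev‖ * (K * (√s * (16 * rexp (1 / 16 * ‖w‖ ^ 2)))) *
        (C * rexp (-(1 / 8) * ‖w‖ ^ 2)) := by
        gcongr
        · exact h1.trans (by gcongr)
        · exact hh.b1 w
    _ = _ := by rw [e1]; ring

theorem regU (hh : Gk h C) (hF : Continuous F) (hK : ∀ x, ‖F x‖ ≤ K)
    (hH : ∀ x y, ‖F x - F y‖ ≤ K * √‖x - y‖) {b σ : ℝ} (hb : 0 < b) (hσ : -(3 / 4) < σ) :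
    ∃ (U' : E → E →L[ℝ] S) (L : ℝ), Continuous U' ∧ (∀ x, ‖U' x‖ ≤ L) ∧ ∀ x, HasFDerivAt
      (fun x => ∫ t in Ioi (0 : ℝ), (t ^ σ * rexp (-(b * t))) • P ev h F (√t, x)) (U' x) x := by
  obtain ⟨hP, L₀, hL₀⟩ := contP ev hh hF hK
  have hR := contR ev hh hF hK
  obtain ⟨L, hL⟩ := bdR ev hh ((norm_nonneg _).trans (hK 0)) hH
  have ha := integrableOn_exp_rpow hb (by linarith : -1 < σ)
  have hi := (integrableOn_exp_rpow hb (by linarith : -1 < σ - 1 / 4)).mul_const L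
  have hm : ∀ x, AEStronglyMeasurable
      (fun t => (t ^ σ * rexp (-(b * t))) • (√t)⁻¹ • R ev h F (√t, x)) (volume.restrict (Ioi 0)) :=
    fun x => ha.1.smul ((by fun_prop : Measurable fun t : ℝ => (√t)⁻¹).aestronglyMeasurable.smul
      (by fun_prop : Continuous fun t : ℝ => R ev h F (√t, x)).aestronglyMeasurable)
  have hP' : ∀ x, IntegrableOn (fun t => (t ^ σ * rexp (-(b * t))) • P ev h F (√t, x)) (Ioi 0) :=
    fun x => Integrable.smul_bdd ha L₀ (Continuous.aestronglyMeasurable (by fun_prop))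
      (Eventually.of_forall fun t => hL₀ _)
  have hbd : ∀ t ∈ Ioi (0 : ℝ), ∀ x, ‖(t ^ σ * rexp (-(b * t))) • (√t)⁻¹ • R ev h F (√t, x)‖ ≤
      t ^ (σ - 1 / 4) * rexp (-(b * t)) * L := fun t ht x => by
    have ht' : 0 < t := ht
    have e1 : t ^ (σ - 1 / 4) = t ^ σ * ((√t)⁻¹ * √√t) := by
      rw [Real.sqrt_eq_rpow, Real.sqrt_eq_rpow, ← Real.rpow_mul ht'.le, ← Real.rpow_neg ht'.le,
        ← Real.rpow_add ht', ← Real.rpow_add ht']
      congr 1
      ring
    rw [norm_smul, norm_smul, Real.norm_of_nonneg (by positivity),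
      Real.norm_of_nonneg (by positivity), e1]
    calc _ ≤ t ^ σ * rexp (-(b * t)) * ((√t)⁻¹ * (√√t * L)) := by
          gcongr
          exact hL _ _ (Real.sqrt_nonneg t)
      _ = _ := by ring
  have hae := ae_restrict_mem (μ := volume) (measurableSet_Ioi (a := (0 : ℝ)))
  refine ⟨fun x => ∫ t in Ioi (0 : ℝ), (t ^ σ * rexp (-(b * t))) • (√t)⁻¹ • R ev h F (√t, x), _,
    continuous_of_dominated hm (fun x => hae.mono fun t ht => hbd t ht x) hi
      (Eventually.of_forall fun t => by fun_prop),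
    fun x => norm_integral_le_of_norm_le hi (hae.mono fun t ht => hbd t ht x), fun x => ?_⟩
  exact hasFDerivAt_integral_of_dominated_of_fderiv_le (s := univ)
    (F' := fun x t => (t ^ σ * rexp (-(b * t))) • (√t)⁻¹ • R ev h F (√t, x)) univ_mem
    (Eventually.of_forall fun x => (hP' x).1) (hP' x) (hm x)
    (hae.mono fun t ht x _ => hbd t ht x) hi
    (hae.mono fun t ht x _ => (derP ev hh hF hK (Real.sqrt_pos.2 ht).ne' x).const_smul _)

theorem scal (Ψ : E → S) {t : ℝ} (ht : 0 < t) :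
    ∫ z, heat t z • Ψ z = (4 * π) ^ (-(Module.finrank ℝ E : ℝ) / 2) •
      ∫ w : E, rexp (-(1 / 4) * ‖w‖ ^ 2) • Ψ (√t • w) := by
  have hs : 0 < √t := Real.sqrt_pos.2 ht
  have h1 := Measure.integral_comp_smul volume (fun z => heat t z • Ψ z) √t
  have e1 : ∀ w : E, heat t (√t • w) • Ψ (√t • w) = (4 * π * t) ^ (-(Module.finrank ℝ E : ℝ) / 2) •
      rexp (-(1 / 4) * ‖w‖ ^ 2) • Ψ (√t • w) := fun w => by
    rw [heat, norm_smul, Real.norm_of_nonneg hs.le, mul_pow, Real.sq_sqrt ht.le, smul_smul]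
    congr 3
    field_simp
  have e2 : (4 * π * t) ^ (-(Module.finrank ℝ E : ℝ) / 2) =
      (√t ^ Module.finrank ℝ E)⁻¹ * (4 * π) ^ (-(Module.finrank ℝ E : ℝ) / 2) := by
    rw [Real.mul_rpow (by positivity) ht.le, mul_comm, Real.sqrt_eq_rpow, ← Real.rpow_natCast,
      ← Real.rpow_mul ht.le, ← Real.rpow_neg ht.le]
    congr 2
    ring
  simp only [e1] at h1
  rw [integral_smul, e2, abs_of_pos (by positivity), mul_smul] at h1
  exact (smul_right_injective S (by positivity) h1).symm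

theorem fub {φ : ℝ → E → ℝ} {Ψ : E → S}
    (hi : Integrable (fun p : ℝ × E => φ p.1 p.2 • Ψ p.2) ((volume.restrict (Ioi 0)).prod volume)) :
    Integrable (fun z => (∫ t in Ioi (0 : ℝ), φ t z) • Ψ z) ∧
      ∫ z, (∫ t in Ioi (0 : ℝ), φ t z) • Ψ z = ∫ t in Ioi (0 : ℝ), ∫ z, φ t z • Ψ z := by
  simp only [← integral_smul_const]
  exact ⟨hi.integral_prod_right,
    (integral_integral_swap (f := fun t z => φ t z • Ψ z) hi).symm⟩

theorem sw (γ : E → ℝ) (c : ℝ) (X : E → S) : ∫ w, γ w • c • X w = c • ∫ w, γ w • X w := by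
  rw [← integral_smul]
  exact integral_congr_ae (Eventually.of_forall fun w => smul_comm _ _ _)

theorem rep (A : T) (B : E →L[ℝ] T) (hF : Continuous F) (hK : ∀ x, ‖F x‖ ≤ K) {b : ℝ}
    (hb : 0 < b) (x : E) :
    ∫ z, (gk b z • ev (F (x - z)) A + qk b z • ev (F (x - z)) (B z)) =
      (∫ t in Ioi (0 : ℝ), (t ^ (0 : ℝ) * rexp (-(b * t))) • P ev (fun w : E =>
        rexp (-(1 / 4) * ‖w‖ ^ 2) • ((4 * π) ^ (-(Module.finrank ℝ E : ℝ) / 2) • A +
          (0 : E →L[ℝ] T) w)) F (√t, x)) +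
      ∫ t in Ioi (0 : ℝ), (t ^ (-(1 / 2) : ℝ) * rexp (-(b * t))) • P ev (fun w : E =>
        rexp (-(1 / 4) * ‖w‖ ^ 2) • (0 + (((4 * π) ^ (-(Module.finrank ℝ E : ℝ) / 2) / 2) • B) w))
          F (√t, x) := by
  have hK0 := (norm_nonneg _).trans (hK 0)
  have i1 := integrable_prod_g (E := E) hb
  have i2 := integrable_prod_q (E := E) hb
  have hm : Measurable (fun p : ℝ × E => rexp (-b * p.1) * (heat p.1 p.2 / (2 * p.1))) :=
    (by fun_prop : Measurable fun p : ℝ × E => rexp (-b * p.1)).mul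
      (measurable_heat.div (by fun_prop))
  obtain ⟨h1, h2⟩ := fub (φ := fun t z => rexp (-b * t) * heat t z)
    (Ψ := fun z => ev (F (x - z)) A) (Integrable.smul_bdd i1 (‖ev‖ * K * ‖A‖)
      (Continuous.aestronglyMeasurable (by fun_prop))
      (Eventually.of_forall fun p => (norm_ev ev _ _).trans (by gcongr; exact hK _)))
  obtain ⟨h3, h4⟩ := fub (φ := fun t z => rexp (-b * t) * (heat t z / (2 * t)))
    (Ψ := fun z => ev (F (x - z)) (B z)) ((i2.norm.mul_const (‖ev‖ * K * ‖B‖)).mono'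
      (hm.aestronglyMeasurable.smul
        (by fun_prop : Continuous fun p : ℝ × E => ev (F (x - p.2)) (B p.2)).aestronglyMeasurable)
      (Eventually.of_forall fun p => by
        rw [norm_smul, norm_mul _ ‖p.2‖, norm_norm, mul_assoc _ ‖p.2‖]
        gcongr
        calc _ ≤ ‖ev‖ * K * (‖B‖ * ‖p.2‖) := (norm_ev ev _ _).trans (by
              gcongr
              · exact hK _
              · exact B.le_opNorm _)
          _ = _ := by ring))
  refine ((integral_add h1 h3).trans (by rw [h2, h4])).trans (congrArg₂ _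
    (setIntegral_congr_fun measurableSet_Ioi fun t ht => ?_)
    (setIntegral_congr_fun measurableSet_Ioi fun t ht => ?_))
  · simp only [mul_smul, integral_smul, scal _ ht, P, zero_apply, add_zero, map_smul, sw,
      Real.rpow_zero, one_smul, neg_mul]
  · have ht' : 0 < t := ht
    have hs : 0 < √t := Real.sqrt_pos.2 ht
    have e1 : ∀ z : E, rexp (-b * t) * (heat t z / (2 * t)) =
      rexp (-b * t) / (2 * t) * heat t z := fun z => by ring
    simp only [e1, mul_smul _ (heat t _), integral_smul, scal _ ht, P, zero_add, map_smul,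
      smul_apply, sw]
    rw [smul_smul, smul_smul, smul_smul]
    congr 1
    rw [Real.rpow_neg ht'.le, ← Real.sqrt_eq_rpow, neg_mul]
    field_simp
    rw [Real.sq_sqrt ht'.le]

end Reg2

variable {E S : Type} [NormedAddCommGroup E] [InnerProductSpace ℝ E] [FiniteDimensional ℝ E]
  [MeasurableSpace E] [BorelSpace E] [NormedAddCommGroup S] [InnerProductSpace ℂ S]
  [CompleteSpace S] [FiniteDimensional ℂ S] {d : ℕ}
  {e : OrthonormalBasis (Fin d) ℝ E} {α : Fin d → S →L[ℂ] S} {β : S →L[ℂ] S} {m : ℝ}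

set_option linter.unusedVariables false in
open Reg2 in
theorem stReg2 (hc : Ctx α β m) : StReg2 e α β m := by
  intro l hl F K hK hH
  have hb : 0 < m ^ 2 - l ^ 2 := by nlinarith [hl.1, hl.2]
  have hF : Continuous F := continuous_iff_continuousAt.2 fun x =>
    tendsto_iff_norm_sub_tendsto_zero.2 (squeeze_zero (fun _ => norm_nonneg _) (fun y => hH y x)
      (Continuous.tendsto' (by fun_prop) x 0 (by simp)))
  set ev : S →L[ℝ] (S →L[ℝ] S) →L[ℝ] S := ContinuousLinearMap.apply ℝ S with hev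
  set A : S →L[ℝ] S := ((m : ℂ) • β + (l : ℂ) • (1 : S →L[ℂ] S)).restrictScalars ℝ with hA
  set B : E →L[ℝ] S →L[ℝ] S :=
    (ContinuousLinearMap.restrictScalarsL ℂ S S ℝ ℝ).comp (Complex.I • clL e α) with hB
  have e1 : JK.cv (rk e α β m l) F = fun x => ∫ z, (gk (m ^ 2 - l ^ 2) z • ev (F (x - z)) A +
      qk (m ^ 2 - l ^ 2) z • ev (F (x - z)) (B z)) := by
    ext x
    rw [JK.cv, ← integral_sub_left_eq_self _ volume x]
    refine integral_congr_ae (Eventually.of_forall fun z => ?_)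
    simp [rk, hev, hA, hB, mul_comm Complex.I, mul_smul]
  obtain ⟨U₁, L₁, c₁, b₁, d₁⟩ := regU ev (gk_aff ((4 * π) ^ (-(Module.finrank ℝ E : ℝ) / 2) • A)
    (0 : E →L[ℝ] S →L[ℝ] S)) hF hK hH hb (by norm_num : -(3 / 4 : ℝ) < 0)
  obtain ⟨U₂, L₂, c₂, b₂, d₂⟩ := regU ev (gk_aff 0
    (((4 * π) ^ (-(Module.finrank ℝ E : ℝ) / 2) / 2) • B)) hF hK hH hb
    (by norm_num : -(3 / 4 : ℝ) < -(1 / 2))
  have hd : ∀ x, HasFDerivAt (JK.cv (rk e α β m l) F) (U₁ x + U₂ x) x := fun x => by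
    simp only [e1, rep ev A B hF hK hb]
    exact (d₁ x).add (d₂ x)
  refine ⟨contDiff_one_iff_hasFDerivAt.2 ⟨_, c₁.add c₂, hd⟩, L₁ + L₂, fun x => ?_⟩
  rw [(hd x).fderiv]
  exact (norm_add_le _ _).trans (add_le_add (b₁ x) (b₂ x))

end Pool.Agent.MP_e4cac8_mp
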