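import Pool.Agent.Mg.Fe4cac8.G23b726
import Pool.Agent.Mg.Fe4cac8.G3c6d1e

set_option linter.all false

section

/-! Elementary estimates for large exponents. -/

open Set Filter Topology

namespace Pool.Agent.MP_e4cac8_mp.Lg

theorem big {D C : ℝ} (hD : 2 ≤ D) :
    ∃ γ : ℝ, 0 < γ ∧ ∀ᶠ p in atTop, Big D p (4 * Real.exp (γ * p)) C := by
  have hD0 : 0 < D := by linarith
  have h8 : 0 < 1 / (8 * D) := by positivity
  obtain ⟨γ, hγ⟩ : ∃ γ, γ = Real.log (1 + 1 / (8 * D)) / 28 := ⟨_, rfl⟩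
  have hγ0 : 0 < γ := by
    rw [hγ]
    exact div_pos (Real.log_pos (by linarith)) (by norm_num)
  have he : Real.exp (28 * γ) = 1 + 1 / (8 * D) := by
    rw [hγ, mul_div_cancel₀ _ (by norm_num), Real.exp_log (by linarith)]
  refine ⟨γ, hγ0, ?_⟩
  have t1 : Tendsto (fun p : ℝ => Real.exp (14 * γ * p)) atTop atTop :=
    Real.tendsto_exp_atTop.comp (tendsto_id.const_mul_atTop (by positivity))
  filter_upwards [eventually_ge_atTop (16 * D + 1), eventually_ge_atTop (2 + 257 / γ),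
    t1.eventually_ge_atTop (C * 4 ^ 14 * Real.exp (28 * γ))] with p h1 h2 h3
  have h4 : 257 ≤ γ * (p - 2) := by
    rw [← div_le_iff₀' hγ0]
    linarith
  have hp1 : 0 < p - 1 := by linarith
  have hp2 : 0 < p - 2 := by linarith
  refine ⟨h1, ?_, ?_⟩
  · have a1 : 1 + 16 * (4 * Real.exp (γ * p)) ^ 2 ≤ Real.exp (5 * γ * (p - 1)) := by
      have b1 : 1 ≤ Real.exp (γ * p) ^ 2 := one_le_pow₀ (Real.one_le_exp (by nlinarith))
      have b2 : 257 ≤ Real.exp (γ * (p - 2)) := by linarith [Real.add_one_le_exp (γ * (p - 2))]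
      calc _ ≤ 257 * Real.exp (γ * p) ^ 2 := by linarith
        _ ≤ Real.exp (γ * (p - 2)) * Real.exp (γ * p) ^ 2 := by gcongr
        _ = Real.exp (γ * (p - 2) + 2 * (γ * p)) := by
          rw [Real.exp_add, ← Real.exp_nat_mul]
          norm_num
        _ ≤ _ := Real.exp_le_exp.mpr (by nlinarith)
    have a2 := Real.rpow_le_rpow (by positivity) a1 (inv_nonneg.mpr hp1.le)
    rw [← Real.exp_mul, mul_inv_cancel_right₀ hp1.ne'] at a2
    have a3 : (p - 1) / (p - 2) ≤ Real.exp γ := by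
      rw [div_le_iff₀ hp2]
      nlinarith [Real.add_one_le_exp γ]
    calc _ ≤ Real.exp (5 * γ) * Real.exp γ := by gcongr
      _ ≤ Real.exp (28 * γ) := by
        rw [← Real.exp_add]
        exact Real.exp_le_exp.mpr (by linarith)
      _ = _ := he
  · have a1 : Real.exp (28 * γ) ≤ 1 + 1 / (2 * D) := by
      rw [he]
      gcongr
      linarith
    have a2 := Real.rpow_le_rpow (by positivity) a1 hp1.le
    rw [← Real.exp_mul] at a2
    refine le_trans (le_of_mul_le_mul_right ?_ (Real.exp_pos (28 * γ))) a2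
    calc C * (4 * Real.exp (γ * p)) ^ 14 * Real.exp (28 * γ)
        = C * 4 ^ 14 * Real.exp (28 * γ) * Real.exp (14 * γ * p) := by
          rw [mul_pow, ← Real.exp_nat_mul, mul_assoc 14]
          push_cast
          ring
      _ ≤ Real.exp (14 * γ * p) * Real.exp (14 * γ * p) := by gcongr
      _ = _ := by
        rw [← Real.exp_add, ← Real.exp_add]
        congr 1
        ring

theorem three {c K : ℝ} (d : ℕ) (hc : 0 < c) :
    ∀ᶠ p : ℝ in atTop, K * √p ^ d < c * (3 / 2 : ℝ) ^ (p - d) := by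
  have hl : 0 < Real.log (3 / 2) := Real.log_pos (by norm_num)
  have t1 := (tendsto_exp_mul_div_rpow_atTop (d : ℝ) _ hl).eventually_gt_atTop
    (|K| * (3 / 2) ^ d / c)
  filter_upwards [t1, eventually_ge_atTop (1 : ℝ)] with p h1 h2
  have hp : 0 < p := by linarith
  rw [lt_div_iff₀ (by positivity), div_mul_eq_mul_div, div_lt_iff₀ hc, Real.rpow_natCast,
    ← Real.rpow_def_of_pos (by norm_num)] at h1
  rw [Real.rpow_sub (by norm_num), Real.rpow_natCast, ← mul_div_assoc, lt_div_iff₀ (by positivity)]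
  have h3 : √p ≤ p := by
    rw [Real.sqrt_le_left hp.le]
    nlinarith
  calc K * √p ^ d * (3 / 2) ^ d ≤ |K| * p ^ d * (3 / 2) ^ d := by
        gcongr
        exact le_abs_self K
    _ < _ := by linarith

theorem bern {γ D : ℝ} (hγ : 0 < γ) (hD : 0 ≤ D) :
    ∀ᶠ p : ℝ in atTop, 1 / 2 ≤ (1 - Real.exp (-(γ * p)) / 2) ^ (p - D) := by
  have t1 := (tendsto_exp_mul_div_rpow_atTop 1 _ hγ).eventually_ge_atTop 1
  filter_upwards [t1, eventually_ge_atTop (D + 1)] with p h1 h2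
  have hp : 0 < p := by linarith
  rw [Real.rpow_one, le_div_iff₀ hp, one_mul] at h1
  have h3 : Real.exp (-(γ * p)) ≤ 1 := Real.exp_le_one_iff.mpr (neg_nonpos.mpr (by positivity))
  have h4 := one_add_mul_self_le_rpow_one_add (s := -(Real.exp (-(γ * p)) / 2)) (by linarith)
    (p := p - D) (by linarith)
  rw [← sub_eq_add_neg] at h4
  refine le_trans ?_ h4
  have h5 : p * Real.exp (-(γ * p)) ≤ 1 := by
    rw [Real.exp_neg, ← div_eq_mul_inv, div_le_one (Real.exp_pos _)]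
    exact h1
  nlinarith [mul_nonneg hD (Real.exp_pos (-(γ * p))).le]

theorem height {c m M p A ρ : ℝ} {d : ℕ} (hc : 0 < c) (hm : 0 < m) (hp : (d : ℝ) ≤ p)
    (hρ : 1 ≤ ρ) (h : c * M ^ p ≤ max m M ^ d * A ^ p) (hM : ρ * m ≤ M) :
    c * (ρ * m) ^ (p - d) ≤ A ^ p := by
  have h1 : m ≤ M := (le_mul_of_one_le_left hm.le hρ).trans hM
  have hM0 : 0 < M := hm.trans_le h1
  have h3 : M ^ p = M ^ d * M ^ (p - d) := by
    rw [← Real.rpow_natCast, ← Real.rpow_add hM0, add_sub_cancel]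
  rw [max_eq_right h1, h3, mul_left_comm] at h
  refine le_trans ?_ (le_of_mul_le_mul_left h (by positivity))
  gcongr

theorem tent {m p A ω : ℝ} {d : ℕ} (hm : 0 < m) (hp : 0 < p) (hω : 0 < ω)
    (h : ∀ L v : ℝ, 0 < L → 2 * m ≤ v → v ^ p * (ω * L ^ d) ≤ A ^ p →
      (v - 2 * m) * v * L ^ 2 ≤ 2 ^ (d + 2)) :
    A ^ p ≤ 3 * ω * (2 * √(2 ^ d)) ^ d * √p ^ d * (2 * m) ^ (p - d) := by
  have hi : 0 < 1 / p := by positivity
  have h1 := mt (h (√(2 ^ d) * √p / m) (2 * m * (1 + 1 / p)) (by positivity) (by nlinarith)) (by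
    rw [not_le, div_pow, mul_pow, Real.sq_sqrt (by positivity), Real.sq_sqrt hp.le]
    have e : (2 * m * (1 + 1 / p) - 2 * m) * (2 * m * (1 + 1 / p)) * (2 ^ d * p / m ^ 2) =
        2 ^ (d + 2) * (1 + 1 / p) := by
      field_simp
      ring
    rw [e]
    exact lt_mul_of_one_lt_right (by positivity) (by linarith))
  refine (not_le.mp h1).le.trans ?_
  have h2 : (1 + 1 / p) ^ p ≤ 3 := by
    have := Real.rpow_le_rpow (by positivity) (add_comm (1 / p) 1 ▸ Real.add_one_le_exp (1 / p))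
      hp.le
    rw [← Real.exp_mul, one_div_mul_cancel hp.ne'] at this
    linarith [Real.exp_one_lt_d9]
  have h3 : (2 * m) ^ p = (2 * m) ^ d * (2 * m) ^ (p - d) := by
    rw [← Real.rpow_natCast, ← Real.rpow_add (by positivity), add_sub_cancel]
  rw [Real.mul_rpow (by positivity) (by positivity), h3]
  calc _ ≤ (2 * m) ^ d * (2 * m) ^ (p - d) * 3 * (ω * (√(2 ^ d) * √p / m) ^ d) := by gcongr
    _ = _ := by
      simp only [mul_pow, div_pow]
      field_simp

end Pool.Agent.MP_e4cac8_mp.Lg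

end

section

/-! Assembly of the symmetry theorem at large exponents. -/

open Set MeasureTheory Filter Topology
open scoped ENNReal NNReal SchwartzMap
open Pool.Agent.MP_0b7119_mp.G

namespace Pool.Agent.MP_e4cac8_mp

set_option linter.unusedSectionVars false

variable {E S : Type} [NormedAddCommGroup E] [InnerProductSpace ℝ E] [FiniteDimensional ℝ E]
  [MeasurableSpace E] [BorelSpace E] [NormedAddCommGroup S] [InnerProductSpace ℂ S]
  [CompleteSpace S] [FiniteDimensional ℂ S] {d : ℕ}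
  {e : OrthonormalBasis (Fin d) ℝ E} {α : Fin d → S →L[ℂ] S} {β : S →L[ℂ] S} {m : ℝ}

/-- From the conclusion of the comparison to symmetry. -/
theorem tail (hc : Ctx α β m) (H : All2 e α β m) {a b p A M s : ℝ} {V : E → ℝ} {u : E → S}
    {L : ℝ≥0} {φ y : ℝ → ℝ} (ha0 : 0 < a) (hb : 0 < b) (hp : 2 ≤ p) (hM0 : 0 < M) (hs : 0 < s)
    (hu : Strong e α a b V u)
    (hR : TR (Module.finrank ℝ E - 1) (Module.finrank ℝ E * om E) a b p A M)
    (hL : Lev L fun x => ‖u x‖) (hre : Rearr L (fun x => ‖u x‖) φ y)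
    (hprof : Prof (Module.finrank ℝ E - 1) (Module.finrank ℝ E * om E) a b p A M s φ)
    (h1 : ∀ᵐ x, u x ≠ 0 → V x = Vm p a M (s * y ‖u x‖) (s * ‖u x‖) ∧ gf u x = y ‖u x‖)
    (h2 : ∀ᵐ x, u x = 0 → V x = 0) : Radial V := by
  have hk : 1 ≤ Module.finrank ℝ E - 1 := by
    rw [finrank_eq e]
    have := hc.two
    omega
  obtain ⟨o1, o2, o3, o4⟩ := H.ode _ _ a b p A M s φ hk hp ha0 hb hM0 hs hR hre.anti
    ⟨L, hre.lip⟩ hre.nonneg hprof
  obtain ⟨x₁, hx₁⟩ := hu.ne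
  obtain ⟨x₀, hx₀⟩ := H.geo L _ φ y hL hre ⟨x₁, norm_pos_iff.mpr hx₁⟩ o1 o2 o3 (by
    filter_upwards [h1] with x hx hpos
    exact (hx (norm_pos_iff.mp hpos)).2)
  obtain ⟨-, hvm⟩ := H.vm p a M hp ha0 hM0
  refine ⟨x₀, fun r => if 0 < r then Vm p a M (s * deriv φ r) (s * φ r) else M, ?_, ?_⟩
  · intro r r' hrr
    by_cases h : 0 < r
    · have h' : 0 < r' := h.trans_le hrr
      simp only [h, h', if_true]
      exact o4 h h' hrr
    · by_cases h' : 0 < r'
      · simp only [h, h', if_true, if_false]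
        exact (hvm _ _).2.1
      · simp only [h, h', if_false, le_refl]
  · have hn : 2 ≤ Module.finrank ℝ E := by
      rw [finrank_eq e]
      exact hc.two
    have : Nontrivial E := Module.nontrivial_of_finrank_pos (R := ℝ) (by omega)
    have hne : ∀ᵐ x : E, x ≠ x₀ := by
      rw [ae_iff]
      simp
    filter_upwards [h1, h2, hne] with x hx1 hx2 hx3
    have hr : 0 < ‖x - x₀‖ := norm_pos_iff.mpr (sub_ne_zero.mpr hx3)
    simp only [hr, if_true]
    by_cases hux : u x = 0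
    · have e1 : φ ‖x - x₀‖ = 0 := by rw [← hx₀ x, hux, norm_zero]
      have e2 : deriv φ ‖x - x₀‖ = 0 :=
        IsLocalMin.deriv_eq_zero (Eventually.of_forall fun r => by rw [e1]; exact hre.nonneg r)
      rw [hx2 hux, e1, e2, mul_zero]
      have h3 := (hvm 0 0).2.2.1
      have h4 := (hvm 0 0).1
      by_contra hne0
      have h5 : 0 < Vm p a M 0 0 := h4.lt_of_ne hne0
      have := Real.rpow_pos_of_pos h5 (p - 1)
      simp at h3
      linarith
    · rw [(hx1 hux).1, hx₀ x, hre.der _ hr (o1 _ hr)]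
      unfold Vm
      simp only [mul_neg, even_two, Even.neg_pow]

/-- Symmetry when the exponent is large with respect to the ratio of height and gap. -/
theorem mainC (H3 : StCmp3 e α) : ∃ C : ℝ, ∀ m, Ctx α β m → All2 e α β m → StStr3 e α β m →
    ∀ (p A M₀ μ : ℝ) (V : E → ℝ), 0 < A → PotR p A V → (∀ᵐ x, V x ≤ M₀) → Gap e α β m p A →
    Opt e α β m p A (lamD e α β m V) → 1 ≤ μ →
    m + lamD e α β m V + M₀ < μ * (m + lamD e α β m V) → Big d p μ C → Radial V := by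
  obtain ⟨C, -, H3⟩ := H3
  refine ⟨C, fun m hc H hS p A M₀ μ V hA hV hVM hG hopt hμ hM hB => ?_⟩
  have hd : (2 : ℝ) ≤ d := by exact_mod_cast hc.two
  have hp : (d : ℝ) ≤ p := by linarith [hB.1]
  have h0 : 0 ≤ M₀ := by
    obtain ⟨x, hx⟩ := hVM.exists
    exact (hV.nonneg x).trans hx
  have he : V =ᵐ[volume] fun x => min (V x) M₀ := by
    filter_upwards [hVM] with x hx
    rw [min_eq_left hx]
  rw [lamD_congr he] at hopt hM
  have hV' := hV.of_le (by linarith) (hV.meas.min (measurable_const (a := M₀)))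
    (fun x => le_min (hV.nonneg x) h0) fun x => min_le_left _ _
  obtain ⟨hlI, hP⟩ := lam_mem hc H hp hA hV' hG hopt
  obtain ⟨Ψ, -, k, hk, hΨ, hEL, -⟩ := trunk hc H hp hA hV' (fun x => min_le_right _ _) hG hopt
  obtain ⟨u, w, hu, hw⟩ := hS _ hlI p M₀ k _ Ψ (by linarith) hk hV'.meas
    (fun x => ⟨hV'.nonneg x, min_le_right _ _⟩) hΨ hEL
  generalize lamD e α β m (fun x => min (V x) M₀) = l at *
  have ha : 0 < m + l := by linarith [hlI.1]
  have hb : 0 < m - l := by linarith [hlI.2]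
  have hb' := hu.le H.alg ha hV'.meas hV'.nonneg (Eventually.of_forall fun x => min_le_right _ _)
  have hR := H.tr _ _ p A (μ * (m + l) - (m + l)) ha (by linarith) (H.p1 _ hlI p A _ (hP _))
  obtain ⟨-, -, -, L, hL⟩ := H.alg u hu.reg
  obtain ⟨φ, y, hre⟩ := H.re L _ hL
  obtain ⟨s, hs, hprof, h1, h2⟩ := H3 _ _ p A M₀ _ μ _ u w L φ y ha hb h0 (by linarith) hμ
    (by linarith) (by linarith) hB hV' (fun x => min_le_right _ _) hu hw hR hre
  obtain ⟨x₀, φ, h1, h2⟩ := tail hc H ha hb (by linarith) (by linarith) hs hu hR hL hre hprof h1 h2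
  exact ⟨x₀, φ, h1, he.trans h2⟩

/-- An upper bound for the critical norm. -/
theorem ub (hc : Ctx α β m) (H : All2 e α β m) (hT : StTent2 E) {p A : ℝ} (hp : 1 ≤ p)
    (hA : 0 < A) (hG : Gap e α β m p A) :
    A ^ p ≤ 3 * om E * (2 * √(2 ^ d)) ^ d * √p ^ d * (2 * m) ^ (p - d) := by
  have hm := hc.pos
  refine Lg.tent hm (by linarith) om_pos fun L v hL hv h => ?_
  obtain ⟨δ, hδ, hg⟩ := id hG
  have h1 : 0 < min δ m := lt_min hδ hm
  have hl : -m + min δ m ∈ Ioo (-m) m := ⟨by linarith, by linarith [min_le_right δ m]⟩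
  have h2 := hT _ _ p A v L v (by linarith) (by linarith) (H.p1 _ hl p A v
    (H.p0 p A (-m + δ) hp hA hG (fun W hW _ => hg W hW) _ hl (by linarith [min_le_left δ m]) v))
    hL (by linarith) le_rfl (by rwa [finrank_eq e])
  rw [finrank_eq e] at h2
  refine le_trans (mul_le_mul_of_nonneg_right ?_ (sq_nonneg L)) h2
  exact mul_le_mul (by linarith) (by linarith) (by linarith) (by linarith)

/-- The height of an optimal potential. -/
theorem height_opt (hS : StSup e α β) : ∃ c : ℝ, 0 < c ∧ ∀ m, Ctx α β m → All2 e α β m →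
    ∀ (p A : ℝ) (V : E → ℝ), (d : ℝ) < p → 0 < A → PotR p A V → Gap e α β m p A →
    Opt e α β m p A (lamD e α β m V) → ∃ M, (∀ᵐ x, V x ≤ M) ∧ c * M ^ p ≤ max m M ^ d * A ^ p ∧
      m - lamD e α β m V ≤ M ∧ lamD e α β m V ∈ Ioo (-m) m := by
  obtain ⟨c, hc0, hS⟩ := hS
  refine ⟨c, hc0, fun m hc H p A V hp hA h1 hG h2 => ?_⟩
  have hD : (2 : ℝ) ≤ d := by exact_mod_cast hc.two
  obtain ⟨M₁, hM0, hM1⟩ := bdd_opt hc H hp hA h1 hG h2
  have he' : V =ᵐ[volume] fun x => min (V x) M₁ := by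
    filter_upwards [hM1] with x hx
    rw [min_eq_left hx]
  have hV' := h1.of_le (by linarith) (h1.meas.min (measurable_const (a := M₁)))
    (fun x => le_min (h1.nonneg x) hM0) fun x => min_le_left _ _
  have h2' := h2
  rw [lamD_congr he'] at h2'
  obtain ⟨hlI, -⟩ := lam_mem hc H hp.le hA hV' hG h2'
  obtain ⟨Ψ, u, k, hk, hΨ, hEL, hu⟩ := trunk hc H hp.le hA hV' (fun x => min_le_right _ _) hG h2'
  obtain ⟨M, -, hVM, hcM⟩ := hS m hc.pos _ hlI p A k _ Ψ (by linarith) hk hV' hΨ hEL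
  have hb := hu.le H.alg (by linarith [hlI.1]) hV'.meas hV'.nonneg hVM
  rw [← lamD_congr he'] at hb hlI
  refine ⟨M, ?_, hcM, hb, hlI⟩
  filter_upwards [hVM, he'] with x hx hx'
  rwa [hx']

theorem largeP (H3 : StCmp3 e α) (hT : StTent2 E) (hS : StSup e α β) (hd : 2 ≤ d) :
    ∃ γ c p₀ : ℝ, 0 < γ ∧ 0 < c ∧ ∀ m, Ctx α β m → All2 e α β m → StStr3 e α β m →
    ∀ (p A : ℝ) (V : E → ℝ), p₀ ≤ p → 0 < A → PotR p A V → Gap e α β m p A →
    Opt e α β m p A (lamD e α β m V) →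
    (m * Real.exp (-(γ * p)) ≤ m + lamD e α β m V ∨ A ^ p ≤ c * (2 * m) ^ (p - d)) →
    Radial V := by
  have hD : (2 : ℝ) ≤ d := by exact_mod_cast hd
  obtain ⟨C, hC⟩ := mainC (β := β) H3
  obtain ⟨c, hc0, hH⟩ := height_opt hS
  obtain ⟨γ, hγ, hB⟩ := Lg.big (C := C) hD
  obtain ⟨p₀, hp₀⟩ := eventually_atTop.mp (hB.and ((Lg.three (K := 3 * om E * (2 * √(2 ^ d)) ^ d)
    d hc0).and (Lg.bern hγ (Nat.cast_nonneg d))))
  refine ⟨γ, c / 4, p₀, hγ, by positivity, fun m hc H hS3 p A V hp hA hV hG hopt hor => ?_⟩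
  obtain ⟨b1, b2, b3⟩ := hp₀ p hp
  have hm := hc.pos
  have hp' : (d : ℝ) < p := by linarith [b1.1]
  obtain ⟨M, hVM, hM, hb, hl⟩ := hH m hc H p A V hp' hA hV hG hopt
  have hq : 0 < (2 * m) ^ (p - d) := by positivity
  have hη0 := Real.exp_pos (-(γ * p))
  have hη : 1 ≤ Real.exp (γ * p) := Real.one_le_exp (by nlinarith)
  have hη1 : Real.exp (-(γ * p)) ≤ 1 := Real.exp_le_one_iff.mpr (by nlinarith)
  have h3 : M < 3 * m := by
    by_contra hn
    have h4 := (Lg.height hc0 hm hp'.le (by norm_num) hM (not_lt.mp hn)).trans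
      (ub hc H hT (by linarith) hA hG)
    rw [show 3 * m = 3 / 2 * (2 * m) by ring, Real.mul_rpow (by norm_num) (by positivity),
      ← mul_assoc] at h4
    linarith [le_of_mul_le_mul_right h4 hq]
  have ha : m * Real.exp (-(γ * p)) ≤ m + lamD e α β m V := by
    refine hor.elim id fun h => ?_
    by_contra hn
    have h4 := (Lg.height (ρ := 2 - Real.exp (-(γ * p))) hc0 hm hp'.le (by linarith) hM
      (by linarith)).trans h
    rw [show (2 - Real.exp (-(γ * p))) * m = (1 - Real.exp (-(γ * p)) / 2) * (2 * m) by ring,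
      Real.mul_rpow (by linarith) (by positivity), ← mul_assoc] at h4
    nlinarith [le_of_mul_le_mul_right h4 hq]
  refine hC m hc H hS3 p A M _ V hA hV hVM hG hopt (by linarith) ?_ b1
  have h5 := mul_le_mul_of_nonneg_left ha (Real.exp_pos (γ * p)).le
  rw [mul_left_comm, ← Real.exp_add, add_neg_cancel, Real.exp_zero, mul_one] at h5
  nlinarith [mul_le_mul_of_nonneg_right hη (by linarith [hl.1] : 0 ≤ m + lamD e α β m V)]

theorem finalC (hr : IsDiracRep α β) (hd : 2 ≤ d) (hn : ∃ ξ : S, ξ ≠ 0)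
    (H : ∀ m, Ctx α β m → All2 e α β m) (H' : ∀ m, Ctx α β m → StStr3 e α β m) (H3 : StCmp3 e α)
    (hT : StTent2 E) (hS : StSup e α β) :
    ∃ γ p₀ c K : ℝ, 0 < γ ∧ 0 < c ∧ 1 ≤ K ∧ ∀ m p A : ℝ, 0 < m → (d : ℝ) < p → 0 < A →
      ENNReal.ofReal A < alphaStar e α β m p →
      ∀ V ∈ Pot E p, eLpNorm V (ENNReal.ofReal p) volume = ENNReal.ofReal A →
      (∀ W ∈ Pot E p, eLpNorm W (ENNReal.ofReal p) volume = ENNReal.ofReal A →
        lamD e α β m V ≤ lamD e α β m W) →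
      ((p₀ ≤ p ∧ m * Real.exp (-(γ * p)) ≤ m + lamD e α β m V) ∨
        A ^ p ≤ c * (2 * m) ^ (p - d) ∨
        ENNReal.ofReal ((K * p ^ (d / 2 : ℝ)) ^ p⁻¹ * A) < alphaStar e α β m p) → Radial V := by
  have hD : (2 : ℝ) ≤ d := by exact_mod_cast hd
  obtain ⟨γ, c, p₀, hγ, hc0, hL⟩ := largeP H3 hT hS hd
  obtain ⟨c', hc', hAB⟩ := finalAB hr hd hn H hS
  have hc1 : 0 < min c (c' / (d : ℝ) ^ p₀) := lt_min hc0 (by positivity)
  have hω : 0 < om E := om_pos
  refine ⟨γ, p₀, _, max 1 (3 * om E * (2 * √(2 ^ d)) ^ d / min c (c' / (d : ℝ) ^ p₀)), hγ, hc1,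
    le_max_left _ _, fun m p A hm hp hA hs V hV hVA hopt hor => ?_⟩
  have hc : Ctx α β m := ⟨hr, hd, hm, hn⟩
  have hp0 : 0 < p := by linarith
  have hq : 0 < (2 * m) ^ (p - d) := by positivity
  have key : p₀ ≤ p → (m * Real.exp (-(γ * p)) ≤ m + lamD e α β m V ∨
      A ^ p ≤ c * (2 * m) ^ (p - d)) → Radial V := fun h1 h2 => by
    obtain ⟨V', he, h3, h4⟩ := reduce hp0 hA hV hVA hopt
    rw [lamD_congr he] at h2
    obtain ⟨x₀, φ, h5, h6⟩ := hL m hc (H m hc) (H' m hc) p A V' h1 hA h3 (gap_of_lt hp0 hA hs) h4 h2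
    exact ⟨x₀, φ, h5, he.trans h6⟩
  have key2 : A ^ p ≤ min c (c' / (d : ℝ) ^ p₀) * (2 * m) ^ (p - d) → Radial V := fun h => by
    rcases le_total p₀ p with h1 | h1
    · exact key h1 (Or.inr (h.trans (mul_le_mul_of_nonneg_right (min_le_left _ _) hq.le)))
    · refine hAB m p A hm hA hs V hV hVA hopt (Or.inr ⟨hp, h.trans
        ((mul_le_mul_of_nonneg_right (min_le_right _ _) hq.le).trans ?_)⟩)
      rw [Real.div_rpow (by positivity) (by positivity), div_mul_eq_mul_div, mul_div_assoc]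
      gcongr
      · linarith
      · linarith
  rcases hor with ⟨h1, h2⟩ | h | h
  · exact key h1 (Or.inl h2)
  · exact key2 h
  · refine key2 ?_
    generalize min c (c' / (d : ℝ) ^ p₀) = c₁ at *
    have hK := le_max_right 1 (3 * om E * (2 * √(2 ^ d)) ^ d / c₁)
    have hK1 := le_max_left 1 (3 * om E * (2 * √(2 ^ d)) ^ d / c₁)
    generalize max 1 (3 * om E * (2 * √(2 ^ d)) ^ d / c₁) = K at *
    have hK0 : 0 < K := by linarith
    have h1 := ub hc (H m hc) hT (by linarith) (by positivity) (gap_of_lt hp0 (by positivity) h)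
    have e1 : √p ^ d = p ^ (d / 2 : ℝ) := by
      rw [Real.sqrt_eq_rpow, ← Real.rpow_mul_natCast hp0.le]
      congr 1
      ring
    rw [Real.mul_rpow (by positivity) hA.le, Real.rpow_inv_rpow (by positivity) hp0.ne', e1] at h1
    rw [div_le_iff₀ hc1] at hK
    refine le_of_mul_le_mul_left (h1.trans ?_) (by positivity : 0 < K * p ^ (d / 2 : ℝ))
    calc _ ≤ K * c₁ * p ^ (d / 2 : ℝ) * (2 * m) ^ (p - d) := by gcongr
      _ = _ := by ring

end Pool.Agent.MP_e4cac8_mp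

end

section

/-! Caccioppoli inequality for the lower spinor where the upper spinor is small. -/

open Set MeasureTheory Filter Topology
open scoped ENNReal NNReal SchwartzMap
open Pool.Agent.MP_0b7119_mp.G

namespace Pool.Agent.MP_e4cac8_mp

set_option linter.unusedSectionVars false

variable {E S : Type} [NormedAddCommGroup E] [InnerProductSpace ℝ E] [FiniteDimensional ℝ E]
  [MeasurableSpace E] [BorelSpace E] [NormedAddCommGroup S] [InnerProductSpace ℂ S]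
  [CompleteSpace S] [FiniteDimensional ℂ S] {d : ℕ}
  {e : OrthonormalBasis (Fin d) ℝ E} {α : Fin d → S →L[ℂ] S} {β : S →L[ℂ] S} {m : ℝ}

namespace NBw

theorem der_sq (t : ℝ) : HasDerivAt (fun s : ℝ => max s 0 ^ 2) (2 * max t 0) t := by
  rcases lt_trichotomy t 0 with h | rfl | h
  · have h1 : (fun s : ℝ => max s 0 ^ 2) =ᶠ[𝓝 t] fun _ => 0 := by
      filter_upwards [Iio_mem_nhds h] with s hs
      rw [max_eq_right (le_of_lt hs)]
      simp
    rw [max_eq_right h.le, mul_zero]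
    exact (hasDerivAt_const t (0 : ℝ)).congr_of_eventuallyEq h1
  · rw [max_self, mul_zero, hasDerivAt_iff_isLittleO_nhds_zero]
    refine (Asymptotics.IsBigO.of_bound 1 (Eventually.of_forall fun s => ?_)).trans_isLittleO
      (Asymptotics.isLittleO_pow_id (𝕜 := ℝ) one_lt_two)
    rcases le_total s 0 with h | h
    · simp [max_eq_right h, sq_nonneg]
    · simp [max_eq_left h]
  · have h1 : (fun s : ℝ => max s 0 ^ 2) =ᶠ[𝓝 t] fun s => s ^ 2 := by
      filter_upwards [Ioi_mem_nhds h] with s hs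
      rw [max_eq_left (le_of_lt hs)]
    rw [max_eq_left h.le]
    refine HasDerivAt.congr_of_eventuallyEq ?_ h1
    simpa using hasDerivAt_pow 2 t

theorem c1_sq : ContDiff ℝ 1 fun s : ℝ => max s 0 ^ 2 := by
  rw [contDiff_one_iff_deriv]
  refine ⟨fun t => (der_sq t).differentiableAt, ?_⟩
  rw [show (deriv fun s : ℝ => max s 0 ^ 2) = fun t => 2 * max t 0 from
    funext fun t => (der_sq t).deriv]
  fun_prop

theorem dsq {u : E → S} {x : E} (hu : DifferentiableAt ℝ u x) (v : E) :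
    fderiv ℝ (fun y => ‖u y‖ ^ 2) x v = 2 * (inner ℂ (u x) (fderiv ℝ u x v)).re := by
  have h2 : (fun y => ‖u y‖ ^ 2) = Complex.reCLM ∘ fun y => inner ℂ (u y) (u y) := by
    ext y
    exact (inner_self_eq_norm_sq (𝕜 := ℂ) (u y)).symm
  rw [h2, fderiv_comp x Complex.reCLM.differentiableAt (hu.inner ℂ hu), ContinuousLinearMap.fderiv,
    ContinuousLinearMap.comp_apply, fderiv_inner_apply ℂ hu hu v, Complex.reCLM_apply,
    Complex.add_re]
  have h4 : (inner ℂ (fderiv ℝ u x v) (u x)).re = (inner ℂ (u x) (fderiv ℝ u x v)).re :=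
    inner_re_symm (𝕜 := ℂ) _ _
  linarith

theorem c1_eta {u w : E → S} (hu : ContDiff ℝ 1 u) (hw : ContDiff ℝ 1 w) {σ : ℝ} (hσ : 0 < σ)
    (c : ℝ) : ContDiff ℝ 1 fun x => max (1 - zr σ u w x / c) 0 ^ 2 := by
  have h1 : ContDiff ℝ 1 (zr σ u w) :=
    ((hu.norm_sq ℂ).add contDiff_const).div (((hu.norm_sq ℂ).add (hw.norm_sq ℂ)).add contDiff_const)
      fun x => by positivity
  exact c1_sq.comp (contDiff_const.sub (h1.div_const c))

theorem d_eta {u w : E → S} (hu : ContDiff ℝ 1 u) (hw : ContDiff ℝ 1 w) {σ : ℝ} (hσ : 0 < σ)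
    (c : ℝ) (x v : E) :
    fderiv ℝ (fun x => max (1 - zr σ u w x / c) 0 ^ 2) x v =
      -(max (1 - zr σ u w x / c) 0 * (4 / (c * (‖u x‖ ^ 2 + ‖w x‖ ^ 2 + σ) ^ 2)) *
        (‖w x‖ ^ 2 * (inner ℂ (u x) (fderiv ℝ u x v)).re -
          (‖u x‖ ^ 2 + σ) * (inner ℂ (w x) (fderiv ℝ w x v)).re)) := by
  have du := hu.differentiable one_ne_zero x
  have dw := hw.differentiable one_ne_zero x
  have h1 := ((hu.norm_sq ℂ).differentiable one_ne_zero x).hasFDerivAt
  have h2 := ((hw.norm_sq ℂ).differentiable one_ne_zero x).hasFDerivAt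
  have hn : ‖u x‖ ^ 2 + ‖w x‖ ^ 2 + σ ≠ 0 := by positivity
  have h3 := (hasDerivAt_inv hn).comp_hasFDerivAt x ((h1.add h2).add_const σ)
  have h4 := (((h1.add_const σ).mul h3).mul_const c⁻¹).const_sub 1
  have h5 : HasFDerivAt (fun x => 1 - zr σ u w x / c) _ x :=
    h4.congr_of_eventuallyEq (Eventually.of_forall fun y => by
      simp only [zr, div_eq_mul_inv, Pi.mul_apply, Function.comp_apply, Pi.add_apply])
  have h6 := (der_sq (1 - zr σ u w x / c)).comp_hasFDerivAt x h5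
  rw [show (fun x => max (1 - zr σ u w x / c) 0 ^ 2) =
    (fun s : ℝ => max s 0 ^ 2) ∘ fun x => 1 - zr σ u w x / c from rfl, h6.fderiv]
  simp only [smul_apply, neg_apply, add_apply, smul_eq_mul, dsq du, dsq dw, Function.comp_apply,
    Pi.add_apply]
  rcases eq_or_ne c 0 with rfl | hc
  · simp
  · field_simp
    ring

/-- The estimate for one coordinate direction. -/
theorem one {χ c σ U W P Q A B T R : ℝ} (h0 : 0 ≤ χ) (h1 : χ ≤ 1) (hc : 0 < c) (hσ : 0 < σ)
    (hU : 0 ≤ U) (hW : 0 ≤ W) (hP : 0 ≤ P) (hQ : 0 ≤ Q) (hT : 0 ≤ T)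
    (hz : U ^ 2 + σ ≤ c * (U ^ 2 + W ^ 2 + σ)) (hA : |A| ≤ U * P) (hB : |B| ≤ W * Q)
    (hR : |R| ≤ W * (T * U)) :
    -(χ * (4 / (c * (U ^ 2 + W ^ 2 + σ) ^ 2)) * (W ^ 2 * A - (U ^ 2 + σ) * B)) * (R - B) ≤
      χ ^ 2 * Q ^ 2 / 2 + (16 / c + 2) * P ^ 2 + (2 * T ^ 2 * W ^ 2 + 16 * T ^ 2 * U ^ 2) := by
  set n := U ^ 2 + W ^ 2 + σ with hn
  have n0 : 0 < n := by positivity
  set ρ := 4 / (c * n ^ 2) with hρ
  have ρ0 : 0 < ρ := by positivity
  have wn : W ^ 2 ≤ n := by nlinarith [sq_nonneg U]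
  have e1 : ρ * (W ^ 2 * (U ^ 2 + σ)) ≤ 4 := by
    rw [hρ, div_mul_eq_mul_div, div_le_iff₀ (by positivity)]
    have := mul_le_mul wn hz (by positivity) n0.le
    nlinarith
  have e2 : ρ * (W ^ 2 * U ^ 2) ≤ 4 :=
    (mul_le_mul_of_nonneg_left (mul_le_mul_of_nonneg_left (by linarith) (sq_nonneg W)) ρ0.le).trans
      e1
  have e3 : (ρ * (W ^ 2 * (U * W))) ^ 2 ≤ 16 / c := by
    have a1 : ρ * (W ^ 2 * W ^ 2) ≤ 4 / c := by
      rw [hρ, div_mul_eq_mul_div, div_le_div_iff₀ (by positivity) hc]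
      have := mul_le_mul wn wn (sq_nonneg W) n0.le
      nlinarith
    calc (ρ * (W ^ 2 * (U * W))) ^ 2 = ρ * (W ^ 2 * U ^ 2) * (ρ * (W ^ 2 * W ^ 2)) := by ring
      _ ≤ 4 * (4 / c) := mul_le_mul e2 a1 (by positivity) (by norm_num)
      _ = 16 / c := by ring
  have b1 : A * B ≤ U * P * (W * Q) :=
    (le_abs_self _).trans (abs_mul A B ▸ mul_le_mul hA hB (abs_nonneg _) (by positivity))
  have b2 : -(A * R) ≤ U * P * (W * (T * U)) :=
    (neg_le_abs _).trans (abs_mul A R ▸ mul_le_mul hA hR (abs_nonneg _) (by positivity))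
  have b3 : B * R ≤ W * Q * (W * (T * U)) :=
    (le_abs_self _).trans (abs_mul B R ▸ mul_le_mul hB hR (abs_nonneg _) (by positivity))
  have t1 : χ * ρ * W ^ 2 * (A * B) ≤ χ ^ 2 * Q ^ 2 / 4 + 16 / c * P ^ 2 := by
    have a1 := mul_le_mul_of_nonneg_left b1 (show 0 ≤ χ * ρ * W ^ 2 by positivity)
    have a2 := mul_le_mul_of_nonneg_right e3 (sq_nonneg P)
    nlinarith [sq_nonneg (χ * Q / 2 - ρ * (W ^ 2 * (U * W)) * P)]
  have t2 : χ * ρ * W ^ 2 * -(A * R) ≤ 2 * P ^ 2 + 2 * T ^ 2 * W ^ 2 := by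
    have a1 := mul_le_mul_of_nonneg_left b2 (show 0 ≤ χ * ρ * W ^ 2 by positivity)
    have a2 := mul_le_mul h1 e2 (by positivity) zero_le_one
    have a3 := mul_le_mul_of_nonneg_right a2 (show 0 ≤ T * W * P by positivity)
    nlinarith [sq_nonneg (P - T * W)]
  have t3 : χ * ρ * (U ^ 2 + σ) * (B * R) ≤ χ ^ 2 * Q ^ 2 / 4 + 16 * T ^ 2 * U ^ 2 := by
    have a1 := mul_le_mul_of_nonneg_left b3 (show 0 ≤ χ * ρ * (U ^ 2 + σ) by positivity)
    have a3 := mul_le_mul_of_nonneg_right e1 (show 0 ≤ χ * Q * (T * U) by positivity)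
    nlinarith [sq_nonneg (χ * Q / 2 - 4 * (T * U))]
  have t4 : 0 ≤ χ * ρ * (U ^ 2 + σ) * B ^ 2 := by positivity
  nlinarith

theorem lt_of_pos {u w : E → S} {σ c : ℝ} (hσ : 0 < σ) (hc : 0 < c) {x : E}
    (h : max (1 - zr σ u w x / c) 0 ≠ 0) :
    ‖u x‖ ^ 2 + σ < c * (‖u x‖ ^ 2 + ‖w x‖ ^ 2 + σ) := by
  have h1 : 0 < 1 - zr σ u w x / c := not_le.1 fun h' => h (max_eq_right h')
  rw [sub_pos, div_lt_one hc, zr, div_lt_iff₀ (by positivity)] at h1
  exact h1

theorem pt (hr : IsDiracRep α β) {u w : E → S} (hu : ContDiff ℝ 1 u) (hw : ContDiff ℝ 1 w)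
    {σ c T μ : ℝ} (hσ : 0 < σ) (hc : 0 < c) (hc2 : 2 * c ≤ 1) (hμ : 1 ≤ μ) (hT : 0 ≤ T) {x : E}
    (h1 : ‖Zf e α w x‖ ≤ T * ‖u x‖) (h2 : T ^ 2 * ‖w x‖ ^ 2 ≤ μ ^ 2 * (d * G2 e u x)) :
    max (1 - zr σ u w x / c) 0 ^ 2 * (‖Zf e α w x‖ ^ 2 - G2 e w x) +
      ((inner ℂ (∑ j, ((fderiv ℝ (fun x => max (1 - zr σ u w x / c) 0 ^ 2) x (e j) : ℝ) : ℂ) •
        α j (w x)) (Zf e α w x)).re -
        ∑ j, fderiv ℝ (fun x => max (1 - zr σ u w x / c) 0 ^ 2) x (e j) *
          (inner ℂ (w x) (fderiv ℝ w x (e j))).re) ≤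
      (18 * d ^ 2 + d + 18) * (1 / c + μ ^ 2) * (Low c u w).indicator (G2 e u) x -
        max (1 - zr σ u w x / c) 0 ^ 2 * G2 e w x / 2 := by
  have G0 : ∀ f : E → S, 0 ≤ G2 e f x := fun f => Finset.sum_nonneg fun j _ => sq_nonneg _
  have I0 : 0 ≤ (Low c u w).indicator (G2 e u) x := indicator_apply_nonneg fun _ => G0 u
  have d0 : (0 : ℝ) ≤ d := Nat.cast_nonneg d
  rw [sum_inner, Complex.re_sum, ← Finset.sum_sub_distrib]
  simp only [inner_smul_left, Complex.conj_ofReal, Complex.re_ofReal_mul, ← mul_sub,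
    d_eta hu hw hσ c x]
  by_cases hχ : max (1 - zr σ u w x / c) 0 = 0
  · simp only [hχ, zero_mul, neg_zero, Finset.sum_const_zero, ne_eq, OfNat.ofNat_ne_zero,
      not_false_eq_true, zero_pow, add_zero, zero_div, sub_zero]
    positivity
  have hz := lt_of_pos hσ hc hχ
  have χ0 : 0 ≤ max (1 - zr σ u w x / c) 0 := le_max_right _ _
  have χ1 : max (1 - zr σ u w x / c) 0 ≤ 1 :=
    max_le (sub_le_self _ (by unfold zr; positivity)) zero_le_one
  generalize max (1 - zr σ u w x / c) 0 = χ at *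
  have re : ∀ f g : S, |(inner ℂ f g).re| ≤ ‖f‖ * ‖g‖ := fun f g =>
    (Complex.abs_re_le_norm _).trans (norm_inner_le_norm _ _)
  by_cases h0 : u x = 0
  · have hZ : Zf e α w x = 0 := by simpa [h0] using h1
    have hs : ∑ j, -(χ * (4 / (c * (‖u x‖ ^ 2 + ‖w x‖ ^ 2 + σ) ^ 2)) *
        (‖w x‖ ^ 2 * (inner ℂ (u x) (fderiv ℝ u x (e j))).re -
          (‖u x‖ ^ 2 + σ) * (inner ℂ (w x) (fderiv ℝ w x (e j))).re)) *
        ((inner ℂ (α j (w x)) (Zf e α w x)).re - (inner ℂ (w x) (fderiv ℝ w x (e j))).re) ≤ 0 := by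
      refine Finset.sum_nonpos fun j _ => ?_
      rw [hZ, inner_zero_right, h0, inner_zero_left, Complex.zero_re]
      have : 0 ≤ χ * (4 / (c * (‖(0 : S)‖ ^ 2 + ‖w x‖ ^ 2 + σ) ^ 2)) * (‖(0 : S)‖ ^ 2 + σ) *
        (inner ℂ (w x) (fderiv ℝ w x (e j))).re ^ 2 := by positivity
      linarith
    have a1 : 0 ≤ χ ^ 2 * G2 e w x := mul_nonneg (sq_nonneg _) (G0 w)
    have a2 : 0 ≤ (18 * d ^ 2 + d + 18) * (1 / c + μ ^ 2) * (Low c u w).indicator (G2 e u) x := by
      positivity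
    have a3 : ‖Zf e α w x‖ = 0 := by rw [hZ, norm_zero]
    rw [a3]
    linarith
  have hL : x ∈ Low c u w := ⟨norm_pos_iff.2 h0, by nlinarith⟩
  rw [indicator_of_mem hL]
  have hs := Finset.sum_le_sum (s := Finset.univ) fun j _ =>
    one χ0 χ1 hc hσ (norm_nonneg (u x)) (norm_nonneg (w x)) (norm_nonneg (fderiv ℝ u x (e j)))
      (norm_nonneg (fderiv ℝ w x (e j))) hT hz.le (re _ _) (re _ _)
      ((re (α j (w x)) (Zf e α w x)).trans (by
        rw [Alg.norm_al hr e]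
        exact mul_le_mul_of_nonneg_left h1 (norm_nonneg _)))
  refine (add_le_add_right hs _).trans ?_
  simp only [Finset.sum_add_distrib, ← Finset.sum_div, ← Finset.mul_sum, Finset.sum_const,
    Finset.card_univ, Fintype.card_fin, nsmul_eq_mul]
  change χ ^ 2 * (‖Zf e α w x‖ ^ 2 - G2 e w x) + (χ ^ 2 * G2 e w x / 2 + (16 / c + 2) * G2 e u x +
    (2 * T ^ 2 * (d * ‖w x‖ ^ 2) + 16 * T ^ 2 * (d * ‖u x‖ ^ 2))) ≤ _
  have uw : ‖u x‖ ^ 2 ≤ ‖w x‖ ^ 2 := by nlinarith [sq_nonneg ‖u x‖, sq_nonneg ‖w x‖]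
  have a1 : T ^ 2 * ‖u x‖ ^ 2 ≤ μ ^ 2 * (d * G2 e u x) :=
    (mul_le_mul_of_nonneg_left uw (sq_nonneg T)).trans h2
  have a2 : χ ^ 2 * ‖Zf e α w x‖ ^ 2 ≤ μ ^ 2 * (d * G2 e u x) := by
    have := mul_le_mul (pow_le_one₀ χ0 χ1 (n := 2)) (pow_le_pow_left₀ (norm_nonneg _) h1 2)
      (by positivity) zero_le_one
    rw [mul_pow] at this
    linarith
  have a3 := mul_le_mul_of_nonneg_left a1 d0
  have a4 := mul_le_mul_of_nonneg_left h2 d0
  have a5 : G2 e u x ≤ μ ^ 2 * G2 e u x := le_mul_of_one_le_left (G0 u) (one_le_pow₀ hμ)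
  have a6 : 0 ≤ (18 * d ^ 2 + d + 2) * (1 / c) * G2 e u x := mul_nonneg (by positivity) (G0 u)
  have a7 : 0 ≤ μ ^ 2 * G2 e u x := mul_nonneg (sq_nonneg _) (G0 u)
  have a8 : 16 / c = 16 * (1 / c) := by ring
  rw [a8]
  linarith

end NBw

open NBw in
theorem stNBw (hc : Ctx α β m) (h0 : StNL0 e α) (hA : StAlg e α) : StNBw e α := by
  have d0 : (0 : ℝ) ≤ d := Nat.cast_nonneg d
  refine ⟨2 * (18 * d ^ 2 + d + 18), by nlinarith [sq_nonneg (d : ℝ)], ?_⟩
  intro a b p M μ c σ V u w ha hb hμ hM hbμ _ hV hP c0 hc2 hσ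
  obtain ⟨⟨-, -, -, -, -, -⟩, hZu, -, -⟩ := hA u hP.ru
  obtain ⟨⟨-, -, -, -, cZ, cG⟩, -, -, -⟩ := hA w hP.rw
  have uc := hP.ru.c1.continuous
  have wc := hP.rw.c1.continuous
  have hη := c1_eta hP.ru.c1 hP.rw.c1 hσ c
  have hs : HasCompactSupport fun x => max (1 - zr σ u w x / c) 0 ^ 2 := by
    obtain ⟨L, hL⟩ := hP.rw.lip
    refine HasCompactSupport.intro
      (Alg.bdd hL hP.rw.l2 (Real.sqrt_pos.2 hσ)).isCompact_closure fun x h => ?_
    by_contra h1
    have h2 := lt_of_pos hσ c0 fun h' => h1 (by rw [h']; simp)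
    refine h (subset_closure (Real.sqrt_le_iff.2 ⟨norm_nonneg _, ?_⟩))
    nlinarith [sq_nonneg ‖u x‖, sq_nonneg ‖w x‖]
  have hI := h0 w _ hP.rw.c1 hη hs
  have hpt := fun x => pt (e := e) hc.rep hP.ru.c1 hP.rw.c1 hσ c0 hc2 hμ
    (show 0 ≤ μ * a by positivity) (x := x)
  set η : E → ℝ := fun x => max (1 - zr σ u w x / c) 0 ^ 2 with hηd
  have cD : ∀ j, Continuous fun x => fderiv ℝ η x (e j) := fun j =>
    (hη.continuous_fderiv one_ne_zero).clm_apply continuous_const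
  have cW : ∀ j, Continuous fun x => fderiv ℝ w x (e j) := fun j =>
    (hP.rw.c1.continuous_fderiv one_ne_zero).clm_apply continuous_const
  have iI : Integrable (fun x => η x * (‖Zf e α w x‖ ^ 2 - G2 e w x) +
      ((inner ℂ (∑ j, ((fderiv ℝ η x (e j) : ℝ) : ℂ) • α j (w x)) (Zf e α w x)).re -
        ∑ j, fderiv ℝ η x (e j) * (inner ℂ (w x) (fderiv ℝ w x (e j))).re)) volume := by
    refine Continuous.integrable_of_hasCompactSupport ?_
      (HasCompactSupport.intro hs fun x hx => ?_)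
    · refine (hη.continuous.mul ((cZ.norm.pow 2).sub cG)).add
        ((Complex.continuous_re.comp ((continuous_finsetSum _ fun j _ =>
          (Complex.continuous_ofReal.comp (cD j)).smul ((α j).continuous.comp wc)).inner cZ)).sub
        (continuous_finsetSum _ fun j _ =>
          (cD j).mul (Complex.continuous_re.comp (wc.inner (cW j)))))
    · simp [image_eq_zero_of_notMem_tsupport hx, fderiv_of_notMem_tsupport ℝ hx]
  have iη : Integrable (fun x => η x * G2 e w x) volume :=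
    (hη.continuous.mul cG).integrable_of_hasCompactSupport hs.mul_right
  have mL : MeasurableSet (Low c u w) :=
    (isOpen_lt continuous_const uc.norm).measurableSet.inter
      (isClosed_le (uc.norm.pow 2)
        (continuous_const.mul ((uc.norm.pow 2).add (wc.norm.pow 2)))).measurableSet
  have iL := (hP.ru.dl2.indicator mL).const_mul ((18 * d ^ 2 + d + 18) * (1 / c + μ ^ 2))
  have key := integral_mono_ae iI (iL.sub (iη.div_const 2)) (by
    filter_upwards [hP.zu, hP.zw] with x h1 h2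
    obtain ⟨v0, v1⟩ := hV x
    refine hpt x ?_ ?_
    · rw [h2, norm_smul, norm_smul, Complex.norm_I, one_mul, Complex.norm_real, Real.norm_eq_abs]
      exact mul_le_mul_of_nonneg_right (abs_le.2 ⟨by linarith, by linarith⟩) (norm_nonneg _)
    · have h3 := hZu x
      rw [h1, norm_smul, norm_smul, Complex.norm_I, one_mul, Complex.norm_real, Real.norm_eq_abs,
        mul_pow, sq_abs] at h3
      rw [mul_pow, mul_assoc]
      refine mul_le_mul_of_nonneg_left (le_trans ?_ h3) (sq_nonneg μ)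
      exact mul_le_mul_of_nonneg_right (pow_le_pow_left₀ ha.le (by linarith) 2) (sq_nonneg _))
  rw [hI] at key
  simp only [Pi.sub_apply] at key
  rw [integral_sub iL (iη.div_const 2), integral_div, integral_const_mul,
    integral_indicator mL] at key
  change ∫ x, η x * G2 e w x ≤ _
  linarith

end Pool.Agent.MP_e4cac8_mp

end
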