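import Pool.Agent.Mg.Fe4cac8.G7be784
import Pool.Agent.Mg.Fe4cac8.Gf65bbc
import Pool.Agent.Mg.Fe4cac8.G23b726

set_option linter.all false

/-! Weighted Caccioppoli inequality for the lower spinor. -/

open Set MeasureTheory Filter Topology
open scoped ENNReal NNReal SchwartzMap
open Pool.Agent.MP_0b7119_mp.G

namespace Pool.Agent.MP_e4cac8_mp

set_option linter.unusedSectionVars false

variable {E S : Type} [NormedAddCommGroup E] [InnerProductSpace ℝ E] [FiniteDimensional ℝ E]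
  [MeasurableSpace E] [BorelSpace E] [NormedAddCommGroup S] [InnerProductSpace ℂ S]
  [CompleteSpace S] [FiniteDimensional ℂ S] {d : ℕ}
  {e : OrthonormalBasis (Fin d) ℝ E} {α : Fin d → S →L[ℂ] S} {β : S →L[ℂ] S} {m : ℝ}

namespace NBw4

open NBw

theorem q1 {p : ℝ} (hp : 2 ≤ p) : 1 ≤ p / (p - 1) := by
  rw [le_div_iff₀ (by linarith)]
  linarith

theorem q2 {p : ℝ} (hp : 2 ≤ p) : p / (p - 1) ≤ 2 := by
  rw [div_le_iff₀ (by linarith)]
  linarith

theorem c1_eta {u w : E → S} (hu : ContDiff ℝ 1 u) (hw : ContDiff ℝ 1 w) {p a σ : ℝ} (hp : 2 ≤ p)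
    (ha : 0 < a) (hσ : 0 < σ) (T c : ℝ) :
    ContDiff ℝ 1 fun x => max (1 - z4 p a T σ u w x / c) 0 ^ 2 := by
  have hN := (hu.norm_sq ℂ).add (hw.norm_sq ℂ)
  have h1 : ContDiff ℝ 1 (z4 p a T σ u w) :=
    ((contDiff_const.mul (hu.norm_sq ℂ)).add contDiff_const).div
      (((contDiff_const.mul hN).add
        (hN.rpow_const_of_le (m := 1) (by simpa using q1 hp))).add contDiff_const)
      fun x => by positivity
  exact c1_sq.comp (contDiff_const.sub (h1.div_const c))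

theorem d_eta {u w : E → S} (hu : ContDiff ℝ 1 u) (hw : ContDiff ℝ 1 w) {p a σ : ℝ} (hp : 2 ≤ p)
    (ha : 0 < a) (hσ : 0 < σ) (T c : ℝ) (x v : E) :
    fderiv ℝ (fun x => max (1 - z4 p a T σ u w x / c) 0 ^ 2) x v =
      -(max (1 - z4 p a T σ u w x / c) 0 * (4 / (c * (a * (‖u x‖ ^ 2 + ‖w x‖ ^ 2) +
          (‖u x‖ ^ 2 + ‖w x‖ ^ 2) ^ (p / (p - 1)) + σ))) *
        ((T - z4 p a T σ u w x * (a + p / (p - 1) * (‖u x‖ ^ 2 + ‖w x‖ ^ 2) ^ (p / (p - 1) - 1))) *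
            (inner ℂ (u x) (fderiv ℝ u x v)).re -
          z4 p a T σ u w x * (a + p / (p - 1) * (‖u x‖ ^ 2 + ‖w x‖ ^ 2) ^ (p / (p - 1) - 1)) *
            (inner ℂ (w x) (fderiv ℝ w x v)).re)) := by
  have du := hu.differentiable one_ne_zero x
  have dw := hw.differentiable one_ne_zero x
  have h1 := ((hu.norm_sq ℂ).differentiable one_ne_zero x).hasFDerivAt
  have h2 := ((hw.norm_sq ℂ).differentiable one_ne_zero x).hasFDerivAt
  have hn : a * (‖u x‖ ^ 2 + ‖w x‖ ^ 2) + (‖u x‖ ^ 2 + ‖w x‖ ^ 2) ^ (p / (p - 1)) + σ ≠ 0 := by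
    positivity
  have h0 : HasFDerivAt (fun y => ‖u y‖ ^ 2 + ‖w y‖ ^ 2) _ x := h1.add h2
  have h7 : HasFDerivAt (fun y => a * (‖u y‖ ^ 2 + ‖w y‖ ^ 2) +
      (‖u y‖ ^ 2 + ‖w y‖ ^ 2) ^ (p / (p - 1)) + σ) _ x :=
    ((h0.const_mul a).add (h0.rpow_const (Or.inr (q1 hp)))).add_const σ
  have h3 := (hasDerivAt_inv hn).comp_hasFDerivAt x h7
  have h4 := ((((h1.const_mul T).add_const σ).mul h3).mul_const c⁻¹).const_sub 1
  have h5 : HasFDerivAt (fun x => 1 - z4 p a T σ u w x / c) _ x :=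
    h4.congr_of_eventuallyEq (Eventually.of_forall fun y => by
      simp only [z4, div_eq_mul_inv, Pi.mul_apply, Function.comp_apply])
  have h6 := (der_sq (1 - z4 p a T σ u w x / c)).comp_hasFDerivAt x h5
  rw [show (fun x => max (1 - z4 p a T σ u w x / c) 0 ^ 2) =
    (fun s : ℝ => max s 0 ^ 2) ∘ fun x => 1 - z4 p a T σ u w x / c from rfl, h6.fderiv]
  simp only [smul_apply, neg_apply, add_apply, smul_eq_mul, dsq du, dsq dw, Function.comp_apply]
  generalize max (1 - z4 p a T σ u w x / c) 0 = χ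
  unfold z4
  generalize a * (‖u x‖ ^ 2 + ‖w x‖ ^ 2) + (‖u x‖ ^ 2 + ‖w x‖ ^ 2) ^ (p / (p - 1)) + σ = n at hn
  generalize (‖u x‖ ^ 2 + ‖w x‖ ^ 2) ^ (p / (p - 1) - 1) = r
  generalize p / (p - 1) = q
  rcases eq_or_ne c 0 with rfl | hc
  · simp
  · field_simp
    ring

/-- The estimate for one coordinate direction. -/
theorem one {χ c n κ T W U O P Q A B R : ℝ} (h0 : 0 ≤ χ) (h1 : χ ≤ 1) (hc : 0 < c) (hn : 0 < n)
    (hW : 0 < W) (k0 : 0 ≤ κ) (kT : κ ≤ T) (kW : κ ≤ 2 * c * W) (hU : 0 ≤ U) (hO : 0 ≤ O)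
    (hP : 0 ≤ P) (hQ : 0 ≤ Q) (hz : T * U ^ 2 ≤ c * n) (ho : W * O ^ 2 ≤ n) (hA : |A| ≤ U * P)
    (hB : |B| ≤ O * Q) (hR : |R| ≤ O * (T * U)) :
    -(χ * (4 / (c * n)) * ((T - κ) * A - κ * B)) * (R - B) ≤
      χ ^ 2 * Q ^ 2 / 2 + (16 * (T / c) + 2 * T) / W * P ^ 2 +
        (2 * T * W * O ^ 2 + 64 * T ^ 2 * U ^ 2) := by
  have hT : 0 ≤ T := k0.trans kT
  set ρ := 4 / (c * n) with hρ
  have ρ0 : 0 < ρ := by positivity
  have e1 : ρ * (T * U ^ 2) ≤ 4 := by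
    rw [hρ, div_mul_eq_mul_div, div_le_iff₀ (by positivity)]
    linarith
  have e2 : ρ * (κ * O ^ 2) ≤ 8 := by
    rw [hρ, div_mul_eq_mul_div, div_le_iff₀ (by positivity)]
    have a1 := mul_le_mul_of_nonneg_right kW (sq_nonneg O)
    have a2 := mul_le_mul_of_nonneg_left ho hc.le
    linarith
  have e3 : (ρ * (T * (U * O))) ^ 2 ≤ 16 * (T / c) / W := by
    have a1 : ρ * O ^ 2 ≤ 4 / c / W := by
      rw [hρ, div_mul_eq_mul_div, div_div, div_le_div_iff₀ (by positivity) (by positivity)]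
      have := mul_le_mul_of_nonneg_left ho hc.le
      linarith
    calc (ρ * (T * (U * O))) ^ 2 = T * (ρ * (T * U ^ 2) * (ρ * O ^ 2)) := by ring
      _ ≤ T * (4 * (4 / c / W)) :=
        mul_le_mul_of_nonneg_left (mul_le_mul e1 a1 (by positivity) (by norm_num)) hT
      _ = 16 * (T / c) / W := by ring
  have b1 : |A * B| ≤ U * P * (O * Q) :=
    abs_mul A B ▸ mul_le_mul hA hB (abs_nonneg _) (by positivity)
  have b2 : |A * R| ≤ U * P * (O * (T * U)) :=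
    abs_mul A R ▸ mul_le_mul hA hR (abs_nonneg _) (by positivity)
  have b3 : B * R ≤ O * Q * (O * (T * U)) :=
    (le_abs_self _).trans (abs_mul B R ▸ mul_le_mul hB hR (abs_nonneg _) (by positivity))
  have k1 : 0 ≤ T - κ := sub_nonneg.2 kT
  have k2 : T - κ ≤ T := sub_le_self _ k0
  have t1 : χ * ρ * ((T - κ) * (A * B)) ≤ χ ^ 2 * Q ^ 2 / 4 + 16 * (T / c) / W * P ^ 2 := by
    have a0 : (T - κ) * (A * B) ≤ T * (U * P * (O * Q)) :=
      (mul_le_mul_of_nonneg_left (le_abs_self _) k1).trans (mul_le_mul k2 b1 (abs_nonneg _) hT)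
    have a1 := mul_le_mul_of_nonneg_left a0 (show 0 ≤ χ * ρ by positivity)
    have a2 := mul_le_mul_of_nonneg_right e3 (sq_nonneg P)
    nlinarith [sq_nonneg (χ * Q / 2 - ρ * (T * (U * O)) * P)]
  have t2 : χ * ρ * ((T - κ) * -(A * R)) ≤ 2 * T / W * P ^ 2 + 2 * T * W * O ^ 2 := by
    have a0 : (T - κ) * -(A * R) ≤ T * (U * P * (O * (T * U))) :=
      (mul_le_mul_of_nonneg_left (neg_le_abs _) k1).trans (mul_le_mul k2 b2 (abs_nonneg _) hT)
    have a1 := mul_le_mul_of_nonneg_left a0 (show 0 ≤ χ * ρ by positivity)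
    have a2 := mul_le_mul h1 e1 (by positivity) zero_le_one
    have a3 := mul_le_mul_of_nonneg_right a2 (show 0 ≤ T * O * P by positivity)
    have a4 : 0 ≤ T / W * (P - W * O) ^ 2 := by positivity
    have a5 : T / W * (P - W * O) ^ 2 = T / W * P ^ 2 - 2 * (T * O * P) + T * W * O ^ 2 := by
      field_simp
      ring
    have a6 : 2 * T / W * P ^ 2 = 2 * (T / W * P ^ 2) := by ring
    linarith
  have t3 : χ * ρ * (κ * (B * R)) ≤ χ ^ 2 * Q ^ 2 / 4 + 64 * T ^ 2 * U ^ 2 := by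
    have a1 := mul_le_mul_of_nonneg_left b3 (show 0 ≤ χ * ρ * κ by positivity)
    have a3 := mul_le_mul_of_nonneg_right e2 (show 0 ≤ χ * Q * (T * U) by positivity)
    nlinarith [sq_nonneg (χ * Q / 2 - 8 * (T * U))]
  have t4 : 0 ≤ χ * ρ * (κ * B ^ 2) := by positivity
  have t5 : (16 * (T / c) + 2 * T) / W * P ^ 2 = 16 * (T / c) / W * P ^ 2 + 2 * T / W * P ^ 2 := by
    ring
  linarith

theorem lt_of_pos {z c : ℝ} (hc : 0 < c) (h : max (1 - z / c) 0 ≠ 0) : z < c := by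
  have h1 : 0 < 1 - z / c := not_le.1 fun h' => h (max_eq_right h')
  rwa [sub_pos, div_lt_one hc] at h1

theorem pt (hr : IsDiracRep α β) {u w : E → S} {V : E → ℝ} (hu : ContDiff ℝ 1 u)
    (hw : ContDiff ℝ 1 w) {p a σ c T : ℝ} (hp : 2 ≤ p) (ha : 0 < a) (hσ : 0 < σ) (hc : 0 < c)
    (hc2 : 2 * c ≤ 1) {x : E} (v0 : 0 ≤ V x) (v1 : a + V x ≤ T)
    (el : V x ^ (p - 1) = ‖u x‖ ^ 2 + ‖w x‖ ^ 2)
    (h1 : ‖Zf e α w x‖ ≤ T * ‖u x‖) (h2 : (a + V x) ^ 2 * ‖w x‖ ^ 2 ≤ d * G2 e u x) :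
    max (1 - z4 p a T σ u w x / c) 0 ^ 2 * (‖Zf e α w x‖ ^ 2 - G2 e w x) +
      ((inner ℂ (∑ j, ((fderiv ℝ (fun x => max (1 - z4 p a T σ u w x / c) 0 ^ 2) x (e j) : ℝ) : ℂ) •
        α j (w x)) (Zf e α w x)).re -
        ∑ j, fderiv ℝ (fun x => max (1 - z4 p a T σ u w x / c) 0 ^ 2) x (e j) *
          (inner ℂ (w x) (fderiv ℝ w x (e j))).re) ≤
      (66 * d ^ 2 + d + 18) * (T / c) *
          (Low4 a T c V u w).indicator (fun x => G2 e u x / (a + V x)) x -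
        max (1 - z4 p a T σ u w x / c) 0 ^ 2 * G2 e w x / 2 := by
  have G0 : ∀ f : E → S, 0 ≤ G2 e f x := fun f => Finset.sum_nonneg fun j _ => sq_nonneg _
  have W0 : 0 < a + V x := by positivity
  have T0 : 0 < T := W0.trans_le v1
  have g0 : 0 ≤ G2 e u x / (a + V x) := div_nonneg (G0 u) W0.le
  have I0 : 0 ≤ (Low4 a T c V u w).indicator (fun x => G2 e u x / (a + V x)) x :=
    indicator_apply_nonneg fun _ => g0
  have d0 : (0 : ℝ) ≤ d := Nat.cast_nonneg d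
  have p1 : p - 1 ≠ 0 := by linarith
  have r1 : (‖u x‖ ^ 2 + ‖w x‖ ^ 2) ^ (p / (p - 1) - 1) = V x := by
    rw [← el, ← Real.rpow_mul v0, show (p - 1) * (p / (p - 1) - 1) = 1 by field_simp; ring,
      Real.rpow_one]
  have r2 : (‖u x‖ ^ 2 + ‖w x‖ ^ 2) ^ (p / (p - 1)) = V x * (‖u x‖ ^ 2 + ‖w x‖ ^ 2) := by
    rw [← r1, ← Real.rpow_add_one' (by positivity) (by linarith [q1 hp]), sub_add_cancel]
  rw [sum_inner, Complex.re_sum, ← Finset.sum_sub_distrib]
  simp only [inner_smul_left, Complex.conj_ofReal, Complex.re_ofReal_mul, ← mul_sub,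
    d_eta hu hw hp ha hσ T c x]
  by_cases hχ : max (1 - z4 p a T σ u w x / c) 0 = 0
  · simp only [hχ, zero_mul, neg_zero, Finset.sum_const_zero, ne_eq, OfNat.ofNat_ne_zero,
      not_false_eq_true, zero_pow, add_zero, zero_div, sub_zero]
    positivity
  have hz := lt_of_pos hc hχ
  have z0 : 0 ≤ z4 p a T σ u w x := by unfold z4; positivity
  have χ0 : 0 ≤ max (1 - z4 p a T σ u w x / c) 0 := le_max_right _ _
  have χ1 : max (1 - z4 p a T σ u w x / c) 0 ≤ 1 :=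
    max_le (sub_le_self _ (by positivity)) zero_le_one
  have hz' : T * ‖u x‖ ^ 2 + σ < c * ((a + V x) * (‖u x‖ ^ 2 + ‖w x‖ ^ 2) + σ) := by
    rw [z4, div_lt_iff₀ (by positivity), r2] at hz
    linarith
  generalize max (1 - z4 p a T σ u w x / c) 0 = χ at *
  rw [r1, r2, ← add_mul]
  have k0 : 0 ≤ z4 p a T σ u w x * (a + p / (p - 1) * V x) := by
    have := q1 hp
    positivity
  have kW : z4 p a T σ u w x * (a + p / (p - 1) * V x) ≤ 2 * c * (a + V x) := by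
    have := mul_le_mul_of_nonneg_right (q2 hp) v0
    have h3 := mul_le_mul hz.le (show a + p / (p - 1) * V x ≤ 2 * (a + V x) by linarith)
      (by have := q1 hp; positivity) hc.le
    linarith
  generalize z4 p a T σ u w x * (a + p / (p - 1) * V x) = κ at *
  have kT : κ ≤ T := kW.trans (by nlinarith)
  have re : ∀ f g : S, |(inner ℂ f g).re| ≤ ‖f‖ * ‖g‖ := fun f g =>
    (Complex.abs_re_le_norm _).trans (norm_inner_le_norm _ _)
  have n0 : 0 < (a + V x) * (‖u x‖ ^ 2 + ‖w x‖ ^ 2) + σ := by positivity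
  by_cases h0 : u x = 0
  · have hZ : Zf e α w x = 0 := by simpa [h0] using h1
    have hs : ∑ j, -(χ * (4 / (c * ((a + V x) * (‖u x‖ ^ 2 + ‖w x‖ ^ 2) + σ))) *
        ((T - κ) * (inner ℂ (u x) (fderiv ℝ u x (e j))).re -
          κ * (inner ℂ (w x) (fderiv ℝ w x (e j))).re)) *
        ((inner ℂ (α j (w x)) (Zf e α w x)).re - (inner ℂ (w x) (fderiv ℝ w x (e j))).re) ≤ 0 := by
      refine Finset.sum_nonpos fun j _ => ?_
      have : 0 ≤ χ * (4 / (c * ((a + V x) * (‖u x‖ ^ 2 + ‖w x‖ ^ 2) + σ))) * κ *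
        (inner ℂ (w x) (fderiv ℝ w x (e j))).re ^ 2 := by positivity
      have b1 : (inner ℂ (u x) (fderiv ℝ u x (e j))).re = 0 := by
        rw [h0, inner_zero_left, Complex.zero_re]
      rw [hZ, inner_zero_right, b1, Complex.zero_re]
      linarith
    have a1 : 0 ≤ χ ^ 2 * G2 e w x := mul_nonneg (sq_nonneg _) (G0 w)
    have a2 : 0 ≤ (66 * d ^ 2 + d + 18) * (T / c) *
        (Low4 a T c V u w).indicator (fun x => G2 e u x / (a + V x)) x := by
      positivity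
    have a3 : ‖Zf e α w x‖ = 0 := by rw [hZ, norm_zero]
    rw [a3]
    linarith
  have hL2 : T * ‖u x‖ ^ 2 ≤ c * ((a + V x) * (‖u x‖ ^ 2 + ‖w x‖ ^ 2)) := by nlinarith
  have hL : x ∈ Low4 a T c V u w := ⟨norm_pos_iff.2 h0, hL2⟩
  rw [indicator_of_mem hL]
  have hs := Finset.sum_le_sum (s := Finset.univ) fun j _ =>
    one χ0 χ1 hc n0 W0 k0 kT kW (norm_nonneg (u x)) (norm_nonneg (w x))
      (norm_nonneg (fderiv ℝ u x (e j))) (norm_nonneg (fderiv ℝ w x (e j))) (by linarith)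
      (by nlinarith [mul_nonneg W0.le (sq_nonneg ‖u x‖)]) (re _ _) (re _ _)
      ((re (α j (w x)) (Zf e α w x)).trans (by
        rw [Alg.norm_al hr e]
        exact mul_le_mul_of_nonneg_left h1 (norm_nonneg _)))
  refine (add_le_add_right hs _).trans ?_
  simp only [Finset.sum_add_distrib, ← Finset.sum_div, ← Finset.mul_sum, Finset.sum_const,
    Finset.card_univ, Fintype.card_fin, nsmul_eq_mul]
  change χ ^ 2 * (‖Zf e α w x‖ ^ 2 - G2 e w x) + (χ ^ 2 * G2 e w x / 2 +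
    (16 * (T / c) + 2 * T) / (a + V x) * G2 e u x +
    (2 * T * (a + V x) * (d * ‖w x‖ ^ 2) + 64 * T ^ 2 * (d * ‖u x‖ ^ 2))) ≤ _
  have a0 : (a + V x) * ‖w x‖ ^ 2 ≤ d * (G2 e u x / (a + V x)) := by
    rw [← mul_div_assoc, le_div_iff₀ W0]
    linarith
  have uw : T * ‖u x‖ ^ 2 ≤ (a + V x) * ‖w x‖ ^ 2 := by
    have b1 := mul_le_mul_of_nonneg_right v1 (sq_nonneg ‖u x‖)
    have b2 := mul_le_mul_of_nonneg_right hc2
      (show 0 ≤ (a + V x) * (‖u x‖ ^ 2 + ‖w x‖ ^ 2) by positivity)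
    linarith
  have Tc : T ≤ T / c := by
    rw [le_div_iff₀ hc]
    nlinarith
  have a8 : (16 * (T / c) + 2 * T) / (a + V x) * G2 e u x =
      (16 * (T / c) + 2 * T) * (G2 e u x / (a + V x)) := by ring
  rw [a8]
  generalize G2 e u x / (a + V x) = g at *
  have a4 : T * ((a + V x) * ‖w x‖ ^ 2) ≤ T / c * (d * g) :=
    mul_le_mul Tc a0 (by positivity) (by positivity)
  have a1 : T * (T * ‖u x‖ ^ 2) ≤ T / c * (d * g) :=
    (mul_le_mul_of_nonneg_left uw T0.le).trans a4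
  have a2 : χ ^ 2 * ‖Zf e α w x‖ ^ 2 ≤ T / c * (d * g) := by
    have := mul_le_mul (pow_le_one₀ χ0 χ1 (n := 2)) (pow_le_pow_left₀ (norm_nonneg _) h1 2)
      (by positivity) zero_le_one
    rw [mul_pow] at this
    linarith
  have a3 := mul_le_mul_of_nonneg_left a1 d0
  have a5 := mul_le_mul_of_nonneg_left a4 d0
  have a6 := mul_le_mul_of_nonneg_right Tc g0
  linarith

end NBw4

open NBw4 in
theorem stNBw4 (hc : Ctx α β m) (h0 : StNL0 e α) (hA : StAlg e α) : StNBw4 e α := by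
  have d0 : (0 : ℝ) ≤ d := Nat.cast_nonneg d
  refine ⟨2 * (66 * d ^ 2 + d + 18), by nlinarith [sq_nonneg (d : ℝ)], ?_⟩
  intro a b p T c σ V u w hp ha hb hbT mV hV hP c0 hc2 hσ
  obtain ⟨⟨-, -, -, -, -, cGu⟩, hZu, -, -⟩ := hA u hP.ru
  obtain ⟨⟨-, -, -, -, -, cG⟩, -, -, -⟩ := hA w hP.rw
  have uc := hP.ru.c1.continuous
  have wc := hP.rw.c1.continuous
  have hη := c1_eta hP.ru.c1 hP.rw.c1 hp ha hσ T c
  have hs : HasCompactSupport fun x => max (1 - z4 p a T σ u w x / c) 0 ^ 2 := by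
    obtain ⟨L, hL⟩ := hP.ru.lip
    obtain ⟨L', hL'⟩ := hP.rw.lip
    have δ0 : 0 < min 1 (σ / (a + 1)) / 2 := by positivity
    have ht := Real.sqrt_pos.2 δ0
    refine HasCompactSupport.intro
      ((Alg.bdd hL hP.ru.l2 ht).union (Alg.bdd hL' hP.rw.l2 ht)).isCompact_closure fun x h => ?_
    by_contra h1
    have h2 := lt_of_pos c0 fun h' => h1 (by rw [h']; simp)
    have b1 : ‖u x‖ < _ := not_le.mp fun h' => h (subset_closure (Or.inl h'))
    have b2 : ‖w x‖ < _ := not_le.mp fun h' => h (subset_closure (Or.inr h'))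
    have b3 := pow_le_pow_left₀ (norm_nonneg _) b1.le 2
    have b4 := pow_le_pow_left₀ (norm_nonneg _) b2.le 2
    rw [Real.sq_sqrt δ0.le] at b3 b4
    have b5 : ‖u x‖ ^ 2 + ‖w x‖ ^ 2 ≤ 1 := by linarith [min_le_left 1 (σ / (a + 1))]
    have b6 : ‖u x‖ ^ 2 + ‖w x‖ ^ 2 ≤ σ / (a + 1) := by linarith [min_le_right 1 (σ / (a + 1))]
    rw [le_div_iff₀ (by positivity)] at b6
    have b7 := Real.rpow_le_self_of_le_one (by positivity) b5 (q1 hp)
    rw [z4, div_lt_iff₀ (by positivity)] at h2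
    have b8 : 0 ≤ T * ‖u x‖ ^ 2 := mul_nonneg (hb.trans hbT) (sq_nonneg _)
    have b9 := mul_le_mul_of_nonneg_left (show a * (‖u x‖ ^ 2 + ‖w x‖ ^ 2) +
      (‖u x‖ ^ 2 + ‖w x‖ ^ 2) ^ (p / (p - 1)) + σ ≤ 2 * σ by linarith) c0.le
    nlinarith
  have hI := h0 w _ hP.rw.c1 hη hs
  have iI := NB.nl_int (e := e) (α := α) hP.rw.c1 hη hs
  have iη : Integrable (fun x => max (1 - z4 p a T σ u w x / c) 0 ^ 2 * G2 e w x) volume :=
    (hη.continuous.mul cG).integrable_of_hasCompactSupport hs.mul_right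
  have mL : MeasurableSet (Low4 a T c V u w) :=
    (isOpen_lt continuous_const uc.norm).measurableSet.inter
      (measurableSet_le (continuous_const.mul (uc.norm.pow 2)).measurable
        (((mV.const_add a).mul ((uc.norm.pow 2).add (wc.norm.pow 2)).measurable).const_mul c))
  have iG : Integrable (fun x => G2 e u x / (a + V x)) volume := by
    refine (hP.ru.dl2.div_const a).mono' (cGu.measurable.div (mV.const_add a)).aestronglyMeasurable
      (Eventually.of_forall fun x => ?_)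
    have g0 : 0 ≤ G2 e u x := Finset.sum_nonneg fun j _ => sq_nonneg _
    have v0 := (hV x).1
    rw [Real.norm_of_nonneg (by positivity)]
    exact div_le_div_of_nonneg_left g0 ha (by linarith)
  have iL := (iG.indicator mL).const_mul ((66 * d ^ 2 + d + 18) * (T / c))
  have key := integral_mono_ae iI (iL.sub (iη.div_const 2)) (by
    filter_upwards [hP.zu, hP.zw, hP.el] with x h1 h2 el
    obtain ⟨v0, v1⟩ := hV x
    refine pt hc.rep hP.ru.c1 hP.rw.c1 hp ha hσ c0 hc2 v0 v1 el ?_ ?_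
    · rw [h2, norm_smul, norm_smul, Complex.norm_I, one_mul, Complex.norm_real, Real.norm_eq_abs]
      exact mul_le_mul_of_nonneg_right (abs_le.2 ⟨by linarith, by linarith⟩) (norm_nonneg _)
    · have h3 := hZu x
      rwa [h1, norm_smul, norm_smul, Complex.norm_I, one_mul, Complex.norm_real, Real.norm_eq_abs,
        mul_pow, sq_abs] at h3)
  rw [hI] at key
  simp only [Pi.sub_apply] at key
  rw [integral_sub iL (iη.div_const 2), integral_div, integral_const_mul,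
    integral_indicator mL] at key
  linarith

end Pool.Agent.MP_e4cac8_mp
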