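import Pool.Agent.MP_0b7119_mp.JobD
import Pool.Agent.MP_0b7119_mp.JobK
import Pool.Agent.MP_0b7119_mp.Ops

set_option linter.all false

section

/-! Interfaces for the radial symmetry of optimal potentials in the Dirac Keller problem. -/

open Set MeasureTheory Filter Topology
open scoped ENNReal NNReal SchwartzMap
open Pool.Agent.MP_0b7119_mp.G

namespace Pool.Agent.MP_e4cac8_mp

section defs

variable {E S : Type} [NormedAddCommGroup E] [InnerProductSpace ℝ E] [FiniteDimensional ℝ E]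
  [MeasurableSpace E] [BorelSpace E] [NormedAddCommGroup S] [InnerProductSpace ℂ S]
  [CompleteSpace S] [FiniteDimensional ℂ S] {d : ℕ}

/-- Standing assumptions. -/
structure Ctx (α : Fin d → S →L[ℂ] S) (β : S →L[ℂ] S) (m : ℝ) : Prop where
  rep : IsDiracRep α β
  two : 2 ≤ d
  pos : 0 < m
  nt : ∃ ξ : S, ξ ≠ 0

/-- The real bilinear form of the kernel `r`. -/
noncomputable def Bf (r : E → S →L[ℂ] S) (G H : E → S) : ℝ :=
  ∫ p : E × E, (inner ℂ (G p.1) (r (p.1 - p.2) (H p.2))).re ∂(volume.prod volume)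

/-- Multiplication by the square root of `V`. -/
noncomputable def sv (V : E → ℝ) (g : E → S) (x : E) : S := ((√(V x) : ℝ) : ℂ) • g x

/-- The Birman-Schwinger form of `V` is at most `θ`. -/
def BS (r : E → S →L[ℂ] S) (V : E → ℝ) (θ : ℝ) : Prop :=
  ∀ g : E → S, MemLp g 2 volume → Bf r (sv V g) (sv V g) ≤ θ * JD.I2 g

/-- Measurable nonnegative functions with `L^p` norm at most `N`. -/
structure PotR (p N : ℝ) (V : E → ℝ) : Prop where
  meas : Measurable V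
  nonneg : ∀ x, 0 ≤ V x
  int : Integrable (fun x => V x ^ p) volume
  le : ∫ x, V x ^ p ≤ N ^ p

/-- All potentials of norm at most `A` and height at most `M` are subcritical. -/
def HP (r : E → S →L[ℂ] S) (p A M : ℝ) : Prop :=
  ∀ W : E → ℝ, PotR p A W → (∀ x, W x ≤ M) → BS r W 1

/-- Nonzero solutions of the integral equation. -/
structure Fix (r : E → S →L[ℂ] S) (V : E → ℝ) (ψ : E → S) : Prop where
  l2 : MemLp ψ 2 volume
  intV : Integrable (fun x => V x * ‖ψ x‖ ^ 2) volume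
  ne : ¬ ψ =ᵐ[volume] 0
  eq : ψ =ᵐ[volume] Rop r V ψ

/-- Bounded solutions of the integral equation at every point. -/
structure FixB (r : E → S →L[ℂ] S) (V : E → ℝ) (ψ : E → S) : Prop where
  fix : Fix r V ψ
  meas : StronglyMeasurable ψ
  bdd : ∃ K, ∀ x, ‖ψ x‖ ≤ K
  eq : ∀ x, ψ x = Rop r V ψ x

/-- `lam` is a lower bound for the lowest gap eigenvalue at norm `A`. -/
def Opt (e : Fin d → E) (α : Fin d → S →L[ℂ] S) (β : S →L[ℂ] S) (m p A lam : ℝ) : Prop :=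
  ∀ W : E → ℝ, PotR p A W → ∫ x, W x ^ p = A ^ p → lam ≤ lamD e α β m W

variable (E) in
/-- The volume of the unit ball. -/
noncomputable def om : ℝ := (volume : Measure E).real (Metric.ball 0 1)

variable (E) in
/-- The scalar form is nonnegative on compactly supported Lipschitz functions. -/
def TP (a b p A M : ℝ) : Prop :=
  ∀ W f : E → ℝ, PotR p A W → (∀ x, W x ≤ M) → (∃ L, LipschitzWith L f) → HasCompactSupport f →
    0 ≤ ∫ x, (‖fderiv ℝ f x‖ ^ 2 / (a + W x) - (W x - b) * f x ^ 2)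

/-- `α · ∇ u`. -/
noncomputable def Zf (e : Fin d → E) (α : Fin d → S →L[ℂ] S) (u : E → S) (x : E) : S :=
  ∑ j, α j (fderiv ℝ u x (e j))

/-- `|∇ u|²`. -/
noncomputable def G2 (e : Fin d → E) (u : E → S) (x : E) : ℝ := ∑ j, ‖fderiv ℝ u x (e j)‖ ^ 2

/-- `|∇ |u||`. -/
noncomputable def gf (u : E → S) (x : E) : ℝ := ‖fderiv ℝ (fun y => ‖u y‖) x‖

/-- `(α · ∇ |u|) u / |u|`. -/
noncomputable def Nv (e : Fin d → E) (α : Fin d → S →L[ℂ] S) (u : E → S) (x : E) : S :=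
  ∑ j, ((fderiv ℝ (fun y => ‖u y‖) x (e j) / ‖u x‖ : ℝ) : ℂ) • α j (u x)

/-- The cross term. -/
noncomputable def Pf (e : Fin d → E) (α : Fin d → S →L[ℂ] S) (u : E → S) (x : E) : ℝ :=
  (inner ℂ (Nv e α u x) (Zf e α u x - Nv e α u x)).re

/-- The squared angular part of `α · ∇ u`. -/
noncomputable def nf (e : Fin d → E) (α : Fin d → S →L[ℂ] S) (u : E → S) (x : E) : ℝ :=
  ‖Zf e α u x - Nv e α u x‖ ^ 2

/-- The squared angular part of `∇ u`. -/
noncomputable def qf (e : Fin d → E) (u : E → S) (x : E) : ℝ := G2 e u x - gf u x ^ 2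

/-- `C¹` functions with bounded gradient in `H¹`. -/
structure Reg (e : Fin d → E) (u : E → S) : Prop where
  c1 : ContDiff ℝ 1 u
  lip : ∃ L : ℝ≥0, LipschitzWith L u
  l2 : MemLp u 2 volume
  dl2 : Integrable (G2 e u) volume

/-- The upper spinor of a ground state. -/
structure Strong (e : Fin d → E) (α : Fin d → S →L[ℂ] S) (a b : ℝ) (V : E → ℝ) (u : E → S) :
    Prop where
  reg : Reg e u
  ne : ∃ x, u x ≠ 0
  en : ∫ x, (‖Zf e α u x‖ ^ 2 / (a + V x) - (V x - b) * ‖u x‖ ^ 2) ≤ 0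
  zero : ∀ᵐ x, u x = 0 → Zf e α u x = 0 → V x = 0

/-- The radius of the ball with the volume of a superlevel set. -/
noncomputable def rad (ρ : E → ℝ) (t : ℝ) : ℝ :=
  ((volume : Measure E).real {x | t < ρ x} / om E) ^ ((Module.finrank ℝ E : ℝ)⁻¹)

/-- Functions that can be rearranged. -/
structure Lev (L : ℝ≥0) (ρ : E → ℝ) : Prop where
  lip : LipschitzWith L ρ
  nonneg : ∀ x, 0 ≤ ρ x
  bdd : ∀ t, 0 < t → Bornology.IsBounded {x | t ≤ ρ x}
  c1 : ContDiffOn ℝ 1 ρ {x | 0 < ρ x}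

/-- The radial profile `φ` of the decreasing rearrangement and its slope `y` at each level. -/
structure Rearr (L : ℝ≥0) (ρ : E → ℝ) (φ y : ℝ → ℝ) : Prop where
  anti : Antitone φ
  lip : LipschitzWith L φ
  nonneg : ∀ r, 0 ≤ φ r
  meas : Measurable y
  ynn : ∀ t, 0 ≤ y t ∧ y t ≤ L
  eqm : ∀ F : ℝ → ℝ≥0∞, Measurable F → ∫⁻ x in {x | 0 < ρ x}, F (ρ x) =
    ∫⁻ r in {r | 0 < r ∧ 0 < φ r},
      ENNReal.ofReal (Module.finrank ℝ E * om E * r ^ (Module.finrank ℝ E - 1)) * F (φ r)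
  der : ∀ r, 0 < r → DifferentiableAt ℝ φ r → y (φ r) = -deriv φ r
  iso : ∀ C : ℝ → ℝ≥0∞, Measurable C →
    ∫⁻ x in {x | 0 < ρ x}, C (ρ x) * ENNReal.ofReal (y (ρ x)) ≤
      ∫⁻ x in {x | 0 < ρ x}, C (ρ x) * ENNReal.ofReal ‖fderiv ℝ ρ x‖

end defs

/-- The radial form is nonnegative (`c` is the area of the unit sphere, `k = d - 1`). -/
def TR (k : ℕ) (c a b p A M : ℝ) : Prop :=
  ∀ v φ : ℝ → ℝ, Measurable v → (∀ r, 0 ≤ v r ∧ v r ≤ M) →
    IntegrableOn (fun r => v r ^ p * r ^ k) (Ioi 0) volume →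
    c * ∫ r in Ioi (0 : ℝ), v r ^ p * r ^ k ≤ A ^ p → (∃ L, LipschitzWith L φ) →
    IntegrableOn (fun r => φ r ^ 2 * r ^ k) (Ioi 0) volume →
    IntegrableOn (fun r => deriv φ r ^ 2 * r ^ k) (Ioi 0) volume →
    0 ≤ ∫ r in Ioi (0 : ℝ), (deriv φ r ^ 2 / (a + v r) - (v r - b) * φ r ^ 2) * r ^ k

/-- The minimiser over `[0, M]` of `v ↦ y² / (a + v) - v t² + v ^ p / p`. -/
noncomputable def Vm (p a M y t : ℝ) : ℝ :=
  sSup {v | v ∈ Icc 0 M ∧ v ^ (p - 1) ≤ t ^ 2 + y ^ 2 / (a + v) ^ 2}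

/-- The pointwise defect. -/
noncomputable def Xi (p a M t y V A g P n q : ℝ) : ℝ :=
  (g ^ 2 + 2 * P + n) / (a + V) - V * t ^ 2 + V ^ p / p -
    (y ^ 2 / (a + Vm p a M y t) - Vm p a M y t * t ^ 2 + Vm p a M y t ^ p / p) -
    A * (n - q) - 2 * P / (a + Vm p a M y t) - 2 * y / (a + Vm p a M y t) * (g - y)

/-- The mean of `κ` over `(0, τ)`. -/
noncomputable def avg (κ : ℝ → ℝ) (τ : ℝ) : ℝ := (∫ s in (0 : ℝ)..τ, κ s) / τ

/-- A radial profile that minimises the radial form for its own potential. -/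
structure Prof (k : ℕ) (c a b p A M s : ℝ) (φ : ℝ → ℝ) : Prop where
  i0 : IntegrableOn (fun r => φ r ^ 2 * r ^ k) (Ioi 0) volume
  i1 : IntegrableOn (fun r => deriv φ r ^ 2 * r ^ k) (Ioi 0) volume
  i2 : IntegrableOn (fun r => Vm p a M (s * deriv φ r) (s * φ r) ^ p * r ^ k) (Ioi 0) volume
  nrm : c * ∫ r in Ioi (0 : ℝ), Vm p a M (s * deriv φ r) (s * φ r) ^ p * r ^ k ≤ A ^ p
  en : ∫ r in Ioi (0 : ℝ), (deriv φ r ^ 2 / (a + Vm p a M (s * deriv φ r) (s * φ r)) -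
    (Vm p a M (s * deriv φ r) (s * φ r) - b) * φ r ^ 2) * r ^ k ≤ 0

/-! ### Statements about real numbers and functions of one variable -/

/-- Properties of the minimiser. -/
def StVm : Prop :=
  ∀ p a M : ℝ, 2 ≤ p → 0 < a → 0 < M →
    Continuous (fun z : ℝ × ℝ => Vm p a M z.1 z.2) ∧
    ∀ y t : ℝ, 0 ≤ Vm p a M y t ∧ Vm p a M y t ≤ M ∧
      Vm p a M y t ^ (p - 1) ≤ t ^ 2 + y ^ 2 / (a + Vm p a M y t) ^ 2 ∧
      (Vm p a M y t < M → Vm p a M y t ^ (p - 1) = t ^ 2 + y ^ 2 / (a + Vm p a M y t) ^ 2) ∧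
      Vm p a M y t = min M ((t ^ 2 + y ^ 2 / (a + Vm p a M y t) ^ 2) ^ (p - 1)⁻¹)

/-- The pointwise inequality with its equality case. -/
def StPt : Prop :=
  ∀ p a M D t y V A g P n q : ℝ, 2 ≤ p → 0 < a → 0 < M → 1 ≤ D → 3 * D * M < a → 0 < t → 0 ≤ y →
    0 ≤ V → V ≤ M → 0 ≤ A → A ≤ 1 / a → 0 ≤ g → 0 ≤ n → P ^ 2 ≤ g ^ 2 * n → n ≤ D * q →
    0 ≤ Xi p a M t y V A g P n q ∧
      (Xi p a M t y V A g P n q = 0 → V = Vm p a M y t ∧ g = y)

/-- From continuous weights to bounded measurable weights. -/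
def StMC : Prop :=
  ∀ (X : Type) [MeasurableSpace X] (μ : Measure X) (τ f₁ f₂ : X → ℝ), Measurable τ →
    (∀ᵐ x ∂μ, 0 < τ x) → Integrable f₁ μ → Integrable f₂ μ →
    (∀ κ : ℝ → ℝ, Continuous κ → (∃ ε > 0, ∀ s ≤ ε, κ s = 0) → (∃ K, ∀ s, |κ s| ≤ K) →
      ∫ x, (avg κ (τ x) * f₁ x + κ (τ x) * f₂ x) ∂μ = 0) →
    ∀ κ : ℝ → ℝ, Measurable κ → (∃ K, ∀ s, |κ s| ≤ K) →
      ∫ x, (avg κ (τ x) * f₁ x + κ (τ x) * f₂ x) ∂μ = 0

/-- The radial Euler-Lagrange system. -/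
def StODE : Prop :=
  ∀ (k : ℕ) (c a b p A M s : ℝ) (φ : ℝ → ℝ), 1 ≤ k → 2 ≤ p → 0 < a → 0 < b → 0 < M → 0 < s →
    TR k c a b p A M → Antitone φ → (∃ L, LipschitzWith L φ) → (∀ r, 0 ≤ φ r) →
    Prof k c a b p A M s φ →
    (∀ r, 0 < r → DifferentiableAt ℝ φ r) ∧ ContinuousOn (deriv φ) (Ioi 0) ∧
      (∀ r, 0 < r → 0 < φ r → deriv φ r < 0) ∧
      AntitoneOn (fun r => Vm p a M (s * deriv φ r) (s * φ r)) (Ioi 0)

/-! ### Statements about scalar functions on a Euclidean space -/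

section scalar

variable (E : Type) [NormedAddCommGroup E] [InnerProductSpace ℝ E] [FiniteDimensional ℝ E]
  [MeasurableSpace E] [BorelSpace E]

/-- Brunn-Minkowski for neighbourhoods. -/
def StBM : Prop :=
  ∀ (A : Set E) (R δ : ℝ), IsOpen A → 0 < R → 0 < δ →
    ENNReal.ofReal (om E * R ^ Module.finrank ℝ E) ≤ volume A →
    ENNReal.ofReal (om E * (R + δ) ^ Module.finrank ℝ E) ≤ volume (Metric.thickening δ A)

/-- The isoperimetric inequality, level by level. -/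
def StIso : Prop :=
  ∀ (L : ℝ≥0) (ρ : E → ℝ), Lev L ρ → ∀ C : ℝ → ℝ≥0∞, Measurable C →
    ∫⁻ t in Ioi (0 : ℝ), C t *
        ENNReal.ofReal (Module.finrank ℝ E * om E * rad ρ t ^ (Module.finrank ℝ E - 1)) ≤
      ∫⁻ x in {x | 0 < ρ x}, C (ρ x) * ENNReal.ofReal ‖fderiv ℝ ρ x‖

/-- Existence of the rearrangement. -/
def StRe : Prop := ∀ (L : ℝ≥0) (ρ : E → ℝ), Lev L ρ → ∃ φ y : ℝ → ℝ, Rearr L ρ φ y

/-- A function whose slope is the slope of its rearrangement is radial. -/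
def StGeo : Prop :=
  ∀ (L : ℝ≥0) (ρ : E → ℝ) (φ y : ℝ → ℝ), Lev L ρ → Rearr L ρ φ y → (∃ x, 0 < ρ x) →
    (∀ r, 0 < r → DifferentiableAt ℝ φ r) → ContinuousOn (deriv φ) (Ioi 0) →
    (∀ r, 0 < r → 0 < φ r → deriv φ r < 0) →
    (∀ᵐ x, 0 < ρ x → ‖fderiv ℝ ρ x‖ = y (ρ x)) → ∃ x₀ : E, ∀ x, ρ x = φ ‖x - x₀‖

/-- From the scalar form to the radial form. -/
def StTR : Prop :=
  ∀ a b p A M : ℝ, 0 < a → 0 < p → TP E a b p A M →
    TR (Module.finrank ℝ E - 1) (Module.finrank ℝ E * om E) a b p A M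

/-- The tent function. -/
def StTent : Prop :=
  ∀ a b p A M L v : ℝ, 0 < a → 0 ≤ b → 0 < p → TP E a b p A M → 0 < L → 0 ≤ v → v ≤ M →
    v ^ p * (om E * L ^ Module.finrank ℝ E) ≤ A ^ p →
    v - b ≤ 2 ^ (Module.finrank ℝ E + 2) / (a * L ^ 2)

end scalar

/-! ### Statements about spinors -/

section spinor

variable {E S : Type} [NormedAddCommGroup E] [InnerProductSpace ℝ E] [FiniteDimensional ℝ E]
  [MeasurableSpace E] [BorelSpace E] [NormedAddCommGroup S] [InnerProductSpace ℂ S]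
  [CompleteSpace S] [FiniteDimensional ℂ S] {d : ℕ}
  (e : OrthonormalBasis (Fin d) ℝ E) (α : Fin d → S →L[ℂ] S) (β : S →L[ℂ] S) (m : ℝ)

/-- The null Lagrangian identity. -/
def StNL0 : Prop :=
  ∀ (u : E → S) (η : E → ℝ), ContDiff ℝ 1 u → ContDiff ℝ 1 η → HasCompactSupport η →
    ∫ x, (η x * (‖Zf e α u x‖ ^ 2 - G2 e u x) +
      ((inner ℂ (∑ j, ((fderiv ℝ η x (e j) : ℝ) : ℂ) • α j (u x)) (Zf e α u x)).re -
        ∑ j, fderiv ℝ η x (e j) * (inner ℂ (u x) (fderiv ℝ u x (e j))).re)) = 0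

/-- Pointwise algebra, measurability, and the modulus as a level function. -/
def StAlg : Prop :=
  ∀ u : E → S, Reg e u →
    (Measurable (gf u) ∧ Measurable (Pf e α u) ∧ Measurable (nf e α u) ∧ Measurable (qf e u) ∧
      Continuous (Zf e α u) ∧ Continuous (G2 e u)) ∧
    (∀ x, ‖Zf e α u x‖ ^ 2 ≤ d * G2 e u x) ∧
    (∀ x, u x ≠ 0 → ‖Zf e α u x‖ ^ 2 = gf u x ^ 2 + 2 * Pf e α u x + nf e α u x ∧
      Pf e α u x ^ 2 ≤ gf u x ^ 2 * nf e α u x ∧ nf e α u x ≤ d * qf e u x ∧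
      (∀ j, fderiv ℝ (fun y => ‖u y‖) x (e j) * ‖u x‖ =
        (inner ℂ (u x) (fderiv ℝ u x (e j))).re) ∧
      gf u x ^ 2 = ∑ j, fderiv ℝ (fun y => ‖u y‖) x (e j) ^ 2) ∧
    ∃ L, Lev L fun x => ‖u x‖

/-- The null Lagrangian identity for weights that depend on the level. -/
def StNL : Prop :=
  ∀ u : E → S, Reg e u → ∀ κ : ℝ → ℝ, Measurable κ → (∃ K, ∀ s, |κ s| ≤ K) →
    ∫ x in {x | u x ≠ 0}, (avg κ (‖u x‖ ^ 2) * (nf e α u x - qf e u x) +
      κ (‖u x‖ ^ 2) * (2 * Pf e α u x)) = 0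

/-- The comparison with the rearrangement. -/
def StCmp : Prop :=
  ∀ (a b p A M₀ M : ℝ) (V : E → ℝ) (u : E → S) (L : ℝ≥0) (φ y : ℝ → ℝ), 0 < b → 2 ≤ p →
    0 ≤ M₀ → M₀ < M → 3 * d * M < a → PotR p A V → (∀ x, V x ≤ M₀) → Strong e α a b V u →
    TR (Module.finrank ℝ E - 1) (Module.finrank ℝ E * om E) a b p A M →
    Rearr L (fun x => ‖u x‖) φ y →
    ∃ s : ℝ, 0 < s ∧ Prof (Module.finrank ℝ E - 1) (Module.finrank ℝ E * om E) a b p A M s φ ∧
      (∀ᵐ x, u x ≠ 0 → V x = Vm p a M (s * y ‖u x‖) (s * ‖u x‖) ∧ gf u x = y ‖u x‖) ∧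
      ∀ᵐ x, u x = 0 → V x = 0

/-- Bounds for the resolvent kernel. -/
def StHB : Prop :=
  ∀ q₀ : ℝ, (d : ℝ) < q₀ → ∃ C : ℝ, 0 < C ∧ ∀ l ∈ Ioo (-m) m, ∀ q, q₀ ≤ q → ∀ (N : ℝ) (H : E → ℝ),
    0 ≤ N → PotR q N H →
    Adm H (fun z => ‖rk e α β m l z‖) (C * (m ^ 2 - l ^ 2) ^ (d / (2 * q) - 1) * N)

/-- Bounded data give Hoelder solutions. -/
def StReg1 : Prop :=
  ∀ l ∈ Ioo (-m) m, ∀ (F : E → S) (K : ℝ), StronglyMeasurable F → (∀ x, ‖F x‖ ≤ K) →
    ∃ C, ∀ x y, ‖JK.cv (rk e α β m l) F x - JK.cv (rk e α β m l) F y‖ ≤ C * √‖x - y‖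

/-- Hoelder data give `C¹` solutions. -/
def StReg2 : Prop :=
  ∀ l ∈ Ioo (-m) m, ∀ (F : E → S) (K : ℝ), (∀ x, ‖F x‖ ≤ K) →
    (∀ x y, ‖F x - F y‖ ≤ K * √‖x - y‖) →
    ContDiff ℝ 1 (JK.cv (rk e α β m l) F) ∧
      ∃ L, ∀ x, ‖fderiv ℝ (JK.cv (rk e α β m l) F) x‖ ≤ L

/-- The weak equation and the integral equation are equivalent. -/
def StK : Prop :=
  ∀ l ∈ Ioo (-m) m, ∀ (V : E → ℝ) (θ : ℝ) (ψ : E → S), Measurable V → (∀ x, 0 ≤ V x) →
    Adm V (fun z => ‖rk e α β m l z‖) θ → MemLp ψ 2 volume →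
    Integrable (fun x => V x * ‖ψ x‖ ^ 2) volume →
    ((∀ φ : 𝓢(E, S), ∫ x, inner ℂ (dirac e α β m φ x - ((V x + l : ℝ) : ℂ) • φ x) (ψ x) = 0) ↔
      ψ =ᵐ[volume] Rop (rk e α β m l) V ψ)

/-- The upper spinor of a bounded solution of the nonlinear equation. -/
def StStr : Prop :=
  ∀ l ∈ Ioo (-m) m, ∀ (p M c : ℝ) (V : E → ℝ) (ψ : E → S), 2 ≤ p → 0 < c → Measurable V →
    (∀ x, 0 ≤ V x ∧ V x ≤ M) → FixB (rk e α β m l) V ψ →
    (∀ᵐ x, V x ^ (p - 1) = c * ‖ψ x‖ ^ 2) → ∃ u : E → S, Strong e α (m + l) (m - l) V u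

/-- A lower bound for the resolvent form. -/
def StF1 : Prop :=
  ∀ l ∈ Ioo (-m) m, ∀ (F : E → S) (f : E → ℝ) (χ : S), MemLp F 2 volume →
    (∃ L, LipschitzWith L f) → HasCompactSupport f → β χ = χ →
    2 * (∫ x, (inner ℂ ((f x : ℂ) • χ) (F x)).re) +
        2 / (m + l) * (∫ x, (inner ℂ ((-Complex.I) • cl e α (gradient f x) χ) (F x)).re) -
        (∫ x, ‖fderiv ℝ f x‖ ^ 2) * ‖χ‖ ^ 2 / (m + l) - (m - l) * (∫ x, f x ^ 2) * ‖χ‖ ^ 2 ≤
      Bf (rk e α β m l) F F + JD.I2 (fun x => (2⁻¹ : ℂ) • (F x - β (F x))) / (m + l)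

/-- Upper bounds for the resolvent form. -/
def StF2 : Prop :=
  ∀ F : E → S, MemLp F 2 volume →
    (∀ l ∈ Ioc (-m) 0, Bf (rk e α β m l) F F ≤ Bf (rk e α β m 0) F F) ∧
      Bf (rk e α β m 0) F F ≤ JD.I2 F / m

/-- From the Birman-Schwinger bound to the scalar form. -/
def StP1 : Prop :=
  ∀ l ∈ Ioo (-m) m, ∀ p A M : ℝ, HP (rk e α β m l) p A M → TP E (m + l) (m - l) p A M

/-- No eigenvalue in the lower half of the gap. -/
def StNo : Prop :=
  ∀ l ∈ Ioc (-m) 0, ∀ (V : E → ℝ) (θ θ₁ θ₂ : ℝ), Measurable V → (∀ x, 0 ≤ V x) →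
    Adm V (fun z => ‖rk e α β m l z‖) θ₁ → Adm V (fun z => ‖rk e α β m 0 z‖) θ₂ →
    BS (rk e α β m 0) V θ → θ < 1 → ¬ IsEig e α β m V l

/-- Optimality gives the Birman-Schwinger bound for all competitors. -/
def StP0 : Prop :=
  ∀ p A M θ lam : ℝ, 1 ≤ p → 0 < A → 0 < M → θ < 1 →
    (∀ W : E → ℝ, PotR p A W → (∀ x, W x ≤ M) → BS (rk e α β m 0) W θ) →
    Opt e α β m p A lam → ∀ l ∈ Ico 0 m, l ≤ lam → HP (rk e α β m l) p A M

/-- The lowest eigenvalue is attained. -/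
def StAtt : Prop :=
  ∀ (q N : ℝ) (V : E → ℝ), (d : ℝ) < q → 0 ≤ N → PotR q N V → lamD e α β m V ∈ Ico 0 m →
    BS (rk e α β m (lamD e α β m V)) V 1 → ∃ ψ, Fix (rk e α β m (lamD e α β m V)) V ψ

/-- Solutions are bounded. -/
def StBdd : Prop :=
  ∀ l ∈ Ioo (-m) m, ∀ (q N : ℝ) (V : E → ℝ) (ψ : E → S), (d : ℝ) < q → 0 ≤ N → PotR q N V →
    Fix (rk e α β m l) V ψ → ∃ Ψ, FixB (rk e α β m l) V Ψ

/-- The Euler-Lagrange equation where `V` is positive. -/
def StEL1 : Prop :=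
  ∀ l ∈ Ioo (-m) m, ∀ (p A θ : ℝ) (V : E → ℝ) (ψ : E → S), 1 < p → 0 < A → PotR p A V →
    Adm V (fun z => ‖rk e α β m l z‖) θ → FixB (rk e α β m l) V ψ →
    ((∀ M, HP (rk e α β m l) p A M) ∨
      ∃ M₀ M, M₀ < M ∧ (∀ x, V x ≤ M₀) ∧ HP (rk e α β m l) p A M) →
    ∃ c : ℝ, 0 < c ∧ ∀ᵐ x, V x ^ p = c * (V x * ‖ψ x‖ ^ 2)

/-- The Euler-Lagrange equation where `V` vanishes. -/
def StEL2 : Prop :=
  ∀ l ∈ Ioo (-m) m, ∀ (p A M : ℝ) (V : E → ℝ) (ψ : E → S), 1 < p → 0 < A → 0 < M → PotR p A V →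
    (∀ x, V x ≤ M) → HP (rk e α β m l) p A M → FixB (rk e α β m l) V ψ →
    ∀ᵐ x, V x = 0 → ψ x = 0

/-- The a priori bound for small norms. -/
def StApr : Prop :=
  ∀ p₀ : ℝ, (d : ℝ) < p₀ → ∃ c₀ : ℝ, 0 < c₀ ∧ ∀ p, p₀ ≤ p → ∀ A ∈ Ioc 0 c₀, ∀ l ∈ Ico 0 m,
    ∀ (c : ℝ) (V : E → ℝ) (ψ : E → S), PotR p A V → FixB (rk e α β m l) V ψ → 0 < c →
    (∀ᵐ x, V x ^ p = c * (V x * ‖ψ x‖ ^ 2)) →
    (∀ L v : ℝ, 0 < L → 0 ≤ v → v ^ p * (om E * L ^ d) ≤ A ^ p →
      v - (m - l) ≤ 2 ^ (d + 2) / ((m + l) * L ^ 2)) →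
    ∀ᵐ x, V x ≤ m / (4 * d)

end spinor

end Pool.Agent.MP_e4cac8_mp

end

section

/-! Schur test and elementary calculus for the form `Bf`. -/

open Set MeasureTheory Filter Topology
open scoped ENNReal NNReal SchwartzMap
open Pool.Agent.MP_0b7119_mp.G

namespace Pool.Agent.MP_e4cac8_mp

set_option linter.unusedSectionVars false

variable {E S : Type} [NormedAddCommGroup E] [InnerProductSpace ℝ E] [FiniteDimensional ℝ E]
  [MeasurableSpace E] [BorelSpace E] [NormedAddCommGroup S] [InnerProductSpace ℂ S]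
  [CompleteSpace S] [FiniteDimensional ℂ S] {d : ℕ}

/-- Measurable kernels with the symmetry of a self-adjoint operator. -/
structure Ks (r : E → S →L[ℂ] S) : Prop where
  meas : StronglyMeasurable r
  symm : ∀ z, r (-z) = star (r z)

theorem Ks.norm_neg {r : E → S →L[ℂ] S} (h : Ks r) (z : E) : ‖r (-z)‖ = ‖r z‖ := by
  rw [h.symm, norm_star]

theorem Ks.norm_sub {r : E → S →L[ℂ] S} (h : Ks r) (x y : E) : ‖r (x - y)‖ = ‖r (y - x)‖ := by
  rw [← neg_sub y x, h.norm_neg]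

theorem Ks.mnorm {r : E → S →L[ℂ] S} (h : Ks r) : Measurable fun z => ‖r z‖ :=
  h.meas.norm.measurable

theorem ks_rk {α : Fin d → S →L[ℂ] S} {β : S →L[ℂ] S} (h : IsDiracRep α β) (e : Fin d → E)
    (m l : ℝ) : Ks (rk e α β m l) := ⟨stronglyMeasurable_rk e α β m l, rk_neg h e m l⟩

/-- One half of the Schur test. -/
theorem schur_fst {ρ V φ : E → ℝ} {θ : ℝ} (hρ : Measurable ρ) (hρ0 : ∀ z, 0 ≤ ρ z)
    (hV : Measurable V) (hV0 : ∀ x, 0 ≤ V x) (hA : Adm V ρ θ) (hφ : Integrable φ volume)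
    (hφ0 : ∀ x, 0 ≤ φ x) :
    Integrable (fun p : E × E => φ p.1 * (V p.2 * ρ (p.1 - p.2))) (volume.prod volume) ∧
      ∫ p : E × E, φ p.1 * (V p.2 * ρ (p.1 - p.2)) ∂(volume.prod volume) ≤ θ * ∫ x, φ x := by
  have hm : AEStronglyMeasurable (fun p : E × E => φ p.1 * (V p.2 * ρ (p.1 - p.2)))
      (volume.prod volume) :=
    hφ.1.comp_fst.mul ((hV.comp measurable_snd).mul (hρ.comp measurable_sub)).aestronglyMeasurable
  have hb : ∀ x, ∫ y, φ x * (V y * ρ (x - y)) ≤ θ * φ x := fun x => by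
    rw [integral_const_mul, mul_comm]
    exact mul_le_mul_of_nonneg_right (hA.le x) (hφ0 x)
  have hi : Integrable (fun p : E × E => φ p.1 * (V p.2 * ρ (p.1 - p.2))) (volume.prod volume) := by
    rw [integrable_prod_iff hm]
    refine ⟨Eventually.of_forall fun x => (hA.int x).const_mul (φ x), ?_⟩
    refine Integrable.mono' (hφ.const_mul θ) hm.norm.integral_prod_right'
      (Eventually.of_forall fun x => ?_)
    have e1 : ∀ y, ‖φ x * (V y * ρ (x - y))‖ = φ x * (V y * ρ (x - y)) := fun y =>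
      Real.norm_of_nonneg (mul_nonneg (hφ0 x) (mul_nonneg (hV0 y) (hρ0 _)))
    simp only [e1]
    rw [Real.norm_of_nonneg (integral_nonneg fun y =>
      mul_nonneg (hφ0 x) (mul_nonneg (hV0 y) (hρ0 _)))]
    exact hb x
  refine ⟨hi, ?_⟩
  rw [integral_prod _ hi, ← integral_const_mul]
  exact integral_mono hi.integral_prod_left (hφ.const_mul θ) hb

/-- The other half of the Schur test. -/
theorem schur_snd {ρ V φ : E → ℝ} {θ : ℝ} (hρ : Measurable ρ) (hρ0 : ∀ z, 0 ≤ ρ z)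
    (hρe : ∀ x y, ρ (x - y) = ρ (y - x))
    (hV : Measurable V) (hV0 : ∀ x, 0 ≤ V x) (hA : Adm V ρ θ) (hφ : Integrable φ volume)
    (hφ0 : ∀ x, 0 ≤ φ x) :
    Integrable (fun p : E × E => φ p.2 * (V p.1 * ρ (p.1 - p.2))) (volume.prod volume) ∧
      ∫ p : E × E, φ p.2 * (V p.1 * ρ (p.1 - p.2)) ∂(volume.prod volume) ≤ θ * ∫ x, φ x := by
  obtain ⟨h1, h2⟩ := schur_fst hρ hρ0 hV hV0 hA hφ hφ0
  have e1 : (fun p : E × E => φ p.2 * (V p.1 * ρ (p.1 - p.2))) =
      (fun p : E × E => φ p.1 * (V p.2 * ρ (p.1 - p.2))) ∘ Prod.swap := by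
    ext p
    simp only [Function.comp_apply, Prod.fst_swap, Prod.snd_swap, hρe p.1 p.2]
  rw [e1]
  refine ⟨h1.swap, ?_⟩
  rw [← integral_prod_swap] at h2
  exact h2

/-- The majorant of the integrand of `Bf`. -/
noncomputable def mj (r : E → S →L[ℂ] S) (G H : E → S) (p : E × E) : ℝ :=
  ‖G p.1‖ * (‖r (p.1 - p.2)‖ * ‖H p.2‖)

/-- The integrand of `Bf`. -/
noncomputable def bi (r : E → S →L[ℂ] S) (G H : E → S) (p : E × E) : ℝ :=
  (inner ℂ (G p.1) (r (p.1 - p.2) (H p.2))).re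

theorem Bf_def (r : E → S →L[ℂ] S) (G H : E → S) :
    Bf r G H = ∫ p, bi r G H p ∂(volume.prod volume) := rfl

theorem mj_nonneg (r : E → S →L[ℂ] S) (G H : E → S) (p : E × E) : 0 ≤ mj r G H p := by
  unfold mj; positivity

theorem abs_bi_le (r : E → S →L[ℂ] S) (G H : E → S) (p : E × E) : |bi r G H p| ≤ mj r G H p :=
  (Complex.abs_re_le_norm _).trans ((norm_inner_le_norm _ _).trans
    (mul_le_mul_of_nonneg_left (ContinuousLinearMap.le_opNorm _ _) (norm_nonneg _)))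

theorem mj_mono (r : E → S →L[ℂ] S) {G H G' H' : E → S} (hG : ∀ x, ‖G' x‖ ≤ ‖G x‖)
    (hH : ∀ x, ‖H' x‖ ≤ ‖H x‖) (p : E × E) : mj r G' H' p ≤ mj r G H p := by
  unfold mj
  gcongr
  · exact hG _
  · exact hH _

theorem meas_ap {r : E → S →L[ℂ] S} (hr : StronglyMeasurable r) {H : E → S}
    (hH : AEStronglyMeasurable H volume) :
    AEStronglyMeasurable (fun p : E × E => r (p.1 - p.2) (H p.2)) (volume.prod volume) := by
  have h1 : AEStronglyMeasurable (fun p : E × E => r (p.1 - p.2)) (volume.prod volume) :=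
    (hr.comp_measurable measurable_sub).aestronglyMeasurable
  exact (isBoundedBilinearMap_apply (𝕜 := ℂ)).continuous.comp_aestronglyMeasurable
    (h1.prodMk hH.comp_snd)

theorem meas_bi {r : E → S →L[ℂ] S} (hr : StronglyMeasurable r) {G H : E → S}
    (hG : AEStronglyMeasurable G volume) (hH : AEStronglyMeasurable H volume) :
    AEStronglyMeasurable (bi r G H) (volume.prod volume) :=
  Complex.continuous_re.comp_aestronglyMeasurable (hG.comp_fst.inner (meas_ap hr hH))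

theorem meas_mj {r : E → S →L[ℂ] S} (hr : StronglyMeasurable r) {G H : E → S}
    (hG : AEStronglyMeasurable G volume) (hH : AEStronglyMeasurable H volume) :
    AEStronglyMeasurable (mj r G H) (volume.prod volume) :=
  hG.comp_fst.norm.mul
    ((hr.comp_measurable measurable_sub).aestronglyMeasurable.norm.mul hH.comp_snd.norm)

theorem int_bi {r : E → S →L[ℂ] S} (hr : StronglyMeasurable r) {G H : E → S}
    (hG : AEStronglyMeasurable G volume) (hH : AEStronglyMeasurable H volume)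
    (h : Integrable (mj r G H) (volume.prod volume)) :
    Integrable (bi r G H) (volume.prod volume) :=
  h.mono' (meas_bi hr hG hH) (Eventually.of_forall fun p => abs_bi_le r G H p)

theorem abs_Bf_le {r : E → S →L[ℂ] S} {G H : E → S}
    (h : Integrable (mj r G H) (volume.prod volume)) :
    |Bf r G H| ≤ ∫ p, mj r G H p ∂(volume.prod volume) :=
  norm_integral_le_of_norm_le (f := bi r G H) h (Eventually.of_forall fun p => abs_bi_le r G H p)

theorem norm_sv (V : E → ℝ) (g : E → S) (x : E) : ‖sv V g x‖ = √(V x) * ‖g x‖ := by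
  rw [sv, norm_smul, Complex.norm_real, Real.norm_of_nonneg (Real.sqrt_nonneg _)]

theorem meas_sv {V : E → ℝ} (hV : Measurable V) {g : E → S} (hg : AEStronglyMeasurable g volume) :
    AEStronglyMeasurable (sv V g) volume :=
  (Complex.measurable_ofReal.comp hV.sqrt).aestronglyMeasurable.smul hg

theorem memLp_sv {V : E → ℝ} (hV : Measurable V) {M : ℝ} (hM : ∀ x, V x ≤ M) {g : E → S}
    (hg : MemLp g 2 volume) : MemLp (sv V g) 2 volume :=
  MemLp.of_le_mul (c := √M) hg (meas_sv hV hg.1) (Eventually.of_forall fun x => by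
    rw [norm_sv]
    exact mul_le_mul_of_nonneg_right (Real.sqrt_le_sqrt (hM x)) (norm_nonneg _))

/-- The Schur test with two weights. -/
theorem schur {r : E → S →L[ℂ] S} (hr : Ks r) {V W : E → ℝ} {θ θ' : ℝ} (hV : Measurable V)
    (hV0 : ∀ x, 0 ≤ V x) (hW : Measurable W) (hW0 : ∀ x, 0 ≤ W x)
    (hA : Adm V (fun z => ‖r z‖) θ) (hA' : Adm W (fun z => ‖r z‖) θ') {g f : E → S}
    (hg : MemLp g 2 volume) (hf : MemLp f 2 volume) :
    Integrable (mj r (sv V g) (sv W f)) (volume.prod volume) ∧ ∀ t : ℝ, 0 < t →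
      ∫ p, mj r (sv V g) (sv W f) p ∂(volume.prod volume) ≤
        (t * (θ' * JD.I2 g) + t⁻¹ * (θ * JD.I2 f)) / 2 := by
  obtain ⟨a1, a2⟩ := schur_fst hr.mnorm (fun _ => norm_nonneg _) hW hW0 hA' (JD.int_sq hg)
    fun _ => sq_nonneg _
  obtain ⟨b1, b2⟩ := schur_snd hr.mnorm (fun _ => norm_nonneg _) hr.norm_sub hV hV0 hA
    (JD.int_sq hf) fun _ => sq_nonneg _
  have hb : ∀ t : ℝ, 0 < t → ∀ p : E × E, mj r (sv V g) (sv W f) p ≤
      (t * (‖g p.1‖ ^ 2 * (W p.2 * ‖r (p.1 - p.2)‖)) +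
        t⁻¹ * (‖f p.2‖ ^ 2 * (V p.1 * ‖r (p.1 - p.2)‖))) / 2 := by
    intro t ht p
    unfold mj
    rw [norm_sv, norm_sv]
    obtain ⟨v, hv0, hv⟩ : ∃ v : ℝ, 0 ≤ v ∧ V p.1 = v ^ 2 :=
      ⟨√(V p.1), Real.sqrt_nonneg _, (Real.sq_sqrt (hV0 _)).symm⟩
    obtain ⟨w, hw0, hw⟩ : ∃ w : ℝ, 0 ≤ w ∧ W p.2 = w ^ 2 :=
      ⟨√(W p.2), Real.sqrt_nonneg _, (Real.sq_sqrt (hW0 _)).symm⟩
    rw [hv, hw, Real.sqrt_sq hv0, Real.sqrt_sq hw0]
    have h1 : 0 ≤ t⁻¹ * ‖r (p.1 - p.2)‖ * (t * (‖g p.1‖ * w) - ‖f p.2‖ * v) ^ 2 := by positivity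
    have h2 : t⁻¹ * ‖r (p.1 - p.2)‖ * (t * (‖g p.1‖ * w) - ‖f p.2‖ * v) ^ 2 =
        t * (‖g p.1‖ ^ 2 * (w ^ 2 * ‖r (p.1 - p.2)‖)) +
          t⁻¹ * (‖f p.2‖ ^ 2 * (v ^ 2 * ‖r (p.1 - p.2)‖)) -
          2 * (v * ‖g p.1‖ * (‖r (p.1 - p.2)‖ * (w * ‖f p.2‖))) := by
      field_simp
      ring
    linarith
  have hi : Integrable (mj r (sv V g) (sv W f)) (volume.prod volume) :=
    (((a1.const_mul 1).add (b1.const_mul 1⁻¹)).div_const 2).mono'
      (meas_mj hr.meas (meas_sv hV hg.1) (meas_sv hW hf.1))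
      (Eventually.of_forall fun p => by
        rw [Real.norm_of_nonneg (mj_nonneg _ _ _ _)]
        exact hb 1 one_pos p)
  refine ⟨hi, fun t ht => ?_⟩
  refine (integral_mono hi (((a1.const_mul t).add (b1.const_mul t⁻¹)).div_const 2)
    (hb t ht)).trans ?_
  simp only [Pi.add_apply]
  rw [integral_div, integral_add (a1.const_mul t) (b1.const_mul t⁻¹), integral_const_mul,
    integral_const_mul]
  unfold JD.I2
  gcongr

theorem adm_one {ρ : E → ℝ} (hρ : Integrable ρ volume) : Adm (fun _ => 1) ρ (∫ z, ρ z) :=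
  ⟨fun x => by simpa using hρ.comp_sub_left x, fun x => by
    simp only [one_mul]
    exact (integral_sub_left_eq_self ρ volume x).le⟩

theorem sv_one (g : E → S) : sv (fun _ => 1) g = g := by
  ext x
  simp [sv]

/-- The Schur test in `L²`. -/
theorem schur_l2 {r : E → S →L[ℂ] S} (hr : Ks r) (hi : Integrable r volume) {g f : E → S}
    (hg : MemLp g 2 volume) (hf : MemLp f 2 volume) :
    Integrable (mj r g f) (volume.prod volume) ∧ ∀ t : ℝ, 0 < t →
      ∫ p, mj r g f p ∂(volume.prod volume) ≤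
        (t * ((∫ z, ‖r z‖) * JD.I2 g) + t⁻¹ * ((∫ z, ‖r z‖) * JD.I2 f)) / 2 := by
  have := schur hr measurable_const (fun _ => zero_le_one) measurable_const (fun _ => zero_le_one)
    (adm_one hi.norm) (adm_one hi.norm) hg hf
  rwa [sv_one, sv_one] at this

theorem bs_of_adm {r : E → S →L[ℂ] S} (hr : Ks r) {V : E → ℝ} {θ : ℝ} (hV : Measurable V)
    (hV0 : ∀ x, 0 ≤ V x) (hA : Adm V (fun z => ‖r z‖) θ) : BS r V θ := fun g hg => by
  obtain ⟨h1, h2⟩ := schur hr hV hV0 hV hV0 hA hA hg hg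
  have := (le_abs_self _).trans ((abs_Bf_le h1).trans (h2 1 one_pos))
  linarith

theorem Bf_congr (r : E → S →L[ℂ] S) {G H G' H' : E → S} (hG : G =ᵐ[volume] G')
    (hH : H =ᵐ[volume] H') : Bf r G H = Bf r G' H' := by
  refine integral_congr_ae ?_
  filter_upwards [(Measure.quasiMeasurePreserving_fst (μ := volume) (ν := volume)).ae_eq hG,
    (Measure.quasiMeasurePreserving_snd (μ := volume) (ν := volume)).ae_eq hH] with p h1 h2
  simp only [Function.comp_apply] at h1 h2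
  rw [h1, h2]

theorem Bf_symm {r : E → S →L[ℂ] S} (hr : Ks r) (G H : E → S) : Bf r G H = Bf r H G := by
  unfold Bf
  rw [← integral_prod_swap]
  congr 1
  ext p
  simp only [Prod.fst_swap, Prod.snd_swap]
  rw [← neg_sub p.1 p.2, hr.symm, ContinuousLinearMap.star_eq_adjoint,
    ContinuousLinearMap.adjoint_inner_right, ← inner_conj_symm, Complex.conj_re]

theorem Bf_add_left {r : E → S →L[ℂ] S} {G G' H : E → S}
    (h : Integrable (bi r G H) (volume.prod volume))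
    (h' : Integrable (bi r G' H) (volume.prod volume)) (t : ℝ) :
    Bf r (fun x => G x + (t : ℂ) • G' x) H = Bf r G H + t * Bf r G' H := by
  rw [Bf_def r G, Bf_def r G', ← integral_const_mul, ← integral_add h (h'.const_mul t)]
  unfold Bf
  congr 1
  ext p
  simp [bi]

theorem Bf_add_right {r : E → S →L[ℂ] S} {G H H' : E → S}
    (h : Integrable (bi r G H) (volume.prod volume))
    (h' : Integrable (bi r G H') (volume.prod volume)) (t : ℝ) :
    Bf r G (fun x => H x + (t : ℂ) • H' x) = Bf r G H + t * Bf r G H' := by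
  rw [Bf_def r G H, Bf_def r G H', ← integral_const_mul, ← integral_add h (h'.const_mul t)]
  unfold Bf
  congr 1
  ext p
  simp [bi]

/-- The inner integral exists almost everywhere on the support of `G`. -/
theorem ae_int_ap {r : E → S →L[ℂ] S} (hr : StronglyMeasurable r) {G H : E → S}
    (hH : AEStronglyMeasurable H volume) (h : Integrable (mj r G H) (volume.prod volume)) :
    ∀ᵐ x, G x ≠ 0 → Integrable (fun y => r (x - y) (H y)) volume := by
  filter_upwards [h.prod_right_ae, (meas_ap hr hH).prodMk_left] with x hx hm h0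
  have h1 : 0 < ‖G x‖ := norm_pos_iff.mpr h0
  refine (hx.const_mul ‖G x‖⁻¹).mono' hm (Eventually.of_forall fun y => ?_)
  simp only [mj]
  rw [← mul_assoc, inv_mul_cancel₀ h1.ne', one_mul]
  exact ContinuousLinearMap.le_opNorm _ _

theorem Bf_eq {r : E → S →L[ℂ] S} (hr : StronglyMeasurable r) {G H : E → S}
    (hG : AEStronglyMeasurable G volume) (hH : AEStronglyMeasurable H volume)
    (h : Integrable (mj r G H) (volume.prod volume)) :
    Bf r G H = ∫ x, (inner ℂ (G x) (JK.cv r H x)).re := by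
  rw [Bf_def, integral_prod _ (int_bi hr hG hH h)]
  refine integral_congr_ae ?_
  filter_upwards [ae_int_ap hr hH h] with x hx
  by_cases h0 : G x = 0
  · simp [bi, h0]
  · have h1 := hx h0
    unfold JK.cv
    rw [← integral_inner h1]
    exact integral_re (𝕜 := ℂ) (h1.const_inner (G x))

/-- Dominated convergence for the form. -/
theorem Bf_tendsto {r : E → S →L[ℂ] S} (hr : StronglyMeasurable r) {G H : E → S}
    {Gn Hn : ℕ → E → S} (hG : ∀ n, AEStronglyMeasurable (Gn n) volume)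
    (hH : ∀ n, AEStronglyMeasurable (Hn n) volume) (hGb : ∀ n x, ‖Gn n x‖ ≤ ‖G x‖)
    (hHb : ∀ n x, ‖Hn n x‖ ≤ ‖H x‖) (hGt : ∀ x, Tendsto (fun n => Gn n x) atTop (𝓝 (G x)))
    (hHt : ∀ x, Tendsto (fun n => Hn n x) atTop (𝓝 (H x)))
    (h : Integrable (mj r G H) (volume.prod volume)) :
    Tendsto (fun n => Bf r (Gn n) (Hn n)) atTop (𝓝 (Bf r G H)) := by
  refine tendsto_integral_of_dominated_convergence (mj r G H)
    (fun n => meas_bi hr (hG n) (hH n)) h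
    (fun n => Eventually.of_forall fun p => (abs_bi_le r _ _ p).trans (mj_mono r (hGb n) (hHb n) p))
    (Eventually.of_forall fun p => ?_)
  exact (Complex.continuous_re.tendsto _).comp
    ((hGt p.1).inner (((r (p.1 - p.2)).continuous.tendsto _).comp (hHt p.2)))

theorem Rop_eq_cv (r : E → S →L[ℂ] S) (V : E → ℝ) (ψ : E → S) :
    Rop r V ψ = JK.cv r fun y => (V y : ℂ) • ψ y := by
  ext x
  simp only [Rop, JK.cv, map_smul]

theorem sv_sv {V : E → ℝ} (hV0 : ∀ x, 0 ≤ V x) (ψ : E → S) :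
    sv V (sv V ψ) = fun y => (V y : ℂ) • ψ y := by
  ext x
  rw [sv, sv, smul_smul, ← Complex.ofReal_mul, Real.mul_self_sqrt (hV0 x)]

theorem I2_sv {V : E → ℝ} (hV0 : ∀ x, 0 ≤ V x) (ψ : E → S) :
    JD.I2 (sv V ψ) = ∫ x, V x * ‖ψ x‖ ^ 2 := by
  unfold JD.I2
  congr 1
  ext x
  rw [norm_sv, mul_pow, Real.sq_sqrt (hV0 x)]

theorem memLp_sv_of_int {V : E → ℝ} (hV : Measurable V) (hV0 : ∀ x, 0 ≤ V x) {ψ : E → S}
    (hψ : AEStronglyMeasurable ψ volume) (h : Integrable (fun x => V x * ‖ψ x‖ ^ 2) volume) :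
    MemLp (sv V ψ) 2 volume := by
  rw [memLp_two_iff_integrable_sq_norm (meas_sv hV hψ)]
  refine h.congr (Eventually.of_forall fun x => ?_)
  simp only [norm_sv, mul_pow, Real.sq_sqrt (hV0 x)]

/-- At a fixed point the form equals the weighted norm, which is positive. -/
theorem Fix.form {r : E → S →L[ℂ] S} (hr : Ks r) {V : E → ℝ} {θ : ℝ} (hV : Measurable V)
    (hV0 : ∀ x, 0 ≤ V x) (hA : Adm V (fun z => ‖r z‖) θ) {ψ : E → S} (h : Fix r V ψ) :
    Bf r (sv V (sv V ψ)) (sv V (sv V ψ)) = ∫ x, V x * ‖ψ x‖ ^ 2 ∧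
      0 < ∫ x, V x * ‖ψ x‖ ^ 2 := by
  have hg := memLp_sv_of_int hV hV0 h.l2.1 h.intV
  have hm := meas_sv hV hg.1
  constructor
  · rw [Bf_eq hr.meas hm hm (schur hr hV hV0 hV hV0 hA hA hg hg).1, sv_sv hV0, ← Rop_eq_cv]
    refine integral_congr_ae ?_
    filter_upwards [h.eq] with x hx
    rw [← hx, inner_smul_left, Complex.conj_ofReal, Complex.re_ofReal_mul]
    congr 1
    exact inner_self_eq_norm_sq (𝕜 := ℂ) (ψ x)
  · refine (integral_nonneg fun x => mul_nonneg (hV0 x) (sq_nonneg _)).lt_of_ne fun h0 => h.ne ?_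
    have h1 := (integral_eq_zero_iff_of_nonneg
      (fun x => mul_nonneg (hV0 x) (sq_nonneg _)) h.intV).mp h0.symm
    refine h.eq.trans (Eventually.of_forall fun x => ?_)
    refine integral_eq_zero_of_ae ?_
    filter_upwards [h1] with y hy
    rcases mul_eq_zero.mp hy with h2 | h2
    · simp [h2]
    · simp [norm_eq_zero.mp (pow_eq_zero_iff two_ne_zero |>.mp h2)]

/-- The bound for all truncations gives the bound for the potential. -/
theorem bs_of_trunc {r : E → S →L[ℂ] S} (hr : Ks r) {V : E → ℝ} {θ : ℝ} (hV : Measurable V)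
    (hV0 : ∀ x, 0 ≤ V x) (hA : Adm V (fun z => ‖r z‖) θ) (A : ℕ → Set E)
    (hm : ∀ n, MeasurableSet (A n)) (hc : ∀ x, ∀ᶠ n in atTop, x ∈ A n)
    (h : ∀ n, BS r ((A n).indicator V) 1) : BS r V 1 := fun g hg => by
  have hb : ∀ n x, ‖sv ((A n).indicator V) g x‖ ≤ ‖sv V g x‖ := fun n x => by
    rw [norm_sv, norm_sv]
    exact mul_le_mul_of_nonneg_right
      (Real.sqrt_le_sqrt (indicator_le_self' (fun y _ => hV0 y) x)) (norm_nonneg _)
  have ht : ∀ x, Tendsto (fun n => sv ((A n).indicator V) g x) atTop (𝓝 (sv V g x)) := fun x => by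
    refine tendsto_const_nhds.congr' ?_
    filter_upwards [hc x] with n hn
    simp only [sv, indicator_of_mem hn]
  have hms : ∀ n, AEStronglyMeasurable (sv ((A n).indicator V) g) volume := fun n =>
    meas_sv (hV.indicator (hm n)) hg.1
  exact le_of_tendsto' (Bf_tendsto hr.meas hms hms hb hb ht ht
    (schur hr hV hV0 hV hV0 hA hA hg hg).1) fun n => h n g hg

theorem adm_of_bdd {ρ V : E → ℝ} {M : ℝ} (hV : Measurable V) (hV0 : ∀ x, 0 ≤ V x)
    (hM : ∀ x, V x ≤ M) (hρ : Integrable ρ volume) (hρ0 : ∀ z, 0 ≤ ρ z) :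
    Adm V ρ (M * ∫ z, ρ z) := by
  have hi : ∀ x, Integrable (fun y => V y * ρ (x - y)) volume := fun x =>
    (hρ.comp_sub_left x).bdd_mul (c := M) hV.aestronglyMeasurable
      (Eventually.of_forall fun y => by rw [Real.norm_of_nonneg (hV0 y)]; exact hM y)
  refine ⟨hi, fun x => ?_⟩
  rw [← integral_sub_left_eq_self ρ volume x, ← integral_const_mul]
  exact integral_mono (hi x) ((hρ.comp_sub_left x).const_mul M) fun y =>
    mul_le_mul_of_nonneg_right (hM y) (hρ0 _)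

theorem Q_eq_Bf (V : E → ℝ) (r : E → S →L[ℂ] S) (g f : E → S) :
    JD.Q (fun x => √(V x)) r g f = Bf r (sv V g) (sv V f) := by
  unfold JD.Q Bf
  congr 1
  ext p
  simp only [JD.kr, sv, map_smul, inner_smul_left, inner_smul_right, Complex.conj_ofReal,
    Complex.re_ofReal_mul]
  ring

theorem finrank_eq (e : OrthonormalBasis (Fin d) ℝ E) : Module.finrank ℝ E = d := by
  rw [Module.finrank_eq_card_basis e.toBasis, Fintype.card_fin]

theorem om_pos : 0 < om E :=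
  ENNReal.toReal_pos (Metric.measure_ball_pos volume 0 one_pos).ne' measure_ball_lt_top.ne

end Pool.Agent.MP_e4cac8_mp

end

section

/-! Continuity of the resolvent kernel in the whole gap, and the sharper comparison statements. -/

open Set MeasureTheory Filter Topology
open scoped ENNReal NNReal SchwartzMap
open Pool.Agent.MP_0b7119_mp.G

namespace Pool.Agent.MP_e4cac8_mp

set_option linter.unusedSectionVars false

variable {E S : Type} [NormedAddCommGroup E] [InnerProductSpace ℝ E] [FiniteDimensional ℝ E]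
  [MeasurableSpace E] [BorelSpace E] [NormedAddCommGroup S] [InnerProductSpace ℂ S]
  [CompleteSpace S] [FiniteDimensional ℂ S] {d : ℕ}

/-- The pointwise inequality with its equality case, for given parameters. -/
def PtOK (D p a M : ℝ) : Prop :=
  ∀ t y V A g P n q : ℝ, 0 < t → 0 ≤ y → 0 ≤ V → V ≤ M → 0 ≤ A → A ≤ 1 / a → 0 ≤ g → 0 ≤ n →
    P ^ 2 ≤ g ^ 2 * n → n ≤ D * q → (D - 1) * g ^ 2 * n + P ^ 2 ≤ D * (D - 1) * g ^ 2 * q →
    0 ≤ Xi p a M t y V A g P n q ∧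
      (Xi p a M t y V A g P n q = 0 → V = Vm p a M y t ∧ g = y)

section

variable (e : OrthonormalBasis (Fin d) ℝ E) (α : Fin d → S →L[ℂ] S) (β : S →L[ℂ] S) (m : ℝ)

/-- The sharper bound for the angular part. -/
def StAlg2 : Prop :=
  ∀ u : E → S, Reg e u → ∀ x, u x ≠ 0 →
    ((d : ℝ) - 1) * gf u x ^ 2 * nf e α u x + Pf e α u x ^ 2 ≤
      d * ((d : ℝ) - 1) * gf u x ^ 2 * qf e u x

/-- The comparison with the rearrangement. -/
def StCmp2 : Prop :=
  ∀ (a b p A M₀ M : ℝ) (V : E → ℝ) (u : E → S) (L : ℝ≥0) (φ y : ℝ → ℝ), 0 < a → 0 < b → 2 ≤ p →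
    0 ≤ M₀ → M₀ < M → PtOK d p a M → PotR p A V → (∀ x, V x ≤ M₀) → Strong e α a b V u →
    TR (Module.finrank ℝ E - 1) (Module.finrank ℝ E * om E) a b p A M →
    Rearr L (fun x => ‖u x‖) φ y →
    ∃ s : ℝ, 0 < s ∧ Prof (Module.finrank ℝ E - 1) (Module.finrank ℝ E * om E) a b p A M s φ ∧
      (∀ᵐ x, u x ≠ 0 → V x = Vm p a M (s * y ‖u x‖) (s * ‖u x‖) ∧ gf u x = y ‖u x‖) ∧
      ∀ᵐ x, u x = 0 → V x = 0

/-- The lowest eigenvalue is attained. -/
def StAtt2 : Prop :=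
  ∀ (q N : ℝ) (V : E → ℝ), (d : ℝ) < q → 0 ≤ N → PotR q N V → lamD e α β m V ∈ Ioo (-m) m →
    BS (rk e α β m (lamD e α β m V)) V 1 → ∃ ψ, Fix (rk e α β m (lamD e α β m V)) V ψ

end

theorem rk_cont2 {α : Fin d → S →L[ℂ] S} {β : S →L[ℂ] S} (hn : 2 ≤ Module.finrank ℝ E)
    (h : IsDiracRep α β) (e : OrthonormalBasis (Fin d) ℝ E) {m c : ℝ} (hc : c < m) :
    ∀ l ∈ Icc (-c) c, ∀ η > 0, ∃ δ > 0, ∀ l' ∈ Icc (-c) c, |l' - l| < δ →
      ∫ z, ‖rk e α β m l' z - rk e α β m l z‖ < η := by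
  intro l hl η hη
  have hc0 : 0 ≤ c := by linarith [hl.1, hl.2]
  have hm : 0 < m := by linarith
  set b₀ := m ^ 2 - c ^ 2 with hb₀
  have h₀ : 0 < b₀ := by nlinarith
  have hge : ∀ l ∈ Icc (-c) c, b₀ ≤ m ^ 2 - l ^ 2 := fun l hl => by nlinarith [hl.1, hl.2]
  set F : E → ℝ := fun z => 2 * m * (2 / b₀) * (2 * m * gk (b₀ / 2) z + qk (b₀ / 2) z * ‖z‖) +
    gk (m ^ 2 - l ^ 2) z with hF
  have hFi : Integrable F :=
    ((((integrable_gk (half_pos h₀)).const_mul _).add (integrable_qk (half_pos h₀))).const_mul _).add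
      (integrable_gk (h₀.trans_le (hge l hl)))
  have hF0 : ∀ z, 0 ≤ F z := fun z => by
    have := gk_nonneg (b₀ / 2) z
    have := qk_nonneg (b₀ / 2) z
    have := gk_nonneg (m ^ 2 - l ^ 2) z
    positivity
  have hI : 0 ≤ ∫ z, F z := integral_nonneg hF0
  refine ⟨η / ((∫ z, F z) + 1), by positivity, fun l' hl' hd => ?_⟩
  have key : ∀ᵐ z : E, ‖rk e α β m l' z - rk e α β m l z‖ ≤ |l' - l| * F z := by
    filter_upwards [ae_ne_zero hn] with z hz
    have e1 := gk_sub_le hn h₀ (hge l' hl') (hge l hl) hz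
    have e2 := qk_sub_le' hn h₀ (hge l' hl') (hge l hl) hz
    have e3 : |m ^ 2 - l' ^ 2 - (m ^ 2 - l ^ 2)| ≤ |l' - l| * (2 * m) := by
      rw [show m ^ 2 - l' ^ 2 - (m ^ 2 - l ^ 2) = -((l' - l) * (l' + l)) by ring, abs_neg, abs_mul]
      gcongr
      rw [abs_le]
      constructor <;> linarith [hl.1, hl.2, hl'.1, hl'.2]
    have e4 : rk e α β m l' z - rk e α β m l z =
        ((gk (m ^ 2 - l' ^ 2) z - gk (m ^ 2 - l ^ 2) z : ℝ) : ℂ) •
          ((m : ℂ) • β + (l' : ℂ) • (1 : S →L[ℂ] S)) +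
        ((gk (m ^ 2 - l ^ 2) z * (l' - l) : ℝ) : ℂ) • (1 : S →L[ℂ] S) +
        (Complex.I * ((qk (m ^ 2 - l' ^ 2) z - qk (m ^ 2 - l ^ 2) z : ℝ) : ℂ)) • cl e α z := by
      unfold rk
      push_cast
      module
    have e5 := norm_mass_le h m l'
    rw [abs_of_pos hm] at e5
    have e6 : ‖(m : ℂ) • β + (l' : ℂ) • (1 : S →L[ℂ] S)‖ ≤ 2 * m := by
      have : |l'| ≤ c := abs_le.mpr hl'
      linarith
    have e7 : ‖(1 : S →L[ℂ] S)‖ ≤ 1 := ContinuousLinearMap.norm_id_le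
    have e8 := norm_cl_le h e z
    have g0 := gk_nonneg (b₀ / 2) z
    have q0 := qk_nonneg (b₀ / 2) z
    have g1 := gk_nonneg (m ^ 2 - l ^ 2) z
    rw [e4]
    refine (norm_add₃_le).trans ?_
    rw [norm_smul, norm_smul, norm_smul, norm_mul, Complex.norm_I, one_mul, Complex.norm_real,
      Complex.norm_real, Complex.norm_real, Real.norm_eq_abs, Real.norm_eq_abs, Real.norm_eq_abs,
      abs_mul, abs_of_nonneg g1]
    calc _ ≤ |l' - l| * (2 * m) * (2 / b₀) * gk (b₀ / 2) z * (2 * m) +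
          gk (m ^ 2 - l ^ 2) z * |l' - l| * 1 +
          |l' - l| * (2 * m) * (2 / b₀) * qk (b₀ / 2) z * ‖z‖ := by
          gcongr
          · exact e1.trans (by gcongr)
          · exact e2.trans (by gcongr)
      _ = _ := by simp only [hF]; ring
  calc _ ≤ ∫ z, |l' - l| * F z :=
        integral_mono_of_nonneg (Filter.Eventually.of_forall fun z => norm_nonneg _)
          (hFi.const_mul _) key
    _ = |l' - l| * ∫ z, F z := integral_const_mul _ _
    _ ≤ η / ((∫ z, F z) + 1) * ∫ z, F z := by gcongr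
    _ < η := by
        rw [div_mul_eq_mul_div, div_lt_iff₀ (by positivity)]
        nlinarith

end Pool.Agent.MP_e4cac8_mp

end

section

/-! Solutions of the integral equation are bounded. -/

open Set MeasureTheory Filter Topology
open scoped ENNReal NNReal SchwartzMap
open Pool.Agent.MP_0b7119_mp.G

namespace Pool.Agent.MP_e4cac8_mp

set_option linter.unusedSectionVars false

variable {E S : Type} [NormedAddCommGroup E] [InnerProductSpace ℝ E] [FiniteDimensional ℝ E]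
  [MeasurableSpace E] [BorelSpace E] [NormedAddCommGroup S] [InnerProductSpace ℂ S]
  [CompleteSpace S] [FiniteDimensional ℂ S] {d : ℕ}

namespace Bdd

/-- The part of a function above a high level has a small integral. -/
theorem tail {f : E → ℝ} (hf : Measurable f) (h0 : ∀ x, 0 ≤ f x) {q : ℝ} (hq : 0 < q)
    (hi : Integrable (fun x => f x ^ q) volume) {ε : ℝ} (hε : 0 < ε) :
    ∃ k : ℝ, 0 ≤ k ∧ Integrable (fun x => max (f x - k) 0 ^ q) volume ∧
      ∫ x, max (f x - k) 0 ^ q ≤ ε := by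
  have hm : ∀ n : ℕ, AEStronglyMeasurable (fun x => max (f x - n) 0 ^ q) volume := fun n =>
    (((hf.sub_const _).max measurable_const).pow_const q).aestronglyMeasurable
  have hb : ∀ n : ℕ, ∀ᵐ x, ‖max (f x - n) 0 ^ q‖ ≤ f x ^ q := fun n =>
    Eventually.of_forall fun x => by
      rw [Real.norm_of_nonneg (Real.rpow_nonneg (le_max_right _ _) _)]
      exact Real.rpow_le_rpow (le_max_right _ _)
        (max_le (sub_le_self _ (Nat.cast_nonneg n)) (h0 x)) hq.le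
  have ht := tendsto_integral_of_dominated_convergence (f := fun _ => (0 : ℝ)) _ hm hi hb
    (Eventually.of_forall fun x => tendsto_const_nhds.congr' (by
      filter_upwards [tendsto_natCast_atTop_atTop.eventually_ge_atTop (f x)] with n hn
      rw [max_eq_right (by linarith), Real.zero_rpow hq.ne']))
  rw [integral_zero] at ht
  obtain ⟨n, hn⟩ := (ht.eventually (ge_mem_nhds hε)).exists
  exact ⟨n, Nat.cast_nonneg n, hi.mono' (hm n) (hb n), hn⟩

theorem core {r : E → S →L[ℂ] S} (hr : Ks r) {V : E → ℝ} (hV : Measurable V)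
    (hV0 : ∀ x, 0 ≤ V x) {θ Φ : ℝ} (hA : Adm V (fun z => ‖r z‖) θ) (hΦ : 0 ≤ Φ)
    (hn : Adm V (fun z => max (‖r z‖ - Φ) 0) (1 / 2)) {ψ : E → S} (hψ : Fix r V ψ) :
    ∃ Ψ, FixB r V Ψ := by
  have hψ' : ψ =ᵐ[volume] hψ.l2.1.mk ψ := hψ.l2.1.ae_eq_mk
  obtain ⟨φ, hφ⟩ : ∃ φ, φ = Rop r V (hψ.l2.1.mk ψ) := ⟨_, rfl⟩
  have hφψ : ψ =ᵐ[volume] φ := by rw [hφ, ← Rop_congr r V hψ']; exact hψ.eq
  have hφm : StronglyMeasurable φ := hφ ▸ sm_Rop hr.meas hV hψ.l2.1.stronglyMeasurable_mk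
  have hfix : ∀ x, φ x = Rop r V φ x := fun x => by
    rw [← Rop_congr r V hφψ, Rop_congr r V hψ', hφ]
  have hi1 : Integrable (fun y => V y * ‖φ y‖ ^ 2) volume := hψ.intV.congr (by
    filter_upwards [hφψ] with y hy
    rw [hy])
  have hθ : 0 ≤ θ := (integral_nonneg fun y => mul_nonneg (hV0 y) (norm_nonneg _)).trans (hA.le 0)
  obtain ⟨B, hB⟩ : ∃ B, B = Φ * θ + ∫ y, V y * ‖φ y‖ ^ 2 := ⟨_, rfl⟩
  have hB0 : 0 ≤ B := hB ▸ add_nonneg (mul_nonneg hΦ hθ)
    (integral_nonneg fun y => mul_nonneg (hV0 y) (sq_nonneg _))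
  obtain ⟨a, ha⟩ : ∃ a : E → ℝ, a = fun z => max (‖r z‖ - Φ) 0 := ⟨_, rfl⟩
  rw [← ha] at hn
  have am : Measurable a := ha ▸ (hr.mnorm.sub_const Φ).max measurable_const
  have a0 : ∀ z, 0 ≤ a z := fun z => ha ▸ le_max_right _ _
  have ae : ∀ x y, a (x - y) = a (y - x) := fun x y => by simp only [ha, hr.norm_sub x y]
  obtain ⟨h, hh⟩ : ∃ h : E → ℝ, h = fun y => max (‖φ y‖ - B) 0 := ⟨_, rfl⟩
  have hm : Measurable h := hh ▸ (hφm.norm.measurable.sub_const B).max measurable_const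
  have h0 : ∀ y, 0 ≤ h y := fun y => hh ▸ le_max_right _ _
  have h1 : ∀ y, h y ≤ ‖φ y‖ := fun y => hh ▸ max_le (by linarith) (norm_nonneg _)
  have h2 : ∀ y, ‖φ y‖ ≤ h y + B := fun y => by
    have := le_max_left (‖φ y‖ - B) 0
    simp only [hh]
    linarith
  have j0 : ∀ y, 0 ≤ V y * h y ^ 2 := fun y => mul_nonneg (hV0 y) (sq_nonneg _)
  have hi2 : Integrable (fun y => V y * h y ^ 2) volume :=
    hi1.mono' (hV.mul (hm.pow_const 2)).aestronglyMeasurable (Eventually.of_forall fun y => by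
      rw [Real.norm_of_nonneg (j0 y)]
      exact mul_le_mul_of_nonneg_left (pow_le_pow_left₀ (h0 y) (h1 y) 2) (hV0 y))
  have key : ∀ x, Integrable (fun y => V y * h y * a (x - y)) volume →
      ‖φ x‖ ≤ (∫ y, V y * h y * a (x - y)) + B := fun x hx => by
    rw [hfix x]
    have b1 := hx.add ((hn.int x).mul_const B)
    have b2 := (((hA.int x).const_mul Φ).add hi1).div_const 2
    refine (norm_integral_le_of_norm_le (b1.add b2) (Eventually.of_forall fun y => ?_)).trans ?_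
    · refine (norm_Rop_integrand_le (fun _ => le_rfl) hV0 φ x y).trans ?_
      simp only [Pi.add_apply]
      have c1 := mul_le_mul_of_nonneg_left (h2 y) (mul_nonneg (hV0 y) (a0 (x - y)))
      have c2 : ‖r (x - y)‖ * ‖φ y‖ ≤
          a (x - y) * ‖φ y‖ + (Φ * ‖r (x - y)‖ + ‖φ y‖ ^ 2) / 2 := by
        have n1 := norm_nonneg (r (x - y))
        have n2 := norm_nonneg (φ y)
        simp only [ha]
        rcases le_total (‖r (x - y)‖ - Φ) 0 with c | c
        · rw [max_eq_right c]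
          nlinarith [sq_nonneg (‖r (x - y)‖ - ‖φ y‖)]
        · rw [max_eq_left c]
          nlinarith [sq_nonneg (Φ - ‖φ y‖)]
      have c3 := mul_le_mul_of_nonneg_left c2 (hV0 y)
      linarith
    · rw [integral_add' b1 b2, integral_add' hx ((hn.int x).mul_const B)]
      simp only [Pi.add_apply]
      rw [integral_div, integral_add ((hA.int x).const_mul Φ) hi1, integral_mul_const,
        integral_const_mul]
      have c1 := mul_le_mul_of_nonneg_right (hn.le x) hB0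
      have c2 := mul_le_mul_of_nonneg_left (hA.le x) hΦ
      linarith
  obtain ⟨s1, s2⟩ := schur_fst am a0 hV hV0 hn hi2 j0
  obtain ⟨t1, t2⟩ := schur_snd am a0 ae hV hV0 hn hi2 j0
  have f0 : ∀ x y, 0 ≤ V y * h y * a (x - y) := fun x y =>
    mul_nonneg (mul_nonneg (hV0 y) (h0 y)) (a0 _)
  have fb : ∀ p : E × E, V p.1 * h p.1 * (V p.2 * h p.2 * a (p.1 - p.2)) ≤
      (V p.1 * h p.1 ^ 2 * (V p.2 * a (p.1 - p.2)) +
        V p.2 * h p.2 ^ 2 * (V p.1 * a (p.1 - p.2))) / 2 := fun p => by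
    have := mul_nonneg (mul_nonneg (mul_nonneg (hV0 p.1) (hV0 p.2)) (a0 (p.1 - p.2)))
      (sq_nonneg (h p.1 - h p.2))
    linarith
  have fi : Integrable (fun p : E × E => V p.1 * h p.1 * (V p.2 * h p.2 * a (p.1 - p.2)))
      (volume.prod volume) :=
    ((s1.add t1).div_const 2).mono' (((hV.mul hm).comp measurable_fst).mul
      (((hV.mul hm).comp measurable_snd).mul (am.comp measurable_sub))).aestronglyMeasurable
      (Eventually.of_forall fun p => by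
        rw [Real.norm_of_nonneg (mul_nonneg (mul_nonneg (hV0 _) (h0 _)) (f0 _ _))]
        exact fb p)
  have hI : ∫ x, V x * h x ^ 2 ≤ ∫ p : E × E, V p.1 * h p.1 * (V p.2 * h p.2 * a (p.1 - p.2))
      ∂(volume.prod volume) := by
    rw [integral_prod _ fi]
    refine integral_mono_ae hi2 fi.integral_prod_left ?_
    filter_upwards [fi.prod_right_ae] with x hx
    rw [integral_const_mul, sq, ← mul_assoc]
    rcases (mul_nonneg (hV0 x) (h0 x)).eq_or_lt with c | c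
    · rw [← c, zero_mul, zero_mul]
    · refine mul_le_mul_of_nonneg_left ?_ c.le
      have := key x ((integrable_const_mul_iff (IsUnit.mk0 _ c.ne') _).1 hx)
      rw [hh]
      refine max_le ?_ (integral_nonneg fun y => hh ▸ f0 x y)
      rw [← hh]
      linarith
  have hJ := hI.trans (integral_mono fi ((s1.add t1).div_const 2) fb)
  simp only [Pi.add_apply] at hJ
  rw [integral_div, integral_add s1 t1] at hJ
  have hz : (fun x => V x * h x ^ 2) =ᵐ[volume] 0 := by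
    rw [← integral_eq_zero_iff_of_nonneg j0 hi2]
    have := integral_nonneg (μ := volume) (f := fun x => V x * h x ^ 2) j0
    linarith
  refine ⟨φ, ⟨hψ.l2.ae_eq hφψ, hi1, fun c => hψ.ne (hφψ.trans c), Eventually.of_forall hfix⟩, hφm,
    ⟨B, fun x => ?_⟩, hfix⟩
  have e1 : (fun y => V y * h y * a (x - y)) =ᵐ[volume] 0 := by
    filter_upwards [hz] with y hy
    rcases mul_eq_zero.1 hy with c | c
    · simp [c]
    · simp [pow_eq_zero_iff two_ne_zero |>.1 c]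
  have := key x ((integrable_zero _ _ _).congr e1.symm)
  rw [integral_congr_ae e1] at this
  simpa using this

end Bdd

variable (e : OrthonormalBasis (Fin d) ℝ E) (α : Fin d → S →L[ℂ] S) (β : S →L[ℂ] S) (m : ℝ)

theorem stBdd (hc : Ctx α β m) (hH : StHB e α β m) : StBdd e α β m := by
  intro l hl q N V ψ hq hN hV hψ
  obtain ⟨C, hC, H⟩ := hH q hq
  have q0 : 0 < q := (Nat.cast_nonneg d).trans_lt hq
  have hr := ks_rk hc.rep e m l
  obtain ⟨g, hg⟩ : ∃ g, g = C * (m ^ 2 - l ^ 2) ^ (d / (2 * q) - 1) := ⟨_, rfl⟩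
  have g0 : 0 < g := hg ▸ mul_pos hC (Real.rpow_pos_of_pos (gap_pos hl) _)
  have n0 : 0 < 1 / (4 * g) := by positivity
  obtain ⟨k, k0, k1, k2⟩ := Bdd.tail hV.meas hV.nonneg q0 hV.int (Real.rpow_pos_of_pos n0 q)
  have m2 : Measurable fun x => max (V x - k) 0 := (hV.meas.sub_const k).max measurable_const
  have A2 := H l hl q le_rfl _ _ n0.le ⟨m2, fun x => le_max_right _ _, k1, k2⟩
  obtain ⟨Φ, p0, p1, p2⟩ := Bdd.tail hr.mnorm (fun _ => norm_nonneg _) one_pos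
    (by simpa using (integrable_rk hc.rep e hl).norm) (ε := 1 / (4 * (k + 1))) (by positivity)
  simp only [Real.rpow_one] at p1 p2
  have A1 := adm_of_bdd (hV.meas.min measurable_const) (fun x => le_min (hV.nonneg x) k0)
    (fun x => min_le_right (V x) k) p1 fun z => le_max_right _ _
  have A3 := A1.add_left (A2.of_le m2 (fun x => le_max_right _ _)
    ((hr.mnorm.sub_const Φ).max measurable_const) (fun z => le_max_right _ _)
    fun x => Eventually.of_forall fun y => max_le (sub_le_self _ p0) (norm_nonneg _))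
  have eV : (fun y => min (V y) k + max (V y - k) 0) = V := funext fun y => by
    rcases le_total (V y) k with c | c
    · rw [min_eq_left c, max_eq_right (by linarith), add_zero]
    · rw [min_eq_right c, max_eq_left (by linarith), add_sub_cancel]
  rw [eV, ← hg] at A3
  refine Bdd.core hr hV.meas hV.nonneg (H l hl q le_rfl N V hN hV) p0 (A3.mono ?_) hψ
  have c1 := mul_le_mul_of_nonneg_left p2 k0
  have c2 : k * (1 / (4 * (k + 1))) ≤ 1 / 4 := by
    rw [mul_one_div, div_le_div_iff₀ (by positivity) (by norm_num)]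
    linarith
  have c3 : g * (1 / (4 * g)) = 1 / 4 := by field_simp
  linarith

end Pool.Agent.MP_e4cac8_mp

end
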