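import Mathlib
import Pool.Agent.Mg.Fe4cac8.G23b726
import Pool.Agent.Mg.Fe4cac8.G2fb23e

set_option linter.all false

section

/-! The comparison profile with capped logarithmic slope. -/

open Set MeasureTheory Filter Topology

namespace Pool.Agent.MP_e4cac8_mp.Cap

theorem exN {χ : ℝ → ℝ} (hχ : Continuous χ) (r0 : ℝ) : ∃ n : ℝ → ℝ,
    (∀ r, r ≤ r0 → (∃ s ∈ Icc r r0, n r = χ s) ∧ ∀ s ∈ Icc r r0, n r ≤ χ s) ∧
    ∀ r, r0 ≤ r → (∃ s ∈ Icc r0 r, n r = χ s) ∧ ∀ s ∈ Icc r0 r, χ s ≤ n r := by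
  have h : ∀ r : ℝ, ∃ t : ℝ,
      (r ≤ r0 → (∃ s ∈ Icc r r0, t = χ s) ∧ ∀ s ∈ Icc r r0, t ≤ χ s) ∧
      (r0 ≤ r → (∃ s ∈ Icc r0 r, t = χ s) ∧ ∀ s ∈ Icc r0 r, χ s ≤ t) := by
    intro r
    rcases lt_trichotomy r r0 with h | h | h
    · obtain ⟨s, hs, hm⟩ := isCompact_Icc.exists_isMinOn (nonempty_Icc.2 h.le) hχ.continuousOn
      exact ⟨χ s, fun _ => ⟨⟨s, hs, rfl⟩, fun x hx => hm hx⟩, fun h' => absurd h' (not_le.2 h)⟩
    · subst h
      refine ⟨χ r, fun _ => ⟨⟨r, left_mem_Icc.2 le_rfl, rfl⟩, fun x hx => ?_⟩,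
        fun _ => ⟨⟨r, left_mem_Icc.2 le_rfl, rfl⟩, fun x hx => ?_⟩⟩ <;>
        rw [le_antisymm hx.2 hx.1]
    · obtain ⟨s, hs, hm⟩ := isCompact_Icc.exists_isMaxOn (nonempty_Icc.2 h.le) hχ.continuousOn
      exact ⟨χ s, fun h' => absurd h' (not_le.2 h), fun _ => ⟨⟨s, hs, rfl⟩, fun x hx => hm hx⟩⟩
  choose n hn using h
  exact ⟨n, fun r => (hn r).1, fun r => (hn r).2⟩

section

variable {χ n : ℝ → ℝ} {r0 : ℝ}
  (h1 : ∀ r, r ≤ r0 → (∃ s ∈ Icc r r0, n r = χ s) ∧ ∀ s ∈ Icc r r0, n r ≤ χ s)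
  (h2 : ∀ r, r0 ≤ r → (∃ s ∈ Icc r0 r, n r = χ s) ∧ ∀ s ∈ Icc r0 r, χ s ≤ n r)

include h1 h2

theorem monoN : Monotone n := by
  intro x y hxy
  rcases le_total y r0 with hy | hy
  · obtain ⟨s, hs, e⟩ := (h1 y hy).1
    rw [e]
    exact (h1 x (hxy.trans hy)).2 s ⟨hxy.trans hs.1, hs.2⟩
  · rcases le_total x r0 with hx | hx
    · exact ((h1 x hx).2 r0 ⟨hx, le_rfl⟩).trans ((h2 y hy).2 r0 ⟨le_rfl, hy⟩)
    · obtain ⟨s, hs, e⟩ := (h2 x hx).1
      rw [e]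
      exact (h2 y hy).2 s ⟨hs.1, hs.2.trans hxy⟩

theorem locN (hχ : Continuous χ) {r : ℝ} (hr : r ≠ r0) (hne : n r ≠ χ r) :
    ∀ᶠ x in 𝓝 r, n x = n r := by
  rcases lt_or_gt_of_ne hr with h | h
  · have a1 : n r < χ r := lt_of_le_of_ne ((h1 r h.le).2 r ⟨le_rfl, h.le⟩) hne
    have a2 : ∀ᶠ x in 𝓝 r, n r < χ x ∧ x < r0 :=
      (hχ.continuousAt.eventually (lt_mem_nhds a1)).and (gt_mem_nhds h)
    obtain ⟨l, u, hm, hsub⟩ := mem_nhds_iff_exists_Ioo_subset.1 a2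
    filter_upwards [Ioo_mem_nhds hm.1 hm.2] with x hx
    have hx0 : x ≤ r0 := (hsub hx).2.le
    apply le_antisymm
    · obtain ⟨s, hs, e⟩ := (h1 r h.le).1
      have hsu : u ≤ s := by
        by_contra hc
        have := (hsub ⟨hm.1.trans_le hs.1, not_le.1 hc⟩).1
        exact this.ne e
      rw [e]
      exact (h1 x hx0).2 s ⟨(hx.2.trans_le hsu).le, hs.2⟩
    · obtain ⟨s, hs, e⟩ := (h1 x hx0).1
      rw [e]
      rcases le_total r s with hc | hc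
      · exact (h1 r h.le).2 s ⟨hc, hs.2⟩
      · exact (hsub ⟨hx.1.trans_le hs.1, hc.trans_lt hm.2⟩).1.le
  · have a1 : χ r < n r := lt_of_le_of_ne ((h2 r h.le).2 r ⟨h.le, le_rfl⟩) hne.symm
    have a2 : ∀ᶠ x in 𝓝 r, χ x < n r ∧ r0 < x :=
      (hχ.continuousAt.eventually (gt_mem_nhds a1)).and (lt_mem_nhds h)
    obtain ⟨l, u, hm, hsub⟩ := mem_nhds_iff_exists_Ioo_subset.1 a2
    filter_upwards [Ioo_mem_nhds hm.1 hm.2] with x hx
    have hx0 : r0 ≤ x := (hsub hx).2.le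
    apply le_antisymm
    · obtain ⟨s, hs, e⟩ := (h2 x hx0).1
      rw [e]
      rcases le_total s r with hc | hc
      · exact (h2 r h.le).2 s ⟨hs.1, hc⟩
      · exact (hsub ⟨hm.1.trans_le hc, hs.2.trans_lt hx.2⟩).1.le
    · obtain ⟨s, hs, e⟩ := (h2 r h.le).1
      have hsl : s ≤ l := by
        by_contra hc
        have := (hsub ⟨not_le.1 hc, hs.2.trans_lt hm.2⟩).1
        exact this.ne e.symm
      rw [e]
      exact (h2 x hx0).2 s ⟨hs.1, (hsl.trans_lt hx.1).le⟩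

end

theorem exPsi {φ H : ℝ → ℝ} (hφ : Antitone φ) (cφ : Continuous φ) (h0 : ∀ r, 0 ≤ φ r)
    (hH : Monotone H) (cH : Continuous H) (r0 : ℝ) : ∃ ψ : ℝ → ℝ, Antitone ψ ∧ (∀ r, 0 ≤ ψ r) ∧
      Monotone (fun r => ψ r * Real.exp (H r)) ∧ (∀ r, r ≤ r0 → ψ r ≤ φ r) ∧
      (∀ r, r0 ≤ r → φ r ≤ ψ r) ∧
      (∀ r, r ≠ r0 → ψ r ≠ φ r → ∀ᶠ x in 𝓝 r, ψ x * Real.exp (H x) = ψ r * Real.exp (H r)) ∧
      ∀ r, r0 ≤ r → ∃ s ∈ Icc r0 r, ψ r = φ s * Real.exp (H s - H r) := by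
  have cχ : Continuous fun r => φ r * Real.exp (H r) := cφ.mul cH.rexp
  obtain ⟨n, h1, h2⟩ := exN cχ r0
  have e1 : ∀ r, n r * Real.exp (-H r) * Real.exp (H r) = n r := fun r => by
    rw [mul_assoc, ← Real.exp_add, neg_add_cancel, Real.exp_zero, mul_one]
  have e2 : ∀ r s, φ s * Real.exp (H s) * Real.exp (-H r) = φ s * Real.exp (H s - H r) :=
    fun r s => by rw [mul_assoc, ← Real.exp_add, sub_eq_add_neg]
  have e3 : ∀ r, φ r * Real.exp (H r) * Real.exp (-H r) = φ r := fun r => by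
    rw [e2, sub_self, Real.exp_zero, mul_one]
  have n0 : ∀ r, 0 ≤ n r := fun r => by
    rcases le_total r r0 with h | h
    · obtain ⟨s, -, e⟩ := (h1 r h).1
      rw [e]
      exact mul_nonneg (h0 s) (Real.exp_pos _).le
    · obtain ⟨s, -, e⟩ := (h2 r h).1
      rw [e]
      exact mul_nonneg (h0 s) (Real.exp_pos _).le
  have hl : ∀ r, r ≤ r0 → n r * Real.exp (-H r) ≤ φ r := fun r h => by
    rw [← e3 r]
    exact mul_le_mul_of_nonneg_right ((h1 r h).2 r ⟨le_rfl, h⟩) (Real.exp_pos _).le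
  have hr : ∀ r, r0 ≤ r → φ r ≤ n r * Real.exp (-H r) := fun r h => by
    rw [← e3 r]
    exact mul_le_mul_of_nonneg_right ((h2 r h).2 r ⟨h, le_rfl⟩) (Real.exp_pos _).le
  have ex : ∀ x y, x ≤ y → Real.exp (-H y) ≤ Real.exp (-H x) := fun x y h =>
    Real.exp_le_exp.2 (neg_le_neg (hH h))
  have al : ∀ x y, x ≤ y → y ≤ r0 → n y * Real.exp (-H y) ≤ n x * Real.exp (-H x) := by
    intro x y hxy hy
    obtain ⟨s, hs, e⟩ := (h1 x (hxy.trans hy)).1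
    rcases le_total y s with hc | hc
    · exact mul_le_mul (e ▸ (h1 y hy).2 s ⟨hc, hs.2⟩) (ex x y hxy) (Real.exp_pos _).le (n0 x)
    · rw [e, e2]
      exact ((hl y hy).trans (hφ hc)).trans
        (le_mul_of_one_le_right (h0 s) (Real.one_le_exp (sub_nonneg.2 (hH hs.1))))
  have ar : ∀ x y, x ≤ y → r0 ≤ x → n y * Real.exp (-H y) ≤ n x * Real.exp (-H x) := by
    intro x y hxy hx
    obtain ⟨s, hs, e⟩ := (h2 y (hx.trans hxy)).1
    rcases le_total s x with hc | hc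
    · exact mul_le_mul (e ▸ (h2 x hx).2 s ⟨hs.1, hc⟩) (ex x y hxy) (Real.exp_pos _).le (n0 x)
    · rw [e, e2]
      exact (mul_le_of_le_one_right (h0 s)
        (Real.exp_le_one_iff.2 (sub_nonpos.2 (hH hs.2)))).trans ((hφ hc).trans (hr x hx))
  refine ⟨fun r => n r * Real.exp (-H r), fun x y hxy => ?_,
    fun r => mul_nonneg (n0 r) (Real.exp_pos _).le, ?_, hl, hr, fun r a1 a2 => ?_, fun r h => ?_⟩
  · rcases le_total y r0 with hy | hy
    · exact al x y hxy hy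
    · rcases le_total x r0 with hx | hx
      · exact (ar r0 y hy le_rfl).trans (al x r0 hx le_rfl)
      · exact ar x y hxy hx
  · simp only [e1]
    exact monoN h1 h2
  · simp only [e1]
    refine locN h1 h2 cχ a1 fun e => a2 ?_
    show n r * Real.exp (-H r) = φ r
    rw [e, e3]
  · obtain ⟨s, hs, e⟩ := (h2 r h).1
    exact ⟨s, hs, by rw [← e2, ← e]⟩

theorem exH {ω : ℝ → ℝ} {a K : ℝ} (hm : Measurable ω) (ha : 0 ≤ a) (h1 : ∀ r, a ≤ ω r)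
    (h2 : ∀ r, ω r ≤ K) : ∃ H : ℝ → ℝ, Continuous H ∧ (∀ᵐ r, HasDerivAt H (ω r) r) ∧
      ∀ x y, x ≤ y → a * (y - x) ≤ H y - H x ∧ H y - H x ≤ K * (y - x) := by
  have hl : LocallyIntegrable ω volume :=
    (memLp_top_of_bound hm.aestronglyMeasurable K (Eventually.of_forall fun r => by
      rw [Real.norm_of_nonneg (ha.trans (h1 r))]
      exact h2 r)).locallyIntegrable le_top
  have hi : ∀ x y : ℝ, IntervalIntegrable ω volume x y := fun x y =>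
    intervalIntegrable_iff.mpr ((hl.integrableOn_isCompact isCompact_uIcc).mono_set
      uIoc_subset_uIcc)
  refine ⟨fun r => ∫ t in (0 : ℝ)..r, ω t, intervalIntegral.continuous_primitive hi 0,
    (_root_.LocallyIntegrable.ae_hasDerivAt_integral hl).mono fun r hr => hr 0, fun x y hxy => ?_⟩
  have e := intervalIntegral.integral_interval_sub_left (hi 0 y) (hi 0 x)
  have a1 := intervalIntegral.integral_mono_on hxy (intervalIntegrable_const (c := a)) (hi x y)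
    fun t _ => h1 t
  have a2 := intervalIntegral.integral_mono_on hxy (hi x y) (intervalIntegrable_const (c := K))
    fun t _ => h2 t
  rw [intervalIntegral.integral_const, smul_eq_mul, mul_comm] at a1 a2
  exact ⟨e ▸ a1, e ▸ a2⟩

/-- The pointwise inequality. -/
theorem pt {W U o Λ f g f' g' : ℝ} (hW : 0 < W) (hoΛ : o ≤ Λ) (hf : 0 ≤ f)
    (hf' : f' ≤ 0)
    (h : (g = f ∧ g' = f' ∧ -(o * W * g) ≤ g') ∨ g' = -(o * W * g)) :
    -(o * (2 * f * f' - 2 * g * g')) - (o ^ 2 * W + U) * (f ^ 2 - g ^ 2) ≤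
      2 * min (|f'| / W) (Λ * f) * |f'| - W * min (|f'| / W) (Λ * f) ^ 2 - U * f ^ 2 -
        (g' ^ 2 / W - U * g ^ 2) := by
  rw [abs_of_nonpos hf']
  obtain ⟨t, ht⟩ : ∃ t, t = -f' / W := ⟨_, rfl⟩
  have e : f' = -(t * W) := by
    rw [ht]
    field_simp
  rw [← ht]
  have a0 : o * f ≤ Λ * f := mul_le_mul_of_nonneg_right hoΛ hf
  rcases h with ⟨rfl, rfl, h3⟩ | h
  · have a1 : t ≤ Λ * g := by
      rw [e] at h3
      have : t * W ≤ o * g * W := by linarith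
      exact (le_of_mul_le_mul_right this hW).trans a0
    rw [min_eq_left a1, e]
    have : (-(t * W)) ^ 2 / W = t ^ 2 * W := by field_simp
    rw [this]
    apply le_of_eq
    ring
  · have e2 : g' ^ 2 / W = o ^ 2 * W * g ^ 2 := by
      rw [h]
      field_simp
    rw [e2, h, e]
    rcases le_total t (Λ * f) with c | c
    · rw [min_eq_left c]
      have := mul_nonneg hW.le (sq_nonneg (t - o * f))
      nlinarith
    · rw [min_eq_right c]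
      have := mul_nonneg hW.le (mul_nonneg (sub_nonneg.2 a0)
        (show 0 ≤ 2 * t - Λ * f - o * f by linarith))
      nlinarith

end Pool.Agent.MP_e4cac8_mp.Cap

end

section

/-! Interfaces for the symmetry theorem at large exponents near the bottom of the gap. -/

open Set MeasureTheory Filter Topology
open scoped ENNReal NNReal
open Pool.Agent.MP_0b7119_mp.G

namespace Pool.Agent.MP_e4cac8_mp

/-- The level below which the slope is bounded from below. -/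
noncomputable def tl (p b : ℝ) : ℝ := √((b / 2) ^ (p - 1) / 8)

/-- The numerical data. -/
structure Par where
  D : ℝ
  p : ℝ
  a : ℝ
  b : ℝ
  M : ℝ
  T : ℝ
  Λ : ℝ

namespace Par

variable (P : Par)

/-- The standing assumptions on the data. -/
structure Ok : Prop where
  hD : 2 ≤ P.D
  hp : 400 * P.D ≤ P.p
  ha : 0 < P.a
  hb : 0 < P.b
  aM : P.a + P.M ≤ P.T
  bT : P.b ≤ P.T
  Tb : P.T ≤ 10 * P.b
  TM : P.T ≤ 4 * P.M
  hΛ : 5 ≤ P.Λ
  big : 10 ^ 7 * P.Λ ^ 4 ≤ (1 + 1 / (32 * P.D)) ^ (P.p - 5)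

/-- The admissible scales. -/
def Sc (s : ℝ) : Prop := 0 < s ∧ s ≤ 32 ∧ 1 ≤ 2000 * P.Λ ^ 2 * s ^ 2

/-- The admissible levels. -/
def Lv (t : ℝ) : Prop := 0 ≤ t ∧ t ^ 2 ≤ P.T ^ (P.p - 1)

/-- The square root of the typical size of `a + V` at level `t`. -/
noncomputable def jf (t : ℝ) : ℝ := √P.a + (P.T * t ^ 2) ^ (2 * P.p)⁻¹

/-- The typical slope at level `t`. -/
noncomputable def bt (t : ℝ) : ℝ := √P.T * t * P.jf t

/-- The lower end of the window of slopes. -/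
noncomputable def lo (t : ℝ) : ℝ := if t < tl P.p P.b then 1 / 40 * P.bt t else 0

/-- The window of slopes. -/
def Win (y t : ℝ) : Prop := P.lo t ≤ y ∧ y ≤ P.Λ * P.bt t

/-- The slope moved into the window. -/
noncomputable def yc (y t : ℝ) : ℝ := min (max |y| (P.lo t)) (P.Λ * P.bt t)

/-- The comparison potential. -/
noncomputable def U (s y t : ℝ) : ℝ := Vm P.p P.a P.M (s * y) (s * t)

/-- The comparison lower component. -/
noncomputable def w (s y t : ℝ) : ℝ := s * y / (P.a + P.U s y t)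

/-- The constant term of the tangent line at slope `y`. -/
noncomputable def G (s y t : ℝ) : ℝ :=
  -(P.w s y t ^ 2 * (P.a + P.U s y t)) - (P.U s y t - P.b) * (s * t) ^ 2 + P.U s y t ^ P.p / P.p

/-- The tangent line at slope `y₀` of the reduced Lagrangian, evaluated at slope `y`. -/
noncomputable def L (s y₀ y t : ℝ) : ℝ := 2 * P.w s y₀ t * (s * |y|) + P.G s y₀ t

/-- The inclination of the tangent line at `o` times the typical slope. -/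
noncomputable def f (s o t : ℝ) : ℝ := 2 * s * P.w s (o * P.bt t) t

/-- The windowed Lagrangian of a profile, with the radial weight. -/
noncomputable def Lc (k : ℕ) (s : ℝ) (ψ : ℝ → ℝ) (r : ℝ) : ℝ :=
  P.L s (P.yc (deriv ψ r) (ψ r)) (deriv ψ r) (ψ r) * r ^ k

/-- The two modifications of a profile. -/
structure Mod (k : ℕ) (r₀ : ℝ) (φ φ₁ φ₂ : ℝ → ℝ) : Prop where
  a1 : Antitone φ₁
  l1 : ∃ L, LipschitzWith L φ₁
  n1 : ∀ r, 0 ≤ φ₁ r
  le1 : ∀ r, 0 ≤ r → φ₁ r ≤ φ r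
  eq1 : ∀ r, 0 ≤ r → tl P.p P.b ≤ φ r → φ₁ r = φ r
  d1 : ∀ᵐ r : ℝ, 0 < r → P.lo (φ₁ r) ≤ |deriv φ₁ r| ∧ (φ₁ r = φ r → deriv φ₁ r = deriv φ r) ∧
    (φ₁ r < φ r → |deriv φ₁ r| = 1 / 40 * P.bt (φ₁ r))
  a2 : Antitone φ₂
  l2 : ∃ L, LipschitzWith L φ₂
  n2 : ∀ r, 0 ≤ φ₂ r
  le2 : ∀ r, 0 ≤ r → r ≤ r₀ → φ₂ r ≤ φ₁ r
  ge2 : ∀ r, r₀ ≤ r → φ₁ r ≤ φ₂ r
  d2 : ∀ᵐ r : ℝ, 0 < r → |deriv φ₂ r| ≤ P.Λ * P.bt (φ₂ r) ∧
    (φ₂ r = φ₁ r → deriv φ₂ r = deriv φ₁ r) ∧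
    (φ₂ r < φ₁ r → |deriv φ₂ r| = 1 / 40 * P.bt (φ₂ r)) ∧
    (φ₁ r < φ₂ r → |deriv φ₂ r| = P.Λ * P.bt (φ₂ r))
  rate : ∀ r, r₀ ≤ r → 200 * k ≤ P.Λ * √P.T * P.jf (φ₂ r) * r

end Par

/-- Profiles of finite energy. -/
structure Fin2 (k : ℕ) (ψ : ℝ → ℝ) : Prop where
  i0 : IntegrableOn (fun r => ψ r ^ 2 * r ^ k) (Ioi 0) volume
  i1 : IntegrableOn (fun r => deriv ψ r ^ 2 * r ^ k) (Ioi 0) volume

/-! ### Statements about real numbers and functions of one variable -/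

/-- Monotonicity, scaling, minimality and tangent lines. -/
def StVp : Prop :=
  (∀ p a M : ℝ, 2 ≤ p → 0 < a → 0 < M →
    (∀ y t y' t' : ℝ, |y| ≤ |y'| → |t| ≤ |t'| → Vm p a M y t ≤ Vm p a M y' t') ∧
    (∀ c y t : ℝ, 1 ≤ c → Vm p a M (c * y) (c * t) ≤ c ^ (2 / (p - 1)) * Vm p a M y t) ∧
    ∀ y t v : ℝ, 0 ≤ v → v ≤ M →
      -((y / (a + Vm p a M y t)) ^ 2 * (a + Vm p a M y t)) - Vm p a M y t * t ^ 2 +
          Vm p a M y t ^ p / p ≤
        -((y / (a + Vm p a M y t)) ^ 2 * (a + v)) - v * t ^ 2 + v ^ p / p) ∧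
  ∀ P : Par, P.Ok → ∀ s l h y' y t : ℝ, 0 < s → 0 ≤ l → l ≤ y' → y' ≤ h →
    P.L s y' y t ≤ P.L s (min (max |y| l) h) y t

/-- Continuity, measurability and crude bounds. -/
def StInt : Prop :=
  ∀ P : Par, P.Ok → (Continuous P.jf ∧ Continuous P.bt ∧ (∀ t, 0 < P.jf t) ∧
    (∀ t t', 0 ≤ t' → t' ≤ t → P.jf t' ≤ P.jf t ∧ t' * P.jf t ≤ t * P.jf t') ∧
    (∀ t t', 0 < t' → t' ≤ t → P.jf t ≤ (t / t') ^ P.p⁻¹ * P.jf t') ∧
    (∀ y t, 0 ≤ t → 0 ≤ P.lo t ∧ P.Win (P.yc y t) t ∧ P.Win (1 / 40 * P.bt t) t ∧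
      P.Win (P.Λ * P.bt t) t) ∧ Measurable fun z : ℝ × ℝ => P.yc z.1 z.2) ∧
    ∀ s, 0 < s → (Continuous fun z : ℝ × ℝ => P.U s z.1 z.2) ∧
      (Continuous fun z : ℝ × ℝ => P.w s z.1 z.2) ∧ (∀ o, Continuous (P.f s o)) ∧
      (Continuous fun z : ℝ × ℝ × ℝ => P.L s z.1 z.2.1 z.2.2) ∧
      ∃ K, 0 ≤ K ∧ ∀ y₀ y t, P.Lv t → 0 ≤ y₀ → y₀ ≤ P.Λ * P.bt t →
        y₀ ≤ K * t ∧ 0 ≤ P.w s y₀ t ∧ P.w s y₀ t ≤ K * t ∧ |P.L s y₀ y t| ≤ K * (y ^ 2 + t ^ 2)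

/-- The size of the comparison potential in the window. -/
def StWin : Prop :=
  ∀ P : Par, P.Ok → ∀ s, P.Sc s → ∀ y t, P.Lv t →
    (P.Win y t → P.a + P.U s y t ≤ 3 * P.jf t ^ 2 ∧ P.jf t ^ 2 ≤ 8 * (P.a + P.U s y t) ∧
      (P.U s y t < P.M → s ^ 2 * (P.T * t ^ 2) ≤
        4800 * (P.U s y t ^ (P.p - 1) * (P.a + P.U s y t)))) ∧
    (|y| ≤ P.Λ * P.bt t → P.U s y t ^ P.p ≤ 9 * P.Λ ^ 2 * P.T * (s * t) ^ 2) ∧
    (tl P.p P.b ≤ t → P.T ≤ 40 * P.jf t ^ 2) ∧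
    (t < tl P.p P.b → P.U s (1 / 40 * P.bt t) t ≤ 3 / 4 * P.b) ∧ P.jf t ^ 2 ≤ 4 * P.T

/-- The mean of the weight. -/
def StAv : Prop :=
  ∀ P : Par, P.Ok → ∀ s, P.Sc s → ∀ (y : ℝ → ℝ) (t : ℝ), Measurable y → 0 < t → P.Lv t →
    (∀ σ, 0 ≤ σ → P.Win (y σ) σ) →
    1 / 24 ≤ avg (fun τ => 1 / (P.a + P.U s (y √τ) √τ)) (t ^ 2) * (P.a + P.U s (y t) t) ∧
      avg (fun τ => 1 / (P.a + P.U s (y √τ) √τ)) (t ^ 2) * (P.a + P.U s (y t) t) ≤
        1 + 1 / (8 * P.D)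

/-- The pointwise inequalities. -/
def StPt4 : Prop :=
  ∀ P : Par, P.Ok → ∀ s t y V A g Q n q o ε X : ℝ, P.Sc s → 0 < t → P.Lv t → P.Win y t → 0 ≤ V →
    V < P.M → 1 / 24 ≤ A * (P.a + P.U s y t) → A * (P.a + P.U s y t) ≤ 1 + 1 / (8 * P.D) →
    0 ≤ g → 0 ≤ n → Q ^ 2 ≤ g ^ 2 * n → n ≤ P.D * q →
    (P.D - 1) * g ^ 2 * n + Q ^ 2 ≤ P.D * (P.D - 1) * g ^ 2 * q →
    V ^ (P.p - 1) = t ^ 2 + o ^ 2 → g ^ 2 + 2 * Q + n = ((P.a + V) * o) ^ 2 → 0 < ε →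
    256 * P.Λ ^ 2 * ε ^ 2 ≤ 1 → 10 ^ 7 * P.Λ ^ 2 ≤ ε ^ 2 * (1 + 1 / (2 * P.D)) ^ (P.p - 4) →
    X = Xc P.p P.a (s * t) V (P.U s y t) (P.w s y t) A (s * g) (s ^ 2 * Q) (s ^ 2 * n)
      (s ^ 2 * q) →
    (P.T * t ^ 2 ≤ 1 / (128 * P.Λ ^ 2) * ((P.a + V) * (t ^ 2 + o ^ 2)) →
      s ^ 2 / (1256 * P.D) * ((q + g ^ 2) / (P.a + V)) - 3 * P.D * ε * s ^ 2 *
        (min √((P.a + V) * (t ^ 2 + o ^ 2) / (P.T * t ^ 2)) ((P.T / P.a) ^ 2 / ε) * q /
          (P.a + V)) ≤ X) ∧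
    (¬ P.T * t ^ 2 ≤ 1 / (128 * P.Λ ^ 2) / 2 * ((P.a + V) * (t ^ 2 + o ^ 2)) → 0 ≤ X ∧
      (P.T * t ^ 2 ≤ 1 / (128 * P.Λ ^ 2) * ((P.a + V) * (t ^ 2 + o ^ 2)) →
        s ^ 2 / (1256 * P.D) * ((q + g ^ 2) / (P.a + V)) ≤ X) ∧
      (X = 0 → V = P.U s y t ∧ g = y))

/-- The constant terms along the small slope. -/
def StG1 : Prop :=
  ∀ P : Par, P.Ok → ∀ s, P.Sc s → ∀ t t' : ℝ, 0 ≤ t' → t' ≤ t → P.Lv t →
    (t < tl P.p P.b → s ^ 2 * P.T / 80 * (t ^ 2 - t' ^ 2) ≤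
      P.G s (1 / 40 * P.bt t) t - P.G s (1 / 40 * P.bt t') t') ∧
    ∀ ρ, 320 * P.T ≤ ρ → s ^ 2 * P.T / 80 * (t ^ 2 - t' ^ 2) ≤
      ρ * (∫ σ in t'..t, P.f s (1 / 40) σ) +
        (P.G s (1 / 40 * P.bt t) t - P.G s (1 / 40 * P.bt t') t')

/-- The constant terms along the large slope. -/
def StG2 : Prop :=
  ∀ P : Par, P.Ok → ∀ s, P.Sc s → ∀ t t' ρ : ℝ, 0 ≤ t' → t' ≤ t → P.Lv t → 0 ≤ ρ →
    200 * ρ ≤ P.Λ * √P.T * P.jf t →
    s ^ 2 * P.T / 80 * (t ^ 2 - t' ^ 2) + ρ * ∫ σ in t'..t, P.f s P.Λ σ ≤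
      P.G s (P.Λ * P.bt t') t' - P.G s (P.Λ * P.bt t) t

/-- Integration by parts on an interval. -/
def StOS : Prop :=
  ∀ (k : ℕ) (x y : ℝ) (f ψ χ Q : ℝ → ℝ), 1 ≤ k → 0 ≤ x → x ≤ y → Continuous f →
    (∃ L, LipschitzWith L ψ) → (∃ L, LipschitzWith L χ) → IntervalIntegrable Q volume x y →
    (∀ᵐ r : ℝ, r ∈ Ioo x y → -((f (ψ r) * deriv ψ r - f (χ r) * deriv χ r) * r ^ k +
      (∫ σ in χ r..ψ r, f σ) * (k * r ^ (k - 1))) ≤ Q r) →
    (∫ σ in χ x..ψ x, f σ) * x ^ k - (∫ σ in χ y..ψ y, f σ) * y ^ k ≤ ∫ r in x..y, Q r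

/-- The modifications for exponential rates. -/
def StFlow : Prop :=
  ∀ (g : ℝ → ℝ) (κ κ' r₀ r₁ : ℝ), Antitone g → (∃ L, LipschitzWith L g) → (∀ r, 0 ≤ g r) →
    (∀ r, r ≤ 0 → g r = g 0) → 0 < κ → κ ≤ κ' → 0 < r₀ → r₀ ≤ r₁ → ∃ g₁ g₂ : ℝ → ℝ,
    (Antitone g₁ ∧ (∃ L, LipschitzWith L g₁) ∧ (∀ r, 0 ≤ g₁ r ∧ g₁ r ≤ g r) ∧
      (∀ r, r ≤ r₁ → g₁ r = g r) ∧
      ∀ r, r₁ < r → DifferentiableAt ℝ g₁ r → deriv g₁ r ≤ -(κ * g₁ r) ∧
        (g₁ r < g r → deriv g₁ r = -(κ * g₁ r))) ∧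
    Antitone g₂ ∧ (∃ L, LipschitzWith L g₂) ∧ (∀ r, 0 ≤ g₂ r ∧ g₂ r ≤ g 0) ∧
      (∀ r, r ≤ r₀ → g₂ r ≤ g₁ r) ∧
      (∀ r, r₀ ≤ r → g₁ r ≤ g₂ r ∧ g r₀ * Real.exp (-(κ' * (r - r₀))) ≤ g₂ r) ∧
      ∀ r, r ≠ r₀ → DifferentiableAt ℝ g₂ r → -(κ' * g₂ r) ≤ deriv g₂ r ∧
        (g₂ r < g₁ r → deriv g₂ r = -(κ * g₂ r)) ∧ (g₁ r < g₂ r → deriv g₂ r = -(κ' * g₂ r))

/-- Existence of the modifications. -/
def StMod : Prop :=
  ∀ P : Par, P.Ok → ∀ (k : ℕ) (r₀ : ℝ) (φ : ℝ → ℝ), (k : ℝ) ≤ P.D → 0 < r₀ →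
    2600 * k ≤ P.Λ * P.T * r₀ → Antitone φ → (∃ L, LipschitzWith L φ) → (∀ r, 0 ≤ φ r) →
    tl P.p P.b ≤ φ r₀ → P.T ≤ 40 * P.jf (φ r₀) ^ 2 → (∃ R, φ R < tl P.p P.b) →
    ∃ φ₁ φ₂, P.Mod k r₀ φ φ₁ φ₂

/-- The modifications have finite energy and comparable mass. -/
def StL2 : Prop :=
  ∀ P : Par, P.Ok → ∀ (k : ℕ) (r₀ : ℝ) (φ φ₁ φ₂ : ℝ → ℝ), 1 ≤ k → 0 < r₀ → Antitone φ →
    P.Lv (φ 0) → Fin2 k φ → P.Mod k r₀ φ φ₁ φ₂ → Fin2 k φ₁ ∧ Fin2 k φ₂ ∧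
      ∫ r in Ioi (0 : ℝ), φ₂ r ^ 2 * r ^ k ≤ 2 * ∫ r in Ioi (0 : ℝ), φ r ^ 2 * r ^ k

/-- The first modification lowers the windowed Lagrangian. -/
def StRad1 : Prop :=
  ∀ P : Par, P.Ok → ∀ s, P.Sc s → ∀ (k : ℕ) (r₀ : ℝ) (φ φ₁ φ₂ : ℝ → ℝ), 1 ≤ k → Antitone φ →
    (∃ L, LipschitzWith L φ) → P.Lv (φ 0) → Fin2 k φ → Fin2 k φ₁ → P.Mod k r₀ φ φ₁ φ₂ →
    ∫ r in Ioi (0 : ℝ), P.Lc k s φ₁ r ≤ ∫ r in Ioi (0 : ℝ), P.Lc k s φ r ∧
      (∫ r in Ioi (0 : ℝ), P.Lc k s φ r ≤ ∫ r in Ioi (0 : ℝ), P.Lc k s φ₁ r →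
        ∀ r, 0 < r → φ₁ r = φ r)

/-- The second modification lowers the windowed Lagrangian. -/
def StRad2 : Prop :=
  ∀ P : Par, P.Ok → ∀ s, P.Sc s → ∀ (k : ℕ) (r₀ : ℝ) (φ φ₁ φ₂ : ℝ → ℝ), 1 ≤ k → 0 < r₀ →
    320 * P.T * r₀ ≤ 1 → P.Lv (φ₁ 0) → Fin2 k φ₁ → Fin2 k φ₂ → P.Mod k r₀ φ φ₁ φ₂ →
    ∫ r in Ioi (0 : ℝ), P.L s |deriv φ₂ r| (deriv φ₂ r) (φ₂ r) * r ^ k ≤
        ∫ r in Ioi (0 : ℝ), P.Lc k s φ₁ r ∧
      (∫ r in Ioi (0 : ℝ), P.Lc k s φ₁ r ≤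
        ∫ r in Ioi (0 : ℝ), P.L s |deriv φ₂ r| (deriv φ₂ r) (φ₂ r) * r ^ k →
        ∀ r, 0 < r → φ₂ r = φ₁ r)

/-- The choice of the scale. -/
def StSc : Prop :=
  ∀ P : Par, P.Ok → ∀ (k : ℕ) (c I J : ℝ) (φ ψ : ℝ → ℝ) (B : Set ℝ), 0 < c → 0 < I →
    3 / 8 * I ≤ J → J ≤ I → Measurable φ → Measurable ψ → (∀ r, 0 < r → P.Lv (ψ r)) →
    (∀ᵐ r : ℝ, 0 < r → |deriv ψ r| ≤ P.Λ * P.bt (ψ r)) → Fin2 k ψ →
    P.T * (c * ∫ r in Ioi (0 : ℝ), ψ r ^ 2 * r ^ k) ≤ 20 * I → MeasurableSet B → B ⊆ Ioi 0 →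
    (∀ r ∈ B, 0 ≤ φ r ∧ φ r ≤ ψ r ∧ φ r ^ 2 ≤ (P.M / 2) ^ (P.p - 1)) →
    I / 128 ≤ c * ∫ r in B, (φ r ^ 2) ^ (P.p / (P.p - 1)) * r ^ k →
    ∃ s, P.Sc s ∧ c * ∫ r in Ioi (0 : ℝ), P.U s (deriv ψ r) (ψ r) ^ P.p * r ^ k = J

/-- The radial comparison. -/
def StRad4 : Prop :=
  ∀ P : Par, P.Ok → ∀ (k : ℕ) (c A I J r₀ : ℝ) (φ : ℝ → ℝ), 1 ≤ k → (k : ℝ) ≤ P.D → 0 < c →
    0 < I → 3 / 8 * I ≤ J → J ≤ I → J ≤ A ^ P.p → 0 < r₀ → 320 * P.T * r₀ ≤ 1 →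
    2600 * k ≤ P.Λ * P.T * r₀ → TR k c P.a P.b P.p A P.M → Antitone φ →
    (∃ L, LipschitzWith L φ) → (∀ r, 0 ≤ φ r) → Fin2 k φ → φ 0 ^ 2 ≤ (P.M / 2) ^ (P.p - 1) →
    P.b * (c * ∫ r in Ioi (0 : ℝ), φ r ^ 2 * r ^ k) ≤ I → tl P.p P.b ≤ φ r₀ →
    I / 128 ≤ c * ∫ r in {r | r₀ < r ∧ tl P.p P.b ≤ φ r},
      (φ r ^ 2) ^ (P.p / (P.p - 1)) * r ^ k →
    ∃ s, P.Sc s ∧ J / P.p ≤ c * ∫ r in Ioi (0 : ℝ), P.Lc k s φ r ∧
      (c * ∫ r in Ioi (0 : ℝ), P.Lc k s φ r ≤ J / P.p → Prof k c P.a P.b P.p A P.M s φ ∧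
        ∀ᵐ r : ℝ, 0 < r → P.yc (deriv φ r) (φ r) = |deriv φ r|)

/-- The mass of the rearranged profile. -/
def StMass2 (E : Type) [NormedAddCommGroup E] [InnerProductSpace ℝ E] [FiniteDimensional ℝ E]
    [MeasurableSpace E] [BorelSpace E] : Prop :=
  ∀ (p b M₀ I r₀ : ℝ) (L : ℝ≥0) (ρ : E → ℝ) (φ y : ℝ → ℝ), 1 ≤ Module.finrank ℝ E → 2 ≤ p →
    0 < b → 0 ≤ M₀ → 0 < I → 0 < r₀ → Continuous ρ → (∀ x, 0 ≤ ρ x ∧ ρ x ^ 2 ≤ M₀ ^ (p - 1)) →
    Integrable (fun x => ρ x ^ 2) volume → Rearr L ρ φ y →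
    I / 64 ≤ ∫ x in {x | tl p b ≤ ρ x}, (ρ x ^ 2) ^ (p / (p - 1)) →
    om E * r₀ ^ Module.finrank ℝ E * M₀ ^ p ≤ I / 128 →
    φ 0 ^ 2 ≤ M₀ ^ (p - 1) ∧ tl p b ≤ φ r₀ ∧
      I / 128 ≤ Module.finrank ℝ E * om E * ∫ r in {r | r₀ < r ∧ tl p b ≤ φ r},
        (φ r ^ 2) ^ (p / (p - 1)) * r ^ (Module.finrank ℝ E - 1)

section spinor

variable {E S : Type} [NormedAddCommGroup E] [InnerProductSpace ℝ E] [FiniteDimensional ℝ E]
  [MeasurableSpace E] [BorelSpace E] [NormedAddCommGroup S] [InnerProductSpace ℂ S]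
  [CompleteSpace S] [FiniteDimensional ℂ S] {d : ℕ}

/-- The regularised weighted share of the upper spinor. -/
noncomputable def z4 (p a T σ : ℝ) (u w : E → S) (x : E) : ℝ :=
  (T * ‖u x‖ ^ 2 + σ) /
    (a * (‖u x‖ ^ 2 + ‖w x‖ ^ 2) + (‖u x‖ ^ 2 + ‖w x‖ ^ 2) ^ (p / (p - 1)) + σ)

/-- The set where the weighted share of the upper spinor is small but not zero. -/
def Low4 (a T c : ℝ) (V : E → ℝ) (u w : E → S) : Set E :=
  {x | 0 < ‖u x‖ ∧ T * ‖u x‖ ^ 2 ≤ c * ((a + V x) * (‖u x‖ ^ 2 + ‖w x‖ ^ 2))}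

variable (e : OrthonormalBasis (Fin d) ℝ E) (α : Fin d → S →L[ℂ] S)

/-- The mass of the upper spinor. -/
def StMass1 : Prop :=
  ∀ (a b p A M₀ : ℝ) (V : E → ℝ) (u w : E → S), 0 < a → 0 < b → 4 ≤ p → PotR p A V →
    (∀ x, V x ≤ M₀) → Strong e α a b V u → Pair e α a b p V u w →
    3 / 8 * ∫ x, V x ^ p ≤ ∫ x in {x | 0 < ‖u x‖}, V x ^ p ∧
      b * ∫ x, ‖u x‖ ^ 2 ≤ ∫ x, V x ^ p ∧ (∀ x, ‖u x‖ ^ 2 ≤ M₀ ^ (p - 1)) ∧
      (∫ x, V x ^ p) / 64 ≤ ∫ x in {x | tl p b ≤ ‖u x‖}, (‖u x‖ ^ 2) ^ (p / (p - 1))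

/-- Weighted Caccioppoli inequality for the lower spinor. -/
def StNBw4 : Prop :=
  ∃ C : ℝ, 1 ≤ C ∧ ∀ (a b p T c σ : ℝ) (V : E → ℝ) (u w : E → S), 2 ≤ p → 0 < a → 0 ≤ b → b ≤ T →
    Measurable V → (∀ x, 0 ≤ V x ∧ a + V x ≤ T) → Pair e α a b p V u w → 0 < c → 2 * c ≤ 1 →
    0 < σ → ∫ x, max (1 - z4 p a T σ u w x / c) 0 ^ 2 * G2 e w x ≤
      C * (T / c) * ∫ x in Low4 a T c V u w, G2 e u x / (a + V x)

/-- The weighted angular energy where the share of the upper spinor is small. -/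
def StNB4 : Prop :=
  ∃ C : ℝ, 1 ≤ C ∧ ∀ (a b p T c K : ℝ) (V : E → ℝ) (u w : E → S), 2 ≤ p → 0 < a → 0 ≤ b → b ≤ T →
    Measurable V → (∀ x, 0 ≤ V x ∧ a + V x ≤ T) → Pair e α a b p V u w → 0 < c → 2 * c ≤ 1 →
    0 ≤ K → ∫ x in Low4 a T (c / 2) V u w,
      min √((a + V x) * (‖u x‖ ^ 2 + ‖w x‖ ^ 2) / (T * ‖u x‖ ^ 2)) K * qf e u x / (a + V x) ≤
      C / c * ∫ x in Low4 a T c V u w, G2 e u x / (a + V x)

/-- The comparison with the rearrangement near the bottom of the gap. -/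
def StCmp4 : Prop :=
  ∃ C : ℝ, 0 < C ∧ ∀ (P : Par) (A M₀ r₀ : ℝ) (V : E → ℝ) (u w : E → S) (L : ℝ≥0) (φ y : ℝ → ℝ),
    P.Ok → P.D = d → C * P.Λ ^ 6 ≤ (1 + 1 / (32 * P.D)) ^ (P.p - 5) → 0 ≤ M₀ → 2 * M₀ ≤ P.M →
    0 < r₀ → 320 * P.T * r₀ ≤ 1 → 2600 * d ≤ P.Λ * P.T * r₀ →
    om E * r₀ ^ d * M₀ ^ P.p ≤ (∫ x, V x ^ P.p) / 128 →
    PotR P.p A V → (∀ x, V x ≤ M₀) → Strong e α P.a P.b V u → Pair e α P.a P.b P.p V u w →
    TR (Module.finrank ℝ E - 1) (Module.finrank ℝ E * om E) P.a P.b P.p A P.M →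
    Rearr L (fun x => ‖u x‖) φ y →
    ∃ s : ℝ, 0 < s ∧
      Prof (Module.finrank ℝ E - 1) (Module.finrank ℝ E * om E) P.a P.b P.p A P.M s φ ∧
      (∀ᵐ x, u x ≠ 0 → V x = Vm P.p P.a P.M (s * y ‖u x‖) (s * ‖u x‖) ∧ gf u x = y ‖u x‖) ∧
      ∀ᵐ x, u x = 0 → V x = 0

end spinor

end Pool.Agent.MP_e4cac8_mp

end

section

/-! The modifications of a profile for exponential rates. -/

open Set Filter Topology

namespace Pool.Agent.MP_e4cac8_mp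

namespace Flow4

theorem glue {R : ℝ → ℝ → Prop} (c : ℝ) (tr : ∀ x y z, R x y → R y z → R x z)
    (h1 : ∀ x y, x ≤ y → y ≤ c → R x y) (h2 : ∀ x y, x ≤ y → c ≤ x → R x y) :
    ∀ x y, x ≤ y → R x y := by
  intro x y hxy
  rcases le_total y c with hy | hy
  · exact h1 x y hxy hy
  · rcases le_total x c with hx | hx
    · exact tr _ _ _ (h1 x c hx le_rfl) (h2 c y hy le_rfl)
    · exact h2 x y hxy hx

theorem lip {f : ℝ → ℝ} {C : ℝ} (h : ∀ x y, x ≤ y → f y ≤ f x ∧ f x - f y ≤ C * (y - x)) :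
    ∃ L, LipschitzWith L f := by
  refine ⟨_, LipschitzWith.of_dist_le' (K := C) fun x y => ?_⟩
  rw [Real.dist_eq, Real.dist_eq]
  rcases le_total x y with hxy | hxy
  · obtain ⟨a, b⟩ := h x y hxy
    rw [abs_of_nonneg (by linarith), abs_of_nonpos (by linarith)]
    linarith
  · obtain ⟨a, b⟩ := h y x hxy
    rw [abs_of_nonpos (by linarith), abs_of_nonneg (by linarith)]
    linarith

theorem drop {a G t : ℝ} (ha : 0 ≤ a) (haG : a ≤ G) (ht : 0 ≤ t) :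
    a - G * t ≤ a * Real.exp (-t) := by
  have h := mul_le_mul_of_nonneg_left (Real.add_one_le_exp (-t)) ha
  have := mul_le_mul_of_nonneg_right haG ht
  linarith

theorem dmul {f H : ℝ → ℝ} {r w : ℝ} (hf : DifferentiableAt ℝ f r) (hH : HasDerivAt H w r) :
    HasDerivAt (fun x => f x * Real.exp (H x)) ((deriv f r + w * f r) * Real.exp (H r)) r := by
  refine (hf.hasDerivAt.mul hH.exp).congr_deriv ?_
  ring

theorem dconst {F : ℝ → ℝ} {r w : ℝ} (hF : HasDerivAt F w r) (h : ∀ᶠ x in 𝓝 r, F x = F r) :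
    w = 0 :=
  hF.unique ((hasDerivAt_const r (F r)).congr_of_eventuallyEq h)

theorem first (g : ℝ → ℝ) (κ r₁ : ℝ) (ha : Antitone g) (hL : ∃ L, LipschitzWith L g)
    (h0 : ∀ r, 0 ≤ g r) (hG : ∀ r, g r ≤ g 0) (hκ : 0 < κ) : ∃ g₁ : ℝ → ℝ,
    Antitone g₁ ∧ (∃ L, LipschitzWith L g₁) ∧ (∀ r, 0 ≤ g₁ r ∧ g₁ r ≤ g r) ∧
      (∀ r, r ≤ r₁ → g₁ r = g r) ∧
      ∀ r, r₁ < r → DifferentiableAt ℝ g₁ r → deriv g₁ r ≤ -(κ * g₁ r) ∧
        (g₁ r < g r → deriv g₁ r = -(κ * g₁ r)) := by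
  obtain ⟨L, hL⟩ := hL
  have cg := hL.continuous
  have cχ : Continuous fun r => -(g r * Real.exp (κ * r)) := by fun_prop
  obtain ⟨n, h1, h2⟩ := Cap.exN cχ r₁
  have mn := Cap.monoN h1 h2
  have hLg : ∀ x y, x ≤ y → g x - g y ≤ L * (y - x) := fun x y hxy => by
    have := hL.dist_le_mul x y
    rw [Real.dist_eq, Real.dist_eq, abs_of_nonpos (a := x - y) (by linarith)] at this
    linarith [le_abs_self (g x - g y)]
  have e2 : ∀ r s, g s * Real.exp (κ * s) * Real.exp (-(κ * r)) =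
      g s * Real.exp (-(κ * (r - s))) := fun r s => by
    rw [mul_assoc, ← Real.exp_add]; congr 2; ring
  obtain ⟨u, hu⟩ : ∃ u : ℝ → ℝ, u = fun r => -n r * Real.exp (-(κ * r)) := ⟨_, rfl⟩
  have n0 : ∀ r, r₁ ≤ r → 0 ≤ -n r := fun r h => by
    obtain ⟨s, -, e⟩ := (h2 r h).1
    rw [e, neg_neg]
    exact mul_nonneg (h0 s) (Real.exp_pos _).le
  have u0 : ∀ r, r₁ ≤ r → 0 ≤ u r := fun r h => by
    rw [hu]
    exact mul_nonneg (n0 r h) (Real.exp_pos _).le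
  have ug : ∀ r, r₁ ≤ r → u r ≤ g r := fun r h => by
    have := mul_le_mul_of_nonneg_right (neg_le.1 ((h2 r h).2 r ⟨h, le_rfl⟩))
      (Real.exp_pos (-(κ * r))).le
    rw [e2, sub_self, mul_zero, neg_zero, Real.exp_zero, mul_one] at this
    rw [hu]
    exact this
  have u1 : u r₁ = g r₁ := by
    obtain ⟨s, hs, e⟩ := (h2 r₁ le_rfl).1
    rw [le_antisymm hs.2 hs.1] at e
    simp only [hu, e, neg_neg]
    rw [e2, sub_self, mul_zero, neg_zero, Real.exp_zero, mul_one]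
  obtain ⟨g₁, hg⟩ : ∃ g₁ : ℝ → ℝ, g₁ = fun r => if r ≤ r₁ then g r else u r := ⟨_, rfl⟩
  have gl : ∀ r, r ≤ r₁ → g₁ r = g r := fun r h => by rw [hg]; exact if_pos h
  have gr : ∀ r, r₁ ≤ r → g₁ r = u r := fun r h => by
    rcases h.eq_or_lt with h | h
    · rw [← h, gl _ le_rfl, u1]
    · rw [hg]; exact if_neg (not_le.2 h)
  have hL0 : (0 : ℝ) ≤ L := L.2
  have hk0 : 0 ≤ κ * g 0 := mul_nonneg hκ.le (h0 0)
  have key : ∀ x y, x ≤ y → g₁ y ≤ g₁ x ∧ g₁ x - g₁ y ≤ (L + κ * g 0) * (y - x) := by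
    refine glue r₁ (fun x y z a b => ⟨b.1.trans a.1, by linarith [a.2, b.2]⟩)
      (fun x y hxy hy => ?_) fun x y hxy hx => ?_
    · rw [gl y hy, gl x (hxy.trans hy)]
      have := mul_nonneg hk0 (sub_nonneg.2 hxy)
      exact ⟨ha hxy, by linarith [hLg x y hxy]⟩
    · rw [gr x hx, gr y (hx.trans hxy)]
      constructor
      · rw [hu]
        exact mul_le_mul (neg_le_neg (mn hxy))
          (Real.exp_le_exp.2 (neg_le_neg (mul_le_mul_of_nonneg_left hxy hκ.le)))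
          (Real.exp_pos _).le (n0 x hx)
      · obtain ⟨s, hs, e⟩ := (h2 y (hx.trans hxy)).1
        rcases le_total s x with hc | hc
        · have a1 : -n x ≤ -n y := neg_le_neg (e ▸ (h2 x hx).2 s ⟨hs.1, hc⟩)
          have a2 : u x * Real.exp (-(κ * (y - x))) ≤ u y := by
            simp only [hu]
            rw [mul_assoc, ← Real.exp_add, show -(κ * x) + -(κ * (y - x)) = -(κ * y) by ring]
            exact mul_le_mul_of_nonneg_right a1 (Real.exp_pos _).le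
          have a3 := drop (u0 x hx) ((ug x hx).trans (hG x))
            (mul_nonneg hκ.le (sub_nonneg.2 hxy))
          have := mul_nonneg hL0 (sub_nonneg.2 hxy)
          linarith
        · have a2 : u y = g s * Real.exp (-(κ * (y - s))) := by
            simp only [hu, e, neg_neg]
            exact e2 y s
          have a3 := drop (h0 s) (hG s) (mul_nonneg hκ.le (sub_nonneg.2 hs.2))
          have a4 := hLg x s hc
          have a5 := mul_nonneg hL0 (sub_nonneg.2 hs.2)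
          have a6 := mul_nonneg hk0 (sub_nonneg.2 hc)
          linarith [ug x hx]
  refine ⟨g₁, fun x y h => (key x y h).1, lip key, fun r => ?_, gl, fun r hr hd => ?_⟩
  · rcases le_total r r₁ with h | h
    · rw [gl r h]; exact ⟨h0 r, le_rfl⟩
    · rw [gr r h]; exact ⟨u0 r h, ug r h⟩
  · have e1 : ∀ x, r₁ ≤ x → n x = -(g₁ x * Real.exp (κ * x)) := fun x h => by
      rw [gr x h]
      simp only [hu]
      rw [mul_assoc, ← Real.exp_add, neg_add_cancel, Real.exp_zero, mul_one, neg_neg]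
    have hH : HasDerivAt (fun x => κ * x) κ r := by simpa using (hasDerivAt_id r).const_mul κ
    have hn : HasDerivAt n (-((deriv g₁ r + κ * g₁ r) * Real.exp (κ * r))) r := by
      refine (dmul hd hH).neg.congr_of_eventuallyEq ?_
      filter_upwards [lt_mem_nhds hr] with x hx
      exact e1 x hx.le
    have ep := Real.exp_pos (κ * r)
    constructor
    · have := hn.nonneg_of_monotone mn
      have h3 : deriv g₁ r + κ * g₁ r ≤ 0 := by
        by_contra hc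
        have := mul_pos (not_le.1 hc) ep
        linarith
      linarith
    · intro hlt
      have := dconst hn (Cap.locN h1 h2 cχ hr.ne' fun e => by
        rw [e1 r hr.le, neg_inj] at e
        exact hlt.ne (mul_right_cancel₀ ep.ne' e))
      rcases mul_eq_zero.1 (neg_eq_zero.1 this) with h | h
      · linarith
      · exact absurd h ep.ne'

end Flow4

open Flow4 in
theorem stFlow : StFlow := by
  intro g κ κ' r₀ r₁ ha hL h0 hc hκ hκ' hr₀ hr₁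
  have hG : ∀ r, g r ≤ g 0 := fun r => by
    rcases le_total r 0 with h | h
    · exact (hc r h).le
    · exact ha h
  obtain ⟨g₁, a1, ⟨L, a2⟩, a3, a4, a5⟩ := first g κ r₁ ha hL h0 hG hκ
  obtain ⟨H, hH⟩ : ∃ H : ℝ → ℝ, H = fun r => κ * min r r₀ + κ' * max (r - r₀) 0 := ⟨_, rfl⟩
  have Hl : ∀ r, r ≤ r₀ → H r = κ * r := fun r h => by
    simp only [hH]
    rw [min_eq_left h, max_eq_right (by linarith), mul_zero, add_zero]
  have Hr : ∀ r, r₀ ≤ r → H r = κ * r₀ + κ' * (r - r₀) := fun r h => by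
    simp only [hH]
    rw [min_eq_right h, max_eq_left (by linarith)]
  have Hk : ∀ x y, x ≤ y → 0 ≤ H y - H x ∧ H y - H x ≤ κ' * (y - x) := by
    refine glue r₀ (fun x y z a b => ⟨by linarith [a.1, b.1], by linarith [a.2, b.2]⟩)
      (fun x y hxy hy => ?_) fun x y hxy hx => ?_
    · rw [Hl y hy, Hl x (hxy.trans hy)]
      have b1 := mul_nonneg hκ.le (sub_nonneg.2 hxy)
      have b2 := mul_le_mul_of_nonneg_right hκ' (sub_nonneg.2 hxy)
      constructor <;> linarith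
    · rw [Hr x hx, Hr y (hx.trans hxy)]
      have b1 := mul_nonneg (hκ.le.trans hκ') (sub_nonneg.2 hxy)
      constructor <;> linarith
  obtain ⟨g₂, b1, b2, b3, b4, b5, b6, -⟩ := Cap.exPsi a1 a2.continuous (fun r => (a3 r).1)
    (H := H) (fun x y h => sub_nonneg.1 (Hk x y h).1) (by rw [hH]; fun_prop) r₀
  have c0 : g₂ r₀ = g r₀ := (le_antisymm (b4 r₀ le_rfl) (b5 r₀ le_rfl)).trans (a4 r₀ hr₁)
  have c1 : ∀ r, g₂ r ≤ g 0 := fun r => by
    rcases le_total r r₀ with h | h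
    · exact (b4 r h).trans ((a3 r).2.trans (hG r))
    · exact (b1 h).trans (c0.le.trans (hG r₀))
  have c2 : ∀ x y, x ≤ y → g₂ x * Real.exp (-(H y - H x)) ≤ g₂ y := fun x y h => by
    have := mul_le_mul_of_nonneg_right (b3 h) (Real.exp_pos (-H y)).le
    simp only at this
    rw [mul_assoc, mul_assoc, ← Real.exp_add, ← Real.exp_add, add_neg_cancel, Real.exp_zero,
      mul_one] at this
    rw [show -(H y - H x) = H x + -H y by ring]
    exact this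
  refine ⟨g₁, g₂, ⟨a1, ⟨L, a2⟩, a3, a4, a5⟩, b1, lip (C := g 0 * κ') fun x y h => ⟨b1 h, ?_⟩,
    fun r => ⟨b2 r, c1 r⟩, b4, fun r h => ⟨b5 r h, ?_⟩, fun r hr hd => ?_⟩
  · have d1 := drop (b2 x) (c1 x) (Hk x y h).1
    have d2 := mul_le_mul_of_nonneg_left (Hk x y h).2 (h0 0)
    linarith [c2 x y h]
  · have := c2 r₀ r h
    rw [c0, Hr r h, Hl r₀ le_rfl, add_sub_cancel_left] at this
    exact this
  · have main : ∀ w, HasDerivAt H w r → -(w * g₂ r) ≤ deriv g₂ r ∧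
        (g₂ r ≠ g₁ r → deriv g₂ r = -(w * g₂ r)) := fun w hw => by
      have hn := dmul hd hw
      have ep := Real.exp_pos (H r)
      constructor
      · have := nonneg_of_mul_nonneg_left (hn.nonneg_of_monotone b3) ep
        linarith
      · intro hne
        rcases mul_eq_zero.1 (dconst hn (b6 r hr hne)) with h | h
        · linarith
        · exact absurd h ep.ne'
    rcases lt_or_gt_of_ne hr with h | h
    · have hw : HasDerivAt H κ r := by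
        have : HasDerivAt (fun x => κ * x) κ r := by simpa using (hasDerivAt_id r).const_mul κ
        refine this.congr_of_eventuallyEq ?_
        filter_upwards [gt_mem_nhds h] with x hx
        exact Hl x hx.le
      obtain ⟨m1, m2⟩ := main κ hw
      have := mul_le_mul_of_nonneg_right hκ' (b2 r)
      exact ⟨by linarith, fun e => m2 e.ne, fun e => absurd (b4 r h.le) (not_le.2 e)⟩
    · have hw : HasDerivAt H κ' r := by
        have : HasDerivAt (fun x => κ * r₀ + κ' * (x - r₀)) κ' r := by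
          simpa using (((hasDerivAt_id r).sub_const r₀).const_mul κ').const_add (κ * r₀)
        refine this.congr_of_eventuallyEq ?_
        filter_upwards [lt_mem_nhds h] with x hx
        exact Hr x hx.le
      obtain ⟨m1, m2⟩ := main κ' hw
      exact ⟨m1, fun e => absurd (b5 r h.le) (not_le.2 e), fun e => m2 e.ne'⟩

end Pool.Agent.MP_e4cac8_mp

end

section

/-! The modifications have finite energy and comparable mass. -/

open Set MeasureTheory Filter Topology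
open scoped ENNReal NNReal

namespace Pool.Agent.MP_e4cac8_mp

namespace L24

/-- domination on the half line -/
theorem dom {k : ℕ} {f g : ℝ → ℝ} (hf : Measurable f)
    (hg : IntegrableOn (fun r => g r * r ^ k) (Ioi 0) volume)
    (h : ∀ᵐ r : ℝ, 0 < r → f r ^ 2 ≤ g r) :
    IntegrableOn (fun r => f r ^ 2 * r ^ k) (Ioi 0) volume := by
  refine Integrable.mono' hg (by fun_prop) ?_
  rw [ae_restrict_iff' measurableSet_Ioi]
  filter_upwards [h] with r hr h0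
  have h1 : (0 : ℝ) < r := h0
  rw [Real.norm_of_nonneg (by positivity)]
  exact mul_le_mul_of_nonneg_right (hr h0) (by positivity)

/-- the mass on bounded intervals -/
theorem mass {k : ℕ} {f g : ℝ → ℝ} {L : ℝ≥0} (hf : Continuous f) (hL : LipschitzWith L g)
    (h : ∀ᵐ r : ℝ, 0 < r → 2 * g r * deriv g r * r + (k + 1) * g r ^ 2 ≤
      (k + 1) * (2 * f r ^ 2 - g r ^ 2)) {R : ℝ} (hR : 0 ≤ R) :
    ∫ r in (0 : ℝ)..R, g r ^ 2 * r ^ k ≤ 2 * ∫ r in (0 : ℝ)..R, f r ^ 2 * r ^ k := by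
  have c1 : AbsolutelyContinuousOnInterval g 0 R :=
    hL.lipschitzOnWith.absolutelyContinuousOnInterval
  have c2 : AbsolutelyContinuousOnInterval (fun t : ℝ => t ^ (k + 1)) 0 R :=
    (contDiff_id.pow (k + 1)).contDiffOn.absolutelyContinuousOnInterval
  have c3 := (c1.fun_mul c1).fun_mul c2
  have hg := hL.continuous
  have i1 : IntervalIntegrable (fun r => f r ^ 2 * r ^ k) volume 0 R :=
    (by fun_prop : Continuous fun r => f r ^ 2 * r ^ k).intervalIntegrable _ _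
  have i2 : IntervalIntegrable (fun r => g r ^ 2 * r ^ k) volume 0 R :=
    (by fun_prop : Continuous fun r => g r ^ 2 * r ^ k).intervalIntegrable _ _
  have e1 := intervalIntegral.integral_mono_ae_restrict hR c3.intervalIntegrable_deriv
    (((i1.const_mul 2).sub i2).const_mul ((k : ℝ) + 1)) (by
      rw [EventuallyLE, ae_restrict_iff' measurableSet_Icc]
      filter_upwards [h, hL.ae_differentiableAt_real, compl_mem_ae_iff.2 (measure_singleton 0)]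
        with r hr hd h0 hm
      have h1 : 0 < r := lt_of_le_of_ne hm.1 (Ne.symm h0)
      rw [((hd.hasDerivAt.fun_mul hd.hasDerivAt).fun_mul (hasDerivAt_pow (k + 1) r)).deriv]
      have h2 := mul_le_mul_of_nonneg_right (hr h1) (pow_pos h1 k).le
      simp only [Nat.add_sub_cancel, pow_succ r k]
      push_cast
      linarith)
  rw [c3.integral_deriv_eq_sub, intervalIntegral.integral_const_mul,
    intervalIntegral.integral_sub (i1.const_mul 2) i2, intervalIntegral.integral_const_mul] at e1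
  have e2 : 0 ≤ g R * g R * R ^ (k + 1) := mul_nonneg (mul_self_nonneg _) (by positivity)
  simp only [ne_eq, Nat.add_eq_zero_iff, one_ne_zero, and_false, not_false_eq_true, zero_pow,
    mul_zero, sub_zero] at e1
  have e3 := nonneg_of_mul_nonneg_right (e2.trans e1) (show (0 : ℝ) < k + 1 by positivity)
  linarith

end L24

theorem stL2 (hI : StInt) : StL2 := by
  intro P hP k r₀ φ φ₁ φ₂ hk hr₀ hφ hL hF hM
  obtain ⟨⟨-, -, -, -, -, hwin, -⟩, hs⟩ := hI P hP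
  obtain ⟨-, -, -, -, K, hK0, hK⟩ := hs 1 one_pos
  obtain ⟨L₁, hL₁⟩ := hM.l1
  obtain ⟨L₂, hL₂⟩ := hM.l2
  have lv : ∀ t, 0 ≤ t → t ≤ φ 0 → P.Lv t := fun t h0 h1 =>
    ⟨h0, (pow_le_pow_left₀ h0 h1 2).trans hL.2⟩
  have lv1 : ∀ r, 0 < r → P.Lv (φ₁ r) := fun r hr =>
    lv _ (hM.n1 r) ((hM.le1 r hr.le).trans (hφ hr.le))
  have lv2 : ∀ r, 0 < r → P.Lv (φ₂ r) := fun r hr =>
    lv _ (hM.n2 r) ((hM.a2 hr.le).trans ((hM.le2 0 le_rfl hr₀.le).trans (hM.le1 0 le_rfl)))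
  have sq : ∀ y t, P.Lv t → |y| ≤ P.Λ * P.bt t → y ^ 2 ≤ K ^ 2 * t ^ 2 := fun y t ht hy => by
    rw [← sq_abs y, ← mul_pow]
    exact pow_le_pow_left₀ (abs_nonneg y) (hK _ 0 t ht (abs_nonneg y) hy).1 2
  have s1 : ∀ r, 0 < r → φ₁ r ^ 2 ≤ φ r ^ 2 := fun r hr =>
    pow_le_pow_left₀ (hM.n1 r) (hM.le1 r hr.le) 2
  have i1 : IntegrableOn (fun r => φ₁ r ^ 2 * r ^ k) (Ioi 0) volume :=
    L24.dom hL₁.continuous.measurable hF.i0 (Eventually.of_forall s1)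
  have j1 : IntegrableOn (fun r => deriv φ₁ r ^ 2 * r ^ k) (Ioi 0) volume := by
    refine L24.dom (g := fun r => deriv φ r ^ 2 + K ^ 2 * φ₁ r ^ 2) (measurable_deriv _) ?_ ?_
    · simp only [add_mul, mul_assoc]
      exact hF.i1.add (i1.const_mul _)
    · filter_upwards [hM.d1] with r hr h0
      rcases (hM.le1 r h0.le).eq_or_lt with h | h
      · rw [(hr h0).2.1 h]
        exact le_add_of_nonneg_right (by positivity)
      · refine (sq _ _ (lv1 r h0) ?_).trans (le_add_of_nonneg_left (by positivity))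
        rw [(hr h0).2.2 h]
        exact (hwin 0 _ (hM.n1 r)).2.2.1.2
  have key : ∀ᵐ r : ℝ, 0 < r → 2 * φ₂ r * deriv φ₂ r * r + (k + 1) * φ₂ r ^ 2 ≤
      (k + 1) * (2 * φ₁ r ^ 2 - φ₂ r ^ 2) := by
    filter_upwards [hM.d2] with r hr h0
    have a1 : deriv φ₂ r ≤ 0 := hM.a2.deriv_nonpos
    have a2 := hM.n2 r
    have a3 : (1 : ℝ) ≤ k := by exact_mod_cast hk
    rcases le_or_gt (φ₂ r) (φ₁ r) with h | h
    · have a4 := pow_le_pow_left₀ a2 h 2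
      have a5 : 0 ≤ 2 * φ₂ r * -deriv φ₂ r * r :=
        mul_nonneg (mul_nonneg (by positivity) (by linarith)) h0.le
      nlinarith
    · have a4 := (hr h0).2.2.2 h
      rw [abs_of_nonpos a1, Par.bt] at a4
      have a5 := hM.rate r (by
        by_contra hc
        exact absurd (hM.le2 r h0.le (not_le.1 hc).le) (not_le.2 h))
      have a6 := mul_le_mul_of_nonneg_right a5 (sq_nonneg (φ₂ r))
      have a7 : deriv φ₂ r = -(P.Λ * (√P.T * φ₂ r * P.jf (φ₂ r))) := by linarith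
      rw [a7]
      nlinarith [sq_nonneg (φ₁ r), sq_nonneg (φ₂ r), mul_nonneg (sub_nonneg.2 a3) (sq_nonneg (φ₁ r)),
        mul_nonneg (sub_nonneg.2 a3) (sq_nonneg (φ₂ r))]
  have nn : ∀ ψ : ℝ → ℝ, 0 ≤ᵐ[volume.restrict (Ioi (0 : ℝ))] fun r => ψ r ^ 2 * r ^ k := fun ψ => by
    rw [EventuallyLE, ae_restrict_iff' measurableSet_Ioi]
    exact Eventually.of_forall fun r hr => mul_nonneg (sq_nonneg _) (pow_pos hr k).le
  have m1 : ∫ r in Ioi (0 : ℝ), φ₁ r ^ 2 * r ^ k ≤ ∫ r in Ioi (0 : ℝ), φ r ^ 2 * r ^ k :=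
    setIntegral_mono_on i1 hF.i0 measurableSet_Ioi fun r hr =>
      mul_le_mul_of_nonneg_right (s1 r hr) (pow_pos hr k).le
  have m2 : ∀ R : ℝ, 0 ≤ R →
      ∫ r in (0 : ℝ)..R, φ₂ r ^ 2 * r ^ k ≤ 2 * ∫ r in Ioi (0 : ℝ), φ r ^ 2 * r ^ k := by
    intro R hR
    have b1 := L24.mass hL₁.continuous hL₂ key hR
    have b2 : ∫ r in (0 : ℝ)..R, φ₁ r ^ 2 * r ^ k ≤ ∫ r in Ioi (0 : ℝ), φ₁ r ^ 2 * r ^ k := by
      rw [intervalIntegral.integral_of_le hR]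
      exact setIntegral_mono_set i1 (nn φ₁) Ioc_subset_Ioi_self.eventuallyLE
    linarith
  have c2 := hL₂.continuous
  have i2 : IntegrableOn (fun r => φ₂ r ^ 2 * r ^ k) (Ioi 0) volume := by
    refine integrableOn_Ioi_of_intervalIntegral_norm_bounded
      (2 * ∫ r in Ioi (0 : ℝ), φ r ^ 2 * r ^ k) 0 (b := fun R : ℝ => R) (l := atTop)
      (fun R => (by fun_prop : Continuous fun r => φ₂ r ^ 2 * r ^ k).integrableOn_Ioc) tendsto_id ?_
    filter_upwards [eventually_ge_atTop 0] with R hR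
    refine le_trans (le_of_eq (intervalIntegral.integral_congr fun r hr => ?_)) (m2 R hR)
    rw [uIcc_of_le hR] at hr
    exact Real.norm_of_nonneg (mul_nonneg (sq_nonneg _) (pow_nonneg hr.1 k))
  refine ⟨⟨i1, j1⟩, ⟨i2, ?_⟩, ?_⟩
  · refine L24.dom (g := fun r => K ^ 2 * φ₂ r ^ 2) (measurable_deriv _) ?_ ?_
    · simp only [mul_assoc]
      exact i2.const_mul _
    · filter_upwards [hM.d2] with r hr h0
      exact sq _ _ (lv2 r h0) (hr h0).1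
  · exact le_of_tendsto (intervalIntegral_tendsto_integral_Ioi 0 i2 tendsto_id)
      ((eventually_ge_atTop 0).mono m2)

end Pool.Agent.MP_e4cac8_mp

end

section

/-! The mass of the rearranged profile. -/

open Set MeasureTheory Filter Topology
open scoped ENNReal NNReal

namespace Pool.Agent.MP_e4cac8_mp

variable {E : Type} [NormedAddCommGroup E] [InnerProductSpace ℝ E] [FiniteDimensional ℝ E]
  [MeasurableSpace E] [BorelSpace E]

namespace Mass2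

theorem sup_le {L : ℝ≥0} {ρ : E → ℝ} {φ y : ℝ → ℝ} {K : ℝ} (hρ : Measurable ρ)
    (h : Rearr L ρ φ y) (hc : (0 : ℝ) < Module.finrank ℝ E * om E) (hK : 0 ≤ K)
    (hb : ∀ x, ρ x ≤ K) : φ 0 ≤ K := by
  have hφ : Continuous φ := h.lip.continuous
  have h0 : (fun x => max (ρ x - K) 0) = fun _ => (0 : ℝ) := by
    ext x
    exact max_eq_right (sub_nonpos.2 (hb x))
  obtain ⟨h1, h2⟩ := Cmp.transfer hρ h (F := fun t => max (t - K) 0) (by fun_prop) hc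
    (by rw [h0]; exact integrableOn_zero)
  rw [h0, integral_zero] at h2
  have hU : IsOpen {r : ℝ | 0 < r ∧ 0 < φ r} :=
    (isOpen_lt continuous_const continuous_id).inter (isOpen_lt continuous_const hφ)
  have h3 := (mul_eq_zero.1 h2.symm).resolve_left hc.ne'
  have h4 := (setIntegral_eq_zero_iff_of_nonneg_ae (by
    filter_upwards [ae_restrict_mem hU.measurableSet] with r hr
    exact mul_nonneg (le_max_right _ _) (pow_nonneg hr.1.le _)) h1).1 h3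
  have h5 := Measure.eqOn_open_of_ae_eq h4 hU (by fun_prop) continuousOn_const
  have h6 : ∀ r, 0 < r → φ r ≤ K := by
    intro r hr
    by_contra hlt
    push Not at hlt
    have h7 : max (φ r - K) 0 * r ^ (Module.finrank ℝ E - 1) = 0 := h5 ⟨hr, hK.trans_lt hlt⟩
    have h8 : 0 < max (φ r - K) 0 * r ^ (Module.finrank ℝ E - 1) :=
      mul_pos (lt_max_of_lt_left (sub_pos.2 hlt)) (pow_pos hr _)
    exact h8.ne' h7
  refine le_of_tendsto ((hφ.tendsto 0).mono_left (nhdsWithin_le_nhds (s := Ioi 0))) ?_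
  filter_upwards [self_mem_nhdsWithin] with r hr using h6 r hr

theorem pw1 {p M s : ℝ} (hp : 2 ≤ p) (hM : 0 ≤ M) (hs : 0 ≤ s) (h : s ≤ M ^ (p - 1)) :
    s ^ (p / (p - 1)) ≤ M ^ p := by
  have h1 : 0 < p - 1 := by linarith
  refine (Real.rpow_le_rpow hs h (by positivity)).trans (le_of_eq ?_)
  rw [← Real.rpow_mul hM]
  congr 1
  field_simp

theorem pw2 {p M s : ℝ} (hp : 2 ≤ p) (hM : 0 ≤ M) (hs : 0 ≤ s) (h : s ≤ M ^ (p - 1)) :
    s ^ (p / (p - 1)) ≤ M * s := by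
  have h1 : 0 < p - 1 := by linarith
  have h2 : p / (p - 1) = (p - 1)⁻¹ + 1 := by
    field_simp
    ring
  rw [h2, Real.rpow_add' hs (by positivity), Real.rpow_one]
  refine mul_le_mul_of_nonneg_right ?_ hs
  refine (Real.rpow_le_rpow hs h (by positivity)).trans (le_of_eq ?_)
  rw [← Real.rpow_mul hM, mul_inv_cancel₀ h1.ne', Real.rpow_one]

end Mass2

theorem stMass2 : StMass2 E := by
  intro p b M₀ I r₀ L ρ φ y hn hp hb hM hI hr₀ hρ hρb hρi h hlow hvol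
  have hn0 : (0 : ℝ) < Module.finrank ℝ E := by exact_mod_cast hn
  have hc : (0 : ℝ) < Module.finrank ℝ E * om E := mul_pos hn0 om_pos
  have hφ : Continuous φ := h.lip.continuous
  have hτ : 0 < tl p b := by
    unfold tl
    positivity
  generalize tl p b = τ at *
  have hMp : 0 ≤ M₀ ^ (p - 1) := Real.rpow_nonneg hM _
  have h0 : φ 0 ≤ √(M₀ ^ (p - 1)) := Mass2.sup_le hρ.measurable h hc (Real.sqrt_nonneg _)
    fun x => Real.le_sqrt_of_sq_le (hρb x).2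
  have h1 : ∀ r, 0 ≤ r → φ r ^ 2 ≤ M₀ ^ (p - 1) := fun r hr =>
    (Real.le_sqrt (h.nonneg r) hMp).1 ((h.anti hr).trans h0)
  have hA : MeasurableSet {x | τ ≤ ρ x} := measurableSet_le measurable_const hρ.measurable
  have hB : MeasurableSet {r | τ ≤ φ r} := measurableSet_le measurable_const hφ.measurable
  have e1 : (fun x => (Ici τ).indicator (fun t : ℝ => (t ^ 2) ^ (p / (p - 1))) (ρ x)) =
      {x | τ ≤ ρ x}.indicator fun x => (ρ x ^ 2) ^ (p / (p - 1)) := rfl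
  have e2 : (fun r => (Ici τ).indicator (fun t : ℝ => (t ^ 2) ^ (p / (p - 1))) (φ r) *
      r ^ (Module.finrank ℝ E - 1)) = {r | τ ≤ φ r}.indicator
        fun r => (φ r ^ 2) ^ (p / (p - 1)) * r ^ (Module.finrank ℝ E - 1) := by
    ext r
    by_cases hr : τ ≤ φ r
    · rw [indicator_of_mem (show φ r ∈ Ici τ from hr), indicator_of_mem (show r ∈ _ from hr)]
    · rw [indicator_of_notMem (show φ r ∉ Ici τ from hr),
        indicator_of_notMem (show r ∉ {r | τ ≤ φ r} from hr), zero_mul]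
  have hint : Integrable (fun x => (ρ x ^ 2) ^ (p / (p - 1))) volume :=
    (hρi.const_mul M₀).mono' ((hρ.measurable.pow_const 2).pow_const _).aestronglyMeasurable
      (Eventually.of_forall fun x => by
        rw [Real.norm_of_nonneg (Real.rpow_nonneg (sq_nonneg _) _)]
        exact Mass2.pw2 hp hM (sq_nonneg _) (hρb x).2)
  obtain ⟨a1, a2⟩ := Cmp.transfer hρ.measurable h
    (F := (Ici τ).indicator fun t : ℝ => (t ^ 2) ^ (p / (p - 1)))
    (((measurable_id.pow_const 2).pow_const _).indicator measurableSet_Ici) hc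
    (by rw [e1]; exact (hint.indicator hA).integrableOn)
  have s1 : {x | 0 < ρ x} ∩ {x | τ ≤ ρ x} = {x | τ ≤ ρ x} :=
    inter_eq_self_of_subset_right fun x hx => hτ.trans_le hx
  have s2 : ({r | 0 < r ∧ 0 < φ r} ∩ {r | τ ≤ φ r}) \ Iic r₀ = {r | r₀ < r ∧ τ ≤ φ r} := by
    ext r
    constructor
    · rintro ⟨⟨_, h2⟩, h3⟩
      exact ⟨not_le.1 h3, h2⟩
    · rintro ⟨h2, h3⟩
      exact ⟨⟨⟨hr₀.trans h2, hτ.trans_le h3⟩, h3⟩, not_le.2 h2⟩
  rw [e2] at a1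
  rw [e1, e2, setIntegral_indicator hA, setIntegral_indicator hB, s1] at a2
  have a3 : IntegrableOn (fun r => (φ r ^ 2) ^ (p / (p - 1)) * r ^ (Module.finrank ℝ E - 1))
      ({r | 0 < r ∧ 0 < φ r} ∩ {r | τ ≤ φ r}) volume :=
    (a1.mono_set inter_subset_left).congr_fun (fun r hr => indicator_of_mem hr.2 _)
      (((measurableSet_lt measurable_const measurable_id).inter
        (measurableSet_lt measurable_const hφ.measurable)).inter hB)
  rw [← integral_inter_add_sdiff (t := Iic r₀) measurableSet_Iic a3, s2] at a2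
  have a4 : ∫ r in ({r | 0 < r ∧ 0 < φ r} ∩ {r | τ ≤ φ r}) ∩ Iic r₀,
      (φ r ^ 2) ^ (p / (p - 1)) * r ^ (Module.finrank ℝ E - 1) ≤
        M₀ ^ p * (r₀ ^ Module.finrank ℝ E / Module.finrank ℝ E) := by
    have b0 : IntegrableOn (fun r : ℝ => M₀ ^ p * r ^ (Module.finrank ℝ E - 1)) (Ioc 0 r₀) volume :=
      (Continuous.integrableOn_Icc (by fun_prop)).mono_set Ioc_subset_Icc_self
    have b1 : ({r | 0 < r ∧ 0 < φ r} ∩ {r | τ ≤ φ r}) ∩ Iic r₀ ⊆ Ioc 0 r₀ :=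
      fun r hr => ⟨hr.1.1.1, hr.2⟩
    have b2 : MeasurableSet (({r | 0 < r ∧ 0 < φ r} ∩ {r | τ ≤ φ r}) ∩ Iic r₀) :=
      (((measurableSet_lt measurable_const measurable_id).inter
        (measurableSet_lt measurable_const hφ.measurable)).inter hB).inter measurableSet_Iic
    refine (setIntegral_mono_on (a3.mono_set inter_subset_left) (b0.mono_set b1) b2
      fun r hr => mul_le_mul_of_nonneg_right
        (Mass2.pw1 hp hM (sq_nonneg _) (h1 r hr.1.1.1.le)) (pow_nonneg hr.1.1.1.le _)).trans ?_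
    refine (setIntegral_mono_set b0 ?_ b1.eventuallyLE).trans (le_of_eq ?_)
    · filter_upwards [ae_restrict_mem measurableSet_Ioc] with r hr
      exact mul_nonneg (Real.rpow_nonneg hM _) (pow_nonneg hr.1.le _)
    · rw [integral_const_mul, ← intervalIntegral.integral_of_le hr₀.le, integral_pow,
        Nat.sub_add_cancel hn, zero_pow (by omega), sub_zero, Nat.cast_sub hn]
      congr 2
      push_cast
      ring
  have a5 := mul_le_mul_of_nonneg_left a4 hc.le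
  have a6 : Module.finrank ℝ E * om E * (M₀ ^ p * (r₀ ^ Module.finrank ℝ E / Module.finrank ℝ E)) =
      om E * r₀ ^ Module.finrank ℝ E * M₀ ^ p := by
    field_simp
  rw [a6] at a5
  rw [mul_add] at a2
  have a7 : I / 128 ≤ Module.finrank ℝ E * om E * ∫ r in {r | r₀ < r ∧ τ ≤ φ r},
      (φ r ^ 2) ^ (p / (p - 1)) * r ^ (Module.finrank ℝ E - 1) := by linarith
  refine ⟨h1 0 le_rfl, ?_, a7⟩
  by_contra hlt
  have s3 : {r | r₀ < r ∧ τ ≤ φ r} = ∅ :=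
    eq_empty_of_forall_notMem fun r hr => hlt (hr.2.trans (h.anti hr.1.le))
  rw [s3, setIntegral_empty, mul_zero] at a7
  linarith

end Pool.Agent.MP_e4cac8_mp

end

section

/-! Existence of the two modifications of a profile. -/

open Set MeasureTheory Filter Topology
open scoped NNReal

namespace Pool.Agent.MP_e4cac8_mp

namespace Mod4

/-- The inverse change of level. -/
noncomputable def Ps (P : Par) (g : ℝ) : ℝ :=
  √P.a ^ P.p / √P.T * (g * (1 - g ^ P.p⁻¹) ^ (-P.p))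

/-- The change of level. -/
noncomputable def Ee (P : Par) (t : ℝ) : ℝ := (1 - √P.a / P.jf t) ^ P.p

variable {P : Par}

theorem pp (h : P.Ok) : 0 < P.p := by have := h.hD; have := h.hp; linarith

theorem pT (h : P.Ok) : 0 < P.T := h.hb.trans_le h.bT

theorem pc (h : P.Ok) : 0 < √P.a ^ P.p / √P.T :=
  div_pos (Real.rpow_pos_of_pos (Real.sqrt_pos.2 h.ha) _) (Real.sqrt_pos.2 (pT h))

theorem jf_eq (h : P.Ok) {t : ℝ} (ht : 0 ≤ t) : P.jf t = √P.a + (√P.T * t) ^ P.p⁻¹ := by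
  have h1 : P.T * t ^ 2 = (√P.T * t) ^ (2 : ℝ) := by
    rw [Real.rpow_two, mul_pow, Real.sq_sqrt (pT h).le]
  rw [Par.jf, h1, ← Real.rpow_mul (by positivity), mul_inv, ← mul_assoc,
    mul_inv_cancel₀ two_ne_zero, one_mul]

theorem jf_pos (h : P.Ok) (t : ℝ) : 0 < P.jf t :=
  add_pos_of_pos_of_nonneg (Real.sqrt_pos.2 h.ha)
    (Real.rpow_nonneg (mul_nonneg (pT h).le (sq_nonneg t)) _)

theorem w_lt (h : P.Ok) {g : ℝ} (h0 : 0 ≤ g) (h1 : g < 1) : 0 < 1 - g ^ P.p⁻¹ :=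
  sub_pos.2 (Real.rpow_lt_one h0 h1 (inv_pos.2 (pp h)))

theorem Ps_low (h : P.Ok) {g g' : ℝ} (h0 : 0 ≤ g) (h1 : g ≤ g') (h2 : g' < 1) :
    √P.a ^ P.p / √P.T * (g' - g) ≤ Ps P g' - Ps P g := by
  have a1 := w_lt h (h0.trans h1) h2
  have a2 : g ^ P.p⁻¹ ≤ g' ^ P.p⁻¹ := Real.rpow_le_rpow h0 h1 (inv_pos.2 (pp h)).le
  have a3 : (1 - g ^ P.p⁻¹) ^ (-P.p) ≤ (1 - g' ^ P.p⁻¹) ^ (-P.p) :=
    Real.rpow_le_rpow_of_nonpos a1 (by linarith) (by linarith [pp h])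
  have a4 : 1 ≤ (1 - g' ^ P.p⁻¹) ^ (-P.p) := Real.one_le_rpow_of_pos_of_le_one_of_nonpos a1
    (by linarith [Real.rpow_nonneg (h0.trans h1) P.p⁻¹]) (by linarith [pp h])
  rw [Ps, Ps, ← mul_sub]
  refine mul_le_mul_of_nonneg_left ?_ (pc h).le
  nlinarith [mul_le_mul_of_nonneg_left a3 h0, mul_le_mul_of_nonneg_left a4 (sub_nonneg.2 h1)]

theorem Ps_mono (h : P.Ok) {g g' : ℝ} (h0 : 0 ≤ g) (h1 : g ≤ g') (h2 : g' < 1) :
    Ps P g ≤ Ps P g' := by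
  have := Ps_low h h0 h1 h2
  have := mul_nonneg (pc h).le (sub_nonneg.2 h1)
  linarith

theorem Ps_zero : Ps P 0 = 0 := by simp [Ps]

theorem Ps_nonneg (h : P.Ok) {g : ℝ} (h0 : 0 ≤ g) (h2 : g < 1) : 0 ≤ Ps P g :=
  Ps_zero (P := P) ▸ Ps_mono h le_rfl h0 h2

theorem jf_Ps (h : P.Ok) {g : ℝ} (h0 : 0 ≤ g) (h1 : g < 1) :
    P.jf (Ps P g) = √P.a / (1 - g ^ P.p⁻¹) := by
  have a1 := w_lt h h0 h1
  have a2 := Real.sqrt_pos.2 (pT h)
  have a3 := Real.rpow_nonneg h0 P.p⁻¹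
  have e : √P.T * Ps P g = (√P.a * g ^ P.p⁻¹ / (1 - g ^ P.p⁻¹)) ^ P.p := by
    rw [Real.div_rpow (by positivity) a1.le, Real.mul_rpow (by positivity) a3,
      Real.rpow_inv_rpow h0 (pp h).ne', Ps, Real.rpow_neg a1.le]
    field_simp
  rw [jf_eq h (Ps_nonneg h h0 h1), e, Real.rpow_rpow_inv (by positivity) (pp h).ne']
  generalize g ^ P.p⁻¹ = w at a1
  field_simp
  ring

theorem Ee_spec (h : P.Ok) {t : ℝ} (ht : 0 ≤ t) :
    0 ≤ Ee P t ∧ Ee P t < 1 ∧ Ps P (Ee P t) = t := by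
  have a1 := Real.sqrt_pos.2 h.ha
  have a2 := Real.sqrt_pos.2 (pT h)
  have a3 := jf_pos h t
  have a4 : 0 ≤ (√P.T * t) ^ P.p⁻¹ := by positivity
  have e : 1 - √P.a / P.jf t = (√P.T * t) ^ P.p⁻¹ / P.jf t := by
    field_simp
    rw [jf_eq h ht]
    ring_nf
  have a5 : 0 ≤ 1 - √P.a / P.jf t := by rw [e]; positivity
  refine ⟨Real.rpow_nonneg a5 _, Real.rpow_lt_one a5 (sub_lt_self _ (by positivity)) (pp h), ?_⟩
  rw [Ps, Ee, Real.rpow_rpow_inv a5 (pp h).ne', sub_sub_cancel, e, Real.rpow_neg (by positivity),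
    Real.div_rpow a4 a3.le, Real.div_rpow a1.le a3.le, Real.rpow_inv_rpow (by positivity) (pp h).ne']
  have := Real.rpow_pos_of_pos a1 P.p
  have := Real.rpow_pos_of_pos a3 P.p
  field_simp

theorem Ee_mono (h : P.Ok) {t t' : ℝ} (ht : 0 ≤ t) (h1 : t ≤ t') :
    Ee P t ≤ Ee P t' ∧ √P.a ^ P.p / √P.T * (Ee P t' - Ee P t) ≤ t' - t := by
  obtain ⟨a1, a2, a3⟩ := Ee_spec h ht
  obtain ⟨b1, b2, b3⟩ := Ee_spec h (ht.trans h1)
  have c1 : Ee P t ≤ Ee P t' := by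
    by_contra hn
    have c2 := not_le.1 hn
    have c3 := Ps_low h b1 c2.le a2
    have c4 := mul_pos (pc h) (sub_pos.2 c2)
    linarith
  have c3 := Ps_low h a1 c1 b2
  exact ⟨c1, by linarith⟩

theorem Ps_deriv (h : P.Ok) {g : ℝ} (h0 : 0 < g) (h1 : g < 1) : HasDerivAt (Ps P)
    (√P.a ^ P.p / √P.T * (1 - g ^ P.p⁻¹) ^ (-P.p) / (1 - g ^ P.p⁻¹)) g := by
  have a1 := w_lt h h0.le h1
  have a2 := (pp h).ne'
  refine ((((hasDerivAt_id g).mul (((Real.hasDerivAt_rpow_const (p := P.p⁻¹)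
    (Or.inl h0.ne')).const_sub 1).rpow_const (p := -P.p) (Or.inl a1.ne'))).const_mul
      (√P.a ^ P.p / √P.T))).congr_deriv ?_
  simp only [id]
  rw [Real.rpow_sub_one h0.ne', Real.rpow_sub_one a1.ne']
  generalize g ^ P.p⁻¹ = w at a1
  field_simp
  ring

theorem Ps_lip (h : P.Ok) {b : ℝ} (h0 : 0 ≤ b) (h1 : b < 1) :
    ∃ K, LipschitzOnWith K (Ps P) (Icc 0 b) := by
  have a1 := w_lt h h0 h1
  have a2 := pc h
  have a3 := pp h
  have hc : ContinuousOn (Ps P) (Icc 0 b) := by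
    refine continuousOn_const.mul (continuousOn_id.mul (ContinuousOn.rpow_const
      (continuousOn_const.sub (continuousOn_id.rpow_const fun _ _ => Or.inr (by positivity)))
      fun x hx => Or.inl (w_lt h hx.1 (hx.2.trans_lt h1)).ne'))
  have key := (convex_Icc 0 b).image_sub_le_mul_sub_of_deriv_le hc
    (C := √P.a ^ P.p / √P.T * (1 - b ^ P.p⁻¹) ^ (-P.p) / (1 - b ^ P.p⁻¹))
    (fun x hx => by
      rw [interior_Icc] at hx
      exact (Ps_deriv h hx.1 (hx.2.trans h1)).differentiableAt.differentiableWithinAt)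
    (fun x hx => by
      rw [interior_Icc] at hx
      have b2 : x ^ P.p⁻¹ ≤ b ^ P.p⁻¹ := Real.rpow_le_rpow hx.1.le hx.2.le (by positivity)
      rw [(Ps_deriv h hx.1 (hx.2.trans h1)).deriv]
      exact div_le_div₀ (by positivity) (mul_le_mul_of_nonneg_left
        (Real.rpow_le_rpow_of_nonpos a1 (by linarith) (by linarith)) a2.le) a1 (by linarith))
  refine ⟨_, LipschitzOnWith.of_le_add_mul'
    (√P.a ^ P.p / √P.T * (1 - b ^ P.p⁻¹) ^ (-P.p) / (1 - b ^ P.p⁻¹)) fun x hx y hy => ?_⟩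
  rcases le_total x y with h2 | h2
  · exact (Ps_mono h hx.1 h2 (hy.2.trans_lt h1)).trans (le_add_of_nonneg_right (by positivity))
  · have := key y hy x hx h2
    rw [Real.dist_eq, abs_of_nonneg (sub_nonneg.2 h2)]
    linarith

theorem chain (h : P.Ok) {G : ℝ → ℝ} (hG : ∀ r, 0 ≤ G r ∧ G r < 1) {r : ℝ}
    (hd : DifferentiableAt ℝ G r) : ∃ d, 0 ≤ d ∧ deriv (fun x => Ps P (G x)) r = d * deriv G r ∧
      d * (√P.T * √P.a * G r) = P.bt (Ps P (G r)) := by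
  rcases (hG r).1.eq_or_lt with h0 | h0
  · refine ⟨0, le_rfl, ?_, by simp [← h0, Ps_zero, Par.bt]⟩
    rw [zero_mul]
    refine IsLocalMin.deriv_eq_zero (Eventually.of_forall fun x => ?_)
    simp only [← h0, Ps_zero]
    exact Ps_nonneg h (hG x).1 (hG x).2
  · have a1 := w_lt h h0.le (hG r).2
    have a2 := pc h
    refine ⟨_, by positivity, ((Ps_deriv h h0 (hG r).2).comp r hd.hasDerivAt).deriv, ?_⟩
    rw [Par.bt, jf_Ps h h0.le (hG r).2, Ps]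
    field_simp

theorem contact {f g : ℝ → ℝ} {r : ℝ} (hf : DifferentiableAt ℝ f r) (hg : DifferentiableAt ℝ g r)
    (h : ∀ᶠ x in 𝓝 r, f x ≤ g x) (e : f r = g r) : deriv f r = deriv g r := by
  have h1 : IsLocalMin (fun x => g x - f x) r := h.mono fun x hx => by
    simp only [e, sub_self]
    linarith
  have h2 := h1.hasDerivAt_eq_zero (hg.hasDerivAt.sub hf.hasDerivAt)
  linarith

end Mod4

open Mod4 in
theorem stMod (_hI : StInt) (hF : StFlow) : StMod := by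
  intro P h k r₀ φ hk hr hΛ ha ⟨L, hL⟩ hn ht hj ⟨R, hR⟩
  have sT := Real.sqrt_pos.2 (pT h)
  have sa := Real.sqrt_pos.2 h.ha
  have hc := pc h
  have hΛ5 := h.hΛ
  set κ := √P.T * √P.a with hκ
  have κ0 : 0 < κ := mul_pos sT sa
  set g : ℝ → ℝ := fun r => Ee P (φ (max r 0)) with hg
  have ga : Antitone g := fun x y hxy => (Ee_mono h (hn _) (ha (max_le_max_right 0 hxy))).1
  have g1 : ∀ r, g r < 1 := fun r => (Ee_spec h (hn _)).2.1
  have gφ : ∀ r, 0 ≤ r → Ps P (g r) = φ r := fun r h0 => by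
    simp only [hg, max_eq_left h0]
    exact (Ee_spec h (hn r)).2.2
  have gz : ∀ r, r ≤ 0 → g r = g 0 := fun r h0 => by simp only [hg, max_eq_right h0, max_self]
  have g0 : ∀ r, g r ≤ g 0 := fun r => (le_total r 0).elim (fun h0 => (gz r h0).le) fun h0 => ga h0
  have gl : ∃ K, LipschitzWith K g := by
    refine ⟨_, LipschitzWith.of_le_add_mul' (L / (√P.a ^ P.p / √P.T)) fun x y => ?_⟩
    rcases le_total y x with h2 | h2
    · exact (ga h2).trans (le_add_of_nonneg_right (by positivity))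
    · have a1 := (Ee_mono h (hn _) (ha (max_le_max_right 0 h2))).2
      have a2 := hL.le_add_mul (max x 0) (max y 0)
      have a3 : dist (max x 0) (max y 0) ≤ dist x y := abs_max_sub_max_le_abs x y 0
      have a4 := mul_le_mul_of_nonneg_left a3 L.coe_nonneg
      rw [← sub_le_iff_le_add', div_mul_eq_mul_div, le_div_iff₀' hc]
      linarith
  have bd : BddAbove {r | tl P.p P.b ≤ φ r} := ⟨R, fun r hr => by
    by_contra hn'
    exact absurd ((ha (not_le.1 hn').le).trans_lt hR) (not_lt.2 hr)⟩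
  set r₁ := sSup {r | tl P.p P.b ≤ φ r} with hr₁
  have r1 : tl P.p P.b ≤ φ r₁ := (isClosed_le continuous_const hL.continuous).csSup_mem ⟨r₀, ht⟩ bd
  obtain ⟨g₁, g₂, ⟨a1, ⟨L₁, l1⟩, b1, c1, d1⟩, a2, ⟨L₂, l2⟩, b2, c2, e2, d2⟩ :=
    hF g (κ / 40) (P.Λ * κ) r₀ r₁ ga gl (fun r => (Ee_spec h (hn _)).1) gz (by positivity)
      (by nlinarith) hr (le_csSup bd ht)
  obtain ⟨K, hK⟩ := Ps_lip h (Ee_spec h (hn (max 0 0))).1 (g1 0)
  have u1 : ∀ r, 0 ≤ g₁ r ∧ g₁ r < 1 := fun r => ⟨(b1 r).1, (b1 r).2.trans_lt (g1 r)⟩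
  have u2 : ∀ r, 0 ≤ g₂ r ∧ g₂ r < 1 := fun r => ⟨(b2 r).1, (b2 r).2.trans_lt (g1 0)⟩
  have m1 : LipschitzWith (K * L₁) fun r => Ps P (g₁ r) := lipschitzOnWith_univ.1
    (hK.comp l1.lipschitzOnWith fun r _ => ⟨(b1 r).1, (b1 r).2.trans (g0 r)⟩)
  have m2 : LipschitzWith (K * L₂) fun r => Ps P (g₂ r) := lipschitzOnWith_univ.1
    (hK.comp l2.lipschitzOnWith fun r _ => b2 r)
  have le1 : ∀ r, 0 ≤ r → Ps P (g₁ r) ≤ φ r := fun r h0 =>
    gφ r h0 ▸ Ps_mono h (b1 r).1 (b1 r).2 (g1 r)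
  have le2 : ∀ r, r ≤ r₀ → Ps P (g₂ r) ≤ Ps P (g₁ r) := fun r h0 =>
    Ps_mono h (b2 r).1 (c2 r h0) (u1 r).2
  have ge2 : ∀ r, r₀ ≤ r → Ps P (g₁ r) ≤ Ps P (g₂ r) := fun r h0 =>
    Ps_mono h (b1 r).1 (e2 r h0).1 (u2 r).2
  refine ⟨fun r => Ps P (g₁ r), fun r => Ps P (g₂ r),
    fun x y hxy => Ps_mono h (b1 y).1 (a1 hxy) (u1 x).2, ⟨_, m1⟩,
    fun r => Ps_nonneg h (u1 r).1 (u1 r).2, le1,
    fun r h0 h1 => by simp only [c1 r (le_csSup bd h1), gφ r h0], ?_,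
    fun x y hxy => Ps_mono h (b2 y).1 (a2 hxy) (u2 x).2, ⟨_, m2⟩,
    fun r => Ps_nonneg h (u2 r).1 (u2 r).2, fun r _ => le2 r, ge2, ?_, fun r h0 => ?_⟩
  · filter_upwards [l1.ae_differentiableAt_real, m1.ae_differentiableAt_real,
      hL.ae_differentiableAt_real] with r x1 x2 x3 h0
    obtain ⟨d, y1, y2, y3⟩ := chain h u1 x1
    have y4 : 0 ≤ d * (κ * g₁ r) := mul_nonneg y1 (mul_nonneg κ0.le (b1 r).1)
    refine ⟨?_, contact x2 x3 ((eventually_gt_nhds h0).mono fun x hx => le1 x hx.le), fun h1 => ?_⟩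
    · rcases le_or_gt r r₁ with h1 | h1
      · rw [Par.lo, if_neg (not_lt.2 (by rw [c1 r h1, gφ r h0.le]; exact r1.trans (ha h1)))]
        exact abs_nonneg _
      · have z1 := mul_le_mul_of_nonneg_left (d1 r h1 x1).1 y1
        refine le_trans ?_ (neg_le_abs _)
        rw [Par.lo, y2, ← y3]
        split_ifs <;> linarith
    · have h2 : g₁ r < g r := lt_of_le_of_ne (b1 r).2 fun e => by
        rw [e, gφ r h0.le] at h1
        exact lt_irrefl _ h1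
      have h3 : r₁ < r := not_le.1 fun e => h2.ne (c1 r e)
      rw [y2, (d1 r h3 x1).2 h2, ← y3, abs_of_nonpos (by linarith)]
      ring
  · have x0 : ∀ᵐ r : ℝ, r ≠ r₀ := by
      rw [ae_iff]
      simp
    filter_upwards [l2.ae_differentiableAt_real, m1.ae_differentiableAt_real,
      m2.ae_differentiableAt_real, x0] with r x1 x2 x3 x4 _
    obtain ⟨d, y1, y2, y3⟩ := chain h u2 x1
    have y4 : 0 ≤ d * (κ * g₂ r) := mul_nonneg y1 (mul_nonneg κ0.le (b2 r).1)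
    obtain ⟨z1, z2, z3⟩ := d2 r x4 x1
    refine ⟨?_, fun e => ?_, fun h1 => ?_, fun h1 => ?_⟩
    · have z4 := mul_le_mul_of_nonneg_left z1 y1
      rw [y2, abs_of_nonpos (mul_nonpos_of_nonneg_of_nonpos y1 a2.deriv_nonpos), ← y3]
      linarith
    · rcases lt_or_gt_of_ne x4 with h1 | h1
      · exact contact x3 x2 ((eventually_lt_nhds h1).mono fun x hx => le2 x hx.le) e
      · exact (contact x2 x3 ((eventually_gt_nhds h1).mono fun x hx => ge2 x hx.le) e.symm).symm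
    · have h2 : g₂ r < g₁ r := not_le.1 fun e => not_le.2 h1 (Ps_mono h (b1 r).1 e (u2 r).2)
      rw [y2, z2 h2, ← y3, abs_of_nonpos (by linarith)]
      ring
    · have h2 : g₁ r < g₂ r := not_le.1 fun e => not_le.2 h1 (Ps_mono h (b2 r).1 e (u1 r).2)
      rw [y2, z3 h2, ← y3, abs_of_nonpos (by nlinarith)]
      ring
  · have p0 := pp h
    have v0 := (Ee_spec h (hn (max r₀ 0))).1
    have v1 := w_lt h v0 (g1 r₀)
    have v2 := w_lt h (u2 r).1 (u2 r).2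
    have v3 := Real.rpow_le_rpow (mul_nonneg v0 (Real.exp_pos _).le) (e2 r h0).2
      (inv_pos.2 p0).le
    rw [Real.mul_rpow v0 (Real.exp_pos _).le, ← Real.exp_mul] at v3
    have v4 := Real.add_one_le_exp (-(P.Λ * κ * (r - r₀)) * P.p⁻¹)
    have v5 := Real.rpow_nonneg v0 P.p⁻¹
    have v6 : 0 ≤ P.Λ * κ * (r - r₀) * P.p⁻¹ :=
      mul_nonneg (mul_nonneg (by positivity) (sub_nonneg.2 h0)) (inv_pos.2 p0).le
    rw [← gφ r₀ hr.le, jf_Ps h v0 (g1 r₀)] at hj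
    change _ ≤ _ * P.jf (Ps P (g₂ r)) * r
    rw [jf_Ps h (u2 r).1 (u2 r).2]
    change 0 < 1 - g r₀ ^ P.p⁻¹ at v1
    change g r₀ ^ P.p⁻¹ * _ ≤ _ at v3
    change 0 ≤ g r₀ ^ P.p⁻¹ at v5
    generalize g r₀ ^ P.p⁻¹ = w at hj v1 v3 v5
    generalize g₂ r ^ P.p⁻¹ = w' at v2 v3
    have k0 : (0 : ℝ) ≤ k := Nat.cast_nonneg k
    have w1 : 1 - w' ≤ 1 - w + P.Λ * κ * (r - r₀) * P.p⁻¹ := by
      nlinarith [mul_le_mul_of_nonneg_left v4 v5]
    have w2 : √P.T * (1 - w) ≤ 6.4 * √P.a := by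
      rw [div_pow, ← mul_div_assoc, le_div_iff₀ (by positivity)] at hj
      refine le_of_sq_le_sq ?_ (by positivity)
      rw [mul_pow, mul_pow, Real.sq_sqrt (pT h).le]
      nlinarith [sq_nonneg √P.a]
    have w3 : 200 * k * P.p⁻¹ ≤ 1 / 2 := by
      rw [← div_eq_mul_inv, div_le_iff₀ p0]
      linarith [h.hp]
    have w4 : 200 * k * (1 - w) ≤ P.Λ * κ * r₀ / 2 := by
      refine le_of_mul_le_mul_left ?_ sT
      have e : √P.T * (P.Λ * κ * r₀ / 2) = P.Λ * P.T * r₀ * √P.a / 2 := by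
        rw [hκ]
        linear_combination (P.Λ * √P.a * r₀ / 2) * Real.mul_self_sqrt (pT h).le
      rw [e]
      nlinarith [mul_le_mul_of_nonneg_left w2 k0, mul_le_mul_of_nonneg_right hΛ sa.le,
        mul_nonneg k0 sa.le]
    have w5 : 0 ≤ P.Λ * κ * (r - r₀) := mul_nonneg (by positivity) (sub_nonneg.2 h0)
    have w6 : 0 ≤ P.Λ * κ * r := mul_nonneg (by positivity) (hr.le.trans h0)
    rw [← mul_div_assoc, div_mul_eq_mul_div, le_div_iff₀ v2, mul_assoc P.Λ, ← hκ]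
    nlinarith [mul_le_mul_of_nonneg_left w1 k0, mul_le_mul_of_nonneg_left w3 w5]

end Pool.Agent.MP_e4cac8_mp

end

section

/-! The first modification lowers the windowed Lagrangian. -/

open Set MeasureTheory Filter Topology

namespace Pool.Agent.MP_e4cac8_mp

namespace Rad1

theorem intLc (hI : StInt) {P : Par} (hP : P.Ok) {s : ℝ} (hs : 0 < s) {k : ℕ} {ψ : ℝ → ℝ}
    (hψ : Measurable ψ) (hL : ∀ r, 0 < r → P.Lv (ψ r)) (hF : Fin2 k ψ) :
    IntegrableOn (P.Lc k s ψ) (Ioi 0) volume := by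
  obtain ⟨⟨-, -, -, -, -, hw, my⟩, h2⟩ := hI P hP
  obtain ⟨-, -, -, cL, K, -, hK⟩ := h2 s hs
  have m1 : Measurable (P.Lc k s ψ) :=
    (cL.measurable.comp ((my.comp ((measurable_deriv ψ).prodMk hψ)).prodMk
      ((measurable_deriv ψ).prodMk hψ))).mul (measurable_id.pow_const k)
  refine Integrable.mono' ((hF.i1.add hF.i0).const_mul K) m1.aestronglyMeasurable ?_
  refine (ae_restrict_iff' measurableSet_Ioi).2 (ae_of_all _ fun r hr => ?_)
  have hr0 : (0 : ℝ) ≤ r ^ k := pow_nonneg (le_of_lt hr) k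
  obtain ⟨a1, a2, -⟩ := hw (deriv ψ r) (ψ r) (hL r hr).1
  have a3 := (hK _ (deriv ψ r) _ (hL r hr) (a1.trans a2.1) a2.2).2.2.2
  rw [Par.Lc, Real.norm_eq_abs, abs_mul, abs_of_nonneg hr0, Pi.add_apply, ← add_mul, ← mul_assoc]
  exact mul_le_mul_of_nonneg_right a3 hr0

theorem lim {Q h : ℝ → ℝ} {C : ℝ} (iQ : IntegrableOn Q (Ioi 0) volume)
    (ih : IntegrableOn h (Ioi 0) volume) (H : ∀ R, 0 < R → -(C * h R) ≤ ∫ r in (0 : ℝ)..R, Q r) :
    0 ≤ ∫ r in Ioi (0 : ℝ), Q r := by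
  by_contra hn
  push Not at hn
  obtain ⟨η, h0, h1⟩ : ∃ η : ℝ, 0 < η ∧ ∫ r in Ioi (0 : ℝ), Q r < -η :=
    ⟨-(∫ r in Ioi (0 : ℝ), Q r) / 2, by linarith, by linarith⟩
  obtain ⟨R₀, hR⟩ := eventually_atTop.1
    ((intervalIntegral_tendsto_integral_Ioi 0 iQ tendsto_id).eventually (gt_mem_nhds h1))
  have i1 : IntegrableOn (fun r => C * h r) (Ioi (max R₀ 0)) volume :=
    IntegrableOn.mono_set (ih.const_mul C) (Ioi_subset_Ioi (le_max_right _ _))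
  have i2 : IntegrableOn (fun _ : ℝ => η) (Ioi (max R₀ 0)) volume := by
    refine Integrable.mono' i1 aestronglyMeasurable_const ?_
    refine (ae_restrict_iff' measurableSet_Ioi).2 (ae_of_all _ fun r hr => ?_)
    have a1 := hR r ((le_max_left _ _).trans (le_of_lt hr))
    have a2 := H r ((le_max_right _ _).trans_lt hr)
    simp only [id] at a1
    rw [Real.norm_eq_abs, abs_of_pos h0]
    linarith
  rw [integrableOn_const_iff, Real.volume_Ioi] at i2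
  rcases i2 with h | h
  · exact h0.ne' (by simpa using h)
  · exact lt_irrefl _ h

end Rad1

open Rad1 in
theorem stRad1 (hP : StVp) (hI : StInt) (hG : StG1) (hO : StOS) : StRad1 := by
  intro P ok s sc k r₀ φ φ₁ φ₂ hk aφ lφ lv F F₁ M
  have hs : 0 < s := sc.1
  have hT : 0 < P.T := ok.hb.trans_le ok.bT
  obtain ⟨L, hL⟩ := lφ
  obtain ⟨L₁, hL₁⟩ := M.l1
  have lvs : ∀ r σ, 0 ≤ r → 0 ≤ σ → σ ≤ φ r → P.Lv σ := fun r σ hr h0 h1 =>
    ⟨h0, (pow_le_pow_left₀ h0 (h1.trans (aφ hr)) 2).trans lv.2⟩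
  have lv0 : ∀ r, 0 ≤ r → P.Lv (φ r) := fun r hr =>
    lvs r _ hr ((M.n1 r).trans (M.le1 r hr)) le_rfl
  have lv1 : ∀ r, 0 ≤ r → P.Lv (φ₁ r) := fun r hr => lvs r _ hr (M.n1 r) (M.le1 r hr)
  have i0 := intLc hI ok hs hL.continuous.measurable (fun r hr => lv0 r hr.le) F
  have i1 := intLc hI ok hs hL₁.continuous.measurable (fun r hr => lv1 r hr.le) F₁
  obtain ⟨⟨-, -, -, -, -, hw, -⟩, h2⟩ := hI P ok
  obtain ⟨-, -, cf, -, K, K0, hK⟩ := h2 s hs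
  have hf : ∀ σ, P.Lv σ → 0 ≤ P.f s (1 / 40) σ ∧ P.f s (1 / 40) σ ≤ 2 * s * (K * σ) := by
    intro σ hσ
    obtain ⟨a1, -, a2, -⟩ := hw 0 σ hσ.1
    obtain ⟨-, b1, b2, -⟩ := hK _ 0 σ hσ (a1.trans a2.1) a2.2
    exact ⟨mul_nonneg (by linarith) b1, mul_le_mul_of_nonneg_left b2 (by linarith)⟩
  obtain ⟨ε, hε⟩ : ∃ ε : ℝ, ε = s ^ 2 * P.T / 80 := ⟨_, rfl⟩
  have ε0 : 0 < ε := by rw [hε]; positivity
  have iD : IntegrableOn (fun r => φ r ^ 2 * r ^ k - φ₁ r ^ 2 * r ^ k) (Ioi 0) volume :=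
    F.i0.sub F₁.i0
  have iL : IntegrableOn (fun r => P.Lc k s φ r - P.Lc k s φ₁ r) (Ioi 0) volume := i0.sub i1
  have iQ : IntegrableOn (fun r => P.Lc k s φ r - P.Lc k s φ₁ r -
      ε * (φ r ^ 2 * r ^ k - φ₁ r ^ 2 * r ^ k)) (Ioi 0) volume := iL.sub (iD.const_mul ε)
  have key := lim (C := 2 * s * K) iQ F.i0 fun R hR => by
    refine le_trans ?_ (hO k 0 R (P.f s (1 / 40)) φ φ₁ _ hk le_rfl hR.le (cf _) ⟨L, hL⟩ ⟨L₁, hL₁⟩
      ((intervalIntegrable_iff_integrableOn_Ioc_of_le hR.le).2 (iQ.mono_set Ioc_subset_Ioi_self))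
      ?_)
    · have a0 := lv0 R hR.le
      have a1 : ∫ σ in φ₁ R..φ R, P.f s (1 / 40) σ ≤ ∫ _ in φ₁ R..φ R, 2 * s * (K * φ R) := by
        refine intervalIntegral.integral_mono_on (M.le1 R hR.le) ((cf _).intervalIntegrable _ _)
          intervalIntegrable_const fun σ hσ => ?_
        refine (hf σ (lvs R σ hR.le ((M.n1 R).trans hσ.1) hσ.2)).2.trans ?_
        gcongr
        exact hσ.2
      rw [intervalIntegral.integral_const, smul_eq_mul] at a1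
      have a2 : 0 ≤ φ₁ R * (2 * s * (K * φ R)) := mul_nonneg (M.n1 R) (by have := a0.1; positivity)
      have a3 : ∫ σ in φ₁ R..φ R, P.f s (1 / 40) σ ≤ 2 * s * K * φ R ^ 2 := by nlinarith
      have a4 := mul_le_mul_of_nonneg_right a3 (pow_nonneg hR.le k)
      rw [zero_pow (by omega), mul_zero]
      linarith
    · filter_upwards [M.d1] with r hr hm
      obtain ⟨-, b2, b3⟩ := hr hm.1
      have r0 : 0 ≤ r := hm.1.le
      have rk : 0 ≤ r ^ k := pow_nonneg r0 k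
      rcases (M.le1 r r0).eq_or_lt with c | c
      · simp [Par.Lc, b2 c, c]
      · have c1 : φ r < tl P.p P.b := lt_of_not_ge fun h => c.ne (M.eq1 r r0 h)
        have c2 := b3 c
        obtain ⟨w1, -, w2, -⟩ := hw 0 (φ r) (lv0 r r0).1
        obtain ⟨-, -, w3, -⟩ := hw 0 (φ₁ r) (M.n1 r)
        have c3 : P.yc (deriv φ₁ r) (φ₁ r) = 1 / 40 * P.bt (φ₁ r) := by
          rw [Par.yc, c2, max_eq_left w3.1, min_eq_left w3.2]
        have c4 : P.L s (1 / 40 * P.bt (φ r)) (deriv φ r) (φ r) ≤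
            P.L s (P.yc (deriv φ r) (φ r)) (deriv φ r) (φ r) :=
          hP.2 P ok s _ _ _ _ _ hs w1 w2.1 w2.2
        have c5 := (hG P ok s sc (φ r) (φ₁ r) (M.n1 r) c.le (lv0 r r0)).1 c1
        have c6 : 0 ≤ ∫ σ in φ₁ r..φ r, P.f s (1 / 40) σ :=
          intervalIntegral.integral_nonneg c.le fun σ hσ =>
            (hf σ (lvs r σ r0 ((M.n1 r).trans hσ.1) hσ.2)).1
        have c7 : 0 ≤ (∫ σ in φ₁ r..φ r, P.f s (1 / 40) σ) * (k * r ^ (k - 1)) :=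
          mul_nonneg c6 (by positivity)
        have e0 : P.L s (1 / 40 * P.bt (φ r)) (deriv φ r) (φ r) =
            -(P.f s (1 / 40) (φ r) * deriv φ r) + P.G s (1 / 40 * P.bt (φ r)) (φ r) := by
          rw [Par.L, Par.f, abs_of_nonpos aφ.deriv_nonpos]; ring
        have e1 : P.L s (1 / 40 * P.bt (φ₁ r)) (deriv φ₁ r) (φ₁ r) =
            -(P.f s (1 / 40) (φ₁ r) * deriv φ₁ r) + P.G s (1 / 40 * P.bt (φ₁ r)) (φ₁ r) := by
          rw [Par.L, Par.f, abs_of_nonpos M.a1.deriv_nonpos]; ring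
        rw [← hε] at c5
        rw [e0] at c4
        rw [Par.Lc, Par.Lc, c3, e1]
        have c8 := mul_le_mul_of_nonneg_right c4 rk
        have c9 := mul_le_mul_of_nonneg_right c5 rk
        linarith
  rw [integral_sub iL (iD.const_mul ε), integral_sub i0 i1, integral_const_mul] at key
  have D0 : ∀ r ∈ Ioi (0 : ℝ), 0 ≤ φ r ^ 2 * r ^ k - φ₁ r ^ 2 * r ^ k := fun r hr =>
    sub_nonneg.2 (mul_le_mul_of_nonneg_right
      (pow_le_pow_left₀ (M.n1 r) (M.le1 r (le_of_lt hr)) 2) (pow_nonneg (le_of_lt hr) k))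
  have D1 := setIntegral_nonneg (μ := volume) measurableSet_Ioi D0
  refine ⟨by nlinarith, fun h r hr => ?_⟩
  have D2 : ∫ r in Ioi (0 : ℝ), (φ r ^ 2 * r ^ k - φ₁ r ^ 2 * r ^ k) = 0 :=
    le_antisymm (by nlinarith) D1
  have D3 := (setIntegral_eq_zero_iff_of_nonneg_ae
    ((ae_restrict_iff' measurableSet_Ioi).2 (ae_of_all _ D0)) iD).1 D2
  have cφ := hL.continuous
  have cφ₁ := hL₁.continuous
  have D4 := Measure.eqOn_open_of_ae_eq D3 isOpen_Ioi (by fun_prop) continuousOn_const hr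
  have D5 : φ₁ r ^ 2 = φ r ^ 2 :=
    (mul_right_cancel₀ (pow_pos hr k).ne' (sub_eq_zero.1 D4)).symm
  exact (pow_left_inj₀ (M.n1 r) (lv0 r hr.le).1 two_ne_zero).1 D5

end Pool.Agent.MP_e4cac8_mp

end

section

/-! The second modification lowers the windowed Lagrangian. -/

open Set MeasureTheory Filter Topology
open scoped ENNReal NNReal

namespace Pool.Agent.MP_e4cac8_mp

namespace Rad2

theorem dom {f g : ℝ → ℝ} (hg : IntegrableOn g (Ioi 0) volume) (hf : Measurable f)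
    (h : ∀ᵐ r : ℝ, 0 < r → |f r| ≤ g r) : IntegrableOn f (Ioi 0) volume :=
  Integrable.mono' hg hf.aestronglyMeasurable ((ae_restrict_iff' measurableSet_Ioi).2 h)

theorem Leq (P : Par) (s o y t : ℝ) (hy : y ≤ 0) :
    P.L s (o * P.bt t) y t = -(P.f s o t * y) + P.G s (o * P.bt t) t := by
  simp only [Par.L, Par.f, abs_of_nonpos hy]
  ring

theorem pt {a b f₁ f₂ y₁ y₂ G₁ G₂ c I r : ℝ} {j : ℕ} (hr : 0 < r) (hA : -(f₁ * y₁) + G₁ ≤ a)
    (hB : b = -(f₂ * y₂) + G₂) (hG : c ≤ ((j + 1 : ℕ) : ℝ) / r * I + (G₁ - G₂)) :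
    -((f₁ * y₁ - f₂ * y₂) * r ^ (j + 1) + I * (((j + 1 : ℕ) : ℝ) * r ^ (j + 1 - 1))) ≤
      a * r ^ (j + 1) - b * r ^ (j + 1) - c * r ^ (j + 1) := by
  have h1 : ((j + 1 : ℕ) : ℝ) * r ^ (j + 1 - 1) = ((j + 1 : ℕ) : ℝ) / r * r ^ (j + 1) := by
    rw [Nat.add_sub_cancel, pow_succ]
    field_simp
  have h2 := mul_le_mul_of_nonneg_right hA (pow_pos hr (j + 1)).le
  have h3 := mul_le_mul_of_nonneg_right hG (pow_pos hr (j + 1)).le
  rw [h1, hB]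
  linarith

theorem intL {P : Par} {s K : ℝ} {k : ℕ} {ψ y : ℝ → ℝ}
    (cL : Continuous fun z : ℝ × ℝ × ℝ => P.L s z.1 z.2.1 z.2.2) (hψ : Continuous ψ)
    (hy : Measurable y) (F : Fin2 k ψ)
    (h : ∀ᵐ r : ℝ, 0 < r → |P.L s (y r) (deriv ψ r) (ψ r)| ≤ K * (deriv ψ r ^ 2 + ψ r ^ 2)) :
    IntegrableOn (fun r => P.L s (y r) (deriv ψ r) (ψ r) * r ^ k) (Ioi 0) volume := by
  refine dom (Integrable.const_mul (Integrable.add F.i1 F.i0) K)
    ((cL.measurable.comp (hy.prodMk ((measurable_deriv ψ).prodMk hψ.measurable))).mul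
      (measurable_id.pow_const k)) ?_
  filter_upwards [h] with r h1 hr
  have h2 := mul_le_mul_of_nonneg_right (h1 hr) (pow_pos hr k).le
  rw [abs_mul, abs_of_pos (pow_pos hr k)]
  simp only [Pi.add_apply]
  linarith

end Rad2

open Rad2 in
theorem stRad2 (hP : StVp) (hI : StInt) (hG : StG1) (hG2 : StG2) (hO : StOS) : StRad2 := by
  intro P ok s sc k r₀ φ φ₁ φ₂ hk h0 hT lv F₁ F₂ m
  obtain ⟨j, rfl⟩ : ∃ j, k = j + 1 := ⟨k - 1, by omega⟩
  obtain ⟨⟨-, -, -, -, -, win, myc⟩, hs⟩ := hI P ok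
  obtain ⟨-, -, cf, cL, K, -, hK⟩ := hs s sc.1
  have T0 : 0 < P.T := ok.hb.trans_le ok.bT
  obtain ⟨ε, hε⟩ : ∃ ε : ℝ, ε = s ^ 2 * P.T / 80 := ⟨_, rfl⟩
  have ε0 : 0 < ε := by
    have := sc.1
    rw [hε]
    positivity
  have c₁ : Continuous φ₁ := m.l1.choose_spec.continuous
  have c₂ : Continuous φ₂ := m.l2.choose_spec.continuous
  have lvm : ∀ t, 0 ≤ t → t ≤ φ₁ 0 → P.Lv t := fun t h1 h2 =>
    ⟨h1, (pow_le_pow_left₀ h1 h2 2).trans lv.2⟩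
  have b₂ : ∀ r, 0 ≤ r → φ₂ r ≤ φ₁ 0 := fun r hr => (m.a2 hr).trans (m.le2 0 le_rfl h0.le)
  have v₁ : ∀ r, 0 ≤ r → P.Lv (φ₁ r) := fun r hr => lvm _ (m.n1 r) (m.a1 hr)
  have v₂ : ∀ r, 0 ≤ r → P.Lv (φ₂ r) := fun r hr => lvm _ (m.n2 r) (b₂ r hr)
  have iA : IntegrableOn (P.Lc (j + 1) s φ₁) (Ioi 0) volume :=
    intL (K := K) (y := fun r => P.yc (deriv φ₁ r) (φ₁ r)) cL c₁
      (myc.comp ((measurable_deriv φ₁).prodMk c₁.measurable)) F₁
      (Eventually.of_forall fun r hr => by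
        obtain ⟨w1, w2, -⟩ := win (deriv φ₁ r) (φ₁ r) (m.n1 r)
        exact (hK _ _ _ (v₁ r hr.le) (w1.trans w2.1) w2.2).2.2.2)
  have iB : IntegrableOn (fun r => P.L s |deriv φ₂ r| (deriv φ₂ r) (φ₂ r) * r ^ (j + 1))
      (Ioi 0) volume :=
    intL (K := K) (y := fun r => |deriv φ₂ r|) cL c₂ (measurable_deriv φ₂).abs F₂ (by
      filter_upwards [m.d2] with r h1 hr
      exact (hK _ _ _ (v₂ r hr.le) (abs_nonneg _) (h1 hr).1).2.2.2)
  have iC : IntegrableOn (fun r => |φ₁ r ^ 2 - φ₂ r ^ 2| * r ^ (j + 1)) (Ioi 0) volume := by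
    refine IntegrableOn.congr_fun (Integrable.abs (Integrable.sub F₁.i0 F₂.i0)) (fun r hr => ?_)
      measurableSet_Ioi
    simp only [Pi.sub_apply]
    have hr' : 0 < r ^ (j + 1) := pow_pos hr (j + 1)
    rw [← sub_mul, abs_mul, abs_of_pos hr']
  obtain ⟨Q, hQ⟩ : ∃ Q : ℝ → ℝ, Q = fun r => P.Lc (j + 1) s φ₁ r -
      P.L s |deriv φ₂ r| (deriv φ₂ r) (φ₂ r) * r ^ (j + 1) -
      ε * (|φ₁ r ^ 2 - φ₂ r ^ 2| * r ^ (j + 1)) := ⟨_, rfl⟩
  have iQ : IntegrableOn Q (Ioi 0) volume :=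
    hQ ▸ Integrable.sub (Integrable.sub iA iB) (Integrable.const_mul iC ε)
  have iI : ∀ x y, 0 ≤ x → x ≤ y → IntervalIntegrable Q volume x y := fun x y hx hxy =>
    (intervalIntegrable_iff_integrableOn_Ioc_of_le hxy).2
      (iQ.mono_set fun t ht => hx.trans_lt ht.1)
  have key : ∀ o : ℝ, (∀ t, 0 ≤ t → P.Win (o * P.bt t) t) → ∀ᵐ r : ℝ, 0 < r →
      (φ₂ r ≠ φ₁ r → |deriv φ₂ r| = o * P.bt (φ₂ r) ∧ ε * |φ₁ r ^ 2 - φ₂ r ^ 2| ≤
        ((j + 1 : ℕ) : ℝ) / r * (∫ σ in φ₂ r..φ₁ r, P.f s o σ) +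
          (P.G s (o * P.bt (φ₁ r)) (φ₁ r) - P.G s (o * P.bt (φ₂ r)) (φ₂ r))) →
      -((P.f s o (φ₁ r) * deriv φ₁ r - P.f s o (φ₂ r) * deriv φ₂ r) * r ^ (j + 1) +
        (∫ σ in φ₂ r..φ₁ r, P.f s o σ) * (((j + 1 : ℕ) : ℝ) * r ^ (j + 1 - 1))) ≤ Q r := by
    intro o ho
    filter_upwards [m.d1, m.d2] with r d1 d2 hr h
    by_cases e : φ₂ r = φ₁ r
    · have e1 := (d2 hr).2.1 e
      have e2 := (d2 hr).1
      rw [e1, e] at e2
      have e3 : P.yc (deriv φ₁ r) (φ₁ r) = |deriv φ₁ r| := by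
        rw [Par.yc, max_eq_left (d1 hr).1, min_eq_left e2]
      simp [hQ, Par.Lc, e, e1, e3]
    · obtain ⟨e1, e2⟩ := h e
      have a1 := hP.2 P ok s _ _ _ (deriv φ₁ r) (φ₁ r) sc.1 (win 0 _ (m.n1 r)).1
        (ho _ (m.n1 r)).1 (ho _ (m.n1 r)).2
      rw [Leq P s o _ _ (m.a1.deriv_nonpos (x := r))] at a1
      have a2 := Leq P s o _ (φ₂ r) (m.a2.deriv_nonpos (x := r))
      rw [← e1] at a2
      have a3 := pt hr a1 a2 (e1 ▸ e2)
      simp only [hQ, Par.Lc, Par.yc]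
      linarith
  have q1 : 0 ≤ ∫ r in (0 : ℝ)..r₀, Q r := by
    have := hO (j + 1) 0 r₀ (P.f s (1 / 40)) φ₁ φ₂ Q hk le_rfl h0.le (cf _) m.l1 m.l2
      (iI _ _ le_rfl h0.le) (by
        filter_upwards [key (1 / 40) fun t ht => (win 0 t ht).2.2.1, m.d2] with r h1 d2 hr
        refine h1 hr.1 fun e => ?_
        have a1 := m.le2 r hr.1.le hr.2.le
        refine ⟨(d2 hr.1).2.2.1 (lt_of_le_of_ne a1 e), ?_⟩
        rw [abs_of_nonneg (sub_nonneg.2 (pow_le_pow_left₀ (m.n2 r) a1 2)), hε]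
        refine (hG P ok s sc _ _ (m.n2 r) a1 (v₁ r hr.1.le)).2 _ ?_
        rw [le_div_iff₀ hr.1]
        have a2 : (1 : ℝ) ≤ ((j + 1 : ℕ) : ℝ) := by exact_mod_cast hk
        nlinarith [hr.2])
    rw [le_antisymm (m.le2 r₀ h0.le le_rfl) (m.ge2 r₀ le_rfl)] at this
    simpa using this
  have q2 : ∀ R, r₀ ≤ R → 0 ≤ ∫ r in r₀..R, Q r := by
    intro R hR
    have := hO (j + 1) r₀ R (P.f s P.Λ) φ₁ φ₂ Q hk h0.le hR (cf _) m.l1 m.l2
      (iI _ _ h0.le hR) (by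
        filter_upwards [key P.Λ fun t ht => (win 0 t ht).2.2.2, m.d2] with r h1 d2 hr
        have r0 := h0.trans hr.1
        refine h1 r0 fun e => ?_
        have a1 := m.ge2 r hr.1.le
        refine ⟨(d2 r0).2.2.2 (lt_of_le_of_ne a1 (Ne.symm e)), ?_⟩
        rw [abs_of_nonpos (sub_nonpos.2 (pow_le_pow_left₀ (m.n1 r) a1 2)), hε,
          intervalIntegral.integral_symm]
        have a2 := hG2 P ok s sc _ _ (((j + 1 : ℕ) : ℝ) / r) (m.n1 r) a1 (v₂ r r0.le)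
          (by positivity) (by
            rw [← mul_div_assoc, div_le_iff₀ r0]
            exact m.rate r hr.1.le)
        linarith)
    have R0 := h0.trans_le hR
    have a1 : 0 ≤ ∫ σ in φ₁ R..φ₂ R, P.f s P.Λ σ :=
      intervalIntegral.integral_nonneg (m.ge2 R hR) fun σ hσ => by
        have b1 := (m.n1 R).trans hσ.1
        obtain ⟨w1, -, -, w2⟩ := win 0 σ b1
        have b2 := (hK _ 0 σ (lvm σ b1 (hσ.2.trans (b₂ R R0.le))) (w1.trans w2.1) le_rfl).2.1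
        have := sc.1
        rw [Par.f]
        positivity
    rw [le_antisymm (m.le2 r₀ h0.le le_rfl) (m.ge2 r₀ le_rfl), intervalIntegral.integral_same,
      intervalIntegral.integral_symm] at this
    have a2 := mul_nonneg a1 (pow_pos R0 (j + 1)).le
    linarith
  have q3 : 0 ≤ ∫ r in Ioi (0 : ℝ), Q r := by
    refine ge_of_tendsto (intervalIntegral_tendsto_integral_Ioi 0 iQ tendsto_id) ?_
    filter_upwards [eventually_ge_atTop r₀] with R hR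
    have a3 := intervalIntegral.integral_add_adjacent_intervals (iI 0 r₀ le_rfl h0.le)
      (iI r₀ R h0.le hR)
    simp only [id]
    linarith [q2 R hR]
  have e3 := integral_sub (Integrable.sub iA iB) (Integrable.const_mul iC ε)
  simp only [Pi.sub_apply] at e3
  simp only [hQ] at q3
  rw [e3, integral_sub iA iB, integral_const_mul] at q3
  have C0 : ∀ᵐ r ∂(volume.restrict (Ioi (0 : ℝ))), 0 ≤ |φ₁ r ^ 2 - φ₂ r ^ 2| * r ^ (j + 1) :=
    (ae_restrict_iff' measurableSet_Ioi).2 (Eventually.of_forall fun r hr =>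
      mul_nonneg (abs_nonneg _) (pow_pos hr _).le)
  have C1 := integral_nonneg_of_ae C0
  have C2 := mul_nonneg ε0.le C1
  refine ⟨by linarith, fun hle r hr => ?_⟩
  have C3 : ∫ r in Ioi (0 : ℝ), |φ₁ r ^ 2 - φ₂ r ^ 2| * r ^ (j + 1) = 0 :=
    le_antisymm (nonpos_of_mul_nonpos_right (by linarith) ε0) C1
  have C4 := Measure.eqOn_open_of_ae_eq ((integral_eq_zero_iff_of_nonneg_ae C0 iC).1 C3)
    isOpen_Ioi (by fun_prop) continuousOn_const hr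
  have c1 := (mul_eq_zero.1 C4).resolve_right (pow_pos hr _).ne'
  exact ((pow_left_inj₀ (m.n1 r) (m.n2 r) two_ne_zero).1 (sub_eq_zero.1 (abs_eq_zero.1 c1))).symm

end Pool.Agent.MP_e4cac8_mp

end

section

/-! Monotonicity, scaling, minimality and tangent lines of the pointwise minimiser. -/

open Set

namespace Pool.Agent.MP_e4cac8_mp

namespace Vp4

theorem conv {p U v : ℝ} (hp : 2 ≤ p) (hU : 0 ≤ U) (hv : 0 ≤ v) :
    U ^ (p - 1) * (v - U) ≤ v ^ p / p - U ^ p / p := by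
  have hp0 : 0 < p := by linarith
  rcases hU.eq_or_lt with rfl | hU
  · rw [Real.zero_rpow (by linarith), Real.zero_rpow hp0.ne']
    have := Real.rpow_nonneg hv p
    simp only [zero_mul, zero_div, sub_zero]
    positivity
  obtain ⟨x, rfl⟩ : ∃ x, v = x * U := ⟨v / U, by field_simp⟩
  have hx : 0 ≤ x := nonneg_of_mul_nonneg_left hv hU
  have hμ : 0 < U ^ (p - 1) := Real.rpow_pos_of_pos hU _
  have e1 : U ^ p = U ^ (p - 1) * U := by
    rw [← Real.rpow_add_one hU.ne']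
    congr 1
    ring
  have b := one_add_mul_self_le_rpow_one_add (s := x - 1) (by linarith) (p := p) (by linarith)
  rw [add_sub_cancel] at b
  rw [Real.mul_rpow hx hU.le, e1, ← sub_div, le_div_iff₀ hp0]
  nlinarith [mul_le_mul_of_nonneg_right b (mul_pos hμ hU).le]

theorem mini (hV : StVm) {p a M : ℝ} (hp : 2 ≤ p) (ha : 0 < a) (hM : 0 < M) (y t v : ℝ)
    (h0 : 0 ≤ v) (h1 : v ≤ M) :
    -((y / (a + Vm p a M y t)) ^ 2 * (a + Vm p a M y t)) - Vm p a M y t * t ^ 2 +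
        Vm p a M y t ^ p / p ≤
      -((y / (a + Vm p a M y t)) ^ 2 * (a + v)) - v * t ^ 2 + v ^ p / p := by
  obtain ⟨a0, a1, a2, a3, -⟩ := (hV p a M hp ha hM).2 y t
  have c := conv hp a0 h0
  rw [← div_pow] at a2 a3
  rcases a1.eq_or_lt with e | e
  · have := mul_le_mul_of_nonneg_right a2 (show 0 ≤ Vm p a M y t - v by linarith)
    nlinarith
  · rw [a3 e] at c
    nlinarith

theorem tang (hV : StVm) (P : Par) (hP : P.Ok) (s y₀ y₁ t : ℝ) :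
    2 * P.w s y₀ t * (s * y₁) + P.G s y₀ t ≤ 2 * P.w s y₁ t * (s * y₁) + P.G s y₁ t := by
  have hp : 2 ≤ P.p := by linarith [hP.hD, hP.hp]
  have hM : 0 < P.M := by linarith [hP.hb, hP.bT, hP.TM]
  obtain ⟨a0, a1, -⟩ := (hV _ _ _ hp hP.ha hM).2 (s * y₁) (s * t)
  have m := mini hV hp hP.ha hM (s * y₀) (s * t) _ a0 a1
  have hW : 0 < P.a + P.U s y₁ t := add_pos_of_pos_of_nonneg hP.ha a0
  have e : s * y₁ = P.w s y₁ t * (P.a + P.U s y₁ t) := by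
    rw [Par.w, div_mul_cancel₀ _ hW.ne']
  change -(P.w s y₀ t ^ 2 * (P.a + P.U s y₀ t)) - P.U s y₀ t * (s * t) ^ 2 +
    P.U s y₀ t ^ P.p / P.p ≤ -(P.w s y₀ t ^ 2 * (P.a + P.U s y₁ t)) - P.U s y₁ t * (s * t) ^ 2 +
    P.U s y₁ t ^ P.p / P.p at m
  rw [e]
  unfold Par.G
  nlinarith [mul_nonneg (sq_nonneg (P.w s y₁ t - P.w s y₀ t)) hW.le]

theorem wmono (hV : StVm) (P : Par) (hP : P.Ok) {s y₀ y₁ : ℝ} (t : ℝ) (hs : 0 < s) (h : y₀ ≤ y₁) :
    P.w s y₀ t ≤ P.w s y₁ t := by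
  rcases h.eq_or_lt with rfl | h
  · exact le_rfl
  have a := tang hV P hP s y₀ y₁ t
  have b := tang hV P hP s y₁ y₀ t
  by_contra hc
  have := mul_pos (sub_pos.2 (not_le.1 hc)) (mul_pos hs (sub_pos.2 h))
  nlinarith

end Vp4

open Vp4 in
theorem stVp (hV : StVm) : StVp := by
  refine ⟨fun p a M hp ha hM => ⟨fun y t y' t' hy ht => ?_, fun c y t hc => ?_,
    mini hV hp ha hM⟩, fun P hP s l h y' y t hs _ h1 h2 => ?_⟩
  · obtain ⟨a0, a1, a2, -⟩ := (hV p a M hp ha hM).2 y t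
    refine le_csSup ⟨M, fun _ hv => hv.1.2⟩ ⟨⟨a0, a1⟩, a2.trans ?_⟩
    exact add_le_add (sq_le_sq.2 ht) (div_le_div_of_nonneg_right (sq_le_sq.2 hy) (sq_nonneg _))
  · obtain ⟨a0, a1, -, a3, -⟩ := (hV p a M hp ha hM).2 y t
    obtain ⟨b0, b1, b2, -⟩ := (hV p a M hp ha hM).2 (c * y) (c * t)
    have hq : 0 < p - 1 := by linarith
    have k1 : 1 ≤ c ^ (2 / (p - 1)) := Real.one_le_rpow hc (by positivity)
    have k2 : (c ^ (2 / (p - 1))) ^ (p - 1) = c ^ 2 := by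
      rw [← Real.rpow_mul (by linarith), div_mul_cancel₀ _ hq.ne', Real.rpow_two]
    have k3 := le_mul_of_one_le_left a0 k1
    rcases a1.eq_or_lt with e | e
    · linarith
    by_contra hn
    rw [not_le] at hn
    have c1 := Real.rpow_lt_rpow (by linarith) hn hq
    rw [Real.mul_rpow (by linarith) a0, k2, a3 e] at c1
    have c2 : (c * y) ^ 2 / (a + Vm p a M (c * y) (c * t)) ^ 2 ≤
        (c * y) ^ 2 / (a + Vm p a M y t) ^ 2 :=
      div_le_div_of_nonneg_left (sq_nonneg _) (by positivity)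
        (pow_le_pow_left₀ (by positivity) (by linarith) 2)
    have c3 : c ^ 2 * (t ^ 2 + y ^ 2 / (a + Vm p a M y t) ^ 2) =
        (c * t) ^ 2 + (c * y) ^ 2 / (a + Vm p a M y t) ^ 2 := by ring
    linarith
  · have a := tang hV P hP s y' (min (max |y| l) h) t
    have b : 0 ≤ (P.w s (min (max |y| l) h) t - P.w s y' t) * (|y| - min (max |y| l) h) := by
      rcases le_total |y| l with c | c
      · rw [max_eq_right c, min_eq_left (h1.trans h2)]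
        exact mul_nonneg_of_nonpos_of_nonpos (sub_nonpos.2 (wmono hV P hP t hs h1)) (sub_nonpos.2 c)
      · rw [max_eq_left c]
        rcases le_total |y| h with d | d
        · rw [min_eq_left d, sub_self, mul_zero]
        · rw [min_eq_right d]
          exact mul_nonneg (sub_nonneg.2 (wmono hV P hP t hs h2)) (sub_nonneg.2 d)
    unfold Par.L
    nlinarith [mul_nonneg hs.le b]

end Pool.Agent.MP_e4cac8_mp

end
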