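import Pool.Agent.Mg.Fe4cac8.G9fbb9e
import Pool.Agent.Mg.Fe4cac8.G7be784

set_option linter.all false

/-! The comparison with the rearrangement near the bottom of the gap. -/

open Set MeasureTheory Filter Topology
open scoped ENNReal NNReal
open Pool.Agent.MP_0b7119_mp.G

namespace Pool.Agent.MP_e4cac8_mp

set_option linter.unusedSectionVars false

variable {E S : Type} [NormedAddCommGroup E] [InnerProductSpace ℝ E] [FiniteDimensional ℝ E]
  [MeasurableSpace E] [BorelSpace E] [NormedAddCommGroup S] [InnerProductSpace ℂ S]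
  [CompleteSpace S] [FiniteDimensional ℂ S] {d : ℕ}
  {e : OrthonormalBasis (Fin d) ℝ E} {α : Fin d → S →L[ℂ] S} {β : S →L[ℂ] S} {m : ℝ}

theorem Cmp4.lin {X : Type} [MeasurableSpace X] {μ : Measure X} {f₁ f₂ g f₃ h₁ h₂ : X → ℝ}
    (c₁ c₂ c₃ : ℝ) (i₁ : Integrable f₁ μ) (i₂ : Integrable f₂ μ) (j : Integrable g μ)
    (i₃ : Integrable f₃ μ) (k₁ : Integrable h₁ μ) (k₂ : Integrable h₂ μ) :
    Integrable (fun x => c₁ * f₁ x - f₂ x + c₂ * g x - c₁ * f₃ x - c₃ * (h₁ x - h₂ x)) μ ∧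
    ∫ x, (c₁ * f₁ x - f₂ x + c₂ * g x - c₁ * f₃ x - c₃ * (h₁ x - h₂ x)) ∂μ =
      c₁ * ∫ x, f₁ x ∂μ - ∫ x, f₂ x ∂μ + c₂ * ∫ x, g x ∂μ -
        c₁ * ∫ x, f₃ x ∂μ - c₃ * (∫ x, h₁ x ∂μ - ∫ x, h₂ x ∂μ) := by
  have a1 : Integrable (fun x => c₁ * f₁ x - f₂ x) μ := (i₁.const_mul _).sub i₂
  have a3 : Integrable (fun x => c₁ * f₁ x - f₂ x + c₂ * g x) μ := a1.add (j.const_mul _)
  have a4 : Integrable (fun x => c₁ * f₁ x - f₂ x + c₂ * g x - c₁ * f₃ x) μ :=
    a3.sub (i₃.const_mul _)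
  have a5 : Integrable (fun x => c₃ * (h₁ x - h₂ x)) μ := (k₁.sub k₂).const_mul _
  refine ⟨a4.sub a5, ?_⟩
  rw [integral_sub a4 a5, integral_sub a3 (i₃.const_mul _), integral_add a1 (j.const_mul _),
    integral_sub (i₁.const_mul _) i₂]
  simp only [integral_const_mul, integral_sub k₁ k₂]

theorem Cmp4.consts {D Λ C p s : ℝ} (hD : 2 ≤ D) (hΛ : 5 ≤ Λ) (hC : 1 ≤ C) (hp : 5 ≤ p)
    (hs : 0 < s) (h : 25 * 10 ^ 17 * D ^ 4 * C ^ 2 * Λ ^ 6 ≤ (1 + 1 / (32 * D)) ^ (p - 5)) :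
    256 * Λ ^ 2 * (1 / (500000 * D ^ 2 * C * Λ ^ 2)) ^ 2 ≤ 1 ∧
      10 ^ 7 * Λ ^ 2 ≤ (1 / (500000 * D ^ 2 * C * Λ ^ 2)) ^ 2 * (1 + 1 / (2 * D)) ^ (p - 4) ∧
      3 * D * (1 / (500000 * D ^ 2 * C * Λ ^ 2)) * s ^ 2 * (C / (1 / (128 * Λ ^ 2))) <
        s ^ 2 / (1256 * D) := by
  have hD0 : 0 < D := by linarith
  have hΛ0 : 0 < Λ := by linarith
  have hC0 : 0 < C := by linarith
  refine ⟨?_, ?_, ?_⟩
  · rw [div_pow, one_pow, ← mul_div_assoc, mul_one, div_le_one (by positivity),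
      show 256 * Λ ^ 2 = (16 * Λ) ^ 2 by ring]
    refine pow_le_pow_left₀ (by positivity) ?_ 2
    have h1 : 1 ≤ D ^ 2 * C * Λ := one_le_mul_of_one_le_of_one_le
      (one_le_mul_of_one_le_of_one_le (one_le_pow₀ (by linarith)) hC) (by linarith)
    nlinarith
  · have h1 : (1 + 1 / (32 * D)) ^ (p - 5) ≤ (1 + 1 / (2 * D)) ^ (p - 4) := by
      have h2 : 1 / (32 * D) ≤ 1 / (2 * D) := one_div_le_one_div_of_le (by positivity) (by linarith)
      have h3 : 0 < 1 / (32 * D) := by positivity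
      exact (Real.rpow_le_rpow (by positivity) (by linarith) (by linarith)).trans
        (Real.rpow_le_rpow_of_exponent_le (by linarith) (by linarith))
    refine le_trans (le_of_eq ?_) (mul_le_mul_of_nonneg_left (h.trans h1) (by positivity))
    field_simp
    ring
  · have e : 3 * D * (1 / (500000 * D ^ 2 * C * Λ ^ 2)) * s ^ 2 * (C / (1 / (128 * Λ ^ 2))) =
        s ^ 2 / (500000 / 384 * D) := by
      field_simp
      ring
    rw [e]
    exact div_lt_div_of_pos_left (by positivity) (by positivity) (by linarith)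

theorem Cmp4.meas_Low {u w : E → S} {V : E → ℝ} (hu : Continuous u) (hw : Continuous w)
    (hV : Measurable V) (a T c : ℝ) : MeasurableSet (Low4 a T c V u w) :=
  (measurableSet_lt measurable_const hu.norm.measurable).inter
    (measurableSet_le ((hu.norm.measurable.pow_const 2).const_mul T) (((hV.const_add a).mul
      ((hu.norm.measurable.pow_const 2).add (hw.norm.measurable.pow_const 2))).const_mul c))

open Cmp in
theorem stCmp4 (hc : Ctx α β m) (hV : StVm) (hN : StNL e α) (hA : StAlg e α) (hA2 : StAlg2 e α)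
    (hI : StInt) (hAv : StAv) (hPt : StPt4) (hRad : StRad4) (hM1 : StMass1 e α) (hM2 : StMass2 E)
    (hNB : StNB4 e α) : StCmp4 e α := by
  obtain ⟨C, hC1, hNB⟩ := hNB
  have hd : (2 : ℝ) ≤ d := by exact_mod_cast hc.two
  refine ⟨25 * 10 ^ 17 * d ^ 4 * C ^ 2, by positivity, ?_⟩
  intro P A M₀ r₀ V u w L φ y hP hD hB h0 hM hr₀ hr1 hr2 hr3 hVp hVM hu hpair hR hre
  have ha := hP.ha
  have hb := hP.hb
  have hp8 : 800 ≤ P.p := by linarith [hP.hp, hP.hD]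
  have hp : 2 ≤ P.p := by linarith
  have hM0 : 0 < P.M := by linarith [hP.TM, hP.bT]
  have hM' : M₀ < P.M := by linarith
  have hT0 : 0 < P.T := by linarith [hP.bT]
  obtain ⟨⟨mg, -, -, mq, cZ, -⟩, hZ, hpt, -⟩ := hA u hu.reg
  have hvm : ∀ s y t, 0 ≤ P.U s y t := fun s y t => ((hV _ _ _ hp ha hM0).2 _ _).1
  have hcp : (0 : ℝ) < Module.finrank ℝ E * om E := by
    rw [finrank_eq e]
    exact mul_pos (by linarith) om_pos
  have cu : Continuous u := hu.reg.c1.continuous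
  have cw := hpair.rw.c1.continuous
  have mρ : Measurable fun x => ‖u x‖ := cu.norm.measurable
  have my : Measurable fun x => y ‖u x‖ := hre.meas.comp mρ
  have hΩ : MeasurableSet {x | 0 < ‖u x‖} := measurableSet_lt measurable_const mρ
  have hΩ' : {x | u x ≠ 0} = {x | 0 < ‖u x‖} := by
    ext x
    exact norm_pos_iff.symm
  have iρ : Integrable (fun x => ‖u x‖ ^ 2) volume := JD.int_sq hu.reg.l2
  have hG0 : ∀ x, 0 ≤ G2 e u x := fun x => Finset.sum_nonneg fun _ _ => sq_nonneg _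
  have hg0 : ∀ x, 0 ≤ gf u x := fun x => norm_nonneg _
  have hq := Vc3.hq hc hA hu.reg
  have iG := hu.reg.dl2.integrableOn (s := {x | 0 < ‖u x‖})
  have ig : IntegrableOn (fun x => gf u x ^ 2) {x | 0 < ‖u x‖} volume :=
    iG.mono' (mg.pow_const 2).aestronglyMeasurable (by
      filter_upwards [ae_restrict_mem hΩ] with x hx
      rw [Real.norm_of_nonneg (sq_nonneg _)]
      exact (hq x hx).2.2)
  have iq : IntegrableOn (qf e u) {x | 0 < ‖u x‖} volume := iG.sub ig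
  have iy := int_y mρ hre iρ ig
  have hW : ∀ x, 0 < P.a + V x := fun x => by linarith [hVp.nonneg x]
  have hWT : ∀ x, P.a + V x ≤ P.T := fun x => by linarith [hVM x, hP.aM]
  have bdd : ∀ {μ : Measure E} {f w : E → ℝ} (K : ℝ), Integrable f μ → Measurable w →
      (∀ x, |w x| ≤ K) → Integrable (fun x => w x * f x) μ := fun K hf hw hK =>
    hf.bdd_mul hw.aestronglyMeasurable (Eventually.of_forall hK)
  have binv : ∀ v : ℝ, 0 ≤ v → |1 / (P.a + v)| ≤ 1 / P.a := fun v hv => by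
    rw [abs_of_pos (by positivity)]
    exact one_div_le_one_div_of_le ha (by linarith)
  have dv : ∀ {μ : Measure E} {f : E → ℝ}, Integrable f μ →
      Integrable (fun x => f x / (P.a + V x)) μ := fun hf => by
    simpa only [one_div_mul_eq_div] using bdd (w := fun x => 1 / (P.a + V x)) (1 / P.a) hf
      ((hVp.meas.const_add _).const_div 1) fun x => binv _ (hVp.nonneg x)
  have iZ : Integrable (fun x => ‖Zf e α u x‖ ^ 2) volume :=
    (hu.reg.dl2.const_mul d).mono' (cZ.norm.pow 2).aestronglyMeasurable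
      (Eventually.of_forall fun x => by rw [Real.norm_of_nonneg (sq_nonneg _)]; exact hZ x)
  have iZW := dv iZ
  have iU : Integrable (fun x => (V x - P.b) * ‖u x‖ ^ 2) volume :=
    bdd (M₀ + P.b) iρ (hVp.meas.sub_const _) fun x =>
      abs_le.mpr ⟨by linarith [hVp.nonneg x], by linarith [hVM x]⟩
  have hpos := Vc3.pos_int ha hb hp hVp hu iZW iU
  have hJI : ∫ x in {x | 0 < ‖u x‖}, V x ^ P.p ≤ ∫ x, V x ^ P.p :=
    setIntegral_le_integral hVp.int (Eventually.of_forall fun x =>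
      Real.rpow_nonneg (hVp.nonneg x) _)
  obtain ⟨a1, a2, a3, a4⟩ := hM1 _ _ _ A M₀ V u w ha hb (by linarith) hVp hVM hu hpair
  have hk : 1 ≤ Module.finrank ℝ E - 1 := by
    rw [finrank_eq e]
    have := hc.two
    omega
  have hk' : ((Module.finrank ℝ E - 1 : ℕ) : ℝ) ≤ d := by
    rw [finrank_eq e]
    exact_mod_cast Nat.sub_le d 1
  obtain ⟨b1, b2, b3⟩ := hM2 _ _ M₀ _ r₀ L _ φ y (by omega) hp hb h0 (hpos.trans_le hJI) hr₀ cu.norm
    (fun x => ⟨norm_nonneg _, a3 x⟩) iρ hre a4 (by rwa [finrank_eq e])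
  obtain ⟨t0, t0'⟩ := transfer2 mρ hre (G := fun _ t => t ^ 2) (by fun_prop) (fun _ _ => rfl)
    (by simp) hcp iρ.integrableOn
  obtain ⟨t1, -⟩ := transfer2 mρ hre (G := fun s _ => s ^ 2) (hre.meas.pow_const 2)
    (fun _ _ => neg_sq _) (by simp) hcp iy
  obtain ⟨s, hsc, hT, hT2⟩ := hRad P hP _ _ A _ _ r₀ φ hk (hD ▸ hk') hcp (hpos.trans_le hJI) a1 hJI
    (hJI.trans hVp.le) hr₀ hr1 (by linarith) hR hre.anti ⟨L, hre.lip⟩ hre.nonneg ⟨t0, t1⟩
    (b1.trans (Real.rpow_le_rpow h0 (by linarith) (by linarith)))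
    (by
      rw [← t0']
      exact (mul_le_mul_of_nonneg_left (setIntegral_le_integral iρ
        (Eventually.of_forall fun x => sq_nonneg _)) hb.le).trans a2) b2 b3
  have hs := hsc.1
  obtain ⟨⟨-, -, -, -, -, hwin, myc⟩, hI⟩ := hI P hP
  obtain ⟨cU, cW, -, cL, K, hK0, hK⟩ := hI s hs
  have lv : ∀ x, P.Lv ‖u x‖ := fun x =>
    ⟨norm_nonneg _, (a3 x).trans (Real.rpow_le_rpow h0 (by linarith [hP.aM]) (by linarith))⟩
  have y0 : ∀ σ t, 0 ≤ t → 0 ≤ P.yc σ t := fun σ t ht => (hwin σ t ht).1.trans (hwin σ t ht).2.1.1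
  have hK' := fun σ z t (ht : P.Lv t) => hK _ z t ht (y0 σ t ht.1) (hwin σ t ht.1).2.1.2
  have mY : Measurable fun t => P.yc (y t) t := myc.comp (hre.meas.prodMk measurable_id)
  have mv : Measurable fun t => P.U s (P.yc (y t) t) t := cU.measurable.comp (mY.prodMk measurable_id)
  have mw : Measurable fun t => P.w s (P.yc (y t) t) t := cW.measurable.comp (mY.prodMk measurable_id)
  have mL : Measurable fun t => P.L s (P.yc (y t) t) (y t) t :=
    cL.measurable.comp (mY.prodMk (hre.meas.prodMk measurable_id))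
  have hav := fun x (hx : 0 < ‖u x‖) => hAv P hP s hsc (fun t => P.yc (y t) t) _ mY hx (lv x)
    fun σ hσ => (hwin _ σ hσ).2.1
  have mwρ : Measurable fun x => P.w s (P.yc (y ‖u x‖) ‖u x‖) ‖u x‖ := mw.comp mρ
  have iw : IntegrableOn (fun x => P.w s (P.yc (y ‖u x‖) ‖u x‖) ‖u x‖ ^ 2) {x | 0 < ‖u x‖}
      volume :=
    (iρ.integrableOn.const_mul (K ^ 2)).mono' (mwρ.pow_const 2).aestronglyMeasurable
      (Eventually.of_forall fun x => by
        rw [Real.norm_of_nonneg (sq_nonneg _), ← mul_pow]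
        exact pow_le_pow_left₀ (hK' _ 0 _ (lv x)).2.1 (hK' _ 0 _ (lv x)).2.2.1 2)
  have imul : ∀ f : E → ℝ, Measurable f → IntegrableOn (fun x => f x ^ 2) {x | 0 < ‖u x‖} volume →
      IntegrableOn (fun x => P.w s (P.yc (y ‖u x‖) ‖u x‖) ‖u x‖ * f x) {x | 0 < ‖u x‖}
        volume := fun f mf hf =>
    (iw.add hf).mono' (mwρ.mul mf).aestronglyMeasurable (Eventually.of_forall fun x => by
      simp only [Pi.add_apply]
      generalize P.w s (P.yc (y ‖u x‖) ‖u x‖) ‖u x‖ = z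
      rw [Real.norm_eq_abs, abs_le]
      constructor <;> nlinarith [sq_nonneg (z - f x), sq_nonneg (z + f x)])
  have i4 := imul _ mg ig
  have i5 := imul _ my iy
  have ya : ∀ t, |y t| = y t := fun t => abs_of_nonneg (hre.ynn t).1
  have i2 : IntegrableOn (fun x => P.L s (P.yc (y ‖u x‖) ‖u x‖) (y ‖u x‖) ‖u x‖) {x | 0 < ‖u x‖}
      volume :=
    ((iy.add iρ.integrableOn).const_mul K).mono' (mL.comp mρ).aestronglyMeasurable
      (Eventually.of_forall fun x => (hK' _ _ _ (lv x)).2.2.2)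
  have hiso := iso_real hre (C := fun t => P.w s (P.yc (y t) (max t 0)) (max t 0))
    (cW.measurable.comp ((myc.comp (hre.meas.prodMk (measurable_id.max measurable_const))).prodMk
      (measurable_id.max measurable_const)))
    (fun t => div_nonneg (mul_nonneg hs.le (y0 _ _ (le_max_right _ _)))
      (add_nonneg ha.le (hvm _ _ _)))
    (by simpa only [max_eq_left (norm_nonneg _)] using i5)
    (by simpa only [max_eq_left (norm_nonneg _), gf] using i4)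
  simp only [max_eq_left (norm_nonneg _)] at hiso
  set κ : ℝ → ℝ := fun τ => 1 / (P.a + P.U s (P.yc (y √τ) √τ) √τ) with hκ
  have mκ : Measurable κ := ((mv.comp measurable_id.sqrt).const_add _).const_div 1
  have bκ : ∀ τ, |κ τ| ≤ 1 / P.a := fun τ => binv _ (hvm _ _ _)
  have κ0 : ∀ τ, 0 ≤ κ τ := fun τ => div_nonneg zero_le_one (add_nonneg ha.le (hvm _ _ _))
  have hnl := hN u hu.reg κ mκ ⟨_, bκ⟩
  rw [hΩ'] at hnl
  have i3 := Vc3.int_nl hc hA hu.reg mκ κ0 bκ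
  have lv0 : P.Lv 0 := ⟨le_rfl, by rw [sq, mul_zero]; positivity⟩
  obtain ⟨-, t3⟩ := transfer2 mρ hre (G := fun σ t => P.L s (P.yc σ t) σ t) mL
    (fun _ _ => by simp only [Par.L, Par.yc, abs_neg])
    (abs_nonpos_iff.mp (by simpa using (hK' 0 0 0 lv0).2.2.2)) hcp i2
  have i6 : IntegrableOn (fun x => (P.yc (y ‖u x‖) ‖u x‖ - |y ‖u x‖|) ^ 2) {x | 0 < ‖u x‖} volume :=
    ((iρ.integrableOn.const_mul (K ^ 2)).add iy).mono'
      (((mY.comp mρ).sub (continuous_abs.measurable.comp my)).pow_const 2).aestronglyMeasurable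
      (Eventually.of_forall fun x => by
        rw [Real.norm_of_nonneg (sq_nonneg _), ya]
        have h1 := pow_le_pow_left₀ (y0 _ _ (norm_nonneg _)) (hK' (y ‖u x‖) 0 _ (lv x)).1 2
        have h2 := mul_nonneg (y0 (y ‖u x‖) _ (norm_nonneg (u x))) (hre.ynn ‖u x‖).1
        simp only [Pi.add_apply]
        linarith)
  obtain ⟨-, t4⟩ := transfer2 mρ hre (G := fun σ t => (P.yc σ t - |σ|) ^ 2)
    ((mY.sub (continuous_abs.measurable.comp hre.meas)).pow_const 2)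
    (fun _ _ => by simp only [Par.yc, abs_neg])
    (by simpa using le_antisymm (by simpa using (hK' 0 0 0 lv0).1) (y0 0 0 le_rfl)) hcp i6
  have hsplit := integral_add_compl hΩ (iZW.sub iU)
  have hcompl : ∫ x in {x | 0 < ‖u x‖}ᶜ,
      (‖Zf e α u x‖ ^ 2 / (P.a + V x) - (V x - P.b) * ‖u x‖ ^ 2) =
      ∫ x in {x | 0 < ‖u x‖}ᶜ, ‖Zf e α u x‖ ^ 2 / (P.a + V x) :=
    setIntegral_congr_fun hΩ.compl fun x hx => by
      have : ‖u x‖ = 0 := le_antisymm (not_lt.mp hx) (norm_nonneg _)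
      simp [this]
  have hZ0 : ∀ x, 0 ≤ ‖Zf e α u x‖ ^ 2 / (P.a + V x) := fun x => div_nonneg (sq_nonneg _) (hW x).le
  have hc0 : 0 ≤ ∫ x in {x | 0 < ‖u x‖}ᶜ, ‖Zf e α u x‖ ^ 2 / (P.a + V x) := integral_nonneg hZ0
  simp only [Pi.sub_apply] at hsplit
  rw [hcompl] at hsplit
  obtain ⟨X, hX⟩ : ∃ X : E → ℝ, ∀ x, X x = Xc P.p P.a (s * ‖u x‖) (V x)
    (P.U s (P.yc (y ‖u x‖) ‖u x‖) ‖u x‖) (P.w s (P.yc (y ‖u x‖) ‖u x‖) ‖u x‖)
    (avg κ (‖u x‖ ^ 2)) (s * gf u x) (s ^ 2 * Pf e α u x) (s ^ 2 * nf e α u x)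
    (s ^ 2 * qf e u x) := ⟨_, fun _ => rfl⟩
  have hzu : ∀ᵐ x, ‖Zf e α u x‖ ^ 2 = ((P.a + V x) * ‖w x‖) ^ 2 := by
    filter_upwards [hpair.zu] with x hx
    rw [hx, norm_smul, norm_smul, Complex.norm_I, one_mul, Complex.norm_real,
      Real.norm_of_nonneg (hW x).le]
  rw [← hD] at hB
  obtain ⟨c1, c2, c4⟩ := Cmp4.consts hP.hD hP.hΛ hC1 (by linarith) hs hB
  have hΛ0 : 0 < P.Λ := by linarith [hP.hΛ]
  have hD0 : 0 < P.D := by linarith [hP.hD]
  have hε : 0 < 1 / (500000 * P.D ^ 2 * C * P.Λ ^ 2) := by positivity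
  generalize 1 / (500000 * P.D ^ 2 * C * P.Λ ^ 2) = ε at c1 c2 c4 hε
  have hXp := fun x (hx : 0 < ‖u x‖) (h1 : V x ^ (P.p - 1) = ‖u x‖ ^ 2 + ‖w x‖ ^ 2)
      (h2 : ‖Zf e α u x‖ ^ 2 = ((P.a + V x) * ‖w x‖) ^ 2) =>
    hPt P hP s _ _ _ _ _ _ _ _ _ ε _ hsc hx (lv x) (hwin _ _ hx.le).2.1 (hVp.nonneg x)
      ((hVM x).trans_lt hM') (hav x hx).1 (hav x hx).2 (hg0 x)
      (sq_nonneg _) (hpt x (norm_pos_iff.mp hx)).2.1 (hD ▸ (hpt x (norm_pos_iff.mp hx)).2.2.1)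
      (hD ▸ hA2 u hu.reg x (norm_pos_iff.mp hx)) h1
      ((hpt x (norm_pos_iff.mp hx)).1.symm.trans h2) hε c1 c2 (hX x)
  have hXe : X =ᵐ[volume.restrict {x | 0 < ‖u x‖}] fun x =>
      s ^ 2 * (‖Zf e α u x‖ ^ 2 / (P.a + V x) - (V x - P.b) * ‖u x‖ ^ 2) -
      P.L s (P.yc (y ‖u x‖) ‖u x‖) (y ‖u x‖) ‖u x‖ + P.p⁻¹ * V x ^ P.p -
      s ^ 2 * (avg κ (‖u x‖ ^ 2) * (nf e α u x - qf e u x) + κ (‖u x‖ ^ 2) * (2 * Pf e α u x)) -
      2 * s * (P.w s (P.yc (y ‖u x‖) ‖u x‖) ‖u x‖ * gf u x -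
        P.w s (P.yc (y ‖u x‖) ‖u x‖) ‖u x‖ * y ‖u x‖) := by
    filter_upwards [ae_restrict_mem hΩ] with x hx
    simp only [hX, Xc, Par.L, Par.G, hκ, Real.sqrt_sq (norm_nonneg _),
      (hpt x (norm_pos_iff.mp hx)).1, ya]
    ring
  obtain ⟨k4, k5⟩ := Cmp4.lin (μ := volume.restrict {x | 0 < ‖u x‖})
    (f₁ := fun x => ‖Zf e α u x‖ ^ 2 / (P.a + V x) - (V x - P.b) * ‖u x‖ ^ 2) (s ^ 2) P.p⁻¹ (2 * s)
    (iZW.sub iU).restrict i2.integrable hVp.int.restrict i3.integrable i4.integrable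
    i5.integrable
  rw [← integral_congr_ae hXe, hnl, t3, ← div_eq_inv_mul] at k5
  have iX := k4.congr hXe.symm
  have s2 : 0 < s ^ 2 := by positivity
  have m2 := mul_nonneg s2.le hc0
  have m3 := mul_nonneg hs.le (sub_nonneg.mpr hiso)
  have m4 := mul_le_mul_of_nonneg_left (hsplit.le.trans hu.en) s2.le
  have hiso' : ∫ x in {x | 0 < ‖u x‖}, P.w s (P.yc (y ‖u x‖) ‖u x‖) ‖u x‖ * gf u x =
      ∫ x in {x | 0 < ‖u x‖}, P.w s (P.yc (y ‖u x‖) ‖u x‖) ‖u x‖ *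
        ‖fderiv ℝ (fun x => ‖u x‖) x‖ := rfl
  rw [hiso'] at k5
  simp only [Par.Lc] at hT hT2
  have hc1 : 0 < 1 / (128 * P.Λ ^ 2) := by positivity
  have c3 : 2 * (1 / (128 * P.Λ ^ 2)) < 1 := by
    rw [mul_one_div, div_lt_one (by positivity)]
    nlinarith [hP.hΛ]
  generalize 1 / (128 * P.Λ ^ 2) = c at hXp c4 hc1 c3
  have hKε : 0 ≤ (P.T / P.a) ^ 2 / ε := by positivity
  have hnb := hNB _ _ _ _ c _ V u w hp ha hb.le hP.bT hVp.meas
    (fun x => ⟨hVp.nonneg x, hWT x⟩) hpair hc1 c3.le hKε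
  have sub : Low4 P.a P.T (c / 2) V u w ⊆ Low4 P.a P.T c V u w := fun x hx =>
    ⟨hx.1, hx.2.trans (mul_le_mul_of_nonneg_right (by linarith)
      (mul_nonneg (hW x).le (by positivity)))⟩
  have hnull := Vc3.absorb (Ω := {x | 0 < ‖u x‖}) (c := s ^ 2 / (1256 * P.D))
    (C := 3 * P.D * ε * s ^ 2) (Cmp4.meas_Low cu cw hVp.meas _ _ _)
    (Cmp4.meas_Low cu cw hVp.meas _ _ _) sub (fun x hx => hx.1) iX (dv iG)
    (dv (bdd (w := fun x => min √((P.a + V x) * (‖u x‖ ^ 2 + ‖w x‖ ^ 2) / (P.T * ‖u x‖ ^ 2))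
      ((P.T / P.a) ^ 2 / ε)) _ iq ((((hVp.meas.const_add _).mul ((mρ.pow_const 2).add
        (cw.norm.measurable.pow_const 2))).div ((mρ.pow_const 2).const_mul _)).sqrt.min
        measurable_const) fun x => (abs_of_nonneg (le_min (Real.sqrt_nonneg _) hKε)).trans_le
        (min_le_right _ _)))
    (fun x => div_nonneg (hG0 x) (hW x).le) (by linarith) (by
      filter_upwards [ae_restrict_mem hΩ, ae_restrict_of_ae hpair.el, ae_restrict_of_ae hzu]
        with x hx h1 h2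
      obtain ⟨q1, q2⟩ := hXp x hx h1 h2
      have h3 : qf e u x + gf u x ^ 2 = G2 e u x := sub_add_cancel _ _
      rw [h3] at q1 q2
      exact ⟨fun h => q1 h.2, fun h => ⟨(q2 fun h' => h ⟨hx, h'⟩).1,
        fun h4 => (q2 fun h' => h ⟨hx, h'⟩).2.1 h4.2⟩⟩)
    ((mul_le_mul_of_nonneg_left hnb (by positivity)).trans_eq (mul_assoc _ _ _).symm) c4
  have hXq : ∀ᵐ x ∂volume.restrict {x | 0 < ‖u x‖}, 0 ≤ X x ∧ (X x = 0 →
      V x = P.U s (P.yc (y ‖u x‖) ‖u x‖) ‖u x‖ ∧ gf u x = P.yc (y ‖u x‖) ‖u x‖) := by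
    filter_upwards [ae_restrict_mem hΩ, ae_restrict_of_ae hpair.el, ae_restrict_of_ae hzu,
      ae_restrict_of_ae hnull] with x hx h1 h2 h3
    have h4 := (hXp x hx h1 h2).2 fun h' => by
      have h5 := sub ⟨hx, h'⟩
      have h6 := hZ x
      rw [(div_eq_zero_iff.mp (h3 h5)).resolve_right (hW x).ne', mul_zero, h2] at h6
      have h7 : ‖w x‖ = 0 := (mul_eq_zero.mp (pow_eq_zero_iff two_ne_zero |>.mp
        (le_antisymm h6 (sq_nonneg _)))).resolve_left (hW x).ne'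
      have h8 := h5.2
      rw [h7, zero_pow two_ne_zero, add_zero] at h8
      have h9 := pow_pos (show 0 < ‖u x‖ from hx) 2
      have h10 := mul_le_mul_of_nonneg_left (mul_le_mul_of_nonneg_right (hWT x) h9.le) hc1.le
      have h11 := mul_lt_mul_of_pos_right c3 (mul_pos hT0 h9)
      linarith [mul_pos hT0 h9]
    exact ⟨h4.1, h4.2.2⟩
  have hX0 : 0 ≤ᵐ[volume.restrict {x | 0 < ‖u x‖}] X := hXq.mono fun x hx => hx.1
  have hI0 := integral_nonneg_of_ae hX0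
  obtain ⟨hprof, hin⟩ := hT2 (by linarith)
  refine ⟨s, hs, hprof, ?_, ?_⟩
  · have h1 := (integral_eq_zero_iff_of_nonneg_ae hX0 iX).mp (le_antisymm (by linarith) hI0)
    rw [integral_eq_zero_of_ae (f := fun r => (P.yc (deriv φ r) (φ r) - |deriv φ r|) ^ 2 *
      r ^ (Module.finrank ℝ E - 1)) (by
        filter_upwards [(ae_restrict_iff' measurableSet_Ioi).mpr hin] with r hr
        simp [hr]), mul_zero] at t4
    have h2 := (integral_eq_zero_iff_of_nonneg (fun x => sq_nonneg _) i6).mp t4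
    have h3 := (ae_restrict_iff' hΩ).mp (hXq.and (h1.and h2))
    filter_upwards [h3] with x hx hx0
    obtain ⟨⟨-, h4⟩, h5, h6⟩ := hx (norm_pos_iff.mpr hx0)
    have h7 := h4 h5
    rwa [sub_eq_zero.mp ((pow_eq_zero_iff two_ne_zero).mp h6), ya] at h7
  · have h1 := (integral_eq_zero_iff_of_nonneg hZ0 (iZW.integrableOn (s := {x | 0 < ‖u x‖}ᶜ))).mp
      (le_antisymm (nonpos_of_mul_nonpos_right (a := s ^ 2) (by linarith) s2) hc0)
    rw [EventuallyEq, ae_restrict_iff' hΩ.compl] at h1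
    filter_upwards [h1, hu.zero] with x hx hz hx0
    have h2 := hx (by simp [hx0])
    refine hz hx0 ?_
    simpa [(hW x).ne'] using h2

end Pool.Agent.MP_e4cac8_mp
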