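import Pool.Agent.Mg.Fe4cac8.G43e91a

set_option linter.all false

section

/-! A lower bound for the resolvent form. -/

open Set MeasureTheory Filter Topology LineDeriv
open scoped ENNReal NNReal SchwartzMap
open Pool.Agent.MP_0b7119_mp.G

namespace Pool.Agent.MP_e4cac8_mp

set_option linter.unusedSectionVars false

variable {E S : Type} [NormedAddCommGroup E] [InnerProductSpace ℝ E] [FiniteDimensional ℝ E]
  [MeasurableSpace E] [BorelSpace E] [NormedAddCommGroup S] [InnerProductSpace ℂ S]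
  [CompleteSpace S] [FiniteDimensional ℂ S] {d : ℕ}
  (e : OrthonormalBasis (Fin d) ℝ E) (α : Fin d → S →L[ℂ] S) (β : S →L[ℂ] S) (m : ℝ)

namespace F1

variable {α β}

/-- The real part of the inner product. -/
noncomputable def R (x y : S) : ℝ := (inner ℂ x y).re

theorem R_add_left (x y z : S) : R (x + y) z = R x z + R y z := by simp [R]
theorem R_add_right (x y z : S) : R z (x + y) = R z x + R z y := by simp [R]
theorem R_sub_left (x y z : S) : R (x - y) z = R x z - R y z := by simp [R]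
theorem R_sub_right (x y z : S) : R z (x - y) = R z x - R z y := by simp [R]
theorem R_smul_left (c : ℝ) (x y : S) : R ((c : ℂ) • x) y = c * R x y := by simp [R]
theorem R_smul_right (c : ℝ) (x y : S) : R x ((c : ℂ) • y) = c * R x y := by simp [R]
theorem R_symm (x y : S) : R x y = R y x := inner_re_symm (𝕜 := ℂ) _ _
theorem R_self (x : S) : ‖x‖ ^ 2 = R x x := (inner_self_eq_norm_sq (𝕜 := ℂ) x).symm

theorem orth (h : IsDiracRep α β) {x y : S} (hx : β x = x) (hy : β y = -y) : R x y = 0 := by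
  have h1 := inner_β h x y
  rw [hx, hy, inner_neg_right] at h1
  have h2 : inner ℂ x y = 0 := by linear_combination h1 / 2
  simp [R, h2]

theorem split (h : IsDiracRep α β) (p : S) : ∃ u w : S, p = u + w ∧ β u = u ∧ β w = -w := by
  refine ⟨(2⁻¹ : ℂ) • (p + β p), (2⁻¹ : ℂ) • (p - β p), by module, ?_, ?_⟩
  · rw [map_smul, map_add, β_β h, add_comm]
  · rw [map_smul, map_sub, β_β h]; module

/-- The pointwise inequality. -/
theorem pt (h : IsDiracRep α β) {l : ℝ} (hl : l ∈ Ioo (-m) m) (p q : S) {v Z F : S} (hv : β v = v)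
    (hZ : β Z = -Z) (hF : F = q + (m : ℂ) • β p + (-(l : ℂ)) • p) :
    2 * R v F + 2 / (m + l) * R Z F - ‖Z‖ ^ 2 / (m + l) - (m - l) * ‖v‖ ^ 2 +
        (R q (β p) - 2 * (R v q - R Z p)) ≤
      R F p + ‖(2⁻¹ : ℂ) • (F - β F)‖ ^ 2 / (m + l) := by
  obtain ⟨u, w, rfl, hu, hw⟩ := split h p
  obtain ⟨B, A, rfl, hB, hA⟩ := split h q
  have ha : 0 < m + l := by linarith [hl.1]
  have hb : 0 < m - l := by linarith [hl.2]
  have e0 : β (u + w) = u - w := by rw [map_add, hu, hw, sub_eq_add_neg]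
  have e1 : F = B + ((m - l : ℝ) : ℂ) • u + (A - ((m + l : ℝ) : ℂ) • w) := by
    rw [hF, e0]; push_cast; module
  have e2 : (2⁻¹ : ℂ) • (F - β F) = A - ((m + l : ℝ) : ℂ) • w := by
    rw [e1]
    simp only [map_add, map_sub, map_smul, hu, hw, hA, hB]
    module
  have p1 := mul_nonneg hb.le (sq_nonneg ‖u - v‖)
  have p2 := div_nonneg (sq_nonneg ‖A - Z‖) ha.le
  rw [e2, e0, e1]
  generalize m + l = a at *
  generalize m - l = b at *
  have o1 := orth h hu hw
  have o2 := orth h hu hA
  have o3 := orth h hu hZ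
  have o4 := orth h hB hw
  have o5 := orth h hB hA
  have o6 := orth h hB hZ
  have o7 := orth h hv hw
  have o8 := orth h hv hA
  simp only [R_self, R_add_left, R_add_right, R_sub_left, R_sub_right, R_smul_left,
    R_smul_right, R_symm w u, R_symm A u, R_symm Z u, R_symm Z B, R_symm v u,
    R_symm Z A, R_symm w A, o1, o2, o3, o4, o6, o7, o8] at p1 p2 ⊢
  rw [← sub_nonneg]
  refine (add_nonneg p1 p2).trans (le_of_eq ?_)
  field_simp
  ring

theorem int_R {g f : E → S} (hg : MemLp g 2 volume) (hf : MemLp f 2 volume) :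
    Integrable (fun x => R (g x) (f x)) volume := (JD.int_inner hg hf).re

theorem D0_apply (Φ : 𝓢(E, S)) (x : E) :
    JK.Dop e α β 0 0 Φ x = ∑ j, α j ((-Complex.I) • ∂_{e j} Φ x) := by
  simp [JK.Dop_apply, dirac, SchwartzMap.lineDerivOp_apply_eq_fderiv]

theorem memLp_clm (T : S →L[ℂ] S) {g : E → S} (hg : MemLp g 2 volume) :
    MemLp (fun x => T (g x)) 2 volume := T.comp_memLp' hg

/-- Integration by parts for a Schwartz function against itself. -/
theorem ibp1 (h : IsDiracRep α β) (Φ : 𝓢(E, S)) :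
    ∫ x, R (JK.Dop e α β 0 0 Φ x) (β (Φ x)) = 0 := by
  have hi : ∀ (j : Fin d) (P Q : 𝓢(E, S)),
      Integrable (fun x => inner ℂ (α j ((-Complex.I) • P x)) (β (Q x))) volume := fun j P Q =>
    JD.int_inner (memLp_clm _ ((P.memLp 2).const_smul _)) (memLp_clm _ (Q.memLp 2))
  have hs : ∀ (j : Fin d) (p q : S), R (α j ((-Complex.I) • p)) (β q) =
      R (α j ((-Complex.I) • q)) (β p) := by
    intro j p q
    have h1 : α j (β p) = -β (α j p) := by
      have := congrArg (fun T : S →L[ℂ] S => T p) (h.αβ j)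
      exact eq_neg_of_add_eq_zero_left (by simpa using this)
    have h2 : inner ℂ (α j q) (β p) = inner ℂ q (α j (β p)) := by
      rw [← inner_star_left (α j), (h.sa_α j).star_eq]
    have h3 : inner ℂ (α j q) (β p) = -(starRingEnd ℂ) (inner ℂ (α j p) (β q)) := by
      rw [h2, h1, inner_neg_right, ← inner_β h, inner_conj_symm]
    simp only [R, map_smul, inner_smul_left, h3]
    generalize inner ℂ (α j p) (β q) = z
    simp
  have hj : ∀ j : Fin d, ∫ x, R (α j ((-Complex.I) • ∂_{e j} Φ x)) (β (Φ x)) = 0 := by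
    intro j
    have h1 := SchwartzMap.integral_bilinear_lineDerivOp_right_eq_neg_left (μ := volume) Φ Φ
      ((isBoundedBilinearMap_inner (𝕜 := ℂ) (E := S)).toContinuousLinearMap.bilinearComp
        (((-Complex.I) • α j).restrictScalars ℝ) (β.restrictScalars ℝ)) (e j)
    have h2 : ∫ x, inner ℂ (α j ((-Complex.I) • Φ x)) (β (∂_{e j} Φ x)) =
        -∫ x, inner ℂ (α j ((-Complex.I) • ∂_{e j} Φ x)) (β (Φ x)) := by
      simpa only [ContinuousLinearMap.bilinearComp_apply,
        IsBoundedBilinearMap.toContinuousLinearMap_apply,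
        ContinuousLinearMap.coe_restrictScalars', smul_apply, map_smul] using h1
    have h3 := congrArg Complex.re h2
    have h4 := integral_re (𝕜 := ℂ) (hi j Φ (∂_{e j} Φ))
    have h5 := integral_re (𝕜 := ℂ) (hi j (∂_{e j} Φ) Φ)
    simp only [RCLike.re_to_complex] at h4 h5
    rw [Complex.neg_re, ← h4, ← h5] at h3
    have h6 : ∫ x, R (α j ((-Complex.I) • Φ x)) (β (∂_{e j} Φ x)) =
        -∫ x, R (α j ((-Complex.I) • ∂_{e j} Φ x)) (β (Φ x)) := h3
    simp only [hs j (Φ _)] at h6
    linarith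
  have e1 : ∀ x, R (JK.Dop e α β 0 0 Φ x) (β (Φ x)) =
      ∑ j, R (α j ((-Complex.I) • ∂_{e j} Φ x)) (β (Φ x)) := by
    intro x
    rw [D0_apply, R, sum_inner, Complex.re_sum]; rfl
  simp only [e1]
  exact (integral_finsetSum _ fun j _ => (hi j (∂_{e j} Φ) Φ).re).trans
    (Finset.sum_eq_zero fun j _ => hj j)

theorem memLp_fderiv {f : E → ℝ} {L : ℝ≥0} (hf : LipschitzWith L f) (hc : HasCompactSupport f) :
    MemLp (fun x => ‖fderiv ℝ f x‖) 2 volume :=
  (hc.fderiv ℝ).norm.memLp_of_bound (measurable_fderiv ℝ f).norm.aestronglyMeasurable L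
    (Eventually.of_forall fun x => by simpa using norm_fderiv_le_of_lipschitz ℝ hf)

theorem Z_eq (f : E → ℝ) (χ : S) (x : E) : (-Complex.I) • cl e α (gradient f x) χ =
    ∑ j, ((fderiv ℝ f x (e j) : ℝ) : ℂ) • α j ((-Complex.I) • χ) := by
  simp only [cl, sum_apply, smul_apply, Finset.smul_sum,
    map_smul]
  refine Finset.sum_congr rfl fun j _ => ?_
  rw [real_inner_comm, inner_gradient_left, smul_comm]

theorem norm_Z (h : IsDiracRep α β) (f : E → ℝ) (χ : S) (x : E) :
    ‖(-Complex.I) • cl e α (gradient f x) χ‖ = ‖fderiv ℝ f x‖ * ‖χ‖ := by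
  rw [norm_smul, norm_cl_apply h, gradient]
  simp

theorem memLp_Z (h : IsDiracRep α β) {f : E → ℝ} {L : ℝ≥0} (hf : LipschitzWith L f)
    (hc : HasCompactSupport f) (χ : S) :
    MemLp (fun x => (-Complex.I) • cl e α (gradient f x) χ) 2 volume := by
  refine MemLp.of_le_mul (c := ‖χ‖) (memLp_fderiv hf hc) ?_
    (Eventually.of_forall fun x => by rw [norm_Z e h, norm_norm, mul_comm])
  simp only [Z_eq]
  exact Finset.aestronglyMeasurable_fun_sum _ fun j _ => (Complex.measurable_ofReal.comp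
    (measurable_fderiv_apply_const ℝ f (e j))).aestronglyMeasurable.smul_const _

/-- Integration by parts against a Lipschitz function. -/
theorem ibp2 (h : IsDiracRep α β) {f : E → ℝ} {L : ℝ≥0} (hf : LipschitzWith L f)
    (hc : HasCompactSupport f) (χ : S) (Φ : 𝓢(E, S)) :
    ∫ x, R ((f x : ℂ) • χ) (JK.Dop e α β 0 0 Φ x) =
      ∫ x, R ((-Complex.I) • cl e α (gradient f x) χ) (Φ x) := by
  have hΦ : LipschitzWith
      ⟨SchwartzMap.seminorm ℝ 0 0 (SchwartzMap.fderivCLM ℝ E S Φ), apply_nonneg _ _⟩ Φ :=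
    lipschitzWith_of_nnnorm_fderiv_le (𝕜 := ℝ) Φ.differentiable fun x =>
      (SchwartzMap.fderivCLM ℝ E S Φ).norm_le_seminorm ℝ x
  set ℓ : Fin d → S →L[ℝ] ℝ := fun j => Complex.reCLM.comp
    (((innerSL ℂ χ).comp ((-Complex.I) • α j)).restrictScalars ℝ) with hℓ
  have hℓa : ∀ j p, ℓ j p = R χ (α j ((-Complex.I) • p)) := fun j p => by
    rw [map_smul]; rfl
  have hℓb : ∀ j p, R (α j ((-Complex.I) • χ)) p = -ℓ j p := by
    intro j p
    have h2 : inner ℂ (α j χ) p = inner ℂ χ (α j p) := by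
      rw [← inner_star_left (α j), (h.sa_α j).star_eq]
    simp only [hℓa, R, map_smul, inner_smul_left, inner_smul_right, h2]
    generalize inner ℂ χ (α j p) = z
    simp
  have hf2 : MemLp f 2 volume := hf.continuous.memLp_of_hasCompactSupport hc
  have hg2 : ∀ j, MemLp (fun x => fderiv ℝ f x (e j)) 2 volume := fun j =>
    (memLp_fderiv hf hc).of_le (measurable_fderiv_apply_const ℝ f (e j)).aestronglyMeasurable
      (Eventually.of_forall fun x => by
        simpa [e.orthonormal.1 j] using (fderiv ℝ f x).le_opNorm (e j))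
  have e1 : ∀ x, R ((f x : ℂ) • χ) (JK.Dop e α β 0 0 Φ x) = ∑ j, ℓ j (∂_{e j} Φ x) * f x := by
    intro x
    rw [R_smul_left, D0_apply, R, inner_sum, Complex.re_sum, Finset.mul_sum]
    exact Finset.sum_congr rfl fun j _ => by rw [hℓa, mul_comm]; rfl
  have e2 : ∀ x, R ((-Complex.I) • cl e α (gradient f x) χ) (Φ x) =
      ∑ j, -fderiv ℝ f x (e j) * ℓ j (Φ x) := by
    intro x
    rw [Z_eq, R, sum_inner, Complex.re_sum]
    refine Finset.sum_congr rfl fun j _ => ?_
    refine (R_smul_left _ _ _).trans ?_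
    rw [hℓb]; ring
  simp only [e1, e2]
  have j1 : ∀ j, Integrable (fun x => ℓ j (∂_{e j} Φ x) * f x) volume := fun j =>
    ((ℓ j).comp_memLp' ((∂_{e j} Φ).memLp 2)).integrable_mul hf2
  have j2 : ∀ j, Integrable (fun x => -fderiv ℝ f x (e j) * ℓ j (Φ x)) volume := fun j =>
    (hg2 j).neg.integrable_mul ((ℓ j).comp_memLp' (Φ.memLp 2))
  rw [integral_finsetSum _ fun j _ => j1 j, integral_finsetSum _ fun j _ => j2 j]
  refine Finset.sum_congr rfl fun j _ => ?_
  have h1 := LipschitzWith.integral_lineDeriv_mul_eq (μ := volume)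
    ((ℓ j).lipschitz.comp hΦ) hf hc (e j)
  refine Eq.trans (integral_congr_ae (Eventually.of_forall fun x => ?_))
    (h1.trans (integral_congr_ae ?_))
  · have h2 := ((ℓ j).hasFDerivAt.comp x (Φ.hasFDerivAt x)).hasLineDerivAt (e j)
    simp only [h2.lineDeriv, SchwartzMap.lineDerivOp_apply_eq_fderiv]
    rfl
  · filter_upwards [hf.ae_differentiableAt (μ := volume)] with x hx
    rw [lineDeriv_neg, hx.lineDeriv_eq_fderiv]
    rfl

theorem le_mul_of_forall {z C x y : ℝ} (hx : 0 ≤ x) (hy : 0 ≤ y) (hC : 0 ≤ C)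
    (h : ∀ t : ℝ, 0 < t → z ≤ (t * (C * x ^ 2) + t⁻¹ * (C * y ^ 2)) / 2) : z ≤ C * x * y := by
  have ht : Tendsto (fun s : ℝ => C * (x + s) * (y + s)) (𝓝[>] 0) (𝓝 (C * (x + 0) * (y + 0))) :=
    Tendsto.mono_left (Continuous.tendsto (by fun_prop) 0) nhdsWithin_le_nhds
  rw [add_zero, add_zero] at ht
  refine ge_of_tendsto ht (eventually_mem_nhdsWithin.mono fun s hs => ?_)
  have hs0 : 0 < s := hs
  refine (h ((y + s) / (x + s)) (by positivity)).trans ?_
  calc _ ≤ ((y + s) / (x + s) * (C * (x + s) ^ 2) +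
        ((y + s) / (x + s))⁻¹ * (C * (y + s) ^ 2)) / 2 := by gcongr <;> linarith
    _ = _ := by field_simp; ring

theorem cont_Bf {r : E → S →L[ℂ] S} (hr : Ks r) (hi : Integrable r volume) :
    Continuous fun G : Lp S 2 (volume : Measure E) => Bf r G G := by
  have hb : ∀ G H : Lp S 2 (volume : Measure E), |Bf r G H| ≤ (∫ z, ‖r z‖) * ‖G‖ * ‖H‖ := by
    intro G H
    obtain ⟨h1, h2⟩ := schur_l2 hr hi (Lp.memLp G) (Lp.memLp H)
    refine (abs_Bf_le h1).trans (le_mul_of_forall (norm_nonneg _) (norm_nonneg _)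
      (integral_nonneg fun _ => norm_nonneg _) fun t ht => ?_)
    rw [JD.norm_sq_Lp, JD.norm_sq_Lp]
    exact h2 t ht
  have hI : ∀ G H : Lp S 2 (volume : Measure E), Integrable (bi r G H) (volume.prod volume) :=
    fun G H => int_bi hr.meas (Lp.memLp G).1 (Lp.memLp H).1
      (schur_l2 hr hi (Lp.memLp G) (Lp.memLp H)).1
  refine continuous_iff_continuousAt.2 fun H => tendsto_iff_norm_sub_tendsto_zero.2 ?_
  have ht : Tendsto (fun G : Lp S 2 (volume : Measure E) => (∫ z, ‖r z‖) * ‖H‖ * ‖G - H‖ +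
      (∫ z, ‖r z‖) * ‖G - H‖ * ‖G‖) (𝓝 H) (𝓝 0) := by
    have : Continuous fun G : Lp S 2 (volume : Measure E) => (∫ z, ‖r z‖) * ‖H‖ * ‖G - H‖ +
      (∫ z, ‖r z‖) * ‖G - H‖ * ‖G‖ := by fun_prop
    simpa using this.tendsto H
  refine squeeze_zero (fun _ => norm_nonneg _) (fun G => ?_) ht
  have hG : (G : E → S) =ᵐ[volume] fun x => H x + ((1 : ℝ) : ℂ) • (G - H) x := by
    filter_upwards [Lp.coeFn_sub G H] with x hx
    rw [hx]; simp
  have e1 : Bf r G G = Bf r H G + 1 * Bf r (G - H : Lp S 2 (volume : Measure E)) G := by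
    rw [← Bf_add_left (hI H G) (hI (G - H) G)]
    exact Bf_congr r hG (ae_eq_refl _)
  have e2 : Bf r H G = Bf r H H + 1 * Bf r H (G - H : Lp S 2 (volume : Measure E)) := by
    rw [← Bf_add_right (hI H H) (hI H (G - H))]
    exact Bf_congr r (ae_eq_refl _) hG
  rw [e1, e2, Real.norm_eq_abs, abs_le]
  have b1 := abs_le.1 (hb H (G - H))
  have b2 := abs_le.1 (hb (G - H) G)
  constructor <;> linarith [b1.1, b1.2, b2.1, b2.2]

theorem cont_R {v : E → S} (hv : MemLp v 2 volume) :
    Continuous fun G : Lp S 2 (volume : Measure E) => ∫ x, R (v x) (G x) := by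
  have : (fun G : Lp S 2 (volume : Measure E) => ∫ x, R (v x) (G x)) =
      fun G => (inner ℂ (hv.toLp v) G).re := by
    ext G
    rw [JD.inner_toLp hv G (ae_eq_refl _)]
    exact integral_re (𝕜 := ℂ) (JD.int_inner hv (Lp.memLp G))
  rw [this]
  fun_prop

theorem cont_I2 (β : S →L[ℂ] S) : Continuous fun G : Lp S 2 (volume : Measure E) =>
    JD.I2 (fun x => (2⁻¹ : ℂ) • (G x - β (G x))) := by
  have : (fun G : Lp S 2 (volume : Measure E) => JD.I2 (fun x => (2⁻¹ : ℂ) • (G x - β (G x)))) =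
      fun G => ‖((2⁻¹ : ℂ) • (1 - β)).compLpL 2 volume G‖ ^ 2 := by
    ext G
    rw [JD.norm_sq_Lp]
    refine JD.I2_congr ?_
    filter_upwards [ContinuousLinearMap.coeFn_compLpL ((2⁻¹ : ℂ) • (1 - β)) G] with x hx
    rw [hx]; simp
  rw [this]
  fun_prop

end F1

open F1 in
theorem stF1 (hc : Ctx α β m) : StF1 e α β m := by
  rintro l hl F f χ hF ⟨L, hf⟩ hs hχ
  have h := hc.rep
  have hr := ks_rk h e m l
  have hi := integrable_rk h e hl
  have hv : MemLp (fun x => (f x : ℂ) • χ) 2 volume :=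
    ((Complex.continuous_ofReal.comp hf.continuous).smul continuous_const).memLp_of_hasCompactSupport
      (hs.mono fun x hx h0 => hx (by simp [h0]))
  have hZ := memLp_Z e h hf hs χ
  have n1 : (∫ x, ‖fderiv ℝ f x‖ ^ 2) * ‖χ‖ ^ 2 =
      ∫ x, ‖(-Complex.I) • cl e α (gradient f x) χ‖ ^ 2 := by
    simp only [norm_Z e h, mul_pow, integral_mul_const]
  have n2 : (∫ x, f x ^ 2) * ‖χ‖ ^ 2 = ∫ x, ‖(f x : ℂ) • χ‖ ^ 2 := by
    simp only [norm_smul, mul_pow, integral_mul_const, Complex.norm_real, Real.norm_eq_abs, sq_abs]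
  rw [n1, mul_assoc, n2]
  have key : ∀ G : Lp S 2 (volume : Measure E), 2 * (∫ x, R ((f x : ℂ) • χ) (G x)) +
      2 / (m + l) * (∫ x, R ((-Complex.I) • cl e α (gradient f x) χ) (G x)) -
      (∫ x, ‖(-Complex.I) • cl e α (gradient f x) χ‖ ^ 2) / (m + l) -
      (m - l) * ∫ x, ‖(f x : ℂ) • χ‖ ^ 2 ≤
      Bf (rk e α β m l) G G + JD.I2 (fun x => (2⁻¹ : ℂ) • (G x - β (G x))) / (m + l) := by
    intro G
    refine (SchwartzMap.denseRange_toLpCLM (F := S) (p := 2) (μ := (volume : Measure E))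
      ENNReal.ofNat_ne_top).induction_on G (isClosed_le
        (((((cont_R hv).const_mul 2).add ((cont_R hZ).const_mul _)).sub continuous_const).sub
          continuous_const) ((cont_Bf hr hi).add ((cont_I2 β).div_const _))) fun g => ?_
    obtain ⟨Φ, hΦ⟩ := JK.Dop_surj e h (gap_pos hl) g
    have hg : (SchwartzMap.toLpCLM ℝ S 2 volume g : E → S) =ᵐ[volume] g := g.coeFn_toLp 2 volume
    have g2 := g.memLp 2 (volume : Measure E)
    have Φ2 := Φ.memLp 2 (volume : Measure E)
    have D2 := (JK.Dop e α β 0 0 Φ).memLp 2 (volume : Measure E)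
    have P2 : MemLp (fun x => (2⁻¹ : ℂ) • (g x - β (g x))) 2 volume :=
      (g2.sub (memLp_clm β g2)).const_smul _
    have c1 : ∀ v : E → S, ∫ x, R (v x) (SchwartzMap.toLpCLM ℝ S 2 volume g x) =
        ∫ x, R (v x) (g x) := fun v => integral_congr_ae (hg.mono fun x hx => by simp only [hx])
    have c2 : JD.I2 (fun x => (2⁻¹ : ℂ) • (SchwartzMap.toLpCLM ℝ S 2 volume g x -
        β (SchwartzMap.toLpCLM ℝ S 2 volume g x))) =
        ∫ x, ‖(2⁻¹ : ℂ) • (g x - β (g x))‖ ^ 2 :=
      JD.I2_congr (hg.mono fun x hx => by simp only [hx])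
    have c3 : JK.cv (rk e α β m l) g = Φ := by
      rw [← hΦ]
      exact JK.cv_Dop e h (gap_pos hl) hi (JK.fourier_rk e α β (gap_pos hl)) Φ
    rw [c1, c1, c2, Bf_congr _ hg hg, Bf_eq hr.meas g2.1 g2.1 (schur_l2 hr hi g2 g2).1, c3]
    have i1 := (int_R hv g2).const_mul 2
    have i2 := (int_R hZ g2).const_mul (2 / (m + l))
    have i3 := (JD.int_sq hZ).div_const (m + l)
    have i4 := (JD.int_sq hv).const_mul (m - l)
    have i5 := int_R D2 (memLp_clm β Φ2)
    have i6 := int_R hv D2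
    have i7 := int_R hZ Φ2
    have i8 := int_R g2 Φ2
    have i9 := (JD.int_sq P2).div_const (m + l)
    have hm := integral_mono ((((i1.add i2).sub i3).sub i4).add (i5.sub ((i6.sub i7).const_mul 2)))
      (i8.add i9) fun x => pt m h hl (Φ x) (JK.Dop e α β 0 0 Φ x)
        (by rw [map_smul, hχ])
        (by
          have := cl_β_apply h e (gradient f x) χ
          rw [hχ] at this
          rw [map_smul, ← smul_neg, neg_eq_iff_eq_neg.2 this])
        (by rw [← hΦ]; simp [JK.Dop_apply, dirac])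
    rw [integral_add' (((i1.add i2).sub i3).sub i4) (i5.sub ((i6.sub i7).const_mul 2)),
      integral_sub' ((i1.add i2).sub i3) i4, integral_sub' (i1.add i2) i3, integral_add' i1 i2,
      integral_sub' i5 ((i6.sub i7).const_mul 2), integral_add' i8 i9, integral_const_mul,
      integral_const_mul, integral_const_mul, integral_const_mul, integral_div, integral_div,
      ibp1 e h] at hm
    have h67 := integral_sub' i6 i7
    rw [ibp2 e h hf hs, sub_self] at h67
    rw [h67] at hm
    simpa [R] using hm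
  have hG := hF.coeFn_toLp
  have k := key (hF.toLp F)
  have c1 : ∀ v : E → S, ∫ x, R (v x) (hF.toLp F x) = ∫ x, (inner ℂ (v x) (F x)).re :=
    fun v => integral_congr_ae (hG.mono fun x hx => by simp only [hx, R])
  have c2 : JD.I2 (fun x => (2⁻¹ : ℂ) • (hF.toLp F x - β (hF.toLp F x))) =
      JD.I2 fun x => (2⁻¹ : ℂ) • (F x - β (F x)) :=
    JD.I2_congr (hG.mono fun x hx => by simp only [hx])
  rwa [c1, c1, c2, Bf_congr _ hG hG] at k

end Pool.Agent.MP_e4cac8_mp

end

section

/-! Convolution of the resolvent kernel with bounded data is Hoelder continuous. -/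

open Set MeasureTheory Filter Topology Real
open scoped ENNReal NNReal
open Pool.Agent.MP_0b7119_mp.G

namespace Pool.Agent.MP_e4cac8_mp

set_option linter.unusedSectionVars false

variable {E S : Type} [NormedAddCommGroup E] [InnerProductSpace ℝ E] [FiniteDimensional ℝ E]
  [MeasurableSpace E] [BorelSpace E] [NormedAddCommGroup S] [InnerProductSpace ℂ S]
  [CompleteSpace S] [FiniteDimensional ℂ S] {d : ℕ}

namespace Reg1

variable {V : Type} [NormedAddCommGroup V] [NormedSpace ℝ V]

/-- The modulus of continuity in `L¹` is bounded by the gradient. -/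
theorem mod_le {g : E → V} {g' : E → E →L[ℝ] V} {B : E → ℝ} (hg : ∀ z, HasFDerivAt g (g' z) z)
    (hB : ∀ z, ‖g' z‖ ≤ B z) (hc : Continuous B) (hi : Integrable B) (h : E) :
    ∫ z, ‖g (z + h) - g z‖ ≤ ‖h‖ * ∫ z, B z := by
  have hB0 : ∀ z, 0 ≤ B z := fun z => (norm_nonneg _).trans (hB z)
  have hp : Integrable (fun p : ℝ × E => B (p.2 + p.1 • h))
      ((volume.restrict (Ioc (0 : ℝ) 1)).prod volume) := by
    have hm : Continuous fun p : ℝ × E => B (p.2 + p.1 • h) := by fun_prop
    rw [integrable_prod_iff hm.aestronglyMeasurable]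
    refine ⟨Eventually.of_forall fun s => hi.comp_add_right (s • h), ?_⟩
    simp only [integral_add_right_eq_self (fun z => ‖B z‖)]
    exact integrable_const _
  have h1 : ∀ z, ‖g (z + h) - g z‖ ≤ ‖h‖ * ∫ s in Ioc (0 : ℝ) 1, B (z + s • h) := fun z => by
    have hd : ∀ s : ℝ, HasDerivAt (fun s : ℝ => g (z + s • h)) (g' (z + s • h) h) s := fun s =>
      (hg _).comp_hasDerivAt s (by simpa using ((hasDerivAt_id s).smul_const h).const_add z)
    have := norm_sub_le_integral_of_norm_deriv_le_of_le (f := fun s : ℝ => g (z + s • h))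
      (B := fun s => ‖h‖ * B (z + s • h)) zero_le_one
      (fun s _ => (hd s).continuousAt.continuousWithinAt)
      (fun s _ => (hd s).differentiableAt.differentiableWithinAt)
      (Eventually.of_forall fun s _ => by
        rw [(hd s).deriv, mul_comm]
        exact (g' _).le_of_opNorm_le (hB _) h)
      (Continuous.intervalIntegrable (by fun_prop) _ _)
    rw [intervalIntegral.integral_const_mul, intervalIntegral.integral_of_le zero_le_one] at this
    simpa using this
  refine (integral_mono_of_nonneg (Eventually.of_forall fun z => norm_nonneg _)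
    (hp.integral_prod_right.const_mul ‖h‖) (Eventually.of_forall h1)).trans (le_of_eq ?_)
  rw [integral_const_mul, ← integral_integral_swap (f := fun s z => B (z + s • h)) hp]
  simp only [integral_add_right_eq_self B]
  simp

/-- Interpolation between the two trivial bounds. -/
theorem mod_sqrt {g : E → V} {g' : E → E →L[ℝ] V} {B : E → ℝ} (hg : ∀ z, HasFDerivAt g (g' z) z)
    (hB : ∀ z, ‖g' z‖ ≤ B z) (hc : Continuous B) (hi : Integrable B) (hgi : Integrable g)
    {X Y c : ℝ} (hX : ∫ z, ‖g z‖ ≤ X) (hY : ∫ z, B z ≤ Y) (hc0 : 0 ≤ c)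
    (hXY : 2 * X * Y ≤ c ^ 2) (h : E) : ∫ z, ‖g (z + h) - g z‖ ≤ c * √‖h‖ := by
  have h0 : 0 ≤ ∫ z, ‖g (z + h) - g z‖ := integral_nonneg fun z => norm_nonneg _
  have h1 := (mod_le hg hB hc hi h).trans (mul_le_mul_of_nonneg_left hY (norm_nonneg h))
  have h2 : ∫ z, ‖g (z + h) - g z‖ ≤ 2 * X := by
    refine (integral_mono ((hgi.comp_add_right h).sub hgi).norm
      ((hgi.comp_add_right h).norm.add hgi.norm) fun z => norm_sub_le _ _).trans ?_
    simp only [Pi.add_apply]
    rw [integral_add (hgi.comp_add_right h).norm hgi.norm,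
      integral_add_right_eq_self fun z => ‖g z‖]
    linarith
  refine (pow_le_pow_iff_left₀ h0 (by positivity) two_ne_zero).mp ?_
  rw [mul_pow, Real.sq_sqrt (norm_nonneg h), sq]
  calc _ ≤ 2 * X * (‖h‖ * Y) := mul_le_mul h2 h1 h0 (h0.trans h2)
    _ = 2 * X * Y * ‖h‖ := by ring
    _ ≤ _ := mul_le_mul_of_nonneg_right hXY (norm_nonneg h)

/-- Integration over a parameter. -/
theorem mod_int [CompleteSpace V] {G : ℝ → E → V} {B : ℝ → ℝ} (h : E)
    (hG : Integrable (fun p : ℝ × E => G p.1 p.2) ((volume.restrict (Ioi 0)).prod volume))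
    (hB : IntegrableOn B (Ioi 0)) (hle : ∀ t, 0 < t → ∫ z, ‖G t (z + h) - G t z‖ ≤ B t) :
    ∫ z, ‖(∫ t in Ioi (0 : ℝ), G t (z + h)) - ∫ t in Ioi (0 : ℝ), G t z‖ ≤
      ∫ t in Ioi (0 : ℝ), B t := by
  have hG' : Integrable (fun p : ℝ × E => G p.1 (p.2 + h))
      ((volume.restrict (Ioi 0)).prod volume) :=
    ((MeasurePreserving.id _).prod (measurePreserving_add_right volume h)).integrable_comp_of_integrable
      hG
  have hD := (hG'.sub hG).norm
  calc _ ≤ ∫ z, ∫ t in Ioi (0 : ℝ), ‖G t (z + h) - G t z‖ := by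
        refine integral_mono_of_nonneg (Eventually.of_forall fun z => norm_nonneg _)
          hD.integral_prod_right ?_
        filter_upwards [hG'.prod_left_ae, hG.prod_left_ae] with z h1 h2
        rw [← integral_sub h1 h2]
        exact norm_integral_le_integral_norm _
    _ = ∫ t in Ioi (0 : ℝ), ∫ z, ‖G t (z + h) - G t z‖ :=
        (integral_integral_swap (f := fun t z => ‖G t (z + h) - G t z‖) hD).symm
    _ ≤ _ := setIntegral_mono_on hD.integral_prod_left hB measurableSet_Ioi hle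

theorem cont_heat (t : ℝ) : Continuous fun z : E => heat t z := by
  unfold heat
  fun_prop

theorem fd_heat (t : ℝ) (z : E) :
    HasFDerivAt (fun z : E => heat t z) ((-(heat t z / (2 * t))) • innerSL ℝ z) z := by
  have h := (((hasStrictFDerivAt_norm_sq z).hasFDerivAt.const_mul (-(1 / (4 * t)))).exp).const_mul
    ((4 * π * t) ^ (-(Module.finrank ℝ E : ℝ) / 2))
  simp only [← heat_eq] at h
  refine h.congr_fderiv ?_
  ext w
  simp only [heat_eq, ContinuousLinearMap.smul_apply, smul_eq_mul, nsmul_eq_mul]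
  ring

theorem rpow_facts {t : ℝ} (ht : 0 < t) : ∃ u : ℝ, 0 < u ∧ t ^ (-(1 / 4) : ℝ) = u ∧
    t ^ (-(3 / 4) : ℝ) = u ^ 3 ∧ √t = (u ^ 2)⁻¹ ∧ t = (u ^ 4)⁻¹ := by
  have key : ∀ n : ℕ, (t ^ (-(1 / 4) : ℝ)) ^ n = t ^ (-(n / 4) : ℝ) := fun n => by
    rw [← Real.rpow_natCast, ← Real.rpow_mul ht.le]
    congr 1
    ring
  refine ⟨_, Real.rpow_pos_of_pos ht _, rfl, ?_, ?_, ?_⟩
  · rw [key]; norm_num
  · rw [key, Real.rpow_neg ht.le, inv_inv, Real.sqrt_eq_rpow]; norm_num
  · rw [key, Real.rpow_neg ht.le, inv_inv]; norm_num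

theorem mod_heat {t : ℝ} (ht : 0 < t) (h : E) :
    ∫ z : E, ‖heat t (z + h) - heat t z‖ ≤ (1 + cH E ^ 2) * t ^ (-(1 / 4) : ℝ) * √‖h‖ := by
  obtain ⟨u, hu, e1, -, e3, e4⟩ := rpow_facts ht
  have hc := cH_pos (E := E)
  refine mod_sqrt (B := fun z => 1 / (2 * t) * (heat t z * ‖z‖)) (X := 1)
    (Y := 1 / (2 * t) * (cH E * √t)) (fd_heat t) (fun z => le_of_eq ?_)
    (continuous_const.mul ((cont_heat t).mul continuous_norm))
    ((integrable_heat_mul_norm ht).const_mul _) (integrable_heat ht) (le_of_eq ?_) ?_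
    (by positivity) ?_ h
  · have := heat_nonneg ht.le z
    rw [norm_smul, norm_neg, innerSL_apply_norm, Real.norm_of_nonneg (by positivity)]
    ring
  · simp only [Real.norm_of_nonneg (heat_nonneg ht.le _)]
    exact integral_heat ht
  · rw [integral_const_mul]
    exact mul_le_mul_of_nonneg_left (integral_heat_mul_norm_le ht) (by positivity)
  · rw [e1, e3, e4, mul_pow]
    have : 2 * 1 * (1 / (2 * (u ^ 4)⁻¹) * (cH E * (u ^ 2)⁻¹)) = cH E * u ^ 2 := by field_simp
    rw [this]
    gcongr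
    nlinarith [sq_nonneg (cH E - 1), sq_nonneg (cH E ^ 2)]

theorem mod_field {t : ℝ} (ht : 0 < t) (h : E) :
    ∫ z : E, ‖(heat t (z + h) / (2 * t)) • (z + h) - (heat t z / (2 * t)) • z‖ ≤
      (1 + cH E ^ 2) * t ^ (-(3 / 4) : ℝ) * √‖h‖ := by
  obtain ⟨u, hu, -, e2, e3, e4⟩ := rpow_facts ht
  have hc := cH_pos (E := E)
  have ht2 : 0 < 2 * t := by linarith
  have hn : ∀ z : E, ‖(heat t z / (2 * t)) • z‖ = 1 / (2 * t) * (heat t z * ‖z‖) := fun z => by
    have := heat_nonneg ht.le z
    rw [norm_smul, Real.norm_of_nonneg (by positivity)]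
    ring
  have hd : ∀ z : E, HasFDerivAt (fun z : E => heat t z / (2 * t))
      ((2 * t)⁻¹ • (-(heat t z / (2 * t))) • innerSL ℝ z) z := fun z => by
    simpa only [div_eq_mul_inv] using (fd_heat t z).mul_const (2 * t)⁻¹
  have i1 := (integrable_heat (E := E) ht).const_mul (1 / (2 * t))
  have i2 := (integrable_heat_mul_norm (E := E) ht2).const_mul (cH E * √t / (2 * t) ^ 2)
  refine mod_sqrt (g := fun z : E => (heat t z / (2 * t)) • z)
    (B := fun z => 1 / (2 * t) * heat t z + cH E * √t / (2 * t) ^ 2 * (heat (2 * t) z * ‖z‖))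
    (X := 1 / (2 * t) * (cH E * √t)) (Y := (1 + cH E ^ 2) / (2 * t))
    (fun z => (hd z).smul (hasFDerivAt_id z)) (fun z => ?_)
    ((continuous_const.mul (cont_heat t)).add
      (continuous_const.mul ((cont_heat _).mul continuous_norm))) (i1.add i2) ?_ ?_ ?_
    (by positivity) ?_ h
  · have h0 := heat_nonneg ht.le z
    refine (norm_add_le _ _).trans (add_le_add ?_ ?_)
    · rw [norm_smul, Real.norm_of_nonneg (by positivity)]
      exact (mul_le_of_le_one_right (by positivity) ContinuousLinearMap.norm_id_le).trans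
        (le_of_eq (by ring))
    · rw [ContinuousLinearMap.norm_smulRight_apply, norm_smul, norm_smul, norm_neg,
        innerSL_apply_norm, Real.norm_of_nonneg (by positivity),
        Real.norm_of_nonneg (by positivity)]
      calc _ = 1 / (2 * t) ^ 2 * (heat t z * ‖z‖) * ‖z‖ := by field_simp
        _ ≤ 1 / (2 * t) ^ 2 * (cH E * √t * heat (2 * t) z) * ‖z‖ := by
            gcongr _ * ?_ * _
            exact heat_mul_norm_le ht z
        _ = _ := by ring
  · refine ((integrable_heat_mul_norm ht).const_mul (1 / (2 * t))).mono'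
      (((cont_heat t).div_const _).smul continuous_id).aestronglyMeasurable
      (Eventually.of_forall fun z => (hn z).le)
  · simp only [hn]
    rw [integral_const_mul]
    exact mul_le_mul_of_nonneg_left (integral_heat_mul_norm_le ht) (by positivity)
  · rw [integral_add i1 i2, integral_const_mul, integral_const_mul, integral_heat ht]
    have h1 : √(2 * t) ≤ 2 * √t := by
      rw [Real.sqrt_le_left (by positivity), mul_pow, Real.sq_sqrt ht.le]
      linarith
    calc _ ≤ 1 / (2 * t) * 1 + cH E * √t / (2 * t) ^ 2 * (cH E * (2 * √t)) := by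
          gcongr
          exact (integral_heat_mul_norm_le ht2).trans (by gcongr)
      _ = 1 / (2 * t) + cH E ^ 2 * √t ^ 2 * 2 / (2 * t) ^ 2 := by ring
      _ = _ := by
          rw [Real.sq_sqrt ht.le]
          field_simp
  · rw [e2, e3, e4, mul_pow]
    have : 2 * (1 / (2 * (u ^ 4)⁻¹) * (cH E * (u ^ 2)⁻¹)) * ((1 + cH E ^ 2) / (2 * (u ^ 4)⁻¹)) =
      cH E / 2 * (1 + cH E ^ 2) * (u ^ 3) ^ 2 := by field_simp
    rw [this, sq (1 + cH E ^ 2)]
    gcongr
    nlinarith [sq_nonneg (cH E - 1)]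

theorem mod_gk {b : ℝ} (hb : 0 < b) :
    ∃ C, ∀ h : E, ∫ z : E, ‖gk b (z + h) - gk b z‖ ≤ C * √‖h‖ := by
  refine ⟨∫ t in Ioi (0 : ℝ), (1 + cH E ^ 2) * (t ^ (-(1 / 4) : ℝ) * rexp (-(b * t))), fun h => ?_⟩
  rw [← integral_mul_const]
  refine mod_int (G := fun t z => rexp (-b * t) * heat t z) h (integrable_prod_g hb)
    (((integrableOn_exp_rpow hb (by norm_num)).const_mul _).mul_const _) fun t ht => ?_
  simp only [← mul_sub, norm_mul, Real.norm_of_nonneg (Real.exp_pos _).le]
  rw [integral_const_mul]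
  refine (mul_le_mul_of_nonneg_left (mod_heat ht h) (Real.exp_pos _).le).trans (le_of_eq ?_)
  rw [neg_mul]
  ring

theorem mod_qk {b : ℝ} (hb : 0 < b) :
    ∃ C, ∀ h : E, ∫ z : E, ‖qk b (z + h) • (z + h) - qk b z • z‖ ≤ C * √‖h‖ := by
  refine ⟨∫ t in Ioi (0 : ℝ), (1 + cH E ^ 2) * (t ^ (-(3 / 4) : ℝ) * rexp (-(b * t))), fun h => ?_⟩
  rw [← integral_mul_const]
  simp only [qk, ← integral_smul_const]
  refine mod_int (G := fun t (z : E) => (rexp (-b * t) * (heat t z / (2 * t))) • z) h ?_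
    (((integrableOn_exp_rpow hb (by norm_num)).const_mul _).mul_const _) fun t ht => ?_
  · have hm : Measurable fun p : ℝ × E => rexp (-b * p.1) * (heat p.1 p.2 / (2 * p.1)) :=
      (by fun_prop : Measurable fun p : ℝ × E => rexp (-b * p.1)).mul
        (measurable_heat.div (by fun_prop))
    refine (integrable_prod_q hb).norm.mono' (hm.smul measurable_snd).aestronglyMeasurable
      (Eventually.of_forall fun p => le_of_eq ?_)
    rw [norm_smul, norm_mul _ ‖p.2‖, norm_norm]
  · simp only [mul_smul, ← smul_sub, norm_smul, Real.norm_of_nonneg (Real.exp_pos _).le]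
    rw [integral_const_mul]
    refine (mul_le_mul_of_nonneg_left (mod_field ht h) (Real.exp_pos _).le).trans (le_of_eq ?_)
    rw [neg_mul]
    ring

end Reg1

variable (e : OrthonormalBasis (Fin d) ℝ E) (α : Fin d → S →L[ℂ] S) (β : S →L[ℂ] S) (m : ℝ)

theorem Reg1.mod_rk (hc : Ctx α β m) {l : ℝ} (hl : l ∈ Ioo (-m) m) :
    ∃ C, ∀ h : E, ∫ z : E, ‖rk e α β m l (z + h) - rk e α β m l z‖ ≤ C * √‖h‖ := by
  have hb := gap_pos hl
  set b := m ^ 2 - l ^ 2
  obtain ⟨C₁, h1⟩ := Reg1.mod_gk (E := E) hb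
  obtain ⟨C₂, h2⟩ := Reg1.mod_qk (E := E) hb
  refine ⟨(|m| + |l|) * C₁ + C₂, fun h => ?_⟩
  have ig := integrable_gk (E := E) hb
  have iq : Integrable fun z : E => qk b z • z :=
    (integrable_qk hb).mono' ((measurable_qk b).smul measurable_id).aestronglyMeasurable
      (Eventually.of_forall fun z => by rw [norm_smul, Real.norm_of_nonneg (qk_nonneg _ _)])
  have i1 := ((ig.comp_add_right h).sub ig).norm.const_mul (|m| + |l|)
  have i2 := ((iq.comp_add_right h).sub iq).norm
  simp only [Pi.sub_apply] at i1 i2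
  calc _ ≤ ∫ z : E, ((|m| + |l|) * ‖gk b (z + h) - gk b z‖ +
        ‖qk b (z + h) • (z + h) - qk b z • z‖) := by
        refine integral_mono_of_nonneg (Eventually.of_forall fun z => norm_nonneg _) (i1.add i2)
          (Eventually.of_forall fun z => ?_)
        have e1 : rk e α β m l (z + h) - rk e α β m l z =
            ((gk b (z + h) - gk b z : ℝ) : ℂ) • ((m : ℂ) • β + (l : ℂ) • (1 : S →L[ℂ] S)) +
              Complex.I • cl e α (qk b (z + h) • (z + h) - qk b z • z) := by
          rw [sub_eq_add_neg (qk b (z + h) • (z + h)), cl_add, cl_neg, cl_smul, cl_smul]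
          simp only [rk, Complex.ofReal_sub, sub_smul, mul_smul, smul_add Complex.I, smul_neg]
          abel
        beta_reduce
        rw [e1]
        refine (norm_add_le _ _).trans (add_le_add ?_ ?_)
        · rw [norm_smul, Complex.norm_real, mul_comm]
          exact mul_le_mul_of_nonneg_right (norm_mass_le hc.rep m l) (norm_nonneg _)
        · rw [norm_smul, Complex.norm_I, one_mul]
          exact norm_cl_le hc.rep e _
    _ ≤ _ := by
        rw [integral_add i1 i2, integral_const_mul, add_mul _ C₂, mul_assoc]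
        exact add_le_add (mul_le_mul_of_nonneg_left (h1 h) (by positivity)) (h2 h)

theorem stReg1 (hc : Ctx α β m) : StReg1 e α β m := by
  intro l hl F K hF hK
  obtain ⟨C, hC⟩ := Reg1.mod_rk e α β m hc hl
  have hK0 : 0 ≤ K := (norm_nonneg _).trans (hK 0)
  have hr := integrable_rk hc.rep e hl
  set r := rk e α β m l
  have hi : ∀ x, Integrable fun y => r (x - y) (F y) := fun x =>
    ((hr.comp_sub_left x).norm.mul_const K).mono'
      ((isBoundedBilinearMap_apply (𝕜 := ℂ)).continuous.comp_aestronglyMeasurable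
        ((hr.comp_sub_left x).1.prodMk hF.aestronglyMeasurable))
      (Eventually.of_forall fun y => (r _).le_opNorm_of_le (hK y))
  refine ⟨K * C, fun x y => ?_⟩
  unfold JK.cv
  rw [← integral_sub (hi x) (hi y)]
  refine (norm_integral_le_of_norm_le
    (((hr.comp_sub_left x).sub (hr.comp_sub_left y)).norm.const_mul K)
    (Eventually.of_forall fun w => ?_)).trans ?_
  · rw [← ContinuousLinearMap.sub_apply, mul_comm]
    exact (r (x - w) - r (y - w)).le_opNorm_of_le (hK w)
  · rw [integral_const_mul, mul_assoc]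
    refine mul_le_mul_of_nonneg_left (le_of_eq_of_le ?_ (hC (x - y))) hK0
    rw [← integral_sub_left_eq_self (fun z => ‖r (z + (x - y)) - r z‖) volume y]
    simp only [Pi.sub_apply]
    congr 1
    ext w
    congr 3
    abel

end Pool.Agent.MP_e4cac8_mp

end
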