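import Pool.Agent.Mg.Fe4cac8.G43e91a

set_option linter.all false

section

/-! The lowest eigenvalue is attained. -/

open Set MeasureTheory Filter Topology
open scoped ENNReal NNReal SchwartzMap
open Pool.Agent.MP_0b7119_mp.G

namespace Pool.Agent.MP_e4cac8_mp

set_option linter.unusedSectionVars false

variable {E S : Type} [NormedAddCommGroup E] [InnerProductSpace ℝ E] [FiniteDimensional ℝ E]
  [MeasurableSpace E] [BorelSpace E] [NormedAddCommGroup S] [InnerProductSpace ℂ S]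
  [CompleteSpace S] [FiniteDimensional ℂ S] {d : ℕ}
  {e : OrthonormalBasis (Fin d) ℝ E} {α : Fin d → S →L[ℂ] S} {β : S →L[ℂ] S} {m : ℝ}

namespace Att

variable {r : E → S →L[ℂ] S} {V W : E → ℝ} {θ θ' : ℝ} {F g : E → S}

theorem sq_le {N θ h : ℝ} (hN : 0 ≤ N) (hθ : 0 ≤ θ) (hh : 0 ≤ h)
    (H : ∀ t, 0 < t → N ≤ t / 2 * θ + 1 / (2 * t) * h) : N ^ 2 ≤ (θ + 1) * h := by
  rcases hN.eq_or_lt with h0 | h0
  · rw [← h0, zero_pow two_ne_zero]
    positivity
  have h5 := H (N / (θ + 1)) (by positivity)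
  have h6 : N / (θ + 1) / 2 * θ ≤ N / 2 := by
    rw [div_div, div_mul_eq_mul_div, div_le_div_iff₀ (by positivity) (by positivity)]
    nlinarith
  have h7 : 1 / (2 * (N / (θ + 1))) * h = (θ + 1) * h / (2 * N) := by field_simp
  have h8 : N / 2 ≤ (θ + 1) * h / (2 * N) := by linarith
  rw [div_le_div_iff₀ (by positivity) (by positivity)] at h8
  nlinarith

theorem meas_cv (hr : Ks r) (hV : Measurable V) (hF : MemLp F 2 volume) :
    AEStronglyMeasurable (JK.cv r (sv V F)) volume :=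
  (meas_ap hr.meas (meas_sv hV hF.1)).integral_prod_right'

theorem int_cv (hr : Ks r) (hi : Integrable r volume) (hV : Measurable V) (hV0 : ∀ x, 0 ≤ V x)
    (hA : Adm V (fun z => ‖r z‖) θ) (hW : Measurable W) (hW0 : ∀ x, 0 ≤ W x)
    (hA' : Adm W (fun z => ‖r z‖) θ') (hF : MemLp F 2 volume) :
    Integrable (fun x => W x * ‖JK.cv r (sv V F) x‖ ^ 2) volume := by
  have hθ : 0 ≤ θ := (integral_nonneg fun y => mul_nonneg (hV0 y) (norm_nonneg _)).trans (hA.le 0)
  have h1 := JD.int_snd (JD.int_sq hF) hi.norm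
  have h2 := (schur_snd hr.mnorm (fun _ => norm_nonneg _) hr.norm_sub hW hW0 hA' (JD.int_sq hF)
    fun _ => sq_nonneg _).1
  refine (h2.integral_prod_left.const_mul (θ + 1)).mono'
    (hW.aestronglyMeasurable.mul ((meas_cv hr hV hF).norm.pow 2)) ?_
  filter_upwards [h1.prod_right_ae] with x hx
  rw [Real.norm_of_nonneg (mul_nonneg (hW0 x) (sq_nonneg _))]
  simp only [mul_left_comm _ (W x)]
  rw [integral_const_mul, mul_left_comm]
  refine mul_le_mul_of_nonneg_left (sq_le (norm_nonneg _) hθ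
    (integral_nonneg fun y => by positivity) fun t ht => ?_) (hW0 x)
  refine le_trans ?_ (add_le_add_left (mul_le_mul_of_nonneg_left (hA.le x) (half_pos ht).le) _)
  rw [← integral_const_mul, ← integral_const_mul,
    ← integral_add ((hA.int x).const_mul _) (hx.const_mul _)]
  refine norm_integral_le_of_norm_le (((hA.int x).const_mul _).add (hx.const_mul _))
    (Eventually.of_forall fun y => (ContinuousLinearMap.le_opNorm _ _).trans ?_)
  rw [norm_sv]
  obtain ⟨v, hv0, hv⟩ : ∃ v : ℝ, 0 ≤ v ∧ V y = v ^ 2 :=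
    ⟨√(V y), Real.sqrt_nonneg _, (Real.sq_sqrt (hV0 _)).symm⟩
  rw [hv, Real.sqrt_sq hv0]
  have h3 : 0 ≤ ‖r (x - y)‖ * (t * v - ‖F y‖) ^ 2 / (2 * t) := by positivity
  have h4 : t / 2 * (v ^ 2 * ‖r (x - y)‖) + 1 / (2 * t) * (‖F y‖ ^ 2 * ‖r (x - y)‖) -
      ‖r (x - y)‖ * (v * ‖F y‖) = ‖r (x - y)‖ * (t * v - ‖F y‖) ^ 2 / (2 * t) := by
    field_simp
    ring
  linarith

theorem ib (hr : Ks r) (hV : Measurable V) (hV0 : ∀ x, 0 ≤ V x) (hW : Measurable W)
    (hW0 : ∀ x, 0 ≤ W x) (hA : Adm V (fun z => ‖r z‖) θ) (hA' : Adm W (fun z => ‖r z‖) θ')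
    (hg : MemLp g 2 volume) (hF : MemLp F 2 volume) :
    Integrable (bi r (sv V g) (sv W F)) (volume.prod volume) :=
  int_bi hr.meas (meas_sv hV hg.1) (meas_sv hW hF.1) (schur hr hV hV0 hW hW0 hA hA' hg hF).1

theorem fix (hr : Ks r) (hi : Integrable r volume) (hV : Measurable V) (hV0 : ∀ x, 0 ≤ V x)
    (hA : Adm V (fun z => ‖r z‖) θ) (hall : BS r V 1) (hF : MemLp F 2 volume)
    (h1 : JD.I2 F ≤ 1) (h : 1 ≤ Bf r (sv V F) (sv V F)) : Fix r V (JK.cv r (sv V F)) := by
  set ψ := JK.cv r (sv V F) with hψ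
  have hm := meas_cv hr hV hF
  have iV := int_cv hr hi hV hV0 hA hV hV0 hA hF
  have hG := memLp_sv_of_int hV hV0 hm iV
  set g : E → S := fun x => F x - sv V ψ x with hgdef
  have hg : MemLp g 2 volume := hF.sub hG
  have e1 : (∫ x, (inner ℂ (g x) (F x)).re) - Bf r (sv V g) (sv V F) = JD.I2 g := by
    have i1 : Integrable (fun x => (inner ℂ (g x) (F x)).re) volume := (JD.int_inner hg hF).re
    have i2 : Integrable (fun x => (inner ℂ (g x) (sv V ψ x)).re) volume := (JD.int_inner hg hG).re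
    have e2 : ∀ x, inner ℂ (sv V g x) (ψ x) = inner ℂ (g x) (sv V ψ x) := fun x => by
      rw [sv, sv, inner_smul_left, inner_smul_right, Complex.conj_ofReal]
    rw [Bf_eq hr.meas (meas_sv hV hg.1) (meas_sv hV hF.1) (schur hr hV hV0 hV hV0 hA hA hg hF).1]
    simp only [← hψ, e2]
    rw [← integral_sub i1 i2]
    unfold JD.I2
    congr 1
    ext x
    rw [← Complex.sub_re, ← inner_sub_right]
    exact inner_self_eq_norm_sq (𝕜 := ℂ) _
  have i := fun {f f' : E → S} => ib (g := f) (F := f') hr hV hV0 hV hV0 hA hA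
  have h0 := discrim_le_zero (a := JD.I2 g - Bf r (sv V g) (sv V g)) (b := 2 * JD.I2 g) (c := 0)
    fun t => by
      have hft : MemLp (fun x => F x + (t : ℂ) • g x) 2 volume := hF.add (hg.const_smul _)
      have e3 : sv V (fun x => F x + (t : ℂ) • g x) = fun x => sv V F x + (t : ℂ) • sv V g x := by
        ext x
        simp only [sv, smul_add, smul_comm (t : ℂ)]
      have h2 := hall _ hft
      have a1 := Bf_add_left (i hF hft) (i hg hft) t
      rw [← e3] at a1
      rw [JD.I2_add hF hg, a1, e3, Bf_add_right (i hF hF) (i hF hg),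
        Bf_add_right (i hg hF) (i hg hg), Bf_symm hr (sv V F) (sv V g)] at h2
      rw [← e1] at *
      nlinarith
  have h2 : F =ᵐ[volume] sv V ψ := by
    rw [discrim, mul_zero, sub_zero] at h0
    filter_upwards [JD.I2_eq_zero hg (by nlinarith [JD.I2_nonneg g])] with x hx
    exact sub_eq_zero.mp hx
  refine ⟨?_, iV, fun h3 => ?_, Eventually.of_forall fun x => ?_⟩
  · rw [memLp_two_iff_integrable_sq_norm hm]
    simpa only [one_mul] using int_cv hr hi hV hV0 hA measurable_const (fun _ => zero_le_one)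
      (adm_one hi.norm) hF
  · have h4 : sv V F =ᵐ[volume] fun _ => 0 := by
      filter_upwards [h2, h3] with x a1 a2
      simp [sv, a1, a2]
    rw [Bf_congr r h4 h4] at h
    simp [Bf] at h
    linarith
  · rw [Rop_eq_cv, ← sv_sv hV0]
    refine integral_congr_ae ?_
    filter_upwards [h2] with y hy
    rw [sv, hy]
    rfl

theorem trunc (hr : Ks r) (hV : Measurable V) (hV0 : ∀ x, 0 ≤ V x) {A : Set E}
    (hm : MeasurableSet A) {s Θ : ℝ} (hs : 0 < s) (hθ : 0 ≤ θ) (hΘ : 0 ≤ Θ)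
    (hA : Adm V (fun z => ‖r z‖) θ) (h1 : Adm (A.indicator V) (fun z => ‖r z‖) θ)
    (h2 : Adm (Aᶜ.indicator V) (fun z => ‖r z‖) (Θ * s ^ 2)) (hg : MemLp g 2 volume)
    (hg1 : JD.I2 g ≤ 1) :
    |Bf r (sv V g) (sv V g) - Bf r (sv (A.indicator V) g) (sv (A.indicator V) g)| ≤
      s * (Θ + θ) := by
  have m1 := hV.indicator hm
  have m2 := hV.indicator hm.compl
  have n1 : ∀ x, 0 ≤ A.indicator V x := indicator_nonneg fun y _ => hV0 y
  have n2 : ∀ x, 0 ≤ Aᶜ.indicator V x := indicator_nonneg fun y _ => hV0 y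
  have e1 : sv V g = fun x => sv (A.indicator V) g x + ((1 : ℝ) : ℂ) • sv (Aᶜ.indicator V) g x := by
    ext x
    by_cases hx : x ∈ A <;> simp [sv, hx]
  have a1 := Bf_add_right (ib hr hV hV0 m1 n1 hA h1 hg hg) (ib hr hV hV0 m2 n2 hA h2 hg hg) 1
  have a2 := Bf_add_left (ib hr m1 n1 m1 n1 h1 h1 hg hg) (ib hr m2 n2 m1 n1 h2 h1 hg hg) 1
  rw [← e1] at a1 a2
  obtain ⟨b1, b2⟩ := schur hr hV hV0 m2 n2 hA h2 hg hg
  obtain ⟨c1, c2⟩ := schur hr m1 n1 m2 n2 h1 h2 hg hg
  have b3 := (abs_Bf_le b1).trans (b2 s⁻¹ (by positivity))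
  have c3 := (abs_Bf_le c1).trans (c2 s⁻¹ (by positivity))
  have e2 : (s⁻¹ * (Θ * s ^ 2 * JD.I2 g) + s⁻¹⁻¹ * (θ * JD.I2 g)) / 2 =
      s * (Θ + θ) * JD.I2 g / 2 := by
    field_simp
  have e3 : s * (Θ + θ) * JD.I2 g ≤ s * (Θ + θ) := mul_le_of_le_one_right (by positivity) hg1
  rw [e2, abs_le] at b3 c3
  rw [Bf_symm hr (sv (Aᶜ.indicator V) g)] at a2
  rw [abs_le]
  constructor <;> linarith [b3.1, b3.2, c3.1, c3.2]

theorem pot_ind {q N N' : ℝ} (hq : 0 < q) (hV : PotR q N V) {A : Set E} (hm : MeasurableSet A)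
    (h : ∫ x, A.indicator (fun x => V x ^ q) x ≤ N' ^ q) : PotR q N' (A.indicator V) := by
  have e1 : (fun x => A.indicator V x ^ q) = A.indicator fun x => V x ^ q := by
    ext x
    by_cases hx : x ∈ A <;> simp [hx, hq.ne']
  exact ⟨hV.meas.indicator hm, indicator_nonneg fun y _ => hV.nonneg y,
    e1 ▸ hV.int.indicator hm, e1 ▸ h⟩

theorem tail {q N ε : ℝ} (hq : 0 < q) (hV : PotR q N V) (hε : 0 < ε) : ∃ A : Set E,
    MeasurableSet A ∧ Nice (A.indicator V) ∧ PotR q N (A.indicator V) ∧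
      PotR q ε (Aᶜ.indicator V) := by
  set A : ℕ → Set E := fun k => {x | V x ≤ k} ∩ Metric.ball 0 k with hA
  have hm : ∀ k, MeasurableSet (A k) := fun k =>
    (measurableSet_le hV.meas measurable_const).inter measurableSet_ball
  have h0 : ∀ x, 0 ≤ V x ^ q := fun x => Real.rpow_nonneg (hV.nonneg x) _
  have hT := tendsto_integral_of_dominated_convergence (μ := (volume : Measure E))
    (F := fun k => (A k)ᶜ.indicator fun x => V x ^ q) (f := fun _ => 0) (fun x => V x ^ q)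
    (fun k => (hV.int.indicator (hm k).compl).1) hV.int
    (fun k => Eventually.of_forall fun x =>
      (norm_indicator_le_norm_self _ _).trans (Real.norm_of_nonneg (h0 x)).le)
    (Eventually.of_forall fun x => tendsto_const_nhds.congr' (by
      filter_upwards [tendsto_natCast_atTop_atTop.eventually (eventually_ge_atTop (V x)),
        tendsto_natCast_atTop_atTop.eventually (eventually_gt_atTop ‖x‖)] with k a1 a2
      exact (indicator_of_notMem (not_not.mpr ⟨a1, mem_ball_zero_iff.mpr a2⟩) _).symm))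
  rw [integral_zero] at hT
  obtain ⟨k, hk⟩ := (hT.eventually (gt_mem_nhds (Real.rpow_pos_of_pos hε q))).exists
  refine ⟨A k, hm k, ⟨hV.meas.indicator (hm k), indicator_nonneg fun y _ => hV.nonneg y,
    ⟨k, indicator_le' (fun x hx => hx.1) fun x _ => k.cast_nonneg⟩, k, fun x hx =>
      indicator_of_notMem (fun h => hx.not_gt (mem_ball_zero_iff.mp h.2)) _⟩,
    pot_ind hq hV (hm k) ((integral_mono (hV.int.indicator (hm k)) hV.int
      (indicator_le_self' fun x _ => h0 x)).trans hV.le), pot_ind hq hV (hm k).compl hk.le⟩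

end Att

open Att in
theorem stAtt2 (hc : Ctx α β m) (hH : StHB e α β m) (hK : StK e α β m) : StAtt2 e α β m := by
  intro q N V hq hN hV hl hall
  have hq0 : 0 < q := (Nat.cast_nonneg d).trans_lt hq
  set lam := lamD e α β m V with hlam
  set c : ℝ := (|lam| + m) / 2 with hcd
  have h1 : |lam| < m := abs_lt.mpr hl
  have hcm : c < m := by linarith
  have hlc : |lam| < c := by linarith
  have hsub : ∀ l ∈ Icc (-c) c, l ∈ Ioo (-m) m := fun l h => ⟨by linarith [h.1], h.2.trans_lt hcm⟩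
  have hl' : lam ∈ Icc (-c) c := abs_le.mp hlc.le
  obtain ⟨C, hC, hB⟩ := hH q hq
  have hb : 0 < m ^ 2 - c ^ 2 := by nlinarith [abs_nonneg lam]
  set Θ : ℝ := C * (m ^ 2 - c ^ 2) ^ (d / (2 * q) - 1) with hΘ
  have hΘ0 : 0 ≤ Θ := by positivity
  have hA : ∀ l ∈ Icc (-c) c, ∀ (N : ℝ) (H : E → ℝ), 0 ≤ N → PotR q N H →
      Adm H (fun z => ‖rk e α β m l z‖) (Θ * N) := fun l h N H a1 a2 =>
    (hB l (hsub l h) q le_rfl N H a1 a2).mono (mul_le_mul_of_nonneg_right
      (mul_le_mul_of_nonneg_left (Real.rpow_le_rpow_of_nonpos hb (by nlinarith [h.1, h.2]) (by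
        rw [sub_nonpos, div_le_one (by positivity)]
        linarith)) hC.le) a1)
  have ks := ks_rk hc.rep e m
  have kr : ∀ l ∈ Icc (-c) c, JD.Kr (rk e α β m l) := fun l h =>
    ⟨(ks l).meas, integrable_rk hc.rep e (hsub l h)⟩
  have hex : ∀ n : ℕ, ∃ l ∈ Icc (-c) c, |l - lam| < 1 / ((n : ℝ) + 1) ∧ ∃ g : E → S,
      MemLp g 2 volume ∧ JD.I2 g ≤ 1 ∧ 1 ≤ Bf (rk e α β m l) (sv V g) (sv V g) := fun n => by
    obtain ⟨l, a1, a2⟩ := exists_lt_of_csInf_lt
      (s := {l | l ∈ Ioo (-m) m ∧ IsEig e α β m V l} ∪ {m}) ⟨m, Or.inr rfl⟩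
      (lt_min (lt_add_of_pos_right lam (Nat.one_div_pos_of_nat (n := n)))
        ((le_abs_self lam).trans_lt hlc))
    have a3 : lam ≤ l := csInf_le ⟨-m, by
      rintro l (h | h)
      · exact h.1.1.le
      · rw [mem_singleton_iff.mp h]
        linarith [hc.pos]⟩ a1
    rw [lt_min_iff] at a2
    have a4 : l ∈ Icc (-c) c := ⟨hl'.1.trans a3, a2.2.le⟩
    obtain ⟨-, ψ, b1, b2, b3, b4⟩ := a1.resolve_right fun h => (a2.2.trans hcm).ne h
    have a5 := hA l a4 N V hN hV
    obtain ⟨c1, c2⟩ := Fix.form (ks l) hV.meas hV.nonneg a5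
      ⟨b1, b3, b2, (hK l (hsub l a4) V _ ψ hV.meas hV.nonneg a5 b1 b3).mp b4⟩
    rw [← I2_sv hV.nonneg] at c1 c2
    refine ⟨l, a4, by rw [abs_of_nonneg (sub_nonneg.mpr a3)]; linarith [a2.1], ?_⟩
    simp only [← Q_eq_Bf] at c1 ⊢
    exact JD.normalize (memLp_sv_of_int hV.meas hV.nonneg b1.1 b3) c2 c1.ge
  choose u hu hul f hf hf1 hfQ using hex
  obtain ⟨φ, hφ, F, hF, hF1, hlim⟩ := JD.weak_subseq f hf hf1
  refine ⟨_, fix (ks lam) (kr lam hl').int hV.meas hV.nonneg (hA lam hl' N V hN hV) hall hF hF1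
    (le_of_forall_pos_le_add fun η hη => ?_)⟩
  set K : ℝ := Θ + Θ * N with hKd
  have hK0 : 0 ≤ K := by positivity
  set s : ℝ := η / (2 * K + 1) with hs
  have hs0 : 0 < s := by positivity
  obtain ⟨A, hm, n1, p1, p2⟩ := tail hq0 hV (pow_pos hs0 2)
  have tr : ∀ l ∈ Icc (-c) c, ∀ g : E → S, MemLp g 2 volume → JD.I2 g ≤ 1 →
      |Bf (rk e α β m l) (sv V g) (sv V g) -
        JD.Q (fun x => √(A.indicator V x)) (rk e α β m l) g g| ≤ s * K := fun l h g a1 a2 => by
    rw [Q_eq_Bf]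
    exact trunc (ks l) hV.meas hV.nonneg hm hs0 (by positivity) hΘ0 (hA l h N V hN hV)
      (hA l h N _ hN p1) (hA l h _ _ (sq_nonneg s) p2) a1 a2
  obtain ⟨M, hw⟩ := JD.nice_wt n1
  obtain ⟨δ, hδ, h⟩ := rk_cont2 (by rw [finrank_eq e]; exact hc.two) hc.rep e hcm lam hl'
    (s / (M ^ 2 + 1)) (by positivity)
  have hQ := JD.Q_tendsto hw (kr lam hl') (fun n => hf (φ n)) (fun n => hf1 (φ n)) hF hF1 hlim
  have h2 : 1 - s * K - s ≤ JD.Q (fun x => √(A.indicator V x)) (rk e α β m lam) F F := by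
    refine ge_of_tendsto hQ ?_
    filter_upwards [((tendsto_one_div_add_atTop_nhds_zero_nat (𝕜 := ℝ)).comp
      hφ.tendsto_atTop).eventually (gt_mem_nhds hδ)] with n hn
    have a1 := JD.Q_sub_ker hw (kr _ (hu (φ n))) (kr lam hl') (hf (φ n)) (hf (φ n))
    have a2 : M ^ 2 / 2 * (JD.I2 (f (φ n)) + JD.I2 (f (φ n))) ≤ M ^ 2 + 1 := by
      nlinarith [hf1 (φ n), sq_nonneg M]
    have a3 := a1.trans (mul_le_mul a2 (h _ (hu (φ n)) ((hul (φ n)).trans hn)).le
      (integral_nonneg fun _ => norm_nonneg _) (by positivity))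
    rw [mul_div_cancel₀ _ (by positivity)] at a3
    linarith [(abs_le.mp a3).2, (abs_le.mp (tr _ (hu (φ n)) _ (hf (φ n)) (hf1 (φ n)))).2, hfQ (φ n)]
  have h3 : s * (2 * K + 1) = η := div_mul_cancel₀ _ (by positivity)
  linarith [(abs_le.mp (tr lam hl' F hF hF1)).1]

end Pool.Agent.MP_e4cac8_mp

end

section

/-! Bounds for the resolvent kernel against `L^q` potentials, uniform in `q`. -/

open Set MeasureTheory Filter Topology
open scoped ENNReal NNReal SchwartzMap
open Pool.Agent.MP_0b7119_mp.G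

namespace Pool.Agent.MP_e4cac8_mp

set_option linter.unusedSectionVars false

variable {E S : Type} [NormedAddCommGroup E] [InnerProductSpace ℝ E] [FiniteDimensional ℝ E]
  [MeasurableSpace E] [BorelSpace E] [NormedAddCommGroup S] [InnerProductSpace ℂ S]
  [CompleteSpace S] [FiniteDimensional ℂ S] {d : ℕ}

namespace HB

theorem young {h lam q : ℝ} (hh : 0 ≤ h) (hl : 0 < lam) (hq : 1 ≤ q) :
    h ≤ lam + lam ^ (1 - q) * h ^ q := by
  have h0 : 0 ≤ lam ^ (1 - q) * h ^ q := by positivity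
  rcases le_or_gt h lam with h1 | h1
  · linarith
  · have h2 : 0 < h := hl.trans h1
    have h3 : h ^ (1 - q) ≤ lam ^ (1 - q) := Real.rpow_le_rpow_of_nonpos hl h1.le (by linarith)
    have h4 : h ^ (1 - q) * h ^ q = h := by
      rw [← Real.rpow_add h2, sub_add_cancel, Real.rpow_one]
    have h5 := mul_le_mul_of_nonneg_right h3 (Real.rpow_nonneg hh q)
    linarith

theorem meas_heat (t : ℝ) : Measurable (heat t : E → ℝ) :=
  measurable_heat.comp (measurable_prodMk_left (x := t))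

/-- The bound for the heat kernel. -/
theorem adm_heat {q N t : ℝ} {H : E → ℝ} (hq : 1 ≤ q) (hN : 0 < N) (hH : PotR q N H) (ht : 0 < t) :
    Adm H (heat t) (2 * N * t ^ (-((Module.finrank ℝ E : ℝ) / (2 * q)))) := by
  set n : ℝ := (Module.finrank ℝ E : ℝ) with hn
  have hn0 : 0 ≤ n := Nat.cast_nonneg _
  have hq0 : 0 < q := by linarith
  have hP : ∀ z : E, heat t z ≤ t ^ (-n / 2) := fun z => by
    have h1 : (4 * Real.pi * t) ^ (-n / 2) ≤ t ^ (-n / 2) :=
      Real.rpow_le_rpow_of_nonpos ht (by nlinarith [Real.pi_gt_three]) (by linarith)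
    have h2 : Real.exp (-‖z‖ ^ 2 / (4 * t)) ≤ 1 := Real.exp_le_one_iff.2
      (div_nonpos_of_nonpos_of_nonneg (neg_nonpos.2 (sq_nonneg _)) (by positivity))
    exact (mul_le_of_le_one_right (by positivity) h2).trans h1
  set lam : ℝ := N * t ^ (-(n / (2 * q))) with hlam
  have hl : 0 < lam := by positivity
  have e : lam ^ (1 - q) * t ^ (-n / 2) * N ^ q = lam := by
    rw [hlam, Real.mul_rpow hN.le (by positivity), ← Real.rpow_mul ht.le, mul_assoc (N ^ _),
      ← Real.rpow_add ht, mul_right_comm, ← Real.rpow_add hN, sub_add_cancel, Real.rpow_one]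
    congr 2
    field_simp
    ring
  have hb : ∀ x y, H y * heat t (x - y) ≤
      lam * heat t (x - y) + lam ^ (1 - q) * t ^ (-n / 2) * H y ^ q := fun x y => by
    have h1 := mul_le_mul_of_nonneg_right (young (hH.nonneg y) hl hq) (heat_nonneg ht.le (x - y))
    have h2 := mul_le_mul_of_nonneg_left (hP (x - y))
      (mul_nonneg (Real.rpow_nonneg hl.le (1 - q)) (Real.rpow_nonneg (hH.nonneg y) q))
    linarith
  have i1 : ∀ x, Integrable (fun y : E => lam * heat t (x - y)) volume := fun x =>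
    ((integrable_heat ht).comp_sub_left x).const_mul lam
  have i2 := hH.int.const_mul (lam ^ (1 - q) * t ^ (-n / 2))
  have hi : ∀ x, Integrable (fun y => H y * heat t (x - y)) volume := fun x =>
    ((i1 x).add i2).mono'
      (hH.meas.mul ((meas_heat t).comp (measurable_const.sub measurable_id))).aestronglyMeasurable
      (Eventually.of_forall fun y => by
        rw [Real.norm_of_nonneg (mul_nonneg (hH.nonneg y) (heat_nonneg ht.le _))]
        exact hb x y)
  refine ⟨hi, fun x => (integral_mono (hi x) ((i1 x).add i2) (hb x)).trans ?_⟩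
  simp only [Pi.add_apply]
  rw [integral_add (i1 x) i2, integral_const_mul, integral_const_mul,
    integral_sub_left_eq_self (heat t) volume x, integral_heat ht]
  have h3 := mul_le_mul_of_nonneg_left hH.le
    (show 0 ≤ lam ^ (1 - q) * t ^ (-n / 2) by positivity)
  rw [mul_assoc 2]
  linarith

theorem gamma_le {a : ℝ} (h0 : 0 < a) (h1 : a ≤ 1) : Real.Gamma a ≤ 1 / a := by
  have h2 := Real.convexOn_Gamma.le_max_of_mem_Icc (x := 1) (y := 2) (z := a + 1)
    (mem_Ioi.2 one_pos) (mem_Ioi.2 two_pos) ⟨by linarith, by linarith⟩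
  rw [Real.Gamma_one, Real.Gamma_two, max_self, Real.Gamma_add_one h0.ne'] at h2
  rw [le_div_iff₀ h0]
  linarith

/-- Integration in time. -/
theorem adm_time {H : E → ℝ} {k : ℝ → E → ℝ} {a a₀ b c : ℝ} (hH : Measurable H)
    (hH0 : ∀ y, 0 ≤ H y) (hk : Measurable fun p : ℝ × E => k p.1 p.2)
    (hk0 : ∀ t, 0 < t → ∀ z, 0 ≤ k t z) (ha₀ : 0 < a₀) (ha : a₀ ≤ a) (ha1 : a ≤ 1) (hb : 0 < b)
    (hc : 0 ≤ c) (h : ∀ t, 0 < t → Adm H (k t) (c * (t ^ (a - 1) * Real.exp (-(b * t))))) :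
    Adm H (fun z => ∫ t in Ioi (0 : ℝ), k t z) (c * (b ^ (-a) / a₀)) := by
  have ha0 : 0 < a := ha₀.trans_le ha
  have i0 := (integrableOn_exp_rpow hb (show -1 < a - 1 by linarith)).const_mul c
  have hi : ∀ x, Integrable (fun p : ℝ × E => H p.2 * k p.1 (x - p.2))
      ((volume.restrict (Ioi 0)).prod volume) := fun x => by
    have hm : Measurable fun p : ℝ × E => H p.2 * k p.1 (x - p.2) :=
      (hH.comp measurable_snd).mul
        (hk.comp (measurable_fst.prodMk (measurable_const.sub measurable_snd)))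
    rw [integrable_prod_iff hm.aestronglyMeasurable]
    refine ⟨(ae_restrict_iff' measurableSet_Ioi).2 (Eventually.of_forall fun t ht =>
      (h t ht).int x), ?_⟩
    refine i0.mono' hm.norm.stronglyMeasurable.integral_prod_right'.aestronglyMeasurable
      ((ae_restrict_iff' measurableSet_Ioi).2 (Eventually.of_forall fun t ht => ?_))
    rw [Real.norm_of_nonneg (integral_nonneg fun z => norm_nonneg _)]
    simp only [fun y => Real.norm_of_nonneg (mul_nonneg (hH0 y) (hk0 t ht (x - y)))]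
    exact (h t ht).le x
  refine ⟨fun x => ?_, fun x => ?_⟩
  · simp only [← integral_const_mul]
    exact (hi x).integral_prod_right
  · simp only [← integral_const_mul]
    rw [← integral_integral_swap (f := fun t y => H y * k t (x - y)) (hi x)]
    refine (setIntegral_mono_on (hi x).integral_prod_left i0 measurableSet_Ioi
      fun t ht => (h t ht).le x).trans ?_
    rw [integral_const_mul, Real.integral_rpow_mul_exp_neg_mul_Ioi ha0 hb, one_div,
      Real.inv_rpow hb.le, ← Real.rpow_neg hb.le, div_eq_mul_one_div]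
    refine mul_le_mul_of_nonneg_left (mul_le_mul_of_nonneg_left ((gamma_le ha0 ha1).trans ?_)
      (Real.rpow_nonneg hb.le _)) hc
    exact one_div_le_one_div_of_le ha₀ ha

theorem adm_gk {q N b a₀ : ℝ} {H : E → ℝ} (hq : 1 ≤ q) (hN : 0 < N) (hH : PotR q N H) (hb : 0 < b)
    (ha₀ : 0 < a₀) (ha : a₀ ≤ 1 / 2 - (Module.finrank ℝ E : ℝ) / (2 * q)) :
    Adm H (gk b) (2 * N * (b ^ (-(1 - (Module.finrank ℝ E : ℝ) / (2 * q))) / a₀)) := by
  have hs : 0 ≤ (Module.finrank ℝ E : ℝ) / (2 * q) := by positivity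
  refine adm_time (k := fun t z => Real.exp (-b * t) * heat t z) hH.meas hH.nonneg
    ((by fun_prop : Measurable fun p : ℝ × E => Real.exp (-b * p.1)).mul measurable_heat)
    (fun t ht z => mul_nonneg (Real.exp_pos _).le (heat_nonneg ht.le z)) ha₀ (by linarith)
    (by linarith) hb (by positivity) fun t ht => ?_
  refine ((adm_heat hq hN hH ht).const_mul (Real.exp_pos (-b * t)).le).mono (le_of_eq ?_)
  rw [sub_sub_cancel_left, neg_mul]
  ring

theorem adm_qk {q N b a₀ : ℝ} {H : E → ℝ} (hq : 1 ≤ q) (hN : 0 < N) (hH : PotR q N H) (hb : 0 < b)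
    (ha₀ : 0 < a₀) (ha : a₀ ≤ 1 / 2 - (Module.finrank ℝ E : ℝ) / (2 * q)) :
    Adm H (fun z => qk b z * ‖z‖)
      (cH E * N * (b ^ (-(1 / 2 - (Module.finrank ℝ E : ℝ) / (2 * q))) / a₀)) := by
  have hs : 0 ≤ (Module.finrank ℝ E : ℝ) / (2 * q) := by positivity
  have hc := cH_pos (E := E)
  have hm : Measurable
      fun p : ℝ × E => Real.exp (-b * p.1) * (heat p.1 p.2 / (2 * p.1)) * ‖p.2‖ :=
    ((by fun_prop : Measurable fun p : ℝ × E => Real.exp (-b * p.1)).mul
      (measurable_heat.div (by fun_prop))).mul (by fun_prop)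
  have h0 : ∀ t : ℝ, 0 < t → ∀ z : E, 0 ≤ Real.exp (-b * t) * (heat t z / (2 * t)) * ‖z‖ :=
    fun t ht z => by
      have := heat_nonneg ht.le z
      positivity
  simp only [qk_mul_norm]
  refine adm_time (k := fun t z => Real.exp (-b * t) * (heat t z / (2 * t)) * ‖z‖) hH.meas
    hH.nonneg hm h0 ha₀ ha (by linarith) hb (by positivity) fun t ht => ?_
  refine (((adm_heat hq hN hH (show 0 < 2 * t by linarith)).const_mul
    (show 0 ≤ Real.exp (-b * t) / (2 * t) * (cH E * √t) by positivity)).of_le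
    (a' := fun z => Real.exp (-b * t) * (heat t z / (2 * t)) * ‖z‖) hH.meas hH.nonneg
    (hm.comp (measurable_prodMk_left (x := t))) (h0 t ht)
    fun x => Eventually.of_forall fun y => ?_).mono ?_
  · have := mul_le_mul_of_nonneg_left (heat_mul_norm_le ht (x - y))
      (show 0 ≤ Real.exp (-b * t) / (2 * t) by positivity)
    calc _ = Real.exp (-b * t) / (2 * t) * (heat t (x - y) * ‖x - y‖) := by ring
      _ ≤ _ := this
      _ = _ := by ring
  · set s : ℝ := (Module.finrank ℝ E : ℝ) / (2 * q)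
    have h1 : (2 * t) ^ (-s) ≤ t ^ (-s) :=
      Real.rpow_le_rpow_of_nonpos ht (by linarith) (by linarith)
    have h2 : t ^ (1 / 2 - s - 1) = √t * t ^ (-s) / t := by
      rw [Real.rpow_sub_one ht.ne', sub_eq_add_neg, Real.rpow_add ht, Real.sqrt_eq_rpow]
    calc _ ≤ Real.exp (-b * t) / (2 * t) * (cH E * √t) * (2 * N * t ^ (-s)) := by gcongr
      _ = _ := by
        rw [h2, neg_mul]
        field_simp

end HB

variable (e : OrthonormalBasis (Fin d) ℝ E) (α : Fin d → S →L[ℂ] S) (β : S →L[ℂ] S) (m : ℝ)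

theorem stHB (hc : Ctx α β m) : StHB e α β m := by
  intro q₀ hq₀
  have hd : (2 : ℝ) ≤ d := by exact_mod_cast hc.two
  have hm := hc.pos
  have hH := cH_pos (E := E)
  have hq0 : 0 < q₀ := by linarith
  have ha₀ : 0 < 1 / 2 - (d : ℝ) / (2 * q₀) := by
    rw [sub_pos, div_lt_div_iff₀ (by positivity) (by norm_num)]
    linarith
  set a₀ : ℝ := 1 / 2 - (d : ℝ) / (2 * q₀) with ha₀e
  refine ⟨(4 + cH E) * m / a₀, by positivity, fun l hl q hq N H hN hV => ?_⟩
  have hb := gap_pos hl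
  rcases hN.eq_or_lt with rfl | hN
  · have h1 : (fun x => H x ^ q) =ᵐ[volume] 0 := by
      refine (integral_eq_zero_iff_of_nonneg (fun x => Real.rpow_nonneg (hV.nonneg x) q)
        hV.int).1 (le_antisymm ?_ (integral_nonneg fun x => Real.rpow_nonneg (hV.nonneg x) q))
      have := hV.le
      rwa [Real.zero_rpow (by linarith)] at this
    have h2 : ∀ x, (fun y => H y * ‖rk e α β m l (x - y)‖) =ᵐ[volume] 0 := fun x => by
      filter_upwards [h1] with y hy
      simp [(Real.rpow_eq_zero (hV.nonneg y) (by linarith)).1 hy]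
    exact ⟨fun x => (integrable_zero _ _ _).congr (h2 x).symm, fun x => by
      rw [integral_eq_zero_of_ae (h2 x), mul_zero]⟩
  have ha : a₀ ≤ 1 / 2 - (Module.finrank ℝ E : ℝ) / (2 * q) := by
    rw [finrank_eq e, ha₀e]
    gcongr
  have h1 := HB.adm_gk (by linarith) hN hV hb ha₀ ha
  have h2 := HB.adm_qk (by linarith) hN hV hb ha₀ ha
  rw [finrank_eq e] at h1 h2
  refine (((h1.const_mul (show 0 ≤ |m| + |l| by positivity)).add_right h2).of_le hV.meas hV.nonneg
    (ks_rk hc.rep e m l).mnorm (fun _ => norm_nonneg _)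
    fun x => Eventually.of_forall fun y => norm_rk_le hc.rep e m l _).mono ?_
  set b : ℝ := m ^ 2 - l ^ 2 with hbe
  set s : ℝ := (d : ℝ) / (2 * q)
  have h3 : |m| + |l| ≤ 2 * m := by
    rw [abs_of_pos hm]
    linarith [abs_le.2 ⟨hl.1.le, hl.2.le⟩]
  have h4 : b ^ (-(1 / 2 - s)) ≤ m * b ^ (s - 1) := by
    rw [show -(1 / 2 - s) = 1 / 2 + (s - 1) by ring, Real.rpow_add hb, ← Real.sqrt_eq_rpow]
    refine mul_le_mul_of_nonneg_right (Real.sqrt_le_iff.2 ⟨hm.le, ?_⟩) (Real.rpow_nonneg hb.le _)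
    linarith [sq_nonneg l]
  rw [neg_sub 1 s]
  calc _ ≤ 2 * m * (2 * N * (b ^ (s - 1) / a₀)) + cH E * N * (m * b ^ (s - 1) / a₀) := by gcongr
    _ = _ := by ring

end Pool.Agent.MP_e4cac8_mp

end

section

/-! The minimiser of the pointwise problem. -/

open Set Filter Topology

namespace Pool.Agent.MP_e4cac8_mp

namespace Vm

variable {p a M : ℝ}

theorem cont (hp : 2 ≤ p) (ha : 0 < a) (y t : ℝ) {v : ℝ} (hv : 0 ≤ v) :
    ContinuousAt (fun v : ℝ => v ^ (p - 1)) v ∧
      ContinuousAt (fun v : ℝ => t ^ 2 + y ^ 2 / (a + v) ^ 2) v :=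
  ⟨Real.continuousAt_rpow_const _ _ (Or.inr (by linarith)),
    continuousAt_const.add (continuousAt_const.div (by fun_prop) (by positivity))⟩

theorem mem (hp : 2 ≤ p) (ha : 0 < a) (hM : 0 < M) (y t : ℝ) :
    Vm p a M y t ∈ Icc 0 M ∧ Vm p a M y t ^ (p - 1) ≤ t ^ 2 + y ^ 2 / (a + Vm p a M y t) ^ 2 := by
  refine IsClosed.csSup_mem (isClosed_Icc.isClosed_le
    (fun v hv => (cont hp ha y t hv.1).1.continuousWithinAt)
    fun v hv => (cont hp ha y t hv.1).2.continuousWithinAt) ⟨0, ⟨le_rfl, hM.le⟩, ?_⟩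
    ⟨M, fun v hv => hv.1.2⟩
  rw [Real.zero_rpow (by linarith)]
  positivity

theorem le {y t v : ℝ} (hv : v ∈ Icc 0 M) (h : v ^ (p - 1) ≤ t ^ 2 + y ^ 2 / (a + v) ^ 2) :
    v ≤ Vm p a M y t :=
  le_csSup ⟨M, fun _ hv => hv.1.2⟩ ⟨hv, h⟩

theorem lt (hp : 2 ≤ p) (ha : 0 < a) (hM : 0 < M) {y t v : ℝ} (hv : 0 ≤ v)
    (h : v < Vm p a M y t) : v ^ (p - 1) < t ^ 2 + y ^ 2 / (a + v) ^ 2 :=
  ((Real.rpow_lt_rpow hv h (by linarith)).trans_le (mem hp ha hM y t).2).trans_le (by gcongr)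

theorem eq (hp : 2 ≤ p) (ha : 0 < a) (hM : 0 < M) {y t : ℝ} (h : Vm p a M y t < M) :
    Vm p a M y t ^ (p - 1) = t ^ 2 + y ^ 2 / (a + Vm p a M y t) ^ 2 := by
  obtain ⟨h0, h1⟩ := mem hp ha hM y t
  refine h1.eq_or_lt.resolve_right fun h2 => ?_
  obtain ⟨c1, c2⟩ := cont hp ha y t h0.1
  obtain ⟨v, ⟨h3, h4⟩, h5⟩ := ((((c1.eventually_lt c2 h2).and (gt_mem_nhds h)).filter_mono
    nhdsWithin_le_nhds).and (self_mem_nhdsWithin (s := Ioi (Vm p a M y t)))).exists
  exact (le ⟨h0.1.trans (le_of_lt h5), h4.le⟩ h3.le).not_gt h5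

end Vm

open Vm in
theorem stVm : StVm := by
  intro p a M hp ha hM
  refine ⟨continuous_iff_continuousAt.2 fun z => tendsto_order.2 ⟨fun c hc => ?_, fun c hc => ?_⟩,
    fun y t => ?_⟩
  · rcases lt_or_ge c 0 with h | h
    · exact Eventually.of_forall fun w => h.trans_le (mem hp ha hM _ _).1.1
    obtain ⟨v, h1, h2⟩ := exists_between hc
    have hv : v ∈ Icc 0 M := ⟨h.trans h1.le, h2.le.trans (mem hp ha hM _ _).1.2⟩
    filter_upwards [continuousAt_const.eventually_lt (by fun_prop : ContinuousAt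
      (fun w : ℝ × ℝ => w.2 ^ 2 + w.1 ^ 2 / (a + v) ^ 2) z) (lt hp ha hM hv.1 h2)] with w hw
    exact h1.trans_le (le hv hw.le)
  · rcases lt_or_ge M c with h | h
    · exact Eventually.of_forall fun w => (mem hp ha hM _ _).1.2.trans_lt h
    obtain ⟨v, h1, h2⟩ := exists_between hc
    have hv : v ∈ Icc 0 M := ⟨(mem hp ha hM _ _).1.1.trans h1.le, h2.le.trans h⟩
    filter_upwards [(by fun_prop : ContinuousAt
      (fun w : ℝ × ℝ => w.2 ^ 2 + w.1 ^ 2 / (a + v) ^ 2) z).eventually_lt continuousAt_const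
      (not_le.1 fun h3 => (le (p := p) hv h3).not_gt h1)] with w hw
    exact (not_lt.1 fun h3 => (lt hp ha hM hv.1 h3).not_gt hw).trans_lt h2
  · obtain ⟨h0, h1⟩ := mem hp ha hM y t
    have hq : p - 1 ≠ 0 := by linarith
    refine ⟨h0.1, h0.2, h1, eq hp ha hM, ?_⟩
    rcases h0.2.eq_or_lt with h | h
    · refine h.trans (min_eq_left ?_).symm
      rw [Real.le_rpow_inv_iff_of_pos hM.le (by have := h0.1; positivity) (by linarith)]
      exact (congrArg (· ^ (p - 1)) h).symm.trans_le h1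
    · rw [← eq hp ha hM h, Real.rpow_rpow_inv h0.1 hq, min_eq_right h.le]

end Pool.Agent.MP_e4cac8_mp

end
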