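import Pool.Agent.Mg.Fe4cac8.G43e91a
import Mathlib

set_option linter.all false

section

/-! The null Lagrangian identity for weights that depend on the level. -/

open Set MeasureTheory Filter Topology
open scoped ENNReal NNReal SchwartzMap
open Pool.Agent.MP_0b7119_mp.G

namespace Pool.Agent.MP_e4cac8_mp

set_option linter.unusedSectionVars false

variable {E S : Type} [NormedAddCommGroup E] [InnerProductSpace ℝ E] [FiniteDimensional ℝ E]
  [MeasurableSpace E] [BorelSpace E] [NormedAddCommGroup S] [InnerProductSpace ℂ S]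
  [CompleteSpace S] [FiniteDimensional ℂ S] {d : ℕ}

namespace NL

theorem avg_zero {κ : ℝ → ℝ} {ε : ℝ} (hε : 0 < ε) (h : ∀ s ≤ ε, κ s = 0) {t : ℝ} (ht : t ≤ ε) :
    avg κ t = 0 := by
  rw [avg, intervalIntegral.integral_congr (g := fun _ => 0)
    fun s hs => h s (hs.2.trans (max_le hε.le ht))]
  simp

theorem avg_c1 {κ : ℝ → ℝ} (hκ : Continuous κ) {ε : ℝ} (hε : 0 < ε) (h : ∀ s ≤ ε, κ s = 0) :
    ContDiff ℝ 1 (avg κ) := by
  have hF : ContDiff ℝ 1 fun t => ∫ s in (0 : ℝ)..t, κ s := by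
    rw [contDiff_one_iff_deriv]
    refine ⟨fun t => (hκ.integral_hasStrictDerivAt 0 t).hasDerivAt.differentiableAt, ?_⟩
    rw [show (deriv fun t => ∫ s in (0 : ℝ)..t, κ s) = κ from
      funext fun t => hκ.deriv_integral κ 0 t]
    exact hκ
  rw [contDiff_iff_contDiffAt]
  intro t
  rcases eq_or_ne t 0 with rfl | ht
  · refine (contDiffAt_const (c := (0 : ℝ))).congr_of_eventuallyEq ?_
    filter_upwards [Iic_mem_nhds hε] with s hs
    exact avg_zero hε h hs
  · exact hF.contDiffAt.div contDiffAt_id ht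

theorem avg_der {κ : ℝ → ℝ} (hκ : Continuous κ) {t : ℝ} (ht : t ≠ 0) :
    HasDerivAt (avg κ) ((κ t - avg κ t) / t) t := by
  refine ((hκ.integral_hasStrictDerivAt 0 t).hasDerivAt.div (hasDerivAt_id t) ht).congr_deriv ?_
  simp only [avg, id]
  field_simp

end NL

variable {e : OrthonormalBasis (Fin d) ℝ E} {α : Fin d → S →L[ℂ] S} {β : S →L[ℂ] S} {m : ℝ}

theorem stNL (hc : Ctx α β m) (h0 : StNL0 e α) (hM : StMC) (hA : StAlg e α) : StNL e α := by
  intro u hu
  obtain ⟨⟨-, mP, mn, mq, -, -⟩, -, hx, L, hL⟩ := hA u hu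
  have uc := hu.c1.continuous
  have hU : MeasurableSet {x | u x ≠ 0} := (isOpen_ne_fun uc continuous_const).measurableSet
  have hd : (2 : ℝ) ≤ d := by exact_mod_cast hc.two
  have hb : ∀ x, u x ≠ 0 → |nf e α u x - qf e u x| ≤ (d + 1) * G2 e u x ∧
      |2 * Pf e α u x| ≤ (d + 1) * G2 e u x := fun x h => by
    obtain ⟨-, a, b, -⟩ := hx x h
    have n0 : 0 ≤ nf e α u x := sq_nonneg _
    have q0 : 0 ≤ qf e u x := nonneg_of_mul_nonneg_right (n0.trans b) (by linarith)
    have g0 := sq_nonneg (gf u x)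
    have hq : qf e u x = G2 e u x - gf u x ^ 2 := rfl
    have c : nf e α u x ≤ d * G2 e u x := b.trans (by nlinarith)
    have p : |2 * Pf e α u x| ≤ gf u x ^ 2 + nf e α u x :=
      abs_le_of_sq_le_sq' (by nlinarith [sq_nonneg (gf u x ^ 2 - nf e α u x)]) (by linarith)
        |> abs_le.2
    exact ⟨abs_le.2 ⟨by nlinarith, by nlinarith⟩, p.trans (by nlinarith)⟩
  have hi : ∀ f : E → ℝ, Measurable f → (∀ x, u x ≠ 0 → |f x| ≤ (d + 1) * G2 e u x) →
      Integrable f (volume.restrict {x | u x ≠ 0}) := fun f hf h =>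
    (hu.dl2.const_mul (d + 1)).integrableOn.mono' hf.aestronglyMeasurable
      (ae_restrict_of_forall_mem hU h)
  refine hM E _ (fun x => ‖u x‖ ^ 2) _ _ (uc.norm.pow 2).measurable
    (ae_restrict_of_forall_mem hU fun x h => pow_pos (norm_pos_iff.2 h) 2)
    (hi _ (mn.sub mq) fun x h => (hb x h).1) (hi _ (mP.const_mul 2) fun x h => (hb x h).2) ?_
  rintro κ hκ ⟨ε, hε, hz⟩ -
  have hη : ContDiff ℝ 1 fun x => avg κ (‖u x‖ ^ 2) :=
    (NL.avg_c1 hκ hε hz).comp (hu.c1.norm_sq ℂ)
  have hs : HasCompactSupport fun x => avg κ (‖u x‖ ^ 2) := by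
    refine HasCompactSupport.intro (hL.bdd √ε (Real.sqrt_pos.2 hε)).isCompact_closure
      fun x h => NL.avg_zero hε hz ?_
    have h1 : ¬ √ε ≤ ‖u x‖ := fun h' => h (subset_closure h')
    exact (pow_le_pow_left₀ (norm_nonneg _) (not_le.1 h1).le 2).trans_eq (Real.sq_sqrt hε.le)
  rw [← h0 u _ hu.c1 hη hs, ← setIntegral_eq_integral_of_forall_compl_eq_zero
    (s := {x | u x ≠ 0}) (μ := volume)]
  · refine setIntegral_congr_fun hU fun x (h : u x ≠ 0) => ?_
    obtain ⟨a, -, -, b, c⟩ := hx x h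
    have r0 : ‖u x‖ ≠ 0 := norm_ne_zero_iff.2 h
    have dρ : DifferentiableAt ℝ (fun y => ‖u y‖) x :=
      (hu.c1.contDiffAt.norm ℂ h).differentiableAt one_ne_zero
    set t := 2 * (κ (‖u x‖ ^ 2) - avg κ (‖u x‖ ^ 2)) with ht
    have dη : ∀ j, fderiv ℝ (fun x => avg κ (‖u x‖ ^ 2)) x (e j) =
        t * (fderiv ℝ (fun y => ‖u y‖) x (e j) / ‖u x‖) := fun j => by
      have := (NL.avg_der hκ (pow_ne_zero 2 r0)).comp_hasFDerivAt x (dρ.hasFDerivAt.pow 2)
      rw [show (fun x => avg κ (‖u x‖ ^ 2)) = avg κ ∘ fun x => ‖u x‖ ^ 2 from rfl, this.fderiv]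
      simp only [smul_apply, smul_eq_mul, nsmul_eq_mul, ht]
      field_simp
      ring
    have s1 : ∑ j, ((fderiv ℝ (fun x => avg κ (‖u x‖ ^ 2)) x (e j) : ℝ) : ℂ) • α j (u x) =
        (t : ℂ) • Nv e α u x := by
      simp only [dη, Nv, Finset.smul_sum, smul_smul, Complex.ofReal_mul]
    have s2 : ∑ j, fderiv ℝ (fun x => avg κ (‖u x‖ ^ 2)) x (e j) *
        (inner ℂ (u x) (fderiv ℝ u x (e j))).re = t * gf u x ^ 2 := by
      rw [c, Finset.mul_sum]
      refine Finset.sum_congr rfl fun j _ => ?_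
      rw [dη, ← b]
      field_simp
    have s3 : ‖Zf e α u x‖ ^ 2 = ‖Nv e α u x‖ ^ 2 + 2 * Pf e α u x + nf e α u x := by
      have := norm_add_sq (𝕜 := ℂ) (Nv e α u x) (Zf e α u x - Nv e α u x)
      rwa [add_sub_cancel] at this
    have s4 : Pf e α u x = (inner ℂ (Nv e α u x) (Zf e α u x)).re - ‖Nv e α u x‖ ^ 2 := by
      rw [Pf, inner_sub_right, Complex.sub_re, ← inner_self_eq_norm_sq (𝕜 := ℂ)]
      rfl
    simp only [s1, s2, inner_smul_left, Complex.conj_ofReal, Complex.re_ofReal_mul, qf]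
    rw [a, show (inner ℂ (Nv e α u x) (Zf e α u x)).re = Pf e α u x + gf u x ^ 2 by linarith, ht]
    ring
  · intro x h
    simp [show u x = 0 from not_not.1 h, avg]

end Pool.Agent.MP_e4cac8_mp

end

section

/-! The null Lagrangian identity. -/

open Set MeasureTheory Filter Topology
open scoped ENNReal NNReal SchwartzMap Convolution
open Pool.Agent.MP_0b7119_mp.G

namespace Pool.Agent.MP_e4cac8_mp

set_option linter.unusedSectionVars false

variable {E S : Type} [NormedAddCommGroup E] [InnerProductSpace ℝ E] [FiniteDimensional ℝ E]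
  [MeasurableSpace E] [BorelSpace E] [NormedAddCommGroup S] [InnerProductSpace ℂ S]
  [CompleteSpace S] [FiniteDimensional ℂ S] {d : ℕ}

namespace NL0

theorem cD {f : E → S} (hf : ContDiff ℝ 1 f) (v : E) : Continuous fun a => fderiv ℝ f a v :=
  (hf.continuous_fderiv one_ne_zero).clm_apply continuous_const

theorem dR (B : S →L[ℝ] S →L[ℝ] ℝ) {f g : E → S} (hf : Continuous f) (hg : ContDiff ℝ 1 g)
    (cg : HasCompactSupport g) (w y : E) :
    fderiv ℝ (f ⋆[B, volume] g) y w = (f ⋆[B, volume] fun a => fderiv ℝ g a w) y := by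
  rw [(cg.hasFDerivAt_convolution_right B hf.locallyIntegrable hg y).fderiv,
    convolution_precompR_apply B hf.locallyIntegrable (cg.fderiv ℝ)
      (hg.continuous_fderiv one_ne_zero)]

theorem dL (B : S →L[ℝ] S →L[ℝ] ℝ) {f g : E → S} (hf : ContDiff ℝ 1 f) (hg : Continuous g)
    (cf : HasCompactSupport f) (w y : E) :
    fderiv ℝ (f ⋆[B, volume] g) y w = ((fun a => fderiv ℝ f a w) ⋆[B, volume] g) y := by
  rw [← convolution_flip, dR _ hg hf cf, convolution_flip]

theorem swap (B : S →L[ℝ] S →L[ℝ] ℝ) {f h : E → S} (hf : ContDiff ℝ 1 f) (hh : ContDiff ℝ 1 h)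
    (cf : HasCompactSupport f) (v w : E) :
    ∫ x, B (fderiv ℝ f x v) (fderiv ℝ h x w) = ∫ x, B (fderiv ℝ f x w) (fderiv ℝ h x v) := by
  obtain ⟨R, hR, hs⟩ := cf.isCompact.isBounded.subset_ball_lt 0 0
  let c : ContDiffBump (0 : E) := ⟨R, R + 1, hR, lt_add_one R⟩
  let k : E → S := fun x => c x • h x
  have hk : ContDiff ℝ 1 k := c.contDiff.smul hh
  have hg : ContDiff ℝ 1 fun x => k (-x) := hk.comp contDiff_neg
  have cg : HasCompactSupport fun x => k (-x) :=
    (c.hasCompactSupport.smul_right (f' := h)).comp_homeomorph (Homeomorph.neg E)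
  have e : ∀ v w, ((fun a => fderiv ℝ f a v) ⋆[B, volume] fun a =>
      fderiv ℝ (fun x => k (-x)) a w) 0 = -∫ x, B (fderiv ℝ f x v) (fderiv ℝ h x w) := fun v w => by
    rw [convolution_def, ← integral_neg]
    congr 1
    ext x
    by_cases hx : x ∈ tsupport f
    · have a : HasFDerivAt k (fderiv ℝ h x) (-(0 - x)) := by
        rw [zero_sub, neg_neg]
        refine (hh.differentiable one_ne_zero x).hasFDerivAt.congr_of_eventuallyEq ?_
        filter_upwards [c.eventuallyEq_one_of_mem_ball (hs hx)] with z hz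
        simp [k, hz]
      rw [show fderiv ℝ (fun x => k (-x)) (0 - x) = _ from
        (a.comp (0 - x) (hasFDerivAt_id _).neg).fderiv]
      simp
    · simp [fderiv_of_notMem_tsupport ℝ hx]
  have := congrArg (fderiv ℝ · 0 v) (funext fun y =>
    (dR B hf.continuous hg cg w y).symm.trans (dL B hf hg.continuous cf w y))
  rwa [dL B hf (cD hg w) cf, dR B (cD hf w) hg cg, e, e, neg_inj] at this

theorem exB (a b : S →L[ℂ] S) :
    ∃ B : S →L[ℝ] S →L[ℝ] ℝ, ∀ s t, B s t = (inner ℂ (a s) (b t)).re :=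
  ⟨(ContinuousLinearMap.compL ℝ S ℂ ℝ Complex.reCLM).comp
    ((isBoundedBilinearMap_inner (𝕜 := ℂ)).toContinuousLinearMap.bilinearComp
      (a.restrictScalars ℝ) (b.restrictScalars ℝ)), fun _ _ => rfl⟩

end NL0

variable {e : OrthonormalBasis (Fin d) ℝ E} {α : Fin d → S →L[ℂ] S} {β : S →L[ℂ] S} {m : ℝ}

theorem stNL0 (hc : Ctx α β m) : StNL0 e α := by
  intro u η hu hη cη
  choose B hB using fun j k => NL0.exB (α j) (α k)
  have hf : ContDiff ℝ 1 fun x => η x • u x := hη.smul hu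
  have cf : HasCompactSupport fun x => η x • u x := cη.smul_right
  have i : ∀ j k v w, Integrable fun x =>
      B j k (fderiv ℝ (fun x => η x • u x) x v) (fderiv ℝ u x w) := fun j k v w =>
    (((B j k).continuous.comp (NL0.cD hf v)).clm_apply
      (NL0.cD hu w)).integrable_of_hasCompactSupport ((cf.fderiv_apply ℝ v).mono fun x hx h =>
        hx (by simp [h]))
  have alg : ∀ s t : Fin d → S, ∑ j, ∑ k, (B j k (s j) (t k) - B j k (s k) (t j)) =
      2 * ((inner ℂ (∑ j, α j (s j)) (∑ j, α j (t j))).re - ∑ j, (inner ℂ (s j) (t j)).re) :=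
    fun s t => by
      have a : ∀ j k, B j k (s j) (t k) + B k j (s j) (t k) =
          if j = k then 2 * (inner ℂ (s j) (t k)).re else 0 := fun j k => by
        rw [hB, hB, ← ContinuousLinearMap.adjoint_inner_right,
          ← ContinuousLinearMap.adjoint_inner_right, (hc.rep.sa_α j).adjoint_eq,
          (hc.rep.sa_α k).adjoint_eq, ← Complex.add_re, ← inner_add_right]
        change (inner ℂ (s j) ((α j * α k + α k * α j) (t k))).re = _
        rw [hc.rep.αα]
        split_ifs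
        · simp [two_smul, two_mul]
        · simp
      have b := Finset.sum_congr rfl fun j (_ : j ∈ Finset.univ) =>
        Finset.sum_congr rfl fun k (_ : k ∈ Finset.univ) => a j k
      simp only [Finset.sum_add_distrib, Finset.sum_ite_eq, Finset.mem_univ, if_true,
        ← Finset.mul_sum] at b
      simp only [Finset.sum_sub_distrib, sum_inner, inner_sum, Complex.re_sum, ← hB]
      rw [Finset.sum_comm (f := fun j k => B j k (s k) (t j)),
        Finset.sum_comm (f := fun k j => B j k (s j) (t k))]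
      linarith
  have z : ∫ x, ∑ j, ∑ k, (B j k (fderiv ℝ (fun x => η x • u x) x (e j)) (fderiv ℝ u x (e k)) -
      B j k (fderiv ℝ (fun x => η x • u x) x (e k)) (fderiv ℝ u x (e j))) = 0 := by
    rw [integral_finsetSum _ fun j _ => integrable_finsetSum _ fun k _ =>
      (i j k _ _).sub' (i j k _ _)]
    refine Finset.sum_eq_zero fun j _ => ?_
    rw [integral_finsetSum _ fun k _ => (i j k _ _).sub' (i j k _ _)]
    refine Finset.sum_eq_zero fun k _ => ?_
    rw [integral_sub (i j k _ _) (i j k _ _), NL0.swap _ hf hu cf, sub_self]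
  simp only [alg (fun j => fderiv ℝ _ _ (e j)) fun j => fderiv ℝ u _ (e j)] at z
  rw [integral_const_mul, mul_eq_zero, or_iff_right two_ne_zero] at z
  rw [← z]
  congr 1
  ext x
  have n : ∀ s : S, ‖s‖ ^ 2 = (inner ℂ s s).re := fun s => (inner_self_eq_norm_sq (𝕜 := ℂ) s).symm
  have p : ∀ v, fderiv ℝ (fun x => η x • u x) x v =
      (η x : ℂ) • fderiv ℝ u x v + ((fderiv ℝ η x v : ℝ) : ℂ) • u x := fun v => by
    rw [fderiv_fun_smul (hη.differentiable one_ne_zero x) (hu.differentiable one_ne_zero x)]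
    rfl
  simp only [p, map_add, map_smul, Finset.sum_add_distrib, ← Finset.smul_sum, inner_add_left,
    inner_smul_left, Complex.conj_ofReal, Complex.add_re, Complex.re_ofReal_mul, ← Finset.mul_sum,
    G2, Zf, n]
  ring

end Pool.Agent.MP_e4cac8_mp

end

section

/-! The first variation of the radial form. -/

open Set MeasureTheory Filter Topology
open scoped NNReal

namespace Pool.Agent.MP_e4cac8_mp.ODE

theorem loc {f g : ℝ → ℝ} {K : ℝ} (hf : Measurable f) (hK : ∀ r, |f r| ≤ K) (hg : Continuous g) :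
    LocallyIntegrable (fun r => f r * g r) volume := by
  rw [locallyIntegrable_iff]
  intro C hC
  exact (hg.continuousOn.integrableOn_compact hC).bdd_mul (c := K) hf.aestronglyMeasurable
    (Eventually.of_forall hK)

theorem ii {f : ℝ → ℝ} (hf : LocallyIntegrable f volume) (x y : ℝ) :
    IntervalIntegrable f volume x y :=
  (hf.integrableOn_isCompact isCompact_uIcc).intervalIntegrable

theorem pert {F F' h : ℝ → ℝ} {y : ℝ} (hy : 0 < y) (hF : IntegrableOn F (Ioi 0) volume)
    (hh : IntervalIntegrable h volume 0 y)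
    (e : ∀ᵐ r : ℝ, (r < y → F' r = F r + h r) ∧ (y < r → F' r = F r)) :
    IntegrableOn F' (Ioi 0) volume ∧
      ∫ r in Ioi (0 : ℝ), F' r = (∫ r in Ioi (0 : ℝ), F r) + ∫ r in (0 : ℝ)..y, h r := by
  have h1 : IntegrableOn ((Ioc 0 y).indicator h) (Ioi 0) volume :=
    (hh.1.integrable_indicator measurableSet_Ioc).integrableOn
  have e1 : F' =ᵐ[volume.restrict (Ioi 0)] fun r => F r + (Ioc 0 y).indicator h r := by
    rw [EventuallyEq, ae_restrict_iff' measurableSet_Ioi]
    filter_upwards [e, Measure.ae_ne volume y] with r hr hne h0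
    rcases lt_or_gt_of_ne hne with h | h
    · rw [indicator_of_mem (show r ∈ Ioc 0 y from ⟨h0, h.le⟩), hr.1 h]
    · rw [indicator_of_notMem (fun hm : r ∈ Ioc 0 y => absurd hm.2 h.not_ge), hr.2 h, add_zero]
  refine ⟨(hF.add h1).congr e1.symm, ?_⟩
  rw [integral_congr_ae e1, integral_add hF h1, setIntegral_indicator measurableSet_Ioc,
    inter_eq_right.2 Ioc_subset_Ioi_self, intervalIntegral.integral_of_le hy.le]

theorem tent_deriv {φ : ℝ → ℝ} {L : ℝ≥0} (hL : LipschitzWith L φ) (y τ : ℝ) :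
    ∀ᵐ r : ℝ, (r < y → deriv (fun r => φ r + τ * max (y - r) 0) r = deriv φ r - τ ∧
        max (y - r) 0 = y - r) ∧
      (y < r → deriv (fun r => φ r + τ * max (y - r) 0) r = deriv φ r ∧ max (y - r) 0 = 0) := by
  filter_upwards [hL.ae_differentiableAt_real] with r hr
  refine ⟨fun h => ⟨?_, max_eq_left (by linarith)⟩, fun h => ⟨?_, max_eq_right (by linarith)⟩⟩
  · have h1 : HasDerivAt (fun r => φ r + τ * (y - r)) (deriv φ r + τ * (-1)) r :=
      hr.hasDerivAt.add (((hasDerivAt_id' r).const_sub y).const_mul τ)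
    have h2 : (fun r => φ r + τ * max (y - r) 0) =ᶠ[𝓝 r] fun r => φ r + τ * (y - r) := by
      filter_upwards [Iio_mem_nhds h] with t ht
      rw [max_eq_left (sub_nonneg.2 (le_of_lt ht))]
    rw [(h1.congr_of_eventuallyEq h2).deriv]
    ring
  · have h2 : (fun r => φ r + τ * max (y - r) 0) =ᶠ[𝓝 r] φ := by
      filter_upwards [Ioi_mem_nhds h] with t ht
      rw [max_eq_right (sub_nonpos.2 (le_of_lt ht)), mul_zero, add_zero]
    exact h2.deriv_eq

/-- Potentials with values in `[0, M]`. -/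
structure Pv (a M : ℝ) (v : ℝ → ℝ) : Prop where
  pos : 0 < a
  meas : Measurable v
  bd : ∀ r, 0 ≤ v r ∧ v r ≤ M

theorem Pv.den {a M : ℝ} {v : ℝ → ℝ} (h : Pv a M v) (r : ℝ) : 0 < a + v r :=
  add_pos_of_pos_of_nonneg h.pos (h.bd r).1

theorem Pv.inv {a M : ℝ} {v : ℝ → ℝ} (h : Pv a M v) (r : ℝ) : |(a + v r)⁻¹| ≤ a⁻¹ := by
  rw [abs_of_pos (inv_pos.2 (h.den r))]
  exact inv_anti₀ h.pos (le_add_of_nonneg_right (h.bd r).1)

theorem Pv.minv {a M : ℝ} {v : ℝ → ℝ} (h : Pv a M v) : Measurable fun r => (a + v r)⁻¹ :=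
  (h.meas.const_add a).inv

theorem Pv.sub {a M : ℝ} {v : ℝ → ℝ} (h : Pv a M v) (b r : ℝ) : |v r - b| ≤ M + |b| :=
  (abs_sub _ _).trans (by rw [abs_of_nonneg (h.bd r).1]; linarith [(h.bd r).2])

theorem Pv.quo {a M : ℝ} {v φ : ℝ → ℝ} (h : Pv a M v) {L : ℝ≥0} (hL : LipschitzWith L φ)
    {g : ℝ → ℝ} (hg : Continuous g) :
    LocallyIntegrable (fun r => deriv φ r / (a + v r) * g r) volume :=
  loc (K := L * a⁻¹) ((measurable_deriv φ).div (h.meas.const_add a)) (fun r => by
    rw [div_eq_mul_inv, abs_mul]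
    exact mul_le_mul (norm_deriv_le_of_lipschitz hL) (h.inv r) (abs_nonneg _) L.2) hg

theorem Pv.lu {a M : ℝ} {v : ℝ → ℝ} (h : Pv a M v) (b : ℝ) {g : ℝ → ℝ} (hg : Continuous g) :
    LocallyIntegrable (fun r => (v r - b) * g r) volume :=
  loc (h.meas.sub_const b) (h.sub b) hg

theorem var {k : ℕ} {a b M : ℝ} {v φ : ℝ → ℝ} {L : ℝ≥0} (hv : Pv a M v)
    (hL : LipschitzWith L φ) (i0 : IntegrableOn (fun r => φ r ^ 2 * r ^ k) (Ioi 0) volume)
    (i1 : IntegrableOn (fun r => deriv φ r ^ 2 * r ^ k) (Ioi 0) volume)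
    (hT : ∀ ψ : ℝ → ℝ, (∃ L, LipschitzWith L ψ) →
      IntegrableOn (fun r => ψ r ^ 2 * r ^ k) (Ioi 0) volume →
      IntegrableOn (fun r => deriv ψ r ^ 2 * r ^ k) (Ioi 0) volume →
      0 ≤ ∫ r in Ioi (0 : ℝ), (deriv ψ r ^ 2 / (a + v r) - (v r - b) * ψ r ^ 2) * r ^ k)
    (hen : ∫ r in Ioi (0 : ℝ), (deriv φ r ^ 2 / (a + v r) - (v r - b) * φ r ^ 2) * r ^ k ≤ 0)
    {y : ℝ} (hy : 0 < y) :
    ∫ r in (0 : ℝ)..y, (deriv φ r / (a + v r) * (-r ^ k) -
      (v r - b) * (φ r * r ^ k * (y - r))) = 0 := by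
  have hc := hL.continuous
  have iE : IntegrableOn (fun r => (deriv φ r ^ 2 / (a + v r) - (v r - b) * φ r ^ 2) * r ^ k)
      (Ioi 0) volume := by
    have h1 := i1.bdd_mul (c := a⁻¹) hv.minv.aestronglyMeasurable (Eventually.of_forall hv.inv)
    have h2 := i0.bdd_mul (c := M + |b|) (hv.meas.sub_const b).aestronglyMeasurable
      (Eventually.of_forall (hv.sub b))
    refine (h1.sub h2).congr (Eventually.of_forall fun r => ?_)
    simp only [Pi.sub_apply]
    ring
  have iB : IntervalIntegrable (fun r => deriv φ r / (a + v r) * (-r ^ k) -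
      (v r - b) * (φ r * r ^ k * (y - r))) volume 0 y :=
    (ii (hv.quo hL (by fun_prop)) 0 y).sub (ii (hv.lu b (by fun_prop)) 0 y)
  have iC : IntervalIntegrable (fun r => (a + v r)⁻¹ * r ^ k -
      (v r - b) * (r ^ k * (y - r) ^ 2)) volume 0 y :=
    (ii (loc hv.minv hv.inv (by fun_prop)) 0 y).sub (ii (hv.lu b (by fun_prop)) 0 y)
  set B := ∫ r in (0 : ℝ)..y, (deriv φ r / (a + v r) * (-r ^ k) -
    (v r - b) * (φ r * r ^ k * (y - r))) with hB
  set C := ∫ r in (0 : ℝ)..y, ((a + v r)⁻¹ * r ^ k - (v r - b) * (r ^ k * (y - r) ^ 2)) with hC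
  have key : ∀ τ : ℝ, 0 ≤ C * (τ * τ) + 2 * B * τ + 0 := fun τ => by
    have hd := tent_deriv hL y τ
    have l1 : ∃ L, LipschitzWith L fun r => φ r + τ * max (y - r) 0 :=
      ⟨_, hL.add ((lipschitzWith_smul τ).comp
        (((LipschitzWith.const y).sub LipschitzWith.id).max_const 0))⟩
    have j0 := (pert (F' := fun r => (φ r + τ * max (y - r) 0) ^ 2 * r ^ k)
      (h := fun r => (2 * τ * φ r * (y - r) + τ ^ 2 * (y - r) ^ 2) * r ^ k) hy i0
      (Continuous.intervalIntegrable (by fun_prop) _ _) (by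
        filter_upwards [hd] with r hr
        exact ⟨fun h => by rw [(hr.1 h).2]; ring, fun h => by rw [(hr.2 h).2]; ring⟩)).1
    have j1 := (pert (F' := fun r => deriv (fun r => φ r + τ * max (y - r) 0) r ^ 2 * r ^ k)
      (h := fun r => deriv φ r * (-2 * τ * r ^ k) + τ ^ 2 * r ^ k) hy i1
      ((ii (loc (K := L) (measurable_deriv φ) (fun _ => norm_deriv_le_of_lipschitz hL)
        (by fun_prop)) 0 y).add (Continuous.intervalIntegrable (by fun_prop) _ _)) (by
        filter_upwards [hd] with r hr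
        exact ⟨fun h => by rw [(hr.1 h).1]; ring, fun h => by rw [(hr.2 h).1]⟩)).1
    have j2 := (pert (F' := fun r => (deriv (fun r => φ r + τ * max (y - r) 0) r ^ 2 / (a + v r) -
        (v r - b) * (φ r + τ * max (y - r) 0) ^ 2) * r ^ k) hy iE
      ((iC.const_mul (τ * τ)).add (iB.const_mul (2 * τ))) (by
        filter_upwards [hd] with r hr
        exact ⟨fun h => by rw [(hr.1 h).1, (hr.1 h).2]; ring,
          fun h => by rw [(hr.2 h).1, (hr.2 h).2]; ring⟩)).2
    have h := hT _ l1 j0 j1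
    rw [j2, intervalIntegral.integral_add (iC.const_mul _) (iB.const_mul _),
      intervalIntegral.integral_const_mul, intervalIntegral.integral_const_mul, ← hB, ← hC] at h
    linarith
  have h := discrim_le_zero key
  rw [discrim] at h
  nlinarith

theorem el {k : ℕ} {a b M : ℝ} {v φ : ℝ → ℝ} {L : ℝ≥0} (hv : Pv a M v) (hL : LipschitzWith L φ)
    (h : ∀ y : ℝ, 0 < y → ∫ r in (0 : ℝ)..y, (deriv φ r / (a + v r) * (-r ^ k) -
      (v r - b) * (φ r * r ^ k * (y - r))) = 0) :
    ∀ᵐ y : ℝ, 0 < y → deriv φ y / (a + v y) * (-y ^ k) =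
      ∫ r in (0 : ℝ)..y, (v r - b) * (φ r * r ^ k) := by
  have hc := hL.continuous
  have l1 := hv.quo hL (g := fun r => -r ^ k) (by fun_prop)
  have l2 := hv.lu b (g := fun r => φ r * r ^ k) (by fun_prop)
  have l3 := hv.lu b (g := fun r => φ r * r ^ k * r) (by fun_prop)
  filter_upwards [_root_.LocallyIntegrable.ae_hasDerivAt_integral l1,
    _root_.LocallyIntegrable.ae_hasDerivAt_integral l2,
    _root_.LocallyIntegrable.ae_hasDerivAt_integral l3] with y d1 d2 d3 hy
  have d4 := ((hasDerivAt_id' y).fun_mul (d2 0)).fun_sub (d3 0)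
  have e : (fun x => ∫ r in (0 : ℝ)..x, deriv φ r / (a + v r) * (-r ^ k)) =ᶠ[𝓝 y]
      fun x => x * (∫ r in (0 : ℝ)..x, (v r - b) * (φ r * r ^ k)) -
        ∫ r in (0 : ℝ)..x, (v r - b) * (φ r * r ^ k * r) := by
    filter_upwards [Ioi_mem_nhds hy] with x hx
    have h1 := h x hx
    rw [intervalIntegral.integral_sub (ii l1 0 x) (ii (hv.lu b (by fun_prop)) 0 x),
      sub_eq_zero] at h1
    rw [h1, ← intervalIntegral.integral_const_mul, ← intervalIntegral.integral_sub
      ((ii l2 0 x).const_mul x) (ii l3 0 x)]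
    exact intervalIntegral.integral_congr fun r _ => by ring
  rw [(d1 0).unique (d4.congr_of_eventuallyEq e)]
  ring

theorem c1 {φ D : ℝ → ℝ} {L : ℝ≥0} (hL : LipschitzWith L φ) (hD : ContinuousOn D (Ioi 0))
    (h : ∀ᵐ y : ℝ, 0 < y → deriv φ y = D y) {y : ℝ} (hy : 0 < y) : HasDerivAt φ (D y) y := by
  have hs : ∀ x : ℝ, 0 < x → uIcc y x ⊆ Ioi 0 := fun x hx t ht =>
    lt_of_lt_of_le (lt_min hy hx) ht.1
  have d := (intervalIntegral.integral_hasDerivAt_right (f := D) (a := y) (b := y) (by simp)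
    (hD.stronglyMeasurableAtFilter isOpen_Ioi y hy) (hD.continuousAt (Ioi_mem_nhds hy))).const_add
    (φ y)
  refine d.congr_of_eventuallyEq ?_
  filter_upwards [Ioi_mem_nhds hy] with x hx
  have e := (hL.lipschitzOnWith (s := uIcc y x)).absolutelyContinuousOnInterval.integral_deriv_eq_sub
  rw [← intervalIntegral.integral_congr_ae (f := deriv φ) (by
    filter_upwards [h] with t ht hm using ht (hs x hx (uIoc_subset_uIcc hm))), e]
  ring

theorem core {k : ℕ} {a b M s e : ℝ} {v φ : ℝ → ℝ} {L : ℝ≥0} (hv : Pv a M v) (hb : 0 < b)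
    (he : 0 ≤ e) (hL : LipschitzWith L φ) (hA : Antitone φ) (h0 : ∀ r, 0 ≤ φ r)
    (i0 : IntegrableOn (fun r => φ r ^ 2 * r ^ k) (Ioi 0) volume)
    (hfix : ∀ r, v r = min M (((s * φ r) ^ 2 + (s * deriv φ r) ^ 2 / (a + v r) ^ 2) ^ e))
    (hcont : ContinuousOn (deriv φ) (Ioi 0) → ContinuousOn v (Ioi 0))
    (hel : ∀ᵐ y : ℝ, 0 < y → deriv φ y / (a + v y) * (-y ^ k) =
      ∫ r in (0 : ℝ)..y, (v r - b) * (φ r * r ^ k)) :
    (∀ r, 0 < r → DifferentiableAt ℝ φ r) ∧ ContinuousOn (deriv φ) (Ioi 0) ∧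
      (∀ r, 0 < r → 0 < φ r → deriv φ r < 0) ∧ AntitoneOn v (Ioi 0) := by
  have hc := hL.continuous
  have hM : 0 ≤ M := (hv.bd 0).1.trans (hv.bd 0).2
  have l2 := hv.lu b (g := fun r => φ r * r ^ k) (by fun_prop)
  obtain ⟨G, hG⟩ : ∃ G : ℝ → ℝ, G = fun y => ∫ r in (0 : ℝ)..y, (v r - b) * (φ r * r ^ k) :=
    ⟨_, rfl⟩
  have cG : Continuous G := hG ▸ intervalIntegral.continuous_primitive (ii l2) 0
  obtain ⟨w, hw⟩ : ∃ w : ℝ → ℝ, w = fun y => G y / y ^ k := ⟨_, rfl⟩
  have cw : ContinuousOn w (Ioi 0) :=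
    hw ▸ cG.continuousOn.div (by fun_prop) fun y hy => (pow_pos hy k).ne'
  obtain ⟨u, hu⟩ : ∃ u : ℝ → ℝ, u = fun y => min M ((s ^ 2 * (φ y ^ 2 + w y ^ 2)) ^ e) := ⟨_, rfl⟩
  have cu : ContinuousOn u (Ioi 0) := by
    rw [hu]
    exact continuousOn_const.inf ((continuousOn_const.mul
      ((hc.continuousOn.pow 2).add (cw.pow 2))).rpow_const fun _ _ => Or.inr he)
  have a1 : ∀ᵐ y : ℝ, 0 < y → v y = u y ∧ deriv φ y = -((a + u y) * w y) := by
    filter_upwards [hel] with y h hy
    have hp := pow_pos hy k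
    have hd := hv.den y
    have e1 : deriv φ y = -((a + v y) * w y) := by
      have := h hy
      rw [hw, hG]
      simp only
      rw [← this]
      field_simp
    have e2 : v y = u y := by
      rw [hu, hfix y, e1]
      simp only
      congr 2
      field_simp
    exact ⟨e2, e2 ▸ e1⟩
  have cD : ContinuousOn (fun y => -((a + u y) * w y)) (Ioi 0) :=
    ((continuousOn_const.add cu).mul cw).neg
  have d1 : ∀ y, 0 < y → HasDerivAt φ (-((a + u y) * w y)) y := fun y hy =>
    c1 hL cD (a1.mono fun _ h hy => (h hy).2) hy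
  have c2 : ContinuousOn (deriv φ) (Ioi 0) := cD.congr fun y hy => (d1 y hy).deriv
  have cv := hcont c2
  have evu : EqOn v u (Ioi 0) := Measure.eqOn_open_of_ae_eq (μ := volume)
    ((ae_restrict_iff' measurableSet_Ioi).2 (a1.mono fun _ h hy => (h hy).1)) isOpen_Ioi cv cu
  have d2 : ∀ y, 0 < y → HasDerivAt φ (-((a + v y) * w y)) y := fun y hy => evu hy ▸ d1 y hy
  have w0 : ∀ y, 0 < y → 0 ≤ w y := fun y hy => by
    have h := hA.deriv_nonpos (x := y)
    rw [(d2 y hy).deriv, neg_nonpos] at h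
    exact nonneg_of_mul_nonneg_right h (hv.den y)
  have dG : ∀ y, 0 < y → HasDerivAt G ((v y - b) * (φ y * y ^ k)) y := fun y hy => by
    have cg : ContinuousOn (fun r => (v r - b) * (φ r * r ^ k)) (Ioi 0) :=
      (cv.sub continuousOn_const).mul (by fun_prop)
    exact hG ▸ intervalIntegral.integral_hasDerivAt_right (ii l2 0 y)
      (cg.stronglyMeasurableAtFilter isOpen_Ioi y hy) (cg.continuousAt (Ioi_mem_nhds hy))
  have dE : ∀ y, 0 < y → HasDerivAt (fun y => φ y ^ 2 + w y ^ 2)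
      (-(2 * (a + b) * φ y * w y + 2 * k * w y ^ 2 / y)) y := fun y hy => by
    have hp := pow_pos hy k
    have dw : HasDerivAt w ((v y - b) * φ y - k * w y / y) y := by
      have := (dG y hy).fun_div (hasDerivAt_pow k y) hp.ne'
      rw [← hw] at this
      refine this.congr_deriv ?_
      rw [hw]
      rcases k with _ | k
      · simp
      · simp only [Nat.add_sub_cancel]
        field_simp
        ring
    refine (((d2 y hy).fun_pow 2).fun_add (dw.fun_pow 2)).congr_deriv ?_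
    simp only [Nat.cast_ofNat, Nat.add_one_sub_one, pow_one]
    ring
  have aE : AntitoneOn (fun y => φ y ^ 2 + w y ^ 2) (Ioi 0) :=
    antitoneOn_of_deriv_nonpos (convex_Ioi 0)
      (fun y hy => (dE y hy).continuousAt.continuousWithinAt)
      (fun y hy => (dE y (interior_subset hy)).differentiableAt.differentiableWithinAt)
      fun y hy => by
        have hy' : 0 < y := interior_subset hy
        have := w0 y hy'
        have := h0 y
        have := hv.pos
        rw [(dE y hy').deriv, neg_nonpos]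
        positivity
  have av : AntitoneOn v (Ioi 0) := fun x hx y hy hxy => by
    rw [evu hx, evu hy, hu]
    exact min_le_min_left _ (Real.rpow_le_rpow (by positivity)
      (mul_le_mul_of_nonneg_left (aE hx hy hxy) (sq_nonneg s)) he)
  refine ⟨fun y hy => (d2 y hy).differentiableAt, c2, fun x hx hφ => ?_, av⟩
  refine lt_of_le_of_ne hA.deriv_nonpos fun hz => ?_
  have Gw : ∀ y, 0 < y → G y = w y * y ^ k := fun y hy => by
    have hp := pow_pos hy k
    rw [hw]
    field_simp
  have wx : w x = 0 := by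
    rw [(d2 x hx).deriv, neg_eq_zero] at hz
    exact (mul_eq_zero.1 hz).resolve_left (hv.den x).ne'
  have Gx : G x = 0 := by rw [Gw x hx, wx, zero_mul]
  have G0 : ∀ y, 0 < y → 0 ≤ G y := fun y hy =>
    Gw y hy ▸ mul_nonneg (w0 y hy) (pow_pos hy k).le
  have vx : v x = b := by
    have hm : IsLocalMin G x := by
      filter_upwards [Ioi_mem_nhds hx] with y hy using Gx ▸ G0 y hy
    have h := hm.hasDerivAt_eq_zero (dG x hx)
    exact sub_eq_zero.1 ((mul_eq_zero.1 h).resolve_right (mul_pos hφ (pow_pos hx k)).ne')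
  have aG : AntitoneOn G (Ici x) :=
    antitoneOn_of_deriv_nonpos (convex_Ici x) cG.continuousOn
      (fun y hy => (dG y (hx.trans_le (interior_subset hy))).differentiableAt.differentiableWithinAt)
      fun y hy => by
        have hxy : x ≤ y := interior_subset hy
        have hy' := hx.trans_le hxy
        rw [(dG y hy').deriv]
        exact mul_nonpos_of_nonpos_of_nonneg (sub_nonpos.2 (vx ▸ av hx hy' hxy))
          (mul_nonneg (h0 y) (pow_pos hy' k).le)
  have mφ : MonotoneOn φ (Ici x) :=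
    monotoneOn_of_deriv_nonneg (convex_Ici x) hc.continuousOn
      (fun y hy => (d2 y (hx.trans_le (interior_subset hy))).differentiableAt.differentiableWithinAt)
      fun y hy => by
        have hxy : x ≤ y := interior_subset hy
        have hy' := hx.trans_le hxy
        have h1 : G y ≤ 0 := Gx ▸ aG self_mem_Ici hxy hxy
        rw [Gw y hy'] at h1
        rw [(d2 y hy').deriv, neg_nonneg]
        exact mul_nonpos_of_nonneg_of_nonpos (hv.den y).le
          (nonpos_of_mul_nonpos_left h1 (pow_pos hy' k))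
  have i2 : IntegrableOn (fun _ : ℝ => φ x ^ 2 * x ^ k) (Ioi x) volume := by
    refine (i0.mono_set (Ioi_subset_Ioi hx.le)).mono' aestronglyMeasurable_const ?_
    filter_upwards [ae_restrict_mem measurableSet_Ioi] with y hy
    have hxy : x ≤ y := le_of_lt hy
    have := mφ self_mem_Ici hxy hxy
    rw [Real.norm_of_nonneg (by positivity)]
    gcongr
  rw [integrableOn_const_iff] at i2
  rcases i2 with h | h
  · exact absurd (enorm_eq_zero.1 h) (by positivity)
  · simp at h

end Pool.Agent.MP_e4cac8_mp.ODE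

end
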