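import Pool.Agent.Mg.Fe4cac8.G43e91a

set_option linter.all false

/-! The pointwise inequality with the sharper threshold. -/

open Set

namespace Pool.Agent.MP_e4cac8_mp

/-- The threshold for the height `M` of the potential, `a = m + λ`. -/
def Thr (D p a M : ℝ) : Prop :=
  (D - 1) * M < a ∧ (D - 2) * (a + M) ^ 2 < (D - 1) * a * (a + M * (p - 3) / (p - 1))

namespace Pt2

theorem pade {p x : ℝ} (hp : 1 ≤ p) (h0 : 0 ≤ x) (h1 : x ≤ 1) :
    2 - (p + 1) * (1 - x) ≤ x ^ p * (2 + (p - 1) * (1 - x)) := by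
  set h : ℝ → ℝ := fun x => x ^ p * (2 + (p - 1) * (1 - x)) + (p + 1) * (1 - x) with hh
  have hd : ∀ x : ℝ, HasDerivAt h
      (p * x ^ (p - 1) * (2 + (p - 1) * (1 - x)) + x ^ p * ((p - 1) * -1) + (p + 1) * -1) x := by
    intro x
    have a1 : HasDerivAt (fun x : ℝ => 1 - x) (-1) x := by
      simpa using (hasDerivAt_id x).const_sub 1
    exact ((Real.hasDerivAt_rpow_const (Or.inr hp)).mul
      ((a1.const_mul (p - 1)).const_add 2)).add (a1.const_mul (p + 1))
  have ha : AntitoneOn h (Icc 0 1) := by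
    refine antitoneOn_of_deriv_nonpos (convex_Icc 0 1)
      (fun x _ => (hd x).continuousAt.continuousWithinAt)
      (fun x _ => (hd x).differentiableAt.differentiableWithinAt) fun x hx => ?_
    rw [interior_Icc] at hx
    rw [(hd x).deriv]
    have e1 : x ^ p = x ^ (p - 1) * x := by
      rw [← Real.rpow_add_one hx.1.ne']
      congr 1
      ring
    have e2 : x ^ (p - 1) ≤ Real.exp (-((p - 1) * (1 - x))) := by
      have : x ≤ Real.exp (x - 1) := by linarith [Real.add_one_le_exp (x - 1)]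
      refine (Real.rpow_le_rpow hx.1.le this (by linarith)).trans (le_of_eq ?_)
      rw [← Real.exp_mul]
      congr 1
      ring
    have e3 : 1 + (p - 1) * (1 - x) ≤ Real.exp ((p - 1) * (1 - x)) := by
      linarith [Real.add_one_le_exp ((p - 1) * (1 - x))]
    have e4 : x ^ (p - 1) * (1 + (p - 1) * (1 - x)) ≤ 1 := by
      calc _ ≤ Real.exp (-((p - 1) * (1 - x))) * Real.exp ((p - 1) * (1 - x)) :=
            mul_le_mul e2 e3 (by nlinarith [hx.2]) (Real.exp_pos _).le
        _ = 1 := by rw [← Real.exp_add]; simp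
    rw [e1]
    nlinarith
  have := ha ⟨h0, h1⟩ ⟨zero_le_one, le_rfl⟩ h1
  simp only [hh, sub_self, mul_zero, add_zero, Real.one_rpow, one_mul] at this
  linarith

theorem bern2 {p x : ℝ} (hp : 2 ≤ p) (h1 : 1 ≤ x) :
    1 + p * (x - 1) + p * (p - 1) * (x - 1) ^ 2 / 2 ≤ x ^ p := by
  set h : ℝ → ℝ := fun x => x ^ p - (p * (x - 1) + p * (p - 1) / 2 * (x - 1) ^ 2) with hh
  have hd : ∀ x : ℝ, HasDerivAt h
      (p * x ^ (p - 1) - (p * 1 + p * (p - 1) / 2 * (2 * (x - 1)))) x := by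
    intro x
    have a1 : HasDerivAt (fun x : ℝ => x - 1) 1 x := (hasDerivAt_id x).sub_const 1
    have a2 : HasDerivAt (fun x : ℝ => (x - 1) ^ 2) (2 * (x - 1)) x := by
      simpa using a1.fun_pow 2
    exact (Real.hasDerivAt_rpow_const (Or.inr (by linarith))).sub
      ((a1.const_mul p).add (a2.const_mul _))
  have ha : MonotoneOn h (Ici 1) := by
    refine monotoneOn_of_deriv_nonneg (convex_Ici 1)
      (fun x _ => (hd x).continuousAt.continuousWithinAt)
      (fun x _ => (hd x).differentiableAt.differentiableWithinAt) fun x hx => ?_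
    rw [interior_Ici] at hx
    rw [(hd x).deriv]
    have e1 := one_add_mul_self_le_rpow_one_add (s := x - 1) (p := p - 1)
      (by linarith [mem_Ioi.mp hx]) (by linarith)
    rw [add_sub_cancel] at e1
    nlinarith
  have := ha (mem_Ici.mpr le_rfl) (mem_Ici.mpr h1) h1
  simp only [hh, sub_self, mul_zero, Real.one_rpow] at this
  linarith

/-- The Bregman bound. -/
theorem breg {p V U σ : ℝ} (hp : 2 ≤ p) (hV : 0 ≤ V) (hU : 0 < U) (h1 : U ^ (p - 1) ≤ σ)
    (h2 : U < V → U ^ (p - 1) = σ) :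
    σ * (V - U) ^ 2 / (max (U - V) 0 + 2 * U / (p - 1)) ≤ V ^ p / p - U ^ p / p - σ * (V - U) := by
  have hp0 : 0 < p := by linarith
  have hp1 : 0 < p - 1 := by linarith
  obtain ⟨x, rfl⟩ : ∃ x, V = x * U := ⟨V / U, by field_simp⟩
  have hx : 0 ≤ x := nonneg_of_mul_nonneg_left hV hU
  have hμ : 0 < U ^ (p - 1) := Real.rpow_pos_of_pos hU _
  have e1 : U ^ p = U ^ (p - 1) * U := by
    rw [← Real.rpow_add_one hU.ne']
    congr 1
    ring
  rw [Real.mul_rpow hx hU.le, e1]
  set μ := U ^ (p - 1)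
  have hσ : 0 < σ := hμ.trans_le h1
  rcases le_or_gt x 1 with h | h
  · have e2 := pade (by linarith : 1 ≤ p) hx h
    have e3 : x ^ p ≤ 1 := Real.rpow_le_one hx h hp0.le
    set X := x ^ p
    rw [max_eq_left (by nlinarith), div_le_iff₀ (by
      have : 0 ≤ U - x * U := by nlinarith
      positivity)]
    have e4 : σ * U * ((X - 1) / p + (1 - x)) ≤ X * (μ * U) / p - μ * U / p - σ * (x * U - U) := by
      have : 0 ≤ (σ - μ) * U * (1 - X) / p := by
        have := sub_nonneg.mpr h1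
        have := sub_nonneg.mpr e3
        positivity
      have e : X * (μ * U) / p - μ * U / p - σ * (x * U - U) -
          σ * U * ((X - 1) / p + (1 - x)) = (σ - μ) * U * (1 - X) / p := by ring
      linarith
    have e5 : (1 - x) ^ 2 ≤ ((X - 1) / p + (1 - x)) * ((1 - x) + 2 / (p - 1)) := by
      have e : ((X - 1) / p + (1 - x)) * ((1 - x) + 2 / (p - 1)) - (1 - x) ^ 2 =
          (X * (2 + (p - 1) * (1 - x)) - (2 - (p + 1) * (1 - x))) / (p * (p - 1)) := by
        field_simp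
        ring
      have : 0 ≤ (X * (2 + (p - 1) * (1 - x)) - (2 - (p + 1) * (1 - x))) / (p * (p - 1)) :=
        div_nonneg (sub_nonneg.mpr e2) (by positivity)
      linarith
    have e6 : U - x * U + 2 * U / (p - 1) = U * ((1 - x) + 2 / (p - 1)) := by ring
    have e7 : 0 ≤ (1 - x) + 2 / (p - 1) := by
      have := sub_nonneg.mpr h
      positivity
    rw [e6]
    calc σ * (x * U - U) ^ 2 = σ * U * U * (1 - x) ^ 2 := by ring
      _ ≤ σ * U * U * (((X - 1) / p + (1 - x)) * ((1 - x) + 2 / (p - 1))) := by gcongr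
      _ = σ * U * ((X - 1) / p + (1 - x)) * (U * ((1 - x) + 2 / (p - 1))) := by ring
      _ ≤ _ := by gcongr
  · have e2 := bern2 hp h.le
    rw [← h2 (by nlinarith), max_eq_right (by nlinarith), zero_add]
    set X := x ^ p
    have e : X * (μ * U) / p - μ * U / p - μ * (x * U - U) - μ * (x * U - U) ^ 2 / (2 * U / (p - 1)) =
        μ * U / p * (X - (1 + p * (x - 1) + p * (p - 1) * (x - 1) ^ 2 / 2)) := by
      field_simp
      ring
    have : 0 ≤ μ * U / p * (X - (1 + p * (x - 1) + p * (p - 1) * (x - 1) ^ 2 / 2)) :=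
      mul_nonneg (by positivity) (sub_nonneg.mpr e2)
    linarith

/-- The coefficient of the angular variable is positive. -/
theorem coef {D p a M V U A : ℝ} (hD : 2 ≤ D) (hp : 2 ≤ p) (ha : 0 < a) (hM : 0 < M)
    (hT : Thr D p a M) (hV : V ≤ M) (hU : 0 ≤ U) (hUM : U ≤ M) (hA : A ≤ 1 / a) :
    0 < 2 * (a + U) - (a + V) - (max (U - V) 0 + 2 * U / (p - 1)) -
      A * (D - 2) / (D - 1) * (a + U) ^ 2 := by
  have hp1 : 0 < p - 1 := by linarith
  have hD1 : 0 < D - 1 := by linarith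
  set k : ℝ := (D - 2) / ((D - 1) * a) with hk
  have hk0 : 0 ≤ k := div_nonneg (by linarith) (by positivity)
  have e1 : A * (D - 2) / (D - 1) ≤ k := by
    rw [hk, mul_div_assoc, mul_comm (D - 1), ← div_div, div_right_comm, div_eq_inv_mul _ a]
    exact mul_le_mul_of_nonneg_right (by rwa [one_div] at hA) (div_nonneg (by linarith) hD1.le)
  set c : ℝ := (p - 3) / (p - 1) with hc
  have e2 : 2 * U / (p - 1) = U * (1 - c) := by
    rw [hc]
    field_simp
    ring
  have e3 : max (U - V) 0 ≤ M - V := max_le (by linarith) (by linarith)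
  have f0 : 0 < a - M - k * a ^ 2 := by
    have : k * a ^ 2 = a - a / (D - 1) := by
      rw [hk]
      field_simp
      ring
    have h2 : M < a / (D - 1) := by
      rw [lt_div_iff₀ hD1]
      linarith [hT.1]
    linarith
  have f1 : 0 < a + M * c - k * (a + M) ^ 2 := by
    have h2 := hT.2
    rw [mul_div_assoc, ← hc] at h2
    have : k * (a + M) ^ 2 = (D - 2) * (a + M) ^ 2 / ((D - 1) * a) := by rw [hk]; ring
    rw [this, sub_pos, div_lt_iff₀ (by positivity)]
    linarith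
  have f2 : 0 < a - M + U * (1 + c) - k * (a + U) ^ 2 := by
    have e : M * (a - M + U * (1 + c) - k * (a + U) ^ 2) =
        (M - U) * (a - M - k * a ^ 2) + U * (a + M * c - k * (a + M) ^ 2) +
          k * M * U * (M - U) := by ring
    have g1 : 0 ≤ k * M * U * (M - U) := by
      have := sub_nonneg.mpr hUM
      positivity
    have g2 : 0 < (M - U) * (a - M - k * a ^ 2) + U * (a + M * c - k * (a + M) ^ 2) := by
      rcases hU.eq_or_lt with h | h
      · rw [← h]
        simpa using mul_pos hM f0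
      · have := mul_pos h f1
        have := mul_nonneg (sub_nonneg.mpr hUM) f0.le
        linarith
    exact (mul_pos_iff_of_pos_left hM).mp (by linarith)
  have e4 := mul_le_mul_of_nonneg_right e1 (sq_nonneg (a + U))
  rw [e2]
  linarith

theorem ident {D W U K A t w g ε z q X Y : ℝ} (hW : W ≠ 0) (hU : U ≠ 0) (hK : K ≠ 0) (hD : D ≠ 0)
    (hD1 : D - 1 ≠ 0) (a : ℝ) :
    (g ^ 2 + 2 * (g * ε) + (ε ^ 2 + z)) / W - (W - a) * t ^ 2 + X -
        ((w * U) ^ 2 / U - (U - a) * t ^ 2 + Y) - A * (ε ^ 2 + z - q) - 2 * (g * ε) / U -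
        2 * (w * U) / U * (g - w * U) =
      (X - Y - (t ^ 2 + w ^ 2) * (W - U) - (t ^ 2 + w ^ 2) * (W - U) ^ 2 / K) +
        A * (q - (ε ^ 2 / (D - 1) + z / D)) + (g + ε - w * W - ε * W / U) ^ 2 / W +
        (w * (W - U) - K * ε / U) ^ 2 / K +
        (2 * U - W - K - A * (D - 2) / (D - 1) * U ^ 2) / U ^ 2 * ε ^ 2 +
        (1 / W - A * (1 - 1 / D)) * z + t ^ 2 * (W - U) ^ 2 / K := by
  field_simp
  ring

end Pt2

open Pt2 in
theorem ptOK (hVm : StVm) {D p a M : ℝ} (hD : 2 ≤ D) (hp : 2 ≤ p) (ha : 0 < a) (hM : 0 < M)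
    (hT : Thr D p a M) : PtOK D p a M := by
  intro t y V A g P n q ht _ hV0 hV hA0 hA hg hn hP hq hq2
  have hD0 : 0 < D := by linarith
  have hD1 : 0 < D - 1 := by linarith
  have hp1 : 0 < p - 1 := by linarith
  obtain ⟨ε, z, rfl, rfl, hz, hQ⟩ : ∃ ε z : ℝ, P = g * ε ∧ n = ε ^ 2 + z ∧ 0 ≤ z ∧
      ε ^ 2 / (D - 1) + z / D ≤ q := by
    rcases hg.eq_or_lt with h | h
    · refine ⟨0, n, ?_, by ring, hn, ?_⟩
      · rw [← h] at hP
        nlinarith [sq_nonneg P]
      · simp only [ne_eq, OfNat.ofNat_ne_zero, not_false_eq_true, zero_pow, zero_div, zero_add]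
        rw [div_le_iff₀ hD0]
        linarith
    · obtain ⟨ε, rfl⟩ : ∃ ε, P = g * ε := ⟨P / g, by field_simp⟩
      have h2 : 0 < g ^ 2 := by positivity
      refine ⟨ε, n - ε ^ 2, rfl, by ring, ?_, ?_⟩
      · rw [mul_pow] at hP
        linarith [le_of_mul_le_mul_left hP h2]
      · have h3 : g ^ 2 * ((D - 1) * n + ε ^ 2) ≤ g ^ 2 * (D * (D - 1) * q) := by nlinarith
        have h4 := le_of_mul_le_mul_left h3 h2
        rw [div_add_div _ _ hD1.ne' hD0.ne', div_le_iff₀ (by positivity)]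
        nlinarith
  obtain ⟨v0, v1, v2, v3, v4⟩ := (hVm p a M hp ha hM).2 y t
  unfold Xi
  generalize Vm p a M y t = U at v0 v1 v2 v3 v4 ⊢
  have hU0 : 0 < U := by
    rw [v4]
    exact lt_min hM (Real.rpow_pos_of_pos (by positivity) _)
  set K : ℝ := max (U - V) 0 + 2 * U / (p - 1) with hK
  have hK0 : 0 < K := by
    have := le_max_right (U - V) 0
    positivity
  have hW : 0 < a + V := by positivity
  have hW0 : 0 < a + U := by positivity
  obtain ⟨w, rfl⟩ : ∃ w, y = w * (a + U) := ⟨y / (a + U), by field_simp⟩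
  have e0 : (w * (a + U)) ^ 2 / (a + U) ^ 2 = w ^ 2 := by field_simp
  rw [e0] at v2 v3
  have b1 := breg hp hV0 hU0 v2 fun h => v3 (h.trans_le hV)
  have b2 := coef hD hp ha hM hT hV hU0.le v1 hA
  have b3 : 0 ≤ 1 / (a + V) - A * (1 - 1 / D) := by
    have h1 : A * (1 - 1 / D) ≤ 1 / a * (1 - 1 / D) :=
      mul_le_mul_of_nonneg_right hA (by rw [sub_nonneg, div_le_one hD0]; linarith)
    have h2 : 1 / a * (1 - 1 / D) ≤ 1 / (a + V) := by
      have : 1 / a * (1 - 1 / D) = (D - 1) / (a * D) := by field_simp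
      rw [this, div_le_div_iff₀ (by positivity) hW]
      nlinarith [hT.1]
    linarith
  have id := ident (D := D) (A := A) (t := t) (w := w) (g := g) (ε := ε) (z := z) (q := q)
    (X := V ^ p / p) (Y := U ^ p / p) hW.ne' hW0.ne' hK0.ne' hD0.ne' hD1.ne' a
  simp only [add_sub_cancel_left, add_sub_add_left_eq_sub] at id
  rw [id]
  rw [← hK] at b1 b2
  have c1 := sub_nonneg.mpr b1
  have c2 : 0 ≤ A * (q - (ε ^ 2 / (D - 1) + z / D)) := mul_nonneg hA0 (sub_nonneg.mpr hQ)
  have c3 : 0 ≤ (g + ε - w * (a + V) - ε * (a + V) / (a + U)) ^ 2 / (a + V) := by positivity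
  have c4 : 0 ≤ (w * (V - U) - K * ε / (a + U)) ^ 2 / K := by positivity
  have c5 : 0 ≤ (2 * (a + U) - (a + V) - K - A * (D - 2) / (D - 1) * (a + U) ^ 2) / (a + U) ^ 2 *
      ε ^ 2 := by positivity
  have c6 : 0 ≤ (1 / (a + V) - A * (1 - 1 / D)) * z := mul_nonneg b3 hz
  have c7 : 0 ≤ t ^ 2 * (V - U) ^ 2 / K := by positivity
  refine ⟨by linarith, fun h => ?_⟩
  have d7 : t ^ 2 * (V - U) ^ 2 / K = 0 := by linarith
  have d5 : (2 * (a + U) - (a + V) - K - A * (D - 2) / (D - 1) * (a + U) ^ 2) / (a + U) ^ 2 *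
      ε ^ 2 = 0 := by linarith
  have d3 : (g + ε - w * (a + V) - ε * (a + V) / (a + U)) ^ 2 / (a + V) = 0 := by linarith
  have hVU : V = U := by
    rw [div_eq_zero_iff, mul_eq_zero, or_iff_left hK0.ne', or_iff_right (by positivity),
      pow_eq_zero_iff two_ne_zero, sub_eq_zero] at d7
    exact d7
  have hε : ε = 0 := by
    rw [mul_eq_zero, or_iff_right (by positivity), pow_eq_zero_iff two_ne_zero] at d5
    exact d5
  refine ⟨hVU, ?_⟩
  rw [div_eq_zero_iff, or_iff_left hW.ne', pow_eq_zero_iff two_ne_zero, hε, hVU, zero_mul,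
    zero_div] at d3
  linarith

end Pool.Agent.MP_e4cac8_mp
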