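import Pool.Agent.Mg.Fe4cac8.G6cf094
import Pool.Agent.Mg.Fe4cac8.G5affea

set_option linter.all false

/-! Assembly of the symmetry theorem with the sharper thresholds. -/

open Set MeasureTheory Filter Topology
open scoped ENNReal NNReal SchwartzMap
open Pool.Agent.MP_0b7119_mp.G

namespace Pool.Agent.MP_e4cac8_mp

set_option linter.unusedSectionVars false

variable {E S : Type} [NormedAddCommGroup E] [InnerProductSpace ℝ E] [FiniteDimensional ℝ E]
  [MeasurableSpace E] [BorelSpace E] [NormedAddCommGroup S] [InnerProductSpace ℂ S]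
  [CompleteSpace S] [FiniteDimensional ℂ S] {d : ℕ}

/-- Potentials of norm at most `A` stay away from the lower edge of the gap. -/
def Gap (e : Fin d → E) (α : Fin d → S →L[ℂ] S) (β : S →L[ℂ] S) (m p A : ℝ) : Prop :=
  ∃ δ : ℝ, 0 < δ ∧ ∀ W : E → ℝ, PotR p A W → -m + δ ≤ lamD e α β m W

/-- Optimality gives the Birman-Schwinger bound for all competitors. -/
def StP02 (e : OrthonormalBasis (Fin d) ℝ E) (α : Fin d → S →L[ℂ] S) (β : S →L[ℂ] S) (m : ℝ) :
    Prop :=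
  ∀ p A lam : ℝ, 1 ≤ p → 0 < A → Gap e α β m p A → Opt e α β m p A lam →
    ∀ l ∈ Ioo (-m) m, l ≤ lam → ∀ M, HP (rk e α β m l) p A M

/-- The bound for the height of the potential. -/
def StSup (e : OrthonormalBasis (Fin d) ℝ E) (α : Fin d → S →L[ℂ] S) (β : S →L[ℂ] S) : Prop :=
  ∃ c : ℝ, 0 < c ∧ ∀ m : ℝ, 0 < m → ∀ l ∈ Ioo (-m) m, ∀ (p A k : ℝ) (V : E → ℝ) (ψ : E → S),
    2 ≤ p → 0 < k → PotR p A V → FixB (rk e α β m l) V ψ →
    (∀ᵐ x, V x ^ (p - 1) = k * ‖ψ x‖ ^ 2) →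
    ∃ M : ℝ, 0 < M ∧ (∀ᵐ x, V x ≤ M) ∧ c * M ^ p ≤ max m M ^ d * A ^ p

/-- The statements used in the assembly. -/
structure All2 (e : OrthonormalBasis (Fin d) ℝ E) (α : Fin d → S →L[ℂ] S) (β : S →L[ℂ] S)
    (m : ℝ) : Prop where
  vm : StVm
  ode : StODE
  re : StRe E
  geo : StGeo E
  tr : StTR E
  tent : StTent E
  alg : StAlg e α
  cmp : StCmp2 e α
  hb : StHB e α β m
  str : StStr e α β m
  p1 : StP1 e α β m
  p0 : StP02 e α β m
  att : StAtt2 e α β m
  bdd : StBdd e α β m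
  el1 : StEL1 e α β m
  el2 : StEL2 e α β m

variable {e : OrthonormalBasis (Fin d) ℝ E} {α : Fin d → S →L[ℂ] S} {β : S →L[ℂ] S} {m : ℝ}

theorem core2 (hc : Ctx α β m) (H : All2 e α β m) {a b p A M₀ M : ℝ} {V : E → ℝ} {u : E → S}
    (ha0 : 0 < a) (hb : 0 < b) (hp : 2 ≤ p) (h0 : 0 ≤ M₀) (hM : M₀ < M) (ha : Thr d p a M)
    (hV : PotR p A V)
    (hVM : ∀ x, V x ≤ M₀) (hu : Strong e α a b V u) (hT : TP E a b p A M) : Radial V := by
  have hM0 : 0 < M := h0.trans_lt hM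
  have hd : (2 : ℝ) ≤ d := by exact_mod_cast hc.two
  have hR := H.tr a b p A M ha0 (by linarith) hT
  obtain ⟨-, -, -, L, hL⟩ := H.alg u hu.reg
  obtain ⟨φ, y, hre⟩ := H.re L _ hL
  obtain ⟨s, hs, hprof, h1, h2⟩ := H.cmp a b p A M₀ M V u L φ y ha0 hb hp h0 hM
    (ptOK H.vm hd hp ha0 hM0 ha) hV hVM hu hR hre
  have hk : 1 ≤ Module.finrank ℝ E - 1 := by
    rw [finrank_eq e]
    have := hc.two
    omega
  obtain ⟨o1, o2, o3, o4⟩ := H.ode _ _ a b p A M s φ hk hp ha0 hb hM0 hs hR hre.anti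
    ⟨L, hre.lip⟩ hre.nonneg hprof
  obtain ⟨x₁, hx₁⟩ := hu.ne
  obtain ⟨x₀, hx₀⟩ := H.geo L _ φ y hL hre ⟨x₁, norm_pos_iff.mpr hx₁⟩ o1 o2 o3 (by
    filter_upwards [h1] with x hx hpos
    exact (hx (norm_pos_iff.mp hpos)).2)
  obtain ⟨-, hvm⟩ := H.vm p a M hp ha0 hM0
  refine ⟨x₀, fun r => if 0 < r then Vm p a M (s * deriv φ r) (s * φ r) else M, ?_, ?_⟩
  · intro r r' hrr
    by_cases h : 0 < r
    · have h' : 0 < r' := h.trans_le hrr
      simp only [h, h', if_true]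
      exact o4 h h' hrr
    · by_cases h' : 0 < r'
      · simp only [h, h', if_true, if_false]
        exact (hvm _ _).2.1
      · simp only [h, h', if_false, le_refl]
  · have hn : 2 ≤ Module.finrank ℝ E := by
      rw [finrank_eq e]
      exact hc.two
    have : Nontrivial E := Module.nontrivial_of_finrank_pos (R := ℝ) (by omega)
    have hne : ∀ᵐ x : E, x ≠ x₀ := by
      rw [ae_iff]
      simp
    filter_upwards [h1, h2, hne] with x hx1 hx2 hx3
    have hr : 0 < ‖x - x₀‖ := norm_pos_iff.mpr (sub_ne_zero.mpr hx3)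
    simp only [hr, if_true]
    by_cases hux : u x = 0
    · have e1 : φ ‖x - x₀‖ = 0 := by rw [← hx₀ x, hux, norm_zero]
      have e2 : deriv φ ‖x - x₀‖ = 0 :=
        IsLocalMin.deriv_eq_zero (Eventually.of_forall fun r => by rw [e1]; exact hre.nonneg r)
      rw [hx2 hux, e1, e2, mul_zero]
      have h3 := (hvm 0 0).2.2.1
      have h4 := (hvm 0 0).1
      by_contra hne0
      have h5 : 0 < Vm p a M 0 0 := h4.lt_of_ne hne0
      have := Real.rpow_pos_of_pos h5 (p - 1)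
      simp at h3
      linarith
    · rw [(hx1 hux).1, hx₀ x, hre.der _ hr (o1 _ hr)]
      unfold Vm
      simp only [mul_neg, even_two, Even.neg_pow]

/-- The lowest eigenvalue at positive norm lies below the upper edge of the gap. -/
theorem lam_lt2 (hc : Ctx α β m) (H : All2 e α β m) {p A M lam : ℝ} (hp : (d : ℝ) ≤ p) (hA : 0 < A)
    (hM : 0 < M) (hle : lam ≤ m) (h : ∀ l ∈ Ico 0 m, l ≤ lam → HP (rk e α β m l) p A M) :
    lam < m := by
  refine hle.lt_of_ne fun hl => ?_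
  have hm := hc.pos
  have hd : (2 : ℝ) ≤ d := by exact_mod_cast hc.two
  have hp0 : 0 < p := by linarith
  have hom : 0 < om E := om_pos
  set w : ℝ := A * om E ^ (-p⁻¹) with hw
  have hw0 : 0 < w := by positivity
  have key : ∀ L : ℝ, 1 ≤ L → w * L ^ (-(d / p)) ≤ M → w / L ≤ 2 ^ (d + 2) / (m * L ^ 2) := by
    intro L hL hLM
    have hL0 : 0 < L := by linarith
    have h1 : (w * L ^ (-(d / p))) ^ p * (om E * L ^ Module.finrank ℝ E) ≤ A ^ p := by
      rw [finrank_eq e, hw, Real.mul_rpow (by positivity) (by positivity),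
        Real.mul_rpow (by positivity) (by positivity), ← Real.rpow_mul hom.le,
        ← Real.rpow_mul hL0.le, neg_mul, neg_mul, inv_mul_cancel₀ hp0.ne',
        div_mul_cancel₀ _ hp0.ne', Real.rpow_neg_one, Real.rpow_neg hL0.le, Real.rpow_natCast]
      refine le_of_eq ?_
      field_simp
    have h2 : w / L ≤ w * L ^ (-(d / p)) := by
      rw [div_eq_mul_inv, ← Real.rpow_neg_one]
      refine mul_le_mul_of_nonneg_left (Real.rpow_le_rpow_of_exponent_le hL ?_) hw0.le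
      have : (d : ℝ) / p ≤ 1 := (div_le_one hp0).mpr hp
      linarith
    refine h2.trans (le_of_forall_pos_le_add fun ε hε => ?_)
    have hl0 : max 0 (m - ε) ∈ Ico 0 m := ⟨le_max_left _ _, max_lt hm (by linarith)⟩
    have h3 := H.tent _ _ p A M L _ (by linarith [hl0.1]) (by linarith [hl0.2]) hp0
      (H.p1 _ ⟨by linarith [hl0.1], hl0.2⟩ p A M (h _ hl0 (hl ▸ hl0.2.le))) hL0 (by positivity)
      hLM h1
    rw [finrank_eq e] at h3
    have h4 : (2 : ℝ) ^ (d + 2) / ((m + max 0 (m - ε)) * L ^ 2) ≤ 2 ^ (d + 2) / (m * L ^ 2) := by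
      gcongr
      linarith [hl0.1]
    linarith [le_max_right 0 (m - ε)]
  have t1 : Tendsto (fun L : ℝ => w * L ^ (-(d / p))) atTop (𝓝 (w * 0)) :=
    (tendsto_rpow_neg_atTop (by positivity)).const_mul w
  rw [mul_zero] at t1
  obtain ⟨L, hL1, hL2, hL3⟩ := ((eventually_ge_atTop (1 : ℝ)).and
    ((t1.eventually (ge_mem_nhds hM)).and
      (eventually_gt_atTop (2 ^ (d + 2) / (m * w))))).exists
  have h5 := key L hL1 hL2
  have hL0 : 0 < L := by linarith
  rw [div_le_div_iff₀ hL0 (by positivity)] at h5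
  rw [div_lt_iff₀ (by positivity)] at hL3
  nlinarith [mul_lt_mul_of_pos_right hL3 hL0]

theorem lam_mem (hc : Ctx α β m) (H : All2 e α β m) {p A : ℝ} {V : E → ℝ} (hp : (d : ℝ) ≤ p)
    (hA : 0 < A) (hV : PotR p A V) (hG : Gap e α β m p A)
    (hopt : Opt e α β m p A (lamD e α β m V)) :
    lamD e α β m V ∈ Ioo (-m) m ∧ ∀ M, HP (rk e α β m (lamD e α β m V)) p A M := by
  have hm := hc.pos
  have hd : (2 : ℝ) ≤ d := by exact_mod_cast hc.two
  have hHP := H.p0 p A _ (by linarith) hA hG hopt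
  obtain ⟨δ, hδ, hg⟩ := hG
  have hI : lamD e α β m V ∈ Ioo (-m) m := ⟨by linarith [hg V hV],
    lam_lt2 hc H hp hA one_pos (lamD_le hm V) fun l hl hle =>
      hHP l ⟨by linarith [hl.1], hl.2⟩ hle 1⟩
  exact ⟨hI, hHP _ hI le_rfl⟩

/-- The ground state of a bounded optimal potential. -/
theorem trunk (hc : Ctx α β m) (H : All2 e α β m) {p A M₀ : ℝ} {V : E → ℝ} (hp : (d : ℝ) ≤ p)
    (hA : 0 < A) (hV : PotR p A V) (hVM : ∀ x, V x ≤ M₀) (hG : Gap e α β m p A)
    (hopt : Opt e α β m p A (lamD e α β m V)) :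
    ∃ (Ψ u : E → S) (k : ℝ), 0 < k ∧ FixB (rk e α β m (lamD e α β m V)) V Ψ ∧
      (∀ᵐ x, V x ^ (p - 1) = k * ‖Ψ x‖ ^ 2) ∧
      Strong e α (m + lamD e α β m V) (m - lamD e α β m V) V u := by
  have hd : (2 : ℝ) ≤ d := by exact_mod_cast hc.two
  have h0 : 0 ≤ M₀ := (hV.nonneg 0).trans (hVM 0)
  obtain ⟨hlI, hP⟩ := lam_mem hc H hp hA hV hG hopt
  set lam := lamD e α β m V with hlam
  have hadm : Adm V (fun z => ‖rk e α β m lam z‖) (M₀ * ∫ z, ‖rk e α β m lam z‖) :=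
    adm_of_bdd hV.meas hV.nonneg hVM (integrable_rk hc.rep e hlI).norm fun _ => norm_nonneg _
  obtain ⟨N, hN0, hN⟩ := hV.up (q := p + 1) (by linarith) (by linarith) hVM
  obtain ⟨ψ, hψ⟩ := H.att (p + 1) N V (by linarith) hN0 hN hlI (hP M₀ V hV hVM)
  obtain ⟨Ψ, hΨ⟩ := H.bdd lam hlI (p + 1) N V ψ (by linarith) hN0 hN hψ
  obtain ⟨c, hc0, hel⟩ := H.el1 lam hlI p A _ V Ψ (by linarith) hA hV hadm hΨ (Or.inl hP)
  have hel2 := H.el2 lam hlI p A (M₀ + 1) V Ψ (by linarith) hA (by linarith) hV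
    (fun x => by linarith [hVM x]) (hP _) hΨ
  have hEL : ∀ᵐ x, V x ^ (p - 1) = c * ‖Ψ x‖ ^ 2 := by
    filter_upwards [hel, hel2] with x h1 h2
    rcases (hV.nonneg x).eq_or_lt with h3 | h3
    · rw [h2 h3.symm, ← h3, Real.zero_rpow (by linarith)]
      simp
    · rw [Real.rpow_sub_one h3.ne', h1]
      field_simp
  obtain ⟨u, hu⟩ := H.str lam hlI p M₀ c V Ψ (by linarith) hc0 hV.meas
    (fun x => ⟨hV.nonneg x, hVM x⟩) hΨ hEL
  exact ⟨Ψ, u, c, hc0, hΨ, hEL, hu⟩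

theorem Thr.exists_gt {D p a M₀ : ℝ} (h : Thr D p a M₀) : ∃ M, M₀ < M ∧ Thr D p a M := by
  have h1 : ∀ᶠ M in 𝓝 M₀, (D - 1) * M < a :=
    ContinuousAt.eventually_lt (f := fun M => (D - 1) * M) (g := fun _ => a) (by fun_prop)
      (by fun_prop) h.1
  have h2 : ∀ᶠ M in 𝓝 M₀,
      (D - 2) * (a + M) ^ 2 < (D - 1) * a * (a + M * (p - 3) / (p - 1)) :=
    ContinuousAt.eventually_lt (f := fun M => (D - 2) * (a + M) ^ 2)
      (g := fun M => (D - 1) * a * (a + M * (p - 3) / (p - 1))) (by fun_prop) (by fun_prop) h.2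
  obtain ⟨M, a1, a2⟩ := (((h1.and h2).filter_mono (nhdsWithin_le_nhds (s := Ioi M₀))).and
    self_mem_nhdsWithin).exists
  exact ⟨M, a2, a1⟩

theorem mainA2 (hc : Ctx α β m) (H : All2 e α β m) {p A M₀ : ℝ} {V : E → ℝ} (hp : (d : ℝ) ≤ p)
    (hA : 0 < A) (hV : PotR p A V) (hVM : ∀ᵐ x, V x ≤ M₀) (hG : Gap e α β m p A)
    (hopt : Opt e α β m p A (lamD e α β m V)) (hM : Thr d p (m + lamD e α β m V) M₀) :
    Radial V := by
  have hd : (2 : ℝ) ≤ d := by exact_mod_cast hc.two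
  have h0 : 0 ≤ M₀ := by
    obtain ⟨x, hx⟩ := hVM.exists
    exact (hV.nonneg x).trans hx
  have he : V =ᵐ[volume] fun x => min (V x) M₀ := by
    filter_upwards [hVM] with x hx
    rw [min_eq_left hx]
  rw [lamD_congr he] at hopt hM
  have hV' := hV.of_le (by linarith) (hV.meas.min (measurable_const (a := M₀)))
    (fun x => le_min (hV.nonneg x) h0) fun x => min_le_left _ _
  obtain ⟨hlI, hP⟩ := lam_mem hc H hp hA hV' hG hopt
  obtain ⟨Ψ, u, k, -, -, -, hu⟩ := trunk hc H hp hA hV' (fun x => min_le_right _ _) hG hopt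
  obtain ⟨M, hM1, hM2⟩ := hM.exists_gt
  obtain ⟨x₀, φ, h1, h2⟩ := core2 hc H (by linarith [hlI.1]) (by linarith [hlI.2]) (by linarith)
    h0 hM1 hM2 hV' (fun x => min_le_right _ _) hu (H.p1 _ hlI p A M (hP M))
  exact ⟨x₀, φ, h1, he.trans h2⟩

/-- The binding energy is at most the height of the potential. -/
theorem Strong.le (hal : StAlg e α) {a b M : ℝ} {V : E → ℝ} {u : E → S} (ha : 0 < a)
    (hV : Measurable V) (hV0 : ∀ x, 0 ≤ V x) (hM : ∀ᵐ x, V x ≤ M) (hu : Strong e α a b V u) :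
    b ≤ M := by
  by_contra hn
  rw [not_le] at hn
  obtain ⟨⟨-, -, -, -, hZ, -⟩, hb, -⟩ := hal u hu.reg
  have i1 : Integrable (fun x => ‖Zf e α u x‖ ^ 2 / (a + V x)) volume := by
    refine ((hu.reg.dl2.const_mul d).div_const a).mono'
      ((hZ.norm.pow 2).measurable.div (hV.const_add a)).aestronglyMeasurable
      (Eventually.of_forall fun x => ?_)
    have := hV0 x
    rw [Real.norm_of_nonneg (by positivity)]
    exact div_le_div₀ ((sq_nonneg _).trans (hb x)) (hb x) ha (by linarith)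
  have i0 := JD.int_sq hu.reg.l2
  have i2 : Integrable (fun x => (V x - b) * ‖u x‖ ^ 2) volume := by
    refine i0.bdd_mul (c := |b|) (hV.sub_const b).aestronglyMeasurable ?_
    filter_upwards [hM] with x hx
    rw [Real.norm_eq_abs, abs_le]
    constructor <;> linarith [hV0 x, le_abs_self b, abs_nonneg b]
  have h1 : (b - M) * ∫ x, ‖u x‖ ^ 2 ≤ 0 := by
    rw [← integral_const_mul]
    refine le_trans (integral_mono_ae (i0.const_mul _) (i1.sub i2) ?_) hu.en
    filter_upwards [hM] with x hx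
    have := hV0 x
    have h2 : 0 ≤ ‖Zf e α u x‖ ^ 2 / (a + V x) := by positivity
    simp only [Pi.sub_apply]
    nlinarith [sq_nonneg ‖u x‖]
  have h3 : JD.I2 u = 0 := le_antisymm (by
    unfold JD.I2
    nlinarith) (JD.I2_nonneg u)
  obtain ⟨x, hx⟩ := hu.ne
  exact hx (congrFun ((Continuous.ae_eq_iff_eq volume hu.reg.c1.continuous continuous_const).mp
    (JD.I2_eq_zero hu.reg.l2 h3)) x)

theorem thr_of_le {D p a M : ℝ} (hD : 2 ≤ D) (hp : D ≤ p) (hM : 0 < M) (h : D * M ≤ a) :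
    Thr D p a M := by
  have hp1 : 0 < p - 1 := by linarith
  have ha : 0 < a := lt_of_lt_of_le (by positivity) h
  refine ⟨by linarith, ?_⟩
  have h1 : D - 3 ≤ (D - 1) * ((p - 3) / (p - 1)) := by
    rw [← mul_div_assoc, le_div_iff₀ hp1]
    nlinarith
  have h2 := mul_le_mul_of_nonneg_right h1 (mul_pos ha hM).le
  have h3 : a * M ≤ a * (a - (D - 1) * M) := mul_le_mul_of_nonneg_left (by linarith) ha.le
  have h4 := mul_le_mul_of_nonneg_right h hM.le
  rw [mul_div_assoc]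
  nlinarith [mul_pos hM hM]

theorem thr_of_lt {D p a M : ℝ} (hD : 2 ≤ D) (hp : 2 * D - 2 ≤ p) (hM : 0 < M)
    (h : (D - 1) * M < a) : Thr D p a M := by
  have hp1 : 0 < p - 1 := by linarith
  have ha : 0 < a := lt_of_le_of_lt (mul_nonneg (by linarith) hM.le) h
  refine ⟨h, ?_⟩
  rw [mul_div_assoc]
  set c := (p - 3) / (p - 1) with hc
  have h1 : D - 2 ≤ (D - 1) * ((D - 1) * c - (D - 3)) := by
    have e : (D - 1) * ((D - 1) * c - (D - 3)) - (D - 2) =
        (D * (p - 1) - 2 * (D - 1) ^ 2) / (p - 1) := by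
      rw [hc]
      field_simp
      ring
    have : 0 ≤ (D * (p - 1) - 2 * (D - 1) ^ 2) / (p - 1) := div_nonneg (by nlinarith) hp1.le
    linarith
  set k := (D - 1) * c - (D - 3) with hk
  have hk0 : 0 ≤ k := nonneg_of_mul_nonneg_right (a := D - 1) (by linarith) (by linarith)
  have h2 : (D - 1) * M * (k * M) ≤ a * (k * M) := mul_le_mul_of_nonneg_right h.le (by positivity)
  have h3 := mul_le_mul_of_nonneg_right h1 (mul_pos hM hM).le
  have h4 := mul_pos ha (sub_pos.mpr h)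
  have e : (D - 1) * a * (a + M * c) - (D - 2) * (a + M) ^ 2 =
      a * (a - (D - 1) * M) + a * (k * M) - (D - 2) * (M * M) := by
    rw [hk]
    ring
  nlinarith

theorem height {c m M p A ρ : ℝ} (hc : 0 < c) (hm : 0 < m) (hp : (d : ℝ) ≤ p) (hρ : 0 < ρ)
    (hρ1 : ρ ≤ 1) (h : c * M ^ p ≤ max m M ^ d * A ^ p) (hA : 0 < A) (hM : ρ * m ≤ M) :
    c * ρ ^ d * (ρ * m) ^ (p - d) ≤ A ^ p := by
  have hM0 : 0 < M := lt_of_lt_of_le (by positivity) hM
  have h1 : ρ * max m M ≤ M := by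
    rcases le_total m M with h2 | h2
    · rw [max_eq_right h2]
      nlinarith
    · rwa [max_eq_left h2]
  have h2 : ρ ^ d * max m M ^ d ≤ M ^ d := by
    rw [← mul_pow]
    exact pow_le_pow_left₀ (by positivity) h1 d
  have h3 : M ^ p = M ^ (p - d) * M ^ d := by
    rw [← Real.rpow_natCast, ← Real.rpow_add hM0, sub_add_cancel]
  have h4 : (ρ * m) ^ (p - d) ≤ M ^ (p - d) := Real.rpow_le_rpow (by positivity) hM (by linarith)
  have h5 : 0 < M ^ d := by positivity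
  refine le_of_mul_le_mul_right ?_ h5
  calc c * ρ ^ d * (ρ * m) ^ (p - d) * M ^ d ≤ c * ρ ^ d * M ^ (p - d) * M ^ d := by gcongr
    _ = ρ ^ d * (c * M ^ p) := by rw [h3]; ring
    _ ≤ ρ ^ d * (max m M ^ d * A ^ p) := by gcongr
    _ = A ^ p * (ρ ^ d * max m M ^ d) := by ring
    _ ≤ _ := by gcongr

theorem thr_of_small {c m M p A a : ℝ} (hd : 2 ≤ d) (hc : 0 < c) (hm : 0 < m) (hp : (d : ℝ) ≤ p)
    (hM : 0 < M) (h : c * M ^ p ≤ max m M ^ d * A ^ p) (hA : 0 < A) (ha : 2 * m - M ≤ a)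
    (hs : A ^ p ≤ c * (2 / (d + 1)) ^ d * (d / (d + 1)) ^ d / 2 * (2 * m / d) ^ (p - d)) :
    Thr d p a M := by
  have hD : (2 : ℝ) ≤ d := by exact_mod_cast hd
  have hq : 0 < (2 * m / d) ^ (p - d) := by positivity
  have hr : (d : ℝ) / (d + 1) ≤ 1 := by
    rw [div_le_one (by positivity)]
    linarith
  rcases le_total (2 * (d : ℝ) - 2) p with h1 | h1
  · refine thr_of_lt hD h1 hM ?_
    by_contra hn
    have h2 : 2 / d * m ≤ M := by
      rw [div_mul_eq_mul_div, div_le_iff₀ (by positivity)]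
      linarith
    have h3 := (height hc hm hp (by positivity)
      (by rw [div_le_one (by positivity)]; exact hD) h hA h2).trans hs
    rw [div_mul_eq_mul_div 2] at h3
    have h4 := le_of_mul_le_mul_right h3 hq
    have h5 : ((2 : ℝ) / (d + 1)) ^ d ≤ (2 / d) ^ d := by gcongr; linarith
    have h6 : ((d : ℝ) / (d + 1)) ^ d ≤ 1 := pow_le_one₀ (by positivity) hr
    have h7 : c * (2 / (d + 1)) ^ d * (d / (d + 1)) ^ d ≤ c * (2 / d) ^ d * 1 := by gcongr
    have h8 : 0 < c * ((2 : ℝ) / d) ^ d := by positivity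
    linarith
  · refine thr_of_le hD hp hM ?_
    by_contra hn
    have h2 : 2 / (d + 1) * m ≤ M := by
      rw [div_mul_eq_mul_div, div_le_iff₀ (by positivity)]
      linarith
    have h3 := (height hc hm hp (by positivity)
      (by rw [div_le_one (by positivity)]; linarith) h hA h2).trans hs
    have e : 2 / ((d : ℝ) + 1) * m = d / (d + 1) * (2 * m / d) := by field_simp
    rw [e, Real.mul_rpow (by positivity) (by positivity), ← mul_assoc] at h3
    have h4 := le_of_mul_le_mul_right h3 hq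
    have h5 : ((d : ℝ) / (d + 1)) ^ d ≤ ((d : ℝ) / (d + 1)) ^ (p - d) := by
      rw [← Real.rpow_natCast]
      exact Real.rpow_le_rpow_of_exponent_ge (by positivity) hr (by linarith)
    have h7 : c * (2 / (d + 1)) ^ d * (d / (d + 1)) ^ d ≤
        c * (2 / (d + 1)) ^ d * ((d : ℝ) / (d + 1)) ^ (p - d) := by gcongr
    have h8 : 0 < c * ((2 : ℝ) / (d + 1)) ^ d * (d / (d + 1)) ^ d := by positivity
    linarith

/-- Optimal potentials are bounded when `p > d`. -/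
theorem bdd_opt (hc : Ctx α β m) (H : All2 e α β m) {p A : ℝ} {V : E → ℝ} (hp : (d : ℝ) < p)
    (hA : 0 < A) (hV : PotR p A V) (hG : Gap e α β m p A)
    (hopt : Opt e α β m p A (lamD e α β m V)) : ∃ M, 0 ≤ M ∧ ∀ᵐ x, V x ≤ M := by
  have hd : (2 : ℝ) ≤ d := by exact_mod_cast hc.two
  have hp0 : 0 < p := by linarith
  obtain ⟨hlI, hP⟩ := lam_mem hc H hp.le hA hV hG hopt
  set lam := lamD e α β m V with hlam
  obtain ⟨C, -, hb⟩ := H.hb p hp
  have hadm := hb lam hlI p le_rfl A V hA.le hV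
  have hBS : BS (rk e α β m lam) V 1 := by
    refine bs_of_trunc (ks_rk hc.rep e m lam) hV.meas hV.nonneg hadm
      (fun n => {x | V x ≤ n}) (fun n => measurableSet_le hV.meas measurable_const)
      (fun x => tendsto_natCast_atTop_atTop.eventually (eventually_ge_atTop (V x))) fun n => ?_
    refine hP n _ (hV.of_le hp0.le
      (hV.meas.indicator (measurableSet_le hV.meas measurable_const))
      (fun x => indicator_nonneg (fun y _ => hV.nonneg y) x)
      fun x => indicator_le_self' (fun y _ => hV.nonneg y) x) fun x => ?_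
    by_cases hx : x ∈ {x | V x ≤ n}
    · rw [indicator_of_mem hx]
      exact hx
    · rw [indicator_of_notMem hx]
      positivity
  obtain ⟨ψ, hψ⟩ := H.att p A V hp hA.le hV hlI hBS
  obtain ⟨Ψ, hΨ⟩ := H.bdd lam hlI p A V ψ hp hA.le hV hψ
  obtain ⟨c, hc0, hel⟩ := H.el1 lam hlI p A _ V Ψ (by linarith) hA hV hadm hΨ (Or.inl hP)
  obtain ⟨K, hK⟩ := hΨ.bdd
  refine ⟨(c * K ^ 2) ^ (p - 1)⁻¹, by positivity, ?_⟩
  filter_upwards [hel] with x hx
  rcases (hV.nonneg x).eq_or_lt with h3 | h3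
  · rw [← h3]
    positivity
  · rw [Real.le_rpow_inv_iff_of_pos h3.le (by positivity) (by linarith),
      Real.rpow_sub_one h3.ne', hx, div_le_iff₀ h3]
    have := pow_le_pow_left₀ (norm_nonneg _) (hK x) 2
    nlinarith [mul_le_mul_of_nonneg_left this (mul_pos hc0 h3).le]

theorem gap_of_lt {p A : ℝ} (hp : 0 < p) (hA : 0 < A)
    (h : ENNReal.ofReal A < alphaStar e α β m p) : Gap e α β m p A := by
  have h1 := notMem_of_lt_csInf h (OrderBot.bddBelow _)
  simp only [mem_ofPred_eq, not_forall, not_exists, not_and, not_lt] at h1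
  obtain ⟨δ, hδ, h2⟩ := h1
  refine ⟨δ, hδ, fun W hW => h2 W ⟨hW.nonneg, memLp_of_potR hp hW⟩ ?_⟩
  have hI : 0 ≤ ∫ x, W x ^ p := integral_nonneg fun x => Real.rpow_nonneg (hW.nonneg x) _
  rw [(eLp_iff hp (Real.rpow_nonneg hI p⁻¹) hW.nonneg (memLp_of_potR hp hW)).2.mpr
    (Real.rpow_inv_rpow hI hp.ne').symm]
  refine ENNReal.ofReal_le_ofReal ?_
  rw [Real.rpow_inv_le_iff_of_pos hI hA.le hp]
  exact hW.le

theorem finalAB (hr : IsDiracRep α β) (hd : 2 ≤ d) (hn : ∃ ξ : S, ξ ≠ 0)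
    (H : ∀ m, Ctx α β m → All2 e α β m) (hS : StSup e α β) :
    ∃ c : ℝ, 0 < c ∧ ∀ m p A : ℝ, 0 < m → 0 < A → ENNReal.ofReal A < alphaStar e α β m p →
      ∀ V ∈ Pot E p, eLpNorm V (ENNReal.ofReal p) volume = ENNReal.ofReal A →
      (∀ W ∈ Pot E p, eLpNorm W (ENNReal.ofReal p) volume = ENNReal.ofReal A →
        lamD e α β m V ≤ lamD e α β m W) →
      (((d : ℝ) ≤ p ∧ ∃ M, (∀ᵐ x, V x ≤ M) ∧ Thr d p (m + lamD e α β m V) M) ∨
        ((d : ℝ) < p ∧ A ^ p ≤ c * (2 * m / d) ^ (p - d))) → Radial V := by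
  have hD : (2 : ℝ) ≤ d := by exact_mod_cast hd
  obtain ⟨c, hc0, hS⟩ := hS
  refine ⟨c * (2 / (d + 1)) ^ d * (d / (d + 1)) ^ d / 2, by positivity,
    fun m p A hm hA hs V hV hVA hopt hor => ?_⟩
  have hc : Ctx α β m := ⟨hr, hd, hm, hn⟩
  have hp : (d : ℝ) ≤ p := hor.elim (fun h => h.1) fun h => h.1.le
  have hG := gap_of_lt (by linarith) hA hs
  obtain ⟨V', he, h1, h2⟩ := reduce (by linarith) hA hV hVA hopt
  suffices h : Radial V' by
    obtain ⟨x₀, φ, h3, h4⟩ := h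
    exact ⟨x₀, φ, h3, he.trans h4⟩
  rcases hor with ⟨-, M, hM, hT⟩ | ⟨hp', hsm⟩
  · rw [lamD_congr he] at hT
    refine mainA2 hc (H m hc) hp hA h1 ?_ hG h2 hT
    filter_upwards [hM, he] with x hx hx'
    rwa [← hx']
  · obtain ⟨M₁, hM0, hM1⟩ := bdd_opt hc (H m hc) hp' hA h1 hG h2
    have he' : V' =ᵐ[volume] fun x => min (V' x) M₁ := by
      filter_upwards [hM1] with x hx
      rw [min_eq_left hx]
    have hV' := h1.of_le (by linarith) (h1.meas.min (measurable_const (a := M₁)))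
      (fun x => le_min (h1.nonneg x) hM0) fun x => min_le_left _ _
    have h2' := h2
    rw [lamD_congr he'] at h2'
    obtain ⟨hlI, -⟩ := lam_mem hc (H m hc) hp hA hV' hG h2'
    obtain ⟨Ψ, u, k, hk, hΨ, hEL, hu⟩ :=
      trunk hc (H m hc) hp hA hV' (fun x => min_le_right _ _) hG h2'
    obtain ⟨M, hM, hVM, hcM⟩ := hS m hm _ hlI p A k _ Ψ (by linarith) hk hV' hΨ hEL
    have hb := hu.le (H m hc).alg (by linarith [hlI.1]) hV'.meas hV'.nonneg hVM
    rw [← lamD_congr he'] at hb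
    refine mainA2 hc (H m hc) hp hA h1 ?_ hG h2
      (thr_of_small hd hc0 hm hp hM hcM hA (by linarith) hsm)
    filter_upwards [hVM, he'] with x hx hx'
    rwa [hx']

end Pool.Agent.MP_e4cac8_mp
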