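import Pool.Agent.Mg.Fe4cac8.G43e91a

set_option linter.all false

section

/-! The Euler-Lagrange equation where the potential vanishes. -/

open Set MeasureTheory Filter Topology
open scoped ENNReal NNReal SchwartzMap
open Pool.Agent.MP_0b7119_mp.G

namespace Pool.Agent.MP_e4cac8_mp

set_option linter.unusedSectionVars false

variable {E S : Type} [NormedAddCommGroup E] [InnerProductSpace ℝ E] [FiniteDimensional ℝ E]
  [MeasurableSpace E] [BorelSpace E] [NormedAddCommGroup S] [InnerProductSpace ℂ S]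
  [CompleteSpace S] [FiniteDimensional ℂ S] {d : ℕ}
  {e : OrthonormalBasis (Fin d) ℝ E} {α : Fin d → S →L[ℂ] S} {β : S →L[ℂ] S} {m : ℝ}

theorem stEL2b (hc : Ctx α β m) : StEL2 e α β m := by
  intro l hl p A M V ψ hp hA hM hV hVM hP hψ
  set r := rk e α β m l
  have hr : Ks r := ks_rk hc.rep e m l
  have hi : Integrable r volume := integrable_rk hc.rep e hl
  have hp0 : p ≠ 0 := by linarith
  obtain ⟨f1, f2⟩ := hψ.fix.form hr hV.meas hV.nonneg
    (adm_of_bdd hV.meas hV.nonneg hVM hi.norm fun _ => norm_nonneg _)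
  set I := ∫ x, V x * ‖ψ x‖ ^ 2
  have hg := memLp_sv_of_int hV.meas hV.nonneg hψ.fix.l2.1 hψ.fix.intV
  have hF := memLp_sv hV.meas hVM hg
  have hPp : 0 < ∫ x, V x ^ p := by
    refine (integral_nonneg fun x => Real.rpow_nonneg (hV.nonneg x) p).lt_of_ne fun h => f2.ne' ?_
    refine integral_eq_zero_of_ae ?_
    filter_upwards [(integral_eq_zero_iff_of_nonneg (fun x => Real.rpow_nonneg (hV.nonneg x) p)
      hV.int).mp h.symm] with x hx
    simp [(Real.rpow_eq_zero (hV.nonneg x) hp0).mp hx]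
  set P := ∫ x, V x ^ p with hPd
  have key : ∀ n : ℕ, ∀ᵐ x, x ∈ {x | V x = 0} ∩ Metric.ball (0 : E) n → ψ x = 0 := by
    intro n
    set B := {x | V x = 0} ∩ Metric.ball (0 : E) n
    have hB : MeasurableSet B := (hV.meas (measurableSet_singleton 0)).inter measurableSet_ball
    have hBf : volume B ≠ ∞ := ((measure_mono inter_subset_right).trans_lt measure_ball_lt_top).ne
    set G := B.indicator ψ with hGd
    have hG : MemLp G 2 volume := hψ.fix.l2.indicator hB
    have ib := fun {g f : E → S} (hg : MemLp g 2 volume) (hf : MemLp f 2 volume) =>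
      int_bi hr.meas hg.1 hf.1 (schur_l2 hr hi hg hf).1
    have hGF : Bf r G (sv V (sv V ψ)) = JD.I2 G := by
      rw [Bf_eq hr.meas hG.1 hF.1 (schur_l2 hr hi hG hF).1, sv_sv hV.nonneg, ← Rop_eq_cv]
      refine integral_congr_ae (Eventually.of_forall fun x => ?_)
      by_cases hx : x ∈ B
      · simp only [← hψ.eq x, hGd, indicator_of_mem hx]
        exact inner_self_eq_norm_sq (𝕜 := ℂ) _
      · simp [hGd, indicator_of_notMem hx]
    have hb0 : 0 ≤ volume.real B := measureReal_nonneg
    have t1 : Tendsto (fun ε : ℝ => ε ^ p * volume.real B / P) (𝓝[>] 0) (𝓝 0) := by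
      refine tendsto_nhdsWithin_of_tendsto_nhds (Continuous.tendsto' ?_ _ _ (by simp [hp0]))
      exact ((Real.continuous_rpow_const (by linarith)).mul continuous_const).div_const _
    have t2 : Tendsto (fun ε : ℝ => 2 * I * (ε ^ (p - 1) * volume.real B / P) - ε * Bf r G G)
        (𝓝[>] 0) (𝓝 0) := by
      refine tendsto_nhdsWithin_of_tendsto_nhds (Continuous.tendsto' ?_ _ _
        (by simp [Real.zero_rpow (sub_pos.mpr hp).ne']))
      have := Real.continuous_rpow_const (sub_pos.mpr hp).le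
      fun_prop
    have hJ : JD.I2 G ≤ 0 := by
      refine ge_of_tendsto t2 ?_
      filter_upwards [t1.eventually (gt_mem_nhds one_half_pos), self_mem_nhdsWithin,
        nhdsWithin_le_nhds (ge_mem_nhds hM)] with ε h1 (h2 : 0 < ε) h3
      set η := ε ^ p * volume.real B / P with hη
      have η0 : 0 ≤ η := by positivity
      have η1 : 0 < 1 - η := by linarith
      set W : E → ℝ := fun x => (1 - η) * V x + B.indicator (fun _ => ε) x with hW
      have e1 : ∀ x ∈ B, W x = ε := fun x hx => by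
        simp only [hW, indicator_of_mem hx, show V x = 0 from hx.1, mul_zero, zero_add]
      have e2 : ∀ x ∉ B, W x = (1 - η) * V x := fun x hx => by
        simp only [hW, indicator_of_notMem hx, add_zero]
      have mW : Measurable W := (hV.meas.const_mul _).add (measurable_const.indicator hB)
      have W0 : ∀ x, 0 ≤ W x := fun x => add_nonneg (mul_nonneg η1.le (hV.nonneg x))
        (indicator_nonneg (fun _ _ => h2.le) x)
      have hb : ∀ x, W x ^ p ≤ (1 - η) * V x ^ p + B.indicator (fun _ => ε ^ p) x := fun x => by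
        by_cases hx : x ∈ B
        · rw [e1 x hx, indicator_of_mem hx]
          have := mul_nonneg η1.le (Real.rpow_nonneg (hV.nonneg x) p)
          linarith
        · rw [e2 x hx, indicator_of_notMem hx, add_zero, Real.mul_rpow η1.le (hV.nonneg x)]
          refine mul_le_mul_of_nonneg_right ?_ (Real.rpow_nonneg (hV.nonneg x) p)
          simpa using Real.rpow_le_rpow_of_exponent_ge η1 (by linarith) hp.le
      have i1 : Integrable (B.indicator fun _ => ε ^ p) volume :=
        (integrableOn_const hBf).integrable_indicator hB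
      have i2 := (hV.int.const_mul (1 - η)).add i1
      have i3 : Integrable (fun x => W x ^ p) volume :=
        i2.mono' (mW.pow_const p).aestronglyMeasurable (Eventually.of_forall fun x => by
          rw [Real.norm_of_nonneg (Real.rpow_nonneg (W0 x) p)]
          exact hb x)
      have hWp : PotR p A W := ⟨mW, W0, i3, by
        refine (integral_mono i3 i2 hb).trans (le_trans (le_of_eq ?_) hV.le)
        simp only [Pi.add_apply]
        rw [integral_add (hV.int.const_mul _) i1, integral_const_mul, integral_indicator_const _ hB,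
          ← hPd, hη, smul_eq_mul]
        field_simp
        ring⟩
      have h4 := hP W hWp (fun x => by
        by_cases hx : x ∈ B
        · rw [e1 x hx]
          exact h3
        · rw [e2 x hx]
          nlinarith [hVM x, hV.nonneg x])
        (fun x => (((√(1 - η))⁻¹ : ℝ) : ℂ) • sv V ψ x + ((√ε : ℝ) : ℂ) • G x)
        ((hg.const_smul _).add (hG.const_smul _))
      have e3 : sv W (fun x => (((√(1 - η))⁻¹ : ℝ) : ℂ) • sv V ψ x + ((√ε : ℝ) : ℂ) • G x) =
          fun x => sv V (sv V ψ) x + (ε : ℂ) • G x := by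
        ext x
        by_cases hx : x ∈ B
        · simp only [sv, e1 x hx, show V x = 0 from hx.1, Real.sqrt_zero, Complex.ofReal_zero,
            zero_smul, smul_zero, zero_add, smul_smul, ← Complex.ofReal_mul,
            Real.mul_self_sqrt h2.le]
        · have : √(1 - η) ≠ 0 := (Real.sqrt_pos.mpr η1).ne'
          simp only [sv, e2 x hx, hGd, indicator_of_notMem hx, smul_zero, add_zero, smul_smul,
            ← Complex.ofReal_mul, Real.sqrt_mul η1.le]
          congr 2
          field_simp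
      have e4 : JD.I2 (fun x => (((√(1 - η))⁻¹ : ℝ) : ℂ) • sv V ψ x + ((√ε : ℝ) : ℂ) • G x) =
          (1 - η)⁻¹ * I + ε * JD.I2 G := by
        unfold JD.I2
        rw [← integral_const_mul, ← integral_const_mul,
          ← integral_add (hψ.fix.intV.const_mul _) ((JD.int_sq hG).const_mul _)]
        congr 1
        ext x
        by_cases hx : x ∈ B
        · simp [sv, show V x = 0 from hx.1, norm_smul, mul_pow, Real.sq_sqrt h2.le]
        · simp [hGd, indicator_of_notMem hx, norm_smul, norm_sv, mul_pow, Real.sq_sqrt η1.le,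
            Real.sq_sqrt (hV.nonneg x)]
      have hFG : MemLp (fun x => sv V (sv V ψ) x + (ε : ℂ) • G x) 2 volume :=
        hF.add (hG.const_smul _)
      rw [e3, e4, Bf_add_left (ib hF hFG) (ib hG hFG), Bf_add_right (ib hF hF) (ib hF hG),
        Bf_add_right (ib hG hF) (ib hG hG), f1, Bf_symm hr _ G, hGF] at h4
      have h5 : (1 - η)⁻¹ ≤ 1 + 2 * η := by
        rw [inv_le_iff_one_le_mul₀ η1]
        nlinarith
      have h6 : η = ε * (ε ^ (p - 1) * volume.real B / P) := by
        rw [hη, Real.rpow_sub_one h2.ne']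
        field_simp
      refine le_of_mul_le_mul_left ?_ h2
      rw [mul_sub, mul_left_comm ε, ← h6]
      nlinarith [mul_le_mul_of_nonneg_right h5 f2.le]
    filter_upwards [JD.I2_eq_zero hG (le_antisymm hJ (JD.I2_nonneg G))] with x hx hxB
    simpa only [hGd, indicator_of_mem hxB, Pi.zero_apply] using hx
  filter_upwards [ae_all_iff.mpr key] with x hx h0
  obtain ⟨n, hn⟩ := exists_nat_gt ‖x‖
  exact hx n ⟨h0, mem_ball_zero_iff.mpr hn⟩

end Pool.Agent.MP_e4cac8_mp

end

section

/-! From the Birman-Schwinger bound to the scalar form. -/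

open Set MeasureTheory Filter Topology
open scoped ENNReal NNReal SchwartzMap
open Pool.Agent.MP_0b7119_mp.G

namespace Pool.Agent.MP_e4cac8_mp

set_option linter.unusedSectionVars false

variable {E S : Type} [NormedAddCommGroup E] [InnerProductSpace ℝ E] [FiniteDimensional ℝ E]
  [MeasurableSpace E] [BorelSpace E] [NormedAddCommGroup S] [InnerProductSpace ℂ S]
  [CompleteSpace S] [FiniteDimensional ℂ S] {d : ℕ}
  (e : OrthonormalBasis (Fin d) ℝ E) (α : Fin d → S →L[ℂ] S) (β : S →L[ℂ] S) (m : ℝ)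

namespace P1

theorem exists_chi (hc : Ctx α β m) : ∃ χ : S, ‖χ‖ = 1 ∧ β χ = χ := by
  obtain ⟨ξ, hξ⟩ := hc.nt
  obtain ⟨η, h0, h1⟩ : ∃ η : S, η ≠ 0 ∧ β η = η := by
    by_cases h : ξ + β ξ = 0
    · have j : Fin d := ⟨0, by have := hc.two; omega⟩
      have h2 := congrArg (fun T : S →L[ℂ] S => T ξ) (hc.rep.αα j j)
      have h3 := congrArg (fun T : S →L[ℂ] S => T ξ) (hc.rep.αβ j)
      simp only [add_apply, mul_apply_eq_comp, if_true,
        zero_apply, ← one_add_one_eq_two (R := S →L[ℂ] S),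
        one_apply_eq_self] at h2 h3
      refine ⟨α j ξ, fun h4 => hξ ?_, ?_⟩
      · rw [h4, map_zero, add_zero, ← two_smul ℂ] at h2
        simpa using h2.symm
      · rw [eq_neg_of_add_eq_zero_right h, map_neg] at h3
        exact (neg_add_eq_zero.1 h3).symm
    · exact ⟨ξ + β ξ, h, by rw [map_add, β_β hc.rep, add_comm]⟩
  refine ⟨((‖η‖⁻¹ : ℝ) : ℂ) • η, ?_, by rw [map_smul, h1]⟩
  rw [norm_smul, Complex.norm_real, Real.norm_of_nonneg (by positivity),
    inv_mul_cancel₀ (norm_ne_zero_iff.2 h0)]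

theorem pt {χ n : S} (hχ : ‖χ‖ = 1) (hβ : β χ = χ) (hn : β n = -n) (ho : inner ℂ χ n = 0)
    (s t w : ℝ) :
    ‖(s : ℂ) • χ + (t : ℂ) • n‖ ^ 2 = s ^ 2 + t ^ 2 * ‖n‖ ^ 2 ∧
    (inner ℂ ((s : ℂ) • χ) ((w : ℂ) • ((s : ℂ) • χ + (t : ℂ) • n))).re = w * s ^ 2 ∧
    (inner ℂ n ((w : ℂ) • ((s : ℂ) • χ + (t : ℂ) • n))).re = w * t * ‖n‖ ^ 2 ∧
    ‖(2⁻¹ : ℂ) • ((w : ℂ) • ((s : ℂ) • χ + (t : ℂ) • n) -
      β ((w : ℂ) • ((s : ℂ) • χ + (t : ℂ) • n)))‖ ^ 2 = (w * t) ^ 2 * ‖n‖ ^ 2 := by
  have ho' : inner ℂ n χ = 0 := by rw [← inner_conj_symm, ho, map_zero]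
  have h1 : inner ℂ χ χ = 1 := by rw [inner_self_eq_norm_sq_to_K, hχ]; simp
  have h2 : inner ℂ n n = ((‖n‖ ^ 2 : ℝ) : ℂ) := by rw [inner_self_eq_norm_sq_to_K]; simp
  refine ⟨?_, ?_, ?_, ?_⟩
  · rw [norm_add_sq (𝕜 := ℂ), inner_smul_left, inner_smul_right, ho, norm_smul, norm_smul, hχ]
    simp [mul_pow]
  · simp only [inner_smul_left, inner_smul_right, inner_add_right, ho, h1, Complex.conj_ofReal,
      mul_zero, add_zero, mul_one, ← Complex.ofReal_mul, Complex.ofReal_re]
    ring
  · simp only [inner_smul_right, inner_add_right, ho', h2, mul_zero, zero_add,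
      ← Complex.ofReal_mul, Complex.ofReal_re]
    ring
  · have : (2⁻¹ : ℂ) • ((w : ℂ) • ((s : ℂ) • χ + (t : ℂ) • n) -
        β ((w : ℂ) • ((s : ℂ) • χ + (t : ℂ) • n))) = ((w * t : ℝ) : ℂ) • n := by
      simp only [map_smul, map_add, hβ, hn]
      push_cast
      module
    rw [this, norm_smul, mul_pow, Complex.norm_real, Real.norm_eq_abs, sq_abs]

theorem scal {a b : ℝ} (ha : 0 < a) {W F N : E → ℝ} (w0 : ∀ x, 0 < a + W x)
    (i1 : Integrable F volume) (i2 : Integrable N volume)
    (mulW : ∀ {u : E → ℝ}, Integrable u volume → Integrable (fun x => W x * u x) volume)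
    (mult : ∀ {u : E → ℝ}, Integrable u volume →
      Integrable (fun x => (a + W x)⁻¹ * u x) volume) :
    ∫ x, (N x / (a + W x) - (W x - b) * F x) =
      (∫ x, N x) / a - 2 / a * (∫ x, W x * ((a + W x)⁻¹ * N x)) +
      (∫ x, W x * (W x * ((a + W x)⁻¹ * ((a + W x)⁻¹ * N x)))) / a +
      (∫ x, W x * ((a + W x)⁻¹ * ((a + W x)⁻¹ * N x))) -
      (∫ x, W x * F x) + b * ∫ x, F x := by
  have j1 := i2.div_const a
  have j2 := (mulW (mult i2)).const_mul (2 / a)
  have j3 := (mulW (mulW (mult (mult i2)))).div_const a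
  have j4 := mulW (mult (mult i2))
  have j5 := mulW i1
  have j6 := i1.const_mul b
  have k2 := integral_sub j1 j2
  have k3 := integral_add (j1.sub j2) j3
  have k4 := integral_add ((j1.sub j2).add j3) j4
  have k5 := integral_sub (((j1.sub j2).add j3).add j4) j5
  have k6 := integral_add ((((j1.sub j2).add j3).add j4).sub j5) j6
  simp only [Pi.add_apply, Pi.sub_apply] at k3 k4 k5 k6
  rw [← integral_div, ← integral_div, ← integral_const_mul, ← integral_const_mul,
    ← k2, ← k3, ← k4, ← k5, ← k6]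
  congr 1; ext x
  have := (w0 x).ne'
  field_simp
  ring

theorem meas_n (f : E → ℝ) (χ : S) :
    AEStronglyMeasurable (fun x => (-Complex.I) • cl e α (gradient f x) χ) volume := by
  have c0 : Continuous fun v : E => (-Complex.I) • cl e α v χ :=
    ((continuous_cl e α).clm_apply continuous_const).const_smul (-Complex.I)
  have c1 : Measurable (gradient f) :=
    (InnerProductSpace.toDual ℝ E).symm.continuous.measurable.comp (measurable_fderiv ℝ f)
  exact c0.comp_aestronglyMeasurable c1.aestronglyMeasurable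

theorem int_grad {f : E → ℝ} {L : ℝ≥0} (hL : LipschitzWith L f) (hf : HasCompactSupport f) :
    Integrable (fun x => ‖fderiv ℝ f x‖ ^ 2) volume := by
  have hs : HasCompactSupport fun x => ‖fderiv ℝ f x‖ ^ 2 :=
    (hf.fderiv ℝ).comp_left (g := fun T : E →L[ℝ] ℝ => ‖T‖ ^ 2) (by simp)
  refine (integrableOn_iff_integrable_of_support_subset (subset_tsupport _)).1 ?_
  refine Measure.integrableOn_of_bounded (M := (L : ℝ) ^ 2) hs.measure_lt_top.ne
    ((measurable_fderiv ℝ f).norm.pow_const 2).aestronglyMeasurable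
    (Eventually.of_forall fun x => ?_)
  rw [Real.norm_of_nonneg (by positivity)]
  exact pow_le_pow_left₀ (norm_nonneg _) (norm_fderiv_le_of_lipschitz ℝ hL) 2

end P1

theorem stP1 (hc : Ctx α β m) (h1 : StF1 e α β m) : StP1 e α β m := by
  intro l hl p A M hHP W f hW hWM ⟨L, hL⟩ hf
  obtain ⟨χ, hχ, hβ⟩ := P1.exists_chi α β m hc
  have ha : 0 < m + l := by linarith [hl.1]
  set a := m + l with ha'
  set n : E → S := fun x => (-Complex.I) • cl e α (gradient f x) χ with hn
  have n1 : ∀ x, β (n x) = -n x := fun x => by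
    have := cl_β_apply hc.rep e (gradient f x) χ
    rw [hβ] at this
    simp only [hn, map_smul]
    rw [← smul_neg, ← neg_eq_iff_eq_neg.2 this]
  have n2 : ∀ x, inner ℂ χ (n x) = 0 := fun x => by
    simp only [hn, inner_smul_right, inner_cl_upper hc.rep e _ hβ, mul_zero]
  have n3 : ∀ x, ‖n x‖ = ‖fderiv ℝ f x‖ := fun x => by
    simp only [hn, norm_smul, norm_cl_apply hc.rep, hχ, gradient, LinearIsometryEquiv.norm_map]
    simp
  have n4 : AEStronglyMeasurable n volume := P1.meas_n e α f χ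
  have i1 : Integrable (fun x => f x ^ 2) volume := by
    have c := hL.continuous
    have c1 : Continuous fun x => f x ^ 2 := by fun_prop
    have c2 : HasCompactSupport fun x => f x ^ 2 :=
      hf.comp_left (g := fun s : ℝ => s ^ 2) (by simp)
    exact c1.integrable_of_hasCompactSupport c2
  have i2 := P1.int_grad hL hf
  have w0 : ∀ x, 0 < a + W x := fun x => by linarith [hW.nonneg x]
  have mt : Measurable fun x => (a + W x)⁻¹ := (measurable_const.add hW.meas).inv
  have bW : ∀ x, ‖W x‖ ≤ M := fun x => by rw [Real.norm_of_nonneg (hW.nonneg x)]; exact hWM x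
  have bt : ∀ x, ‖(a + W x)⁻¹‖ ≤ a⁻¹ := fun x => by
    rw [Real.norm_of_nonneg (inv_pos.2 (w0 x)).le]
    exact inv_anti₀ ha (by linarith [hW.nonneg x])
  have mulW : ∀ {u : E → ℝ}, Integrable u volume → Integrable (fun x => W x * u x) volume :=
    fun h => h.bdd_mul hW.meas.aestronglyMeasurable (Eventually.of_forall bW)
  have mult : ∀ {u : E → ℝ}, Integrable u volume →
      Integrable (fun x => (a + W x)⁻¹ * u x) volume :=
    fun h => h.bdd_mul mt.aestronglyMeasurable (Eventually.of_forall bt)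
  obtain ⟨h, hh⟩ : ∃ h : E → S, h = fun x =>
    ((f x : ℝ) : ℂ) • χ + (((a + W x)⁻¹ : ℝ) : ℂ) • n x := ⟨_, rfl⟩
  have hh' : ∀ x, ((f x : ℝ) : ℂ) • χ + (((a + W x)⁻¹ : ℝ) : ℂ) • n x = h x := fun x => by rw [hh]
  have hp := fun x => P1.pt β hχ hβ (n1 x) (n2 x) (f x) (a + W x)⁻¹ (W x)
  simp only [n3, hh'] at hp
  have hm : AEStronglyMeasurable h volume :=
    hh ▸ ((Complex.continuous_ofReal.comp hL.continuous).smul
      continuous_const).aestronglyMeasurable.add
      ((Complex.measurable_ofReal.comp mt).aestronglyMeasurable.smul n4)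
  have h2 : MemLp h 2 volume := by
    rw [memLp_two_iff_integrable_sq_norm hm]
    refine (i1.add (mult (mult i2))).congr (Eventually.of_forall fun x => ?_)
    simp only [(hp x).1, Pi.add_apply]; ring
  have h3 := memLp_sv hW.meas hWM h2
  have k1 := hHP W hW hWM _ h3
  have k2 := h1 l hl _ f χ (memLp_sv hW.meas hWM h3) ⟨L, hL⟩ hf hβ
  rw [I2_sv hW.nonneg] at k1
  rw [sv_sv hW.nonneg] at k1 k2
  simp only [JD.I2] at k2
  have e1 : ∫ x, W x * ‖h x‖ ^ 2 = (∫ x, W x * f x ^ 2) +
      ∫ x, W x * ((a + W x)⁻¹ * ((a + W x)⁻¹ * ‖fderiv ℝ f x‖ ^ 2)) := by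
    rw [← integral_add (mulW i1) (mulW (mult (mult i2)))]
    congr 1; ext x; simp only [(hp x).1]; ring
  have e2 : ∫ x, (inner ℂ ((f x : ℂ) • χ) ((W x : ℂ) • h x)).re = ∫ x, W x * f x ^ 2 := by
    congr 1; ext x; exact (hp x).2.1
  have e3 : ∫ x, (inner ℂ ((-Complex.I) • cl e α (gradient f x) χ) ((W x : ℂ) • h x)).re =
      ∫ x, W x * ((a + W x)⁻¹ * ‖fderiv ℝ f x‖ ^ 2) := by
    congr 1; ext x; rw [← mul_assoc]; exact (hp x).2.2.1
  have e4 : ∫ x, ‖(2⁻¹ : ℂ) • ((W x : ℂ) • h x - β ((W x : ℂ) • h x))‖ ^ 2 =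
      ∫ x, W x * (W x * ((a + W x)⁻¹ * ((a + W x)⁻¹ * ‖fderiv ℝ f x‖ ^ 2))) := by
    congr 1; ext x; rw [(hp x).2.2.2]; ring
  rw [e2, e3, e4, hχ] at k2
  rw [e1] at k1
  rw [P1.scal ha w0 i1 i2 mulW mult]
  simp only [one_pow, mul_one, one_mul] at k1 k2
  linarith

end Pool.Agent.MP_e4cac8_mp

end
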