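import Pool.Agent.Mg.Fe4cac8.G43e91a
import Pool.Agent.Mg.Fe4cac8.G95f6fa

set_option linter.all false

/-! The radial Euler-Lagrange system. -/

open Set MeasureTheory Filter Topology

namespace Pool.Agent.MP_e4cac8_mp

theorem stODE (hV : StVm) : StODE := by
  intro k c a b p A M s φ _ hp ha hb hM _ hT hA ⟨L, hL⟩ h0 hP
  obtain ⟨hc, hm⟩ := hV p a M hp ha hM
  have hv : ODE.Pv a M fun r => Vm p a M (s * deriv φ r) (s * φ r) :=
    ⟨ha, hc.measurable.comp (((measurable_deriv φ).const_mul s).prodMk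
      (hL.continuous.measurable.const_mul s)), fun r => ⟨(hm _ _).1, (hm _ _).2.1⟩⟩
  exact ODE.core (s := s) (e := (p - 1)⁻¹) hv hb (inv_nonneg.2 (by linarith)) hL hA h0 hP.i0
    (fun r => (hm _ _).2.2.2.2)
    (fun h => hc.comp_continuousOn ((continuousOn_const.mul h).prodMk
      (continuousOn_const.mul hL.continuous.continuousOn)))
    (ODE.el hv hL fun y hy => ODE.var hv hL hP.i0 hP.i1
      (fun ψ => hT _ ψ hv.meas hv.bd hP.i2 hP.nrm) hP.en hy)

end Pool.Agent.MP_e4cac8_mp
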