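import Pool.Agent.Mg.Fe4cac8.G43e91a
import Pool.Agent.Mg.Fe4cac8.G97a2a0

set_option linter.all false

section

/-! A function whose slope is the slope of its rearrangement is radial. -/

open Set MeasureTheory Filter Topology Metric
open scoped ENNReal NNReal

namespace Pool.Agent.MP_e4cac8_mp

variable {E : Type} [NormedAddCommGroup E] [InnerProductSpace ℝ E] [FiniteDimensional ℝ E]
  [MeasurableSpace E] [BorelSpace E]

namespace Geo

theorem barrier {f : ℝ → ℝ} (hf : Continuous f) (h0 : f 0 ≤ 0)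
    (h : ∀ τ ∈ Ico (0 : ℝ) 1, f τ = 0 → ∃ a < 0, HasDerivAt f a τ) : f 1 ≤ 0 := by
  have := IsClosed.Icc_subset_of_forall_mem_nhdsWithin (s := {τ | f τ ≤ 0}) (a := (0 : ℝ)) (b := 1)
    ((isClosed_le hf continuous_const).inter isClosed_Icc) h0 fun τ hτ => ?_
  · exact this ⟨zero_le_one, le_rfl⟩
  · rcases eq_or_lt_of_le (show f τ ≤ 0 from hτ.1) with e | e
    · obtain ⟨a, ha, hd⟩ := h τ hτ.2 e
      have t := (hasDerivAt_iff_tendsto_slope_left_right.1 hd).2.eventually (gt_mem_nhds ha)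
      filter_upwards [t, self_mem_nhdsWithin] with z hz hz'
      rw [slope_def_field, e, sub_zero, div_neg_iff] at hz
      have : 0 < z - τ := sub_pos.2 hz'
      rcases hz with hz | hz
      · linarith [hz.2]
      · exact hz.1.le
    · exact mem_nhdsWithin_of_mem_nhds
        ((hf.continuousAt.eventually (gt_mem_nhds e)).mono fun z hz => le_of_lt hz)

theorem vol_eq (hn : 2 ≤ Module.finrank ℝ E) {L : ℝ≥0} {ρ : E → ℝ} {φ y : ℝ → ℝ} (hL : Lev L ρ)
    (hR : Rearr L ρ φ y) {R : ℝ} (h0 : 0 ≤ R) (h : ∀ r, 0 < r → r < R → φ R < φ r) (x₀ : E) :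
    volume {x | φ R < ρ x} = volume (ball x₀ R) := by
  have : Nontrivial E := Module.nontrivial_of_finrank_pos (R := ℝ) (by omega)
  have hc := hL.lip.continuous
  have hc' := hR.lip.continuous
  have e := hR.eqm ((Ioi (φ R)).indicator 1) (measurable_one.indicator measurableSet_Ioi)
  have m1 : MeasurableSet {x | φ R < ρ x} := (isOpen_lt continuous_const hc).measurableSet
  have e1 : ∫⁻ x in {x | 0 < ρ x}, (Ioi (φ R)).indicator (1 : ℝ → ℝ≥0∞) (ρ x) =
      volume {x | φ R < ρ x} := by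
    rw [show (fun x => (Ioi (φ R)).indicator (1 : ℝ → ℝ≥0∞) (ρ x)) =
      {x | φ R < ρ x}.indicator 1 from rfl, lintegral_indicator_one m1, Measure.restrict_apply m1,
      inter_eq_left.2 (show {x | φ R < ρ x} ⊆ {x | 0 < ρ x} from
        fun x hx => (hR.nonneg R).trans_lt hx)]
  have m2 : MeasurableSet {r : ℝ | 0 < r ∧ 0 < φ r} :=
    ((isOpen_lt continuous_const continuous_id).inter (isOpen_lt continuous_const hc')).measurableSet
  have e2 : ∫⁻ r in {r | 0 < r ∧ 0 < φ r},
      ENNReal.ofReal (Module.finrank ℝ E * om E * r ^ (Module.finrank ℝ E - 1)) *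
        (Ioi (φ R)).indicator (1 : ℝ → ℝ≥0∞) (φ r) = ∫⁻ r in Ioo 0 R,
      ENNReal.ofReal (Module.finrank ℝ E * om E * r ^ (Module.finrank ℝ E - 1)) := by
    rw [← lintegral_indicator m2, ← lintegral_indicator measurableSet_Ioo]
    refine lintegral_congr fun r => ?_
    by_cases hr : r ∈ Ioo 0 R
    · have h1 := h r hr.1 hr.2
      rw [indicator_of_mem hr, indicator_of_mem (show r ∈ {r | 0 < r ∧ 0 < φ r} from
        ⟨hr.1, (hR.nonneg R).trans_lt h1⟩), indicator_of_mem (show φ r ∈ Ioi (φ R) from h1),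
        Pi.one_apply, mul_one]
    · rw [indicator_of_notMem hr]
      by_cases h1 : r ∈ {r | 0 < r ∧ 0 < φ r}
      · rw [indicator_of_mem h1, indicator_of_notMem, mul_zero]
        exact not_lt.2 (hR.anti (not_lt.1 fun h2 => hr ⟨h1.1, h2⟩))
      · exact indicator_of_notMem h1 _
  have hp := (om_pos (E := E)).le
  rw [← e1, e, e2, ← ofReal_integral_eq_lintegral_ofReal, ← integral_Ioc_eq_integral_Ioo,
    ← intervalIntegral.integral_of_le h0, intervalIntegral.integral_const_mul, integral_pow,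
    Measure.addHaar_ball volume x₀ h0, ← ofReal_measureReal measure_ball_lt_top.ne,
    ← ENNReal.ofReal_mul (by positivity)]
  · congr 1
    obtain ⟨k, hk⟩ : ∃ k, Module.finrank ℝ E = k + 1 := ⟨Module.finrank ℝ E - 1, by omega⟩
    rw [hk, om]
    simp only [Nat.add_sub_cancel, Nat.cast_add, Nat.cast_one, ne_eq, Nat.add_eq_zero_iff,
      one_ne_zero, and_false, not_false_eq_true, zero_pow, sub_zero]
    field_simp
  · exact (Continuous.integrableOn_Icc (by fun_prop)).mono_set Ioo_subset_Icc_self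
  · filter_upwards [ae_restrict_mem measurableSet_Ioo] with r hr
    have := hr.1
    simp only [Pi.zero_apply]
    positivity

theorem sub_ball {U : Set E} (hU : IsOpen U) {x₀ : E} {R : ℝ} (h : ball x₀ R ⊆ U)
    (h' : volume U ≤ volume (ball x₀ R)) : U ⊆ closedBall x₀ R := by
  have h1 : volume (U \ closedBall x₀ R) = 0 := by
    refine measure_mono_null (sdiff_subset_sdiff_right ball_subset_closedBall) ?_
    rw [measure_sdiff h measurableSet_ball.nullMeasurableSet measure_ball_lt_top.ne]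
    exact tsub_eq_zero_of_le h'
  exact sdiff_eq_empty.1 ((hU.sdiff isClosed_closedBall).eq_empty_of_measure_zero h1)

end Geo

theorem stGeo (hn : 2 ≤ Module.finrank ℝ E) : StGeo E := by
  rintro L ρ φ y hL hR ⟨x₁, hx₁⟩ hd hc hneg hae
  have : Nontrivial E := Module.nontrivial_of_finrank_pos (R := ℝ) (by omega)
  have cρ := hL.lip.continuous
  have cφ := hR.lip.continuous
  have str : ∀ r s, 0 ≤ r → r < s → 0 < φ r → φ s < φ r := fun r s h0 hrs hp => by
    rcases eq_or_lt_of_le (hR.nonneg s) with e | e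
    · rwa [← e]
    · refine strictAntiOn_of_deriv_neg (convex_Icc r s) cφ.continuousOn (fun z hz => ?_)
        (left_mem_Icc.2 hrs.le) (right_mem_Icc.2 hrs.le) hrs
      rw [interior_Icc] at hz
      exact hneg z (h0.trans_lt hz.1) (e.trans_le (hR.anti hz.2.le))
  have vol : ∀ R, 0 ≤ R → 0 < φ R → ∀ x₀ : E, volume {x | φ R < ρ x} = volume (ball x₀ R) :=
    fun R h0 hp => Geo.vol_eq hn hL hR h0 fun r h1 h2 => str r R h1.le h2
      (hp.trans_le (hR.anti h2.le))
  have hT : ∀ x, ρ x ≤ φ 0 := fun x => by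
    have := Geo.vol_eq hn hL hR le_rfl (fun r h1 h2 => absurd h1 (not_lt.2 h2.le)) 0
    rw [ball_zero, measure_empty] at this
    exact not_lt.1 fun h => (((isOpen_lt continuous_const cρ).eq_empty_of_measure_zero
      this).subset (show x ∈ {x | φ 0 < ρ x} from h) :)
  have surj : ∀ t, 0 < t → t < φ 0 → ∃ r, 0 < r ∧ φ r = t := fun t h0 h1 => by
    obtain ⟨R, hB⟩ := (hL.bdd t h0).subset_ball_lt 0 0
    have h2 : φ (2 * R) ≤ t := not_lt.1 fun h => by
      have h3 := vol (2 * R) (by linarith [hB.1]) (h0.trans h) 0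
      have h4 : volume (ball (0 : E) (2 * R)) ≤ volume (ball (0 : E) R) :=
        h3 ▸ measure_mono fun x hx => hB.2 (h.trans hx).le
      obtain ⟨z, hz⟩ := exists_norm_eq E (show 0 ≤ 3 / 2 * R by linarith [hB.1])
      have h5 := Geo.sub_ball isOpen_ball (ball_subset_ball (by linarith [hB.1])) h4
        (show z ∈ ball (0 : E) (2 * R) by rw [mem_ball_zero_iff, hz]; linarith [hB.1])
      rw [mem_closedBall_zero_iff, hz] at h5
      linarith [hB.1]
    obtain ⟨r, hr, e⟩ := intermediate_value_Icc' (show 0 ≤ 2 * R by linarith [hB.1])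
      cφ.continuousOn ⟨h2, h1.le⟩
    exact ⟨r, hr.1.lt_of_ne fun e' => h1.ne (by rw [← e, ← e']), e⟩
  choose! s hs using surj
  have cs : ∀ t, 0 < t → t < φ 0 → ContinuousAt s t := fun t h0 h1 => by
    obtain ⟨p1, p2⟩ := hs t h0 h1
    refine tendsto_order.2 ⟨fun a ha => ?_, fun b hb => ?_⟩
    · have h2 : t < φ (max a 0) := by
        have := str (max a 0) (s t) (le_max_right _ _) (max_lt ha p1)
          (h0.trans_le (p2.ge.trans (hR.anti (max_lt ha p1).le)))
        rwa [p2] at this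
      filter_upwards [Ioo_mem_nhds h0 h1, gt_mem_nhds h2] with u hu h3
      refine (le_max_left a 0).trans_lt (not_le.1 fun h4 => h3.not_ge ?_)
      exact (hR.anti h4).trans (hs u hu.1 hu.2).2.le
    · have h2 : φ b < t := by
        have := str (s t) b p1.le hb (p2.symm ▸ h0)
        rwa [p2] at this
      filter_upwards [Ioo_mem_nhds h0 h1, lt_mem_nhds h2] with u hu h3
      exact not_le.1 fun h4 => h3.not_ge ((hs u hu.1 hu.2).2.ge.trans (hR.anti h4))
  have o1 : IsOpen {x | 0 < ρ x} := isOpen_lt continuous_const cρ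
  have oU : IsOpen {x | 0 < ρ x ∧ ρ x < φ 0} := o1.inter (isOpen_lt cρ continuous_const)
  have slope : EqOn (fun x => ‖fderiv ℝ ρ x‖) (fun x => -deriv φ (s (ρ x)))
      {x | 0 < ρ x ∧ ρ x < φ 0} := by
    refine Measure.eqOn_open_of_ae_eq (μ := volume) ?_ oU
      ((hL.c1.continuousOn_fderiv_of_isOpen o1 le_rfl).mono fun x hx => hx.1).norm
      fun x hx => ContinuousAt.continuousWithinAt ?_
    · filter_upwards [ae_restrict_of_ae hae, ae_restrict_mem oU.measurableSet] with x h1 hx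
      obtain ⟨p1, p2⟩ := hs _ hx.1 hx.2
      rw [h1 hx.1, ← hR.der _ p1 (hd _ p1), p2]
    · exact ((hc.continuousAt (Ioi_mem_nhds (hs _ hx.1 hx.2).1)).comp (f := fun x => s (ρ x))
        ((cs _ hx.1 hx.2).comp cρ.continuousAt)).neg
  obtain ⟨x₀, hx₀, hmax⟩ := (isCompact_of_isClosed_isBounded (isClosed_le continuous_const cρ)
    (hL.bdd _ hx₁)).exists_isMaxOn ⟨x₁, le_refl (ρ x₁)⟩ cρ.continuousOn
  have hmax' : ∀ x, ρ x ≤ ρ x₀ := fun x => by
    rcases le_total (ρ x₁) (ρ x) with h | h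
    · exact hmax h
    · exact h.trans hx₀
  have low : ∀ x, φ ‖x - x₀‖ ≤ ρ x := fun x => by
    have hb := norm_nonneg (x - x₀)
    have t1 : Tendsto (fun δ : ℝ => φ ((‖x - x₀‖ + δ) * 1 + δ)) (𝓝[>] 0) (𝓝 (φ ‖x - x₀‖)) := by
      refine Tendsto.mono_left (Continuous.tendsto' (by fun_prop) _ _ (by simp)) nhdsWithin_le_nhds
    refine le_of_tendsto t1 ?_
    filter_upwards [self_mem_nhdsWithin] with δ hδ
    have hδ' : 0 < δ := hδ
    rcases eq_or_lt_of_le (hR.nonneg ((‖x - x₀‖ + δ) * 1 + δ)) with e | e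
    · exact e ▸ hL.nonneg x
    have := Geo.barrier (f := fun τ => φ ((‖x - x₀‖ + δ) * τ + δ) - ρ (x₀ + τ • (x - x₀)))
      (by fun_prop) ?_ fun τ hτ h1 => ?_
    · simpa using this
    · have h2 := vol δ hδ'.le (e.trans_le (hR.anti (by linarith))) x₀
      obtain ⟨z, hz⟩ := nonempty_of_measure_ne_zero (h2 ▸ (measure_ball_pos volume x₀ hδ').ne')
      simpa using (le_of_lt hz).trans (hmax' z)
    · set r := (‖x - x₀‖ + δ) * τ + δ with hr
      have r0 : 0 < r := by have := hτ.1; positivity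
      have r1 : 0 < φ r := e.trans_le (hR.anti (by nlinarith [hτ.2]))
      have r2 : ρ (x₀ + τ • (x - x₀)) = φ r := by linarith
      have r3 : φ r < φ 0 := str 0 r le_rfl r0 (r1.trans_le (hR.anti r0.le))
      have r4 : s (φ r) = r := by
        obtain ⟨p1, p2⟩ := hs _ r1 r3
        rcases lt_trichotomy (s (φ r)) r with h | h | h
        · exact absurd p2 (str _ _ p1.le h (p2.symm ▸ r1)).ne'
        · exact h
        · exact absurd p2 (str _ _ r0.le h r1).ne
      have r5 := slope (x := x₀ + τ • (x - x₀)) ⟨r2 ▸ r1, r2 ▸ r3⟩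
      simp only [r2, r4] at r5
      have d1 : HasDerivAt (fun τ : ℝ => φ ((‖x - x₀‖ + δ) * τ + δ))
          (deriv φ r * (‖x - x₀‖ + δ)) τ := by
        have := ((hasDerivAt_id τ).const_mul (‖x - x₀‖ + δ)).add_const δ
        rw [mul_one] at this
        exact (hd r r0).hasDerivAt.comp τ this
      have d2 : HasDerivAt (fun τ : ℝ => ρ (x₀ + τ • (x - x₀)))
          (fderiv ℝ ρ (x₀ + τ • (x - x₀)) (x - x₀)) τ := by
        have := ((hasDerivAt_id τ).smul_const (x - x₀)).const_add x₀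
        rw [one_smul] at this
        exact ((hL.c1.contDiffAt (o1.mem_nhds (show 0 < ρ _ from r2 ▸ r1))).differentiableAt
          one_ne_zero).hasFDerivAt.comp_hasDerivAt τ this
      refine ⟨_, ?_, d1.sub d2⟩
      have r6 := (fderiv ℝ ρ (x₀ + τ • (x - x₀))).le_opNorm (x - x₀)
      rw [r5, Real.norm_eq_abs] at r6
      nlinarith [(abs_le.1 r6).1, hneg r r0 r1]
  refine ⟨x₀, fun x => le_antisymm (not_lt.1 fun h => ?_) (low x)⟩
  obtain ⟨t, t1, t2⟩ := exists_between h
  obtain ⟨p1, p2⟩ := hs t ((hR.nonneg _).trans_lt t1) (t2.trans_le (hT x))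
  have p3 : 0 < φ (s t) := p2.symm ▸ (hR.nonneg _).trans_lt t1
  have p4 : s t < ‖x - x₀‖ := not_le.1 fun h4 => t1.not_ge (p2.ge.trans (hR.anti h4))
  have p5 : ball x₀ (s t) ⊆ {z | φ (s t) < ρ z} := fun z hz => by
    rw [mem_ball_iff_norm] at hz
    exact (str _ _ (norm_nonneg _) hz (p3.trans_le (hR.anti hz.le))).trans_le (low z)
  have p6 := Geo.sub_ball (isOpen_lt continuous_const cρ) p5 (vol _ p1.le p3 x₀).le
    (show x ∈ {z | φ (s t) < ρ z} from p2.symm ▸ t2)
  rw [mem_closedBall_iff_norm] at p6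
  exact p4.not_ge p6

end Pool.Agent.MP_e4cac8_mp

end

section

/-! The bound for the height of an optimal potential. -/

open Set MeasureTheory Filter Topology
open scoped SchwartzMap
open Pool.Agent.MP_0b7119_mp.G

namespace Pool.Agent.MP_e4cac8_mp

set_option linter.unusedSectionVars false

variable {E S : Type} [NormedAddCommGroup E] [InnerProductSpace ℝ E] [FiniteDimensional ℝ E]
  [MeasurableSpace E] [BorelSpace E] [NormedAddCommGroup S] [InnerProductSpace ℂ S]
  [CompleteSpace S] [FiniteDimensional ℂ S] {d : ℕ}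
  {e : OrthonormalBasis (Fin d) ℝ E} {α : Fin d → S →L[ℂ] S} {β : S →L[ℂ] S}

namespace Sup

theorem int_ap {r : E → S →L[ℂ] S} (hr : Integrable r volume) {G : E → S} {K : ℝ}
    (hG : AEStronglyMeasurable G volume) (hK : ∀ᵐ y, ‖G y‖ ≤ K) (x : E) :
    Integrable (fun y => r (x - y) (G y)) volume ∧ ‖JK.cv r G x‖ ≤ (∫ z, ‖r z‖) * K := by
  have hb : ∀ᵐ y, ‖r (x - y) (G y)‖ ≤ ‖r (x - y)‖ * K := by
    filter_upwards [hK] with y hy
    exact ((r (x - y)).le_opNorm _).trans (mul_le_mul_of_nonneg_left hy (norm_nonneg _))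
  have hi := (hr.comp_sub_left x).norm.mul_const K
  refine ⟨hi.mono' ((ContinuousLinearMap.id ℂ (S →L[ℂ] S)).aestronglyMeasurable_comp₂
    (hr.comp_sub_left x).1 hG) hb, (norm_integral_le_of_norm_le hi hb).trans (le_of_eq ?_)⟩
  rw [integral_mul_const, integral_sub_left_eq_self (fun z => ‖r z‖)]

theorem int_inner (g : 𝓢(E, S)) {G : E → S} {K : ℝ} (hG : AEStronglyMeasurable G volume)
    (hK : ∀ᵐ y, ‖G y‖ ≤ K) : Integrable (fun x => inner ℂ (g x) (G x)) volume := by
  refine (g.integrable.norm.mul_const K).mono' (g.continuous.aestronglyMeasurable.inner hG) ?_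
  filter_upwards [hK] with y hy
  exact (norm_inner_le_norm _ _).trans (mul_le_mul_of_nonneg_left hy (norm_nonneg _))

theorem inner_cv {r : E → S →L[ℂ] S} (hk : Ks r) (hr : Integrable r volume) (g : 𝓢(E, S))
    {G : E → S} {K : ℝ} (hG : AEStronglyMeasurable G volume) (hK : ∀ᵐ y, ‖G y‖ ≤ K) :
    ∫ x, inner ℂ (g x) (JK.cv r G x) = ∫ y, inner ℂ (JK.cv r g y) (G y) := by
  have h1 : Integrable (fun p : E × E => inner ℂ (g p.1) (r (p.1 - p.2) (G p.2)))
      (volume.prod volume) := by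
    refine ((JD.int_fst g.integrable.norm hr.norm).mul_const K).mono'
      ((g.continuous.comp continuous_fst).aestronglyMeasurable.inner (meas_ap hk.meas hG)) ?_
    filter_upwards [(Measure.quasiMeasurePreserving_snd (μ := volume) (ν := volume)).ae hK]
      with p hp
    rw [mul_assoc]
    exact (norm_inner_le_norm _ _).trans (mul_le_mul_of_nonneg_left
      (((r _).le_opNorm _).trans (mul_le_mul_of_nonneg_left hp (norm_nonneg _))) (norm_nonneg _))
  calc ∫ x, inner ℂ (g x) (JK.cv r G x) = ∫ x, ∫ y, inner ℂ (g x) (r (x - y) (G y)) := by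
        congr 1 with x
        exact (integral_inner (int_ap hr hG hK x).1 (g x)).symm
    _ = ∫ y, ∫ x, inner ℂ (g x) (r (x - y) (G y)) := integral_integral_swap h1
    _ = ∫ y, inner ℂ (JK.cv r g y) (G y) := by
        congr 1 with y
        have h2 := (int_ap hr g.continuous.aestronglyMeasurable
          (Eventually.of_forall fun x => g.norm_le_seminorm ℝ x) y).1
        rw [← inner_conj_symm, JK.cv, ← integral_inner h2, ← integral_conj]
        congr 1 with x
        rw [inner_conj_symm, ← neg_sub y x, hk.symm, ContinuousLinearMap.star_eq_adjoint,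
          ContinuousLinearMap.adjoint_inner_right]

theorem green (h : IsDiracRep α β) {m l : ℝ} (hl : l ∈ Ioo (-m) m) (φ : 𝓢(E, S))
    {G : E → S} {K : ℝ} (hG : AEStronglyMeasurable G volume) (hK : ∀ᵐ y, ‖G y‖ ≤ K) :
    ∫ x, inner ℂ (JK.Dop e α β m (-(l : ℂ)) φ x) (JK.cv (rk e α β m l) G x) =
      ∫ y, inner ℂ (φ y) (G y) := by
  rw [inner_cv (ks_rk h e m l) (integrable_rk h e hl) _ hG hK,
    JK.cv_Dop e h (gap_pos hl) (integrable_rk h e hl) (JK.fourier_rk e α β (gap_pos hl))]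

/-- Change of the mass in the integral equation. -/
theorem shift (h : IsDiracRep α β) {m l n : ℝ} (hl : l ∈ Ioo (-m) m) (hn : 0 < n) {ψ F G : E → S}
    {K K' K'' : ℝ} (hψ : AEStronglyMeasurable ψ volume) (hK : ∀ᵐ y, ‖ψ y‖ ≤ K)
    (hF : AEStronglyMeasurable F volume) (hK' : ∀ᵐ y, ‖F y‖ ≤ K')
    (hG : AEStronglyMeasurable G volume) (hK'' : ∀ᵐ y, ‖G y‖ ≤ K'')
    (hFG : ∀ y, G y = F y + (l : ℂ) • ψ y + ((n - m : ℝ) : ℂ) • β (ψ y))
    (heq : ψ =ᵐ[volume] JK.cv (rk e α β m l) F) : ψ =ᵐ[volume] JK.cv (rk e α β n 0) G := by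
  have h0 : (0 : ℝ) ∈ Ioo (-n) n := ⟨by linarith, hn⟩
  have hi := integrable_rk h e h0
  have hm : AEStronglyMeasurable (JK.cv (rk e α β n 0) G) volume :=
    (meas_ap (stronglyMeasurable_rk e α β n 0) hG).integral_prod_right'
  have loc : ∀ {f : E → S} {C : ℝ}, AEStronglyMeasurable f volume → (∀ᵐ y, ‖f y‖ ≤ C) →
      LocallyIntegrable f volume := fun {f C} a1 a2 =>
    (locallyIntegrable_const C).mono a1 (a2.mono fun y hy => hy.trans (le_abs_self _))
  have l1 := loc hψ hK
  have l2 := loc hm (Eventually.of_forall fun x => (int_ap hi hG hK'' x).2)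
  refine ae_eq_of_integral_contDiff_smul_eq l1 l2 fun g hg hgc => ?_
  refine ext_inner_left ℂ fun s => ?_
  have hgs : HasCompactSupport (fun x => g x • s) := hgc.smul_right (f' := fun _ => s)
  obtain ⟨φ, hφ⟩ := JK.Dop_surj e h (gap_pos h0) (hgs.toSchwartzMap (hg.smul contDiff_const))
  have h1 := green (e := e) h h0 φ hG hK''
  have h2 := green (e := e) h hl φ hF hK'
  have h3 : ∫ x, inner ℂ (JK.Dop e α β n (-((0 : ℝ) : ℂ)) φ x) (ψ x) =
      ∫ y, inner ℂ (φ y) (G y) := by
    have h4 : ∫ x, inner ℂ (JK.Dop e α β m (-(l : ℂ)) φ x) (ψ x) = ∫ y, inner ℂ (φ y) (F y) := by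
      rw [← h2]
      refine integral_congr_ae ?_
      filter_upwards [heq] with x hx
      rw [← hx]
    rw [← sub_eq_zero] at h4 ⊢
    rw [← integral_sub (int_inner _ hψ hK) (int_inner _ hF hK')] at h4
    rw [← integral_sub (int_inner _ hψ hK) (int_inner _ hG hK''), ← h4]
    congr 1 with x
    simp only [JK.Dop_apply, dirac, hFG, inner_add_left, inner_add_right, inner_smul_left,
      inner_smul_right, inner_β h, Complex.conj_ofReal, map_neg]
    push_cast
    ring
  rw [← h3, hφ] at h1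
  rw [← integral_inner (l1.integrable_smul_left_of_hasCompactSupport hg.continuous hgc),
    ← integral_inner (l2.integrable_smul_left_of_hasCompactSupport hg.continuous hgc)]
  have h5 : ∀ (f : E → S) (x : E), inner ℂ s (g x • f x) = inner ℂ (g x • s) (f x) := by
    intro f x
    rw [← Complex.coe_smul, ← Complex.coe_smul, inner_smul_left, inner_smul_right,
      Complex.conj_ofReal]
  simp only [h5]
  exact h1.symm

theorem ker_pt (hn : 2 ≤ Module.finrank ℝ E) (h : IsDiracRep α β) {n : ℝ} (h0 : 0 < n) {z : E}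
    (hz : z ≠ 0) : ‖rk e α β n 0 z‖ ≤
      (cJ E (1 / 2) + cq E) * ‖z‖ ^ (-((Module.finrank ℝ E : ℝ) - 1)) := by
  refine (norm_rk_le h e n 0 z).trans ?_
  have e0 : n ^ 2 - 0 ^ 2 = n ^ 2 := by ring
  have e1 := gk_le hn (b := n ^ 2) (a := 1 / 2) (by positivity) (by norm_num) (by norm_num) hz
  have e2 := qk_mul_norm_le hn (b := n ^ 2) (by positivity) hz
  have e3 : (n ^ 2) ^ (-(1 / 2 : ℝ)) = n⁻¹ := by
    rw [Real.rpow_neg (by positivity), ← Real.sqrt_eq_rpow, Real.sqrt_sq h0.le]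
  rw [e3, show (Module.finrank ℝ E : ℝ) + 2 * (1 / 2) - 2 = Module.finrank ℝ E - 1 by ring] at e1
  rw [e0, abs_of_pos h0, abs_zero, add_zero, add_mul]
  refine add_le_add ((mul_le_mul_of_nonneg_left e1 h0.le).trans (le_of_eq ?_)) e2
  field_simp

theorem ker_l1 (h : IsDiracRep α β) {n : ℝ} (h0 : 0 < n) :
    ∫ z, ‖rk e α β n 0 z‖ ≤ (1 + cH E) / n := by
  have hb : 0 < n ^ 2 - 0 ^ 2 := by nlinarith
  have i1 := (integrable_gk (E := E) hb).const_mul (|n| + |0|)
  refine (integral_mono (integrable_rk h e ⟨by linarith, h0⟩).norm (i1.add (integrable_qk hb))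
    (norm_rk_le h e n 0)).trans ?_
  simp only [Pi.add_apply]
  rw [integral_add i1 (integrable_qk hb), integral_const_mul, integral_gk hb]
  have e1 := integral_qk_le (E := E) hb
  have e0 : n ^ 2 - 0 ^ 2 = n ^ 2 := by ring
  rw [e0, Real.sqrt_sq h0.le] at e1
  rw [e0, abs_of_pos h0, abs_zero, add_zero, add_div]
  refine add_le_add (le_of_eq ?_) e1
  field_simp

theorem ess {f : E → ℝ} (h0 : ∀ x, 0 ≤ f x) (hb : ∃ K, ∀ x, f x ≤ K) :
    ∃ N, (∀ᵐ x, f x ≤ N) ∧ ∀ K, (∀ᵐ x, f x ≤ K) → N ≤ K := by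
  obtain ⟨K, hK⟩ := hb
  have hne : {K | ∀ᵐ x, f x ≤ K}.Nonempty :=
    ⟨K, show ∀ᵐ x, f x ≤ K from Eventually.of_forall hK⟩
  have hbd : BddBelow {K | ∀ᵐ x, f x ≤ K} := ⟨0, fun K hK => by
    obtain ⟨x, hx⟩ := Eventually.exists (show ∀ᵐ x, f x ≤ K from hK)
    exact (h0 x).trans hx⟩
  refine ⟨sInf {K | ∀ᵐ x, f x ≤ K}, ?_, fun K hK => csInf_le hbd hK⟩
  obtain ⟨u, -, hu, hm⟩ := exists_seq_tendsto_sInf hne hbd
  filter_upwards [ae_all_iff.mpr hm] with x hx
  exact ge_of_tendsto' hu hx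

theorem level {p η M V : ℝ} (hp : 2 ≤ p) (hη : 0 < η) (hη1 : η ≤ 1) (hM : 0 < M) (hV : 0 ≤ V)
    (h : η ^ 2 * M ^ (p - 1) ≤ V ^ (p - 1)) : η ^ 4 * M ^ p ≤ V ^ p := by
  have hp1 : 0 < p - 1 := by linarith
  have e : ∀ x : ℝ, 0 ≤ x → (x ^ (p - 1)) ^ (p / (p - 1)) = x ^ p := fun x hx => by
    rw [← Real.rpow_mul hx]
    congr 1
    field_simp
  have h1 := Real.rpow_le_rpow (by positivity) h (by positivity : 0 ≤ p / (p - 1))
  rw [Real.mul_rpow (by positivity) (by positivity), e M hM.le, e V hV] at h1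
  refine le_trans (mul_le_mul_of_nonneg_right ?_ (by positivity)) h1
  rw [show η ^ 4 = (η ^ 2) ^ (2 : ℝ) by rw [Real.rpow_two]; ring]
  refine Real.rpow_le_rpow_of_exponent_ge (by positivity) (pow_le_one₀ hη.le hη1) ?_
  rw [div_le_iff₀ hp1]
  linarith

end Sup

open Sup in
theorem stSup (h : IsDiracRep α β) (hd : 2 ≤ d) : StSup e α β := by
  have hn : 2 ≤ Module.finrank ℝ E := by rw [finrank_eq e]; exact hd
  set σ : ℝ := (Module.finrank ℝ E : ℝ) - 1 with hσ
  have hn' := two_le_cast hn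
  set C : ℝ := cJ E (1 / 2) + cq E with hC
  have hC0 : 0 < C := add_pos (cJ_pos (by linarith)) (cq_pos hn)
  have hI0 := cI_nonneg (E := E) σ
  have hH0 := cH_pos (E := E)
  set δ : ℝ := 1 / (8 * (C * cI E σ + 1)) with hδ
  set η : ℝ := 1 / (8 * (1 + cH E)) with hη
  have hδ0 : 0 < δ := by positivity
  have hη0 : 0 < η := by positivity
  have hη1 : η ≤ 1 := by
    rw [hη, div_le_one (by positivity)]
    linarith
  refine ⟨η ^ 4 / (4 * C * δ ^ (-σ)), by positivity,
    fun m hm l hl p A k V ψ hp hk hV hψ hEL => ?_⟩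
  have hp1 : 0 < p - 1 := by linarith
  obtain ⟨N, hN, hNm⟩ := ess (fun x => norm_nonneg (ψ x)) hψ.bdd
  have hN0 : 0 < N := by
    by_contra hc
    refine hψ.fix.ne ?_
    filter_upwards [hN] with x hx
    exact norm_le_zero_iff.mp (hx.trans (not_lt.mp hc))
  set M : ℝ := (k * N ^ 2) ^ (p - 1)⁻¹ with hM
  have hM0 : 0 < M := by positivity
  have hMp : M ^ (p - 1) = k * N ^ 2 := Real.rpow_inv_rpow (by positivity) hp1.ne'
  have hVM : ∀ᵐ x, V x ≤ M := by
    filter_upwards [hN, hEL] with x h1 h2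
    rw [hM, Real.le_rpow_inv_iff_of_pos (hV.nonneg x) (by positivity) hp1, h2]
    gcongr
  refine ⟨M, hM0, hVM, ?_⟩
  set n := max m M with hnd
  have hn1 : m ≤ n := le_max_left _ _
  have hn2 : M ≤ n := le_max_right _ _
  have hn0 : 0 < n := hm.trans_le hn1
  have hψm := hψ.fix.l2.1
  set F : E → S := fun y => (V y : ℂ) • ψ y with hF
  set G : E → S := fun y => F y + (l : ℂ) • ψ y + ((n - m : ℝ) : ℂ) • β (ψ y) with hG
  have hFm : AEStronglyMeasurable F volume :=
    (Complex.measurable_ofReal.comp hV.meas).aestronglyMeasurable.smul hψm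
  have hGm : AEStronglyMeasurable G volume :=
    (hFm.add (hψm.const_smul (l : ℂ))).add
      ((β.continuous.comp_aestronglyMeasurable hψm).const_smul ((n - m : ℝ) : ℂ))
  have hFn : ∀ y, ‖F y‖ = V y * ‖ψ y‖ := fun y => by
    rw [hF, norm_smul, Complex.norm_real, Real.norm_of_nonneg (hV.nonneg y)]
  have hGb : ∀ᵐ y, ‖G y‖ ≤ 2 * n * ‖ψ y‖ := by
    filter_upwards [hVM] with y hy
    refine norm_add₃_le.trans ?_
    rw [hFn, norm_smul, norm_smul, norm_β_apply h, Complex.norm_real, Complex.norm_real,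
      Real.norm_of_nonneg (sub_nonneg.mpr hn1), Real.norm_eq_abs]
    have : |l| ≤ m := abs_le.mpr ⟨hl.1.le, hl.2.le⟩
    nlinarith [norm_nonneg (ψ y)]
  have hGK : ∀ᵐ y, ‖G y‖ ≤ 2 * n * N := by
    filter_upwards [hGb, hN] with y h1 h2
    exact h1.trans (by gcongr)
  have heq := shift (e := e) h hl hn0 hψm hN hFm (K' := M * N) (by
    filter_upwards [hVM, hN] with y h1 h2
    rw [hFn]
    gcongr) hGm hGK (fun _ => rfl) (by rw [← Rop_eq_cv]; exact hψ.fix.eq)
  set ρ := δ / n with hρ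
  have hρ0 : 0 < ρ := by positivity
  have near := adm_near hn (σ := σ) (by linarith) hρ0 (V := fun _ : E => 1) measurable_const
    (fun _ => zero_le_one) fun _ => le_rfl
  have far := adm_one (integrable_rk h e (m := n) (l := 0) ⟨by linarith, hn0⟩).norm
  set T : ℝ := C * ρ ^ (-σ) / (η ^ 4 * M ^ p) with hT
  have hT0 : 0 < T := by positivity
  have key : ∀ x, ‖JK.cv (rk e α β n 0) G x‖ ≤ N * (1 / 2 + 2 * n * T * A ^ p) := by
    intro x
    have i1 := (near.int x).const_mul C
    have i2 := (far.int x).const_mul η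
    have i3 := hV.int.const_mul T
    have i12 := i1.add i2
    refine (norm_integral_le_of_norm_le ((i12.add i3).const_mul (2 * n * N)) ?_).trans ?_
    · filter_upwards [hGb, hN, hEL, ae_sub_ne hn x] with y h1 h2 h3 h4
      simp only [Pi.add_apply, one_mul]
      have b0 := ker_pt (e := e) hn h hn0 h4
      have b1 : 0 ≤ C * (Metric.ball (0 : E) ρ).indicator (fun z => ‖z‖ ^ (-σ)) (x - y) :=
        mul_nonneg hC0.le (indicator_nonneg (fun z _ => by positivity) _)
      have b2 : 0 ≤ η * ‖rk e α β n 0 (x - y)‖ := by positivity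
      have b3 : 0 ≤ T * V y ^ p := mul_nonneg hT0.le (Real.rpow_nonneg (hV.nonneg y) _)
      refine (((rk e α β n 0 (x - y)).le_opNorm _).trans
        (mul_le_mul_of_nonneg_left h1 (norm_nonneg _))).trans ?_
      rw [mul_left_comm, mul_assoc (2 * n)]
      refine mul_le_mul_of_nonneg_left ?_ (by positivity)
      rcases le_total ‖ψ y‖ (η * N) with c1 | c1
      · nlinarith [mul_le_mul_of_nonneg_left c1 (norm_nonneg (rk e α β n 0 (x - y)))]
      refine (mul_le_mul_of_nonneg_left h2 (norm_nonneg _)).trans ?_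
      rw [mul_comm]
      refine mul_le_mul_of_nonneg_left ?_ hN0.le
      by_cases c2 : x - y ∈ Metric.ball (0 : E) ρ
      · rw [indicator_of_mem c2]
        linarith
      · have c3 : ‖x - y‖ ^ (-σ) ≤ ρ ^ (-σ) :=
          Real.rpow_le_rpow_of_nonpos hρ0 (by simpa using c2) (by linarith)
        have c4 : η ^ 4 * M ^ p ≤ V y ^ p := level hp hη0 hη1 hM0 (hV.nonneg y) (by
          rw [hMp, h3]
          nlinarith [mul_le_mul_of_nonneg_left (pow_le_pow_left₀ (by positivity) c1 2) hk.le])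
        have c5 : C * ρ ^ (-σ) = T * (η ^ 4 * M ^ p) := by rw [hT]; field_simp
        have c6 := mul_le_mul_of_nonneg_left c4 hT0.le
        have c7 := mul_le_mul_of_nonneg_left c3 hC0.le
        linarith
    · rw [integral_const_mul, integral_add' i12 i3, integral_add' i1 i2, integral_const_mul C,
        integral_const_mul η, integral_const_mul T]
      have j1 := near.le x
      rw [show (Module.finrank ℝ E : ℝ) - σ = 1 by rw [hσ]; ring, Real.rpow_one, one_mul] at j1
      have j2 := (far.le x).trans (ker_l1 h hn0)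
      have j3 : 2 * n * (C * (cI E σ * ρ)) ≤ 1 / 4 := by
        have : 2 * n * (C * (cI E σ * ρ)) = C * cI E σ / (4 * (C * cI E σ + 1)) := by
          rw [hρ, hδ]
          field_simp
          ring
        rw [this, div_le_div_iff₀ (by positivity) (by positivity)]
        linarith
      have j4 : 2 * n * (η * ((1 + cH E) / n)) = 1 / 4 := by
        rw [hη]
        field_simp
        ring
      calc _ ≤ 2 * n * N * (C * (cI E σ * ρ) + η * ((1 + cH E) / n) + T * A ^ p) :=
            mul_le_mul_of_nonneg_left (add_le_add (add_le_add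
              (mul_le_mul_of_nonneg_left j1 hC0.le) (mul_le_mul_of_nonneg_left j2 hη0.le))
              (mul_le_mul_of_nonneg_left hV.le hT0.le)) (by positivity)
        _ = N * (2 * n * (C * (cI E σ * ρ)) + 2 * n * (η * ((1 + cH E) / n)) +
            2 * n * T * A ^ p) := by ring
        _ ≤ _ := mul_le_mul_of_nonneg_left (by linarith) hN0.le
  have h1 := hNm _ (by
    filter_upwards [heq] with x hx
    rw [hx]
    exact key x)
  have h2 : 1 / 2 ≤ 2 * n * T * A ^ p := by nlinarith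
  have h3 : n * ρ ^ (-σ) = δ ^ (-σ) * n ^ d := by
    rw [hρ, Real.div_rpow hδ0.le hn0.le, Real.rpow_neg hn0.le, div_inv_eq_mul, hσ, finrank_eq e,
      Real.rpow_sub_one hn0.ne', Real.rpow_natCast]
    field_simp
  have h4 : 2 * n * T * A ^ p = 2 * C * (δ ^ (-σ) * n ^ d) * A ^ p / (η ^ 4 * M ^ p) := by
    rw [← h3, hT]
    ring
  rw [h4, le_div_iff₀ (by positivity)] at h2
  rw [div_mul_eq_mul_div, div_le_iff₀ (by positivity)]
  linarith

end Pool.Agent.MP_e4cac8_mp

end

section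

/-! From the scalar form on the Euclidean space to the radial form. -/

open Set MeasureTheory Filter Topology
open scoped ENNReal NNReal

namespace Pool.Agent.MP_e4cac8_mp

namespace TR

variable {E : Type} [NormedAddCommGroup E] [InnerProductSpace ℝ E]

/-- The gradient of a radial function away from the origin. -/
theorem norm_fderiv_radial (g : ℝ → ℝ) {x : E} (hx : x ≠ 0) :
    ‖fderiv ℝ (fun y : E => g ‖y‖) x‖ = |deriv g ‖x‖| := by
  have hn : 0 < ‖x‖ := norm_pos_iff.mpr hx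
  have hd : DifferentiableAt ℝ (fun y : E => ‖y‖) x := (differentiableAt_id.norm ℝ hx)
  by_cases hg : DifferentiableAt ℝ g ‖x‖
  · have h1 : HasFDerivAt (fun y : E => g ‖y‖) (deriv g ‖x‖ • fderiv ℝ (fun y : E => ‖y‖) x) x :=
      hg.hasDerivAt.comp_hasFDerivAt x hd.hasFDerivAt
    have : Nontrivial E := ⟨x, 0, hx⟩
    rw [h1.fderiv, norm_smul, norm_fderiv_norm hd, mul_one, Real.norm_eq_abs]
  · rw [deriv_zero_of_not_differentiableAt hg, fderiv_zero_of_not_differentiableAt, norm_zero,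
      abs_zero]
    intro h
    apply hg
    have h2 : DifferentiableAt ℝ (fun t : ℝ => (t * ‖x‖⁻¹) • x) ‖x‖ := by fun_prop
    have h3 : DifferentiableAt ℝ ((fun y : E => g ‖y‖) ∘ fun t : ℝ => (t * ‖x‖⁻¹) • x) ‖x‖ := by
      refine DifferentiableAt.comp _ ?_ h2
      rwa [mul_inv_cancel₀ hn.ne', one_smul]
    refine h3.congr_of_eventuallyEq ?_
    filter_upwards [Ioi_mem_nhds hn] with t ht
    have ht0 : 0 < t := ht
    simp only [Function.comp_apply]
    rw [norm_smul, Real.norm_of_nonneg (by positivity), mul_assoc, inv_mul_cancel₀ hn.ne', mul_one]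

/-- The cutoff. -/
noncomputable def cut (k : ℕ) (r : ℝ) : ℝ := max 0 (min 1 (k + 1 - r))

theorem cut_abs (k : ℕ) (r : ℝ) : |cut k r| ≤ 1 := by
  rw [abs_of_nonneg (le_max_left _ _)]
  exact max_le zero_le_one (min_le_left _ _)

theorem cut_lip (k : ℕ) : LipschitzWith 1 (cut k) := by
  have h : LipschitzWith 1 fun r : ℝ => (k : ℝ) + 1 - r :=
    LipschitzWith.of_dist_le_mul fun r s => by
      rw [dist_sub_left, NNReal.coe_one, one_mul]
  exact (h.const_min 1).const_max 0

theorem cut_zero {k : ℕ} {r : ℝ} (h : (k : ℝ) + 1 ≤ r) : cut k r = 0 :=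
  max_eq_left ((min_le_right _ _).trans (by linarith))

theorem cut_one {k : ℕ} {r : ℝ} (h : r ≤ k) : cut k r = 1 := by
  rw [cut, min_eq_left (by linarith), max_eq_right zero_le_one]

theorem lip_cut {φ : ℝ → ℝ} {L : ℝ≥0} (hφ : LipschitzWith L φ) (k : ℕ) :
    ∃ K, LipschitzWith K fun x : E => φ ‖x‖ * cut k ‖x‖ := by
  obtain ⟨C, hC⟩ := (isCompact_Icc (a := (0 : ℝ)) (b := k + 1)).exists_bound_of_continuousOn
    hφ.continuous.continuousOn
  have hC0 : 0 ≤ C := (norm_nonneg _).trans (hC 0 ⟨le_rfl, by positivity⟩)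
  have key : ∀ r s : ℝ, 0 ≤ r → r ≤ k + 1 →
      |φ r * cut k r - φ s * cut k s| ≤ (C + L) * |r - s| := by
    intro r s h0 h1
    have a1 : |φ r| ≤ C := hC r ⟨h0, h1⟩
    have a2 : |cut k r - cut k s| ≤ |r - s| := by
      simpa [Real.dist_eq] using (cut_lip k).dist_le_mul r s
    have a3 : |φ r - φ s| ≤ L * |r - s| := by
      simpa [Real.dist_eq] using hφ.dist_le_mul r s
    calc |φ r * cut k r - φ s * cut k s|
        = |φ r * (cut k r - cut k s) + cut k s * (φ r - φ s)| := by ring_nf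
      _ ≤ |φ r| * |cut k r - cut k s| + |cut k s| * |φ r - φ s| := by
          rw [← abs_mul, ← abs_mul]; exact abs_add_le _ _
      _ ≤ C * |r - s| + 1 * (L * |r - s|) := by
          gcongr
          exact cut_abs k s
      _ = (C + L) * |r - s| := by ring
  refine ⟨⟨C, hC0⟩ + L, LipschitzWith.of_dist_le_mul fun x y => ?_⟩
  have hxy : |‖x‖ - ‖y‖| ≤ dist x y := by
    rw [dist_eq_norm]; exact abs_norm_sub_norm_le x y
  have hK : 0 ≤ C + L := by positivity
  rw [Real.dist_eq]
  change _ ≤ (C + L) * dist x y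
  rcases le_total ‖x‖ (k + 1) with hx | hx
  · exact (key _ _ (norm_nonneg x) hx).trans (mul_le_mul_of_nonneg_left hxy hK)
  rcases le_total ‖y‖ (k + 1) with hy | hy
  · rw [abs_sub_comm] at hxy ⊢
    exact (key _ _ (norm_nonneg y) hy).trans (mul_le_mul_of_nonneg_left hxy hK)
  · rw [cut_zero hx, cut_zero hy]
    simpa using mul_nonneg hK dist_nonneg

theorem deriv_cut {φ : ℝ → ℝ} {L : ℝ≥0} (hφ : LipschitzWith L φ) (k : ℕ) :
    ∀ᵐ r, deriv (fun s => φ s * cut k s) r ^ 2 ≤ 2 * (deriv φ r ^ 2 + φ r ^ 2) := by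
  filter_upwards [hφ.ae_differentiableAt_real, (cut_lip k).ae_differentiableAt_real] with r h1 h2
  rw [deriv_fun_mul h1 h2]
  have a1 : |deriv (cut k) r| ≤ 1 := by
    simpa using norm_deriv_le_of_lipschitz (x₀ := r) (cut_lip k)
  have b1 : cut k r ^ 2 ≤ 1 := (sq_le_one_iff_abs_le_one _).mpr (cut_abs k r)
  have b2 : deriv (cut k) r ^ 2 ≤ 1 := (sq_le_one_iff_abs_le_one _).mpr a1
  nlinarith [sq_nonneg (deriv φ r * cut k r - φ r * deriv (cut k) r),
    mul_le_mul_of_nonneg_left b1 (sq_nonneg (deriv φ r)),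
    mul_le_mul_of_nonneg_left b2 (sq_nonneg (φ r))]

end TR

variable (E : Type) [NormedAddCommGroup E] [InnerProductSpace ℝ E] [FiniteDimensional ℝ E]
  [MeasurableSpace E] [BorelSpace E]

theorem stTR (hn : 2 ≤ Module.finrank ℝ E) : StTR E := by
  intro a b p A M ha hp hTP v φ hv hvb hi hle ⟨L, hφ⟩ h0 h1
  have : Nontrivial E := Module.nontrivial_of_finrank_pos (R := ℝ) (by omega)
  set k := Module.finrank ℝ E - 1 with hk
  have hrad : ∀ F : ℝ → ℝ, ∫ x : E, F ‖x‖ =
      Module.finrank ℝ E * om E * ∫ r in Ioi (0 : ℝ), F r * r ^ k := fun F => by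
    rw [integral_fun_norm_addHaar volume F, nsmul_eq_mul, smul_eq_mul, mul_assoc]
    simp only [smul_eq_mul, mul_comm, om, hk]
  have hW : PotR p A fun x : E => v ‖x‖ :=
    ⟨hv.comp measurable_norm, fun x => (hvb _).1, by
      rw [integrable_fun_norm_addHaar volume (f := fun r => v r ^ p)]
      simpa only [smul_eq_mul, mul_comm] using hi, by
      rw [hrad fun r => v r ^ p]; exact hle⟩
  let F : ℕ → ℝ → ℝ := fun j r => deriv (fun s => φ s * TR.cut j s) r ^ 2 / (a + v r) -
    (v r - b) * (φ r * TR.cut j r) ^ 2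
  have hpos : ∀ j, 0 ≤ ∫ r in Ioi (0 : ℝ), F j r * r ^ k := fun j => by
    have hc : HasCompactSupport fun x : E => φ ‖x‖ * TR.cut j ‖x‖ :=
      HasCompactSupport.intro (isCompact_closedBall (0 : E) (j + 1)) fun x hx => by
        rw [mem_closedBall_zero_iff, not_le] at hx
        rw [TR.cut_zero hx.le, mul_zero]
    have h := hTP _ _ hW (fun x => (hvb _).2) (TR.lip_cut hφ j) hc
    have e : ∫ x : E, (‖fderiv ℝ (fun x : E => φ ‖x‖ * TR.cut j ‖x‖) x‖ ^ 2 / (a + v ‖x‖) -
        (v ‖x‖ - b) * (φ ‖x‖ * TR.cut j ‖x‖) ^ 2) = ∫ x : E, F j ‖x‖ := by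
      refine integral_congr_ae ?_
      filter_upwards [compl_mem_ae_iff.mpr (measure_singleton (0 : E))] with x hx
      rw [TR.norm_fderiv_radial (fun s => φ s * TR.cut j s) hx, sq_abs]
    rw [e, hrad] at h
    have hc0 : 0 < (Module.finrank ℝ E : ℝ) * om E :=
      mul_pos (Nat.cast_pos.mpr (by omega)) om_pos
    exact nonneg_of_mul_nonneg_right h hc0
  refine ge_of_tendsto' (tendsto_integral_of_dominated_convergence
    (fun r => 2 / a * (deriv φ r ^ 2 * r ^ k) + (2 / a + (M + |b|)) * (φ r ^ 2 * r ^ k))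
    (fun j => ?_) ((h1.const_mul _).add (h0.const_mul _)) (fun j => ?_) ?_) hpos
  · have hc : Measurable fun r => φ r * TR.cut j r :=
      (hφ.continuous.mul (TR.cut_lip j).continuous).measurable
    exact (((((measurable_deriv _).pow_const 2).div (hv.const_add a)).sub
      ((hv.sub_const b).mul (hc.pow_const 2))).mul (measurable_id.pow_const k)).aestronglyMeasurable
  · filter_upwards [ae_restrict_of_ae (TR.deriv_cut hφ j), ae_restrict_mem measurableSet_Ioi]
      with r hr hr0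
    have hr1 : 0 ≤ r ^ k := pow_nonneg (le_of_lt hr0) k
    obtain ⟨v0, v1⟩ := hvb r
    have c1 : (φ r * TR.cut j r) ^ 2 ≤ φ r ^ 2 := by
      rw [mul_pow]
      exact mul_le_of_le_one_right (sq_nonneg _)
        ((sq_le_one_iff_abs_le_one _).mpr (TR.cut_abs j r))
    have c2 : |v r - b| ≤ M + |b| :=
      (abs_sub _ _).trans (by rw [abs_of_nonneg v0]; gcongr)
    have c3 : |F j r| ≤ 2 * (deriv φ r ^ 2 + φ r ^ 2) / a + (M + |b|) * φ r ^ 2 := by
      refine (abs_sub _ _).trans (add_le_add ?_ ?_)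
      · rw [abs_of_nonneg (by positivity)]
        gcongr
        linarith
      · rw [abs_mul, abs_of_nonneg (sq_nonneg (φ r * TR.cut j r))]
        exact mul_le_mul c2 c1 (sq_nonneg _) ((abs_nonneg _).trans c2)
    rw [Real.norm_eq_abs, abs_mul, abs_of_nonneg hr1]
    refine (mul_le_mul_of_nonneg_right c3 hr1).trans (le_of_eq ?_)
    ring
  · refine Eventually.of_forall fun r => tendsto_const_nhds.congr' ?_
    obtain ⟨N, hN⟩ := exists_nat_gt r
    filter_upwards [eventually_ge_atTop N] with j hj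
    have hj' : r < j := hN.trans_le (Nat.cast_le.mpr hj)
    have e : (fun s => φ s * TR.cut j s) =ᶠ[𝓝 r] φ := by
      filter_upwards [Iio_mem_nhds hj'] with s hs
      rw [TR.cut_one (le_of_lt hs), mul_one]
    simp only [F]
    rw [e.deriv_eq, TR.cut_one hj'.le, mul_one]

end Pool.Agent.MP_e4cac8_mp

end
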