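import Pool.Agent.Mg.Fe4cac8.G43e91a
import Pool.Agent.MP_5f4cdd_gt.PL
import Pool.Agent.Mg.Fe4cac8.G97a2a0
import Pool.Agent.Mg.Fe4cac8.G3c6d1e
import Pool.Agent.Mg.Fe4cac8.G906eb5
import Pool.Agent.Mg.Fe4cac8.G2fb23e
import Pool.Agent.Mg.Fe4cac8.G009f19
import Pool.Agent.Mg.Fe4cac8.Gaab4d7
import Pool.Agent.Mg.Fe4cac8.G7fb559
import Pool.Agent.Mg.Fe4cac8.Gf203cf
import Pool.Agent.Mg.Fe4cac8.G95f6fa
import Pool.Agent.Mg.Fe4cac8.Gb5ac28
import Pool.Agent.Mg.Fe4cac8.G32b4d1
import Pool.Agent.Mg.Fe4cac8.G6cf094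

set_option linter.all false

section

/-! The inequality of Brunn and Minkowski for parallel sets. -/

open Set MeasureTheory Filter Topology
open scoped ENNReal NNReal Pointwise

namespace Pool.Agent.MP_e4cac8_mp

variable {E : Type} [NormedAddCommGroup E] [InnerProductSpace ℝ E] [FiniteDimensional ℝ E]
  [MeasurableSpace E] [BorelSpace E]

theorem BM.bm {A B C : Set E} (hA : MeasurableSet A) (hB : MeasurableSet B)
    (hC : MeasurableSet C) {a b : ℝ} (ha : 0 < a) (hb : 0 < b) (hab : a + b = 1)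
    (H : ∀ x ∈ A, ∀ y ∈ B, a • x + b • y ∈ C) {v : ℝ≥0∞} (h1 : v ≤ volume A)
    (h2 : v ≤ volume B) : v ≤ volume C := by
  obtain ⟨φ, hφ, hl⟩ : ∃ φ : (Fin (Module.finrank ℝ E) → ℝ) → E,
      MeasurePreserving φ volume volume ∧ ∀ x y, φ (a • x + b • y) = a • φ x + b • φ y :=
    ⟨_, (stdOrthonormalBasis ℝ E).repr.symm.measurePreserving.comp
      (PiLp.volume_preserving_toLp _), fun x y => by simp⟩
  have m : ∀ {S : Set E}, MeasurableSet S → MeasurableSet (φ ⁻¹' S) := fun hS => hφ.measurable hS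
  have := MP_5f4cdd_gt.PL.pl ha hb hab _ (measurable_one.indicator (m hA))
    (measurable_one.indicator (m hB)) (measurable_one.indicator (m hC)) fun x y => by
      by_cases hx : x ∈ φ ⁻¹' A
      · by_cases hy : y ∈ φ ⁻¹' B
        · rw [indicator_of_mem hx, indicator_of_mem hy,
            indicator_of_mem (show a • x + b • y ∈ φ ⁻¹' C from (hl x y ▸ H _ hx _ hy : φ _ ∈ C))]
          simp
        · simp [indicator_of_notMem hy, hb]
      · simp [indicator_of_notMem hx, ha]
  rw [lintegral_indicator_one (m hA), lintegral_indicator_one (m hB),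
    lintegral_indicator_one (m hC), hφ.measure_preimage hA.nullMeasurableSet,
    hφ.measure_preimage hB.nullMeasurableSet, hφ.measure_preimage hC.nullMeasurableSet] at this
  refine le_trans ?_ this
  rw [← ENNReal.rpow_one v, ← hab, ENNReal.rpow_add_of_nonneg _ _ ha.le hb.le]
  exact mul_le_mul' (ENNReal.rpow_le_rpow h1 ha.le) (ENNReal.rpow_le_rpow h2 hb.le)

theorem stBM (hn : 2 ≤ Module.finrank ℝ E) : StBM E := by
  intro A R δ hA hR hδ h
  have : Nontrivial E := Module.nontrivial_of_finrank_pos (R := ℝ) (by omega)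
  have hs : 0 < R + δ := by positivity
  have hc : 0 < (R + δ) / R := by positivity
  refine BM.bm (hA.smul₀ hc.ne').measurableSet (measurableSet_ball (x := (0 : E)) (ε := R + δ))
    Metric.isOpen_thickening.measurableSet (a := R / (R + δ)) (b := δ / (R + δ)) (by positivity)
    (by positivity) (by field_simp) ?_ ?_ ?_
  · rintro _ ⟨x, hx, rfl⟩ y hy
    refine Metric.mem_thickening_iff.2 ⟨x, hx, ?_⟩
    rw [smul_smul, show R / (R + δ) * ((R + δ) / R) = 1 by field_simp, one_smul, dist_eq_norm,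
      add_sub_cancel_left, norm_smul, Real.norm_of_nonneg (by positivity), div_mul_eq_mul_div,
      div_lt_iff₀ hs]
    exact mul_lt_mul_of_pos_left (mem_ball_zero_iff.1 hy) hδ
  · rw [Measure.addHaar_smul_of_nonneg _ hc.le]
    refine le_trans (le_of_eq ?_) (mul_le_mul_right h _)
    rw [← ENNReal.ofReal_mul (by positivity), div_pow]
    congr 1
    field_simp
  · rw [Measure.addHaar_ball _ _ hs.le, mul_comm, ENNReal.ofReal_mul (by positivity), om,
      ofReal_measureReal measure_ball_lt_top.ne]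

end Pool.Agent.MP_e4cac8_mp

end

section

/-! The isoperimetric inequality, level by level. -/

open Set MeasureTheory Filter Topology Metric
open scoped ENNReal NNReal

namespace Pool.Agent.MP_e4cac8_mp

variable {E : Type} [NormedAddCommGroup E] [InnerProductSpace ℝ E] [FiniteDimensional ℝ E]
  [MeasurableSpace E] [BorelSpace E]

namespace Iso

set_option linter.unusedSectionVars false

variable {L : ℝ≥0} {ρ : E → ℝ} {δ t a b : ℝ} {x : E}

/-- The supremum over a ball. -/
noncomputable def P (ρ : E → ℝ) (δ : ℝ) (x : E) : ℝ := sSup (ρ '' ball x δ)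

/-- The area of the sphere. -/
noncomputable def ar (ρ : E → ℝ) (t : ℝ) : ℝ≥0∞ :=
  ENNReal.ofReal (Module.finrank ℝ E * om E * rad ρ t ^ (Module.finrank ℝ E - 1))

/-- The region between the two graphs. -/
def T (ρ : E → ℝ) (δ a b : ℝ) : Set (E × ℝ) :=
  {p | p.2 ∈ Icc a b ∧ ρ p.1 ≤ p.2 ∧ p.2 < P ρ δ p.1}

theorem ball_le {K : ℝ≥0} (h : LipschitzOnWith K ρ (ball x δ)) (d : 0 < δ) :
    ∀ z ∈ ρ '' ball x δ, z ≤ ρ x + K * δ := by
  rintro _ ⟨y, hy, rfl⟩
  have := (h.dist_le_mul y hy x (mem_ball_self d)).trans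
    (mul_le_mul_of_nonneg_left (le_of_lt hy) K.2)
  linarith [le_of_abs_le this]

theorem P_le {K : ℝ≥0} (h : LipschitzOnWith K ρ (ball x δ)) (d : 0 < δ) :
    P ρ δ x ≤ ρ x + K * δ := csSup_le ((nonempty_ball.2 d).image ρ) (ball_le h d)

theorem lt_P (h : Lev L ρ) (d : 0 < δ) : {x | t < P ρ δ x} = thickening δ {x | t < ρ x} := by
  ext x
  rw [mem_ofPred_eq, P, lt_csSup_iff ⟨_, ball_le h.lip.lipschitzOnWith d⟩
    ((nonempty_ball.2 d).image ρ), mem_thickening_iff]
  simp [dist_comm, and_comm]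

theorem T_meas (h : Lev L ρ) (d : 0 < δ) : MeasurableSet (T ρ δ a b) :=
  (measurable_snd measurableSet_Icc).inter ((measurableSet_le
    (h.lip.continuous.measurable.comp measurable_fst) measurable_snd).inter (measurableSet_lt
      measurable_snd ((measurable_of_Ioi (f := P ρ δ) fun _ => isOpen_thickening.measurableSet.congr
        (lt_P h d).symm).comp measurable_fst)))

theorem ar_meas (ρ : E → ℝ) : Measurable (ar ρ) := by
  have : Measurable fun t => (volume : Measure E) {x | t < ρ x} :=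
    Antitone.measurable fun s t h => measure_mono fun x hx => h.trans_lt hx
  exact ((((this.ennreal_toReal.div_const _).pow_const _).pow_const _).const_mul _).ennreal_ofReal

theorem fin (h : Lev L ρ) (t0 : 0 < t) : (volume : Measure E) {x | t ≤ ρ x} ≠ ∞ :=
  (h.bdd t t0).measure_lt_top.ne

theorem lev (hn : 2 ≤ Module.finrank ℝ E) (hB : StBM E) (h : Lev L ρ) (d : 0 < δ) (t0 : 0 < t) :
    ar ρ t * ENNReal.ofReal δ ≤ volume {x | ρ x ≤ t ∧ t < P ρ δ x} := by
  have o := om_pos (E := E)
  have r0 : 0 ≤ rad ρ t := Real.rpow_nonneg (div_nonneg measureReal_nonneg o.le) _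
  rcases r0.eq_or_lt with e | r
  · simp [ar, ← e, show Module.finrank ℝ E - 1 ≠ 0 by omega]
  have f : (volume : Measure E) {x | t < ρ x} ≠ ∞ :=
    ne_top_of_le_ne_top (fin h t0) (measure_mono fun x (hx : t < ρ x) => hx.le)
  have e : ENNReal.ofReal (om E * rad ρ t ^ Module.finrank ℝ E) = volume {x | t < ρ x} := by
    rw [rad, Real.rpow_inv_natCast_pow (div_nonneg measureReal_nonneg o.le) (by omega),
      mul_div_cancel₀ _ o.ne', ofReal_measureReal f]
  have k := hB _ _ δ (isOpen_lt continuous_const h.lip.continuous) r d e.le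
  rw [← ENNReal.add_le_add_iff_left f, ← e, ar, ← ENNReal.ofReal_mul (by positivity),
    ← ENNReal.ofReal_add (by positivity) (by positivity), e]
  refine ((ENNReal.ofReal_le_ofReal ?_).trans k).trans ((measure_mono fun x hx => ?_).trans
    (measure_union_le _ _))
  · have := mul_le_mul_of_nonneg_left (pow_add_mul_le_add_pow_of_sq_nonneg r0 (sq_nonneg δ)
      (sq_nonneg _) (by positivity) (Module.finrank ℝ E)) o.le
    linarith
  · rw [← lt_P h d] at hx
    exact (lt_or_ge t (ρ x)).imp id fun k => ⟨k, hx⟩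

theorem sec_le {K : ℝ≥0} (h : LipschitzOnWith K ρ (ball x δ)) (d : 0 < δ) :
    volume (Prod.mk x ⁻¹' T ρ δ a b) / ENNReal.ofReal δ ≤ K := by
  refine ENNReal.div_le_of_le_mul ((measure_mono (t := Ico (ρ x) (ρ x + K * δ))
    fun t ht => ⟨ht.2.1, ht.2.2.trans_le (P_le h d)⟩).trans ?_)
  rw [Real.volume_Ico, add_sub_cancel_left, ENNReal.ofReal_mul K.coe_nonneg, ENNReal.ofReal_coe_nnreal]

theorem sec_zero (h : Lev L ρ) (d : 0 < δ) (k : ρ x + L * δ ≤ a ∨ b < ρ x) :
    volume (Prod.mk x ⁻¹' T ρ δ a b) / ENNReal.ofReal δ = 0 := by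
  rw [eq_empty_of_forall_notMem (s := Prod.mk x ⁻¹' T ρ δ a b) fun t ht => k.elim
    (fun k => (ht.1.1.trans_lt (ht.2.2.trans_le ((P_le h.lip.lipschitzOnWith d).trans k))).false)
    fun k => (k.trans_le (ht.2.1.trans ht.1.2)).false, measure_empty, ENNReal.zero_div]

theorem icc (hn : 2 ≤ Module.finrank ℝ E) (hB : StBM E) (h : Lev L ρ) (a0 : 0 < a) :
    ∫⁻ t in Icc a b, ar ρ t ≤ ∫⁻ x in ρ ⁻¹' Icc a b, ‖fderiv ℝ ρ x‖ₑ := by
  let δ : ℕ → ℝ := fun n => a / (2 * (L + 1)) / (n + 1)
  have d : ∀ n, 0 < δ n := fun n => by positivity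
  have d0 : Tendsto δ atTop (𝓝 0) := by
    simpa [δ, div_eq_mul_inv] using
      tendsto_one_div_add_atTop_nhds_zero_nat.const_mul (a / (2 * (L + 1) : ℝ))
  have d1 : ∀ n, L * δ n ≤ a / 2 := fun n => by
    refine (mul_le_mul (le_add_of_nonneg_right zero_le_one) (div_le_self (by positivity)
      (le_add_of_nonneg_left n.cast_nonneg)) (d n).le (by positivity)).trans_eq ?_
    field_simp
  have m := fun n => measurable_measure_prodMk_left (ν := volume) (T_meas (a := a) (b := b) h (d n))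
  have c := h.lip.continuous
  have mc : MeasurableSet {x | a / 2 ≤ ρ x} := (isClosed_le continuous_const c).measurableSet
  refine le_trans (le_limsup_of_frequently_le (.of_forall fun n => ?_)) ((limsup_lintegral_le (μ := volume)
    (f := fun n x => volume (Prod.mk x ⁻¹' T ρ (δ n) a b) / ENNReal.ofReal (δ n))
    ({x | a / 2 ≤ ρ x}.indicator fun _ => (L : ℝ≥0∞)) (fun n => (m n).div_const _)
    (fun n => .of_forall fun x => ?_) ?_).trans ?_)
  · simp only [div_eq_mul_inv]
    rw [lintegral_mul_const _ (m n), ← Measure.prod_apply (T_meas h (d n)),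
      Measure.prod_apply_symm (T_meas h (d n)), ← div_eq_mul_inv,
      ENNReal.le_div_iff_mul_le (.inl (ENNReal.ofReal_pos.2 (d n)).ne') (.inl ENNReal.ofReal_ne_top),
      ← lintegral_mul_const _ (ar_meas ρ), ← lintegral_indicator measurableSet_Icc]
    refine lintegral_mono fun t => indicator_apply_le' (fun ht => ?_) fun _ => zero_le
    exact (lev hn hB h (d n) (a0.trans_le ht.1)).trans (measure_mono fun x hx => ⟨ht, hx⟩)
  · by_cases k : a / 2 ≤ ρ x
    · exact (sec_le h.lip.lipschitzOnWith (d n)).trans_eq (indicator_of_mem k fun _ => _).symm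
    · exact (sec_zero h (d n) (.inl (by linarith [d1 n, not_le.1 k]))).trans_le zero_le
  · rw [lintegral_indicator mc, setLIntegral_const]
    exact ENNReal.mul_ne_top ENNReal.coe_ne_top (fin h (half_pos a0))
  rw [← lintegral_indicator (c.measurable measurableSet_Icc)]
  refine lintegral_mono fun x => ?_
  by_cases k : ρ x ∈ Icc a b
  · rw [indicator_of_mem (show x ∈ ρ ⁻¹' Icc a b from k)]
    refine ENNReal.le_of_forall_pos_le_add fun ε e _ => limsup_le_of_le (h := ?_)
    obtain ⟨s, hs, l⟩ := (h.c1.contDiffAt ((isOpen_lt continuous_const c).mem_nhds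
      (a0.trans_le k.1))).exists_lipschitzOnWith_of_nnnorm_lt _ (lt_add_of_pos_right _ e)
    obtain ⟨r, r0, hr⟩ := Metric.mem_nhds_iff.1 hs
    filter_upwards [d0.eventually_le_const r0] with n hn
    exact sec_le (l.mono ((ball_subset_ball hn).trans hr)) (d n)
  · refine le_trans (limsup_le_of_le (h := ?_)) zero_le
    rcases lt_or_ge (ρ x) a with k1 | k1
    · filter_upwards [((d0.const_mul (L : ℝ)).const_add (ρ x)).eventually_le_const
        (by simpa using k1)] with n hn using (sec_zero h (d n) (.inl hn)).le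
    · exact .of_forall fun n => (sec_zero h (d n) (.inr (lt_of_not_ge fun k2 => k ⟨k1, k2⟩))).le

end Iso

theorem stIso (hn : 2 ≤ Module.finrank ℝ E) (hB : StBM E) : StIso E := by
  intro L ρ h C hC
  have c := h.lip.continuous.measurable
  have g : Measurable fun x => ‖fderiv ℝ ρ x‖ₑ := (measurable_fderiv ℝ ρ).enorm
  let ν := (volume.withDensity fun x => ‖fderiv ℝ ρ x‖ₑ).map ρ
  have ap : ∀ s, MeasurableSet s → ν s = ∫⁻ x in ρ ⁻¹' s, ‖fderiv ℝ ρ x‖ₑ := fun s hs => by
    rw [Measure.map_apply c hs, withDensity_apply _ (c hs)]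
  have k : ∀ ε, 0 < ε → ∀ s ⊆ Ioi ε, volume.withDensity (Iso.ar ρ) s ≤ ν s := fun ε e s hs => by
    have : IsFiniteMeasure (ν.restrict (Ici ε)) := isFiniteMeasure_restrict.2 (by
      rw [ap _ measurableSet_Ici]
      refine ne_top_of_le_ne_top (ENNReal.mul_ne_top (a := L) ENNReal.coe_ne_top (Iso.fin h e)) ?_
      rw [← setLIntegral_const]
      exact lintegral_mono fun x => ENNReal.coe_le_coe.2 (norm_fderiv_le_of_lipschitz ℝ h.lip))
    refine ((IsUnifLocDoublingMeasure.vitaliFamily volume 1).measure_le_of_frequently_le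
      (ν.restrict (Ici ε)) (withDensity_absolutelyContinuous _ _) s fun x hx =>
        (Real.tendsto_Icc_vitaliFamily_right x).frequently (.of_forall fun y => ?_)).trans
      (Measure.restrict_le_self s)
    rw [Measure.restrict_eq_self _ (Icc_subset_Ici_self.trans (Ici_subset_Ici.2 (le_of_lt (hs hx)))),
      ap _ measurableSet_Icc, withDensity_apply _ measurableSet_Icc]
    exact Iso.icc hn hB h (e.trans (hs hx))
  have le : (volume.withDensity (Iso.ar ρ)).restrict (Ioi 0) ≤ ν.restrict (Ioi 0) := by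
    refine Measure.le_iff.2 fun s hs => ?_
    rw [Measure.restrict_apply hs, Measure.restrict_apply hs]
    refine (measure_mono (t := ⋃ n : ℕ, s ∩ Ioi (1 / (n + 1 : ℝ))) fun z hz => ?_).trans ?_
    · obtain ⟨n, hn⟩ := exists_nat_one_div_lt (show 0 < z from hz.2)
      exact mem_iUnion.2 ⟨n, hz.1, hn⟩
    rw [Monotone.measure_iUnion fun i j hij => inter_subset_inter_right _
      (Ioi_subset_Ioi (Nat.one_div_le_one_div hij))]
    exact iSup_le fun n => (k _ Nat.one_div_pos_of_nat _ inter_subset_right).trans (measure_mono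
      (inter_subset_inter_right _ (Ioi_subset_Ioi Nat.one_div_pos_of_nat.le)))
  have := lintegral_mono' le (le_refl C)
  rw [setLIntegral_withDensity_eq_setLIntegral_mul _ (Iso.ar_meas ρ) hC measurableSet_Ioi,
    setLIntegral_map measurableSet_Ioi hC c, setLIntegral_withDensity_eq_setLIntegral_mul _ g
      (hC.fun_comp c) (c measurableSet_Ioi)] at this
  simp only [ofReal_norm, mul_comm (C _)]
  exact this

end Pool.Agent.MP_e4cac8_mp

end

section

/-! The weak equation and the integral equation are equivalent. -/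

open Set MeasureTheory Filter Topology
open scoped ENNReal NNReal SchwartzMap
open Pool.Agent.MP_0b7119_mp.G

namespace Pool.Agent.MP_e4cac8_mp

set_option linter.unusedSectionVars false

variable {E S : Type} [NormedAddCommGroup E] [InnerProductSpace ℝ E] [FiniteDimensional ℝ E]
  [MeasurableSpace E] [BorelSpace E] [NormedAddCommGroup S] [InnerProductSpace ℂ S]
  [CompleteSpace S] [FiniteDimensional ℂ S] {d : ℕ}

namespace K

theorem mj_swap {r : E → S →L[ℂ] S} (hr : Ks r) {g u : E → S}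
    (h : Integrable (mj r g u) (volume.prod volume)) :
    Integrable (mj r u g) (volume.prod volume) :=
  h.swap.congr (Eventually.of_forall fun p => by
    simp only [mj, Function.comp_apply, Prod.fst_swap, Prod.snd_swap, hr.norm_sub p.2 p.1]
    ring)

/-- The convolution is symmetric for the inner product. -/
theorem pair {r : E → S →L[ℂ] S} (hr : Ks r) {g u : E → S} (hg : AEStronglyMeasurable g volume)
    (hu : AEStronglyMeasurable u volume) (h : Integrable (mj r g u) (volume.prod volume)) :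
    Integrable (fun y => inner ℂ (JK.cv r g y) (u y)) volume ∧
      ∫ x, inner ℂ (g x) (JK.cv r u x) = ∫ y, inner ℂ (JK.cv r g y) (u y) := by
  have h1 : Integrable (fun p : E × E => inner ℂ (g p.1) (r (p.1 - p.2) (u p.2)))
      (volume.prod volume) :=
    h.mono' (hg.comp_fst.inner (meas_ap hr.meas hu)) (Eventually.of_forall fun p =>
      (norm_inner_le_norm _ _).trans
        (mul_le_mul_of_nonneg_left (ContinuousLinearMap.le_opNorm _ _) (norm_nonneg _)))
  have a : (fun x => ∫ y, inner ℂ (g x) (r (x - y) (u y))) =ᵐ[volume]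
      fun x => inner ℂ (g x) (JK.cv r u x) := by
    filter_upwards [ae_int_ap hr.meas hu h] with x hx
    by_cases h0 : g x = 0
    · simp [h0]
    · exact integral_inner (hx h0) (g x)
  have b : (fun y => ∫ x, inner ℂ (g x) (r (x - y) (u y))) =ᵐ[volume]
      fun y => inner ℂ (JK.cv r g y) (u y) := by
    filter_upwards [ae_int_ap hr.meas hg (mj_swap hr h)] with y hy
    by_cases h0 : u y = 0
    · simp [h0]
    · rw [← inner_conj_symm, JK.cv, ← integral_inner (hy h0), ← integral_conj]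
      refine integral_congr_ae (Eventually.of_forall fun x => ?_)
      simp only
      rw [inner_conj_symm, ← neg_sub y x, hr.symm, ContinuousLinearMap.star_eq_adjoint,
        ContinuousLinearMap.adjoint_inner_right]
  refine ⟨h1.integral_prod_right.congr b, ?_⟩
  rw [← integral_congr_ae a, ← integral_congr_ae b]
  exact integral_integral_swap h1

/-- The convolution is locally integrable. -/
theorem loc {r : E → S →L[ℂ] S} (hr : Ks r) {u : E → S} (hu : AEStronglyMeasurable u volume)
    {ξ : S} (hξ : ξ ≠ 0)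
    (h : ∀ g : E → S, MemLp g 2 volume → Integrable (mj r g u) (volume.prod volume)) :
    LocallyIntegrable (JK.cv r u) volume := by
  refine locallyIntegrable_iff.2 fun A hA => ?_
  have hg : MemLp (A.indicator fun _ => ξ) 2 volume :=
    memLp_indicator_const 2 hA.measurableSet ξ (Or.inr hA.measure_lt_top.ne)
  have h1 : Integrable (fun p : E × E => ‖(A.indicator fun _ => ξ) p.1‖ • r (p.1 - p.2) (u p.2))
      (volume.prod volume) :=
    (h _ hg).mono' (hg.1.comp_fst.norm.smul (meas_ap hr.meas hu)) (Eventually.of_forall fun p => by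
      rw [norm_smul, norm_norm]
      exact mul_le_mul_of_nonneg_left (ContinuousLinearMap.le_opNorm _ _) (norm_nonneg _))
  refine ((h1.integral_prod_left.smul ‖ξ‖⁻¹).integrableOn (s := A)).congr_fun (fun x hx => ?_)
    hA.measurableSet
  simp only [Pi.smul_apply, indicator_of_mem hx, integral_smul, smul_smul,
    inv_mul_cancel₀ (norm_ne_zero_iff.2 hξ), one_smul, JK.cv]

end K

variable {e : OrthonormalBasis (Fin d) ℝ E} {α : Fin d → S →L[ℂ] S} {β : S →L[ℂ] S} {m : ℝ}

theorem stK (hc : Ctx α β m) : StK e α β m := by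
  intro l hl V θ ψ hV hV0 hA hψ hI
  have hb := gap_pos hl
  have hr := ks_rk hc.rep e m l
  have hi := integrable_rk hc.rep e hl
  have hs := memLp_sv_of_int hV hV0 hψ.1 hI
  have hu : AEStronglyMeasurable (fun y => (V y : ℂ) • ψ y) volume := sv_sv hV0 ψ ▸ meas_sv hV hs.1
  have hm : ∀ g : E → S, MemLp g 2 volume →
      Integrable (mj (rk e α β m l) g fun y => (V y : ℂ) • ψ y) (volume.prod volume) :=
    fun g hg => by
      have := (schur hr measurable_const (fun _ => zero_le_one) hV hV0 (adm_one hi.norm) hA hg hs).1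
      rwa [sv_one, sv_sv hV0] at this
  have key : ∀ φ : 𝓢(E, S),
      ∫ x, inner ℂ (dirac e α β m φ x - ((V x + l : ℝ) : ℂ) • φ x) (ψ x) =
        (∫ x, inner ℂ (JK.Dop e α β m (-(l : ℂ)) φ x) (ψ x)) -
          ∫ x, inner ℂ (JK.Dop e α β m (-(l : ℂ)) φ x) (Rop (rk e α β m l) V ψ x) := by
    intro φ
    have hg := (JK.Dop e α β m (-(l : ℂ)) φ).memLp 2 volume
    obtain ⟨p1, p2⟩ := K.pair hr hg.1 hu (hm _ hg)
    rw [JK.cv_Dop e hc.rep hb hi (JK.fourier_rk e α β hb)] at p1 p2
    rw [Rop_eq_cv, p2, ← integral_sub _ p1]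
    · refine integral_congr_ae (Eventually.of_forall fun x => ?_)
      simp only
      rw [JK.Dop_apply, inner_smul_right]
      simp only [inner_sub_left, inner_add_left, inner_smul_left, Complex.conj_ofReal, map_neg]
      push_cast
      ring
    · exact memLp_one_iff_integrable.1 (MemLp.of_bilin (fun a b => inner ℂ a b) 1 hg hψ
        (hg.1.inner hψ.1) (.of_forall fun x => by simpa using nnnorm_inner_le_nnnorm _ _))
  constructor
  · intro hw
    obtain ⟨ξ, hξ⟩ := hc.nt
    have hl2 : LocallyIntegrable (Rop (rk e α β m l) V ψ) volume :=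
      Rop_eq_cv (rk e α β m l) V ψ ▸ K.loc hr hu hξ hm
    have hl1 : LocallyIntegrable ψ := hψ.locallyIntegrable (by norm_num)
    refine ae_eq_of_integral_contDiff_smul_eq hl1 hl2 fun g hg hgc => ?_
    refine ext_inner_left ℂ fun s => ?_
    have hgs : HasCompactSupport (fun x => g x • s) := hgc.smul_right (f' := fun _ => s)
    obtain ⟨φ, hφ⟩ := JK.Dop_surj e hc.rep hb (hgs.toSchwartzMap (hg.smul contDiff_const))
    have h1 := key φ
    rw [hw φ, hφ] at h1
    rw [← integral_inner (hl1.integrable_smul_left_of_hasCompactSupport hg.continuous hgc),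
      ← integral_inner (hl2.integrable_smul_left_of_hasCompactSupport hg.continuous hgc)]
    have h2 : ∀ (f : E → S) (x : E), inner ℂ s (g x • f x) = inner ℂ (g x • s) (f x) := by
      intro f x
      rw [← Complex.coe_smul, ← Complex.coe_smul, inner_smul_left, inner_smul_right,
        Complex.conj_ofReal]
    simp only [h2]
    exact sub_eq_zero.1 h1.symm
  · intro h φ
    rw [key φ, sub_eq_zero]
    refine integral_congr_ae ?_
    filter_upwards [h] with x hx
    rw [← hx]

end Pool.Agent.MP_e4cac8_mp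

end

section

/-! From continuous weights to bounded measurable weights. -/

open Set MeasureTheory Filter Topology

namespace Pool.Agent.MP_e4cac8_mp

namespace MC

/-- bounded measurable weights -/
def Bd (κ : ℝ → ℝ) : Prop := Measurable κ ∧ ∃ K, ∀ s, |κ s| ≤ K

theorem bd_ind {t : Set ℝ} (ht : MeasurableSet t) : Bd (t.indicator 1) :=
  ⟨measurable_one.indicator ht, 1, fun s => by by_cases h : s ∈ t <;> simp [h]⟩

/-- the monotone class argument on the half line -/
theorem cls (P : (ℝ → ℝ) → Prop)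
    (lin : ∀ (a : ℝ) κ κ', Bd κ → Bd κ' → P κ → P κ' → P fun s => a * κ s + κ' s)
    (lim : ∀ (κ : ℕ → ℝ → ℝ) (κ₀ : ℝ → ℝ) (K : ℝ), (∀ n, Measurable (κ n)) →
      (∀ n s, |κ n s| ≤ K) → (∀ s, 0 < s → Tendsto (fun n => κ n s) atTop (𝓝 (κ₀ s))) →
      (∀ n, P (κ n)) → P κ₀)
    (base : ∀ κ : ℝ → ℝ, Continuous κ → (∃ ε > 0, ∀ s ≤ ε, κ s = 0) → (∃ K, ∀ s, |κ s| ≤ K) → P κ)
    (κ : ℝ → ℝ) (hκ : Bd κ) : P κ := by
  have cg : ∀ κ κ', P κ → (∀ s, κ' s = κ s) → P κ' := fun κ κ' h e => (funext e : κ' = κ) ▸ h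
  have sb : ∀ g : SimpleFunc ℝ ℝ, Bd g := fun g => ⟨g.measurable, g.exists_forall_norm_le⟩
  have z : P (indicator ∅ 1) := by
    rw [indicator_empty]
    exact base _ continuous_const ⟨1, one_pos, fun _ _ => rfl⟩ ⟨0, fun _ => by simp⟩
  have r : ∀ (a : ℝ) (t : Set ℝ), 0 ≤ a → (∀ s, 0 < s → (s ∈ t ↔ a < s)) → P (t.indicator 1) := by
    intro a t ha ht
    refine lim (fun n s => min 1 (max 0 ((n + 1) * (s - a) - 1))) _ 1 (fun n => by fun_prop)
      (fun n s => ?_) (fun s hs => ?_) fun n => base _ (by fun_prop) ⟨1 / (n + 1), by positivity,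
        fun s hs => ?_⟩ ⟨1, fun s => ?_⟩
    · exact abs_le.2 ⟨le_min (by norm_num) (le_max_of_le_left (by norm_num)), min_le_left _ _⟩
    · refine tendsto_const_nhds.congr' ?_
      by_cases h : a < s
      · rw [indicator_of_mem ((ht s hs).2 h), Pi.one_apply]
        filter_upwards [tendsto_natCast_atTop_atTop.eventually_ge_atTop (2 / (s - a))] with n hn
        rw [div_le_iff₀ (sub_pos.2 h)] at hn
        exact (min_eq_left (le_max_of_le_right (by nlinarith))).symm
      · rw [indicator_of_notMem (mt (ht s hs).1 h)]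
        refine .of_forall fun n => ?_
        have : (0 : ℝ) ≤ n := n.cast_nonneg
        simp only []
        rw [max_eq_left (by nlinarith [not_lt.1 h]), min_eq_right zero_le_one]
    · have : (0 : ℝ) < n + 1 := by positivity
      rw [le_div_iff₀ this] at hs
      rw [max_eq_left (by nlinarith), min_eq_right zero_le_one]
    · exact abs_le.2 ⟨le_min (by norm_num) (le_max_of_le_left (by norm_num)), min_le_left _ _⟩
  have ind : ∀ t (_ : MeasurableSet t), P (t.indicator 1) := by
    refine MeasurableSpace.induction_on_inter (C := fun t _ => P (t.indicator 1))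
      (BorelSpace.measurable_eq.trans (borel_eq_generateFrom_Ioi ℝ)) isPiSystem_Ioi z ?_ ?_ ?_
    · rintro _ ⟨a, rfl⟩
      exact r (max a 0) _ (le_max_right _ _) fun s hs => by simp [hs]
    · intro t ht h
      have := lin (-1) _ _ (bd_ind ht) (bd_ind .univ) h (r 0 univ le_rfl fun s hs => by simp [hs])
      refine cg _ _ this fun s => ?_
      by_cases h : s ∈ t <;> simp [h]
    · intro f hd hf h
      have m : ∀ n, MeasurableSet (⋃ i < n, f i) := fun n => .iUnion fun i => .iUnion fun _ => hf i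
      refine lim (fun n => (⋃ i < n, f i).indicator 1) _ 1 (fun n => (bd_ind (m n)).1)
        (fun n s => by by_cases h : s ∈ ⋃ i < n, f i <;> simp only [h, indicator_of_mem,
          indicator_of_notMem, not_false_eq_true] <;> simp) (fun s _ => ?_) fun n => ?_
      · refine tendsto_const_nhds.congr' ?_
        by_cases h : s ∈ ⋃ i, f i
        · obtain ⟨i, hi⟩ := mem_iUnion.1 h
          filter_upwards [eventually_gt_atTop i] with n hn
          rw [indicator_of_mem h, indicator_of_mem (mem_iUnion₂.2 ⟨i, hn, hi⟩)]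
        · refine .of_forall fun n => ?_
          simp only []
          rw [indicator_of_notMem h, indicator_of_notMem fun h' => h ?_]
          obtain ⟨i, -, hi⟩ := mem_iUnion₂.1 h'
          exact mem_iUnion.2 ⟨i, hi⟩
      · induction n with
        | zero => simpa using z
        | succ n ih =>
          have := lin 1 _ _ (bd_ind (m n)) (bd_ind (hf n)) ih (h n)
          refine cg _ _ this fun s => ?_
          rw [biUnion_lt_succ, indicator_union_of_disjoint, one_mul]
          exact disjoint_iUnion₂_left.2 fun i hi => hd (ne_of_lt hi)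
  have sf : ∀ g : SimpleFunc ℝ ℝ, P g := fun g => by
    induction g using SimpleFunc.induction with
    | const c hs =>
      have := lin c _ _ (bd_ind hs) (bd_ind .empty) (ind _ hs) z
      refine cg _ _ this fun s => ?_
      simp [indicator, piecewise]
    | add _ hf hg =>
      have := lin 1 _ _ (sb _) (sb _) hf hg
      refine cg _ _ this fun s => ?_
      simp
  obtain ⟨hm, K, hK⟩ := hκ
  exact lim (fun n => hm.stronglyMeasurable.approxBounded K n) _ K
    (fun n => SimpleFunc.measurable _)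
    (hm.stronglyMeasurable.norm_approxBounded_le ((abs_nonneg _).trans (hK 0)))
    (fun s _ => hm.stronglyMeasurable.tendsto_approxBounded_of_norm_le (hK s)) fun n => sf _

theorem ii {κ : ℝ → ℝ} (h : Bd κ) (a b : ℝ) : IntervalIntegrable κ volume a b := by
  obtain ⟨hm, K, hK⟩ := h
  exact (intervalIntegrable_const (c := K)).mono_fun' hm.aestronglyMeasurable (.of_forall hK)

theorem avg_meas {κ : ℝ → ℝ} (h : Bd κ) : Measurable (avg κ) :=
  (intervalIntegral.continuous_primitive (ii h) 0).measurable.div measurable_id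

theorem avg_bd {κ : ℝ → ℝ} {K τ : ℝ} (hK : ∀ s, |κ s| ≤ K) (hτ : 0 < τ) : |avg κ τ| ≤ K := by
  have := intervalIntegral.norm_integral_le_of_norm_le_const (a := 0) (b := τ) (f := κ) (C := K)
    fun s _ => hK s
  rw [sub_zero, abs_of_pos hτ] at this
  rwa [avg, abs_div, abs_of_pos hτ, div_le_iff₀ hτ]

end MC

open MC in
theorem stMC : StMC := by
  intro X _ μ τ f₁ f₂ hτ h0 i₁ i₂ base κ hm hK
  have int : ∀ κ, Bd κ → Integrable (fun x => avg κ (τ x) * f₁ x + κ (τ x) * f₂ x) μ :=
    fun κ h => by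
      obtain ⟨K, hK⟩ := h.2
      exact (i₁.bdd_mul ((avg_meas h).comp hτ).aestronglyMeasurable
        (h0.mono fun x hx => avg_bd hK hx)).add
        (i₂.bdd_mul (h.1.comp hτ).aestronglyMeasurable (.of_forall fun x => hK _))
  refine cls (fun κ => ∫ x, (avg κ (τ x) * f₁ x + κ (τ x) * f₂ x) ∂μ = 0) ?_ ?_ base κ ⟨hm, hK⟩
  · intro a κ κ' h h' e e'
    have := integral_add ((int κ h).const_mul a) (int κ' h')
    rw [integral_const_mul, e, e', mul_zero, add_zero] at this
    refine (integral_congr_ae (.of_forall fun x => ?_)).trans this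
    simp only [avg]
    rw [intervalIntegral.integral_add ((ii h _ _).const_mul a) (ii h' _ _),
      intervalIntegral.integral_const_mul]
    ring
  · intro κ κ₀ K hm hK hl e
    have := tendsto_integral_of_dominated_convergence (μ := μ)
      (F := fun n x => avg (κ n) (τ x) * f₁ x + κ n (τ x) * f₂ x)
      (f := fun x => avg κ₀ (τ x) * f₁ x + κ₀ (τ x) * f₂ x) (fun x => K * |f₁ x| + K * |f₂ x|)
      (fun n => (int _ ⟨hm n, K, hK n⟩).aestronglyMeasurable)
      ((i₁.abs.const_mul K).add (i₂.abs.const_mul K))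
      (fun n => h0.mono fun x hx => (abs_add_le _ _).trans (add_le_add
        ((abs_mul _ _).trans_le (mul_le_mul_of_nonneg_right (avg_bd (hK n) hx) (abs_nonneg _)))
        ((abs_mul _ _).trans_le (mul_le_mul_of_nonneg_right (hK n _) (abs_nonneg _)))))
      (h0.mono fun x hx => ((Tendsto.div_const ?_ _).mul_const _).add ((hl _ hx).mul_const _))
    · simp only [e] at this
      exact tendsto_nhds_unique this tendsto_const_nhds
    · refine intervalIntegral.tendsto_integral_filter_of_dominated_convergence (fun _ => K)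
        (.of_forall fun n => (hm n).aestronglyMeasurable)
        (.of_forall fun n => .of_forall fun s _ => hK n s) intervalIntegrable_const
        (.of_forall fun s hs => hl s ?_)
      rw [uIoc_of_le hx.le] at hs
      exact hs.1

end Pool.Agent.MP_e4cac8_mp

end

section

/-! Optimality gives the Birman-Schwinger bound for all competitors. -/

open Set MeasureTheory Filter Topology
open Pool.Agent.MP_0b7119_mp.G

namespace Pool.Agent.MP_e4cac8_mp

set_option linter.unusedSectionVars false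

variable {E S : Type} [NormedAddCommGroup E] [InnerProductSpace ℝ E] [FiniteDimensional ℝ E]
  [MeasurableSpace E] [BorelSpace E] [NormedAddCommGroup S] [InnerProductSpace ℂ S]
  [CompleteSpace S] [FiniteDimensional ℂ S] {d : ℕ}
  {e : OrthonormalBasis (Fin d) ℝ E} {α : Fin d → S →L[ℂ] S} {β : S →L[ℂ] S} {m : ℝ}

namespace P02

open JD in
/-- The bound persists along a continuous family of kernels without solutions. -/
theorem cont (r : ℝ → E → S →L[ℂ] S) {a b : ℝ} (hab : a ≤ b)
    (hk : ∀ l ∈ Icc a b, Kr (r l)) (hs : ∀ l z, r l (-z) = star (r l z))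
    (hc : ∀ l ∈ Icc a b, ∀ η > 0, ∃ δ > 0, ∀ l' ∈ Icc a b, |l' - l| < δ →
      ∫ z, ‖r l' z - r l z‖ < η) {V : E → ℝ} (hV : Nice V) (h0 : BS (r a) V 1)
    (hno : ∀ l ∈ Ico a b, ¬ ∃ ψ, Sol (r l) V ψ) : BS (r b) V 1 := by
  intro g₁ hg₁
  rw [← Q_eq_Bf, one_mul]
  by_contra hlt'
  rw [not_le] at hlt'
  obtain ⟨M, hw⟩ := nice_wt hV
  set w : E → ℝ := fun x => √(V x) with hwdef
  have hcont : ∀ l ∈ Icc a b, ∀ η > 0, ∃ δ > 0, ∀ l' ∈ Icc a b, |l' - l| < δ →
      ∀ g : E → S, MemLp g 2 volume → |Q w (r l') g g - Q w (r l) g g| ≤ η * I2 g := by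
    intro l hl η hη
    obtain ⟨δ, hδ, h⟩ := hc l hl (η / (M ^ 2 + 1)) (by positivity)
    refine ⟨δ, hδ, fun l' hl' hd g hg => (Q_sub_ker hw (hk l' hl') (hk l hl) hg hg).trans ?_⟩
    have h1 : M ^ 2 / 2 * (I2 g + I2 g) ≤ (M ^ 2 + 1) * I2 g := by nlinarith [I2_nonneg g]
    calc _ ≤ (M ^ 2 + 1) * I2 g * (η / (M ^ 2 + 1)) :=
          mul_le_mul h1 (h l' hl' hd).le (integral_nonneg fun _ => norm_nonneg _)
            (mul_nonneg (by positivity) (I2_nonneg g))
      _ = η * I2 g := by field_simp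
  have hb : b ∈ Icc a b := ⟨hab, le_rfl⟩
  set L : Set ℝ := {l | l ∈ Icc a b ∧
    ∃ g : E → S, MemLp g 2 volume ∧ I2 g ≤ 1 ∧ 1 ≤ Q w (r l) g g} with hL
  have hmem : ∀ l ∈ Icc a b, ∀ g : E → S, MemLp g 2 volume → I2 g < Q w (r l) g g → l ∈ L :=
    fun l hl g hg h => ⟨hl, normalize hg
      (I2_pos hw (hk l hl) hg ((I2_nonneg g).trans_lt h)) h.le⟩
  have hbL : b ∈ L := hmem b hb _ hg₁ hlt'
  have hbdd : BddBelow L := ⟨a, fun l hl => hl.1.1⟩
  set l₀ := sInf L with hl₀
  have hl₀m : l₀ ∈ Icc a b := ⟨le_csInf ⟨b, hbL⟩ fun l hl => hl.1.1, csInf_le hbdd hbL⟩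
  obtain ⟨u, -, hu, huL⟩ := exists_seq_tendsto_sInf ⟨b, hbL⟩ hbdd
  choose f hf hf1 hfQ using fun n => (huL n).2
  obtain ⟨φ, hφ, F, hF, hF1, hlim⟩ := weak_subseq f hf hf1
  have hQ := Q_tendsto hw (hk l₀ hl₀m) (fun n => hf (φ n)) (fun n => hf1 (φ n)) hF hF1 hlim
  have hFQ : 1 ≤ Q w (r l₀) F F := by
    refine le_of_forall_pos_le_add fun η hη => ?_
    obtain ⟨δ, hδ, h⟩ := hcont l₀ hl₀m η hη
    have h1 : 1 - η ≤ Q w (r l₀) F F := by
      refine ge_of_tendsto hQ ?_
      filter_upwards [(hu.comp hφ.tendsto_atTop).eventually (Metric.ball_mem_nhds l₀ hδ)]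
        with n hn
      have h2 := h (u (φ n)) (huL _).1 hn _ (hf (φ n))
      have h3 : η * I2 (f (φ n)) ≤ η := by nlinarith [hf1 (φ n)]
      linarith [hfQ (φ n), (abs_le.mp h2).2]
    linarith
  have hF0 : 0 < I2 F := I2_pos hw (hk l₀ hl₀m) hF (by linarith)
  have hall : ∀ g : E → S, MemLp g 2 volume → Q w (r l₀) g g ≤ I2 g := by
    intro g hg
    rcases hl₀m.1.eq_or_lt with hal | hal
    · have := h0 g hg
      rwa [← Q_eq_Bf, one_mul, hal] at this
    by_contra hn
    rw [not_le] at hn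
    have hg0 : 0 < I2 g := I2_pos hw (hk l₀ hl₀m) hg ((I2_nonneg g).trans_lt hn)
    obtain ⟨δ, hδ, h⟩ := hcont l₀ hl₀m ((Q w (r l₀) g g - I2 g) / (2 * I2 g))
      (div_pos (sub_pos.mpr hn) (by positivity))
    have h1 : max a (l₀ - δ / 2) < l₀ := max_lt hal (by linarith)
    have h2 : max a (l₀ - δ / 2) ∈ Icc a b := ⟨le_max_left _ _, h1.le.trans hl₀m.2⟩
    have h3 := h _ h2 (by
      rw [abs_lt]
      constructor <;> linarith [le_max_right a (l₀ - δ / 2)]) g hg
    have h4 : (Q w (r l₀) g g - I2 g) / (2 * I2 g) * I2 g = (Q w (r l₀) g g - I2 g) / 2 := by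
      field_simp
    rw [h4] at h3
    exact absurd (csInf_le hbdd (hmem _ h2 g hg (by linarith [(abs_le.mp h3).1]))) (not_le.mpr h1)
  refine hno l₀ ⟨hl₀m.1, hl₀m.2.lt_of_ne fun h => ?_⟩ ⟨_, to_sol hV hw (hk l₀ hl₀m) hF hF0
    (variation hw (hk l₀ hl₀m) (hs l₀) hall hF (hF1.trans hFQ))⟩
  have := hall _ hg₁
  rw [h] at this
  linarith

theorem lamD_le_of_sol (hc : Ctx α β m) {l : ℝ} (hl : l ∈ Ioo (-m) m) {V : E → ℝ} (hV : Nice V)
    (h : ∃ ψ, Sol (rk e α β m l) V ψ) : lamD e α β m V ≤ l :=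
  csInf_le ⟨-m, by
    rintro l (hl | hl)
    · exact hl.1.1.le
    · rw [mem_singleton_iff.mp hl]; linarith [hc.pos]⟩
    (Or.inl ⟨hl, (stmtK E S d e α β hc.rep hc.two m l hl V hV).mpr h⟩)

theorem nice_mul {V : E → ℝ} (hV : Nice V) {s : ℝ} (hs : 0 ≤ s) : Nice fun x => s * V x := by
  obtain ⟨C, hC⟩ := hV.bdd
  obtain ⟨R, hR⟩ := hV.supp
  exact ⟨hV.meas.const_mul s, fun x => mul_nonneg hs (hV.nonneg x),
    ⟨s * C, fun x => mul_le_mul_of_nonneg_left (hC x) hs⟩, R, fun x hx => by rw [hR x hx, mul_zero]⟩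

theorem full (hc : Ctx α β m) {p A lam l : ℝ} (hp : 1 ≤ p) (hG : Gap e α β m p A)
    (hopt : Opt e α β m p A lam) (hl : l ∈ Ioo (-m) m) (hle : l ≤ lam) {W : E → ℝ} (hN : Nice W)
    (hW : PotR p A W) (hA : ∫ x, W x ^ p = A ^ p) : BS (rk e α β m l) W 1 := by
  obtain ⟨δ, hδ, hG⟩ := hG
  set l₀ := min l (-m + δ / 2) with hl₀
  have h1 : l₀ ≤ l := min_le_left _ _
  have h2 : l₀ ∈ Ioo (-m) m := ⟨lt_min hl.1 (by linarith), h1.trans_lt hl.2⟩
  have hi := integrable_rk hc.rep e h2
  have s1 : BS (fun z => (((1 : ℝ) : ℝ) : ℂ) • rk e α β m l₀ z) W 1 := by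
    refine cont (fun (s : ℝ) z => (s : ℂ) • rk e α β m l₀ z) zero_le_one
      (fun s _ => ⟨(stronglyMeasurable_rk e α β m l₀).const_smul (s : ℂ), hi.smul (s : ℂ)⟩)
      (fun s z => by rw [rk_neg hc.rep, star_smul, Complex.star_def, Complex.conj_ofReal])
      (fun s _ η hη => ?_) hN (fun g _ => ?_) ?_
    · have hI : 0 ≤ ∫ z, ‖rk e α β m l₀ z‖ := integral_nonneg fun _ => norm_nonneg _
      refine ⟨η / ((∫ z, ‖rk e α β m l₀ z‖) + 1), by positivity, fun s' _ hs' => ?_⟩
      simp only [← sub_smul, norm_smul, ← Complex.ofReal_sub, Complex.norm_real, Real.norm_eq_abs]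
      rw [integral_const_mul]
      rw [lt_div_iff₀ (by positivity)] at hs'
      nlinarith [abs_nonneg (s' - s)]
    · simpa [Bf] using JD.I2_nonneg g
    · rintro s hs ⟨ψ, a1, a2, a3⟩
      have b1 := lamD_le_of_sol (e := e) hc h2 (nice_mul hN hs.1) ⟨ψ, a1, a2, a3.trans
        (Eventually.of_forall fun x => by
          simp only [Rop, smul_apply, smul_smul, Complex.ofReal_mul,
            mul_comm])⟩
      have b2 := hG _ (hW.of_le (by linarith) (nice_mul hN hs.1).meas (nice_mul hN hs.1).nonneg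
        fun x => mul_le_of_le_one_left (hW.nonneg x) hs.2.le)
      linarith [min_le_right l (-m + δ / 2)]
  simp only [Complex.ofReal_one, one_smul] at s1
  have hsub : ∀ l' ∈ Icc l₀ l, l' ∈ Ioo (-m) m := fun l' h => ⟨h2.1.trans_le h.1, h.2.trans_lt hl.2⟩
  have hsub2 : ∀ l' ∈ Icc l₀ l, l' ∈ Icc (-max (-l₀) l) (max (-l₀) l) := fun l' h =>
    ⟨by linarith [le_max_left (-l₀) l, h.1], h.2.trans (le_max_right _ _)⟩
  refine cont (rk e α β m) h1
    (fun l' h => ⟨stronglyMeasurable_rk e α β m l', integrable_rk hc.rep e (hsub l' h)⟩)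
    (rk_neg hc.rep e m) (fun l' h η hη => ?_) hN s1 fun l' h hs => ?_
  · obtain ⟨ε, hε, h3⟩ := rk_cont2 (by rw [finrank_eq e]; exact hc.two) hc.rep e
      (max_lt (by linarith [h2.1]) hl.2) l' (hsub2 l' h) η hη
    exact ⟨ε, hε, fun l'' h' => h3 l'' (hsub2 l'' h')⟩
  · linarith [lamD_le_of_sol (e := e) hc (hsub l' ⟨h.1, h.2.le⟩) hN hs, hopt W hW hA, h.2]

theorem nice (hc : Ctx α β m) {p A lam l : ℝ} (hp : 1 ≤ p) (hA : 0 < A) (hG : Gap e α β m p A)
    (hopt : Opt e α β m p A lam) (hl : l ∈ Ioo (-m) m) (hle : l ≤ lam) {W : E → ℝ} (hN : Nice W)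
    (hW : PotR p A W) : BS (rk e α β m l) W 1 := by
  intro g hg
  have hp0 : 0 < p := by linarith
  have h0 : ∀ x, 0 ≤ W x ^ p := fun x => Real.rpow_nonneg (hW.nonneg x) _
  have h00 : 0 ≤ ∫ x, W x ^ p := integral_nonneg h0
  rcases h00.eq_or_lt with h | h
  · have h1 : sv W g =ᵐ[volume] fun _ => 0 := by
      filter_upwards [(integral_eq_zero_iff_of_nonneg h0 hW.int).mp h.symm] with x hx
      have : W x = 0 := (Real.rpow_eq_zero (hW.nonneg x) hp0.ne').mp hx
      simp [sv, this]
    rw [Bf_congr _ h1 h1]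
    simpa [Bf] using JD.I2_nonneg g
  set I := ∫ x, W x ^ p with hI
  set c := A / I ^ p⁻¹ with hcd
  have hI0 : 0 < I ^ p⁻¹ := Real.rpow_pos_of_pos h _
  have hc1 : 1 ≤ c := by
    rw [hcd, one_le_div hI0, Real.rpow_inv_le_iff_of_pos h.le hA.le hp0]
    exact hW.le
  have hc0 : 0 < c := by linarith
  have e1 : ∀ x, (c * W x) ^ p = c ^ p * W x ^ p := fun x => Real.mul_rpow hc0.le (hW.nonneg x)
  have e2 : ∫ x, (c * W x) ^ p = A ^ p := by
    simp only [e1]
    rw [integral_const_mul, hcd, Real.div_rpow hA.le hI0.le, Real.rpow_inv_rpow h.le hp0.ne']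
    exact div_mul_cancel₀ _ h.ne'
  have hN' := nice_mul hN hc0.le
  have h2 := full hc hp hG hopt hl hle hN' ⟨hN'.meas, hN'.nonneg, by
    simp only [e1]
    exact hW.int.const_mul _, e2.le⟩ e2 (fun x => (((√c)⁻¹ : ℝ) : ℂ) • g x) (hg.const_smul _)
  have hs : 0 < √c := Real.sqrt_pos.mpr hc0
  have e3 : sv (fun x => c * W x) (fun x => (((√c)⁻¹ : ℝ) : ℂ) • g x) = sv W g := by
    ext x
    rw [sv, sv, smul_smul, ← Complex.ofReal_mul, Real.sqrt_mul hc0.le]
    congr 2
    field_simp
  rw [e3, JD.I2_smul, inv_pow, Real.sq_sqrt hc0.le] at h2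
  have := mul_le_mul_of_nonneg_right (inv_le_one_of_one_le₀ hc1) (JD.I2_nonneg g)
  linarith

end P02

theorem stP02 (hc : Ctx α β m) : StP02 e α β m := by
  intro p A lam hp hA hG hopt l hl hle M W hW hWM
  refine bs_of_trunc (ks_rk hc.rep e m l) hW.meas hW.nonneg
    (adm_of_bdd hW.meas hW.nonneg hWM (integrable_rk hc.rep e hl).norm fun _ => norm_nonneg _)
    (fun n => Metric.ball 0 n) (fun n => measurableSet_ball)
    (fun x => (tendsto_natCast_atTop_atTop.eventually (eventually_gt_atTop ‖x‖)).mono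
      fun n hn => mem_ball_zero_iff.mpr hn) fun n => ?_
  have h1 : ∀ x, (Metric.ball (0 : E) n).indicator W x ≤ W x := fun x =>
    indicator_le_self' (fun y _ => hW.nonneg y) x
  have h2 : ∀ x, 0 ≤ (Metric.ball (0 : E) n).indicator W x := fun x =>
    indicator_nonneg (fun y _ => hW.nonneg y) x
  have h3 := hW.meas.indicator (measurableSet_ball (x := (0 : E)) (ε := n))
  exact P02.nice hc hp hA hG hopt hl hle ⟨h3, h2, ⟨M, fun x => (h1 x).trans (hWM x)⟩, n,
    fun x hx => indicator_of_notMem (by simpa using hx) _⟩ (hW.of_le (by linarith) h3 h2 h1)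

end Pool.Agent.MP_e4cac8_mp

end

section

/-! All interface statements hold. -/

open Set MeasureTheory
open Pool.Agent.MP_0b7119_mp.G

namespace Pool.Agent.MP_e4cac8_mp

variable {E S : Type} [NormedAddCommGroup E] [InnerProductSpace ℝ E] [FiniteDimensional ℝ E]
  [MeasurableSpace E] [BorelSpace E] [NormedAddCommGroup S] [InnerProductSpace ℂ S]
  [CompleteSpace S] [FiniteDimensional ℂ S] {d : ℕ}
  {α : Fin d → S →L[ℂ] S} {β : S →L[ℂ] S}

theorem all2 (e : OrthonormalBasis (Fin d) ℝ E) (m : ℝ) (hc : Ctx α β m) : All2 e α β m := by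
  have hn : 2 ≤ Module.finrank ℝ E := by
    rw [finrank_eq e]
    exact hc.two
  have hB : StBM E := by apply stBM; exact hn
  have hI : StIso E := by apply stIso; exacts [hn, hB]
  have hA : StAlg e α := stAlg hc
  have h0 : StNL0 e α := stNL0 hc
  have hH : StHB e α β m := stHB e α β m hc
  have hK : StK e α β m := stK hc
  exact
    { vm := stVm
      ode := stODE stVm
      re := stRe E hn hB hI
      geo := by apply stGeo; exact hn
      tr := stTR E hn
      tent := by apply stTent; exact hn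
      alg := hA
      cmp := stCmp2 hc stVm (stNL hc h0 stMC hA) hA (stAlg2b hc)
      hb := hH
      str := stStr hc h0 hA (stReg1 e α β m hc) (stReg2 hc) hK
      p1 := stP1 e α β m hc (stF1 e α β m hc)
      p0 := stP02 hc
      att := stAtt2 hc hH hK
      bdd := stBdd e α β m hc hH
      el1 := stEL1 e α β m hc
      el2 := stEL2b hc }

theorem final (e : OrthonormalBasis (Fin d) ℝ E) (hr : IsDiracRep α β) (hd : 2 ≤ d)
    (hS : 2 ≤ Module.finrank ℂ S) :
    ∃ c : ℝ, 0 < c ∧ ∀ m p A : ℝ, 0 < m → 0 < A → ENNReal.ofReal A < alphaStar e α β m p →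
      ∀ V ∈ Pot E p, eLpNorm V (ENNReal.ofReal p) volume = ENNReal.ofReal A →
      (∀ W ∈ Pot E p, eLpNorm W (ENNReal.ofReal p) volume = ENNReal.ofReal A →
        lamD e α β m V ≤ lamD e α β m W) →
      (((d : ℝ) ≤ p ∧ ∃ M, (∀ᵐ x, V x ≤ M) ∧ Thr d p (m + lamD e α β m V) M) ∨
        ((d : ℝ) < p ∧ A ^ p ≤ c * (2 * m / d) ^ (p - d))) → Radial V := by
  have : Nontrivial S := Module.nontrivial_of_finrank_pos (R := ℂ) (by omega)
  exact finalAB hr hd (exists_ne 0) (all2 e) (stSup hr hd)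

end Pool.Agent.MP_e4cac8_mp

end
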