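import Pool.Agent.Mg.Fe4cac8.G23b726

set_option linter.all false

/-! The pointwise inequalities at large exponents. -/

open Set

namespace Pool.Agent.MP_e4cac8_mp.Pt3

theorem split {D g P n q : ℝ} (hD : 2 ≤ D) (hg : 0 ≤ g) (hn : 0 ≤ n) (hP : P ^ 2 ≤ g ^ 2 * n)
    (hq : n ≤ D * q) (hq2 : (D - 1) * g ^ 2 * n + P ^ 2 ≤ D * (D - 1) * g ^ 2 * q) :
    ∃ ε z : ℝ, P = g * ε ∧ n = ε ^ 2 + z ∧ 0 ≤ z ∧ ε ^ 2 / (D - 1) + z / D ≤ q := by
  have hD0 : 0 < D := by linarith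
  have hD1 : 0 < D - 1 := by linarith
  rcases hg.eq_or_lt with h | h
  · refine ⟨0, n, ?_, by ring, hn, ?_⟩
    · rw [← h] at hP
      nlinarith [sq_nonneg P]
    · simp only [ne_eq, OfNat.ofNat_ne_zero, not_false_eq_true, zero_pow, zero_div, zero_add]
      rw [div_le_iff₀ hD0]
      linarith
  · obtain ⟨ε, rfl⟩ : ∃ ε, P = g * ε := ⟨P / g, by field_simp⟩
    have h2 : 0 < g ^ 2 := by positivity
    refine ⟨ε, n - ε ^ 2, rfl, by ring, ?_, ?_⟩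
    · rw [mul_pow] at hP
      linarith [le_of_mul_le_mul_left hP h2]
    · have h3 : g ^ 2 * ((D - 1) * n + ε ^ 2) ≤ g ^ 2 * (D * (D - 1) * q) := by nlinarith
      have h4 := le_of_mul_le_mul_left h3 h2
      rw [div_add_div _ _ hD1.ne' hD0.ne', div_le_iff₀ (by positivity)]
      nlinarith

/-- The size of the gradient in terms of the squares. -/
theorem grad {μ g ε z w r s : ℝ} (hμ : 1 ≤ μ) (hz : 0 ≤ z) (hr0 : 0 ≤ r) (hr : r ≤ μ)
    (hw : 4 * w ^ 2 ≤ (g + ε) ^ 2 + z) (hs : s = g + ε - w - ε * r) :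
    g ^ 2 ≤ 24 * s ^ 2 + 39 * μ ^ 2 * (ε ^ 2 + z) := by
  have h1 : (g + ε) ^ 2 ≤ 2 * w ^ 2 + 2 * (s + ε * r) ^ 2 := by
    have : g + ε = w + (s + ε * r) := by rw [hs]; ring
    rw [this]
    nlinarith [sq_nonneg (w - (s + ε * r))]
  have h2 : (s + ε * r) ^ 2 ≤ 2 * s ^ 2 + 2 * (ε * r) ^ 2 := by nlinarith [sq_nonneg (s - ε * r)]
  have h3 : (ε * r) ^ 2 ≤ μ ^ 2 * ε ^ 2 := by
    rw [mul_pow, mul_comm]
    exact mul_le_mul_of_nonneg_right (pow_le_pow_left₀ hr0 hr 2) (sq_nonneg _)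
  have h4 : g ^ 2 ≤ 2 * (g + ε) ^ 2 + 2 * ε ^ 2 := by nlinarith [sq_nonneg (g + 2 * ε)]
  have h5 : 1 ≤ μ ^ 2 := one_le_pow₀ hμ
  have h6 := mul_le_mul_of_nonneg_right h5 (sq_nonneg ε)
  have h7 := mul_le_mul_of_nonneg_right h5 hz
  nlinarith [sq_nonneg s, mul_nonneg (sq_nonneg μ) (sq_nonneg ε)]

theorem good1 {δ β W W0 K B k : ℝ} (hδ : 0 < δ) (hW0 : 0 < W0) (hβ : β ≤ 1 / W0)
    (hK : K = max (W0 - W) 0 + k) (hk : k ≤ δ / 8 * W0) (hB : B ≤ (1 - 7 / 8 * δ) * W0)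
    (h : W ≤ (1 + δ / 2) * W0) : δ / 4 * β ≤ (2 * W0 - W - K - B) / W0 ^ 2 := by
  refine (mul_le_mul_of_nonneg_left hβ (by positivity)).trans ?_
  rw [le_div_iff₀ (by positivity)]
  have e : δ / 4 * (1 / W0) * W0 ^ 2 = δ / 4 * W0 := by field_simp
  have := mul_pos hδ hW0
  rw [e, hK]
  rcases le_total (W0 - W) 0 with h1 | h1
  · rw [max_eq_right h1]
    linarith
  · rw [max_eq_left h1]
    linarith

theorem good2 {δ β W W0 A : ℝ} (hδ : 0 < δ) (hδ1 : δ ≤ 1 / 2) (hW : 0 < W) (hW0 : 0 < W0)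
    (hβ : β ≤ 1 / W0) (hA : A * W0 ≤ 1 + δ / 8) (h : W ≤ (1 + δ / 2) * W0) :
    δ / 4 * β ≤ 1 / W - A * (1 - δ) := by
  refine (mul_le_mul_of_nonneg_left hβ (by positivity)).trans ?_
  refine le_of_mul_le_mul_right ?_ hW0
  have e : δ / 4 * (1 / W0) * W0 = δ / 4 := by field_simp
  have h1 : 1 - δ / 2 ≤ 1 / W * W0 := by
    rw [one_div_mul_eq_div, le_div_iff₀ hW]
    have := mul_le_mul_of_nonneg_left h (by linarith : 0 ≤ 1 - δ / 2)
    nlinarith [mul_nonneg (sq_nonneg δ) hW0.le]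
  have h2 := mul_le_mul_of_nonneg_right hA (by linarith : 0 ≤ 1 - δ)
  rw [e, sub_mul]
  nlinarith [sq_nonneg δ]

theorem bad1 {δ μ a W W0 K B k : ℝ} (hδ : 0 < δ) (hδ1 : δ ≤ 1 / 2) (ha : 0 < a) (h0 : a ≤ W0)
    (hW : 0 < W) (hW1 : W ≤ μ * a) (hμ : 1 ≤ μ) (hK : K = max (W0 - W) 0 + k)
    (hk : k ≤ δ / 8 * W0) (hB : B ≤ (1 - 7 / 8 * δ) * W0) :
    -(5 * (μ / a)) ≤ (2 * W0 - W - K - B) / W0 ^ 2 := by
  have hW0 : 0 < W0 := by linarith
  rw [le_div_iff₀ (by positivity)]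
  have h1 := max_le (by linarith : W0 - W ≤ W0) hW0.le
  have h2 : μ * W0 ≤ μ / a * W0 ^ 2 := by
    rw [div_mul_eq_mul_div, le_div_iff₀ ha]
    have := mul_le_mul_of_nonneg_left h0 (by positivity : 0 ≤ μ * W0)
    linarith
  have h3 := mul_le_mul_of_nonneg_left h0 (by linarith : 0 ≤ μ)
  have h4 := mul_le_mul_of_nonneg_right hμ hW0.le
  have h5 := mul_le_mul_of_nonneg_right hδ1 hW0.le
  have h6 := mul_pos hδ hW0
  linarith

theorem bad2 {δ μ a W W0 A : ℝ} (hδ : 0 < δ) (hδ1 : δ ≤ 1 / 2) (ha : 0 < a) (h0 : a ≤ W0)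
    (hW : 0 < W) (hμ : 1 ≤ μ) (hA0 : 0 < A) (hA : A * W0 ≤ 1 + δ / 8) :
    -(5 * (μ / a)) ≤ 1 / W - A * (1 - δ) := by
  have h1 : A ≤ 2 * (μ / a) := by
    rw [← mul_div_assoc, le_div_iff₀ ha]
    have := mul_le_mul_of_nonneg_left h0 hA0.le
    linarith
  have h2 : 0 ≤ 1 / W := by positivity
  have h3 : 0 ≤ μ / a := by positivity
  have := mul_pos hA0 hδ
  linarith

theorem sum {D μ a g q Q s n : ℝ} (hD : 2 ≤ D) (hμ : 1 ≤ μ) (ha : 0 < a) (hQ : 0 ≤ Q) (hn : 0 ≤ n)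
    (h : g ^ 2 ≤ 24 * s ^ 2 + 39 * μ ^ 2 * n) (hq : q ≤ Q + n) :
    (g ^ 2 + q) / (160 * D * μ ^ 3 * a) ≤
      1 / (μ * a) * Q + 1 / (μ * a) * s ^ 2 + 1 / D / 4 * (1 / (μ * a)) * n := by
  have hD0 : 0 < D := by linarith
  have hμ2 : 1 ≤ μ ^ 2 := one_le_pow₀ hμ
  have e : 1 / (μ * a) * Q + 1 / (μ * a) * s ^ 2 + 1 / D / 4 * (1 / (μ * a)) * n =
      (160 * D * μ ^ 2 * (Q + s ^ 2) + 40 * μ ^ 2 * n) / (160 * D * μ ^ 3 * a) := by
    field_simp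
    ring
  rw [e]
  refine div_le_div_of_nonneg_right ?_ (by positivity)
  have h1 : 24 ≤ 160 * D * μ ^ 2 := by nlinarith
  have h2 := mul_le_mul_of_nonneg_right h1 (add_nonneg hQ (sq_nonneg s))
  have h3 := mul_le_mul_of_nonneg_right hμ2 hn
  linarith

theorem kA {D A W : ℝ} (hD : 2 ≤ D) (hW : 0 < W) (hA : A * W ≤ 1 + 1 / D / 8) :
    A * (D - 2) / (D - 1) * W ^ 2 ≤ (1 - 7 / 8 * (1 / D)) * W := by
  have hD0 : 0 < D := by linarith
  have hD1 : 0 < D - 1 := by linarith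
  have hδ0 : 0 < 1 / D := by positivity
  have hfr : (D - 2) / (D - 1) ≤ 1 - 1 / D := by
    rw [div_le_iff₀ hD1]
    have : (1 - 1 / D) * (D - 1) = D - 2 + 1 / D := by field_simp; ring
    linarith
  have h1 : A * W * ((D - 2) / (D - 1)) ≤ (1 + 1 / D / 8) * (1 - 1 / D) :=
    mul_le_mul hA hfr (div_nonneg (by linarith) hD1.le) (by positivity)
  calc _ = A * W * ((D - 2) / (D - 1)) * W := by ring
    _ ≤ _ := mul_le_mul_of_nonneg_right (by nlinarith [sq_nonneg (1 / D)]) hW.le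

theorem kU {D p a U : ℝ} (hD : 2 ≤ D) (hp : 16 * D + 1 ≤ p) (ha : 0 < a) (hU : 0 < U) :
    2 * U / (p - 1) ≤ 1 / D / 8 * (a + U) := by
  have hD0 : 0 < D := by linarith
  have h1 : 2 * U / (p - 1) ≤ 2 * U / (16 * D) := by gcongr; linarith
  have e : 2 * U / (16 * D) = 1 / D / 8 * U := by field_simp; ring
  have : 0 < 1 / D / 8 * a := by positivity
  linarith

/-- The defect is bounded below by a sum of squares. -/
theorem low {D p a t V U w A g ε z q K : ℝ} (hD : 2 ≤ D) (hp : 2 ≤ p) (ha : 0 < a)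
    (hV0 : 0 ≤ V) (hU0 : 0 < U) (k1 : U ^ (p - 1) ≤ t ^ 2 + w ^ 2)
    (k2 : U < V → U ^ (p - 1) = t ^ 2 + w ^ 2) (hK : K = max (U - V) 0 + 2 * U / (p - 1))
    (hK0 : 0 < K) :
    A * (q - (ε ^ 2 / (D - 1) + z / D)) +
      (g + ε - w * (a + V) - ε * (a + V) / (a + U)) ^ 2 / (a + V) +
      (2 * (a + U) - (a + V) - K - A * (D - 2) / (D - 1) * (a + U) ^ 2) / (a + U) ^ 2 * ε ^ 2 +
      (1 / (a + V) - A * (1 - 1 / D)) * z + t ^ 2 * (V - U) ^ 2 / K ≤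
      Xc p a t V U w A g (g * ε) (ε ^ 2 + z) q := by
  have hD0 : 0 < D := by linarith
  have hD1 : 0 < D - 1 := by linarith
  have hW : 0 < a + V := by positivity
  have hW0 : 0 < a + U := by positivity
  have b1 := Pt2.breg hp hV0 hU0 k1 k2
  rw [← hK] at b1
  have id := Pt2.ident (D := D) (A := A) (t := t) (w := w) (g := g) (ε := ε) (z := z) (q := q)
    (X := V ^ p / p) (Y := U ^ p / p) hW.ne' hW0.ne' hK0.ne' hD0.ne' hD1.ne' a
  simp only [add_sub_cancel_left, add_sub_add_left_eq_sub] at id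
  have e0 : Xc p a t V U w A g (g * ε) (ε ^ 2 + z) q =
      (g ^ 2 + 2 * (g * ε) + (ε ^ 2 + z)) / (a + V) - V * t ^ 2 + V ^ p / p -
        ((w * (a + U)) ^ 2 / (a + U) - U * t ^ 2 + U ^ p / p) - A * (ε ^ 2 + z - q) -
        2 * (g * ε) / (a + U) - 2 * (w * (a + U)) / (a + U) * (g - w * (a + U)) := by
    unfold Xc
    field_simp
    ring
  rw [id] at e0
  have c4 : 0 ≤ (w * (V - U) - K * ε / (a + U)) ^ 2 / K := by positivity
  linarith

theorem main {D p a M μ t V U w A g P n q : ℝ} (hD : 2 ≤ D) (hp : 16 * D + 1 ≤ p) (ha : 0 < a)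
    (hV0 : 0 ≤ V) (hV : V ≤ M) (hU0 : 0 < U) (hU : U ≤ M) (hμ : a + M ≤ μ * a) (ht : 0 < t)
    (k1 : U ^ (p - 1) ≤ t ^ 2 + w ^ 2) (k2 : U < M → U ^ (p - 1) = t ^ 2 + w ^ 2)
    (hA0 : 1 / (a + M) ≤ A) (hA : A * (a + U) ≤ 1 + 1 / (8 * D)) (hg : 0 ≤ g) (hn : 0 ≤ n)
    (hP : P ^ 2 ≤ g ^ 2 * n) (hq : n ≤ D * q)
    (hq2 : (D - 1) * g ^ 2 * n + P ^ 2 ≤ D * (D - 1) * g ^ 2 * q) :
    (a + V ≤ (1 + 1 / (2 * D)) * (a + U) → 0 ≤ Xc p a t V U w A g P n q ∧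
      (Xc p a t V U w A g P n q = 0 → V = U ∧ g = w * (a + U))) ∧
    (4 * (w * (a + V)) ^ 2 ≤ g ^ 2 + 2 * P + n →
      (g ^ 2 + q) / (160 * D * μ ^ 3 * a) - 6 * μ * D / a * q ≤ Xc p a t V U w A g P n q ∧
      (a + V ≤ (1 + 1 / (2 * D)) * (a + U) →
        (g ^ 2 + q) / (160 * D * μ ^ 3 * a) ≤ Xc p a t V U w A g P n q)) := by
  have hD0 : 0 < D := by linarith
  have hp1 : 0 < p - 1 := by linarith
  have hM : 0 < M := hU0.trans_le hU
  have hμ1 : 1 ≤ μ := le_of_mul_le_mul_right (by linarith) ha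
  obtain ⟨ε, z, rfl, rfl, hz, hQ⟩ := split hD hg hn hP hq hq2
  obtain ⟨K, hK⟩ : ∃ K, K = max (U - V) 0 + 2 * U / (p - 1) := ⟨_, rfl⟩
  have hK0 : 0 < K := by
    have := le_max_right (U - V) 0
    rw [hK]
    positivity
  have hW : 0 < a + V := by positivity
  have hW0 : 0 < a + U := by positivity
  have hA1 : 0 < A := lt_of_lt_of_le (by positivity) hA0
  have low := low (A := A) (g := g) (ε := ε) (z := z) (q := q) hD (by linarith) ha hV0 hU0 k1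
    (fun h => k2 (h.trans_le hV)) hK hK0
  have hδ0 : 0 < 1 / D := by positivity
  have hδ1 : 1 / D ≤ 1 / 2 := one_div_le_one_div_of_le two_pos hD
  have d2 : 1 / (2 * D) = 1 / D / 2 := by field_simp
  have d8 : 1 / (8 * D) = 1 / D / 8 := by field_simp
  rw [d8] at hA
  rw [d2]
  have kU := kU hD hp ha hU0
  have kA := kA hD hW0 hA
  have hK' : K = max (a + U - (a + V)) 0 + 2 * U / (p - 1) := by
    rw [hK, add_sub_add_left_eq_sub]
  have hβ0 : 0 < 1 / (μ * a) := by positivity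
  have βA : 1 / (μ * a) ≤ A := (one_div_le_one_div_of_le (by positivity) hμ).trans hA0
  have βW : 1 / (μ * a) ≤ 1 / (a + V) := one_div_le_one_div_of_le hW (by linarith)
  have βU : 1 / (μ * a) ≤ 1 / (a + U) := one_div_le_one_div_of_le hW0 (by linarith)
  have g1 := good1 (W := a + V) hδ0 hW0 βU hK' kU kA
  have g2 := good2 hδ0 hδ1 hW hW0 βU hA
  have l1 := bad1 hδ0 hδ1 ha (by linarith) hW (by linarith) hμ1 hK' kU kA
  have l2 := bad2 hδ0 hδ1 ha (by linarith : a ≤ a + U) hW hμ1 hA1 hA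
  have hr : (a + V) / (a + U) ≤ μ := by
    rw [div_le_iff₀ hW0]
    have := mul_le_mul_of_nonneg_left (by linarith : a ≤ a + U) (by linarith : 0 ≤ μ)
    linarith
  have g0 := grad (g := g) (ε := ε) (w := w * (a + V))
    (s := g + ε - w * (a + V) - ε * (a + V) / (a + U)) hμ1 hz (by positivity) hr
  have q0 : q ≤ q - (ε ^ 2 / (D - 1) + z / D) + (ε ^ 2 + z) := by
    have h1 : ε ^ 2 / (D - 1) ≤ ε ^ 2 := div_le_self (sq_nonneg _) (by linarith)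
    have h2 : z / D ≤ z := div_le_self hz (by linarith)
    linarith
  have hQ0 := sub_nonneg.mpr hQ
  have i2 : 1 / D / 4 * (1 / (μ * a)) ≤ μ / a := by
    have ia : 1 / (a + U) ≤ 1 / a := one_div_le_one_div_of_le ha (by linarith)
    have i1 : 1 / a ≤ μ / a := by gcongr
    have := mul_le_mul_of_nonneg_right (by linarith : 1 / D / 4 ≤ 1) hβ0.le
    linarith
  have p0 : 0 < 1 / D / 4 * (1 / (μ * a)) := by positivity
  have e6 : 6 * μ * D / a * q = 6 * (μ / a) * (D * q) := by ring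
  have l6 : 6 * (μ / a) * (ε ^ 2 + z) ≤ 6 * (μ / a) * (D * q) :=
    mul_le_mul_of_nonneg_left hq (by positivity)
  have sm := sum (a := a) (g := g) (q := q) (s := g + ε - w * (a + V) - ε * (a + V) / (a + U)) hD
    hμ1 ha hQ0 hn
  have eZ : (g + ε) ^ 2 + z = g ^ 2 + 2 * (g * ε) + (ε ^ 2 + z) := by ring
  rw [eZ, mul_div_assoc ε] at g0
  rw [mul_div_assoc ε] at low sm
  generalize Xc p a t V U w A g (g * ε) (ε ^ 2 + z) q = X at *
  generalize q - (ε ^ 2 / (D - 1) + z / D) = Q at *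
  generalize (2 * (a + U) - (a + V) - K - A * (D - 2) / (D - 1) * (a + U) ^ 2) / (a + U) ^ 2 = ce
    at *
  generalize 1 / (a + V) - A * (1 - 1 / D) = cz at *
  generalize (g ^ 2 + q) / (160 * D * μ ^ 3 * a) = R at *
  generalize hs : g + ε - w * (a + V) - ε * ((a + V) / (a + U)) = s at *
  generalize 1 / (μ * a) = β at *
  have c7 : 0 ≤ t ^ 2 * (V - U) ^ 2 / K := by positivity
  have m1 : β * Q ≤ A * Q := mul_le_mul_of_nonneg_right βA hQ0
  have m2 : β * s ^ 2 ≤ s ^ 2 / (a + V) := by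
    rw [← one_div_mul_eq_div]
    exact mul_le_mul_of_nonneg_right βW (sq_nonneg _)
  refine ⟨fun h => ?_, fun h => ?_⟩
  · have p1 : 0 ≤ ce * ε ^ 2 := mul_nonneg (p0.le.trans (g1 h)) (sq_nonneg _)
    have p2 : 0 ≤ cz * z := mul_nonneg (p0.le.trans (g2 h)) hz
    have p3 : 0 ≤ A * Q := by positivity
    have p4 : 0 ≤ s ^ 2 / (a + V) := by positivity
    refine ⟨by linarith, fun h0 => ?_⟩
    have d7 : t ^ 2 * (V - U) ^ 2 / K = 0 := by linarith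
    have d5 : ce * ε ^ 2 = 0 := by linarith
    have d3 : s ^ 2 / (a + V) = 0 := by linarith
    have hVU : V = U := by
      rw [div_eq_zero_iff, mul_eq_zero, or_iff_left hK0.ne', or_iff_right (by positivity),
        pow_eq_zero_iff two_ne_zero, sub_eq_zero] at d7
      exact d7
    have hε : ε = 0 := by
      rw [mul_eq_zero, or_iff_right (p0.trans_le (g1 h)).ne', pow_eq_zero_iff two_ne_zero] at d5
      exact d5
    refine ⟨hVU, ?_⟩
    rw [div_eq_zero_iff, or_iff_left hW.ne', pow_eq_zero_iff two_ne_zero, ← hs, hε, hVU,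
      zero_mul] at d3
    linarith
  · have main := sm (g0 h rfl) q0
    refine ⟨?_, fun h' => ?_⟩
    · have l3 := mul_le_mul_of_nonneg_right l1 (sq_nonneg ε)
      have l4 := mul_le_mul_of_nonneg_right l2 hz
      have l5 := mul_le_mul_of_nonneg_right i2 hn
      linarith
    · have l3 := mul_le_mul_of_nonneg_right (g1 h') (sq_nonneg ε)
      have l4 := mul_le_mul_of_nonneg_right (g2 h') hz
      linarith

end Pool.Agent.MP_e4cac8_mp.Pt3
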