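import Pool.Agent.Mg.Fe4cac8.Ge90476
import Pool.Agent.Mg.Fe4cac8.G730c59
import Pool.Agent.Mg.Fe4cac8.G2fb23e

set_option linter.all false

section

/-! Auxiliary facts for the comparison at large exponents. -/

open Set MeasureTheory Filter Topology
open scoped ENNReal NNReal
open Pool.Agent.MP_0b7119_mp.G

namespace Pool.Agent.MP_e4cac8_mp.Vc3

variable {p a M Λ : ℝ}

/-- The capped lower component before scaling. -/
noncomputable def ww (p a M Λ s y t : ℝ) : ℝ :=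
  min (|y| / (a + Vc p a M Λ (s * y) (s * t))) (Λ * t)

theorem wc_eq {s t : ℝ} (hs : 0 < s) (ht : 0 ≤ t) (y : ℝ) :
    wc p a M Λ (s * y) (s * t) = s * ww p a M Λ s y t := by
  unfold wc ww
  rw [mul_min_of_nonneg _ _ hs.le, abs_mul, abs_of_pos hs, abs_of_nonneg (mul_nonneg hs.le ht),
    mul_div_assoc, mul_left_comm]

theorem inactive (hV : StVm) (hp : 2 ≤ p) (ha : 0 < a) (hM : 0 < M) (hΛ : 0 ≤ Λ) {s y t : ℝ}
    (hs : 0 < s) (ht : 0 ≤ t) (h : |y| ≤ Λ * t * (a + Vc p a M Λ (s * y) (s * t))) :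
    Vc p a M Λ (s * y) (s * t) = Vm p a M (s * y) (s * t) ∧
      ww p a M Λ s y t = |y| / (a + Vm p a M (s * y) (s * t)) := by
  obtain ⟨h1, h2⟩ := (facts hV hp ha hM hΛ (s * y) (s * t)).2.2.2.2 (by
    rw [abs_mul, abs_of_pos hs, abs_of_nonneg (mul_nonneg hs.le ht)]
    linarith [mul_le_mul_of_nonneg_left h hs.le])
  rw [wc_eq hs ht, abs_mul, abs_of_pos hs, mul_div_assoc] at h2
  exact ⟨h1, mul_left_cancel₀ hs.ne' h2⟩

theorem prof (hV : StVm) (hp : 2 ≤ p) (ha : 0 < a) (hM : 0 < M) (hΛ : 0 ≤ Λ) {k : ℕ}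
    {c b A s : ℝ} {φ : ℝ → ℝ} (hs : 0 < s) (h0 : ∀ r, 0 ≤ φ r)
    (i0 : IntegrableOn (fun r => φ r ^ 2 * r ^ k) (Ioi 0) volume)
    (i1 : IntegrableOn (fun r => deriv φ r ^ 2 * r ^ k) (Ioi 0) volume)
    (i2 : IntegrableOn (fun r => Vc p a M Λ (s * deriv φ r) (s * φ r) ^ p * r ^ k) (Ioi 0) volume)
    (nrm : c * ∫ r in Ioi (0 : ℝ), Vc p a M Λ (s * deriv φ r) (s * φ r) ^ p * r ^ k ≤ A ^ p)
    (en : ∫ r in Ioi (0 : ℝ), (2 * ww p a M Λ s (deriv φ r) (φ r) * |deriv φ r| -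
      (a + Vc p a M Λ (s * deriv φ r) (s * φ r)) * ww p a M Λ s (deriv φ r) (φ r) ^ 2 -
      (Vc p a M Λ (s * deriv φ r) (s * φ r) - b) * φ r ^ 2) * r ^ k ≤ 0)
    (h : ∀ᵐ r : ℝ, 0 < r → |deriv φ r| ≤ Λ * φ r * (a + Vc p a M Λ (s * deriv φ r) (s * φ r))) :
    Prof k c a b p A M s φ := by
  have h1 := (ae_restrict_iff' (μ := volume) (measurableSet_Ioi (a := (0 : ℝ)))).mpr h
  have h2 : (fun r => Vc p a M Λ (s * deriv φ r) (s * φ r) ^ p * r ^ k) =ᵐ[volume.restrict (Ioi 0)]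
      fun r => Vm p a M (s * deriv φ r) (s * φ r) ^ p * r ^ k := by
    filter_upwards [h1] with r hr
    rw [(inactive hV hp ha hM hΛ hs (h0 r) hr).1]
  refine ⟨i0, i1, i2.congr h2, by rwa [← integral_congr_ae h2], le_of_eq_of_le ?_ en⟩
  refine integral_congr_ae ?_
  filter_upwards [h1] with r hr
  obtain ⟨e1, e2⟩ := inactive hV hp ha hM hΛ hs (h0 r) hr
  have := ((hV p a M hp ha hM).2 (s * deriv φ r) (s * φ r)).1
  rw [e1, e2, ← sq_abs (deriv φ r)]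
  field_simp
  ring

theorem consts {D μ C a R : ℝ} (hD : 2 ≤ D) (hμ : 1 ≤ μ) (hC : 1 ≤ C) (ha : 0 < a)
    (h : 34 * (123840 * D ^ 2 * C) ^ 2 * μ ^ 14 ≤ R) :
    2 * ((1 + (4 * μ) ^ 2) / R) ≤ 1 / (128 * μ ^ 2) ∧
      6 * μ * D / a * (C * √((1 + (4 * μ) ^ 2) / R) * (1 / (1 / (128 * μ ^ 2)) + μ ^ 2)) <
        1 / (160 * D * μ ^ 3 * a) := by
  have hD0 : 0 < D := by linarith
  have hK : 128 ≤ 123840 * D ^ 2 * C := by nlinarith [mul_le_mul_of_nonneg_left hC (sq_nonneg D)]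
  have e : 6 * μ * D / a * (C * √((1 + (4 * μ) ^ 2) / R) * (1 / (1 / (128 * μ ^ 2)) + μ ^ 2)) =
      123840 * D ^ 2 * C * μ ^ 6 * √((1 + (4 * μ) ^ 2) / R) / (160 * D * μ ^ 3 * a) := by
    field_simp
    ring
  rw [e]
  generalize 123840 * D ^ 2 * C = K at *
  have hK0 : 0 < K := by linarith
  have hμ2 : 1 ≤ μ ^ 2 := one_le_pow₀ hμ
  have h1 : (1 + (4 * μ) ^ 2) / R ≤ 1 / (2 * (K * μ ^ 6) ^ 2) := by
    refine (div_le_div₀ (by positivity) (by linarith : _ ≤ 17 * μ ^ 2) (by positivity) h).trans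
      (le_of_eq ?_)
    field_simp
    ring
  constructor
  · have h2 : 128 * μ ^ 2 ≤ (K * μ ^ 6) ^ 2 := by
      have h3 : μ ^ 2 ≤ (μ ^ 6) ^ 2 := by
        rw [← pow_mul]
        exact pow_le_pow_right₀ hμ (by norm_num)
      rw [mul_pow]
      exact mul_le_mul (by nlinarith) h3 (by positivity) (by positivity)
    have h4 := one_div_le_one_div_of_le (by positivity) h2
    have e2 : 1 / (2 * (K * μ ^ 6) ^ 2) = 1 / (K * μ ^ 6) ^ 2 / 2 := by field_simp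
    linarith
  · refine div_lt_div_of_pos_right ?_ (by positivity)
    rw [mul_comm, ← lt_div_iff₀ (by positivity), Real.sqrt_lt' (by positivity), div_pow, one_pow]
    refine h1.trans_lt (one_div_lt_one_div_of_lt (by positivity) ?_)
    have : 0 < (K * μ ^ 6) ^ 2 := by positivity
    linarith

/-- The pointwise bounds on and off the set where the upper spinor is small. -/
theorem point (hV : StVm) {D μ s t y V A g P n q o : ℝ} (hD : 2 ≤ D) (hp : 16 * D + 1 ≤ p)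
    (ha : 0 < a) (hV0 : 0 ≤ V) (hVM : V < M) (hμ : a + M ≤ μ * a) (hs : 0 < s) (ht : 0 < t)
    (hs1 : 1 ≤ (1 + (4 * μ) ^ 2) * s ^ 2) (hA0 : 1 / (a + M) ≤ A)
    (hA : A * (a + Vc p a M (4 * μ) (s * y) (s * t)) ≤ 1 + 1 / (8 * D)) (hg : 0 ≤ g) (hn : 0 ≤ n)
    (hP : P ^ 2 ≤ g ^ 2 * n) (hq : n ≤ D * q)
    (hq2 : (D - 1) * g ^ 2 * n + P ^ 2 ≤ D * (D - 1) * g ^ 2 * q)
    (el : V ^ (p - 1) = t ^ 2 + o ^ 2) (hZ : g ^ 2 + 2 * P + n = ((a + V) * o) ^ 2) {X : ℝ}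
    (hX : X = Xc p a (s * t) V (Vc p a M (4 * μ) (s * y) (s * t)) (s * ww p a M (4 * μ) s y t) A
      (s * g) (s ^ 2 * P) (s ^ 2 * n) (s ^ 2 * q)) :
    (t ^ 2 ≤ 1 / (128 * μ ^ 2) * (t ^ 2 + o ^ 2) →
      s ^ 2 * (1 / (160 * D * μ ^ 3 * a)) * (q + g ^ 2) - s ^ 2 * (6 * μ * D / a) * q ≤ X) ∧
    (¬ t ^ 2 ≤ (1 + (4 * μ) ^ 2) / (1 + 1 / (2 * D)) ^ (p - 1) * (t ^ 2 + o ^ 2) →
      0 ≤ X ∧ (t ^ 2 ≤ 1 / (128 * μ ^ 2) * (t ^ 2 + o ^ 2) →
        s ^ 2 * (1 / (160 * D * μ ^ 3 * a)) * (q + g ^ 2) ≤ X) ∧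
      (X = 0 → V = Vc p a M (4 * μ) (s * y) (s * t) ∧
        g = ww p a M (4 * μ) s y t * (a + Vc p a M (4 * μ) (s * y) (s * t)))) := by
  have hM : 0 < M := hV0.trans_lt hVM
  have hp2 : 2 ≤ p := by linarith
  have hμ1 : 1 ≤ μ := le_of_mul_le_mul_right (by linarith) ha
  have hΛ : 0 ≤ 4 * μ := by linarith
  have hst := mul_pos hs ht
  obtain ⟨⟨-, f1⟩, ⟨f2, f3⟩, f4, f5, -⟩ := facts hV hp2 ha hM hΛ (s * y) (s * t)
  have f0 := pos hV hp2 ha hM hΛ (s * y) hst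
  have f6 := le_pow hV hp2 ha hM hΛ (y := s * y) (t := s * t)
  rw [wc_eq hs ht.le] at f2 f3 f4 f5
  rw [abs_of_pos hst] at f3
  generalize Vc p a M (4 * μ) (s * y) (s * t) = U at *
  generalize ww p a M (4 * μ) s y t = w at *
  have s4 : 0 ≤ s ^ 4 := by positivity
  obtain ⟨m1, m2⟩ := Pt3.main (g := s * g) (P := s ^ 2 * P) (n := s ^ 2 * n) (q := s ^ 2 * q) hD hp
    ha hV0 hVM.le f0 f1 hμ hst f4 f5 hA0 hA (by positivity) (by positivity)
    (by linarith [mul_le_mul_of_nonneg_left hP s4])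
    (by linarith [mul_le_mul_of_nonneg_left hq (sq_nonneg s)])
    (by linarith [mul_le_mul_of_nonneg_left hq2 s4])
  rw [← hX] at m1 m2
  have low : t ^ 2 ≤ 1 / (128 * μ ^ 2) * (t ^ 2 + o ^ 2) →
      4 * (s * w * (a + V)) ^ 2 ≤ (s * g) ^ 2 + 2 * (s ^ 2 * P) + s ^ 2 * n := by
    intro h
    rw [one_div_mul_eq_div, le_div_iff₀ (by positivity)] at h
    have h1 := pow_le_pow_left₀ f2 f3 2
    have h2 := mul_le_mul_of_nonneg_right (one_le_pow₀ (n := 2) hμ1) (sq_nonneg t)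
    have h3 : 64 * μ ^ 2 * t ^ 2 ≤ o ^ 2 := by nlinarith [sq_nonneg t]
    have h4 : 4 * (s * w) ^ 2 ≤ s ^ 2 * o ^ 2 := by
      linarith [mul_le_mul_of_nonneg_left h3 (sq_nonneg s)]
    calc _ = 4 * (s * w) ^ 2 * (a + V) ^ 2 := by ring
      _ ≤ s ^ 2 * o ^ 2 * (a + V) ^ 2 := mul_le_mul_of_nonneg_right h4 (sq_nonneg _)
      _ = s ^ 2 * (g ^ 2 + 2 * P + n) := by rw [hZ]; ring
      _ = _ := by ring
  have e1 : ((s * g) ^ 2 + s ^ 2 * q) / (160 * D * μ ^ 3 * a) =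
      s ^ 2 * (1 / (160 * D * μ ^ 3 * a)) * (q + g ^ 2) := by ring
  rw [e1] at m2
  refine ⟨fun h => le_of_eq_of_le (by ring) (m2 (low h)).1, fun h => ?_⟩
  have hδ : 0 < 1 / (2 * D) := by positivity
  have good : a + V ≤ (1 + 1 / (2 * D)) * (a + U) := by
    by_contra hn
    apply h
    have h1 : (1 + 1 / (2 * D)) * U ≤ V := by nlinarith [mul_pos hδ ha]
    have h2 := f6 (by nlinarith [mul_pos hδ f0])
    have h3 := Real.rpow_le_rpow (by positivity) h1 (by linarith : 0 ≤ p - 1)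
    rw [Real.mul_rpow (by positivity) f0.le, el] at h3
    have h4 : 0 < (1 + 1 / (2 * D)) ^ (p - 1) := by positivity
    rw [div_mul_eq_mul_div, le_div_iff₀ h4]
    generalize (1 + 1 / (2 * D)) ^ (p - 1) = R at *
    have h5 := (mul_le_mul_of_nonneg_left h2 h4.le).trans h3
    calc t ^ 2 * R ≤ (1 + (4 * μ) ^ 2) * s ^ 2 * (t ^ 2 * R) :=
          le_mul_of_one_le_left (by positivity) hs1
      _ = (1 + (4 * μ) ^ 2) * (R * (s * t) ^ 2) := by ring
      _ ≤ _ := mul_le_mul_of_nonneg_left h5 (by positivity)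
  refine ⟨(m1 good).1, fun h' => (m2 (low h')).2 good, fun h0 => ?_⟩
  obtain ⟨q1, q2⟩ := (m1 good).2 h0
  exact ⟨q1, mul_left_cancel₀ hs.ne' (q2.trans (mul_assoc _ _ _))⟩

theorem absorb {E : Type} [MeasurableSpace E] {μ : Measure E} {Ω L₁ L₂ : Set E} {X G q : E → ℝ}
    {c C θ : ℝ} (m₁ : MeasurableSet L₁) (m₂ : MeasurableSet L₂) (s₁ : L₁ ⊆ L₂) (s₂ : L₂ ⊆ Ω)
    (iX : IntegrableOn X Ω μ) (iG : IntegrableOn G Ω μ) (iq : IntegrableOn q Ω μ)
    (hG : ∀ x, 0 ≤ G x) (hX : ∫ x in Ω, X x ∂μ ≤ 0)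
    (h : ∀ᵐ x ∂μ.restrict Ω, (x ∈ L₂ → c * G x - C * q x ≤ X x) ∧
      (x ∉ L₁ → 0 ≤ X x ∧ (x ∈ L₂ → c * G x ≤ X x)))
    (hq : C * ∫ x in L₁, q x ∂μ ≤ θ * ∫ x in L₂, G x ∂μ) (hθ : θ < c) :
    ∀ᵐ x ∂μ, x ∈ L₂ → G x = 0 := by
  have i₂ := (iG.integrable.indicator m₂).const_mul c
  have i₁ := (iq.integrable.indicator m₁).const_mul C
  have h1 := integral_mono_ae (i₂.sub i₁) iX.integrable (by
    filter_upwards [h] with x hx
    simp only [Pi.sub_apply]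
    by_cases a₁ : x ∈ L₁
    · rw [indicator_of_mem a₁, indicator_of_mem (s₁ a₁)]
      exact hx.1 (s₁ a₁)
    · rw [indicator_of_notMem a₁, mul_zero, sub_zero]
      by_cases a₂ : x ∈ L₂
      · rw [indicator_of_mem a₂]
        exact (hx.2 a₁).2 a₂
      · rw [indicator_of_notMem a₂, mul_zero]
        exact (hx.2 a₁).1)
  simp only [Pi.sub_apply] at h1
  rw [integral_sub i₂ i₁, integral_const_mul, integral_const_mul, integral_indicator m₂,
    integral_indicator m₁, Measure.restrict_restrict_of_subset s₂,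
    Measure.restrict_restrict_of_subset (s₁.trans s₂)] at h1
  have h2 : 0 ≤ ∫ x in L₂, G x ∂μ := integral_nonneg hG
  have h3 := (integral_eq_zero_iff_of_nonneg hG (iG.mono_set s₂)).mp
    (le_antisymm (by nlinarith) h2)
  rwa [EventuallyEq, ae_restrict_iff' m₂] at h3

end Pool.Agent.MP_e4cac8_mp.Vc3

end

section

/-! The comparison with the rearrangement at large exponents. -/

open Set MeasureTheory Filter Topology
open scoped ENNReal NNReal
open Pool.Agent.MP_0b7119_mp.G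

namespace Pool.Agent.MP_e4cac8_mp

set_option linter.unusedSectionVars false

variable {E S : Type} [NormedAddCommGroup E] [InnerProductSpace ℝ E] [FiniteDimensional ℝ E]
  [MeasurableSpace E] [BorelSpace E] [NormedAddCommGroup S] [InnerProductSpace ℂ S]
  [CompleteSpace S] [FiniteDimensional ℂ S] {d : ℕ}
  {e : OrthonormalBasis (Fin d) ℝ E} {α : Fin d → S →L[ℂ] S} {β : S →L[ℂ] S} {m : ℝ}

theorem Vc3.meas_Low {u w : E → S} (hu : Continuous u) (hw : Continuous w) (c : ℝ) :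
    MeasurableSet (Low c u w) :=
  (measurableSet_lt measurable_const hu.norm.measurable).inter
    (measurableSet_le (hu.norm.measurable.pow_const 2)
      (((hu.norm.measurable.pow_const 2).add (hw.norm.measurable.pow_const 2)).const_mul c))

theorem Vc3.pos_int {a b p A : ℝ} {V : E → ℝ} {u : E → S} (ha : 0 < a) (hb : 0 < b) (hp : 2 ≤ p)
    (hVp : PotR p A V) (hu : Strong e α a b V u)
    (iZW : Integrable (fun x => ‖Zf e α u x‖ ^ 2 / (a + V x)) volume)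
    (iU : Integrable (fun x => (V x - b) * ‖u x‖ ^ 2) volume) :
    0 < ∫ x in {x | 0 < ‖u x‖}, V x ^ p := by
  have cu : Continuous u := hu.reg.c1.continuous
  have hΩ : MeasurableSet {x | 0 < ‖u x‖} := measurableSet_lt measurable_const cu.norm.measurable
  have iρ : Integrable (fun x => ‖u x‖ ^ 2) volume := JD.int_sq hu.reg.l2
  have hW : ∀ x, 0 < a + V x := fun x => by linarith [hVp.nonneg x]
  refine (integral_nonneg fun x => Real.rpow_nonneg (hVp.nonneg x) p).lt_of_ne fun h => ?_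
  have h1 := (integral_eq_zero_iff_of_nonneg (fun x => Real.rpow_nonneg (hVp.nonneg x) p)
    hVp.int.integrableOn).mp h.symm
  rw [EventuallyEq, ae_restrict_iff' hΩ] at h1
  have h2 : ∫ x, b * ‖u x‖ ^ 2 ≤ 0 := by
    refine le_trans (integral_mono_ae (iρ.const_mul b) (iZW.sub iU) ?_) hu.en
    filter_upwards [h1] with x hx
    have h3 : 0 ≤ ‖Zf e α u x‖ ^ 2 / (a + V x) := div_nonneg (sq_nonneg _) (hW x).le
    rcases (norm_nonneg (u x)).eq_or_lt with h4 | h4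
    · simp only [Pi.sub_apply, ← h4]
      simpa using h3
    · have h5 : V x = 0 := (Real.rpow_eq_zero (hVp.nonneg x) (by linarith)).mp (hx h4)
      simp only [Pi.sub_apply, h5] at h3 ⊢
      linarith
  obtain ⟨x, hx⟩ := hu.ne
  have h6 : 0 < ∫ x, b * ‖u x‖ ^ 2 := integral_pos_of_integrable_nonneg_nonzero (x := x)
    (by fun_prop) (iρ.const_mul b) (fun x => by positivity)
    (mul_pos hb (pow_pos (norm_pos_iff.mpr hx) 2)).ne'
  linarith

theorem Vc3.hq (hc : Ctx α β m) (hA : StAlg e α) {u : E → S} (hu : Reg e u) (x : E)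
    (hx : 0 < ‖u x‖) : 0 ≤ qf e u x ∧ qf e u x ≤ G2 e u x ∧ gf u x ^ 2 ≤ G2 e u x := by
  have hd : (2 : ℝ) ≤ d := by exact_mod_cast hc.two
  have h1 := (sq_nonneg _).trans ((hA u hu).2.2.1 x (norm_pos_iff.mp hx)).2.2.1
  have h2 : 0 ≤ qf e u x := nonneg_of_mul_nonneg_right h1 (by linarith)
  have h3 : qf e u x = G2 e u x - gf u x ^ 2 := rfl
  exact ⟨h2, by nlinarith, by linarith⟩

theorem Vc3.int_nl (hc : Ctx α β m) (hA : StAlg e α) {u : E → S} (hu : Reg e u) {κ : ℝ → ℝ}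
    {K : ℝ} (mκ : Measurable κ) (κ0 : ∀ τ, 0 ≤ κ τ) (bκ : ∀ τ, |κ τ| ≤ K) :
    IntegrableOn (fun x => avg κ (‖u x‖ ^ 2) * (nf e α u x - qf e u x) +
      κ (‖u x‖ ^ 2) * (2 * Pf e α u x)) {x | 0 < ‖u x‖} volume := by
  obtain ⟨⟨-, mP, mn, mq, -, -⟩, -, hpt, -⟩ := hA u hu
  have mρ : Measurable fun x => ‖u x‖ := hu.c1.continuous.norm.measurable
  have hΩ : MeasurableSet {x | 0 < ‖u x‖} := measurableSet_lt measurable_const mρ
  have hK : 0 ≤ K := (abs_nonneg _).trans (bκ 0)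
  refine ((hu.dl2.integrableOn (s := {x | 0 < ‖u x‖})).const_mul (K * (2 * d + 2))).mono'
    (((((Cmp.meas_avg mκ bκ).comp (mρ.pow_const 2)).mul (mn.sub mq)).add
      ((mκ.comp (mρ.pow_const 2)).mul (mP.const_mul 2))).aestronglyMeasurable) ?_
  filter_upwards [ae_restrict_mem hΩ] with x hx
  obtain ⟨q1, q2, q3⟩ := Vc3.hq hc hA hu x hx
  obtain ⟨-, p2, p3, -⟩ := hpt x (norm_pos_iff.mp hx)
  have hav := Cmp.avg_mem κ0 (fun τ => (le_abs_self _).trans (bκ τ)) (pow_pos hx 2)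
  have hn0 : 0 ≤ nf e α u x := sq_nonneg _
  have p4 : nf e α u x ≤ d * G2 e u x := p3.trans (by gcongr)
  have p5 : |2 * Pf e α u x| ≤ gf u x ^ 2 + nf e α u x :=
    abs_le_of_sq_le_sq (by nlinarith [sq_nonneg (gf u x ^ 2 - nf e α u x)])
      (add_nonneg (sq_nonneg _) hn0)
  have p7 : 0 ≤ d * G2 e u x := hn0.trans p4
  have p6 : |nf e α u x - qf e u x| ≤ (d + 1) * G2 e u x := by
    rw [abs_le]
    constructor <;> linarith
  refine (norm_add_le _ _).trans ?_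
  rw [norm_mul, norm_mul, Real.norm_of_nonneg hav.1]
  calc _ ≤ K * ((d + 1) * G2 e u x) + K * ((d + 1) * G2 e u x) :=
        add_le_add (mul_le_mul hav.2 p6 (abs_nonneg _) hK)
          (mul_le_mul (bκ _) (p5.trans (by linarith)) (abs_nonneg _) hK)
    _ = _ := by ring

open Cmp in
theorem stCmp3 (hc : Ctx α β m) (hV : StVm) (hN : StNL e α) (hA : StAlg e α) (hA2 : StAlg2 e α)
    (hCap : StCap) (hNB : StNB e α) : StCmp3 e α := by
  obtain ⟨C, hC1, hNB⟩ := hNB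
  have hd : (2 : ℝ) ≤ d := by exact_mod_cast hc.two
  refine ⟨34 * (123840 * d ^ 2 * C) ^ 2, by positivity, ?_⟩
  intro a b p A M₀ M μ V u w L φ y ha hb h0 hM hμ haM hbμ ⟨hp16, hB1, hB2⟩ hVp hVM hu hpair hR hre
  have hp' : 2 < p := by linarith
  have hp := hp'.le
  have hΛ : 0 ≤ 4 * μ := by linarith
  have hM0 : 0 < M := h0.trans_lt hM
  obtain ⟨⟨mg, -, -, mq, cZ, -⟩, hZ, hpt, -⟩ := hA u hu.reg
  have hvm := fun y t => (Vc3.facts hV hp ha hM0 hΛ y t).1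
  have hcp : (0 : ℝ) < Module.finrank ℝ E * om E := by
    rw [finrank_eq e]
    exact mul_pos (by linarith) om_pos
  have cu : Continuous u := hu.reg.c1.continuous
  have mρ : Measurable fun x => ‖u x‖ := cu.norm.measurable
  have my : Measurable fun x => y ‖u x‖ := hre.meas.comp mρ
  have hΩ : MeasurableSet {x | 0 < ‖u x‖} := measurableSet_lt measurable_const mρ
  have hΩ' : {x | u x ≠ 0} = {x | 0 < ‖u x‖} := by
    ext x
    exact norm_pos_iff.symm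
  have iρ : Integrable (fun x => ‖u x‖ ^ 2) volume := JD.int_sq hu.reg.l2
  have hG0 : ∀ x, 0 ≤ G2 e u x := fun x => Finset.sum_nonneg fun _ _ => sq_nonneg _
  have hg0 : ∀ x, 0 ≤ gf u x := fun x => norm_nonneg _
  have hq := Vc3.hq hc hA hu.reg
  have iG := hu.reg.dl2.integrableOn (s := {x | 0 < ‖u x‖})
  have ig : IntegrableOn (fun x => gf u x ^ 2) {x | 0 < ‖u x‖} volume :=
    iG.mono' (mg.pow_const 2).aestronglyMeasurable (by
      filter_upwards [ae_restrict_mem hΩ] with x hx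
      rw [Real.norm_of_nonneg (sq_nonneg _)]
      exact (hq x hx).2.2)
  have iq : IntegrableOn (qf e u) {x | 0 < ‖u x‖} volume := iG.sub ig
  have iy := int_y mρ hre iρ ig
  have hW : ∀ x, 0 < a + V x := fun x => by linarith [hVp.nonneg x]
  have bdd : ∀ {μ : Measure E} {f w : E → ℝ} (K : ℝ), Integrable f μ → Measurable w →
      (∀ x, |w x| ≤ K) → Integrable (fun x => w x * f x) μ := fun K hf hw hK =>
    hf.bdd_mul hw.aestronglyMeasurable (Eventually.of_forall hK)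
  have binv : ∀ v : ℝ, 0 ≤ v → |1 / (a + v)| ≤ 1 / a := fun v hv => by
    rw [abs_of_pos (by positivity)]
    exact one_div_le_one_div_of_le ha (by linarith)
  have bsub : ∀ v : ℝ, 0 ≤ v → v ≤ M → |v - b| ≤ M + b := fun v h1 h2 => by
    rw [abs_le]
    constructor <;> linarith
  have iZ : Integrable (fun x => ‖Zf e α u x‖ ^ 2) volume :=
    (hu.reg.dl2.const_mul d).mono' (cZ.norm.pow 2).aestronglyMeasurable
      (Eventually.of_forall fun x => by rw [Real.norm_of_nonneg (sq_nonneg _)]; exact hZ x)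
  have iZW : Integrable (fun x => ‖Zf e α u x‖ ^ 2 / (a + V x)) volume := by
    simpa only [one_div_mul_eq_div] using bdd (w := fun x => 1 / (a + V x)) (1 / a) iZ
      ((hVp.meas.const_add a).const_div 1) fun x => binv _ (hVp.nonneg x)
  have iU : Integrable (fun x => (V x - b) * ‖u x‖ ^ 2) volume :=
    bdd (M + b) iρ (hVp.meas.sub_const b) fun x => bsub _ (hVp.nonneg x) ((hVM x).trans hM.le)
  have hpos := Vc3.pos_int ha hb hp hVp hu iZW iU
  obtain ⟨s, hs, hJ⟩ := Vc3.exists_scale (μ := volume.restrict {x | 0 < ‖u x‖}) hV hp ha hΛ h0 hM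
    my mρ iρ.integrableOn (ae_restrict_mem hΩ) hVp.nonneg hVM hVp.int.integrableOn hpos
  have hs1 : 1 ≤ (1 + (4 * μ) ^ 2) * s ^ 2 := by
    refine Vc3.scale_ge hp (fun x => (hvm _ _).1) hVp.nonneg ?_ hVp.int.integrableOn hpos hJ
    filter_upwards [ae_restrict_of_ae hpair.el] with x hx
    refine (Vc3.pow_le hV hp ha hM0 hΛ _ _).trans ?_
    rw [hx, mul_pow s, ← mul_assoc]
    exact mul_le_mul_of_nonneg_left (by linarith [sq_nonneg ‖w x‖]) (by positivity)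
  have iv := Vc3.int_Vc hV hp ha hM0 hΛ my mρ (iρ.integrableOn (s := {x | 0 < ‖u x‖})) s
  have hav := fun x (hx : 0 < ‖u x‖) => Vc3.avg_mem hV hp' ha hM0 hΛ hre.meas s hx
  have mv : Measurable fun t => Vc p a M (4 * μ) (s * y t) (s * t) :=
    Vc3.meas_Vc hV hp ha hM0 (hre.meas.const_mul s) (measurable_id.const_mul s)
  have mw : Measurable fun t => Vc3.ww p a M (4 * μ) s (y t) t :=
    ((continuous_abs.measurable.comp hre.meas).div (mv.const_add a)).min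
      (measurable_id.const_mul _)
  have w0 : ∀ σ t, 0 ≤ t → 0 ≤ Vc3.ww p a M (4 * μ) s σ t := fun σ t ht =>
    le_min (div_nonneg (abs_nonneg _) (by linarith [(hvm (s * σ) (s * t)).1])) (by positivity)
  have mvρ : Measurable fun x => Vc p a M (4 * μ) (s * y ‖u x‖) (s * ‖u x‖) := mv.comp mρ
  have mwρ : Measurable fun x => Vc3.ww p a M (4 * μ) s (y ‖u x‖) ‖u x‖ := mw.comp mρ
  have iw : IntegrableOn (fun x => Vc3.ww p a M (4 * μ) s (y ‖u x‖) ‖u x‖ ^ 2) {x | 0 < ‖u x‖}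
      volume :=
    (iρ.integrableOn.const_mul ((4 * μ) ^ 2)).mono' (mwρ.pow_const 2).aestronglyMeasurable
      (Eventually.of_forall fun x => by
        rw [Real.norm_of_nonneg (sq_nonneg _), ← mul_pow]
        exact pow_le_pow_left₀ (w0 _ _ (norm_nonneg _)) (min_le_right _ _) 2)
  have imul : ∀ f : E → ℝ, Measurable f → IntegrableOn (fun x => f x ^ 2) {x | 0 < ‖u x‖} volume →
      IntegrableOn (fun x => Vc3.ww p a M (4 * μ) s (y ‖u x‖) ‖u x‖ * f x) {x | 0 < ‖u x‖}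
        volume := fun f mf hf =>
    (iw.add hf).mono' (mwρ.mul mf).aestronglyMeasurable (Eventually.of_forall fun x => by
      simp only [Pi.add_apply]
      generalize Vc3.ww p a M (4 * μ) s (y ‖u x‖) ‖u x‖ = z
      rw [Real.norm_eq_abs, abs_le]
      constructor <;> nlinarith [sq_nonneg (z - f x), sq_nonneg (z + f x)])
  have i4 := imul _ mg ig
  have i5 := imul _ my iy
  have ya : ∀ t, |y t| = y t := fun t => abs_of_nonneg (hre.ynn t).1
  have i2 : IntegrableOn (fun x => 2 * Vc3.ww p a M (4 * μ) s (y ‖u x‖) ‖u x‖ * |y ‖u x‖| -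
      (a + Vc p a M (4 * μ) (s * y ‖u x‖) (s * ‖u x‖)) *
        Vc3.ww p a M (4 * μ) s (y ‖u x‖) ‖u x‖ ^ 2 -
      (Vc p a M (4 * μ) (s * y ‖u x‖) (s * ‖u x‖) - b) * ‖u x‖ ^ 2) {x | 0 < ‖u x‖} volume := by
    simp only [ya, mul_assoc (2 : ℝ)]
    exact ((i5.integrable.const_mul 2).sub (bdd (a + M) iw (mvρ.const_add a) fun x =>
      abs_le.mpr ⟨by linarith [(hvm (s * y ‖u x‖) (s * ‖u x‖)).1],
        by linarith [(hvm (s * y ‖u x‖) (s * ‖u x‖)).2]⟩)).sub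
      (bdd (M + b) iρ.integrableOn (mvρ.sub_const b) fun x => bsub _ (hvm _ _).1 (hvm _ _).2)
  have hiso := iso_real hre (C := fun t => Vc3.ww p a M (4 * μ) s (y t) (max t 0))
    (((continuous_abs.measurable.comp hre.meas).div ((Vc3.meas_Vc hV hp ha hM0
      (hre.meas.const_mul s) ((measurable_id.max measurable_const).const_mul s)).const_add a)).min
      ((measurable_id.max measurable_const).const_mul _))
    (fun t => w0 _ _ (le_max_right _ _))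
    (by simpa only [max_eq_left (norm_nonneg _)] using i5)
    (by simpa only [max_eq_left (norm_nonneg _), gf] using i4)
  simp only [max_eq_left (norm_nonneg _)] at hiso
  set κ : ℝ → ℝ := fun τ => 1 / (a + Vc p a M (4 * μ) (s * y √τ) (s * √τ)) with hκ
  have mκ : Measurable κ := ((mv.comp measurable_id.sqrt).const_add a).const_div 1
  have bκ : ∀ τ, |κ τ| ≤ 1 / a := fun τ => binv _ (hvm _ _).1
  have κ0 : ∀ τ, 0 ≤ κ τ := fun τ =>
    div_nonneg zero_le_one (by linarith [(hvm (s * y √τ) (s * √τ)).1])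
  have hnl := hN u hu.reg κ mκ ⟨_, bκ⟩
  rw [hΩ'] at hnl
  have i3 := Vc3.int_nl hc hA hu.reg mκ κ0 bκ
  obtain ⟨t0, -⟩ := transfer2 mρ hre (G := fun _ t => t ^ 2) (by fun_prop) (fun _ _ => rfl)
    (by simp) hcp iρ.integrableOn
  obtain ⟨t1, -⟩ := transfer2 mρ hre (G := fun s _ => s ^ 2) (hre.meas.pow_const 2)
    (fun _ _ => neg_sq _) (by simp) hcp iy
  obtain ⟨t2, t2'⟩ := transfer2 mρ hre (G := fun σ t => Vc p a M (4 * μ) (s * σ) (s * t) ^ p)
    (mv.pow_const p) (fun _ _ => by simp only [mul_neg, Vc3.Vc_neg])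
    (by simp only [mul_zero, Vc3.Vc_zero hp hV ha hM0, Real.zero_rpow (by linarith : p ≠ 0)])
    hcp iv
  obtain ⟨-, t3⟩ := transfer2 mρ hre (G := fun σ t => 2 * Vc3.ww p a M (4 * μ) s σ t * |σ| -
      (a + Vc p a M (4 * μ) (s * σ) (s * t)) * Vc3.ww p a M (4 * μ) s σ t ^ 2 -
      (Vc p a M (4 * μ) (s * σ) (s * t) - b) * t ^ 2)
    ((((mw.const_mul 2).mul (continuous_abs.measurable.comp hre.meas)).sub
      ((mv.const_add a).mul (mw.pow_const 2))).sub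
      ((mv.sub_const b).mul (measurable_id.pow_const 2)))
    (fun _ _ => by simp only [Vc3.ww, mul_neg, Vc3.Vc_neg, abs_neg]) (by simp [Vc3.ww]) hcp i2
  have i6 : IntegrableOn (fun x => max (|y ‖u x‖| - 4 * μ * ‖u x‖ *
      (a + Vc p a M (4 * μ) (s * y ‖u x‖) (s * ‖u x‖))) 0 ^ 2) {x | 0 < ‖u x‖} volume :=
    iy.mono' ((((continuous_abs.measurable.comp my).sub ((mρ.const_mul _).mul
      (mvρ.const_add a))).max measurable_const).pow_const 2).aestronglyMeasurable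
      (Eventually.of_forall fun x => by
        rw [Real.norm_of_nonneg (sq_nonneg _), ya]
        have := (hvm (s * y ‖u x‖) (s * ‖u x‖)).1
        exact pow_le_pow_left₀ (le_max_right _ _)
          (max_le (sub_le_self _ (by positivity)) (hre.ynn _).1) 2)
  obtain ⟨-, t4⟩ := transfer2 mρ hre (G := fun σ t =>
      max (|σ| - 4 * μ * t * (a + Vc p a M (4 * μ) (s * σ) (s * t))) 0 ^ 2)
    ((((continuous_abs.measurable.comp hre.meas).sub ((measurable_id.const_mul _).mul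
      (mv.const_add a))).max measurable_const).pow_const 2)
    (fun _ _ => by simp only [mul_neg, Vc3.Vc_neg, abs_neg]) (by simp) hcp i6
  have hnrm : Module.finrank ℝ E * om E * ∫ r in Ioi (0 : ℝ),
      Vc p a M (4 * μ) (s * deriv φ r) (s * φ r) ^ p * r ^ (Module.finrank ℝ E - 1) ≤ A ^ p := by
    rw [← t2', hJ]
    exact (setIntegral_le_integral hVp.int (Eventually.of_forall fun x =>
      Real.rpow_nonneg (hVp.nonneg x) p)).trans hVp.le
  have hk : 1 ≤ Module.finrank ℝ E - 1 := by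
    rw [finrank_eq e]
    have := hc.two
    omega
  obtain ⟨hT, hT2⟩ := hCap _ _ a b p A M μ (4 * μ)
    (fun r => Vc p a M (4 * μ) (s * deriv φ r) (s * φ r)) φ hk ha hb.le hμ haM hbμ le_rfl hR
    (Vc3.meas_Vc hV hp ha hM0 ((measurable_deriv φ).const_mul s)
      (hre.lip.continuous.measurable.const_mul s))
    (fun r => hvm _ _) t2 hnrm hre.anti ⟨L, hre.lip⟩ hre.nonneg t0 t1
    (fun r => Vc3.ww p a M (4 * μ) s (deriv φ r) (φ r)) fun _ => rfl
  have hT' := mul_nonneg hcp.le hT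
  rw [← t3] at hT'
  have hsplit := integral_add_compl hΩ (iZW.sub iU)
  have hcompl : ∫ x in {x | 0 < ‖u x‖}ᶜ, (‖Zf e α u x‖ ^ 2 / (a + V x) - (V x - b) * ‖u x‖ ^ 2) =
      ∫ x in {x | 0 < ‖u x‖}ᶜ, ‖Zf e α u x‖ ^ 2 / (a + V x) :=
    setIntegral_congr_fun hΩ.compl fun x hx => by
      have : ‖u x‖ = 0 := le_antisymm (not_lt.mp hx) (norm_nonneg _)
      simp [this]
  have hZ0 : ∀ x, 0 ≤ ‖Zf e α u x‖ ^ 2 / (a + V x) := fun x => div_nonneg (sq_nonneg _) (hW x).le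
  have hc0 : 0 ≤ ∫ x in {x | 0 < ‖u x‖}ᶜ, ‖Zf e α u x‖ ^ 2 / (a + V x) := integral_nonneg hZ0
  simp only [Pi.sub_apply] at hsplit
  rw [hcompl] at hsplit
  obtain ⟨X, hX⟩ : ∃ X : E → ℝ, ∀ x, X x = Xc p a (s * ‖u x‖) (V x)
    (Vc p a M (4 * μ) (s * y ‖u x‖) (s * ‖u x‖)) (s * Vc3.ww p a M (4 * μ) s (y ‖u x‖) ‖u x‖)
    (avg κ (‖u x‖ ^ 2)) (s * gf u x) (s ^ 2 * Pf e α u x) (s ^ 2 * nf e α u x)
    (s ^ 2 * qf e u x) := ⟨_, fun _ => rfl⟩
  have hzu : ∀ᵐ x, ‖Zf e α u x‖ ^ 2 = ((a + V x) * ‖w x‖) ^ 2 := by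
    filter_upwards [hpair.zu] with x hx
    rw [hx, norm_smul, norm_smul, Complex.norm_I, one_mul, Complex.norm_real,
      Real.norm_of_nonneg (hW x).le]
  have hXp := fun x (hx : 0 < ‖u x‖) (h1 : V x ^ (p - 1) = ‖u x‖ ^ 2 + ‖w x‖ ^ 2)
      (h2 : ‖Zf e α u x‖ ^ 2 = ((a + V x) * ‖w x‖) ^ 2) =>
    Vc3.point hV hd hp16 ha (hVp.nonneg x) ((hVM x).trans_lt hM) haM hs hx hs1 (hav x hx).1
      ((hav x hx).2.trans (by rwa [mul_pow, show (4 : ℝ) ^ 2 = 16 by norm_num])) (hg0 x)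
      (sq_nonneg _) (hpt x (norm_pos_iff.mp hx)).2.1 (hpt x (norm_pos_iff.mp hx)).2.2.1
      (hA2 u hu.reg x (norm_pos_iff.mp hx)) h1 ((hpt x (norm_pos_iff.mp hx)).1.symm.trans h2) (hX x)
  have hXe : X =ᵐ[volume.restrict {x | 0 < ‖u x‖}] fun x =>
      s ^ 2 * (‖Zf e α u x‖ ^ 2 / (a + V x) - (V x - b) * ‖u x‖ ^ 2) -
      s ^ 2 * (2 * Vc3.ww p a M (4 * μ) s (y ‖u x‖) ‖u x‖ * |y ‖u x‖| -
        (a + Vc p a M (4 * μ) (s * y ‖u x‖) (s * ‖u x‖)) *
          Vc3.ww p a M (4 * μ) s (y ‖u x‖) ‖u x‖ ^ 2 -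
        (Vc p a M (4 * μ) (s * y ‖u x‖) (s * ‖u x‖) - b) * ‖u x‖ ^ 2) +
      p⁻¹ * (V x ^ p - Vc p a M (4 * μ) (s * y ‖u x‖) (s * ‖u x‖) ^ p) -
      s ^ 2 * (avg κ (‖u x‖ ^ 2) * (nf e α u x - qf e u x) + κ (‖u x‖ ^ 2) * (2 * Pf e α u x)) -
      2 * s ^ 2 * (Vc3.ww p a M (4 * μ) s (y ‖u x‖) ‖u x‖ * gf u x -
        Vc3.ww p a M (4 * μ) s (y ‖u x‖) ‖u x‖ * y ‖u x‖) := by
    filter_upwards [ae_restrict_mem hΩ] with x hx
    simp only [hX, Xc, hκ, Real.sqrt_sq (norm_nonneg _), (hpt x (norm_pos_iff.mp hx)).1, ya]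
    ring
  obtain ⟨k4, k5⟩ := lin (μ := volume.restrict {x | 0 < ‖u x‖})
    (f₁ := fun x => ‖Zf e α u x‖ ^ 2 / (a + V x) - (V x - b) * ‖u x‖ ^ 2) (s ^ 2) p⁻¹ (2 * s ^ 2)
    (iZW.sub iU).restrict i2.integrable hVp.int.restrict iv i3.integrable i4.integrable
    i5.integrable
  rw [← integral_congr_ae hXe, hnl, hJ] at k5
  have iX := k4.congr hXe.symm
  have s2 : 0 < s ^ 2 := by positivity
  have m1 := mul_nonneg s2.le hT'
  have m2 := mul_nonneg s2.le hc0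
  have m3 := mul_nonneg s2.le (sub_nonneg.mpr hiso)
  have m4 := mul_le_mul_of_nonneg_left (hsplit.le.trans hu.en) s2.le
  have hiso' : ∫ x in {x | 0 < ‖u x‖}, Vc3.ww p a M (4 * μ) s (y ‖u x‖) ‖u x‖ * gf u x =
      ∫ x in {x | 0 < ‖u x‖}, Vc3.ww p a M (4 * μ) s (y ‖u x‖) ‖u x‖ *
        ‖fderiv ℝ (fun x => ‖u x‖) x‖ := rfl
  rw [hiso'] at k5
  obtain ⟨c1, c2⟩ := Vc3.consts hd hμ hC1 ha hB2
  have hε : 0 < (1 + (4 * μ) ^ 2) / (1 + 1 / (2 * (d : ℝ))) ^ (p - 1) := by positivity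
  have c3 : 2 * (1 / (128 * μ ^ 2)) < 1 := by
    rw [mul_one_div, div_lt_one (by positivity)]
    linarith [one_le_pow₀ (n := 2) hμ]
  have hnb := hNB a b p M μ _ _ V u w hp ha hb.le hμ haM hbμ hVp.meas
    (fun x => ⟨hVp.nonneg x, (hVM x).trans hM.le⟩) hpair hε c1 c3.le
  have sub : Low ((1 + (4 * μ) ^ 2) / (1 + 1 / (2 * (d : ℝ))) ^ (p - 1)) u w ⊆
      Low (1 / (128 * μ ^ 2)) u w := fun x hx =>
    ⟨hx.1, hx.2.trans (mul_le_mul_of_nonneg_right (by linarith) (by positivity))⟩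
  have cw := hpair.rw.c1.continuous
  have hnull := Vc3.absorb (Ω := {x | 0 < ‖u x‖}) (c := s ^ 2 * (1 / (160 * d * μ ^ 3 * a)))
    (C := s ^ 2 * (6 * μ * d / a)) (Vc3.meas_Low cu cw _) (Vc3.meas_Low cu cw _) sub
    (fun x hx => hx.1) iX iG iq hG0 (by linarith) (by
      filter_upwards [ae_restrict_mem hΩ, ae_restrict_of_ae hpair.el, ae_restrict_of_ae hzu]
        with x hx h1 h2
      obtain ⟨q1, q2⟩ := hXp x hx h1 h2
      have h3 : qf e u x + gf u x ^ 2 = G2 e u x := sub_add_cancel _ _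
      rw [h3] at q1 q2
      exact ⟨fun h => q1 h.2, fun h => ⟨(q2 fun h' => h ⟨hx, h'⟩).1,
        fun h4 => (q2 fun h' => h ⟨hx, h'⟩).2.1 h4.2⟩⟩)
    ((mul_le_mul_of_nonneg_left hnb (by positivity)).trans_eq (mul_assoc _ _ _).symm)
    (by rw [mul_assoc]; exact mul_lt_mul_of_pos_left c2 s2)
  have hXq : ∀ᵐ x ∂volume.restrict {x | 0 < ‖u x‖}, 0 ≤ X x ∧ (X x = 0 →
      V x = Vc p a M (4 * μ) (s * y ‖u x‖) (s * ‖u x‖) ∧
      gf u x = Vc3.ww p a M (4 * μ) s (y ‖u x‖) ‖u x‖ *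
        (a + Vc p a M (4 * μ) (s * y ‖u x‖) (s * ‖u x‖))) := by
    filter_upwards [ae_restrict_mem hΩ, ae_restrict_of_ae hpair.el, ae_restrict_of_ae hzu,
      ae_restrict_of_ae hnull] with x hx h1 h2 h3
    have h4 := (hXp x hx h1 h2).2 fun h' => by
      have h5 := sub ⟨hx, h'⟩
      have h6 := hZ x
      rw [h3 h5, mul_zero, h2] at h6
      have h7 : ‖w x‖ = 0 := (mul_eq_zero.mp (pow_eq_zero_iff two_ne_zero |>.mp
        (le_antisymm h6 (sq_nonneg _)))).resolve_left (hW x).ne'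
      have h8 := h5.2
      rw [h7] at h8
      have h9 := mul_lt_mul_of_pos_right c3 (pow_pos (show 0 < ‖u x‖ from hx) 2)
      linarith [pow_pos (show 0 < ‖u x‖ from hx) 2]
    exact ⟨h4.1, h4.2.2⟩
  have hX0 : 0 ≤ᵐ[volume.restrict {x | 0 < ‖u x‖}] X := hXq.mono fun x hx => hx.1
  have hI0 := integral_nonneg_of_ae hX0
  have hen := nonpos_of_mul_nonpos_right (a := s ^ 2 * (Module.finrank ℝ E * om E)) (by
    rw [mul_assoc, ← t3]
    linarith) (mul_pos s2 hcp)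
  have hin := hT2 hen
  refine ⟨s, hs, Vc3.prof hV hp ha hM0 hΛ hs hre.nonneg t0 t1 t2 hnrm hen hin, ?_, ?_⟩
  · have h1 := (integral_eq_zero_iff_of_nonneg_ae hX0 iX).mp (le_antisymm (by linarith) hI0)
    rw [integral_eq_zero_of_ae (f := fun r => max (|deriv φ r| - 4 * μ * φ r *
      (a + Vc p a M (4 * μ) (s * deriv φ r) (s * φ r))) 0 ^ 2 * r ^ (Module.finrank ℝ E - 1)) (by
        filter_upwards [(ae_restrict_iff' measurableSet_Ioi).mpr hin] with r hr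
        simp [max_eq_right (sub_nonpos.mpr hr)]), mul_zero] at t4
    have h2 := (integral_eq_zero_iff_of_nonneg (fun x => sq_nonneg _) i6).mp t4
    have h3 := (ae_restrict_iff' hΩ).mp (hXq.and (h1.and h2))
    filter_upwards [h3] with x hx hx0
    obtain ⟨⟨-, h4⟩, h5, h6⟩ := hx (norm_pos_iff.mpr hx0)
    obtain ⟨h7, h8⟩ := h4 h5
    obtain ⟨e1, e2⟩ := Vc3.inactive hV hp ha hM0 hΛ hs (norm_nonneg (u x)) (sub_nonpos.mp
      (max_eq_right_iff.mp ((pow_eq_zero_iff two_ne_zero).mp h6)))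
    have h9 := (hvm (s * y ‖u x‖) (s * ‖u x‖)).1
    rw [e1] at h7 h8 h9
    rw [e2, ya, div_mul_cancel₀ _ (by positivity)] at h8
    exact ⟨h7, h8⟩
  · have h1 := (integral_eq_zero_iff_of_nonneg hZ0 (iZW.integrableOn (s := {x | 0 < ‖u x‖}ᶜ))).mp
      (le_antisymm (nonpos_of_mul_nonpos_right (a := s ^ 2) (by linarith) s2) hc0)
    rw [EventuallyEq, ae_restrict_iff' hΩ.compl] at h1
    filter_upwards [h1, hu.zero] with x hx hz hx0
    have h2 := hx (by simp [hx0])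
    refine hz hx0 ?_
    simpa [(hW x).ne'] using h2

end Pool.Agent.MP_e4cac8_mp

end
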