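import Pool.Agent.Mg.Fe4cac8.G7be784
import Pool.Agent.Mg.Fe4cac8.G2fb23e

set_option linter.all false

/-! The radial comparison. -/

open Set MeasureTheory Filter Topology
open scoped ENNReal NNReal
open Pool.Agent.MP_0b7119_mp.G

namespace Pool.Agent.MP_e4cac8_mp

namespace Rad4

theorem ex_small {k : ℕ} {φ : ℝ → ℝ} {τ : ℝ} (hτ : 0 < τ)
    (hi : IntegrableOn (fun r => φ r ^ 2 * r ^ k) (Ioi 0) volume) : ∃ R, φ R < τ := by
  by_contra hne
  push Not at hne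
  have h1 : IntegrableOn (fun r => φ r ^ 2 * r ^ k) (Ioi 1) volume :=
    hi.mono_set (Ioi_subset_Ioi zero_le_one)
  have h2 : IntegrableOn (fun _ : ℝ => τ ^ 2) (Ioi (1 : ℝ)) volume := by
    refine Integrable.mono' h1 aestronglyMeasurable_const ?_
    refine (ae_restrict_iff' measurableSet_Ioi).2 (Eventually.of_forall fun r hr => ?_)
    rw [Real.norm_of_nonneg (by positivity)]
    have h3 : τ ^ 2 ≤ φ r ^ 2 := pow_le_pow_left₀ hτ.le (hne r) 2
    have h4 : (1 : ℝ) ≤ r ^ k := one_le_pow₀ (le_of_lt hr)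
    nlinarith [sq_nonneg (φ r)]
  rw [integrableOn_const_iff] at h2
  rcases h2 with h2 | h2
  · simp only [enorm_eq_zero] at h2
    exact (pow_pos hτ 2).ne' h2
  · simp at h2

theorem U_abs (P : Par) (s y t : ℝ) : P.U s |y| t = P.U s y t := by
  rcases abs_cases y with h | h <;> rw [h.1]
  unfold Par.U
  rw [mul_neg, Cmp.Vm_neg]

theorem L_abs (P : Par) (s y t : ℝ) (h : P.a + P.U s y t ≠ 0) :
    P.L s |y| y t = s ^ 2 * (y ^ 2 / (P.a + P.U s y t) - (P.U s y t - P.b) * t ^ 2) +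
      P.U s y t ^ P.p / P.p := by
  unfold Par.L Par.G Par.w
  rw [U_abs, ← sq_abs y]
  generalize P.U s y t ^ P.p / P.p = z
  field_simp
  ring

theorem int_en {k : ℕ} {ψ v : ℝ → ℝ} {a b M : ℝ} (ha : 0 < a) (hb : 0 < b) (hv : Measurable v)
    (h0 : ∀ r, 0 ≤ v r ∧ v r ≤ M) (hf : Fin2 k ψ) :
    IntegrableOn (fun r => (deriv ψ r ^ 2 / (a + v r) - (v r - b) * ψ r ^ 2) * r ^ k) (Ioi 0)
      volume := by
  have h1 : IntegrableOn (fun r => (a + v r)⁻¹ * (deriv ψ r ^ 2 * r ^ k)) (Ioi 0) volume := by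
    refine Integrable.bdd_mul (c := a⁻¹) hf.i1 (hv.const_add a).inv.aestronglyMeasurable
      (Eventually.of_forall fun r => ?_)
    have := (h0 r).1
    rw [Real.norm_of_nonneg (by positivity)]
    exact inv_anti₀ ha (by linarith)
  have h2 : IntegrableOn (fun r => (v r - b) * (ψ r ^ 2 * r ^ k)) (Ioi 0) volume := by
    refine Integrable.bdd_mul (c := M + b) hf.i0 (hv.sub_const b).aestronglyMeasurable
      (Eventually.of_forall fun r => ?_)
    have := h0 r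
    rw [Real.norm_eq_abs, abs_le]
    constructor <;> linarith [this.1, this.2]
  refine (h1.sub h2).congr (Eventually.of_forall fun r => ?_)
  simp only [Pi.sub_apply]
  ring

theorem int_pow {k : ℕ} {ψ : ℝ → ℝ} {p a M s : ℝ} (hV : StVm) (hp : 2 ≤ p) (ha : 0 < a)
    (hM : 0 < M) (hψ : Measurable ψ) (hf : Fin2 k ψ) :
    IntegrableOn (fun r => Vm p a M (s * deriv ψ r) (s * ψ r) ^ p * r ^ k) (Ioi 0) volume := by
  have hm := Cmp.meas_Vm hV hp ha hM ((measurable_deriv ψ).const_mul s) (hψ.const_mul s)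
  refine Integrable.mono' ((hf.i0.const_mul (M * s ^ 2)).add (hf.i1.const_mul (M * s ^ 2 / a ^ 2)))
    ((hm.pow_const p).mul (measurable_id.pow_const k)).aestronglyMeasurable ?_
  refine (ae_restrict_iff' measurableSet_Ioi).2 (Eventually.of_forall fun r hr => ?_)
  have hr' : (0 : ℝ) ≤ r ^ k := pow_nonneg (le_of_lt hr) k
  rw [Real.norm_of_nonneg (mul_nonneg (Real.rpow_nonneg ((hV p a M hp ha hM).2 _ _).1 _) hr')]
  refine (mul_le_mul_of_nonneg_right (Cmp.Vm_pow_le hV hp ha hM _ _) hr').trans_eq ?_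
  simp only [Pi.add_apply]
  ring

end Rad4

theorem stRad4 (hV : StVm) (hI : StInt) (hW : StWin) (hM : StMod) (hL : StL2) (h1 : StRad1)
    (h2 : StRad2) (hS : StSc) : StRad4 := by
  intro P ok k c A I J r₀ φ hk hkD hc hI0 hJ1 hJ2 hJA hr0 hT hΛ hTR han hlip hnn hfin h0 hb htl hms
  have hp : 2 ≤ P.p := by linarith [ok.hD, ok.hp]
  have ha := ok.ha
  have hb0 := ok.hb
  have hT0 : 0 < P.T := hb0.trans_le ok.bT
  have hM0 : 0 < P.M := by linarith [ok.TM]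
  have hLv : ∀ t, 0 ≤ t → t ≤ φ 0 → P.Lv t := fun t h1 h2 =>
    ⟨h1, (pow_le_pow_left₀ h1 h2 2).trans (h0.trans
      (Real.rpow_le_rpow (by linarith) (by linarith [ok.aM]) (by linarith)))⟩
  have hsc1 : P.Sc 1 := ⟨one_pos, by norm_num, by nlinarith [ok.hΛ]⟩
  have hj := (hW P ok 1 hsc1 0 (φ r₀) (hLv _ (hnn _) (han hr0.le))).2.2.1 htl
  have htl0 : 0 < tl P.p P.b := Real.sqrt_pos.2 (by positivity)
  obtain ⟨φ₁, φ₂, md⟩ := hM P ok k r₀ φ hkD hr0 hΛ han hlip hnn htl hj (Rad4.ex_small htl0 hfin.i0)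
  obtain ⟨f1, f2, hl2⟩ := hL P ok k r₀ φ φ₁ φ₂ hk hr0 han (hLv _ (hnn _) le_rfl) hfin md
  have h10 : φ₁ 0 ≤ φ 0 := md.le1 0 le_rfl
  have h20 : φ₂ 0 ≤ φ 0 := (md.le2 0 le_rfl hr0.le).trans h10
  have hn2 : 0 ≤ ∫ r in Ioi (0 : ℝ), φ₂ r ^ 2 * r ^ k :=
    setIntegral_nonneg measurableSet_Ioi fun r hr =>
      mul_nonneg (sq_nonneg _) (pow_nonneg (le_of_lt hr) k)
  obtain ⟨s, hs, hJ⟩ := hS P ok k c I J φ φ₂ {r | r₀ < r ∧ tl P.p P.b ≤ φ r} hc hI0 hJ1 hJ2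
    han.measurable md.a2.measurable (fun r hr => hLv _ (md.n2 r) ((md.a2 hr.le).trans h20))
    (md.d2.mono fun r h hr => (h hr).1) f2
    (by
      have e1 : P.T * (c * ∫ r in Ioi (0 : ℝ), φ₂ r ^ 2 * r ^ k) ≤
          (10 * P.b) * (c * (2 * ∫ r in Ioi (0 : ℝ), φ r ^ 2 * r ^ k)) :=
        mul_le_mul ok.Tb (mul_le_mul_of_nonneg_left hl2 hc.le) (by positivity) (by positivity)
      linarith)
    (measurableSet_Ioi.inter (measurableSet_le measurable_const han.measurable))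
    (fun r hr => hr0.trans hr.1)
    (fun r hr => ⟨hnn r, (md.eq1 r (hr0.trans hr.1).le hr.2).symm.trans_le (md.ge2 r hr.1.le),
      (pow_le_pow_left₀ (hnn r) (han (hr0.trans hr.1).le) 2).trans h0⟩) hms
  have hvm : Measurable fun r => P.U s (deriv φ₂ r) (φ₂ r) :=
    Cmp.meas_Vm hV hp ha hM0 ((measurable_deriv φ₂).const_mul s) (md.a2.measurable.const_mul s)
  have hvb : ∀ r, 0 ≤ P.U s (deriv φ₂ r) (φ₂ r) ∧ P.U s (deriv φ₂ r) (φ₂ r) ≤ P.M := fun r =>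
    ⟨((hV _ _ _ hp ha hM0).2 _ _).1, ((hV _ _ _ hp ha hM0).2 _ _).2.1⟩
  have hip : IntegrableOn (fun r => P.U s (deriv φ₂ r) (φ₂ r) ^ P.p * r ^ k) (Ioi 0) volume :=
    Rad4.int_pow hV hp ha hM0 md.a2.measurable f2
  have hie := Rad4.int_en ha hb0 hvm hvb f2
  have hE := hTR _ φ₂ hvm hvb hip (hJ.trans_le hJA) md.l2 f2.i0 f2.i1
  set E := ∫ r in Ioi (0 : ℝ), (deriv φ₂ r ^ 2 / (P.a + P.U s (deriv φ₂ r) (φ₂ r)) -
    (P.U s (deriv φ₂ r) (φ₂ r) - P.b) * φ₂ r ^ 2) * r ^ k with hEd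
  have hsum : c * ∫ r in Ioi (0 : ℝ), P.L s |deriv φ₂ r| (deriv φ₂ r) (φ₂ r) * r ^ k =
      c * s ^ 2 * E + J / P.p := by
    have e1 : ∫ r in Ioi (0 : ℝ), P.L s |deriv φ₂ r| (deriv φ₂ r) (φ₂ r) * r ^ k =
        s ^ 2 * E + (∫ r in Ioi (0 : ℝ), P.U s (deriv φ₂ r) (φ₂ r) ^ P.p * r ^ k) / P.p := by
      rw [hEd, ← integral_const_mul, ← integral_div, ← integral_add (hie.const_mul _)
        (hip.div_const _)]
      refine integral_congr_ae (Eventually.of_forall fun r => ?_)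
      have := (hvb r).1
      simp only
      rw [Rad4.L_abs P s _ _ (by positivity)]
      ring
    rw [e1, ← hJ]
    ring
  obtain ⟨r1, q1⟩ := h1 P ok s hs k r₀ φ φ₁ φ₂ hk han hlip (hLv _ (hnn _) le_rfl) hfin f1 md
  obtain ⟨r2, q2⟩ := h2 P ok s hs k r₀ φ φ₁ φ₂ hk hr0 hT (hLv _ (md.n1 _) h10) f1 f2 md
  have hs0 := hs.1
  have hE' : 0 ≤ c * s ^ 2 * E := by positivity
  have m1 := mul_le_mul_of_nonneg_left r1 hc.le
  have m2 := mul_le_mul_of_nonneg_left r2 hc.le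
  refine ⟨s, hs, by linarith, fun hle => ?_⟩
  have e1 := q1 (le_of_mul_le_mul_left (by linarith) hc)
  have e2 := q2 (le_of_mul_le_mul_left (by linarith) hc)
  have e3 : ∀ r, 0 < r → φ₂ r = φ r := fun r hr => (e2 r hr).trans (e1 r hr)
  have e4 : ∀ r, 0 < r → deriv φ₂ r = deriv φ r := fun r hr =>
    EventuallyEq.deriv_eq ((lt_mem_nhds hr).mono e3)
  have hE0 : E ≤ 0 := by
    by_contra hne
    have : 0 < c * s ^ 2 * E := mul_pos (by positivity) (not_le.1 hne)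
    linarith
  refine ⟨⟨hfin.i0, hfin.i1, Rad4.int_pow hV hp ha hM0 han.measurable hfin, ?_, ?_⟩, ?_⟩
  · refine le_trans (le_of_eq ?_) (hJ.trans_le hJA)
    congr 1
    refine setIntegral_congr_fun measurableSet_Ioi fun r hr => ?_
    simp only [e3 r hr, e4 r hr, Par.U]
  · refine le_trans (le_of_eq ?_) hE0
    refine setIntegral_congr_fun measurableSet_Ioi fun r hr => ?_
    simp only [e3 r hr, e4 r hr, Par.U]
  · filter_upwards [md.d1, md.d2] with r d1 d2 hr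
    obtain ⟨a1, a2, -⟩ := d1 hr
    have a3 := (d2 hr).1
    rw [a2 (e1 r hr), e1 r hr] at a1
    rw [e3 r hr, e4 r hr] at a3
    unfold Par.yc
    rw [max_eq_left a1, min_eq_left a3]

end Pool.Agent.MP_e4cac8_mp
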