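import Pool.Agent.Mg.Fe4cac8.G7be784

set_option linter.all false

section

/-! The constant terms along the large slope. -/

open Set MeasureTheory

namespace Pool.Agent.MP_e4cac8_mp

namespace G24

theorem facts {P : Par} (h : P.Ok) : 800 ≤ P.p ∧ 0 < P.M ∧ P.M ≤ P.T ∧ 0 < P.T ∧ 25 ≤ P.Λ ^ 2 := by
  have := h.hD
  have := h.hp
  have := h.ha
  have := h.hb
  have := h.aM
  have := h.bT
  have := h.TM
  have := h.hΛ
  exact ⟨by linarith, by linarith, by linarith, by linarith, by nlinarith⟩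

theorem basic (hV : StVm) (hI : StInt) (hW : StWin) {P : Par} (h : P.Ok) {s : ℝ} (hs : P.Sc s)
    {t : ℝ} (ht : P.Lv t) :
    0 ≤ P.U s (P.Λ * P.bt t) t ∧ P.U s (P.Λ * P.bt t) t ≤ P.M ∧ 0 ≤ P.w s (P.Λ * P.bt t) t ∧
    P.w s (P.Λ * P.bt t) t * (P.a + P.U s (P.Λ * P.bt t) t) = s * (P.Λ * P.bt t) ∧
    s ^ 2 * P.Λ ^ 2 * P.T * t ^ 2 ≤
      3 * (P.w s (P.Λ * P.bt t) t ^ 2 * (P.a + P.U s (P.Λ * P.bt t) t)) ∧
    P.w s (P.Λ * P.bt t) t ^ 2 * (P.a + P.U s (P.Λ * P.bt t) t) ≤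
      8 * (s ^ 2 * P.Λ ^ 2 * P.T * t ^ 2) ∧
    P.w s (P.Λ * P.bt t) t * P.jf t ≤ 8 * (s * P.Λ * √P.T * t) ∧
    P.U s (P.Λ * P.bt t) t ^ P.p ≤
      P.U s (P.Λ * P.bt t) t * ((s * t) ^ 2 + P.w s (P.Λ * P.bt t) t ^ 2) := by
  obtain ⟨p8, M0, -, T0, -⟩ := facts h
  obtain ⟨⟨-, -, j0, -, -, win, -⟩, -⟩ := hI P h
  obtain ⟨w1, w2, -⟩ := (hW P h s hs _ t ht).1 (win 0 t ht.1).2.2.2
  obtain ⟨v1, v2, v3, -⟩ := (hV P.p P.a P.M (by linarith) h.ha M0).2 (s * (P.Λ * P.bt t)) (s * t)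
  change 0 ≤ P.U s (P.Λ * P.bt t) t at v1
  change P.U s (P.Λ * P.bt t) t ≤ _ at v2
  change P.U s (P.Λ * P.bt t) t ^ _ ≤ _ + _ / (P.a + P.U s (P.Λ * P.bt t) t) ^ 2 at v3
  rw [← div_pow] at v3
  change _ ≤ _ + P.w s (P.Λ * P.bt t) t ^ 2 at v3
  have W0 : 0 < P.a + P.U s (P.Λ * P.bt t) t := by linarith [h.ha]
  have e : P.w s (P.Λ * P.bt t) t * (P.a + P.U s (P.Λ * P.bt t) t) = s * (P.Λ * P.bt t) :=
    div_mul_cancel₀ _ W0.ne'
  have jt := j0 t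
  have s0 := hs.1
  have t0 := ht.1
  have L0 : 0 < P.Λ := by linarith [h.hΛ]
  have e1 : s * (P.Λ * P.bt t) = s * P.Λ * √P.T * t * P.jf t := by
    unfold Par.bt
    ring
  have w0 : 0 ≤ P.w s (P.Λ * P.bt t) t := by
    refine div_nonneg ?_ W0.le
    rw [e1]
    positivity
  have e2 : (s * (P.Λ * P.bt t)) ^ 2 = s ^ 2 * P.Λ ^ 2 * P.T * t ^ 2 * P.jf t ^ 2 := by
    rw [e1]
    simp only [mul_pow, Real.sq_sqrt T0.le]
  have up : P.U s (P.Λ * P.bt t) t ^ P.p =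
      P.U s (P.Λ * P.bt t) t * P.U s (P.Λ * P.bt t) t ^ (P.p - 1) := by
    have := Real.rpow_add_one' (y := P.p - 1) v1 (by linarith)
    rw [sub_add_cancel] at this
    exact this.trans (mul_comm _ _)
  rw [← e] at e2
  rw [← e] at e1
  generalize P.w s (P.Λ * P.bt t) t = w at *
  generalize P.U s (P.Λ * P.bt t) t = U at *
  have K0 : 0 ≤ s ^ 2 * P.Λ ^ 2 * P.T * t ^ 2 := by positivity
  generalize s ^ 2 * P.Λ ^ 2 * P.T * t ^ 2 = K at *
  refine ⟨v1, v2, w0, e, ?_, ?_, ?_, ?_⟩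
  · refine le_of_mul_le_mul_right ?_ W0
    calc K * (P.a + U) ≤ K * (3 * P.jf t ^ 2) := by gcongr
      _ = _ := by linear_combination (-3) * e2
  · refine le_of_mul_le_mul_right ?_ W0
    calc w ^ 2 * (P.a + U) * (P.a + U) = K * P.jf t ^ 2 := by linear_combination e2
      _ ≤ K * (8 * (P.a + U)) := by gcongr
      _ = _ := by ring
  · refine le_of_mul_le_mul_right ?_ jt
    calc w * P.jf t * P.jf t = w * P.jf t ^ 2 := by ring
      _ ≤ w * (8 * (P.a + U)) := by gcongr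
      _ = _ := by linear_combination 8 * e1
  · rw [up]
    gcongr

theorem int_le (hV : StVm) (hI : StInt) (hW : StWin) {P : Par} (h : P.Ok) {s : ℝ} (hs : P.Sc s)
    {t t' ρ : ℝ} (h0 : 0 ≤ t') (h1 : t' ≤ t) (ht : P.Lv t) (r0 : 0 ≤ ρ)
    (r1 : 200 * ρ ≤ P.Λ * √P.T * P.jf t) :
    ρ * ∫ σ in t'..t, P.f s P.Λ σ ≤ 2 / 25 * (s ^ 2 * P.Λ ^ 2 * P.T * (t ^ 2 - t' ^ 2)) := by
  obtain ⟨-, -, -, T0, -⟩ := facts h
  obtain ⟨⟨-, -, j0, j1, -⟩, c⟩ := hI P h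
  have s0 := hs.1
  have jt := j0 t
  have t0 := ht.1
  have L0 : 0 < P.Λ := by linarith [h.hΛ]
  have b : ∀ σ ∈ Icc t' t, P.f s P.Λ σ ≤ 16 * (s ^ 2 * P.Λ * √P.T * t) / P.jf t := by
    intro σ hσ
    have σ0 := h0.trans hσ.1
    obtain ⟨-, -, -, -, -, -, b1, -⟩ := basic hV hI hW h hs (t := σ)
      ⟨σ0, (pow_le_pow_left₀ σ0 hσ.2 2).trans ht.2⟩
    have b2 := (j1 t σ σ0 hσ.2).2
    rw [le_div_iff₀ jt]
    refine le_of_mul_le_mul_right ?_ (j0 σ)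
    calc P.f s P.Λ σ * P.jf t * P.jf σ
        = 2 * s * P.jf t * (P.w s (P.Λ * P.bt σ) σ * P.jf σ) := by unfold Par.f; ring
      _ ≤ 2 * s * P.jf t * (8 * (s * P.Λ * √P.T * σ)) := by gcongr
      _ = 16 * (s ^ 2 * P.Λ * √P.T) * (σ * P.jf t) := by ring
      _ ≤ 16 * (s ^ 2 * P.Λ * √P.T) * (t * P.jf σ) := by gcongr
      _ = _ := by ring
  have i := intervalIntegral.integral_mono_on h1
    (((c s s0).2.2.1 P.Λ).intervalIntegrable (μ := volume) t' t) intervalIntegrable_const b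
  rw [intervalIntegral.integral_const, smul_eq_mul] at i
  have d0 : 0 ≤ t - t' := by linarith
  calc ρ * ∫ σ in t'..t, P.f s P.Λ σ
      ≤ ρ * ((t - t') * (16 * (s ^ 2 * P.Λ * √P.T * t) / P.jf t)) := by gcongr
    _ ≤ (P.Λ * √P.T * P.jf t / 200) * ((t - t') * (16 * (s ^ 2 * P.Λ * √P.T * t) / P.jf t)) := by
        gcongr
        linarith
    _ = 2 / 25 * (s ^ 2 * P.Λ ^ 2 * √P.T ^ 2 * (t * (t - t'))) := by
        field_simp
        ring
    _ ≤ _ := by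
        rw [Real.sq_sqrt T0.le]
        gcongr
        nlinarith

theorem ratio (hV : StVm) (hP : StVp) (hI : StInt) (hW : StWin) {P : Par} (h : P.Ok) {s : ℝ}
    (hs : P.Sc s) {t' θ : ℝ} (h0 : 0 < t') (h1 : 1 ≤ θ) (h2 : θ ≤ 10) (ht : P.Lv (θ * t'))
    (ht' : P.Lv t') : (1 + (θ ^ 2 - 1) / 2) * P.w s (P.Λ * P.bt t') t' ^ 2 ≤
      P.w s (P.Λ * P.bt (θ * t')) (θ * t') ^ 2 := by
  obtain ⟨p8, M0, -, T0, -⟩ := facts h
  obtain ⟨⟨-, -, j0, j1, -⟩, -⟩ := hI P h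
  obtain ⟨q1, q2, -⟩ := hP.1 P.p P.a P.M (by linarith) h.ha M0
  obtain ⟨a1, -, a3, a4, -⟩ := basic hV hI hW h hs ht
  obtain ⟨b1, -, b3, b4, -⟩ := basic hV hI hW h hs ht'
  have s0 := hs.1
  have a0 := h.ha
  have L0 : 0 < P.Λ := by linarith [h.hΛ]
  have θ0 : 0 < θ := by linarith
  obtain ⟨k1, k2⟩ := j1 (θ * t') t' h0.le (le_mul_of_one_le_left h0.le h1)
  have k3 : P.jf (θ * t') ≤ θ * P.jf t' := le_of_mul_le_mul_left (by linarith) h0
  have jt := j0 (θ * t')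
  have jt' := j0 t'
  have X1 : 1 ≤ θ ^ 2 := one_le_pow₀ h1
  have y1 : θ * (s * (P.Λ * P.bt t')) ≤ s * (P.Λ * P.bt (θ * t')) := by
    unfold Par.bt
    calc θ * (s * (P.Λ * (√P.T * t' * P.jf t'))) = s * (P.Λ * (√P.T * (θ * t') * P.jf t')) := by
          ring
      _ ≤ _ := by gcongr
  have y2 : s * (P.Λ * P.bt (θ * t')) ≤ θ ^ 2 * (s * (P.Λ * P.bt t')) := by
    unfold Par.bt
    calc s * (P.Λ * (√P.T * (θ * t') * P.jf (θ * t')))
        ≤ s * (P.Λ * (√P.T * (θ * t') * (θ * P.jf t'))) := by gcongr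
      _ = _ := by ring
  have y0 : 0 ≤ s * (P.Λ * P.bt (θ * t')) := by
    unfold Par.bt
    positivity
  have u1 : P.U s (P.Λ * P.bt (θ * t')) (θ * t') ≤
      (θ ^ 2) ^ (2 / (P.p - 1)) * P.U s (P.Λ * P.bt t') t' := by
    refine (q1 _ _ _ _ ?_ ?_).trans (q2 (θ ^ 2) _ _ X1)
    · rw [abs_of_nonneg y0]
      exact y2.trans (le_abs_self _)
    · rw [abs_of_nonneg (by positivity)]
      refine le_trans ?_ (le_abs_self _)
      calc s * (θ * t') = θ * 1 * (s * t') := by ring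
        _ ≤ θ * θ * (s * t') := by gcongr
        _ = _ := by ring
  have e0 : 0 ≤ 2 / (P.p - 1) := div_nonneg (by norm_num) (by linarith)
  have e1 : 2 / (P.p - 1) ≤ 1 / 399 := by
    rw [div_le_div_iff₀ (by linarith) (by norm_num)]
    linarith
  have E1 : 1 ≤ (θ ^ 2) ^ (2 / (P.p - 1)) := Real.one_le_rpow X1 e0
  have E2 : (θ ^ 2) ^ (2 / (P.p - 1)) ≤ 1 + (θ ^ 2 - 1) / 399 := by
    have := rpow_one_add_le_one_add_mul_self (s := θ ^ 2 - 1) (by linarith) e0 (by linarith)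
    rw [add_sub_cancel] at this
    refine this.trans ?_
    have := mul_le_mul_of_nonneg_right e1 (by linarith : 0 ≤ θ ^ 2 - 1)
    linarith
  have X2 : θ ^ 2 ≤ 100 := by nlinarith
  rw [← a4, ← b4] at y1
  generalize (θ ^ 2) ^ (2 / (P.p - 1)) = E at *
  generalize P.w s (P.Λ * P.bt (θ * t')) (θ * t') = w at *
  generalize P.w s (P.Λ * P.bt t') t' = w' at *
  generalize P.U s (P.Λ * P.bt (θ * t')) (θ * t') = U at *
  generalize P.U s (P.Λ * P.bt t') t' = U' at *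
  have W0 : 0 < P.a + U' := by linarith
  have c1 : θ * w' ≤ w * E := by
    refine le_of_mul_le_mul_right ?_ W0
    have : P.a + U ≤ E * (P.a + U') := by nlinarith
    calc θ * w' * (P.a + U') = θ * (w' * (P.a + U')) := by ring
      _ ≤ w * (P.a + U) := y1
      _ ≤ w * (E * (P.a + U')) := by gcongr
      _ = _ := by ring
  have c2 : (θ * w') ^ 2 ≤ (w * E) ^ 2 := pow_le_pow_left₀ (by positivity) c1 2
  have c3 : E ^ 2 * (1 + (θ ^ 2 - 1) / 2) ≤ θ ^ 2 := by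
    obtain ⟨z, hz⟩ : ∃ z, z = θ ^ 2 - 1 := ⟨_, rfl⟩
    have z0 : 0 ≤ z := by linarith
    have z1 : z ≤ 99 := by linarith
    rw [← hz] at E2 ⊢
    have d1 : E ^ 2 ≤ 1 + z / 150 := by
      refine (pow_le_pow_left₀ (by linarith) E2 2).trans ?_
      nlinarith
    calc E ^ 2 * (1 + z / 2) ≤ (1 + z / 150) * (1 + z / 2) := by gcongr
      _ ≤ 1 + z := by nlinarith
      _ = _ := by rw [hz]; ring
  refine le_of_mul_le_mul_right ?_ (by positivity : 0 < E ^ 2)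
  calc (1 + (θ ^ 2 - 1) / 2) * w' ^ 2 * E ^ 2 = E ^ 2 * (1 + (θ ^ 2 - 1) / 2) * w' ^ 2 := by ring
    _ ≤ θ ^ 2 * w' ^ 2 := by gcongr
    _ ≤ _ := by rwa [← mul_pow, ← mul_pow]

end G24

theorem stG2 (hV : StVm) (hP : StVp) (hI : StInt) (hW : StWin) : StG2 := by
  intro P h s hs t t' ρ h0 h1 ht r0 r1
  have ht' : P.Lv t' := ⟨h0, (pow_le_pow_left₀ h0 h1 2).trans ht.2⟩
  obtain ⟨p8, M0, MT, T0, L2⟩ := G24.facts h
  have i := G24.int_le hV hI hW h hs h0 h1 ht r0 r1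
  obtain ⟨a1, -, -, -, a5, -, -, a8⟩ := G24.basic hV hI hW h hs ht
  obtain ⟨b1, b2, -, -, b5, b6, -, -⟩ := G24.basic hV hI hW h hs ht'
  have s0 := hs.1
  have a0 := h.ha
  have b0 := h.hb
  have bT := h.bT
  have d0 : 0 ≤ t ^ 2 - t' ^ 2 := sub_nonneg.2 (pow_le_pow_left₀ h0 h1 2)
  have m : ∀ c x : ℝ, c ≤ P.T → 0 ≤ x → c * (s ^ 2 * x) ≤ s ^ 2 * P.Λ ^ 2 * P.T * x / 25 := by
    intro c x hc hx
    calc c * (s ^ 2 * x) ≤ P.T * (s ^ 2 * x) := by gcongr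
      _ = s ^ 2 * 25 * P.T * x / 25 := by ring
      _ ≤ _ := by gcongr
  have m1 := m P.T _ le_rfl d0
  have K0 : 0 ≤ s ^ 2 * P.Λ ^ 2 * P.T := by positivity
  unfold Par.G
  rcases le_or_gt (10 * t') t with c | c
  · have m2 := m P.b _ bT (sq_nonneg t)
    have m3 := m _ _ (b2.trans MT) (sq_nonneg t')
    have m4 : 0 ≤ P.U s (P.Λ * P.bt t') t' ^ P.p / P.p :=
      div_nonneg (Real.rpow_nonneg b1 _) (by linarith)
    have m5 : 0 ≤ P.b * (s ^ 2 * t' ^ 2) := by positivity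
    have m6 : s ^ 2 * P.Λ ^ 2 * P.T * (100 * t' ^ 2) ≤ s ^ 2 * P.Λ ^ 2 * P.T * t ^ 2 := by
      gcongr
      nlinarith
    have m7 : 0 ≤ s ^ 2 * P.Λ ^ 2 * P.T * t' ^ 2 := by positivity
    have m8 : P.U s (P.Λ * P.bt t) t ^ P.p / P.p ≤ P.U s (P.Λ * P.bt t) t ^ P.p / 800 :=
      div_le_div_of_nonneg_left (Real.rpow_nonneg a1 _) (by norm_num) p8
    have m9 : 0 ≤ P.U s (P.Λ * P.bt t) t * (s * t) ^ 2 := by positivity
    have m10 : 0 ≤ P.w s (P.Λ * P.bt t) t ^ 2 * P.a := by positivity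
    linarith
  · have t0 : 0 < t' := by linarith
    obtain ⟨θ, rfl⟩ : ∃ θ, t = θ * t' := ⟨t / t', (div_mul_cancel₀ _ t0.ne').symm⟩
    have r := G24.ratio hV hP hI hW h hs t0 (le_of_mul_le_mul_right (by linarith) t0)
      (le_of_mul_le_mul_right c.le t0) ht ht'
    have q := (hP.1 P.p P.a P.M (by linarith) a0 M0).2.2 (s * (P.Λ * P.bt (θ * t'))) (s * (θ * t'))
      _ b1 b2
    change -(P.w s (P.Λ * P.bt (θ * t')) (θ * t') ^ 2 * (P.a + P.U s (P.Λ * P.bt (θ * t')) (θ * t')))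
      - P.U s (P.Λ * P.bt (θ * t')) (θ * t') * _ + P.U s (P.Λ * P.bt (θ * t')) (θ * t') ^ P.p / P.p ≤
      -(P.w s (P.Λ * P.bt (θ * t')) (θ * t') ^ 2 * _) - _ + _ at q
    have m2 := m P.b _ bT d0
    have m3 : 0 ≤ P.U s (P.Λ * P.bt t') t' * (s ^ 2 * ((θ * t') ^ 2 - t' ^ 2)) := by positivity
    have z0 : 0 ≤ θ ^ 2 - 1 := by
      refine nonneg_of_mul_nonneg_left ?_ (by positivity : 0 < t' ^ 2)
      linarith
    have m4 := mul_le_mul_of_nonneg_right r (by linarith : 0 ≤ P.a + P.U s (P.Λ * P.bt t') t')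
    have m5 := mul_le_mul_of_nonneg_left b5 z0
    have m6 : 0 ≤ s ^ 2 * P.Λ ^ 2 * P.T * ((θ * t') ^ 2 - t' ^ 2) := by positivity
    linarith

end Pool.Agent.MP_e4cac8_mp

end

section

/-! The choice of the scale. -/

open Set MeasureTheory Filter Topology

namespace Pool.Agent.MP_e4cac8_mp

namespace Sc4

theorem low (hV : StVm) {p a M x y t : ℝ} (hp : 10 ≤ p) (ha : 0 < a) (hM : 0 < M) (x0 : 0 ≤ x)
    (hx : x ≤ (M / 2) ^ (p - 1)) (ht : 1024 * x ≤ t ^ 2) :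
    1024 * x ^ (p / (p - 1)) ≤ Vm p a M y t ^ p := by
  obtain ⟨a0, a1, -, a3, -⟩ := (hV p a M (by linarith) ha hM).2 y t
  have p1 : 0 < p - 1 := by linarith
  have q1 : 1 ≤ p / (p - 1) := (one_le_div p1).2 (by linarith)
  have e : ∀ v : ℝ, 0 ≤ v → (v ^ (p - 1)) ^ (p / (p - 1)) = v ^ p := fun v hv => by
    rw [← Real.rpow_mul hv, mul_div_cancel₀ _ p1.ne']
  rcases a1.eq_or_lt with h | h
  · have b1 := Real.rpow_le_rpow x0 hx (by linarith : 0 ≤ p / (p - 1))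
    have b2 : (2 : ℝ) ^ (10 : ℝ) ≤ 2 ^ p := Real.rpow_le_rpow_of_exponent_le one_le_two hp
    rw [e _ (by positivity)] at b1
    rw [h, show M = 2 * (M / 2) by ring, Real.mul_rpow two_pos.le (by positivity)]
    exact mul_le_mul (le_trans (by norm_num) b2) b1 (by positivity) (by positivity)
  · have b0 : 0 ≤ y ^ 2 / (a + Vm p a M y t) ^ 2 := by positivity
    have b1 := Real.rpow_le_rpow (by positivity)
      (by linarith [a3 h] : 1024 * x ≤ Vm p a M y t ^ (p - 1)) (by linarith : 0 ≤ p / (p - 1))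
    have b2 : (1024 : ℝ) ^ (1 : ℝ) ≤ 1024 ^ (p / (p - 1)) :=
      Real.rpow_le_rpow_of_exponent_le (by norm_num) q1
    rw [e _ a0, Real.mul_rpow (by norm_num) x0] at b1
    rw [Real.rpow_one] at b2
    exact (mul_le_mul_of_nonneg_right b2 (by positivity)).trans b1

end Sc4

theorem stSc (hV : StVm) (_hI : StInt) (hW : StWin) : StSc := by
  intro P hP k c I J φ ψ B c0 I0 J1 J2 _ hψ hL hd hF hT hB hBs hφ hbig
  have T0 : 0 < P.T := hP.hb.trans_le hP.bT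
  have M0 : 0 < P.M := by linarith [hP.TM]
  have p0 : 10 ≤ P.p := by linarith [hP.hD, hP.hp]
  have Λ0 : 0 < P.Λ := by linarith [hP.hΛ]
  obtain ⟨hc, hvm⟩ := hV P.p P.a P.M (by linarith) hP.ha M0
  obtain ⟨s₀, s0, s1, s2⟩ : ∃ s₀ : ℝ, 0 < s₀ ∧ s₀ ≤ 32 ∧ 2000 * P.Λ ^ 2 * s₀ ^ 2 = 1 := by
    have h1 : (1 : ℝ) ≤ √2000 := Real.one_le_sqrt.2 (by norm_num)
    refine ⟨(√2000 * P.Λ)⁻¹, by positivity, (inv_le_one_of_one_le₀
      (one_le_mul_of_one_le_of_one_le h1 (by linarith [hP.hΛ]))).trans (by norm_num), ?_⟩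
    rw [inv_pow, mul_pow, Real.sq_sqrt (by norm_num)]
    exact mul_inv_cancel₀ (by positivity)
  have hS : ∀ s ∈ Icc s₀ 32, P.Sc s := fun s hs => ⟨s0.trans_le hs.1, hs.2, by
    rw [← s2]
    exact mul_le_mul_of_nonneg_left (pow_le_pow_left₀ s0.le hs.1 2) (by positivity)⟩
  set g : ℝ → ℝ → ℝ := fun s r => P.U s (deriv ψ r) (ψ r) ^ P.p * r ^ k with hg
  have hm : ∀ s, AEStronglyMeasurable (g s) (volume.restrict (Ioi 0)) := fun s =>
    (((hc.measurable.comp (((measurable_deriv ψ).const_mul s).prodMk (hψ.const_mul s))).pow_const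
      P.p).mul (measurable_id.pow_const k)).aestronglyMeasurable
  have hbd : ∀ s ∈ Icc s₀ 32, ∀ᵐ r ∂volume.restrict (Ioi 0),
      0 ≤ g s r ∧ g s r ≤ 9 * P.Λ ^ 2 * P.T * s ^ 2 * (ψ r ^ 2 * r ^ k) := fun s hs => by
    filter_upwards [ae_restrict_of_ae hd, ae_restrict_mem measurableSet_Ioi] with r h1 h2
    have r0 : 0 ≤ r ^ k := pow_nonneg (le_of_lt h2) k
    refine ⟨mul_nonneg (Real.rpow_nonneg (hvm _ _).1 _) r0, ?_⟩
    exact (mul_le_mul_of_nonneg_right ((hW P hP s (hS s hs) _ _ (hL r h2)).2.1 (h1 h2))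
      r0).trans_eq (by ring)
  have hbd' : ∀ s ∈ Icc s₀ 32, ∀ᵐ r ∂volume.restrict (Ioi 0),
      ‖g s r‖ ≤ 9 * P.Λ ^ 2 * P.T * 32 ^ 2 * (ψ r ^ 2 * r ^ k) := fun s hs => by
    filter_upwards [hbd s hs, ae_restrict_mem measurableSet_Ioi] with r h1 h2
    have r0 : 0 ≤ r ^ k := pow_nonneg (le_of_lt h2) k
    have := pow_le_pow_left₀ (hS s hs).1.le hs.2 2
    rw [Real.norm_of_nonneg h1.1]
    exact h1.2.trans (by gcongr)
  have hcont : ContinuousOn (fun s => c * ∫ r in Ioi (0 : ℝ), g s r) (Icc s₀ 32) :=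
    continuousOn_const.mul (continuousOn_of_dominated (fun s _ => hm s) hbd' (hF.i0.const_mul _)
      (Eventually.of_forall fun r => Continuous.continuousOn
        (((hc.comp (f := fun s : ℝ => (s * deriv ψ r, s * ψ r)) (by fun_prop)).rpow_const
          fun _ => Or.inr (by linarith)).mul continuous_const)))
  have l0 := left_mem_Icc.2 s1
  have l1 := right_mem_Icc.2 s1
  have a1 : c * ∫ r in Ioi (0 : ℝ), g s₀ r ≤ J := by
    have b1 := integral_mono_of_nonneg ((hbd s₀ l0).mono fun r h => h.1) (hF.i0.const_mul _)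
      ((hbd s₀ l0).mono fun r h => h.2)
    rw [integral_const_mul] at b1
    have b2 := mul_le_mul_of_nonneg_left b1 c0.le
    have b3 : c * (9 * P.Λ ^ 2 * P.T * s₀ ^ 2 * ∫ r in Ioi (0 : ℝ), ψ r ^ 2 * r ^ k) =
        9 / 2000 * (P.T * (c * ∫ r in Ioi (0 : ℝ), ψ r ^ 2 * r ^ k)) := by
      linear_combination (9 / 2000 * (P.T * (c * ∫ r in Ioi (0 : ℝ), ψ r ^ 2 * r ^ k))) * s2
    linarith
  have a2 : J ≤ c * ∫ r in Ioi (0 : ℝ), g 32 r := by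
    have b0 : IntegrableOn (g 32) (Ioi 0) volume := (hF.i0.const_mul _).mono' (hm 32) (hbd' 32 l1)
    have b1 := setIntegral_mono_set b0 ((hbd 32 l1).mono fun r h => h.1) hBs.eventuallyLE
    have b2 : ∫ r in B, 1024 * ((φ r ^ 2) ^ (P.p / (P.p - 1)) * r ^ k) ≤ ∫ r in B, g 32 r := by
      refine integral_mono_of_nonneg ?_ (b0.mono_set hBs) ?_ <;>
        filter_upwards [ae_restrict_mem hB] with r hr
      · have : 0 < r := hBs hr
        positivity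
      · obtain ⟨c1, c2, c3⟩ := hφ r hr
        rw [← mul_assoc]
        refine mul_le_mul_of_nonneg_right (Sc4.low hV p0 hP.ha M0 (sq_nonneg _) c3 ?_)
          (pow_nonneg (le_of_lt (hBs hr)) k)
        linarith [pow_le_pow_left₀ c1 c2 2]
    rw [integral_const_mul] at b2
    have b3 := mul_le_mul_of_nonneg_left (b2.trans b1) c0.le
    linarith
  obtain ⟨s, hs, hs'⟩ := intermediate_value_Icc s1 hcont ⟨a1, a2⟩
  exact ⟨s, hS s hs, hs'⟩

end Pool.Agent.MP_e4cac8_mp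

end
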