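import Pool.Agent.Mg.Fe4cac8.G291fde

set_option linter.all false

/-! The weighted angular energy where the share of the upper spinor is small. -/

open Set MeasureTheory Filter Topology
open scoped ENNReal NNReal
open Pool.Agent.MP_0b7119_mp.G

namespace Pool.Agent.MP_e4cac8_mp

set_option linter.unusedSectionVars false

variable {E S : Type} [NormedAddCommGroup E] [InnerProductSpace ℝ E] [FiniteDimensional ℝ E]
  [MeasurableSpace E] [BorelSpace E] [NormedAddCommGroup S] [InnerProductSpace ℂ S]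
  [CompleteSpace S] [FiniteDimensional ℂ S] {d : ℕ}
  {e : OrthonormalBasis (Fin d) ℝ E} {α : Fin d → S →L[ℂ] S} {β : S →L[ℂ] S} {m : ℝ}

namespace NB4

variable {u w : E → S} {σ c p a T : ℝ}

theorem ptw (hc : Ctx α β m) (hA : StAlg e α) {b : ℝ} {V : E → ℝ} {x : E} (ru : Reg e u)
    (rw' : Reg e w) (hp : 2 ≤ p) (ha : 0 < a) (hb : 0 ≤ b) (V0 : 0 ≤ V x) (VT : a + V x ≤ T)
    (hc0 : 0 < c) (hc2 : 2 * c ≤ 1) (hσ : 0 < σ)
    (zu : Zf e α u x = Complex.I • ((a + V x : ℝ) : ℂ) • w x)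
    (zw : Zf e α w x = Complex.I • ((V x - b : ℝ) : ℂ) • u x)
    (el : V x ^ (p - 1) = ‖u x‖ ^ 2 + ‖w x‖ ^ 2) :
    {x | u x ≠ 0}.indicator (fun x => th c (z4 p a T σ u w x) * qf e u x / (a + V x)) x ≤
      NB.I2 e α (fun y => th c (z4 p a T σ u w y) • u y) w x - NB.I1 e α u (et c σ a p T u w) x +
      ((10 + (3 * d + 2) * d) / c *
        (Low4 a T c V u w).indicator (fun x => G2 e u x / (a + V x)) x +
        8 / T * (max (1 - z4 p a T σ u w x / c) 0 ^ 2 * G2 e w x)) := by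
  have du := ru.c1.differentiable one_ne_zero x
  have dw := rw'.c1.differentiable one_ne_zero x
  have hp1 : 0 < p - 1 := by linarith
  have hW : 0 < a + V x := by linarith
  have hT : 0 < T := hW.trans_le VT
  have hV := (hq hp V0 el).1
  have G0 : ∀ (f : E → S) x, 0 ≤ G2 e f x := fun f x => Finset.sum_nonneg fun j _ => sq_nonneg _
  have p0 : 0 ≤ (10 + (3 * d + 2) * d) / c *
        (Low4 a T c V u w).indicator (fun x => G2 e u x / (a + V x)) x +
        8 / T * (max (1 - z4 p a T σ u w x / c) 0 ^ 2 * G2 e w x) := by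
    have := G0 w x
    have : 0 ≤ (Low4 a T c V u w).indicator (fun x => G2 e u x / (a + V x)) x :=
      indicator_apply_nonneg fun _ => div_nonneg (G0 u x) hW.le
    positivity
  have he : et c σ a p T u w x = th c (z4 p a T σ u w x) / (a + V x) := by rw [et, hV]
  rw [NB.ident du ((c_th hp ha hT hσ ru.c1 rw'.c1).differentiable one_ne_zero x) zu zw
    (by rw [he, div_mul_cancel₀ _ hW.ne']), he]
  by_cases h0 : u x = 0
  · rw [indicator_of_notMem (not_not.mpr h0)]
    have := mul_nonneg (div_nonneg (th_nonneg c (z4 p a T σ u w x)) hW.le) (G0 u x)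
    simp only [h0, norm_zero, map_zero, inner_zero_left, mul_zero, Complex.zero_re, add_zero,
      Finset.sum_const_zero, zero_pow two_ne_zero, sub_zero]
    linarith
  rw [indicator_of_mem (show x ∈ {x | u x ≠ 0} from h0)]
  have ht : 0 < ‖u x‖ := norm_pos_iff.mpr h0
  have z0 := z_pos (p := p) (u := u) (w := w) ha hT hσ x
  have d1 := (d_th (c := c) z0).comp_hasFDerivAt x
    ((c_z hp ha hσ ru.c1 rw'.c1).differentiable one_ne_zero x).hasFDerivAt
  have hW' : a + (‖u x‖ ^ 2 + ‖w x‖ ^ 2) ^ (p - 1)⁻¹ ≠ 0 := by positivity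
  have d2 : HasFDerivAt (et c σ a p T u w) _ x := HasFDerivAt.fun_mul d1
    ((hasDerivAt_inv hW').comp_hasFDerivAt x
      ((((du.norm_sq ℂ).hasFDerivAt.fun_add (dw.norm_sq ℂ).hasFDerivAt).rpow_const
        (p := (p - 1)⁻¹) (Or.inl (by positivity))).const_add a))
  obtain ⟨-, a2, a3, -⟩ := hA u ru
  obtain ⟨-, -, -, a4, a5⟩ := a3 x h0
  have hn : 0 < (a + V x) * (‖u x‖ ^ 2 + ‖w x‖ ^ 2) + σ := by positivity
  have zn : z4 p a T σ u w x * ((a + V x) * (‖u x‖ ^ 2 + ‖w x‖ ^ 2) + σ) = T * ‖u x‖ ^ 2 + σ := by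
    rw [z_eq hp V0 el, div_mul_cancel₀ _ hn.ne']
  have e1 : ∀ j, fderiv ℝ (et c σ a p T u w) x (e j) = -ka c (z4 p a T σ u w x) *
      ((2 * T * (fderiv ℝ (fun y => ‖u y‖) x (e j) * ‖u x‖) -
        z4 p a T σ u w x * (a + V x + (p - 1)⁻¹ * V x) *
          (2 * (fderiv ℝ (fun y => ‖u y‖) x (e j) * ‖u x‖) +
            2 * (inner ℂ (w x) (fderiv ℝ w x (e j))).re)) /
        ((a + V x) * (‖u x‖ ^ 2 + ‖w x‖ ^ 2) + σ)) / (a + V x) -
      th c (z4 p a T σ u w x) * ((p - 1)⁻¹ * V x / (‖u x‖ ^ 2 + ‖w x‖ ^ 2) *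
        (2 * (fderiv ℝ (fun y => ‖u y‖) x (e j) * ‖u x‖) +
          2 * (inner ℂ (w x) (fderiv ℝ w x (e j))).re)) / (a + V x) ^ 2 := fun j => by
    rw [a4, ← d_z hp ha hσ V0 el du dw, d2.fderiv]
    simp only [add_apply, smul_apply, smul_eq_mul, NB.dsq du, NB.dsq dw,
      Real.rpow_sub_one (by positivity : ‖u x‖ ^ 2 + ‖w x‖ ^ 2 ≠ 0), hV]
    ring
  have e2 : ∀ j, fderiv ℝ (fun y => th c (z4 p a T σ u w y)) x (e j) -
      (a + V x) * fderiv ℝ (et c σ a p T u w) x (e j) =
      th c (z4 p a T σ u w x) * ((p - 1)⁻¹ * V x / (‖u x‖ ^ 2 + ‖w x‖ ^ 2) *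
        (2 * (fderiv ℝ (fun y => ‖u y‖) x (e j) * ‖u x‖) +
          2 * (inner ℂ (w x) (fderiv ℝ w x (e j))).re)) / (a + V x) := fun j => by
    rw [e1, a4, ← d_z hp ha hσ V0 el du dw,
      show fderiv ℝ (fun y => th c (z4 p a T σ u w y)) x = _ from d1.fderiv]
    simp only [smul_apply, smul_eq_mul]
    field_simp
    ring
  simp only [e2]
  simp only [e1, ← a4]
  rcases le_or_gt c (z4 p a T σ u w x) with hz | hz
  · simp only [(th_zero hc0 hz).1, (th_zero hc0 hz).2, zero_mul, neg_zero, add_zero, sub_zero,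
      Finset.sum_const_zero, zero_div]
    linarith
  have b1 : T * ‖u x‖ ^ 2 + σ ≤ c * ((a + V x) * (‖u x‖ ^ 2 + ‖w x‖ ^ 2) + σ) :=
    zn ▸ mul_le_mul_of_nonneg_right hz.le hn.le
  have b2 := mul_le_mul_of_nonneg_right hc2 hn.le
  have b0 := mul_le_mul_of_nonneg_right VT (sq_nonneg ‖u x‖)
  have b3 : T * ‖u x‖ ^ 2 ≤ z4 p a T σ u w x * ((a + V x) * (‖u x‖ ^ 2 + ‖w x‖ ^ 2) + σ) := by
    linarith
  have b4 : (a + V x) * ‖w x‖ ^ 2 ≤ (a + V x) * (‖u x‖ ^ 2 + ‖w x‖ ^ 2) + σ := by
    linarith [mul_nonneg hW.le (sq_nonneg ‖u x‖)]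
  have b5 : (a + V x) * (‖u x‖ ^ 2 + ‖w x‖ ^ 2) + σ ≤ 2 * ((a + V x) * ‖w x‖ ^ 2) := by linarith
  have x0 : 0 ≤ max (1 - z4 p a T σ u w x / c) 0 := le_max_right _ _
  have x1 : max (1 - z4 p a T σ u w x / c) 0 ≤ 1 :=
    max_le (sub_le_self _ (by positivity)) zero_le_one
  have key := Finset.sum_le_sum (s := Finset.univ) fun j _ => pj (γ := (p - 1)⁻¹) (V := V x)
    (θ := th c (z4 p a T σ u w x)) (κ := ka c (z4 p a T σ u w x))
    (g := fderiv ℝ (fun y => ‖u y‖) x (e j)) (D := ‖fderiv ℝ u x (e j)‖)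
    (D' := ‖fderiv ℝ w x (e j)‖) (B := (inner ℂ (w x) (fderiv ℝ w x (e j))).re)
    (Y := (Complex.I * inner ℂ (α j (u x)) (w x)).re) rfl rfl z0 hz.le hc2 hW VT x0 x1 ht
    (norm_nonneg _) hn b3 b4 b5
    (le_of_mul_le_mul_right (by
      rw [← abs_of_pos ht, ← abs_mul, a4, abs_of_pos ht, mul_comm]
      exact (Complex.abs_re_le_norm _).trans (norm_inner_le_norm _ _)) ht)
    (norm_nonneg _) ((Complex.abs_re_le_norm _).trans (norm_inner_le_norm _ _))
    ((Complex.abs_re_le_norm _).trans (by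
      rw [norm_mul, Complex.norm_I, one_mul, ← Alg.norm_al hc.rep e j (u x)]
      exact norm_inner_le_norm _ _))
    (inv_pos.mpr hp1).le (inv_le_one_of_one_le₀ (by linarith)) V0 (by linarith)
  rw [Finset.sum_neg_distrib, ← Finset.mul_sum, ← a5, Finset.sum_add_distrib,
    Finset.sum_add_distrib (g := fun _ => 3 * ((a + V x) * ‖w x‖ ^ 2)), Finset.sum_const,
    Finset.card_univ, Fintype.card_fin, nsmul_eq_mul,
    Finset.sum_add_distrib (g := fun j => 8 / T * (max (1 - z4 p a T σ u w x / c) 0 ^ 2 *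
      ‖fderiv ℝ w x (e j)‖ ^ 2)), ← Finset.mul_sum, ← Finset.mul_sum, ← Finset.mul_sum] at key
  change _ ≤ _ + (_ * G2 e u x + 8 / T * (_ * G2 e w x) + _) at key
  rw [indicator_of_mem (show x ∈ Low4 a T c V u w from ⟨ht, by nlinarith⟩), qf]
  have c1 : (a + V x) * ‖w x‖ ^ 2 ≤ d * (G2 e u x / (a + V x)) := by
    have := a2 x
    rw [zu, norm_smul, norm_smul, Complex.norm_I, one_mul, Complex.norm_real,
      Real.norm_of_nonneg hW.le] at this
    rw [← mul_div_assoc, le_div_iff₀ hW]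
    linarith
  have c2 : th c (z4 p a T σ u w x) / (a + V x) * (a + V x) * (V x - b) * ‖u x‖ ^ 2 ≤
      2 * ((a + V x) * ‖w x‖ ^ 2) := by
    rw [div_mul_cancel₀ _ hW.ne']
    have f1 : (V x - b) * ‖u x‖ ^ 2 ≤ T * ‖u x‖ ^ 2 :=
      mul_le_mul_of_nonneg_right (by linarith) (sq_nonneg _)
    have f2 : th c (z4 p a T σ u w x) * z4 p a T σ u w x ≤ 1 := by
      rw [th, div_mul_eq_mul_div, mul_div_assoc, Real.div_sqrt]
      exact mul_le_one₀ (pow_le_one₀ x0 x1) (Real.sqrt_nonneg _)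
        (Real.sqrt_le_one.mpr (by linarith))
    have f3 := mul_le_mul_of_nonneg_left (f1.trans b3) (th_nonneg c (z4 p a T σ u w x))
    have f4 := mul_le_mul_of_nonneg_right f2 hn.le
    linarith
  have c3 : (4 / c + 11) / (a + V x) * G2 e u x + (3 * d + 2) * ((a + V x) * ‖w x‖ ^ 2) ≤
      (10 + (3 * d + 2) * d) / c * (G2 e u x / (a + V x)) := by
    have f0 := div_nonneg (G0 u x) hW.le
    have f1 : 2 ≤ 1 / c := by rwa [le_div_iff₀ hc0]
    have f2 := mul_le_mul_of_nonneg_left c1 (by positivity : (0 : ℝ) ≤ 3 * d + 2)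
    have f3 := mul_le_mul_of_nonneg_right f1 f0
    have f4 := mul_le_mul_of_nonneg_left f3 (by positivity : (0 : ℝ) ≤ (3 * d + 2) * d)
    have f5 := mul_nonneg (by positivity : (0 : ℝ) ≤ (3 * d + 2) * d) f0
    have f6 : (4 / c + 11) / (a + V x) * G2 e u x =
      4 * (1 / c * (G2 e u x / (a + V x))) + 11 * (G2 e u x / (a + V x)) := by ring
    have f7 : (10 + (3 * d + 2) * d) / c * (G2 e u x / (a + V x)) =
      (10 + (3 * d + 2) * d) * (1 / c * (G2 e u x / (a + V x))) := by ring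
    rw [f6, f7]
    linarith
  have c4 : th c (z4 p a T σ u w x) * (G2 e u x - gf u x ^ 2) / (a + V x) =
      th c (z4 p a T σ u w x) / (a + V x) * G2 e u x -
        th c (z4 p a T σ u w x) / (a + V x) * gf u x ^ 2 := by ring
  rw [c4]
  linarith

end NB4

open NB4 in
theorem stNB4 (hc : Ctx α β m) (h0 : StNL0 e α) (hA : StAlg e α) (hw : StNBw4 e α) :
    StNB4 e α := by
  obtain ⟨C, hC, hw⟩ := hw
  refine ⟨32 * (10 + (3 * d + 2) * d + 8 * C), by
    have : (0 : ℝ) ≤ (3 * d + 2) * d := by positivity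
    linarith, ?_⟩
  intro a b p T c K V u w hp ha hb bT hV hM hP hc0 h4 hK0
  have hW : ∀ x, 0 < a + V x := fun x => by linarith [(hM x).1]
  have hT : 0 < T := (hW 0).trans_le (hM 0).2
  have cu := hP.ru.c1
  have cw := hP.rw.c1
  have mu : Measurable fun x => ‖u x‖ ^ 2 := (cu.continuous.norm.pow 2).measurable
  have mw : Measurable fun x => ‖w x‖ ^ 2 := (cw.continuous.norm.pow 2).measurable
  have mW : Measurable fun x => a + V x := hV.const_add a
  have mL : ∀ s, MeasurableSet (Low4 a T s V u w) := fun s =>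
    (measurableSet_lt measurable_const cu.continuous.norm.measurable).inter
      (measurableSet_le (mu.const_mul T) ((mW.mul (mu.add mw)).const_mul s))
  obtain ⟨⟨-, -, -, mq, -, cG⟩, -, a3, -⟩ := hA u hP.ru
  have hd : (0 : ℝ) < d := by exact_mod_cast two_pos.trans_le hc.two
  have G0 : ∀ x, 0 ≤ G2 e u x := fun x => Finset.sum_nonneg fun j _ => sq_nonneg _
  have q0 : ∀ x, u x ≠ 0 → 0 ≤ qf e u x := fun x hx =>
    nonneg_of_mul_nonneg_right ((sq_nonneg _).trans (a3 x hx).2.2.1) hd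
  have iG : Integrable (fun x => G2 e u x / (a + V x)) volume :=
    (hP.ru.dl2.div_const a).mono' (cG.measurable.div mW).aestronglyMeasurable
      (Eventually.of_forall fun x => by
        rw [Real.norm_of_nonneg (div_nonneg (G0 x) (hW x).le)]
        exact div_le_div_of_nonneg_left (G0 x) ha (by linarith [(hM x).1]))
  set f : E → ℝ := fun x =>
    min √((a + V x) * (‖u x‖ ^ 2 + ‖w x‖ ^ 2) / (T * ‖u x‖ ^ 2)) K * qf e u x / (a + V x) with hf
  have iq : IntegrableOn f (Low4 a T (c / 2) V u w) volume :=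
    (iG.const_mul K).integrableOn.mono' ((((((mW.mul (mu.add mw)).div (mu.const_mul T)).sqrt).min
        measurable_const).mul mq).div mW).aestronglyMeasurable
      ((ae_restrict_iff' (mL _)).mpr (Eventually.of_forall fun x hx => by
        have h1 := q0 x (norm_pos_iff.mp hx.1)
        have h2 := hW x
        rw [Real.norm_of_nonneg (by positivity), ← mul_div_assoc]
        exact div_le_div_of_nonneg_right (mul_le_mul (min_le_right _ _)
          (sub_le_self _ (sq_nonneg _)) h1 hK0) h2.le))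
  set A : ℕ → Set E := fun k =>
    Low4 a T (c / 2) V u w ∩ {x | 2 * (1 / ((k : ℝ) + 1)) ≤ T * ‖u x‖ ^ 2} with hA'
  have mT : ∀ k, MeasurableSet (A k) := fun k =>
    (mL _).inter (measurableSet_le measurable_const (mu.const_mul T))
  have hU : ⋃ k, A k = Low4 a T (c / 2) V u w := by
    refine (iUnion_subset fun k => inter_subset_left).antisymm fun x hx => ?_
    obtain ⟨k, hk⟩ := exists_nat_one_div_lt (half_pos (mul_pos hT (pow_pos hx.1 2)))
    exact mem_iUnion.mpr ⟨k, hx, by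
      change 2 * (1 / ((k : ℝ) + 1)) ≤ T * ‖u x‖ ^ 2
      linarith⟩
  have hlim := tendsto_setIntegral_of_monotone (μ := volume) (f := f) mT
    (fun k k' hk => inter_subset_inter_right _ fun x hx => le_trans (α := ℝ)
      (mul_le_mul_of_nonneg_left (Nat.one_div_le_one_div hk) two_pos.le) (mem_ofPred_eq ▸ hx :))
    (hU ▸ iq)
  rw [hU] at hlim
  refine le_of_tendsto' hlim fun k => ?_
  set σ : ℝ := 1 / ((k : ℝ) + 1) with hσ
  have s0 : 0 < σ := Nat.one_div_pos_of_nat
  obtain ⟨K', hK, hfar⟩ := far hp ha hT s0 hP.ru hP.rw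
  have c1 := c_et hp ha hT hc0 h4 s0 cu cw
  have c2 := (c_th (c := c) hp ha hT s0 cu cw).smul cu
  have s1 : HasCompactSupport (et c σ a p T u w) :=
    HasCompactSupport.intro hK fun x hx => by
      rw [et, (th_zero hc0 (by linarith [hfar x hx])).1, zero_div]
  have s2 : HasCompactSupport fun x => th c (z4 p a T σ u w x) • u x :=
    HasCompactSupport.intro hK fun x hx => by
      rw [(th_zero hc0 (by linarith [hfar x hx])).1, zero_smul]
  obtain ⟨i1, i2⟩ := Str.ibp (e := e) hc.rep c2 cw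
    ((c2.continuous.norm.mul cw.continuous.norm).integrable_of_hasCompactSupport s2.norm.mul_right)
    (fun j => ((Str.cont_d c2 _).norm.mul cw.continuous.norm).integrable_of_hasCompactSupport
      (s2.fderiv_apply ℝ _).norm.mul_right)
    fun j => (c2.continuous.norm.mul (Str.cont_d cw _).norm).integrable_of_hasCompactSupport
      s2.norm.mul_right
  have j2 : Integrable (NB.I2 e α (fun y => th c (z4 p a T σ u w y) • u y) w) volume :=
    (i1.const_mul Complex.I).re
  have k2 : ∫ x, NB.I2 e α (fun y => th c (z4 p a T σ u w y) • u y) w x = 0 := by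
    refine (integral_re (𝕜 := ℂ) (i1.const_mul Complex.I)).trans ?_
    rw [integral_const_mul, i2, mul_zero, map_zero]
  have j1 : Integrable (NB.I1 e α u (et c σ a p T u w)) volume := NB.nl_int cu c1 s1
  have k1 : ∫ x, NB.I1 e α u (et c σ a p T u w) x = 0 := h0 u _ cu c1 s1
  have j3 := (iG.indicator (mL c)).const_mul ((10 + (3 * d + 2) * d) / c)
  have j4 : Integrable (fun x => max (1 - z4 p a T σ u w x / c) 0 ^ 2 * G2 e w x) volume :=
    hP.rw.dl2.bdd_mul (c := 1) (NB.c_max.comp (contDiff_const.sub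
      ((c_z hp ha s0 cu cw).div_const c))).continuous.aestronglyMeasurable
      (Eventually.of_forall fun x => by
        rw [Real.norm_of_nonneg (sq_nonneg _)]
        exact pow_le_one₀ (le_max_right _ _)
          (max_le (sub_le_self _ (div_pos (z_pos ha hT s0 x) hc0).le) zero_le_one))
  have j5 := j3.add (j4.const_mul (8 / T))
  have key := integral_mono_ae ((((iq.mono_set inter_subset_left).integrable_indicator
    (mT k))).const_mul (1 / 32)) ((j2.sub j1).add j5) (by
      filter_upwards [hP.zu, hP.zw, hP.el] with x zu zw el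
      refine le_trans ?_ (ptw hc hA hP.ru hP.rw hp ha hb (hM x).1 (hM x).2 hc0 h4 s0 zu zw el)
      by_cases hx : x ∈ A k
      · have ht := hx.1.1
        have hx0 : u x ≠ 0 := norm_pos_iff.mp ht
        have h2 := hW x
        rw [indicator_of_mem hx, indicator_of_mem (show x ∈ {x | u x ≠ 0} from hx0), hf]
        beta_reduce
        rw [← mul_div_assoc, ← mul_assoc]
        refine div_le_div_of_nonneg_right (mul_le_mul_of_nonneg_right
          ((mul_le_mul_of_nonneg_left (min_le_left _ _) (by norm_num)).trans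
            (th_ge hc0 (z_pos ha hT s0 x) ?_ ?_)) (q0 x hx0)) h2.le
        · have b1 : 2 * σ ≤ T * ‖u x‖ ^ 2 := hx.2
          have b2 := hx.1.2
          rw [z_eq hp (hM x).1 el, ← mul_div_assoc, div_le_iff₀ (by positivity)]
          linarith [mul_pos hc0 s0]
        · have b1 : 2 * σ ≤ T * ‖u x‖ ^ 2 := hx.2
          have b3 : 0 ≤ (a + V x) * (‖u x‖ ^ 2 + ‖w x‖ ^ 2) := by positivity
          rw [z_eq hp (hM x).1 el, div_mul_div_comm, div_le_iff₀ (by positivity)]
          nlinarith [mul_le_mul_of_nonneg_left b1 b3, mul_pos s0 s0,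
            mul_le_mul_of_nonneg_left b1 s0.le, mul_nonneg b3 s0.le]
      · rw [indicator_of_notMem hx, mul_zero]
        exact indicator_nonneg (fun y hy =>
          div_nonneg (mul_nonneg (th_nonneg _ _) (q0 y hy)) (hW y).le) x)
  simp only [Pi.add_apply, Pi.sub_apply] at key
  have j6 := j2.sub j1
  rw [Pi.sub_def] at j6
  rw [Pi.add_def] at j5
  rw [integral_const_mul, integral_indicator (mT k), integral_add j6 j5,
    integral_sub j2 j1, k1, k2, integral_add j3 (j4.const_mul (8 / T)),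
    integral_const_mul, integral_const_mul, integral_indicator (mL c)] at key
  have b := mul_le_mul_of_nonneg_left
    (hw a b p T c σ V u w hp ha hb bT hV hM hP hc0 h4 s0) (by positivity : 0 ≤ 8 / T)
  generalize ∫ x in Low4 a T c V u w, G2 e u x / (a + V x) = J at key b ⊢
  have e1 : 8 / T * (C * (T / c) * J) = 8 * C * (J / c) := by field_simp
  have e2 : (10 + (3 * d + 2) * d) / c * J = (10 + (3 * d + 2) * d) * (J / c) := by ring
  have e3 : 32 * (10 + (3 * d + 2) * d + 8 * C) / c * J =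
    32 * (10 + (3 * d + 2) * d + 8 * C) * (J / c) := by ring
  rw [e1] at b
  rw [e2] at key
  rw [e3]
  linarith

end Pool.Agent.MP_e4cac8_mp
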