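import Pool.Agent.Mg.Fe4cac8.G23b726
import Pool.Agent.Mg.Fe4cac8.G7be784

set_option linter.all false

section

/-! The radial form with capped slope. -/

open Set MeasureTheory Filter Topology
open scoped ENNReal NNReal

namespace Pool.Agent.MP_e4cac8_mp

namespace Cap

theorem TR_on {k : ℕ} {c a b p A M : ℝ} (h : TR k c a b p A M) {v ψ : ℝ → ℝ} (hv : Measurable v)
    (hvM : ∀ r, 0 ≤ v r ∧ v r ≤ M) (i1 : IntegrableOn (fun r => v r ^ p * r ^ k) (Ioi 0) volume)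
    (i2 : c * ∫ r in Ioi (0 : ℝ), v r ^ p * r ^ k ≤ A ^ p) {K : ℝ≥0}
    (hL : LipschitzOnWith K ψ (Ici 0))
    (j1 : IntegrableOn (fun r => ψ r ^ 2 * r ^ k) (Ioi 0) volume)
    (j2 : IntegrableOn (fun r => deriv ψ r ^ 2 * r ^ k) (Ioi 0) volume) :
    0 ≤ ∫ r in Ioi (0 : ℝ), (deriv ψ r ^ 2 / (a + v r) - (v r - b) * ψ r ^ 2) * r ^ k := by
  obtain ⟨g, hg, e⟩ := hL.extend_real
  have e1 : ∀ r ∈ Ioi (0 : ℝ), ψ r = g r := fun r hr => e (Ioi_subset_Ici_self hr)
  have e2 : ∀ r ∈ Ioi (0 : ℝ), deriv ψ r = deriv g r := fun r hr =>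
    Filter.EventuallyEq.deriv_eq (by filter_upwards [Ioi_mem_nhds hr] with x hx using e1 x hx)
  have := h v g hv hvM i1 i2 ⟨K, hg⟩
    (j1.congr_fun (fun r hr => by simp only [e1 r hr]) measurableSet_Ioi)
    (j2.congr_fun (fun r hr => by simp only [e2 r hr]) measurableSet_Ioi)
  refine this.trans_eq (setIntegral_congr_fun measurableSet_Ioi fun r hr => ?_)
  simp only [e1 r hr, e2 r hr]

theorem dom {f g : ℝ → ℝ} (hg : IntegrableOn g (Ioi 0) volume) (hf : Measurable f)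
    (h : ∀ᵐ r : ℝ, 0 < r → |f r| ≤ g r) : IntegrableOn f (Ioi 0) volume :=
  Integrable.mono' hg hf.aestronglyMeasurable ((ae_restrict_iff' measurableSet_Ioi).2 h)

theorem int_psi {k : ℕ} {a : ℝ} {φ ψ : ℝ → ℝ} (ha : 0 < a) (hm : Measurable ψ)
    (h0 : ∀ r, 0 ≤ ψ r) (i0 : IntegrableOn (fun r => φ r ^ 2 * r ^ k) (Ioi 0) volume)
    (h : ∀ r, 0 < r → ψ r ≤ φ (2⁻¹ * r) + φ 0 * Real.exp (-(a * r / 2))) :
    IntegrableOn (fun r => ψ r ^ 2 * r ^ k) (Ioi 0) volume := by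
  have j1 : IntegrableOn (fun r => φ (2⁻¹ * r) ^ 2 * (2⁻¹ * r) ^ k) (Ioi 0) volume :=
    (integrableOn_Ioi_comp_mul_left_iff (fun r => φ r ^ 2 * r ^ k) 0
      (by norm_num : (0 : ℝ) < 2⁻¹)).2 (by rwa [mul_zero])
  have j2 := integrableOn_rpow_mul_exp_neg_mul_rpow (s := (k : ℝ)) (p := 1) (b := a)
    (by linarith [Nat.cast_nonneg (α := ℝ) k]) one_pos ha
  refine dom (Integrable.add (Integrable.const_mul j1 (2 * 2 ^ k))
    (Integrable.const_mul j2 (2 * φ 0 ^ 2))) ((hm.pow_const 2).mul (measurable_id.pow_const k))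
    (Eventually.of_forall fun r hr => ?_)
  have a1 := pow_le_pow_left₀ (h0 r) (h r hr) 2
  have a2 : Real.exp (-(a * r / 2)) ^ 2 = Real.exp (-a * r) := by
    rw [← Real.exp_nat_mul]
    congr 1
    push_cast
    ring
  have a3 : ψ r ^ 2 ≤ 2 * φ (2⁻¹ * r) ^ 2 + 2 * φ 0 ^ 2 * Real.exp (-a * r) := by
    rw [← a2]
    nlinarith [sq_nonneg (φ (2⁻¹ * r) - φ 0 * Real.exp (-(a * r / 2)))]
  have a4 := mul_le_mul_of_nonneg_right a3 (pow_pos hr k).le
  have a5 : (2 : ℝ) ^ k * (2⁻¹ * r) ^ k = r ^ k := by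
    rw [← mul_pow]
    congr 1
    ring
  rw [abs_of_nonneg (by positivity)]
  simp only [Pi.add_apply, Real.rpow_natCast, Real.rpow_one]
  calc ψ r ^ 2 * r ^ k ≤ _ := a4
    _ = 2 * φ (2⁻¹ * r) ^ 2 * (2 ^ k * (2⁻¹ * r) ^ k) +
        2 * φ 0 ^ 2 * Real.exp (-a * r) * r ^ k := by rw [a5]; ring
    _ = _ := by ring

theorem pt2 {I o D D' W U m r q kk Λ a : ℝ} (hI : -(o * D') - (o ^ 2 * W + U) * D ≤ I)
    (hr : 0 < r) (hq : 0 < q) (hm : 0 < m) (hW1 : a ≤ W) (hW2 : W ≤ m) (hU1 : -m ≤ U)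
    (hU2 : U ≤ m) (hΛ : 4 ≤ Λ) (hΛ2 : 4 * m ≤ Λ * a)
    (h : (o = 1 ∧ 0 ≤ D ∧ 3 * m * r ≤ kk) ∨ (o = Λ ∧ D ≤ 0 ∧ kk ≤ 3 * m * r)) :
    -(o * (D' * (q * r) + D * (kk * q))) ≤ I * (q * r) - m * (|D| * (q * r)) := by
  have a1 := mul_le_mul_of_nonneg_right hI (mul_pos hq hr).le
  rcases h with ⟨rfl, h1, h2⟩ | ⟨rfl, h1, h2⟩
  · rw [abs_of_nonneg h1]
    have a2 : 0 ≤ kk - (W + U) * r - m * r := by nlinarith
    have a3 := mul_nonneg (mul_nonneg h1 hq.le) a2
    nlinarith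
  · rw [abs_of_nonpos h1]
    have b0 : 0 ≤ o := by linarith
    have b1 : o * (4 * m) ≤ o ^ 2 * W := by
      have c1 := mul_le_mul_of_nonneg_left hΛ2 b0
      have c2 := mul_le_mul_of_nonneg_left hW1 (sq_nonneg o)
      nlinarith
    have b2 : o * kk ≤ o * (3 * m * r) := mul_le_mul_of_nonneg_left h2 b0
    have b3 : 0 ≤ o ^ 2 * W + U - 3 * o * m - m := by nlinarith
    have a2 : 0 ≤ (o ^ 2 * W + U) * r - o * kk - m * r := by
      have := mul_nonneg b3 hr.le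
      nlinarith
    have a3 := mul_nonneg (mul_nonneg (neg_nonneg.2 h1) hq.le) a2
    nlinarith

theorem lim {P F : ℝ → ℝ} {r0 Λ : ℝ} (h0 : 0 < r0) (hΛ : 0 ≤ Λ)
    (iP : IntegrableOn P (Ioi 0) volume)
    (hF : ∀ x y, 0 ≤ x → x ≤ y → AbsolutelyContinuousOnInterval F x y) (F0 : F 0 = 0)
    (F1 : F r0 = 0) (F2 : ∀ R, r0 ≤ R → F R ≤ 0)
    (h1 : ∀ᵐ r : ℝ, 0 < r → r ≤ r0 → -(1 * deriv F r) ≤ P r)
    (h2 : ∀ᵐ r : ℝ, r0 < r → -(Λ * deriv F r) ≤ P r) : 0 ≤ ∫ r in Ioi (0 : ℝ), P r := by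
  have iI : ∀ x y, 0 ≤ x → x ≤ y → IntervalIntegrable P volume x y := fun x y hx hxy =>
    (intervalIntegrable_iff_integrableOn_Ioc_of_le hxy).2
      (iP.mono_set fun t ht => hx.trans_lt ht.1)
  have key : ∀ x y o : ℝ, 0 ≤ x → x ≤ y → (∀ᵐ r : ℝ, r ∈ Icc x y → -(o * deriv F r) ≤ P r) →
      -(o * (F y - F x)) ≤ ∫ r in x..y, P r := by
    intro x y o hx hxy h
    have a1 := intervalIntegral.integral_mono_ae_restrict hxy
      (((hF x y hx hxy).intervalIntegrable_deriv.const_mul o).neg) (iI x y hx hxy)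
      ((ae_restrict_iff' measurableSet_Icc).2 h)
    simp only [Pi.neg_apply] at a1
    rwa [intervalIntegral.integral_neg, intervalIntegral.integral_const_mul,
      (hF x y hx hxy).integral_deriv_eq_sub] at a1
  have n0 : ∀ t : ℝ, ∀ᵐ r : ℝ, r ≠ t := fun t => by simp [ae_iff, measure_singleton]
  refine ge_of_tendsto (intervalIntegral_tendsto_integral_Ioi 0 iP tendsto_id) ?_
  filter_upwards [eventually_ge_atTop r0] with R hR
  have a1 := key 0 r0 1 le_rfl h0.le (by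
    filter_upwards [h1, n0 0] with r b1 b2 b3
    exact b1 (lt_of_le_of_ne b3.1 b2.symm) b3.2)
  have a2 := key r0 R Λ h0.le hR (by
    filter_upwards [h2, n0 r0] with r b1 b2 b3
    exact b1 (lt_of_le_of_ne b3.1 b2.symm))
  have a3 := intervalIntegral.integral_add_adjacent_intervals (iI 0 r0 le_rfl h0.le)
    (iI r0 R h0.le hR)
  have a4 := mul_nonneg hΛ (neg_nonneg.2 (F2 R hR))
  rw [F0, F1] at a1
  rw [F1] at a2
  simp only [id]
  linarith

end Cap

open Cap in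
theorem stCap : StCap := by
  intro k c a b p A M μ Λ v φ hk ha hb hμ hM hbμ hΛ hTR hv hvM i1 i2 hφ ⟨L, hL⟩ h0 j0 j1 w hw
  obtain ⟨j, rfl⟩ : ∃ j, k = j + 1 := ⟨k - 1, by omega⟩
  have hm : 0 < μ * a := by positivity
  have hΛ4 : 4 ≤ Λ := by linarith
  have hΛa : 4 * (μ * a) ≤ Λ * a := by nlinarith
  have W1 : ∀ r, a ≤ a + v r := fun r => by linarith [(hvM r).1]
  have W2 : ∀ r, a + v r ≤ μ * a := fun r => by linarith [(hvM r).2]
  have W0 : ∀ r, 0 < a + v r := fun r => ha.trans_le (W1 r)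
  have U1 : ∀ r, -(μ * a) ≤ v r - b := fun r => by linarith [(hvM r).1]
  have U2 : ∀ r, v r - b ≤ μ * a := fun r => by linarith [(hvM r).2]
  obtain ⟨r0, hr0⟩ : ∃ r0 : ℝ, r0 = ((j + 1 : ℕ) : ℝ) / (3 * (μ * a)) := ⟨_, rfl⟩
  have r0p : 0 < r0 := by rw [hr0]; positivity
  have r0e : 3 * (μ * a) * r0 = ((j + 1 : ℕ) : ℝ) := by rw [hr0]; field_simp
  obtain ⟨o, ho⟩ : ∃ o : ℝ → ℝ, ∀ r, o r = if r ≤ r0 then 1 else Λ := ⟨_, fun _ => rfl⟩
  have o1 : ∀ r, 1 ≤ o r ∧ o r ≤ Λ := fun r => by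
    rw [ho]
    split_ifs <;> constructor <;> linarith
  have mo : Measurable o := by
    rw [show o = fun r => if r ≤ r0 then 1 else Λ from funext ho]
    exact Measurable.ite measurableSet_Iic measurable_const measurable_const
  obtain ⟨K, hK⟩ : ∃ K : ℝ, K = Λ * (μ * a) := ⟨_, rfl⟩
  have K0 : 0 ≤ K := by rw [hK]; positivity
  have ω2 : ∀ r, o r * (a + v r) ≤ K := fun r =>
    hK ▸ mul_le_mul (o1 r).2 (W2 r) (W0 r).le (by linarith)
  obtain ⟨H, cH, dH, hH⟩ := exH (ω := fun r => o r * (a + v r)) (a := a) (K := K)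
    (mo.mul (hv.const_add a)) ha.le
    (fun r => (W1 r).trans (le_mul_of_one_le_left (W0 r).le (o1 r).1)) ω2
  have mH : Monotone H := fun x y h => by
    have := (hH x y h).1
    have := mul_nonneg ha.le (sub_nonneg.2 h)
    linarith
  obtain ⟨ψ, aψ, ψ0, mψ, lψ, rψ, cψ, sψ⟩ := exPsi hφ hL.continuous h0 mH cH r0
  have Lψ : LipschitzOnWith (φ 0 * K).toNNReal ψ (Ici 0) := by
    have key : ∀ x y, 0 ≤ x → x ≤ y → ψ x - ψ y ≤ φ 0 * K * (y - x) := by
      intro x y hx hxy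
      have a1 : ψ x * Real.exp (H x) ≤ ψ y * Real.exp (H y) := mψ hxy
      have a2 : ψ x * Real.exp (H x - H y) ≤ ψ y := by
        rw [Real.exp_sub, ← mul_div_assoc, div_le_iff₀ (Real.exp_pos _)]
        exact a1
      have a3 := mul_le_mul_of_nonneg_left (Real.add_one_le_exp (H x - H y)) (ψ0 x)
      have a4 : ψ x ≤ φ 0 := (aψ hx).trans (lψ 0 r0p.le)
      have a5 : ψ x * (H y - H x) ≤ φ 0 * (K * (y - x)) :=
        mul_le_mul a4 (hH x y hxy).2 (sub_nonneg.2 (mH hxy)) (h0 0)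
      linarith
    refine LipschitzOnWith.of_dist_le_mul fun x hx y hy => ?_
    rw [Real.dist_eq, Real.dist_eq, Real.coe_toNNReal _ (mul_nonneg (h0 0) K0)]
    rcases le_total x y with h | h
    · rw [abs_of_nonneg (sub_nonneg.2 (aψ h)), abs_of_nonpos (sub_nonpos.2 h), neg_sub]
      exact key x y hx h
    · rw [abs_of_nonpos (sub_nonpos.2 (aψ h)), abs_of_nonneg (sub_nonneg.2 h), neg_sub]
      exact key y x hy h
  have z0 : IntegrableOn (fun r => ψ r ^ 2 * r ^ (j + 1)) (Ioi 0) volume := by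
    refine int_psi ha aψ.measurable ψ0 j0 fun r hr => ?_
    have b0 := mul_nonneg (h0 0) (Real.exp_pos (-(a * r / 2))).le
    rcases le_total r r0 with h | h
    · have := (lψ r h).trans (hφ (show 2⁻¹ * r ≤ r by linarith))
      linarith
    · obtain ⟨s, hs, e⟩ := sψ r h
      rw [e]
      rcases le_total (2⁻¹ * r) s with c1 | c1
      · have := (mul_le_of_le_one_right (h0 s)
          (Real.exp_le_one_iff.2 (sub_nonpos.2 (mH hs.2)))).trans (hφ c1)
        linarith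
      · have a1 := (hH s r hs.2).1
        have a2 : H s - H r ≤ -(a * r / 2) := by nlinarith
        have a3 := mul_le_mul (hφ (r0p.le.trans hs.1)) (Real.exp_le_exp.2 a2)
          (Real.exp_pos _).le (h0 0)
        linarith [h0 (2⁻¹ * r)]
  have dφ : ∀ᵐ r : ℝ, DifferentiableAt ℝ φ r := hL.ae_differentiableAt_real
  have dψ : ∀ᵐ r : ℝ, DifferentiableAt ℝ ψ r :=
    (Monotone.ae_differentiableAt aψ.neg).mono fun r h => by simpa using h.neg
  have n0 : ∀ᵐ r : ℝ, r ≠ r0 := by simp [ae_iff, measure_singleton]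
  have hae : ∀ᵐ r : ℝ, -(o r * (a + v r) * ψ r) ≤ deriv ψ r ∧
      (ψ r = φ r → deriv ψ r = deriv φ r) ∧
      (ψ r ≠ φ r → deriv ψ r = -(o r * (a + v r) * ψ r)) := by
    filter_upwards [dφ, dψ, dH, n0] with r d1 d2 d3 d4
    have e1 := d2.hasDerivAt.fun_mul d3.exp
    have ep := Real.exp_pos (H r)
    refine ⟨?_, fun h => ?_, fun h => ?_⟩
    · have a1 := e1.nonneg_of_monotone mψ
      have a2 : 0 ≤ (deriv ψ r + o r * (a + v r) * ψ r) * Real.exp (H r) := by linarith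
      have a3 := nonneg_of_mul_nonneg_left a2 ep
      linarith
    · have e2 := d2.hasDerivAt.fun_sub d1.hasDerivAt
      rcases lt_or_gt_of_ne d4 with c1 | c1
      · have m1 : IsLocalMax (fun x => ψ x - φ x) r := by
          filter_upwards [Iio_mem_nhds c1] with x hx
          rw [h, sub_self]
          exact sub_nonpos.2 (lψ x (le_of_lt hx))
        exact sub_eq_zero.1 (m1.hasDerivAt_eq_zero e2)
      · have m1 : IsLocalMin (fun x => ψ x - φ x) r := by
          filter_upwards [Ioi_mem_nhds c1] with x hx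
          rw [h, sub_self]
          exact sub_nonneg.2 (rψ x (le_of_lt hx))
        exact sub_eq_zero.1 (m1.hasDerivAt_eq_zero e2)
    · have a1 := e1.unique ((hasDerivAt_const r _).congr_of_eventuallyEq (cψ r d4 h))
      have a2 : (deriv ψ r + o r * (a + v r) * ψ r) * Real.exp (H r) = 0 := by linarith
      have a3 := (mul_eq_zero.1 a2).resolve_right ep.ne'
      linarith
  have mr : Measurable fun r : ℝ => r ^ (j + 1) := measurable_id.pow_const _
  have z1 : IntegrableOn (fun r => deriv ψ r ^ 2 * r ^ (j + 1)) (Ioi 0) volume := by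
    refine dom (Integrable.const_mul z0 (K ^ 2)) (((measurable_deriv ψ).pow_const 2).mul mr) ?_
    filter_upwards [hae] with r h hr
    have a1 : -deriv ψ r ≤ K * ψ r := by
      have := mul_le_mul_of_nonneg_right (ω2 r) (ψ0 r)
      linarith [h.1]
    have a2 := pow_le_pow_left₀ (neg_nonneg.2 (aψ.deriv_nonpos (x := r))) a1 2
    have a3 := mul_le_mul_of_nonneg_right a2 (pow_pos hr (j + 1)).le
    rw [abs_of_nonneg (by positivity)]
    linarith
  have hQ := TR_on hTR hv hvM i1 i2 Lψ z0 z1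
  have iQ : IntegrableOn (fun r => (deriv ψ r ^ 2 / (a + v r) - (v r - b) * ψ r ^ 2) *
      r ^ (j + 1)) (Ioi 0) volume := by
    refine dom (Integrable.add (Integrable.const_mul z1 a⁻¹) (Integrable.const_mul z0 (μ * a)))
      (((((measurable_deriv ψ).pow_const 2).div (hv.const_add a)).sub
        ((hv.sub_const b).mul (aψ.measurable.pow_const 2))).mul mr)
      (Eventually.of_forall fun r hr => ?_)
    have a1 : deriv ψ r ^ 2 / (a + v r) ≤ a⁻¹ * deriv ψ r ^ 2 := by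
      rw [← div_eq_inv_mul]
      exact div_le_div_of_nonneg_left (sq_nonneg _) ha (W1 r)
    have a2 : 0 ≤ deriv ψ r ^ 2 / (a + v r) := div_nonneg (sq_nonneg _) (W0 r).le
    have a3 := mul_le_mul_of_nonneg_right (U1 r) (sq_nonneg (ψ r))
    have a4 := mul_le_mul_of_nonneg_right (U2 r) (sq_nonneg (ψ r))
    have a5 : |deriv ψ r ^ 2 / (a + v r) - (v r - b) * ψ r ^ 2| ≤
        a⁻¹ * deriv ψ r ^ 2 + μ * a * ψ r ^ 2 := abs_le.2 ⟨by linarith, by linarith⟩
    rw [abs_mul, abs_of_pos (pow_pos hr _)]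
    have a6 := mul_le_mul_of_nonneg_right a5 (pow_pos hr (j + 1)).le
    simp only [Pi.add_apply]
    linarith
  have mφ : Measurable φ := hφ.measurable
  have mw : Measurable w := by
    rw [show w = fun r => min (|deriv φ r| / (a + v r)) (Λ * φ r) from funext hw]
    exact ((measurable_deriv φ).abs.div (hv.const_add a)).min (mφ.const_mul Λ)
  have iJ : IntegrableOn (fun r => (2 * w r * |deriv φ r| - (a + v r) * w r ^ 2 -
      (v r - b) * φ r ^ 2) * r ^ (j + 1)) (Ioi 0) volume := by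
    refine dom (Integrable.add (Integrable.const_mul j0 (Λ ^ 2 + μ * a * Λ ^ 2 + μ * a)) j1)
      (((((mw.const_mul 2).mul (measurable_deriv φ).abs).sub
        ((hv.const_add a).mul (mw.pow_const 2))).sub
        ((hv.sub_const b).mul (mφ.pow_const 2))).mul mr)
      (Eventually.of_forall fun r hr => ?_)
    have w0 : 0 ≤ w r := by
      rw [hw]
      exact le_min (div_nonneg (abs_nonneg _) (W0 r).le) (mul_nonneg (by linarith) (h0 r))
    have w1 : w r ≤ Λ * φ r := by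
      rw [hw]
      exact min_le_right _ _
    have w2 := pow_le_pow_left₀ w0 w1 2
    have a1 : 2 * w r * |deriv φ r| ≤ w r ^ 2 + deriv φ r ^ 2 := by
      rw [← sq_abs (deriv φ r)]
      nlinarith [sq_nonneg (w r - |deriv φ r|)]
    have a2 : 0 ≤ 2 * w r * |deriv φ r| := by positivity
    have a3 := mul_le_mul_of_nonneg_right (U1 r) (sq_nonneg (φ r))
    have a4 := mul_le_mul_of_nonneg_right (U2 r) (sq_nonneg (φ r))
    have a5 := mul_le_mul (W2 r) w2 (sq_nonneg _) hm.le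
    have a6 := mul_nonneg (W0 r).le (sq_nonneg (w r))
    have a7 := mul_nonneg hm.le (sq_nonneg (Λ * φ r))
    have a8 := sq_nonneg (Λ * φ r)
    have a9 := sq_nonneg (deriv φ r)
    have b1 : |2 * w r * |deriv φ r| - (a + v r) * w r ^ 2 - (v r - b) * φ r ^ 2| ≤
        (Λ ^ 2 + μ * a * Λ ^ 2 + μ * a) * φ r ^ 2 + deriv φ r ^ 2 :=
      abs_le.2 ⟨by linarith, by linarith⟩
    rw [abs_mul, abs_of_pos (pow_pos hr _)]
    have b2 := mul_le_mul_of_nonneg_right b1 (pow_pos hr (j + 1)).le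
    simp only [Pi.add_apply]
    linarith
  have iT : IntegrableOn (fun r => |φ r ^ 2 - ψ r ^ 2| * r ^ (j + 1)) (Ioi 0) volume := by
    refine IntegrableOn.congr_fun (Integrable.abs (Integrable.sub j0 z0)) (fun r hr => ?_)
      measurableSet_Ioi
    simp only [Pi.sub_apply]
    have hr' : 0 < r ^ (j + 1) := pow_pos hr (j + 1)
    rw [← sub_mul, abs_mul, abs_of_pos hr']
  have T0 : ∀ᵐ r ∂(volume.restrict (Ioi (0 : ℝ))), 0 ≤ |φ r ^ 2 - ψ r ^ 2| * r ^ (j + 1) :=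
    (ae_restrict_iff' measurableSet_Ioi).2 (Eventually.of_forall fun r hr =>
      mul_nonneg (abs_nonneg _) (pow_pos hr _).le)
  have hpt : ∀ᵐ r : ℝ, 0 < r →
      -(o r * deriv (fun x => (φ x * φ x - ψ x * ψ x) * x ^ (j + 1)) r) ≤
      (2 * w r * |deriv φ r| - (a + v r) * w r ^ 2 - (v r - b) * φ r ^ 2) * r ^ (j + 1) -
        (deriv ψ r ^ 2 / (a + v r) - (v r - b) * ψ r ^ 2) * r ^ (j + 1) -
        μ * a * (|φ r ^ 2 - ψ r ^ 2| * r ^ (j + 1)) := by
    filter_upwards [dφ, dψ, hae] with r d1 d2 h hr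
    have e1 := (((d1.hasDerivAt.fun_mul d1.hasDerivAt).fun_sub
      (d2.hasDerivAt.fun_mul d2.hasDerivAt)).fun_mul (hasDerivAt_pow (j + 1) r)).deriv
    have a1 := pt (U := v r - b) (W0 r) (o1 r).2 (h0 r) (hφ.deriv_nonpos (x := r))
      (g := ψ r) (g' := deriv ψ r) (by
        by_cases c1 : ψ r = φ r
        · exact Or.inl ⟨c1, h.2.1 c1, h.1⟩
        · exact Or.inr (h.2.2 c1))
    rw [← hw] at a1
    have a2 := pt2 (kk := ((j + 1 : ℕ) : ℝ)) a1 hr (pow_pos hr j) hm (W1 r) (W2 r) (U1 r) (U2 r)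
      hΛ4 hΛa (by
        rw [← r0e]
        by_cases c1 : r ≤ r0
        · exact Or.inl ⟨by rw [ho, if_pos c1],
            sub_nonneg.2 (pow_le_pow_left₀ (ψ0 r) (lψ r c1) 2),
            mul_le_mul_of_nonneg_left c1 (by positivity)⟩
        · exact Or.inr ⟨by rw [ho, if_neg c1],
            sub_nonpos.2 (pow_le_pow_left₀ (h0 r) (rψ r (not_le.1 c1).le) 2),
            mul_le_mul_of_nonneg_left (not_le.1 c1).le (by positivity)⟩)
    rw [e1, Nat.add_sub_cancel, pow_succ r j]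
    linarith
  have hP := lim (F := fun x => (φ x * φ x - ψ x * ψ x) * x ^ (j + 1)) r0p (by linarith : 0 ≤ Λ)
    (Integrable.sub (Integrable.sub iJ iQ) (Integrable.const_mul iT (μ * a)))
    (fun x y hx hxy => by
      have c1 : AbsolutelyContinuousOnInterval φ x y :=
        hL.lipschitzOnWith.absolutelyContinuousOnInterval
      have c2 : AbsolutelyContinuousOnInterval ψ x y :=
        (Lψ.mono (by rw [uIcc_of_le hxy]; exact fun t ht => hx.trans ht.1)
          ).absolutelyContinuousOnInterval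
      have c3 : AbsolutelyContinuousOnInterval (fun t : ℝ => t ^ (j + 1)) x y :=
        (contDiff_id.pow (j + 1)).contDiffOn.absolutelyContinuousOnInterval
      exact ((c1.mul c1).sub (c2.mul c2)).mul c3)
    (by simp) (by rw [le_antisymm (lψ r0 le_rfl) (rψ r0 le_rfl)]; simp)
    (fun R hR => mul_nonpos_of_nonpos_of_nonneg
      (sub_nonpos.2 (mul_self_le_mul_self (h0 R) (rψ R hR))) (pow_pos (r0p.trans_le hR) _).le)
    (by
      filter_upwards [hpt] with r h b1 b2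
      have := h b1
      rwa [ho, if_pos b2] at this)
    (by
      filter_upwards [hpt] with r h b1
      have := h (r0p.trans b1)
      rwa [ho, if_neg (not_le.2 b1)] at this)
  simp only [Pi.sub_apply] at hP
  have e3 := integral_sub (Integrable.sub iJ iQ) (Integrable.const_mul iT (μ * a))
  simp only [Pi.sub_apply] at e3
  rw [e3, integral_sub iJ iQ, integral_const_mul] at hP
  have hT := integral_nonneg_of_ae T0
  have hT2 := mul_nonneg hm.le hT
  refine ⟨by linarith, fun hle => ?_⟩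
  have hT3 : ∫ r in Ioi (0 : ℝ), |φ r ^ 2 - ψ r ^ 2| * r ^ (j + 1) = 0 :=
    le_antisymm (nonpos_of_mul_nonpos_right (by linarith) hm) hT
  have hT4 := (ae_restrict_iff' measurableSet_Ioi).1
    ((integral_eq_zero_iff_of_nonneg_ae T0 iT).1 hT3)
  filter_upwards [hT4, hae] with r b1 b2 hr
  have c1 := (mul_eq_zero.1 (b1 hr)).resolve_right (pow_pos hr _).ne'
  have c2 : ψ r = φ r :=
    ((pow_left_inj₀ (h0 r) (ψ0 r) two_ne_zero).1 (sub_eq_zero.1 (abs_eq_zero.1 c1))).symm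
  have c3 := b2.1
  rw [b2.2.1 c2, c2] at c3
  have c4 := mul_le_mul_of_nonneg_right (o1 r).2 (mul_nonneg (W0 r).le (h0 r))
  rw [abs_of_nonpos (hφ.deriv_nonpos (x := r))]
  linarith

end Pool.Agent.MP_e4cac8_mp

end

section

/-! Continuity, measurability and crude bounds for the windowed Lagrangian. -/

open Set MeasureTheory Filter Topology
open scoped ENNReal NNReal

namespace Pool.Agent.MP_e4cac8_mp

namespace Int4

theorem pow_le (hV : StVm) {p a M : ℝ} (hp : 2 ≤ p) (ha : 0 < a) (hM : 0 < M) (y t : ℝ) :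
    Vm p a M y t ^ p ≤ M * (t ^ 2 + (y / a) ^ 2) := by
  obtain ⟨h0, h1, h2, -⟩ := (hV p a M hp ha hM).2 y t
  have e1 : Vm p a M y t ^ p = Vm p a M y t * Vm p a M y t ^ (p - 1) := by
    rw [mul_comm, ← Real.rpow_add_one' h0 (by linarith), sub_add_cancel]
  rw [e1, div_pow]
  refine mul_le_mul h1 (h2.trans ?_) (Real.rpow_nonneg h0 _) hM.le
  have : a ≤ a + Vm p a M y t := by linarith
  gcongr

variable {P : Par}

theorem p_ge (h : P.Ok) : 800 ≤ P.p := by linarith [h.hD, h.hp]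

theorem T_pos (h : P.Ok) : 0 < P.T := h.hb.trans_le h.bT

theorem M_pos (h : P.Ok) : 0 < P.M := by linarith [T_pos h, h.TM]

theorem jf_cont (h : P.Ok) : Continuous P.jf := by
  have hp := p_ge h
  refine continuous_const.add (Continuous.rpow_const (by fun_prop) fun _ => Or.inr ?_)
  positivity

theorem bt_cont (h : P.Ok) : Continuous P.bt :=
  (continuous_const.mul continuous_id).mul (jf_cont h)

theorem jf_pos (h : P.Ok) (t : ℝ) : 0 < P.jf t := by
  have := T_pos h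
  have := h.ha
  unfold Par.jf
  positivity

theorem jf_mono (h : P.Ok) {t t' : ℝ} (h0 : 0 ≤ t') (ht : t' ≤ t) : P.jf t' ≤ P.jf t := by
  have := T_pos h
  have hp := p_ge h
  unfold Par.jf
  gcongr

theorem jf_scale (h : P.Ok) {t t' : ℝ} (h0 : 0 < t') (ht : t' ≤ t) :
    P.jf t ≤ (t / t') ^ P.p⁻¹ * P.jf t' := by
  have hT := T_pos h
  have hp := p_ge h
  have h1 : 1 ≤ t / t' := (one_le_div h0).2 ht
  have h2 : 1 ≤ (t / t') ^ P.p⁻¹ := Real.one_le_rpow h1 (by positivity)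
  have e1 : P.T * t ^ 2 = (t / t') ^ (2 : ℝ) * (P.T * t' ^ 2) := by
    rw [Real.rpow_two]
    field_simp
  have e2 : (2 : ℝ) * (2 * P.p)⁻¹ = P.p⁻¹ := by field_simp
  unfold Par.jf
  rw [e1, Real.mul_rpow (by positivity) (by positivity), ← Real.rpow_mul (by positivity), e2,
    mul_add]
  have := Real.sqrt_nonneg P.a
  nlinarith

theorem jf_lin (h : P.Ok) {t t' : ℝ} (h0 : 0 ≤ t') (ht : t' ≤ t) :
    t' * P.jf t ≤ t * P.jf t' := by
  have hj := jf_pos h t'
  rcases h0.eq_or_lt with e | h0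
  · subst e
    rw [zero_mul]
    positivity
  have hp := p_ge h
  have h1 : 1 ≤ t / t' := (one_le_div h0).2 ht
  have h2 : (t / t') ^ P.p⁻¹ ≤ t / t' := by
    have := Real.rpow_le_rpow_of_exponent_le h1 (inv_le_one_of_one_le₀ (by linarith : 1 ≤ P.p))
    rwa [Real.rpow_one] at this
  calc t' * P.jf t ≤ t' * (t / t' * P.jf t') := by
        refine mul_le_mul_of_nonneg_left ((jf_scale h h0 ht).trans ?_) h0.le
        gcongr
    _ = t * P.jf t' := by field_simp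

theorem bt_nonneg (h : P.Ok) {t : ℝ} (ht : 0 ≤ t) : 0 ≤ P.bt t := by
  have := jf_pos h t
  unfold Par.bt
  positivity

theorem lo_bd (h : P.Ok) {t : ℝ} (ht : 0 ≤ t) : 0 ≤ P.lo t ∧ P.lo t ≤ 1 / 40 * P.bt t := by
  have := bt_nonneg h ht
  unfold Par.lo
  split_ifs
  · exact ⟨by positivity, le_rfl⟩
  · exact ⟨le_rfl, by positivity⟩

theorem win (h : P.Ok) (y : ℝ) {t : ℝ} (ht : 0 ≤ t) : 0 ≤ P.lo t ∧ P.Win (P.yc y t) t ∧
    P.Win (1 / 40 * P.bt t) t ∧ P.Win (P.Λ * P.bt t) t := by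
  obtain ⟨h0, h1⟩ := lo_bd h ht
  have h2 : 1 / 40 * P.bt t ≤ P.Λ * P.bt t :=
    mul_le_mul_of_nonneg_right (by linarith [h.hΛ]) (bt_nonneg h ht)
  exact ⟨h0, ⟨le_min (le_max_right _ _) (h1.trans h2), min_le_right _ _⟩, ⟨h1, h2⟩,
    h1.trans h2, le_rfl⟩

theorem yc_meas (h : P.Ok) : Measurable fun z : ℝ × ℝ => P.yc z.1 z.2 := by
  have hb := (bt_cont h).measurable
  have hl : Measurable P.lo :=
    Measurable.ite (measurableSet_lt measurable_id measurable_const) (hb.const_mul _)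
      measurable_const
  exact ((continuous_abs.measurable.comp measurable_fst).max (hl.comp measurable_snd)).min
    ((hb.comp measurable_snd).const_mul _)

theorem U_bd (hV : StVm) (h : P.Ok) (s y t : ℝ) : 0 ≤ P.U s y t ∧ P.U s y t ≤ P.M :=
  have h1 := (hV P.p P.a P.M (by linarith [p_ge h]) h.ha (M_pos h)).2 (s * y) (s * t)
  ⟨h1.1, h1.2.1⟩

theorem U_cont (hV : StVm) (h : P.Ok) (s : ℝ) : Continuous fun z : ℝ × ℝ => P.U s z.1 z.2 :=
  (hV P.p P.a P.M (by linarith [p_ge h]) h.ha (M_pos h)).1.comp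
    (f := fun z : ℝ × ℝ => (s * z.1, s * z.2)) (by fun_prop)

theorem w_cont (hV : StVm) (h : P.Ok) (s : ℝ) : Continuous fun z : ℝ × ℝ => P.w s z.1 z.2 :=
  (continuous_const.mul continuous_fst).div (continuous_const.add (U_cont hV h s)) fun z =>
    (add_pos_of_pos_of_nonneg h.ha (U_bd hV h s z.1 z.2).1).ne'

theorem G_cont (hV : StVm) (h : P.Ok) (s : ℝ) : Continuous fun z : ℝ × ℝ => P.G s z.1 z.2 :=
  (((((w_cont hV h s).pow 2).mul (continuous_const.add (U_cont hV h s))).neg).sub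
    (((U_cont hV h s).sub continuous_const).mul
      ((continuous_const.mul continuous_snd).pow 2))).add
    (((U_cont hV h s).rpow_const fun _ => Or.inr (by linarith [p_ge h])).div_const _)

theorem bt_le (h : P.Ok) {t : ℝ} (ht : P.Lv t) : P.bt t ≤ 2 * P.T * t := by
  have hT := T_pos h
  have hp := p_ge h
  have h0 := ht.1
  have h1 : P.T * t ^ 2 ≤ P.T ^ P.p := by
    calc P.T * t ^ 2 ≤ P.T * P.T ^ (P.p - 1) := mul_le_mul_of_nonneg_left ht.2 hT.le
      _ = P.T ^ P.p := by rw [mul_comm, ← Real.rpow_add_one hT.ne', sub_add_cancel]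
  have h2 : (P.T * t ^ 2) ^ (2 * P.p)⁻¹ ≤ √P.T := by
    refine (Real.rpow_le_rpow (by positivity) h1 (by positivity)).trans_eq ?_
    rw [← Real.rpow_mul hT.le, Real.sqrt_eq_rpow]
    congr 1
    field_simp
  have h3 : √P.a ≤ √P.T := Real.sqrt_le_sqrt (by linarith [h.aM, M_pos h])
  have h4 : P.jf t ≤ 2 * √P.T := by
    unfold Par.jf
    linarith
  calc P.bt t ≤ √P.T * t * (2 * √P.T) := mul_le_mul_of_nonneg_left h4 (by positivity)
    _ = 2 * (√P.T * √P.T) * t := by ring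
    _ = 2 * P.T * t := by rw [Real.mul_self_sqrt hT.le]

theorem crude (hV : StVm) (h : P.Ok) {s : ℝ} (hs : 0 < s) :
    ∃ K, 0 ≤ K ∧ ∀ y₀ y t, P.Lv t → 0 ≤ y₀ → y₀ ≤ P.Λ * P.bt t →
      y₀ ≤ K * t ∧ 0 ≤ P.w s y₀ t ∧ P.w s y₀ t ≤ K * t ∧
        |P.L s y₀ y t| ≤ K * (y ^ 2 + t ^ 2) := by
  have hT := T_pos h
  have hp := p_ge h
  have hM := M_pos h
  have ha := h.ha
  have hb := h.hb
  have hΛ : 0 ≤ P.Λ := by linarith [h.hΛ]
  obtain ⟨Y, hY⟩ : ∃ Y, Y = P.Λ * (2 * P.T) := ⟨_, rfl⟩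
  obtain ⟨W, hW⟩ : ∃ W, W = s * Y / P.a := ⟨_, rfl⟩
  have hY0 : 0 ≤ Y := by rw [hY]; positivity
  have hW0 : 0 ≤ W := by rw [hW]; positivity
  obtain ⟨C, hC⟩ : ∃ C, C = s * W ^ 2 + W ^ 2 * (P.a + P.M) + (P.M + P.b) * s ^ 2 +
    P.M * (s ^ 2 + W ^ 2) := ⟨_, rfl⟩
  have hC0 : 0 ≤ C := by rw [hC]; positivity
  refine ⟨Y + W + s + C, by positivity, fun y₀ y t ht h0 h1 => ?_⟩
  have ht0 := ht.1
  obtain ⟨hU0, hUM⟩ := U_bd hV h s y₀ t
  have a1 : y₀ ≤ Y * t := by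
    refine h1.trans ((mul_le_mul_of_nonneg_left (bt_le h ht) hΛ).trans_eq ?_)
    rw [hY]; ring
  have a2 : 0 ≤ P.w s y₀ t := by unfold Par.w; positivity
  have a3 : s * y₀ / P.a ≤ W * t := by
    have : s * y₀ / P.a ≤ s * (Y * t) / P.a := by gcongr
    refine this.trans_eq ?_
    rw [hW]; ring
  have a4 : P.w s y₀ t ≤ W * t := by
    refine le_trans ?_ a3
    have : P.a ≤ P.a + P.U s y₀ t := by linarith
    unfold Par.w
    gcongr
  have a5 : P.w s y₀ t ^ 2 ≤ (W * t) ^ 2 := pow_le_pow_left₀ a2 a4 2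
  have a6 : P.U s y₀ t ^ P.p / P.p ≤ P.M * ((s * t) ^ 2 + (W * t) ^ 2) := by
    refine (div_le_self (Real.rpow_nonneg hU0 _) (by linarith)).trans
      ((pow_le hV (by linarith) ha hM _ _).trans ?_)
    have : 0 ≤ s * y₀ / P.a := by positivity
    gcongr
  have a7 : 0 ≤ P.U s y₀ t ^ P.p / P.p := by positivity
  have a8 : P.w s y₀ t ^ 2 * (P.a + P.U s y₀ t) ≤ (W * t) ^ 2 * (P.a + P.M) := by gcongr
  have a9 : 0 ≤ P.w s y₀ t ^ 2 * (P.a + P.U s y₀ t) := by positivity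
  have b1 : (P.U s y₀ t - P.b) * (s * t) ^ 2 ≤ (P.M + P.b) * (s * t) ^ 2 :=
    mul_le_mul_of_nonneg_right (by linarith) (by positivity)
  have b2 : -(P.M + P.b) * (s * t) ^ 2 ≤ (P.U s y₀ t - P.b) * (s * t) ^ 2 :=
    mul_le_mul_of_nonneg_right (by linarith) (by positivity)
  have b3 : 0 ≤ 2 * P.w s y₀ t * (s * |y|) := by positivity
  have b4 : 2 * P.w s y₀ t * (s * |y|) ≤ s * ((W * t) ^ 2 + y ^ 2) := by
    have e : 2 * P.w s y₀ t * |y| ≤ (W * t) ^ 2 + y ^ 2 := by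
      nlinarith [sq_nonneg (P.w s y₀ t - |y|), sq_abs y]
    nlinarith
  have c1 : 0 ≤ (Y + W + s) * t ^ 2 := by positivity
  have c2 : 0 ≤ (Y + W + C) * y ^ 2 := by positivity
  have c3 : 0 ≤ s * ((W * t) ^ 2 + y ^ 2) := by positivity
  have c4 : 0 ≤ (W * t) ^ 2 * (P.a + P.M) := by positivity
  have c5 : 0 ≤ P.M * ((s * t) ^ 2 + (W * t) ^ 2) := by positivity
  have c6 : (Y + W + s + C) * (y ^ 2 + t ^ 2) = (Y + W + s) * t ^ 2 + (Y + W + C) * y ^ 2 +
      (s * ((W * t) ^ 2 + y ^ 2) + (W * t) ^ 2 * (P.a + P.M) + (P.M + P.b) * (s * t) ^ 2 +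
        P.M * ((s * t) ^ 2 + (W * t) ^ 2)) := by
    rw [hC]; ring
  refine ⟨a1.trans ?_, a2, a4.trans ?_, ?_⟩
  · exact mul_le_mul_of_nonneg_right (by linarith) ht0
  · exact mul_le_mul_of_nonneg_right (by linarith) ht0
  · rw [c6, abs_le]
    unfold Par.L Par.G
    constructor <;> linarith

end Int4

open Int4 in
theorem stInt (hV : StVm) : StInt := by
  intro P h
  refine ⟨⟨jf_cont h, bt_cont h, jf_pos h, fun t t' h0 ht => ⟨jf_mono h h0 ht, jf_lin h h0 ht⟩,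
    fun t t' h0 ht => jf_scale h h0 ht, fun y t ht => win h y ht, yc_meas h⟩,
    fun s hs => ⟨U_cont hV h s, w_cont hV h s, fun o => ?_, ?_, crude hV h hs⟩⟩
  · exact continuous_const.mul ((w_cont hV h s).comp (f := fun t : ℝ => (o * P.bt t, t))
      ((continuous_const.mul (bt_cont h)).prodMk continuous_id))
  · have hc : Continuous fun z : ℝ × ℝ × ℝ => (z.1, z.2.2) := by fun_prop
    exact ((continuous_const.mul ((w_cont hV h s).comp hc)).mul
      (continuous_const.mul (continuous_snd.fst.abs))).add ((G_cont hV h s).comp hc)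

end Pool.Agent.MP_e4cac8_mp

end
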