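import Pool.Agent.Mg.Fe4cac8.G2fb23e
import Pool.Agent.Mg.Fe4cac8.G23b726

set_option linter.all false

/-! The comparison potential with capped slope. -/

open Set MeasureTheory Filter Topology
open scoped ENNReal NNReal
open Pool.Agent.MP_0b7119_mp.G

namespace Pool.Agent.MP_e4cac8_mp.Vc3

variable {p a M Λ : ℝ}

theorem facts (hV : StVm) (hp : 2 ≤ p) (ha : 0 < a) (hM : 0 < M) (hΛ : 0 ≤ Λ) (y t : ℝ) :
    (0 ≤ Vc p a M Λ y t ∧ Vc p a M Λ y t ≤ M) ∧
      (0 ≤ wc p a M Λ y t ∧ wc p a M Λ y t ≤ Λ * |t|) ∧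
      Vc p a M Λ y t ^ (p - 1) ≤ t ^ 2 + wc p a M Λ y t ^ 2 ∧
      (Vc p a M Λ y t < M → Vc p a M Λ y t ^ (p - 1) = t ^ 2 + wc p a M Λ y t ^ 2) ∧
      (|y| ≤ Λ * |t| * (a + Vc p a M Λ y t) →
        Vc p a M Λ y t = Vm p a M y t ∧ wc p a M Λ y t = |y| / (a + Vm p a M y t)) := by
  obtain ⟨h0, h1, h2, h3, -⟩ := (hV p a M hp ha hM).2 y t
  have hp1 : 0 < p - 1 := by linarith
  have hb : 0 ≤ (1 + Λ ^ 2) * t ^ 2 := by positivity
  have c0 : 0 ≤ ((1 + Λ ^ 2) * t ^ 2) ^ (p - 1)⁻¹ := Real.rpow_nonneg hb _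
  have c1 : (((1 + Λ ^ 2) * t ^ 2) ^ (p - 1)⁻¹) ^ (p - 1) = t ^ 2 + (Λ * |t|) ^ 2 := by
    rw [Real.rpow_inv_rpow hb hp1.ne', mul_pow, sq_abs]
    ring
  have l0 : 0 ≤ Λ * |t| := by positivity
  unfold wc Vc
  generalize ((1 + Λ ^ 2) * t ^ 2) ^ (p - 1)⁻¹ = B at *
  generalize Vm p a M y t = U at *
  generalize Λ * |t| = l at *
  have ey : ∀ v : ℝ, y ^ 2 / (a + v) ^ 2 = (|y| / (a + v)) ^ 2 := fun v => by rw [div_pow, sq_abs]
  rw [ey] at h2 h3
  rcases le_or_gt U (min M B) with h | h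
  · rw [min_eq_left h]
    have hW : 0 < a + U := by linarith
    have h4 : U ^ (p - 1) ≤ t ^ 2 + l ^ 2 :=
      (Real.rpow_le_rpow h0 (h.trans (min_le_right _ _)) hp1.le).trans c1.le
    have y0 : 0 ≤ |y| / (a + U) := by positivity
    refine ⟨⟨h0, h1⟩, ⟨le_min y0 l0, min_le_right _ _⟩, ?_, fun h5 => ?_, fun h5 => ⟨rfl, ?_⟩⟩
    · rcases le_total (|y| / (a + U)) l with h6 | h6
      · rwa [min_eq_left h6]
      · rwa [min_eq_right h6]
    · rw [min_eq_left (abs_le_of_sq_le_sq' (by linarith [h3 h5]) l0).2, h3 h5]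
    · exact min_eq_left ((div_le_iff₀ hW).mpr h5)
  · have hB : min M B = B := min_eq_right (by
      by_contra hn
      rw [min_eq_left (not_le.mp hn).le] at h
      linarith)
    rw [hB] at h
    rw [hB, min_eq_right h.le]
    have hW : 0 < a + B := by linarith
    have h4 : B ^ (p - 1) < U ^ (p - 1) := Real.rpow_lt_rpow c0 h hp1
    have h5 : |y| / (a + U) ≤ |y| / (a + B) := by gcongr
    have h6 : l < |y| / (a + B) :=
      (lt_of_pow_lt_pow_left₀ 2 (by positivity) (by linarith)).trans_le h5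
    rw [min_eq_right h6.le]
    refine ⟨⟨c0, by linarith⟩, ⟨l0, le_rfl⟩, c1.le, fun _ => c1, fun h7 => ?_⟩
    exact absurd ((lt_div_iff₀ hW).mp h6) (not_lt.mpr h7)

theorem pow_le (hV : StVm) (hp : 2 ≤ p) (ha : 0 < a) (hM : 0 < M) (hΛ : 0 ≤ Λ) (y t : ℝ) :
    Vc p a M Λ y t ^ (p - 1) ≤ (1 + Λ ^ 2) * t ^ 2 := by
  obtain ⟨-, ⟨h1, h2⟩, h3, -⟩ := facts hV hp ha hM hΛ y t
  have := pow_le_pow_left₀ h1 h2 2
  rw [mul_pow, sq_abs] at this
  linarith

theorem pow_le' (hV : StVm) (hp : 2 ≤ p) (ha : 0 < a) (hM : 0 < M) (hΛ : 0 ≤ Λ) (y t : ℝ) :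
    Vc p a M Λ y t ^ p ≤ M * ((1 + Λ ^ 2) * t ^ 2) := by
  obtain ⟨⟨h0, h1⟩, -⟩ := facts hV hp ha hM hΛ y t
  have e1 : Vc p a M Λ y t ^ p = Vc p a M Λ y t * Vc p a M Λ y t ^ (p - 1) := by
    rw [mul_comm, ← Real.rpow_add_one' h0 (by linarith)]
    congr 1
    ring
  rw [e1]
  exact mul_le_mul h1 (pow_le hV hp ha hM hΛ y t) (Real.rpow_nonneg h0 _) hM.le

theorem le_pow (hV : StVm) (hp : 2 ≤ p) (ha : 0 < a) (hM : 0 < M) (hΛ : 0 ≤ Λ) {y t : ℝ}
    (h : Vc p a M Λ y t < M) : t ^ 2 ≤ Vc p a M Λ y t ^ (p - 1) := by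
  rw [(facts hV hp ha hM hΛ y t).2.2.2.1 h]
  linarith [sq_nonneg (wc p a M Λ y t)]

theorem pos (hV : StVm) (hp : 2 ≤ p) (ha : 0 < a) (hM : 0 < M) (hΛ : 0 ≤ Λ) (y : ℝ) {t : ℝ}
    (ht : 0 < t) : 0 < Vc p a M Λ y t := by
  refine (facts hV hp ha hM hΛ y t).1.1.lt_of_ne fun h => ?_
  have := le_pow hV hp ha hM hΛ (y := y) (t := t) (h ▸ hM)
  rw [← h, Real.zero_rpow (by linarith)] at this
  linarith [pow_pos ht 2]

theorem Vc_neg (y t : ℝ) : Vc p a M Λ (-y) t = Vc p a M Λ y t := by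
  unfold Vc
  rw [Cmp.Vm_neg]

theorem wc_neg (y t : ℝ) : wc p a M Λ (-y) t = wc p a M Λ y t := by
  unfold wc
  rw [Vc_neg, abs_neg]

theorem Vc_zero (hp : 2 ≤ p) (hV : StVm) (ha : 0 < a) (hM : 0 < M) : Vc p a M Λ 0 0 = 0 := by
  unfold Vc
  rw [Cmp.Vm_zero hV hp ha hM]
  exact min_eq_left (le_min hM.le (by positivity))

theorem cont (hV : StVm) (hp : 2 ≤ p) (ha : 0 < a) (hM : 0 < M) :
    Continuous fun z : ℝ × ℝ => Vc p a M Λ z.1 z.2 :=
  (hV p a M hp ha hM).1.min (continuous_const.min (Continuous.rpow_const (by fun_prop)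
    fun _ => Or.inr (inv_nonneg.mpr (by linarith))))

theorem meas_Vc (hV : StVm) (hp : 2 ≤ p) (ha : 0 < a) (hM : 0 < M) {X : Type} [MeasurableSpace X]
    {y t : X → ℝ} (hy : Measurable y) (ht : Measurable t) :
    Measurable fun x => Vc p a M Λ (y x) (t x) :=
  (cont hV hp ha hM).measurable.comp (hy.prodMk ht)

theorem meas_wc (hV : StVm) (hp : 2 ≤ p) (ha : 0 < a) (hM : 0 < M) {X : Type} [MeasurableSpace X]
    {y t : X → ℝ} (hy : Measurable y) (ht : Measurable t) :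
    Measurable fun x => wc p a M Λ (y x) (t x) :=
  ((continuous_abs.measurable.comp hy).div ((meas_Vc hV hp ha hM hy ht).const_add a)).min
    ((continuous_abs.measurable.comp ht).const_mul Λ)

theorem int_Vc (hV : StVm) (hp : 2 ≤ p) (ha : 0 < a) (hM : 0 < M) (hΛ : 0 ≤ Λ) {X : Type}
    [MeasurableSpace X] {μ : Measure X} {y t : X → ℝ} (hy : Measurable y) (ht : Measurable t)
    (hti : Integrable (fun x => t x ^ 2) μ) (s : ℝ) :
    Integrable (fun x => Vc p a M Λ (s * y x) (s * t x) ^ p) μ := by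
  refine (((hti.const_mul (s ^ 2)).const_mul (1 + Λ ^ 2)).const_mul
    M).mono' ((meas_Vc hV hp ha hM (hy.const_mul s) (ht.const_mul s)).pow_const
    p).aestronglyMeasurable (Eventually.of_forall fun x => ?_)
  rw [Real.norm_of_nonneg (Real.rpow_nonneg (facts hV hp ha hM hΛ _ _).1.1 _)]
  simpa only [mul_pow] using pow_le' hV hp ha hM hΛ (s * y x) (s * t x)

theorem exists_scale (hV : StVm) (hp : 2 ≤ p) (ha : 0 < a) (hΛ : 0 ≤ Λ) {M₀ : ℝ} (h0 : 0 ≤ M₀)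
    (hM : M₀ < M) {X : Type} [MeasurableSpace X] {μ : Measure X} {y t V : X → ℝ}
    (hy : Measurable y) (ht : Measurable t)
    (hti : Integrable (fun x => t x ^ 2) μ) (htp : ∀ᵐ x ∂μ, 0 < t x) (hV0 : ∀ x, 0 ≤ V x)
    (hVM : ∀ x, V x ≤ M₀) (hVi : Integrable (fun x => V x ^ p) μ) (hpos : 0 < ∫ x, V x ^ p ∂μ) :
    ∃ s : ℝ, 0 < s ∧ ∫ x, Vc p a M Λ (s * y x) (s * t x) ^ p ∂μ = ∫ x, V x ^ p ∂μ := by
  have hM0 : 0 < M := h0.trans_lt hM
  have hc := cont (Λ := Λ) hV hp ha hM0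
  have hvm := fun y t => (facts hV hp ha hM0 hΛ y t).1
  set J : ℝ → ℝ := fun s => ∫ x, Vc p a M Λ (s * y x) (s * t x) ^ p ∂μ with hJ
  have hm := fun s : ℝ =>
    (meas_Vc (Λ := Λ) hV hp ha hM0 (hy.const_mul s) (ht.const_mul s)).pow_const p
  have hJ0 : J 0 = 0 := by
    simp only [hJ, zero_mul, Vc_zero hp hV ha hM0, Real.zero_rpow (by linarith : p ≠ 0),
      integral_zero]
  have hcont : ∀ T : ℝ, ContinuousOn J (Icc 0 T) := fun T => by
    refine continuousOn_of_dominated (fun s _ => (hm s).aestronglyMeasurable)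
      (fun s hs => Eventually.of_forall fun x => ?_)
      (((hti.const_mul (T ^ 2)).const_mul (1 + Λ ^ 2)).const_mul M)
      (Eventually.of_forall fun x => Continuous.continuousOn ?_)
    · rw [Real.norm_of_nonneg (Real.rpow_nonneg (hvm _ _).1 _)]
      refine (pow_le' hV hp ha hM0 hΛ _ _).trans ?_
      have : s ^ 2 ≤ T ^ 2 := pow_le_pow_left₀ hs.1 hs.2 2
      simp only [mul_pow]
      gcongr
    · exact (hc.comp (f := fun s : ℝ => (s * y x, s * t x)) (by fun_prop)).rpow_const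
        fun _ => Or.inr (by linarith)
  have hbig : ∃ n : ℕ, ∫ x, V x ^ p ∂μ ≤ J n := by
    by_contra hn
    simp only [not_exists, not_le] at hn
    have hl := lintegral_liminf_le (μ := μ) (u := atTop)
      (f := fun (n : ℕ) x => ENNReal.ofReal (Vc p a M Λ (n * y x) (n * t x) ^ p))
      fun n => (hm n).ennreal_ofReal
    have he : ∀ᵐ x ∂μ, liminf (fun n : ℕ => ENNReal.ofReal (Vc p a M Λ (n * y x) (n * t x) ^ p))
        atTop = ENNReal.ofReal (M ^ p) := by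
      filter_upwards [htp] with x hx
      refine Tendsto.liminf_eq (tendsto_const_nhds.congr' ?_)
      have t1 : Tendsto (fun n : ℕ => ((n : ℝ) * t x) ^ 2) atTop atTop :=
        (tendsto_pow_atTop two_ne_zero).comp (tendsto_natCast_atTop_atTop.atTop_mul_const hx)
      filter_upwards [t1.eventually_gt_atTop (M ^ (p - 1))] with n hn
      obtain ⟨a0, a1⟩ := hvm (n * y x) (n * t x)
      rcases a1.eq_or_lt with h | h
      · rw [h]
      · have h1 := Real.rpow_le_rpow a0 a1 (by linarith : 0 ≤ p - 1)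
        linarith [le_pow hV hp ha hM0 hΛ h]
    rw [lintegral_congr_ae he, lintegral_const] at hl
    have h1 : ENNReal.ofReal (M ^ p) * μ univ ≤ ENNReal.ofReal (∫ x, V x ^ p ∂μ) := by
      refine hl.trans (liminf_le_of_frequently_le' (Frequently.of_forall fun n => ?_))
      rw [← ofReal_integral_eq_lintegral_ofReal (int_Vc hV hp ha hM0 hΛ hy ht hti n)
        (Eventually.of_forall fun x => Real.rpow_nonneg (hvm _ _).1 _)]
      exact ENNReal.ofReal_le_ofReal (hn n).le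
    have hMp : 0 < M ^ p := Real.rpow_pos_of_pos hM0 p
    have hfin : μ univ ≠ ∞ := by
      intro h
      rw [h, ENNReal.mul_top (by simpa using hMp)] at h1
      exact absurd h1 (by simp)
    have : IsFiniteMeasure μ := ⟨hfin.lt_top⟩
    have h2 : ∫ x, V x ^ p ∂μ ≤ μ.real univ * M₀ ^ p := by
      have := integral_mono hVi (integrable_const (M₀ ^ p))
        fun x => Real.rpow_le_rpow (hV0 x) (hVM x) (by linarith)
      rwa [integral_const, smul_eq_mul] at this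
    have h3 : M ^ p * μ.real univ ≤ ∫ x, V x ^ p ∂μ := by
      have := ENNReal.toReal_mono ENNReal.ofReal_ne_top h1
      rwa [ENNReal.toReal_mul, ENNReal.toReal_ofReal hMp.le, ENNReal.toReal_ofReal hpos.le] at this
    have h4 : M₀ ^ p < M ^ p := Real.rpow_lt_rpow h0 hM (by linarith)
    have h5 : 0 ≤ μ.real univ := measureReal_nonneg
    rcases h5.eq_or_lt with h6 | h6
    · rw [← h6, zero_mul] at h2
      linarith
    · nlinarith
  obtain ⟨n, hn⟩ := hbig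
  obtain ⟨s, hs, hs'⟩ := intermediate_value_Icc (Nat.cast_nonneg n) (hcont n)
    ⟨hJ0.le.trans hpos.le, hn⟩
  refine ⟨s, hs.1.lt_of_ne fun h => ?_, hs'⟩
  rw [← h, hJ0] at hs'
  linarith

theorem avg_le {κ : ℝ → ℝ} {γ K τ : ℝ} (hγ : γ < 1) (hτ : 0 < τ)
    (hi : IntervalIntegrable κ volume 0 τ) (h : ∀ σ ∈ Ioo 0 τ, κ σ ≤ K * τ ^ γ * σ ^ (-γ)) :
    avg κ τ ≤ K / (1 - γ) := by
  have h1 := intervalIntegral.integral_mono_on_of_le_Ioo hτ.le hi
    ((intervalIntegral.intervalIntegrable_rpow' (by linarith : -1 < -γ)).const_mul (K * τ ^ γ)) h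
  rw [intervalIntegral.integral_const_mul, integral_rpow (Or.inl (by linarith)),
    Real.zero_rpow (by linarith), sub_zero, Real.rpow_add_one hτ.ne', Real.rpow_neg hτ.le] at h1
  rw [avg, div_le_iff₀ hτ]
  refine h1.trans (le_of_eq ?_)
  have : 0 < τ ^ γ := Real.rpow_pos_of_pos hτ γ
  have : 0 < 1 - γ := by linarith
  rw [neg_add_eq_sub]
  field_simp

theorem le_avg {κ : ℝ → ℝ} {k τ : ℝ} (hτ : 0 < τ) (hi : IntervalIntegrable κ volume 0 τ)
    (h : ∀ σ, k ≤ κ σ) : k ≤ avg κ τ := by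
  have h1 := intervalIntegral.integral_mono_on hτ.le intervalIntegrable_const hi fun σ _ => h σ
  rw [intervalIntegral.integral_const, sub_zero, smul_eq_mul] at h1
  rw [avg, le_div_iff₀ hτ]
  linarith

theorem ratio {U U' R σ τ : ℝ} (hp : 2 ≤ p) (ha : 0 < a) (hR : 1 ≤ R) (hσ : 0 < σ) (hστ : σ ≤ τ)
    {s : ℝ} (hU0 : 0 ≤ U) (hU : U ≤ M) (hU' : 0 ≤ U') (h1 : U ^ (p - 1) ≤ R * (s * τ))
    (h2 : U' < M → s * σ ≤ U' ^ (p - 1)) :
    1 / (a + U') ≤ R ^ (p - 1)⁻¹ / (a + U) * τ ^ (p - 1)⁻¹ * σ ^ (-(p - 1)⁻¹) := by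
  have hp1 : 0 < p - 1 := by linarith
  have hτ : 0 < τ := hσ.trans_le hστ
  have hr : 1 ≤ R * τ / σ := by
    rw [le_div_iff₀ hσ]
    nlinarith
  have e : R ^ (p - 1)⁻¹ / (a + U) * τ ^ (p - 1)⁻¹ * σ ^ (-(p - 1)⁻¹) =
      (R * τ / σ) ^ (p - 1)⁻¹ / (a + U) := by
    rw [Real.div_rpow (by positivity) hσ.le, Real.mul_rpow (by positivity) hτ.le,
      Real.rpow_neg hσ.le]
    ring
  have r1 : 1 ≤ (R * τ / σ) ^ (p - 1)⁻¹ := Real.one_le_rpow hr (by positivity)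
  have r2 : U ≤ (R * τ / σ) ^ (p - 1)⁻¹ * U' := by
    rcases lt_or_ge U' M with h | h
    · rw [← Real.rpow_le_rpow_iff hU0 (by positivity) hp1, Real.mul_rpow (by positivity) hU',
        Real.rpow_inv_rpow (by positivity) hp1.ne']
      refine h1.trans (le_trans (le_of_eq ?_) (mul_le_mul_of_nonneg_left (h2 h) (by positivity)))
      field_simp
    · nlinarith
  rw [e, div_le_div_iff₀ (by positivity) (by positivity)]
  nlinarith

/-- The mean of the weight is comparable to the weight. -/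
theorem avg_mem (hV : StVm) (hp : 2 < p) (ha : 0 < a) (hM : 0 < M) (hΛ : 0 ≤ Λ) {y : ℝ → ℝ}
    (hy : Measurable y) (s : ℝ) {t : ℝ} (ht : 0 < t) :
    1 / (a + M) ≤ avg (fun τ => 1 / (a + Vc p a M Λ (s * y √τ) (s * √τ))) (t ^ 2) ∧
      avg (fun τ => 1 / (a + Vc p a M Λ (s * y √τ) (s * √τ))) (t ^ 2) *
        (a + Vc p a M Λ (s * y t) (s * t)) ≤ (1 + Λ ^ 2) ^ (p - 1)⁻¹ * ((p - 1) / (p - 2)) := by
  have hvm := fun y t => (facts hV hp.le ha hM hΛ y t).1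
  have hi : IntervalIntegrable (fun τ => 1 / (a + Vc p a M Λ (s * y √τ) (s * √τ))) volume 0
      (t ^ 2) := by
    refine (intervalIntegrable_const (c := 1 / a)).mono_fun'
      (((meas_Vc hV hp.le ha hM ((hy.comp measurable_id.sqrt).const_mul s)
        (measurable_id.sqrt.const_mul s)).const_add a).const_div 1).aestronglyMeasurable
      (Eventually.of_forall fun τ => ?_)
    have := (hvm (s * y √τ) (s * √τ)).1
    simp only
    rw [Real.norm_of_nonneg (by positivity)]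
    exact one_div_le_one_div_of_le ha (by linarith)
  refine ⟨le_avg (pow_pos ht 2) hi fun τ => one_div_le_one_div_of_le
    (by linarith [(hvm (s * y √τ) (s * √τ)).1]) (by linarith [(hvm (s * y √τ) (s * √τ)).2]), ?_⟩
  have hW : 0 < a + Vc p a M Λ (s * y t) (s * t) := by linarith [(hvm (s * y t) (s * t)).1]
  have h1 := avg_le (γ := (p - 1)⁻¹)
    (K := (1 + Λ ^ 2) ^ (p - 1)⁻¹ / (a + Vc p a M Λ (s * y t) (s * t)))
    (inv_lt_one_of_one_lt₀ (by linarith)) (pow_pos ht 2) hi fun σ hσ =>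
      ratio (s := s ^ 2) hp.le ha (by nlinarith [sq_nonneg Λ]) hσ.1 hσ.2.le (hvm _ _).1 (hvm _ _).2
        (hvm _ _).1 (by simpa only [mul_pow] using pow_le hV hp.le ha hM hΛ (s * y t) (s * t))
        fun h => by simpa only [mul_pow, Real.sq_sqrt hσ.1.le] using le_pow hV hp.le ha hM hΛ h
  refine (mul_le_mul_of_nonneg_right h1 hW.le).trans (le_of_eq ?_)
  have : 0 < p - 1 := by linarith
  have : 0 < p - 2 := by linarith
  have e : 1 - (p - 1)⁻¹ = (p - 2) / (p - 1) := by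
    field_simp
    ring
  rw [e]
  field_simp

/-- A lower bound for the scale. -/
theorem scale_ge (hp : 2 ≤ p) {X : Type} [MeasurableSpace X] {μ : Measure X} {U V : X → ℝ} {σ : ℝ}
    (hU : ∀ x, 0 ≤ U x) (hV : ∀ x, 0 ≤ V x)
    (h : ∀ᵐ x ∂μ, U x ^ (p - 1) ≤ σ * V x ^ (p - 1))
    (hVi : Integrable (fun x => V x ^ p) μ) (hpos : 0 < ∫ x, V x ^ p ∂μ)
    (he : ∫ x, U x ^ p ∂μ = ∫ x, V x ^ p ∂μ) : 1 ≤ σ := by
  by_contra hn
  rw [not_le] at hn
  have e1 : ∀ v : ℝ, 0 ≤ v → v ^ p = v * v ^ (p - 1) := fun v hv => by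
    rw [mul_comm, ← Real.rpow_add_one' hv (by linarith)]
    congr 1
    ring
  have h1 : ∫ x, U x ^ p ∂μ ≤ ∫ x, σ * V x ^ p ∂μ := by
    refine integral_mono_of_nonneg (Eventually.of_forall fun x => Real.rpow_nonneg (hU x) p)
      (hVi.const_mul σ) ?_
    filter_upwards [h] with x hx
    have h2 : U x ≤ V x := by
      rw [← Real.rpow_le_rpow_iff (hU x) (hV x) (by linarith : 0 < p - 1)]
      nlinarith [Real.rpow_nonneg (hV x) (p - 1)]
    rw [e1 _ (hU x), e1 _ (hV x), mul_left_comm]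
    exact mul_le_mul h2 hx (Real.rpow_nonneg (hU x) _) (hV x)
  rw [integral_const_mul, he] at h1
  nlinarith

end Pool.Agent.MP_e4cac8_mp.Vc3
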