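import Pool.Agent.Mg.Fe4cac8.G7be784
import Pool.Agent.Mg.Fe4cac8.Ge90476

set_option linter.all false

/-! The mean of the weight in the window. -/

open Set MeasureTheory Filter Topology
open Pool.Agent.MP_0b7119_mp.G

namespace Pool.Agent.MP_e4cac8_mp

namespace Av4

theorem flip {a U U' ρ : ℝ} (ha : 0 < a) (hU : 0 ≤ U) (hU' : 0 ≤ U') (hρ : 1 ≤ ρ)
    (h : U ≤ ρ * U') : 1 / (a + U') ≤ ρ / (a + U) := by
  rw [div_le_div_iff₀ (by positivity) (by positivity)]
  nlinarith

theorem num {D p Λ : ℝ} (hD : 2 ≤ D) (hp : 400 * D ≤ p) (hΛ : 5 ≤ Λ)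
    (big : 10 ^ 7 * Λ ^ 4 ≤ (1 + 1 / (32 * D)) ^ (p - 5)) :
    (1 + p⁻¹) * (p - 1)⁻¹ < 1 ∧
      (2600 * Λ ^ 2) ^ (p - 1)⁻¹ / (1 - (1 + p⁻¹) * (p - 1)⁻¹) ≤ 1 + 1 / (8 * D) := by
  have hD0 : 0 < D := by linarith
  have hp1 : 0 < p - 1 := by linarith
  have hb : 1 ≤ 1 + 1 / (32 * D) := le_add_of_nonneg_right (by positivity)
  have h1 : (2600 * Λ ^ 2) ^ (p - 1)⁻¹ ≤ 1 + 1 / (32 * D) := by
    rw [Real.rpow_inv_le_iff_of_pos (by positivity) (by positivity) hp1]
    refine le_trans ?_ (big.trans (Real.rpow_le_rpow_of_exponent_le hb (by linarith)))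
    have : 1 ≤ Λ ^ 2 := by nlinarith
    nlinarith
  have h2 : (1 + p⁻¹) * (p - 1)⁻¹ ≤ 1 / (100 * D) := by
    have : p⁻¹ ≤ 1 := inv_le_one_of_one_le₀ (by linarith)
    rw [← div_eq_mul_inv, div_le_div_iff₀ hp1 (by positivity)]
    nlinarith
  set x : ℝ := 1 / D with hx
  have x0 : 0 < x := by positivity
  have x1 : x ≤ 1 / 2 := one_div_le_one_div_of_le (by norm_num) hD
  have e1 : 1 / (32 * D) = x / 32 := by rw [hx]; field_simp
  have e2 : 1 / (100 * D) = x / 100 := by rw [hx]; field_simp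
  have e3 : 1 / (8 * D) = x / 8 := by rw [hx]; field_simp
  rw [e1] at h1
  rw [e2] at h2
  rw [e3]
  refine ⟨by linarith, ?_⟩
  rw [div_le_iff₀ (by linarith)]
  have : (1 + x / 8) * (1 - x / 100) ≤ (1 + x / 8) * (1 - (1 + p⁻¹) * (p - 1)⁻¹) := by
    gcongr
  nlinarith

end Av4

theorem stAv (hV : StVm) (hP : StVp) (hI : StInt) (hW : StWin) : StAv := by
  intro P ok s hs y t hy ht hL hw
  have hD := ok.hD
  have hp : 2 ≤ P.p := by linarith [ok.hp]
  have hp1 : 0 < P.p - 1 := by linarith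
  have ha := ok.ha
  have hT : 0 < P.T := ok.hb.trans_le ok.bT
  have hM : 0 < P.M := by linarith [ok.TM]
  have hΛ := ok.hΛ
  have s0 := hs.1
  obtain ⟨⟨-, -, jpos, jmono, jpow, hlo, -⟩, hc⟩ := hI P ok
  obtain ⟨hUc, -⟩ := hc s s0
  have hvm := (hV P.p P.a P.M hp ha hM).2
  have U0 : ∀ y t, 0 ≤ P.U s y t := fun y t => (hvm _ _).1
  have hi : IntervalIntegrable (fun τ => 1 / (P.a + P.U s (y √τ) √τ)) volume 0 (t ^ 2) := by
    refine (intervalIntegrable_const (c := 1 / P.a)).mono_fun'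
      (((hUc.measurable.comp ((hy.comp measurable_id.sqrt).prodMk
        measurable_id.sqrt)).const_add P.a).const_div 1).aestronglyMeasurable
      (Eventually.of_forall fun τ => ?_)
    have := U0 (y √τ) √τ
    simp only
    rw [Real.norm_of_nonneg (by positivity)]
    exact one_div_le_one_div_of_le ha (by linarith)
  have hW0 : 0 < P.a + P.U s (y t) t := by linarith [U0 (y t) t]
  obtain ⟨w1, -, w3, -⟩ := hW P ok s hs (y t) t hL
  obtain ⟨-, w2, -⟩ := w1 (hw t ht.le)
  have ht2 : 0 < t ^ 2 := pow_pos ht 2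
  have hsq : ∀ τ, τ ≤ t ^ 2 → √τ ≤ t := fun τ h => Real.sqrt_le_iff.2 ⟨ht.le, h⟩
  constructor
  · have h1 := intervalIntegral.integral_mono_on ht2.le
      (intervalIntegrable_const (c := 1 / (24 * (P.a + P.U s (y t) t)))) hi fun τ hτ => by
        have a0 := Real.sqrt_nonneg τ
        have a1 := hsq τ hτ.2
        have a2 := ((hW P ok s hs (y √τ) √τ
          ⟨a0, (pow_le_pow_left₀ a0 a1 2).trans hL.2⟩).1 (hw _ a0)).1
        have a3 := pow_le_pow_left₀ (jpos _).le (jmono t √τ a0 a1).1 2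
        exact one_div_le_one_div_of_le (by linarith [U0 (y √τ) √τ]) (by linarith)
    rw [intervalIntegral.integral_const, sub_zero, smul_eq_mul] at h1
    rw [← div_le_iff₀ hW0, avg, le_div_iff₀ ht2, div_div]
    linarith
  obtain ⟨n1, n2⟩ := Av4.num hD ok.hp hΛ ok.big
  have hR : 1 ≤ 2600 * P.Λ ^ 2 := by nlinarith
  have hip : 0 ≤ P.p⁻¹ := by positivity
  have h1 := Vc3.avg_le (K := (2600 * P.Λ ^ 2) ^ (P.p - 1)⁻¹ / (P.a + P.U s (y t) t))
    n1 ht2 hi fun τ hτ => by
      have τ0 : 0 < τ := hτ.1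
      have a0 : 0 < √τ := Real.sqrt_pos.2 τ0
      have a1 := hsq τ hτ.2.le
      have x1 : 1 ≤ t ^ 2 / τ := (one_le_div τ0).2 hτ.2.le
      have e : (2600 * P.Λ ^ 2) ^ (P.p - 1)⁻¹ / (P.a + P.U s (y t) t) *
          (t ^ 2) ^ ((1 + P.p⁻¹) * (P.p - 1)⁻¹) * τ ^ (-((1 + P.p⁻¹) * (P.p - 1)⁻¹)) =
          (2600 * P.Λ ^ 2 * (t ^ 2 / τ) ^ (1 + P.p⁻¹)) ^ (P.p - 1)⁻¹ / (P.a + P.U s (y t) t) := by
        rw [Real.mul_rpow (x := 2600 * P.Λ ^ 2) (by positivity) (by positivity),
          ← Real.rpow_mul (by positivity), Real.div_rpow ht2.le τ0.le, Real.rpow_neg τ0.le]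
        ring
      have x2 : t ^ 2 / τ ≤ (t ^ 2 / τ) ^ (1 + P.p⁻¹) :=
        Real.self_le_rpow_of_one_le x1 (by linarith)
      have x3 : 1 ≤ 2600 * P.Λ ^ 2 * (t ^ 2 / τ) ^ (1 + P.p⁻¹) := by nlinarith
      have r1 : 1 ≤ (2600 * P.Λ ^ 2 * (t ^ 2 / τ) ^ (1 + P.p⁻¹)) ^ (P.p - 1)⁻¹ :=
        Real.one_le_rpow x3 (by positivity)
      rw [e]
      refine Av4.flip ha (U0 _ _) (U0 _ _) r1 ?_
      obtain ⟨b1, b2⟩ := hw t ht.le
      have y0 : 0 ≤ y t := (hlo 0 t ht.le).1.trans b1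
      rcases lt_or_ge √τ (tl P.p P.b) with hl | hl
      · obtain ⟨m1, m2, -⟩ := hP.1 P.p P.a P.M hp ha hM
        have q1 : 1 ≤ t / √τ := (one_le_div a0).2 a1
        have q2 : 1 ≤ (t / √τ) ^ P.p⁻¹ := Real.one_le_rpow q1 hip
        set c : ℝ := 40 * P.Λ * (t / √τ * (t / √τ) ^ P.p⁻¹) with hc
        have q3 : t / √τ ≤ c := by
          calc t / √τ = 1 * (t / √τ * 1) := by ring
            _ ≤ c := by
              rw [hc]
              gcongr
              linarith
        have c1 : 1 ≤ c := q1.trans q3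
        have l1 := (hw _ a0.le).1
        rw [Par.lo, if_pos hl] at l1
        have l0 : 0 ≤ y √τ := (hlo 0 _ a0.le).1.trans (hw _ a0.le).1
        have l2 : y t ≤ c * y √τ := by
          calc y t ≤ P.Λ * (√P.T * t * P.jf t) := b2
            _ ≤ P.Λ * (√P.T * t * ((t / √τ) ^ P.p⁻¹ * P.jf √τ)) := by
              gcongr
              exact jpow t √τ a0 a1
            _ = c * (1 / 40 * P.bt √τ) := by
              rw [hc, Par.bt]
              field_simp
            _ ≤ c * y √τ := by gcongr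
        have l3 : t ≤ c * √τ := by rwa [div_le_iff₀ a0] at q3
        have l4 := m1 (s * y t) (s * t) (c * (s * y √τ)) (c * (s * √τ))
          (by
            rw [abs_of_nonneg (by positivity), abs_of_nonneg (by positivity), mul_left_comm]
            gcongr)
          (by
            rw [abs_of_nonneg (by positivity), abs_of_nonneg (by positivity), mul_left_comm]
            gcongr)
        refine (l4.trans (m2 c _ _ c1)).trans (mul_le_mul_of_nonneg_right ?_ (U0 _ _))
        rw [div_eq_mul_inv 2, Real.rpow_mul (by positivity), Real.rpow_two]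
        refine Real.rpow_le_rpow (by positivity) ?_ (by positivity)
        have e1 : t ^ 2 / τ = (t / √τ) ^ 2 := by rw [div_pow, Real.sq_sqrt τ0.le]
        have e2 : (t ^ 2 / τ) ^ (1 + P.p⁻¹) = (t / √τ * (t / √τ) ^ P.p⁻¹) ^ 2 := by
          rw [Real.rpow_one_add' (by positivity) (by positivity), e1, mul_pow,
            ← Real.rpow_pow_comm (by positivity)]
        rw [e2, hc, mul_pow (40 * P.Λ)]
        gcongr
        nlinarith
      · rcases lt_or_ge (P.U s (y √τ) √τ) P.M with h | h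
        · have k1 := (hvm (s * y √τ) (s * √τ)).2.2.2.1 h
          have k2 : s ^ 2 * τ ≤ P.U s (y √τ) √τ ^ (P.p - 1) := by
            have : 0 ≤ (s * y √τ) ^ 2 / (P.a + Vm P.p P.a P.M (s * y √τ) (s * √τ)) ^ 2 := by
              positivity
            rw [mul_pow s √τ, Real.sq_sqrt τ0.le] at k1
            rw [Par.U]
            linarith
          have k3 := w3 (hl.trans a1)
          have k4 : y t ^ 2 ≤ 2560 * P.Λ ^ 2 * t ^ 2 * (P.a + P.U s (y t) t) ^ 2 := by
            have := pow_le_pow_left₀ y0 b2 2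
            rw [Par.bt, mul_pow, mul_pow, mul_pow, Real.sq_sqrt hT.le] at this
            refine this.trans ?_
            calc P.Λ ^ 2 * (P.T * t ^ 2 * P.jf t ^ 2) ≤ P.Λ ^ 2 *
                  (320 * (P.a + P.U s (y t) t) * t ^ 2 * (8 * (P.a + P.U s (y t) t))) := by
                  gcongr
                  linarith
              _ = _ := by ring
          have k5 : P.U s (y t) t ^ (P.p - 1) ≤ 2600 * P.Λ ^ 2 * (s ^ 2 * t ^ 2) := by
            have i1 := (hvm (s * y t) (s * t)).2.2.1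
            have i2 : (s * y t) ^ 2 / (P.a + P.U s (y t) t) ^ 2 ≤
                2560 * P.Λ ^ 2 * (s ^ 2 * t ^ 2) := by
              rw [div_le_iff₀ (by positivity), mul_pow]
              nlinarith [mul_le_mul_of_nonneg_left k4 (sq_nonneg s)]
            have i3 : 1 * (s ^ 2 * t ^ 2) ≤ 40 * P.Λ ^ 2 * (s ^ 2 * t ^ 2) := by
              gcongr
              nlinarith
            rw [mul_pow s t] at i1
            rw [Par.U] at i2 ⊢
            linarith
          rw [← Real.rpow_le_rpow_iff (U0 _ _) (mul_nonneg (by positivity) (U0 _ _)) hp1,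
            Real.mul_rpow (by positivity) (U0 _ _), Real.rpow_inv_rpow (by positivity) hp1.ne']
          calc _ ≤ 2600 * P.Λ ^ 2 * (s ^ 2 * t ^ 2) := k5
            _ = 2600 * P.Λ ^ 2 * (t ^ 2 / τ) * (s ^ 2 * τ) := by field_simp
            _ ≤ _ := by gcongr
        · have := (hvm (s * y t) (s * t)).2.1
          rw [Par.U]
          nlinarith
  refine (mul_le_mul_of_nonneg_right h1 hW0.le).trans (le_trans (le_of_eq ?_) n2)
  have : 0 < 1 - (1 + P.p⁻¹) * (P.p - 1)⁻¹ := by linarith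
  field_simp

end Pool.Agent.MP_e4cac8_mp
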