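import Pool.Agent.Mg.Fe4cac8.G7be784
import Pool.Agent.Mg.Fe4cac8.G730c59

set_option linter.all false

section

/-! The constant terms along the small slope. -/

open Set MeasureTheory

namespace Pool.Agent.MP_e4cac8_mp

namespace G14

theorem U_mem {P : Par} (h : P.Ok) (s y t : ℝ) : 0 ≤ P.U s y t ∧ P.U s y t ≤ P.M :=
  ⟨Real.sSup_nonneg fun _ hv => hv.1.1,
    Real.sSup_le (fun _ hv => hv.1.2) (by linarith [h.TM, h.bT, h.hb])⟩

theorem quot {s T t t' j j' W W' r : ℝ} (hr : r ^ 2 = T) (hW' : 0 < W') (hW : W' ≤ W)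
    (ht' : 0 ≤ t') (ht : t' ≤ t) (hj : 0 < j) (h1 : t' * j ≤ t * j') (h2 : j ^ 2 ≤ 8 * W) :
    ((s * (1 / 40 * (r * t * j)) / W) ^ 2 - (s * (1 / 40 * (r * t' * j')) / W') ^ 2) * W ≤
      s ^ 2 * T / 100 * (t ^ 2 - t' ^ 2) := by
  have hW0 : 0 < W := hW'.trans_le hW
  have hT : 0 ≤ T := hr ▸ sq_nonneg r
  have hd : 0 ≤ t ^ 2 - t' ^ 2 := by nlinarith
  have a1 : (s * (1 / 40 * (r * t' * j')) / W) ^ 2 ≤ (s * (1 / 40 * (r * t' * j')) / W') ^ 2 := by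
    rw [div_pow, div_pow]
    exact div_le_div_of_nonneg_left (sq_nonneg _) (by positivity) (pow_le_pow_left₀ hW'.le hW 2)
  have a2 : (t * j) ^ 2 - (t' * j') ^ 2 ≤ 16 * W * (t ^ 2 - t' ^ 2) := by
    have b1 := mul_le_mul_of_nonneg_left h1 (mul_nonneg ht' hj.le)
    have b2 := mul_le_mul_of_nonneg_right h2 hd
    nlinarith [sq_nonneg (t' * j' - j * t)]
  have a3 : ((s * (1 / 40 * (r * t * j)) / W) ^ 2 - (s * (1 / 40 * (r * t' * j')) / W) ^ 2) * W =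
      s ^ 2 * T / 1600 * (((t * j) ^ 2 - (t' * j') ^ 2) / W) := by
    rw [← hr]
    field_simp
    ring
  have a4 : ((t * j) ^ 2 - (t' * j') ^ 2) / W ≤ 16 * (t ^ 2 - t' ^ 2) := by
    rw [div_le_iff₀ hW0]
    linarith
  have a5 := mul_le_mul_of_nonneg_left a4 (by positivity : 0 ≤ s ^ 2 * T / 1600)
  nlinarith [mul_le_mul_of_nonneg_right a1 hW0.le]

theorem low {s T σ j W r : ℝ} (hr : r ^ 2 = T) (hr0 : 0 ≤ r) (hW : 0 < W) (hσ : 0 ≤ σ) (hj : 0 < j)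
    (h1 : W ≤ 3 * j ^ 2) (h2 : j ^ 2 ≤ 4 * T) :
    s ^ 2 / 120 * σ ≤ 2 * s * (s * (1 / 40 * (r * σ * j)) / W) := by
  have a1 : j ≤ 2 * r := (abs_le_of_sq_le_sq' (by nlinarith) (by linarith)).2
  rw [← mul_div_assoc, le_div_iff₀ hW]
  have a2 : W ≤ 6 * (r * j) := by nlinarith
  nlinarith [mul_le_mul_of_nonneg_left a2 (by positivity : 0 ≤ s ^ 2 / 120 * σ)]

end G14

theorem stG1 (hP : StVp) (hI : StInt) (hW : StWin) : StG1 := by
  intro P h s hs t t' ht' ht hL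
  have hM : 0 < P.M := by linarith [h.TM, h.bT, h.hb]
  have hT : 0 < P.T := by linarith [h.bT, h.hb]
  have hp : 2 ≤ P.p := by linarith [h.hp, h.hD]
  have hr : √P.T ^ 2 = P.T := Real.sq_sqrt hT.le
  have hr0 : 0 ≤ √P.T := Real.sqrt_nonneg _
  have hs0 := hs.1
  have ht0 : 0 ≤ t := ht'.trans ht
  obtain ⟨⟨-, -, j0, j1, -, j2, -⟩, hc⟩ := hI P h
  obtain ⟨m1, -, m2⟩ := hP.1 P.p P.a P.M hp h.ha hM
  obtain ⟨u0, u1⟩ := G14.U_mem h s (1 / 40 * P.bt t) t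
  have u2 := (G14.U_mem h s (1 / 40 * P.bt t') t').1
  obtain ⟨w1, -, -, w2, -⟩ := hW P h s hs (1 / 40 * P.bt t) t hL
  have w3 := (w1 (j2 0 t ht0).2.2.1).2.1
  have hb : P.bt t' ≤ P.bt t := mul_le_mul (mul_le_mul_of_nonneg_left ht hr0) (j1 t t' ht' ht).1
    (j0 t').le (mul_nonneg hr0 ht0)
  have hb0 : 0 ≤ P.bt t' := mul_nonneg (mul_nonneg hr0 ht') (j0 t').le
  have mono : P.U s (1 / 40 * P.bt t') t' ≤ P.U s (1 / 40 * P.bt t) t := by
    refine m1 _ _ _ _ (abs_le_abs_of_nonneg (by positivity) ?_)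
      (abs_le_abs_of_nonneg (by positivity) (mul_le_mul_of_nonneg_left ht hs0.le))
    exact mul_le_mul_of_nonneg_left (by linarith) hs0.le
  have q := G14.quot (s := s) hr (add_pos_of_pos_of_nonneg h.ha u2) (add_le_add_right mono _)
    ht' ht (j0 t) (j1 t t' ht' ht).2 w3
  have mn := m2 (s * (1 / 40 * P.bt t')) (s * t') _ u0 u1
  have key : -(s ^ 2 * P.T / 100 * (t ^ 2 - t' ^ 2)) +
      (P.b - P.U s (1 / 40 * P.bt t) t) * (s ^ 2 * (t ^ 2 - t' ^ 2)) ≤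
      P.G s (1 / 40 * P.bt t) t - P.G s (1 / 40 * P.bt t') t' := by
    change (P.w s (1 / 40 * P.bt t) t ^ 2 - P.w s (1 / 40 * P.bt t') t' ^ 2) * _ ≤ _ at q
    change -(P.w s (1 / 40 * P.bt t') t' ^ 2 * (P.a + P.U s (1 / 40 * P.bt t') t')) -
      P.U s (1 / 40 * P.bt t') t' * _ + P.U s (1 / 40 * P.bt t') t' ^ P.p / P.p ≤
      -(P.w s (1 / 40 * P.bt t') t' ^ 2 * _) - _ + _ at mn
    simp only [Par.G]
    linarith
  have hd : 0 ≤ s ^ 2 * (t ^ 2 - t' ^ 2) := mul_nonneg (sq_nonneg s) (by nlinarith)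
  have hd2 := mul_nonneg hT.le hd
  refine ⟨fun hl => ?_, fun ρ hρ => ?_⟩
  · have a1 : P.T / 40 ≤ P.b - P.U s (1 / 40 * P.bt t) t := by linarith [w2 hl, h.Tb]
    nlinarith [mul_le_mul_of_nonneg_right a1 hd]
  · have a1 : -P.T ≤ P.b - P.U s (1 / 40 * P.bt t) t := by linarith [h.aM, h.ha, h.hb]
    have a2 : ∫ σ in t'..t, s ^ 2 / 120 * σ ≤ ∫ σ in t'..t, P.f s (1 / 40) σ := by
      refine intervalIntegral.integral_mono_on ht (Continuous.intervalIntegrable (by fun_prop) _ _)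
        (((hc s hs0).2.2.1 _).intervalIntegrable _ _) fun σ hσ => ?_
      have σ0 : 0 ≤ σ := ht'.trans hσ.1
      obtain ⟨v1, -, -, -, v2⟩ := hW P h s hs (1 / 40 * P.bt σ) σ
        ⟨σ0, (pow_le_pow_left₀ σ0 hσ.2 2).trans hL.2⟩
      exact G14.low hr hr0 (add_pos_of_pos_of_nonneg h.ha (G14.U_mem h s _ σ).1) σ0 (j0 σ)
        (v1 (j2 0 σ σ0).2.2.1).1 v2
    rw [intervalIntegral.integral_const_mul, integral_id] at a2
    have a3 := mul_le_mul hρ a2 (by linarith) (by linarith)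
    nlinarith [mul_le_mul_of_nonneg_right a1 hd]

end Pool.Agent.MP_e4cac8_mp

end

section

/-! The pointwise inequalities near the bottom of the gap. -/

open Set

namespace Pool.Agent.MP_e4cac8_mp

namespace Pt4

theorem two {P : Par} (h : P.Ok) : 1024 ≤ (2 : ℝ) ^ (P.p - 1) := by
  have := Real.rpow_le_rpow_of_exponent_le one_le_two
    (by push_cast; linarith [h.hD, h.hp] : ((10 : ℕ) : ℝ) ≤ P.p - 1)
  rw [Real.rpow_natCast] at this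
  linarith

theorem bad {p a U V N τ s Λ ε ρ : ℝ} (hp : 4 ≤ p) (ha : 0 < a) (U0 : 0 < U) (hρ : 1 ≤ ρ)
    (hR : ρ * (a + U) ≤ a + V) (hN : V ^ (p - 1) = N) (hs : 1 ≤ 2000 * Λ ^ 2 * s ^ 2)
    (C : s ^ 2 * τ ≤ 4800 * (U ^ (p - 1) * (a + U))) (τ0 : 0 ≤ τ)
    (h : 10 ^ 7 * Λ ^ 2 ≤ ε ^ 2 * ρ ^ (p - 4)) :
    τ * ((a + V) / (a + U)) ^ 4 ≤ ε ^ 2 * ((a + V) * N) := by
  have W0 : 0 < a + U := by positivity
  rw [← le_div_iff₀ W0] at hR
  have e : a + V = (a + V) / (a + U) * (a + U) := by field_simp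
  generalize (a + V) / (a + U) = R at *
  have R0 : 0 < R := by linarith
  have h1 : (R * U) ^ (p - 1) ≤ V ^ (p - 1) :=
    Real.rpow_le_rpow (by positivity) (by nlinarith) (by linarith)
  have h2 : R ^ (p - 1) = R ^ (p - 4) * R ^ 3 := by
    rw [← Real.rpow_add_natCast R0.ne']
    congr 1
    push_cast
    ring
  rw [Real.mul_rpow R0.le U0.le, hN, h2] at h1
  have h3 := h.trans (mul_le_mul_of_nonneg_left
    (Real.rpow_le_rpow (by linarith) hR (by linarith)) (sq_nonneg ε))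
  have m : 0 ≤ U ^ (p - 1) * (a + U) := by positivity
  have h4 := mul_le_mul_of_nonneg_right hs τ0
  have h5 := mul_le_mul_of_nonneg_left C (sq_nonneg Λ)
  have h6 := mul_le_mul_of_nonneg_right h3 m
  have h7 := mul_nonneg (sq_nonneg Λ) m
  have h8 := mul_le_mul_of_nonneg_right
    (by linarith : τ ≤ ε ^ 2 * R ^ (p - 4) * (U ^ (p - 1) * (a + U))) (by positivity : 0 ≤ R ^ 4)
  have h9 := mul_le_mul_of_nonneg_left h1 (by positivity : 0 ≤ ε ^ 2 * (R * (a + U)))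
  rw [e]
  linarith

theorem sum {δ W A ce cz Q S e z g q κ r : ℝ} (h0 : 0 < δ) (h1 : δ ≤ 1 / 2) (hW : 0 < W)
    (hQ : 0 ≤ Q) (hz : 0 ≤ z) (hA : 1 / 48 ≤ A * W) (k1 : κ ≤ ce * W) (k2 : κ ≤ cz * W)
    (hg : q + g ^ 2 ≤ Q + 24 * S ^ 2 + r * (e ^ 2 + z)) :
    (δ / 1256 * (q + g ^ 2) + (κ - δ / 1256 * r) * (e ^ 2 + z)) / W ≤
      A * Q + S ^ 2 / W + ce * e ^ 2 + cz * z := by
  have e1 : (A * Q + S ^ 2 / W + ce * e ^ 2 + cz * z) * W =
      A * W * Q + S ^ 2 + ce * W * e ^ 2 + cz * W * z := by field_simp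
  rw [div_le_iff₀ hW, e1]
  have a1 := mul_le_mul_of_nonneg_left hg h0.le
  have a2 := mul_le_mul_of_nonneg_right (by linarith : δ / 1256 ≤ A * W) hQ
  have a3 := mul_le_mul_of_nonneg_right h1 (sq_nonneg S)
  have a4 := mul_le_mul_of_nonneg_right k1 (sq_nonneg e)
  have a5 := mul_le_mul_of_nonneg_right k2 hz
  linarith [sq_nonneg S]

theorem good {D W A ce cz Q S e z g q : ℝ} (s : ℝ) (hD : 2 ≤ D) (hW : 0 < W) (hQ : 0 ≤ Q)
    (hz : 0 ≤ z) (hA : 1 / 48 ≤ A * W) (k1 : 1 / D / 4 * (1 / (2 * W)) ≤ ce)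
    (k2 : 1 / D / 4 * (1 / (2 * W)) ≤ cz) (hg : g ^ 2 ≤ 24 * S ^ 2 + 39 * 2 ^ 2 * (e ^ 2 + z))
    (hq : q ≤ Q + (e ^ 2 + z)) :
    s ^ 2 / (1256 * D) * ((q + g ^ 2) / W) ≤ s ^ 2 * (A * Q + S ^ 2 / W + ce * e ^ 2 + cz * z) := by
  have D0 : 0 < D := by linarith
  have a4 : 1 / D / 4 * (1 / (2 * W)) * W = 1 / D / 8 := by field_simp; ring
  have a5 := sum (r := 157) (q := q) (g := g) (S := S) (e := e) (by positivity)
    (one_div_le_one_div_of_le two_pos hD) hW hQ hz hA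
    (a4 ▸ mul_le_mul_of_nonneg_right k1 hW.le) (a4 ▸ mul_le_mul_of_nonneg_right k2 hW.le)
    (by linarith)
  refine le_of_eq_of_le ?_ (mul_le_mul_of_nonneg_left a5 (sq_nonneg s))
  field_simp
  ring

theorem poor {D W A ce cz Q S e z g q R m ε : ℝ} (s : ℝ) (hD : 2 ≤ D) (hW : 0 < W) (hQ : 0 ≤ Q)
    (hz : 0 ≤ z) (hA : 1 / 48 ≤ A * W) (k1 : -(2 * R ^ 2) ≤ ce * W) (k2 : -(2 * R ^ 2) ≤ cz * W)
    (hg : g ^ 2 ≤ 24 * S ^ 2 + 39 * R ^ 2 * (e ^ 2 + z)) (hq : q ≤ Q + (e ^ 2 + z)) (r1 : 1 ≤ R)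
    (hm : R ^ 2 ≤ m * ε) (hn : e ^ 2 + z ≤ D * q) :
    s ^ 2 / (1256 * D) * ((q + g ^ 2) / W) - 3 * D * ε * s ^ 2 * (m * q / W) ≤
      s ^ 2 * (A * Q + S ^ 2 / W + ce * e ^ 2 + cz * z) := by
  have D0 : 0 < D := by linarith
  have n0 : 0 ≤ e ^ 2 + z := by positivity
  have hδ := one_div_le_one_div_of_le two_pos hD
  have a5 := sum (r := 40 * R ^ 2) (q := q) (g := g) (S := S) (e := e) (by positivity) hδ hW hQ hz
    hA k1 k2 (by linarith [mul_le_mul_of_nonneg_right (one_le_pow₀ r1 (n := 2)) n0])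
  refine le_trans ?_ (mul_le_mul_of_nonneg_left a5 (sq_nonneg s))
  have i1 : s ^ 2 / (1256 * D) * ((q + g ^ 2) / W) - 3 * D * ε * s ^ 2 * (m * q / W) =
      s ^ 2 * ((1 / D / 1256 * (q + g ^ 2) + -(3 * (m * ε * (D * q)))) / W) := by
    field_simp
    ring
  have i4 : 0 ≤ R ^ 2 * (e ^ 2 + z) := by positivity
  have i2 := mul_le_mul hm hn n0 ((sq_nonneg R).trans hm)
  have i3 := mul_le_mul_of_nonneg_right hδ i4
  rw [i1]
  exact mul_le_mul_of_nonneg_left (div_le_div_of_nonneg_right (by linarith) hW.le) (sq_nonneg s)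

theorem small {p a U V T Λ t o w s R : ℝ} (p1 : 0 < p - 1) (ha : 0 < a) (v0 : 0 ≤ U) (V0 : 0 ≤ V)
    (VT : a + V ≤ T) (hΛ : 5 ≤ Λ) (eR : a + V = R * (a + U)) (R0 : 0 < R)
    (w8 : w ^ 2 * (a + U) ≤ 8 * Λ ^ 2 * (T * t ^ 2))
    (a1 : 64 * Λ ^ 2 * (T * t ^ 2 * R) ≤ (a + V) * (t ^ 2 + o ^ 2))
    (hc : 128 * Λ ^ 2 * (T * t ^ 2) ≤ (a + V) * (t ^ 2 + o ^ 2)) (hs : s ^ 2 ≤ 2 ^ (p - 1))
    (v2 : U ^ (p - 1) ≤ (s * t) ^ 2 + (s * w) ^ 2) (hN : V ^ (p - 1) = t ^ 2 + o ^ 2) :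
    4 * (w * (a + V)) ^ 2 ≤ ((a + V) * o) ^ 2 ∧ a + U ≤ 2 * (a + V) := by
  have W1 : 0 < a + V := by positivity
  have hT : 0 < T := by linarith
  have a2 : 8 * w ^ 2 ≤ t ^ 2 + o ^ 2 := by
    refine le_of_mul_le_mul_left ?_ W1
    have i1 := mul_le_mul_of_nonneg_left w8 R0.le
    have i2 : (a + V) * (8 * w ^ 2) = 8 * (R * (w ^ 2 * (a + U))) := by rw [eR]; ring
    linarith
  have a3 : 2 * t ^ 2 ≤ t ^ 2 + o ^ 2 := by
    refine le_of_mul_le_mul_left ?_ hT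
    have i0 : 0 ≤ T * t ^ 2 := by positivity
    have i1 := mul_le_mul_of_nonneg_right VT (by positivity : 0 ≤ t ^ 2 + o ^ 2)
    have i2 := mul_le_mul_of_nonneg_right (one_le_pow₀ (by linarith : 1 ≤ Λ) (n := 2)) i0
    linarith
  refine ⟨?_, ?_⟩
  · have := mul_le_mul_of_nonneg_right (by linarith : 4 * w ^ 2 ≤ o ^ 2) (sq_nonneg (a + V))
    linarith
  · have i1 : U ^ (p - 1) ≤ (2 * V) ^ (p - 1) := by
      rw [Real.mul_rpow zero_le_two V0, hN]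
      have := mul_le_mul hs (by linarith [sq_nonneg o] : t ^ 2 + w ^ 2 ≤ t ^ 2 + o ^ 2)
        (by positivity) (by positivity)
      linarith
    rw [Real.rpow_le_rpow_iff v0 (by positivity) p1] at i1
    linarith

theorem coef {δ W W0 R K B k A : ℝ} (h0 : 0 < δ) (h1 : δ ≤ 1 / 2) (hW0 : 0 < W0) (eR : W = R * W0)
    (hK : K = max (W0 - W) 0 + k) (hk : k ≤ δ / 8 * W0) (hB : B ≤ (1 - 7 / 8 * δ) * W0)
    (A0 : 0 < A) (hA : A * W0 ≤ 1 + δ / 8) (h : ¬ W ≤ (1 + δ / 2) * W0) :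
    1 ≤ R ∧ -(2 * R ^ 2) ≤ (2 * W0 - W - K - B) / W0 ^ 2 * W ∧
      -(2 * R ^ 2) ≤ (1 / W - A * (1 - δ)) * W := by
  rw [not_le] at h
  have := mul_pos h0 hW0
  have hW : 0 < W := by linarith
  have r1 : 1 ≤ R := le_of_mul_le_mul_right (by linarith) hW0
  refine ⟨r1, ?_, ?_⟩
  · rw [max_eq_right (by linarith)] at hK
    rw [div_mul_eq_mul_div, le_div_iff₀ (by positivity)]
    have a1 : R ^ 2 * W0 ^ 2 = W ^ 2 := by rw [eR]; ring
    have a2 := mul_le_mul_of_nonneg_right (by linarith : -(2 * W) ≤ 2 * W0 - W - K - B) hW.le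
    linarith
  · have i1 : (1 / W - A * (1 - δ)) * W = 1 - A * W0 * R + δ * (A * W) := by
      rw [mul_assoc A, mul_comm _ R, ← eR]
      field_simp
      ring
    have i2 := mul_le_mul_of_nonneg_right (by linarith : A * W0 ≤ 2) (by linarith : 0 ≤ R)
    have i3 : 0 ≤ δ * (A * W) := by positivity
    have i4 := le_self_pow₀ r1 two_ne_zero
    linarith

theorem zero {s t V U K X A Q S W ce cz e z : ℝ} (s0 : 0 < s) (t0 : 0 < t) (K0 : 0 < K)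
    (A0 : 0 < A) (hQ : 0 ≤ Q) (hW : 0 < W) (c1 : 0 < ce) (c2 : 0 < cz) (hz : 0 ≤ z)
    (low : s ^ 2 * (A * Q + S ^ 2 / W + ce * e ^ 2 + cz * z) + (s * t) ^ 2 * (V - U) ^ 2 / K ≤ X) :
    0 ≤ X ∧ (X = 0 → V = U ∧ e = 0 ∧ S = 0) := by
  have m1 : 0 ≤ A * Q := by positivity
  have m2 : 0 ≤ S ^ 2 / W := by positivity
  have m3 : 0 ≤ ce * e ^ 2 := by positivity
  have m4 : 0 ≤ cz * z := by positivity
  have c7 : 0 ≤ (s * t) ^ 2 * (V - U) ^ 2 / K := by positivity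
  refine ⟨le_trans (by positivity) low, fun h0 => ?_⟩
  rw [h0] at low
  have d0 := nonpos_of_mul_nonpos_right ((le_add_of_nonneg_right c7).trans low) (by positivity)
  have d7 := ((le_add_of_nonneg_left (by positivity)).trans low).antisymm c7
  have d5 : ce * e ^ 2 = 0 := by linarith only [d0, m1, m2, m3, m4]
  have d3 : S ^ 2 / W = 0 := by linarith only [d0, m1, m2, m3, m4]
  rw [div_eq_zero_iff, mul_eq_zero, or_iff_left K0.ne', or_iff_right (by positivity),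
    pow_eq_zero_iff two_ne_zero, sub_eq_zero] at d7
  rw [mul_eq_zero, or_iff_right c1.ne', pow_eq_zero_iff two_ne_zero] at d5
  rw [div_eq_zero_iff, or_iff_left hW.ne', pow_eq_zero_iff two_ne_zero] at d3
  exact ⟨d7, d5, d3⟩

open Pt3 in
theorem main {D p a M T Λ s t w U V A g e z q o ε X : ℝ} (hD : 2 ≤ D) (hp : 400 * D ≤ p)
    (ha : 0 < a) (hΛ : 5 ≤ Λ) (aM : a + M ≤ T) (h2 : s ^ 2 ≤ 2 ^ (p - 1)) (s0 : 0 < s)
    (s2 : 1 ≤ 2000 * Λ ^ 2 * s ^ 2) (t0 : 0 < t) (V0 : 0 ≤ V) (VM : V < M) (U0 : 0 < U)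
    (A0 : 1 / 24 ≤ A * (a + U)) (A1 : A * (a + U) ≤ 1 + 1 / (8 * D)) (hz : 0 ≤ z)
    (hq : e ^ 2 + z ≤ D * q) (hQd : e ^ 2 / (D - 1) + z / D ≤ q)
    (hN : V ^ (p - 1) = t ^ 2 + o ^ 2) (hG : (g + e) ^ 2 + z = ((a + V) * o) ^ 2) (ε0 : 0 < ε)
    (ε1 : 256 * Λ ^ 2 * ε ^ 2 ≤ 1) (ε2 : 10 ^ 7 * Λ ^ 2 ≤ ε ^ 2 * (1 + 1 / (2 * D)) ^ (p - 4))
    (v2 : U ^ (p - 1) ≤ (s * t) ^ 2 + (s * w) ^ 2)
    (v3 : U < M → U ^ (p - 1) = (s * t) ^ 2 + (s * w) ^ 2)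
    (C : U < M → s ^ 2 * (T * t ^ 2) ≤ 4800 * (U ^ (p - 1) * (a + U)))
    (w8 : w ^ 2 * (a + U) ≤ 8 * Λ ^ 2 * (T * t ^ 2))
    (hX : X = Xc p a (s * t) V U (s * w) A (s * g) (s ^ 2 * (g * e)) (s ^ 2 * (e ^ 2 + z))
      (s ^ 2 * q)) :
    (128 * Λ ^ 2 * (T * t ^ 2) ≤ (a + V) * (t ^ 2 + o ^ 2) →
      s ^ 2 / (1256 * D) * ((q + g ^ 2) / (a + V)) - 3 * D * ε * s ^ 2 *
        (min √((a + V) * (t ^ 2 + o ^ 2) / (T * t ^ 2)) ((T / a) ^ 2 / ε) * q / (a + V)) ≤ X) ∧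
    (¬ 256 * Λ ^ 2 * (T * t ^ 2) ≤ (a + V) * (t ^ 2 + o ^ 2) → 0 ≤ X ∧
      (128 * Λ ^ 2 * (T * t ^ 2) ≤ (a + V) * (t ^ 2 + o ^ 2) →
        s ^ 2 / (1256 * D) * ((q + g ^ 2) / (a + V)) ≤ X) ∧
      (X = 0 → V = U ∧ g = w * (a + U))) := by
  have W0 : 0 < a + U := by positivity
  have W1 : 0 < a + V := by positivity
  have D0 : 0 < D := by linarith only [hD]
  have p1 : 0 < p - 1 := by linarith only [hD, hp]
  have VT : a + V ≤ T := by linarith only [aM, VM]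
  have hT := W1.trans_le VT
  have τ0 : 0 < T * t ^ 2 := by positivity
  have WN : 0 < (a + V) * (t ^ 2 + o ^ 2) := by positivity
  have n0 : 0 ≤ e ^ 2 + z := by positivity
  obtain ⟨K, hK⟩ : ∃ K, K = max (U - V) 0 + 2 * U / (p - 1) := ⟨_, rfl⟩
  have K0 : 0 < K := by
    have := le_max_right (U - V) 0
    rw [hK]
    positivity
  have low := low (A := A) (g := s * g) (ε := s * e) (z := s ^ 2 * z) (q := s ^ 2 * q) hD
    (by linarith only [hD, hp]) ha V0 U0 v2 (fun h => v3 (h.trans VM)) hK K0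
  rw [show s * g * (s * e) = s ^ 2 * (g * e) by ring,
    show (s * e) ^ 2 + s ^ 2 * z = s ^ 2 * (e ^ 2 + z) by ring, ← hX] at low
  have hδ0 : 0 < 1 / D := by positivity
  have hδ1 : 1 / D ≤ 1 / 2 := one_div_le_one_div_of_le two_pos hD
  rw [show 1 / (8 * D) = 1 / D / 8 by field_simp] at A1
  rw [show 1 / (2 * D) = 1 / D / 2 by field_simp] at ε2
  have kU := kU hD (by linarith only [hD, hp] : 16 * D + 1 ≤ p) ha U0
  have kA := kA hD W0 A1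
  have hK' : K = max (a + U - (a + V)) 0 + 2 * U / (p - 1) := by
    rw [hK, add_sub_add_left_eq_sub]
  have g1 := fun β (hβ : β ≤ 1 / (a + U)) => good1 (W := a + V) hδ0 W0 hβ hK' kU kA
  have g2 := fun β (hβ : β ≤ 1 / (a + U)) => good2 hδ0 hδ1 W1 W0 hβ A1
  have bd := fun hR : ¬ a + V ≤ (1 + 1 / D / 2) * (a + U) =>
    bad (by linarith only [hD, hp]) ha U0 (by linarith only [hδ0]) (not_le.1 hR).le hN s2
      (C (by linarith only [not_le.1 hR, mul_pos hδ0 W0, VM])) τ0.le ε2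
  have q0 : q ≤ q - (e ^ 2 / (D - 1) + z / D) + (e ^ 2 + z) := by
    have h1 : e ^ 2 / (D - 1) ≤ e ^ 2 := div_le_self (sq_nonneg _) (by linarith only [hD])
    have h2 : z / D ≤ z := div_le_self hz (by linarith only [hD])
    linarith only [h1, h2]
  have Q0 := sub_nonneg.mpr hQd
  have A2 : 0 < A := (mul_pos_iff_of_pos_right W0).1 (by linarith only [A0])
  obtain ⟨R, hR⟩ : ∃ R, R = (a + V) / (a + U) := ⟨_, rfl⟩
  have eR : a + V = R * (a + U) := by rw [hR, div_mul_cancel₀ _ W0.ne']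
  have R0 : 0 < R := by rw [hR]; positivity
  have b1 := coef hδ0 hδ1 W0 eR hK' kU kA A2 A1
  rw [← hR] at bd
  obtain ⟨S, hS⟩ : ∃ S, S = g + e - w * (a + V) - e * R := ⟨_, rfl⟩
  have gr := fun μ (h1 : 1 ≤ μ) (h2 : R ≤ μ) h3 =>
    grad (g := g) (ε := e) (w := w * (a + V)) h1 hz R0.le h2 h3 hS
  generalize (2 * (a + U) - (a + V) - K - A * (D - 2) / (D - 1) * (a + U) ^ 2) / (a + U) ^ 2 = ce
    at low g1 b1
  generalize 1 / (a + V) - A * (1 - 1 / D) = cz at low g2 b1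
  replace low : s ^ 2 * (A * (q - (e ^ 2 / (D - 1) + z / D)) + S ^ 2 / (a + V) + ce * e ^ 2 +
      cz * z) + (s * t) ^ 2 * (V - U) ^ 2 / K ≤ X := by
    refine le_of_eq_of_le ?_ low
    rw [hS, hR]
    ring
  have low' := (le_add_of_nonneg_right (by positivity)).trans low
  have εN := mul_le_mul_of_nonneg_right ε1 WN.le
  have R2 : a + V ≤ (1 + 1 / D / 2) * (a + U) → R ≤ 2 := fun hb =>
    le_of_mul_le_mul_right
      (by linarith only [hb, eR, W0, mul_le_mul_of_nonneg_right hδ1 W0.le]) W0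
  have sm : 128 * Λ ^ 2 * (T * t ^ 2) ≤ (a + V) * (t ^ 2 + o ^ 2) →
      4 * (w * (a + V)) ^ 2 ≤ (g + e) ^ 2 + z ∧ a + U ≤ 2 * (a + V) := fun hc => by
    rw [hG]
    refine small p1 ha U0.le V0 VT hΛ eR R0 w8 ?_ hc h2 v2 hN
    by_cases hb : a + V ≤ (1 + 1 / D / 2) * (a + U)
    · linarith only [hc, mul_le_mul_of_nonneg_left (R2 hb) (mul_nonneg (sq_nonneg Λ) τ0.le)]
    · have i1 := mul_le_mul_of_nonneg_left (le_self_pow₀ (b1 hb).1 four_ne_zero) τ0.le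
      linarith only [WN, εN, mul_le_mul_of_nonneg_left (i1.trans (bd hb)) (sq_nonneg Λ)]
  have hA : a + U ≤ 2 * (a + V) → 1 / 48 ≤ A * (a + V) := fun h => by
    linarith only [A0, mul_le_mul_of_nonneg_left h A2.le]
  have gd : a + V ≤ (1 + 1 / D / 2) * (a + U) →
      128 * Λ ^ 2 * (T * t ^ 2) ≤ (a + V) * (t ^ 2 + o ^ 2) →
      s ^ 2 / (1256 * D) * ((q + g ^ 2) / (a + V)) ≤ X := fun hb hc => by
    obtain ⟨a1, a2⟩ := sm hc
    have a3 := one_div_le_one_div_of_le W0 a2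
    exact (good s hD W1 Q0 hz (hA a2) (g1 _ a3 hb) (g2 _ a3 hb) (gr 2 one_le_two (R2 hb) a1)
      q0).trans low'
  have q1 : 0 ≤ q := nonneg_of_mul_nonneg_right (n0.trans hq) D0
  refine ⟨fun hc => ?_, fun hc => ?_⟩
  · by_cases hb : a + V ≤ (1 + 1 / D / 2) * (a + U)
    · exact (sub_le_self _ (by positivity)).trans (gd hb hc)
    obtain ⟨a1, a2⟩ := sm hc
    obtain ⟨r1, r2, r3⟩ := b1 hb
    refine (poor s hD W1 Q0 hz (hA a2) r2 r3 (gr R r1 le_rfl a1) q0 r1 ?_ hq).trans low'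
    rw [← div_le_iff₀ ε0]
    refine le_min (Real.le_sqrt_of_sq_le ?_) ?_
    · rw [div_pow, div_le_div_iff₀ (by positivity) τ0]
      linarith only [bd hb]
    · rw [hR]
      gcongr
      exact le_add_of_nonneg_right U0.le
  · have hb : a + V ≤ (1 + 1 / D / 2) * (a + U) := by
      by_contra hb
      have i1 := mul_le_mul_of_nonneg_left (one_le_pow₀ (b1 hb).1 (n := 4)) τ0.le
      exact hc (by
        linarith only [εN, mul_le_mul_of_nonneg_left (i1.trans (bd hb)) (sq_nonneg Λ)])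
    have p0 : 0 < 1 / D / 4 * (1 / (a + U)) := by positivity
    obtain ⟨z1, z2⟩ := zero s0 t0 K0 A2 Q0 W1 (p0.trans_le (g1 _ le_rfl hb))
      (p0.trans_le (g2 _ le_rfl hb)) hz low
    refine ⟨z1, gd hb, fun h0 => ?_⟩
    obtain ⟨d7, d5, d3⟩ := z2 h0
    rw [hS, d5, d7] at d3
    exact ⟨d7, by linarith only [d3]⟩

end Pt4

theorem stPt4 (hV : StVm) (hW : StWin) : StPt4 := by
  intro P h s t y V A g Q n q o ε X hs t0 ht hw V0 VM A0 A1 g0 n0 hQ hq hq2 hN hG ε0 ε1 ε2 hX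
  obtain ⟨-, B, C⟩ := (hW P h s hs y t ht).1 hw
  have ha := h.ha
  have hΛ : 0 < P.Λ := by linarith only [h.hΛ]
  have hT : 0 < P.T := h.hb.trans_le h.bT
  have hM : 0 < P.M := V0.trans_lt VM
  obtain ⟨s0, s1, s2⟩ := hs
  obtain ⟨v0, v1, v2, v3, v4⟩ :=
    (hV P.p P.a P.M (by linarith only [h.hD, h.hp]) ha hM).2 (s * y) (s * t)
  have y1 : y ^ 2 ≤ P.Λ ^ 2 * (P.T * t ^ 2) * P.jf t ^ 2 := by
    have j0 : 0 ≤ P.jf t := by unfold Par.jf; positivity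
    have b0 : 0 ≤ P.bt t := by unfold Par.bt; positivity
    have y0 : 0 ≤ y := by
      refine le_trans ?_ hw.1
      unfold Par.lo
      split_ifs <;> positivity
    refine (pow_le_pow_left₀ y0 hw.2 2).trans_eq ?_
    rw [Par.bt, mul_pow, mul_pow, mul_pow, Real.sq_sqrt hT.le, ← mul_assoc]
  replace y1 := y1.trans (mul_le_mul_of_nonneg_left B (by positivity))
  clear hw B
  unfold Par.w at hX
  unfold Par.U at *
  generalize Vm P.p P.a P.M (s * y) (s * t) = U at *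
  have U0 : 0 < U := by
    rw [v4]
    exact lt_min hM (Real.rpow_pos_of_pos (by positivity) _)
  have W0 : 0 < P.a + U := by positivity
  obtain ⟨w, rfl⟩ : ∃ w, y = w * (P.a + U) := ⟨y / (P.a + U), by field_simp⟩
  rw [← div_pow, mul_div_assoc, mul_div_cancel_right₀ _ W0.ne'] at v2 v3
  rw [mul_div_assoc, mul_div_cancel_right₀ _ W0.ne'] at hX
  obtain ⟨e, z, rfl, rfl, hz, hQd⟩ := Pt3.split h.hD g0 n0 hQ hq hq2
  have ec : ∀ x y : ℝ, x ≤ 1 / (128 * P.Λ ^ 2) * y ↔ 128 * P.Λ ^ 2 * x ≤ y := fun x y => by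
    rw [one_div_mul_eq_div, le_div_iff₀' (by positivity)]
  have ed : ∀ x y : ℝ, x ≤ 1 / (128 * P.Λ ^ 2) / 2 * y ↔ 256 * P.Λ ^ 2 * x ≤ y := fun x y => by
    rw [div_div, one_div_mul_eq_div, le_div_iff₀' (by positivity)]
    constructor <;> intro h <;> linarith only [h]
  rw [ec, ed]
  exact Pt4.main h.hD h.hp ha h.hΛ h.aM
    (((pow_le_pow_left₀ s0.le s1 2).trans (by norm_num)).trans (Pt4.two h)) s0 s2 t0 V0 VM U0 A0 A1
    hz hq hQd hN (by linarith only [hG]) ε0 ε1 ε2 v2 v3 C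
    (le_of_mul_le_mul_right (by linarith only [y1]) W0) hX

end Pool.Agent.MP_e4cac8_mp

end
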