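import Pool.Agent.Mg.Fe4cac8.G4fa3ae
import Pool.Agent.Mg.Fe4cac8.Gcd76ec
import Pool.Agent.Mg.Fe4cac8.G9fbb9e
import Pool.Agent.Mg.Fe4cac8.Gf65bbc
import Pool.Agent.Mg.Fe4cac8.Gf4e562
import Pool.Agent.Mg.Fe4cac8.G23b726
import Pool.Agent.Mg.Fe4cac8.G7be784
import Pool.Agent.Mg.Fe4cac8.Ge2dd5f
import Pool.Agent.Mg.Fe4cac8.G491f59
import Pool.Agent.Mg.Fe4cac8.Gf87333
import Pool.Agent.Mg.Fe4cac8.Gbe4cb2
import Pool.Agent.Mg.Fe4cac8.Gc30af2
import Pool.Agent.Mg.Fe4cac8.G38c538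
import Pool.Agent.Mg.Fe4cac8.Gb0adc1
import Pool.Agent.Mg.Fe4cac8.G29f694

set_option linter.all false

section

/-! The symmetry theorem at large exponents. -/

open Set MeasureTheory
open Pool.Agent.MP_0b7119_mp.G

namespace Pool.Agent.MP_e4cac8_mp

variable {E S : Type} [NormedAddCommGroup E] [InnerProductSpace ℝ E] [FiniteDimensional ℝ E]
  [MeasurableSpace E] [BorelSpace E] [NormedAddCommGroup S] [InnerProductSpace ℂ S]
  [CompleteSpace S] [FiniteDimensional ℂ S] {d : ℕ}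
  {α : Fin d → S →L[ℂ] S} {β : S →L[ℂ] S}

theorem final3 (e : OrthonormalBasis (Fin d) ℝ E) (hr : IsDiracRep α β) (hd : 2 ≤ d)
    (hS : 2 ≤ Module.finrank ℂ S) :
    ∃ γ p₀ c K : ℝ, 0 < γ ∧ 0 < c ∧ 1 ≤ K ∧ ∀ m p A : ℝ, 0 < m → (d : ℝ) < p → 0 < A →
      ENNReal.ofReal A < alphaStar e α β m p →
      ∀ V ∈ Pot E p, eLpNorm V (ENNReal.ofReal p) volume = ENNReal.ofReal A →
      (∀ W ∈ Pot E p, eLpNorm W (ENNReal.ofReal p) volume = ENNReal.ofReal A →
        lamD e α β m V ≤ lamD e α β m W) →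
      ((p₀ ≤ p ∧ m * Real.exp (-(γ * p)) ≤ m + lamD e α β m V) ∨
        A ^ p ≤ c * (2 * m) ^ (p - d) ∨
        ENNReal.ofReal ((K * p ^ (d / 2 : ℝ)) ^ p⁻¹ * A) < alphaStar e α β m p) → Radial V := by
  have : Nontrivial S := Module.nontrivial_of_finrank_pos (R := ℂ) (by omega)
  have hc : Ctx α β 1 := ⟨hr, hd, one_pos, exists_ne 0⟩
  have hA : StAlg e α := stAlg hc
  have h0 : StNL0 e α := stNL0 hc
  exact finalC hr hd (exists_ne 0) (all2 e)
    (fun m hm => stStr3 hm h0 (stReg1 e α β m hm) (stReg2 hm) (stK hm))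
    (stCmp3 hc stVm (stNL hc h0 stMC hA) hA (stAlg2b hc) stCap (stNB hc h0 hA (stNBw hc h0 hA)))
    stTent2 (stSup hr hd)

end Pool.Agent.MP_e4cac8_mp

end

section

/-! Assembly of the symmetry theorem for all norms at large exponents. -/

open Set MeasureTheory Filter Topology
open scoped ENNReal NNReal SchwartzMap
open Pool.Agent.MP_0b7119_mp.G

namespace Pool.Agent.MP_e4cac8_mp

set_option linter.unusedSectionVars false

variable {E S : Type} [NormedAddCommGroup E] [InnerProductSpace ℝ E] [FiniteDimensional ℝ E]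
  [MeasurableSpace E] [BorelSpace E] [NormedAddCommGroup S] [InnerProductSpace ℂ S]
  [CompleteSpace S] [FiniteDimensional ℂ S] {d : ℕ}
  {e : OrthonormalBasis (Fin d) ℝ E} {α : Fin d → S →L[ℂ] S} {β : S →L[ℂ] S} {m : ℝ}

/-- The height of an optimal potential in terms of its own norm. -/
theorem height_opt2 (hS : StSup e α β) : ∃ c : ℝ, 0 < c ∧ ∀ m, Ctx α β m → All2 e α β m →
    ∀ (p A : ℝ) (V : E → ℝ), (d : ℝ) < p → 0 < A → PotR p A V → Gap e α β m p A →
    Opt e α β m p A (lamD e α β m V) → ∃ M, 0 < M ∧ (∀ᵐ x, V x ≤ M) ∧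
      c * M ^ p ≤ max m M ^ d * ∫ x, V x ^ p := by
  obtain ⟨c, hc0, hS⟩ := hS
  refine ⟨c, hc0, fun m hc H p A V hp hA h1 hG h2 => ?_⟩
  have hD : (2 : ℝ) ≤ d := by exact_mod_cast hc.two
  obtain ⟨M₁, hM0, hM1⟩ := bdd_opt hc H hp hA h1 hG h2
  have he' : V =ᵐ[volume] fun x => min (V x) M₁ := by
    filter_upwards [hM1] with x hx
    rw [min_eq_left hx]
  have hV' := h1.of_le (by linarith) (h1.meas.min (measurable_const (a := M₁)))
    (fun x => le_min (h1.nonneg x) hM0) fun x => min_le_left _ _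
  rw [lamD_congr he'] at h2
  obtain ⟨hlI, -⟩ := lam_mem hc H hp.le hA hV' hG h2
  obtain ⟨Ψ, u, k, hk, hΨ, hEL, -⟩ := trunk hc H hp.le hA hV' (fun x => min_le_right _ _) hG h2
  have hI : 0 ≤ ∫ x, V x ^ p := integral_nonneg fun x => Real.rpow_nonneg (h1.nonneg x) p
  have e1 := Real.rpow_inv_rpow hI (by linarith : p ≠ 0)
  have hV2 : PotR p ((∫ x, V x ^ p) ^ p⁻¹) V := ⟨h1.meas, h1.nonneg, h1.int, e1.ge⟩
  obtain ⟨M, hM, hVM, hcM⟩ := hS m hc.pos _ hlI p _ k _ Ψ (by linarith) hk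
    (hV2.of_le (by linarith) hV'.meas hV'.nonneg fun x => min_le_left _ _) hΨ hEL
  refine ⟨M, hM, ?_, by rwa [e1] at hcM⟩
  filter_upwards [hVM, he'] with x hx hx'
  rwa [hx']

theorem ev_pow {D K : ℝ} (hD : 0 < D) : ∀ᶠ p : ℝ in atTop, K ≤ (1 + 1 / (32 * D)) ^ (p - 5) :=
  ((tendsto_rpow_atTop_of_base_gt_one _ (lt_add_of_pos_right 1 (by positivity))).comp
    (tendsto_atTop_add_const_right _ (-5) tendsto_id)).eventually_ge_atTop K

/-- Symmetry in the lower half of the gap. -/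
theorem mainD (H4 : StCmp4 e α) (hT : StTent2 E) (hS : StSup e α β) (hd : 2 ≤ d) :
    ∃ p₀ : ℝ, ∀ m, Ctx α β m → All2 e α β m → StStr3 e α β m →
    ∀ (p A : ℝ) (V : E → ℝ), p₀ ≤ p → 0 < A → PotR p A V → Gap e α β m p A →
    Opt e α β m p A (lamD e α β m V) → lamD e α β m V ≤ 0 → Radial V := by
  have hD : (2 : ℝ) ≤ d := by exact_mod_cast hd
  have hω : 0 < om E := om_pos
  obtain ⟨C, -, H4⟩ := H4
  obtain ⟨c, hc0, hH⟩ := height_opt2 hS
  obtain ⟨ρ, hρ0, hρ1, hρ2⟩ : ∃ ρ : ℝ, 0 < ρ ∧ ρ ≤ 1 / 320 ∧ ρ ≤ c / (128 * om E) :=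
    ⟨min _ _, lt_min (by norm_num) (by positivity), min_le_left _ _, min_le_right _ _⟩
  obtain ⟨p₀, hp₀⟩ := eventually_atTop.mp ((eventually_ge_atTop (400 * d : ℝ)).and
    ((Lg.three (K := 3 * om E * (2 * √(2 ^ d)) ^ d) d hc0).and
      ((ev_pow (D := d) (K := 10 ^ 7 * (2600 * d / ρ) ^ 4) (by linarith)).and
        (ev_pow (D := d) (K := C * (2600 * d / ρ) ^ 6) (by linarith)))))
  refine ⟨p₀, fun m hc H hS3 p A V hp hA hV hG hopt hl0 => ?_⟩
  obtain ⟨b0, b2, b3, b4⟩ := hp₀ p hp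
  have hm := hc.pos
  have hp' : (d : ℝ) < p := by linarith
  obtain ⟨M, hM0, hVM, hM⟩ := hH m hc H p A V hp' hA hV hG hopt
  have h3 : M < 3 * m := by
    by_contra hn
    have h4 := (Lg.height hc0 hm hp'.le (by norm_num)
      (hM.trans (mul_le_mul_of_nonneg_left hV.le (by positivity))) (not_lt.mp hn)).trans
      (ub hc H hT (by linarith) hA hG)
    rw [show 3 * m = 3 / 2 * (2 * m) by ring, Real.mul_rpow (by norm_num) (by positivity),
      ← mul_assoc] at h4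
    linarith [le_of_mul_le_mul_right h4 (by positivity)]
  have he : V =ᵐ[volume] fun x => min (V x) M := by
    filter_upwards [hVM] with x hx
    rw [min_eq_left hx]
  have hI : ∫ x, V x ^ p = ∫ x, min (V x) M ^ p :=
    integral_congr_ae (he.mono fun x hx => congrArg (· ^ p) hx)
  rw [lamD_congr he] at hopt hl0
  have hV' := hV.of_le (by linarith) (hV.meas.min (measurable_const (a := M)))
    (fun x => le_min (hV.nonneg x) hM0.le) fun x => min_le_left _ _
  obtain ⟨hlI, hP⟩ := lam_mem hc H hp'.le hA hV' hG hopt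
  obtain ⟨Ψ, -, k, hk, hΨ, hEL, -⟩ := trunk hc H hp'.le hA hV' (fun x => min_le_right _ _) hG hopt
  obtain ⟨u, w, hu, hw⟩ := hS3 _ hlI p M k _ Ψ (by linarith) hk hV'.meas
    (fun x => ⟨hV'.nonneg x, min_le_right _ _⟩) hΨ hEL
  generalize lamD e α β m (fun x => min (V x) M) = l at *
  have ha : 0 < m + l := by linarith [hlI.1]
  have hb : 0 < m - l := by linarith [hlI.2]
  have hR := H.tr _ _ p A (8 * m) ha (by linarith) (H.p1 _ hlI p A _ (hP _))
  obtain ⟨-, -, -, L, hL⟩ := H.alg u hu.reg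
  obtain ⟨φ, y, hre⟩ := H.re L _ hL
  have hΛ : 5 ≤ 2600 * (d : ℝ) / ρ := by
    rw [le_div_iff₀ hρ0]
    linarith
  have hI0 : 0 ≤ ∫ x, V x ^ p := integral_nonneg fun x => Real.rpow_nonneg (hV.nonneg x) p
  have hmass : om E * (ρ / (10 * m)) ^ d * M ^ p ≤ (∫ x, min (V x) M ^ p) / 128 := by
    have h1 : ρ ^ d ≤ c / (128 * om E) :=
      (pow_le_of_le_one hρ0.le (by linarith) (by omega)).trans hρ2
    have h2 : c * M ^ p ≤ (10 * m) ^ d * ∫ x, V x ^ p := hM.trans (mul_le_mul_of_nonneg_right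
      (pow_le_pow_left₀ (le_max_of_le_left hm.le) (max_le (by linarith) (by linarith)) d) hI0)
    rw [← hI, div_pow]
    calc _ ≤ om E * (c / (128 * om E) / (10 * m) ^ d) * M ^ p := by gcongr
      _ = c * M ^ p / ((10 * m) ^ d * 128) := by field_simp
      _ ≤ (10 * m) ^ d * (∫ x, V x ^ p) / ((10 * m) ^ d * 128) := by gcongr
      _ = _ := by field_simp
  obtain ⟨s, hs, hprof, h1, h2⟩ := H4 ⟨d, p, m + l, m - l, 8 * m, 10 * m, 2600 * d / ρ⟩ A M
    (ρ / (10 * m)) _ u w L φ y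
    ⟨hD, b0, ha, hb, by simp only; linarith, by simp only; linarith [hlI.1],
      by simp only; linarith, by simp only; linarith, hΛ, b3⟩
    rfl b4 hM0.le (by simp only; linarith) (by positivity)
    (by simp only; rw [mul_assoc, mul_div_cancel₀ _ (by positivity)]; linarith)
    (by simp only; rw [mul_assoc, mul_div_cancel₀ _ (by positivity), div_mul_cancel₀ _ hρ0.ne'])
    hmass hV' (fun x => min_le_right _ _) hu hw hR hre
  obtain ⟨x₀, φ, h1, h2⟩ := tail hc H ha hb (by linarith) (by linarith) hs hu hR hL hre hprof h1 h2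
  exact ⟨x₀, φ, h1, he.trans h2⟩

theorem finalD (hr : IsDiracRep α β) (hd : 2 ≤ d) (hn : ∃ ξ : S, ξ ≠ 0)
    (H : ∀ m, Ctx α β m → All2 e α β m) (H' : ∀ m, Ctx α β m → StStr3 e α β m) (H3 : StCmp3 e α)
    (H4 : StCmp4 e α) (hT : StTent2 E) (hS : StSup e α β) :
    ∃ p₀ : ℝ, ∀ m p A : ℝ, 0 < m → p₀ ≤ p → 0 < A → ENNReal.ofReal A < alphaStar e α β m p →
      ∀ V ∈ Pot E p, eLpNorm V (ENNReal.ofReal p) volume = ENNReal.ofReal A →
      (∀ W ∈ Pot E p, eLpNorm W (ENNReal.ofReal p) volume = ENNReal.ofReal A →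
        lamD e α β m V ≤ lamD e α β m W) → Radial V := by
  obtain ⟨γ, c, p₀, hγ, -, hL⟩ := largeP H3 hT hS hd
  obtain ⟨p₁, hD⟩ := mainD H4 hT hS hd
  refine ⟨max 1 (max p₀ p₁), fun m p A hm hp hA hs V hV hVA hopt => ?_⟩
  obtain ⟨h1, h2, h3⟩ : 1 ≤ p ∧ p₀ ≤ p ∧ p₁ ≤ p := by simpa only [max_le_iff] using hp
  have hc : Ctx α β m := ⟨hr, hd, hm, hn⟩
  have hp0 : 0 < p := by linarith
  obtain ⟨V', he, h4, h5⟩ := reduce hp0 hA hV hVA hopt
  have hG := gap_of_lt hp0 hA hs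
  obtain ⟨x₀, φ, h6, h7⟩ : Radial V' := by
    rcases le_total (lamD e α β m V') 0 with h | h
    · exact hD m hc (H m hc) (H' m hc) p A V' h3 hA h4 hG h5 h
    · refine hL m hc (H m hc) (H' m hc) p A V' h2 hA h4 hG h5 (Or.inl ?_)
      have : Real.exp (-(γ * p)) ≤ 1 := Real.exp_le_one_iff.mpr (neg_nonpos.mpr (by positivity))
      nlinarith
  exact ⟨x₀, φ, h6, he.trans h7⟩

end Pool.Agent.MP_e4cac8_mp

end

section

/-! The mass of the upper spinor. -/

open Set MeasureTheory Filter Topology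
open scoped ENNReal NNReal
open Pool.Agent.MP_0b7119_mp.G

namespace Pool.Agent.MP_e4cac8_mp

set_option linter.unusedSectionVars false

theorem Mass1.pow_eq {p V : ℝ} (hp : 4 ≤ p) (hV : 0 ≤ V) : V ^ p = V * V ^ (p - 1) := by
  rw [mul_comm, ← Real.rpow_add_one' hV (by linarith), sub_add_cancel]

theorem Mass1.pow_pow {p V : ℝ} (hp : 4 ≤ p) (hV : 0 ≤ V) :
    (V ^ (p - 1)) ^ (p / (p - 1)) = V ^ p := by
  rw [← Real.rpow_mul hV, mul_div_cancel₀ _ (by linarith)]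

theorem Mass1.pt {p b V t o : ℝ} (hp : 4 ≤ p) (hb : 0 < b) (hV : 0 ≤ V) (ht : 0 ≤ t)
    (el : V ^ (p - 1) = t ^ 2 + o ^ 2) :
    (2 * V - b) * t ^ 2 ≤ V ^ p / 4 ∨
      (tl p b ≤ t ∧ (2 * V - b) * t ^ 2 ≤ 32 * (t ^ 2) ^ (p / (p - 1))) := by
  have h0 : 0 ≤ V ^ p := Real.rpow_nonneg hV p
  have h1 := Mass1.pow_eq hp hV
  have h2 : 0 ≤ b * t ^ 2 := by positivity
  rcases le_or_gt V (b / 2) with h | h
  · exact Or.inl (by nlinarith [sq_nonneg t])
  rcases le_or_gt (8 * t ^ 2) (V ^ (p - 1)) with h3 | h3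
  · exact Or.inl (by nlinarith [mul_le_mul_of_nonneg_left h3 hV])
  refine Or.inr ⟨?_, ?_⟩
  · have h4 : (b / 2) ^ (p - 1) ≤ V ^ (p - 1) :=
      Real.rpow_le_rpow (by positivity) h.le (by linarith)
    exact Real.sqrt_le_iff.mpr ⟨ht, by linarith⟩
  · have hq : p / (p - 1) ≤ 4 / 3 := by
      rw [div_le_div_iff₀ (by linarith) (by norm_num)]
      linarith
    have h5 : (8 : ℝ) ^ (p / (p - 1)) ≤ 16 := by
      refine (Real.rpow_le_rpow_of_exponent_le (by norm_num) hq).trans (le_of_eq ?_)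
      rw [show (8 : ℝ) = 2 ^ (3 : ℝ) by norm_num, ← Real.rpow_mul (by norm_num)]
      norm_num
    have h6 : V ^ p ≤ 16 * (t ^ 2) ^ (p / (p - 1)) := by
      rw [← Mass1.pow_pow hp hV]
      refine (Real.rpow_le_rpow (Real.rpow_nonneg hV _) h3.le
        (div_nonneg (by linarith) (by linarith))).trans ?_
      rw [Real.mul_rpow (by norm_num) (sq_nonneg t)]
      exact mul_le_mul_of_nonneg_right h5 (Real.rpow_nonneg (sq_nonneg t) _)
    have h7 : V * t ^ 2 ≤ V ^ p := by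
      rw [h1, el]
      nlinarith [mul_nonneg hV (sq_nonneg o)]
    nlinarith

variable {E S : Type} [NormedAddCommGroup E] [InnerProductSpace ℝ E] [FiniteDimensional ℝ E]
  [MeasurableSpace E] [BorelSpace E] [NormedAddCommGroup S] [InnerProductSpace ℂ S]
  [CompleteSpace S] [FiniteDimensional ℂ S] {d : ℕ}
  {e : OrthonormalBasis (Fin d) ℝ E} {α : Fin d → S →L[ℂ] S}

theorem stMass1 (hA : StAlg e α) : StMass1 e α := by
  intro a b p A M₀ V u w ha hb hp hVp hVM hu hpair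
  obtain ⟨⟨-, -, -, -, cZ, -⟩, hZ, -, -⟩ := hA u hu.reg
  have cu : Continuous u := hu.reg.c1.continuous
  have mρ : Measurable fun x => ‖u x‖ := cu.norm.measurable
  have iρ : Integrable (fun x => ‖u x‖ ^ 2) volume := JD.int_sq hu.reg.l2
  have hW : ∀ x, 0 < a + V x := fun x => by linarith [hVp.nonneg x]
  have bdd : ∀ {f w : E → ℝ} (K : ℝ), Integrable f volume → Measurable w →
      (∀ x, |w x| ≤ K) → Integrable (fun x => w x * f x) volume := fun K hf hw hK =>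
    hf.bdd_mul hw.aestronglyMeasurable (Eventually.of_forall hK)
  have iZ : Integrable (fun x => ‖Zf e α u x‖ ^ 2) volume :=
    (hu.reg.dl2.const_mul d).mono' (cZ.norm.pow 2).aestronglyMeasurable
      (Eventually.of_forall fun x => by rw [Real.norm_of_nonneg (sq_nonneg _)]; exact hZ x)
  have iZW : Integrable (fun x => ‖Zf e α u x‖ ^ 2 / (a + V x)) volume := by
    simpa only [one_div_mul_eq_div] using bdd (w := fun x => 1 / (a + V x)) (1 / a) iZ
      ((hVp.meas.const_add a).const_div 1) fun x => by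
        rw [abs_of_pos (one_div_pos.mpr (hW x))]
        exact one_div_le_one_div_of_le ha (by linarith [hVp.nonneg x])
  have iU : Integrable (fun x => (V x - b) * ‖u x‖ ^ 2) volume :=
    bdd (M₀ + b) iρ (hVp.meas.sub_const b) fun x => by
      rw [abs_le]
      constructor <;> linarith [hVp.nonneg x, hVM x]
  have iE : Integrable (fun x => ‖Zf e α u x‖ ^ 2 / (a + V x) - (V x - b) * ‖u x‖ ^ 2) volume :=
    iZW.sub iU
  have hae : ∀ᵐ x, V x ^ (p - 1) = ‖u x‖ ^ 2 + ‖w x‖ ^ 2 ∧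
      V x ^ p = V x * ‖u x‖ ^ 2 + V x * ‖w x‖ ^ 2 ∧ 0 ≤ V x * ‖w x‖ ^ 2 ∧
      V x * ‖w x‖ ^ 2 ≤ ‖Zf e α u x‖ ^ 2 / (a + V x) := by
    filter_upwards [hpair.zu, hpair.el] with x hx hl
    refine ⟨hl, by rw [Mass1.pow_eq hp (hVp.nonneg x), hl, mul_add],
      mul_nonneg (hVp.nonneg x) (sq_nonneg _), ?_⟩
    rw [hx, norm_smul, norm_smul, Complex.norm_I, one_mul, Complex.norm_real,
      Real.norm_of_nonneg (hW x).le, le_div_iff₀ (hW x)]
    nlinarith [mul_nonneg (mul_pos ha (hW x)).le (sq_nonneg ‖w x‖)]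
  have key : ∀ F : E → ℝ, Integrable F volume →
      (∀ᵐ x, (2 * V x - b) * ‖u x‖ ^ 2 ≤ 2 * F x + V x ^ p / 4) →
      3 / 8 * ∫ x, V x ^ p ≤ ∫ x, F x := by
    intro F iF hF
    have h1 : ∫ x, 3 / 4 * V x ^ p ≤ ∫ x, ((‖Zf e α u x‖ ^ 2 / (a + V x) -
        (V x - b) * ‖u x‖ ^ 2) + 2 * F x) := by
      refine integral_mono_ae (hVp.int.const_mul _) (iE.add (iF.const_mul 2)) ?_
      filter_upwards [hae, hF] with x hx h2
      obtain ⟨-, h3, -, h4⟩ := hx
      nlinarith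
    rw [integral_add iE (iF.const_mul 2), integral_const_mul, integral_const_mul] at h1
    linarith [hu.en]
  have hp0 : ∀ x, 0 ≤ V x ^ p := fun x => Real.rpow_nonneg (hVp.nonneg x) p
  refine ⟨?_, ?_, ?_, ?_⟩
  · have hΩ : MeasurableSet {x | 0 < ‖u x‖} := measurableSet_lt measurable_const mρ
    rw [← integral_indicator hΩ]
    refine key _ (hVp.int.indicator hΩ) ?_
    filter_upwards [hae] with x hx
    obtain ⟨-, h3, h4, -⟩ := hx
    have := hp0 x
    by_cases h : 0 < ‖u x‖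
    · rw [indicator_of_mem (show x ∈ {x | 0 < ‖u x‖} from h)]
      nlinarith [mul_nonneg hb.le (sq_nonneg ‖u x‖)]
    · rw [indicator_of_notMem (show x ∉ {x | 0 < ‖u x‖} from h),
        le_antisymm (not_lt.mp h) (norm_nonneg _)]
      nlinarith
  · have h1 : ∫ x, b * ‖u x‖ ^ 2 ≤ ∫ x, ((‖Zf e α u x‖ ^ 2 / (a + V x) -
        (V x - b) * ‖u x‖ ^ 2) + V x ^ p) := by
      refine integral_mono_ae (iρ.const_mul _) (iE.add hVp.int) ?_
      filter_upwards [hae] with x hx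
      obtain ⟨-, h3, h4, h5⟩ := hx
      nlinarith
    rw [integral_add iE hVp.int, integral_const_mul] at h1
    linarith [hu.en]
  · have h1 : volume {x | M₀ ^ (p - 1) < ‖u x‖ ^ 2} = 0 := by
      refine measure_mono_null ?_ (ae_iff.mp hae)
      intro x hx h
      have h2 : V x ^ (p - 1) ≤ M₀ ^ (p - 1) :=
        Real.rpow_le_rpow (hVp.nonneg x) (hVM x) (by linarith)
      have h3 : M₀ ^ (p - 1) < ‖u x‖ ^ 2 := hx
      linarith [h.1, sq_nonneg ‖w x‖]
    replace h1 := ((isOpen_lt continuous_const (cu.norm.pow 2)).measure_eq_zero_iff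
      (volume : Measure E)).mp h1
    intro x
    by_contra h
    exact (h1 ▸ (show x ∈ {x | M₀ ^ (p - 1) < ‖u x‖ ^ 2} from not_le.mp h) : x ∈ (∅ : Set E))
  · have hΩ : MeasurableSet {x | tl p b ≤ ‖u x‖} := measurableSet_le measurable_const mρ
    have i1 : Integrable (fun x => (‖u x‖ ^ 2) ^ (p / (p - 1))) volume := by
      refine hVp.int.mono' ((mρ.pow_const 2).pow_const _).aestronglyMeasurable ?_
      filter_upwards [hae] with x hx
      rw [Real.norm_of_nonneg (Real.rpow_nonneg (sq_nonneg _) _),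
        ← Mass1.pow_pow hp (hVp.nonneg x)]
      exact Real.rpow_le_rpow (sq_nonneg _) (by linarith [hx.1, sq_nonneg ‖w x‖])
        (div_nonneg (by linarith) (by linarith))
    have h1 := key (fun x => 16 * indicator {x | tl p b ≤ ‖u x‖}
        (fun x => (‖u x‖ ^ 2) ^ (p / (p - 1))) x) ((i1.indicator hΩ).const_mul 16) (by
      filter_upwards [hae] with x hx
      have h2 : 0 ≤ indicator {x | tl p b ≤ ‖u x‖} (fun x => (‖u x‖ ^ 2) ^ (p / (p - 1))) x :=
        indicator_nonneg (fun y _ => Real.rpow_nonneg (sq_nonneg _) _) x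
      rcases Mass1.pt hp hb (hVp.nonneg x) (norm_nonneg _) hx.1 with h | h
      · linarith
      · rw [indicator_of_mem (show x ∈ {x | tl p b ≤ ‖u x‖} from h.1)]
        linarith [h.2, hp0 x])
    rw [integral_const_mul, integral_indicator hΩ] at h1
    have h3 : 0 ≤ ∫ x, V x ^ p := integral_nonneg hp0
    linarith

end Pool.Agent.MP_e4cac8_mp

end

section

/-! Integration by parts on an interval. -/

open Set MeasureTheory Filter Topology
open scoped ENNReal NNReal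

namespace Pool.Agent.MP_e4cac8_mp

namespace OS4

theorem ac {f ψ : ℝ → ℝ} (hf : Continuous f) {L : ℝ≥0} (hψ : LipschitzWith L ψ) (x y : ℝ) :
    AbsolutelyContinuousOnInterval (fun r => ∫ σ in (0 : ℝ)..ψ r, f σ) x y := by
  have hd : ∀ t, HasDerivAt (fun u => ∫ σ in (0 : ℝ)..u, f σ) (f t) t := fun t =>
    (hf.integral_hasStrictDerivAt 0 t).hasDerivAt
  have hc : ContDiff ℝ 1 fun u => ∫ σ in (0 : ℝ)..u, f σ := by
    refine contDiff_one_iff_deriv.2 ⟨fun t => (hd t).differentiableAt, ?_⟩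
    rw [show (deriv fun u => ∫ σ in (0 : ℝ)..u, f σ) = f from funext fun t => (hd t).deriv]
    exact hf
  obtain ⟨K, hK⟩ := LocallyLipschitzOn.exists_lipschitzOnWith_of_compact
    (isCompact_uIcc (a := x) (b := y))
    (hc.locallyLipschitz.comp hψ.locallyLipschitz).locallyLipschitzOn
  exact hK.absolutelyContinuousOnInterval

end OS4

theorem stOS : StOS := by
  intro k x y f ψ χ Q _hk _hx hxy hf ⟨L₁, hψ⟩ ⟨L₂, hχ⟩ hQ h
  have hd : ∀ t, HasDerivAt (fun u => ∫ σ in (0 : ℝ)..u, f σ) (f t) t := fun t =>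
    (hf.integral_hasStrictDerivAt 0 t).hasDerivAt
  have e : ∀ r, (∫ σ in χ r..ψ r, f σ) =
      (∫ σ in (0 : ℝ)..ψ r, f σ) - ∫ σ in (0 : ℝ)..χ r, f σ := fun r =>
    (intervalIntegral.integral_interval_sub_left (hf.intervalIntegrable _ _)
      (hf.intervalIntegrable _ _)).symm
  simp only [e] at h ⊢
  have hp : AbsolutelyContinuousOnInterval (fun r : ℝ => r ^ k) x y :=
    (contDiff_id.pow k).contDiffOn.absolutelyContinuousOnInterval
  have hF : AbsolutelyContinuousOnInterval (fun r : ℝ =>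
      ((∫ σ in (0 : ℝ)..ψ r, f σ) - ∫ σ in (0 : ℝ)..χ r, f σ) * r ^ k) x y :=
    ((OS4.ac hf hψ x y).sub (OS4.ac hf hχ x y)).mul hp
  have n0 : ∀ t : ℝ, ∀ᵐ r : ℝ, r ≠ t := fun t => by simp [ae_iff, measure_singleton]
  have a1 := intervalIntegral.integral_mono_ae_restrict hxy hF.intervalIntegrable_deriv.neg hQ
    ((ae_restrict_iff' measurableSet_Icc).2 (by
      filter_upwards [h, n0 x, n0 y, hψ.ae_differentiableAt_real, hχ.ae_differentiableAt_real]
        with r b1 b2 b3 b4 b5 b6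
      have c1 := (((hd (ψ r)).comp r b4.hasDerivAt).sub ((hd (χ r)).comp r b5.hasDerivAt)).mul
        (hasDerivAt_pow k r)
      have c2 : deriv (fun r : ℝ =>
          ((∫ σ in (0 : ℝ)..ψ r, f σ) - ∫ σ in (0 : ℝ)..χ r, f σ) * r ^ k) r = _ := c1.deriv
      rw [Pi.neg_apply, c2]
      exact b1 ⟨lt_of_le_of_ne b6.1 b2.symm, lt_of_le_of_ne b6.2 b3⟩))
  simp only [Pi.neg_apply] at a1
  rw [intervalIntegral.integral_neg, hF.integral_deriv_eq_sub] at a1
  linarith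

end Pool.Agent.MP_e4cac8_mp

end

section

/-! The symmetry theorem for all norms at large exponents. -/

open Set MeasureTheory
open Pool.Agent.MP_0b7119_mp.G

namespace Pool.Agent.MP_e4cac8_mp

variable {E S : Type} [NormedAddCommGroup E] [InnerProductSpace ℝ E] [FiniteDimensional ℝ E]
  [MeasurableSpace E] [BorelSpace E] [NormedAddCommGroup S] [InnerProductSpace ℂ S]
  [CompleteSpace S] [FiniteDimensional ℂ S] {d : ℕ}
  {α : Fin d → S →L[ℂ] S} {β : S →L[ℂ] S}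

theorem final4 (e : OrthonormalBasis (Fin d) ℝ E) (hr : IsDiracRep α β) (hd : 2 ≤ d)
    (hS : 2 ≤ Module.finrank ℂ S) :
    ∃ p₀ : ℝ, ∀ m p A : ℝ, 0 < m → p₀ ≤ p → 0 < A → ENNReal.ofReal A < alphaStar e α β m p →
      ∀ V ∈ Pot E p, eLpNorm V (ENNReal.ofReal p) volume = ENNReal.ofReal A →
      (∀ W ∈ Pot E p, eLpNorm W (ENNReal.ofReal p) volume = ENNReal.ofReal A →
        lamD e α β m V ≤ lamD e α β m W) → Radial V := by
  have : Nontrivial S := Module.nontrivial_of_finrank_pos (R := ℂ) (by omega)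
  have hc : Ctx α β 1 := ⟨hr, hd, one_pos, exists_ne 0⟩
  have hA : StAlg e α := stAlg hc
  have h0 : StNL0 e α := stNL0 hc
  have hN := stNL hc h0 stMC hA
  have hP := stVp stVm
  have hI := stInt stVm
  have hW := stWin stVm hP
  have hG := stG1 hP hI hW
  exact finalD hr hd (exists_ne 0) (all2 e)
    (fun m hm => stStr3 hm h0 (stReg1 e α β m hm) (stReg2 hm) (stK hm))
    (stCmp3 hc stVm hN hA (stAlg2b hc) stCap (stNB hc h0 hA (stNBw hc h0 hA)))
    (stCmp4 hc stVm hN hA (stAlg2b hc) hI (stAv stVm hP hI hW) (stPt4 stVm hW)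
      (stRad4 stVm hI hW (stMod hI stFlow) (stL2 hI) (stRad1 hP hI hG stOS)
        (stRad2 hP hI hG (stG2 stVm hP hI hW) stOS) (stSc stVm hI hW))
      (stMass1 hA) stMass2 (stNB4 hc h0 hA (stNBw4 hc h0 hA)))
    stTent2 (stSup hr hd)

end Pool.Agent.MP_e4cac8_mp

end
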